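import Pool.Agent.CUG.WS

set_option autoImplicit false

/-!
# CUB.GAL

gal_ext: both sides are `(1/E) ∑_{y ∈ box B S x} ∏_{e∈offs F s} mm e y · ∏_j mm (en j) y` (split
`∏_{e∈F}` into the edges at `s`, enumerated by `en`, and `offs F s`): since `s ∉ B`, `y s = x s`, and
`nb j ∈ B` so `y (nb j) ∈ S (nb j)`, hence `mm (en j) y = #{i ∈ JS .. (x s) j : t (i, pos (nb j)) = y (nb j)}`.
gal_upd: no edge of `offs F s` touches `s`, `s ∉ B`. Careful: the box changes its `s`-coordinate
(bijection `y ↦ update y s s'`; `nb j ≠ s`). gal_inv: `mm e` for `e ∈ offs F s` uses only cells `(i, _)`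
with `i ∈ L e`, `L e` disjoint from `L (en j)`.
gal_reg: apply `hR` to `S' i = Y j` if `i = nb j`, `S i` otherwise (`nb j ∈ B` because of `Tch`,
`s ∉ B`). `∑_{y'∈piFinset Y} uu x y' = ext t pos L (offs F s) B S' x / E`, and
`E ∏_j |V (nb j)| = nom V m (offs F s) B > 0`; transfer the filter from the subtype
`↥(piFinset V)` to `piFinset V`.
gal_dense: for fixed `j` let `T = {s' ∈ V s : |JS .. s' j| < z}`. If `|T| > εin |V s|` then `Dense` for
the edge `en j` (either orientation) with the sets `T` and `S (nb j)` gives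
`c₀ m (|T|/|V s|)(|S (nb j)|/|V (nb j)|) ≤ ∑_{s'∈T} |JS s' j| < |T| c₀ ε m/|V s|`, contradicting
`|S (nb j)| ≥ ε |V (nb j)|`. Sum over `j`.
-/

namespace Pool.Agent.CUG

open Pool.Agent.CUB

variable {kp : ℕ}

open scoped Classical

private theorem gal_nbB {v k : ℕ} {F : Finset (Fin v × Fin v)} {B : Finset (Fin v)} {s : Fin v}
    (hs : s ∉ B) (htch : Tch F B) {en : Fin k → Fin v × Fin v} {nb : Fin k → Fin v}
    (hst : Star F s k en nb) (j : Fin k) : nb j ∈ B := by
  have h1 : en j ∈ F := ((hst.mem (en j)).1 ⟨j, rfl⟩).1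
  have h2 := htch (en j) h1
  rcases hst.ends j with ⟨ha, hb⟩ | ⟨ha, hb⟩
  · rcases h2 with h2 | h2
    · rw [ha] at h2; exact absurd h2 hs
    · rw [hb] at h2; exact h2
  · rcases h2 with h2 | h2
    · rw [ha] at h2; exact h2
    · rw [hb] at h2; exact absurd h2 hs

private theorem gal_split {v k : ℕ} {F : Finset (Fin v × Fin v)} {s : Fin v}
    {en : Fin k → Fin v × Fin v} {nb : Fin k → Fin v} (hst : Star F s k en nb)
    (f : Fin v × Fin v → ℕ) :
    ∏ e ∈ F, f e = (∏ e ∈ offs F s, f e) * ∏ j, f (en j) := by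
  have h1 : F.filter (fun e => ¬ (e.1 ≠ s ∧ e.2 ≠ s)) = Finset.univ.image en := by
    ext e
    simp only [Finset.mem_filter, Finset.mem_image, Finset.mem_univ, true_and]
    rw [hst.mem e]
    tauto
  rw [← Finset.prod_filter_mul_prod_filter_not F (fun e => e.1 ≠ s ∧ e.2 ≠ s), h1,
    Finset.prod_image (fun a _ b _ hab => hst.inj hab)]
  rfl

private theorem gal_box {v N : ℕ} {B : Finset (Fin v)} {S : Fin v → Finset (Fin N)}
    {x y : Fin v → Fin N} :
    y ∈ box B S x ↔ ∀ i, (i ∈ B → y i ∈ S i) ∧ (i ∉ B → y i = x i) := by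
  unfold box
  rw [Fintype.mem_piFinset]
  apply forall_congr'
  intro i
  by_cases hi : i ∈ B <;> simp [hi]

private theorem gal_mmen {v N M k : ℕ} (t : Fin M × Fin kp → Fin N) (pos : Fin v → Fin kp)
    (L : Fin v × Fin v → Finset (Fin M)) {F : Finset (Fin v × Fin v)} {s : Fin v}
    {en : Fin k → Fin v × Fin v} {nb : Fin k → Fin v} (hst : Star F s k en nb)
    (y : Fin v → Fin N) (j : Fin k) :
    mm t pos L (en j) y
      = ((L (en j)).filter fun i => t (i, pos s) = y s ∧ t (i, pos (nb j)) = y (nb j)).card := by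
  unfold mm
  rcases hst.ends j with ⟨ha, hb⟩ | ⟨ha, hb⟩
  · rw [ha, hb]
  · rw [ha, hb]
    congr 1
    ext i
    simp only [Finset.mem_filter]
    tauto

private theorem gal_offs {v : ℕ} {F : Finset (Fin v × Fin v)} {s : Fin v} {e : Fin v × Fin v}
    (he : e ∈ offs F s) : e ∈ F ∧ e.1 ≠ s ∧ e.2 ≠ s := by
  unfold offs at he
  simpa only [Finset.mem_filter] using he

/-- The extension count as an empirical sum over the star at the root `s`. -/
theorem gal_ext {v N M k : ℕ} (t : Fin M × Fin kp → Fin N) (pos : Fin v → Fin kp)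
    (L : Fin v × Fin v → Finset (Fin M)) (F : Finset (Fin v × Fin v)) (B : Finset (Fin v))
    (S : Fin v → Finset (Fin N)) (s : Fin v) (hs : s ∉ B) (htch : Tch F B)
    (en : Fin k → Fin v × Fin v) (nb : Fin k → Fin v) (hst : Star F s k en nb) (E : ℝ)
    (x : Fin v → Fin N) :
    (ext t pos L F B S x : ℝ) / E
      = emp (fun j => pos (nb j)) t
          (JS (pos s) (fun j => pos (nb j)) t (fun j => L (en j)) (fun j => S (nb j)) (x s))
          (uu t pos L (offs F s) B S nb E x) := by
  have hcard : ∀ y ∈ box B S x, ∏ j, mm t pos L (en j) y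
      = ((Fintype.piFinset (JS (pos s) (fun j => pos (nb j)) t (fun j => L (en j))
          (fun j => S (nb j)) (x s))).filter
          (fun lam => ∀ j, y (nb j) = t (lam j, pos (nb j)))).card := by
    intro y hy
    rw [gal_box] at hy
    have h1 : (Fintype.piFinset (JS (pos s) (fun j => pos (nb j)) t (fun j => L (en j))
          (fun j => S (nb j)) (x s))).filter
          (fun lam => ∀ j, y (nb j) = t (lam j, pos (nb j)))
        = Fintype.piFinset (fun j => (JS (pos s) (fun j => pos (nb j)) t (fun j => L (en j))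
          (fun j => S (nb j)) (x s) j).filter (fun i => y (nb j) = t (i, pos (nb j)))) := by
      ext lam
      simp only [Finset.mem_filter, Fintype.mem_piFinset]
      constructor
      · rintro ⟨ha, hb⟩ j
        exact ⟨ha j, hb j⟩
      · intro ha
        exact ⟨fun j => (ha j).1, fun j => (ha j).2⟩
    rw [h1, Fintype.card_piFinset]
    apply Finset.prod_congr rfl
    intro j _
    rw [gal_mmen t pos L hst y j]
    congr 1
    ext i
    have h2 : y s = x s := (hy s).2 hs
    have h3 : y (nb j) ∈ S (nb j) := (hy (nb j)).1 (gal_nbB hs htch hst j)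
    simp only [JS, Finset.mem_filter]
    constructor
    · rintro ⟨ha, hb, hc⟩
      refine ⟨⟨ha, by rw [hb, h2], by rw [hc]; exact h3⟩, hc.symm⟩
    · rintro ⟨⟨ha, hb, _⟩, hc⟩
      exact ⟨ha, by rw [hb, h2], hc.symm⟩
  have hnat : ext t pos L F B S x
      = ∑ lam ∈ Fintype.piFinset (JS (pos s) (fun j => pos (nb j)) t (fun j => L (en j))
          (fun j => S (nb j)) (x s)),
        ∑ y ∈ (box B S x).filter (fun y => ∀ j, y (nb j) = t (lam j, pos (nb j))),
          ∏ e ∈ offs F s, mm t pos L e y := by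
    unfold ext
    simp_rw [Finset.sum_filter]
    rw [Finset.sum_comm]
    apply Finset.sum_congr rfl
    intro y hy
    rw [gal_split hst (fun e => mm t pos L e y), hcard y hy, ← Finset.sum_filter,
      Finset.sum_const, smul_eq_mul, mul_comm]
  unfold emp uu
  rw [← Finset.sum_div, hnat]
  congr 1
  push_cast
  rfl

/-- `uu` does not depend on the coordinate `s`. -/
theorem gal_upd {v N M k : ℕ} (t : Fin M × Fin kp → Fin N) (pos : Fin v → Fin kp)
    (L : Fin v × Fin v → Finset (Fin M)) (F : Finset (Fin v × Fin v)) (B : Finset (Fin v))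
    (S : Fin v → Finset (Fin N)) (s : Fin v) (hs : s ∉ B) (htch : Tch F B)
    (en : Fin k → Fin v × Fin v) (nb : Fin k → Fin v) (hst : Star F s k en nb) (E : ℝ)
    (x : Fin v → Fin N) (s' : Fin N) :
    uu t pos L (offs F s) B S nb E (Function.update x s s') = uu t pos L (offs F s) B S nb E x := by
  funext y'
  unfold uu
  congr 2
  have hne : ∀ j, nb j ≠ s := fun j hj => hs (hj ▸ gal_nbB hs htch hst j)
  apply Finset.sum_nbij' (fun y => Function.update y s (x s)) (fun y => Function.update y s s')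
  · intro y hy
    simp only [Finset.mem_filter, gal_box] at hy ⊢
    refine ⟨fun i => ?_, fun j => ?_⟩
    · by_cases hi : i = s
      · subst hi
        exact ⟨fun h => absurd h hs, fun _ => by simp⟩
      · have h1 := hy.1 i
        rw [Function.update_of_ne hi] at h1
        rw [Function.update_of_ne hi]
        exact h1
    · rw [Function.update_of_ne (hne j)]
      exact hy.2 j
  · intro y hy
    simp only [Finset.mem_filter, gal_box] at hy ⊢
    refine ⟨fun i => ?_, fun j => ?_⟩
    · by_cases hi : i = s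
      · subst hi
        exact ⟨fun h => absurd h hs, fun _ => by simp⟩
      · have h1 := hy.1 i
        rw [Function.update_of_ne hi, Function.update_of_ne hi]
        exact h1
    · rw [Function.update_of_ne (hne j)]
      exact hy.2 j
  · intro y hy
    simp only [Finset.mem_filter, gal_box] at hy
    have h1 : y s = s' := by
      have := (hy.1 s).2 hs
      rwa [Function.update_self] at this
    simp only [Function.update_idem]
    rw [← h1, Function.update_eq_self]
  · intro y hy
    simp only [Finset.mem_filter, gal_box] at hy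
    have h1 : y s = x s := (hy.1 s).2 hs
    simp only [Function.update_idem]
    rw [← h1, Function.update_eq_self]
  · intro y _
    apply Finset.prod_congr rfl
    intro e he
    obtain ⟨_, h1, h2⟩ := gal_offs he
    unfold mm
    rw [Function.update_of_ne h1, Function.update_of_ne h2]

/-- `uu` does not depend on the cells `(i, pos (nb j))`, `i ∈ L (en j)`. -/
theorem gal_inv {v N M k : ℕ} (pos : Fin v → Fin kp)
    (L : Fin v × Fin v → Finset (Fin M)) (F : Finset (Fin v × Fin v)) (B : Finset (Fin v))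
    (S : Fin v → Finset (Fin N)) (s : Fin v)
    (hdis : ∀ e ∈ F, ∀ e' ∈ F, e ≠ e' → Disjoint (L e) (L e'))
    (en : Fin k → Fin v × Fin v) (nb : Fin k → Fin v) (hst : Star F s k en nb) (E : ℝ)
    (t t' : Fin M × Fin kp → Fin N)
    (htt : ∀ c : Fin M × Fin kp, (∀ j, ∀ i ∈ L (en j), c ≠ (i, pos (nb j))) → t c = t' c) :
    uu t pos L (offs F s) B S nb E = uu t' pos L (offs F s) B S nb E := by
  funext x y'
  unfold uu
  congr 2
  apply Finset.sum_congr rfl
  intro y _
  apply Finset.prod_congr rfl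
  intro e he
  obtain ⟨h0, h1, h2⟩ := gal_offs he
  have hc : ∀ i ∈ L e, ∀ a : Fin kp, t (i, a) = t' (i, a) := by
    intro i hi a
    apply htt
    intro j i' hi' hEq
    have h3 : i = i' := congrArg Prod.fst hEq
    subst h3
    have hne : e ≠ en j := by
      intro hej
      rcases hst.ends j with ⟨ha, _⟩ | ⟨_, hb⟩
      · exact h1 (by rw [hej, ha])
      · exact h2 (by rw [hej, hb])
    have hd := hdis e h0 (en j) ((hst.mem (en j)).1 ⟨j, rfl⟩).1 hne
    exact (Finset.disjoint_left.1 hd hi) hi'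
  unfold mm
  congr 1
  apply Finset.filter_congr
  intro i hi
  rw [hc i hi, hc i hi]

/-- Regularity of the rest gives hypothesis `(R)` of `addx`. -/
theorem gal_reg {v N M k : ℕ} (t : Fin M × Fin kp → Fin N) (pos : Fin v → Fin kp)
    (L : Fin v × Fin v → Finset (Fin M)) (V : Fin v → Finset (Fin N)) (m : ℝ)
    (F : Finset (Fin v × Fin v)) (B : Finset (Fin v)) (s : Fin v) (hs : s ∉ B) (htch : Tch F B)
    (en : Fin k → Fin v × Fin v) (nb : Fin k → Fin v) (hst : Star F s k en nb) (ε ε' c' : ℝ)
    (hε : ε' ≤ ε) (hm : 0 < m) (hV : ∀ i, (V i).Nonempty)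
    (hR : Reg t pos L V m (offs F s) B ε' c') (S : Fin v → Finset (Fin N)) (hS : ∀ i, S i ⊆ V i)
    (hSε : ∀ i ∈ B, ε * ((V i).card : ℝ) ≤ ((S i).card : ℝ)) (Y : Fin k → Finset (Fin N))
    (hY : ∀ j, Y j ⊆ S (nb j)) (hYε : ∀ j, ε' * ((V (nb j)).card : ℝ) ≤ ((Y j).card : ℝ)) :
    ((Finset.univ.filter fun x : ↥(Fintype.piFinset V) =>
        ∑ y ∈ Fintype.piFinset Y,
          uu t pos L (offs F s) B S nb (nom V m (offs F s) B / ∏ j, ((V (nb j)).card : ℝ)) x.1 y
            < c' * ∏ j, ((V (nb j)).card : ℝ)).card : ℝ)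
      ≤ ε' * (Fintype.card ↥(Fintype.piFinset V) : ℝ) := by
  set S' : Fin v → Finset (Fin N) :=
    fun i => if h : ∃ j, nb j = i then Y (Classical.choose h) else S i with hS'
  have hS'nb : ∀ j, S' (nb j) = Y j := by
    intro j
    have h : ∃ j', nb j' = nb j := ⟨j, rfl⟩
    simp only [hS', dif_pos h]
    rw [hst.injn (Classical.choose_spec h)]
  have hS'n : ∀ i, (¬ ∃ j, nb j = i) → S' i = S i := by
    intro i h
    simp only [hS', dif_neg h]
  have hSV : ∀ i, S' i ⊆ V i := by
    intro i
    by_cases h : ∃ j, nb j = i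
    · obtain ⟨j, rfl⟩ := h
      rw [hS'nb]
      exact (hY j).trans (hS _)
    · rw [hS'n i h]
      exact hS i
  have hSc : ∀ i ∈ B, ε' * ((V i).card : ℝ) ≤ ((S' i).card : ℝ) := by
    intro i hi
    by_cases h : ∃ j, nb j = i
    · obtain ⟨j, rfl⟩ := h
      rw [hS'nb]
      exact hYε j
    · rw [hS'n i h]
      refine le_trans ?_ (hSε i hi)
      exact mul_le_mul_of_nonneg_right hε (Nat.cast_nonneg _)
  have hmain := hR S' hSV hSc
  have hVpos : ∀ i, (0 : ℝ) < ((V i).card : ℝ) := fun i => by
    exact_mod_cast Finset.card_pos.2 (hV i)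
  have hP : (0 : ℝ) < ∏ j, ((V (nb j)).card : ℝ) := Finset.prod_pos fun j _ => hVpos _
  have hnom : 0 < nom V m (offs F s) B := by
    unfold nom
    apply mul_pos
    · exact Finset.prod_pos fun i _ => hVpos i
    · exact Finset.prod_pos fun e _ => div_pos hm (mul_pos (hVpos _) (hVpos _))
  have hsum : ∀ x : Fin v → Fin N, ∀ E : ℝ,
      ∑ y ∈ Fintype.piFinset Y, uu t pos L (offs F s) B S nb E x y
        = (ext t pos L (offs F s) B S' x : ℝ) / E := by
    intro x E
    unfold uu
    rw [← Finset.sum_div]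
    congr 1
    rw [← Nat.cast_sum]
    congr 1
    unfold ext
    have hmaps : ∀ y ∈ box B S' x, (fun j => y (nb j)) ∈ Fintype.piFinset Y := by
      intro y hy
      rw [gal_box] at hy
      rw [Fintype.mem_piFinset]
      intro j
      have := (hy (nb j)).1 (gal_nbB hs htch hst j)
      rwa [hS'nb] at this
    rw [← Finset.sum_fiberwise_of_maps_to hmaps]
    apply Finset.sum_congr rfl
    intro y' hy'
    rw [Fintype.mem_piFinset] at hy'
    apply Finset.sum_congr _ (fun _ _ => rfl)
    ext y
    simp only [Finset.mem_filter, gal_box]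
    constructor
    · rintro ⟨ha, hb⟩
      refine ⟨fun i => ⟨fun hi => ?_, (ha i).2⟩, funext hb⟩
      by_cases h : ∃ j, nb j = i
      · obtain ⟨j, rfl⟩ := h
        rw [hS'nb, hb j]
        exact hy' j
      · rw [hS'n i h]
        exact (ha i).1 hi
    · rintro ⟨ha, hb⟩
      have hb' : ∀ j, y (nb j) = y' j := fun j => congrFun hb j
      refine ⟨fun i => ⟨fun hi => ?_, (ha i).2⟩, hb'⟩
      by_cases h : ∃ j, nb j = i
      · obtain ⟨j, rfl⟩ := h
        rw [hb' j]
        exact hY j (hy' j)
      · rw [← hS'n i h]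
        exact (ha i).1 hi
  have hiff : ∀ x : Fin v → Fin N,
      (∑ y ∈ Fintype.piFinset Y,
          uu t pos L (offs F s) B S nb (nom V m (offs F s) B / ∏ j, ((V (nb j)).card : ℝ)) x y
            < c' * ∏ j, ((V (nb j)).card : ℝ))
        ↔ (ext t pos L (offs F s) B S' x : ℝ) < c' * nom V m (offs F s) B := by
    intro x
    rw [hsum, div_div_eq_mul_div, div_lt_iff₀ hnom, mul_right_comm c', mul_lt_mul_iff_left₀ hP]
  have hcc : (Finset.univ.filter fun x : ↥(Fintype.piFinset V) =>
        ∑ y ∈ Fintype.piFinset Y,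
          uu t pos L (offs F s) B S nb (nom V m (offs F s) B / ∏ j, ((V (nb j)).card : ℝ)) x.1 y
            < c' * ∏ j, ((V (nb j)).card : ℝ)).card
      = ((Fintype.piFinset V).filter fun x =>
        (ext t pos L (offs F s) B S' x : ℝ) < c' * nom V m (offs F s) B).card := by
    rw [← Finset.card_map (Function.Embedding.subtype _)]
    congr 1
    ext x
    simp only [Finset.mem_map, Finset.mem_filter, Finset.mem_univ, true_and,
      Function.Embedding.subtype_apply]
    constructor
    · rintro ⟨⟨a, ha⟩, hb, rfl⟩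
      exact ⟨ha, (hiff a).1 hb⟩
    · rintro ⟨ha, hb⟩
      exact ⟨⟨x, ha⟩, (hiff x).2 hb, rfl⟩
  rw [hcc, Fintype.card_coe]
  exact hmain

/-- Density gives hypothesis `(Dn)` of `addx`. -/
theorem gal_dense {v N M k : ℕ} (t : Fin M × Fin kp → Fin N) (pos : Fin v → Fin kp)
    (L : Fin v × Fin v → Finset (Fin M)) (V : Fin v → Finset (Fin N)) (m : ℝ)
    (F : Finset (Fin v × Fin v)) (B : Finset (Fin v)) (s : Fin v) (hs : s ∉ B) (htch : Tch F B)
    (en : Fin k → Fin v × Fin v) (nb : Fin k → Fin v) (hst : Star F s k en nb) (ε εin c₀ : ℝ)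
    (hε : 0 < ε) (hεin : 0 < εin) (hεin' : εin ≤ ε) (hc₀ : 0 < c₀) (hm : 0 < m)
    (hV : ∀ i, (V i).Nonempty)
    (hD : Dense t pos L V m F εin c₀) (S : Fin v → Finset (Fin N)) (hS : ∀ i, S i ⊆ V i)
    (hSε : ∀ i ∈ B, ε * ((V i).card : ℝ) ≤ ((S i).card : ℝ)) (z : ℕ)
    (hz : (z : ℝ) ≤ c₀ * ε * m / ((V s).card : ℝ)) :
    (((V s).filter fun s' => ∃ j,
        (JS (pos s) (fun j => pos (nb j)) t (fun j => L (en j)) (fun j => S (nb j)) s' j).card
          < z).card : ℝ)
      ≤ (k : ℝ) * εin * ((V s).card : ℝ) := by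
  have hVpos : ∀ i, (0 : ℝ) < ((V i).card : ℝ) := fun i => by
    exact_mod_cast Finset.card_pos.2 (hV i)
  have hone : ∀ j, ((((V s).filter fun s' =>
      (JS (pos s) (fun j => pos (nb j)) t (fun j => L (en j)) (fun j => S (nb j)) s' j).card
        < z).card : ℝ)) ≤ εin * ((V s).card : ℝ) := by
    intro j
    by_contra hcon
    push Not at hcon
    set T : Finset (Fin N) := (V s).filter fun s' =>
      (JS (pos s) (fun j => pos (nb j)) t (fun j => L (en j)) (fun j => S (nb j)) s' j).card < z
      with hT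
    have hTV : T ⊆ V s := Finset.filter_subset _ _
    have henF : en j ∈ F := ((hst.mem (en j)).1 ⟨j, rfl⟩).1
    have hnbB : nb j ∈ B := gal_nbB hs htch hst j
    have hSj : ε * ((V (nb j)).card : ℝ) ≤ ((S (nb j)).card : ℝ) := hSε _ hnbB
    have hSj' : εin * ((V (nb j)).card : ℝ) ≤ ((S (nb j)).card : ℝ) :=
      le_trans (mul_le_mul_of_nonneg_right hεin' (hVpos _).le) hSj
    have hTpos : (0 : ℝ) < (T.card : ℝ) := lt_trans (mul_pos hεin (hVpos s)) hcon
    have hTne : T.Nonempty := Finset.card_pos.1 (by exact_mod_cast hTpos)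
    have hden : c₀ * m * ((T.card : ℝ) / ((V s).card : ℝ))
        * (((S (nb j)).card : ℝ) / ((V (nb j)).card : ℝ))
        ≤ (((L (en j)).filter fun i => t (i, pos s) ∈ T ∧ t (i, pos (nb j)) ∈ S (nb j)).card : ℝ)
        := by
      rcases hst.ends j with ⟨ha, hb⟩ | ⟨ha, hb⟩
      · have h := hD (en j) henF T (S (nb j))
        rw [ha, hb] at h
        exact h hTV (hS _) hcon.le hSj'
      · have h := hD (en j) henF (S (nb j)) T
        rw [ha, hb] at h
        have h' := h (hS _) hTV hSj' hcon.le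
        have hset : ((L (en j)).filter fun i => t (i, pos s) ∈ T ∧ t (i, pos (nb j)) ∈ S (nb j))
            = ((L (en j)).filter fun i => t (i, pos (nb j)) ∈ S (nb j) ∧ t (i, pos s) ∈ T) := by
          apply Finset.filter_congr
          intro i _
          tauto
        rw [hset]
        calc c₀ * m * ((T.card : ℝ) / ((V s).card : ℝ))
              * (((S (nb j)).card : ℝ) / ((V (nb j)).card : ℝ))
            = c₀ * m * (((S (nb j)).card : ℝ) / ((V (nb j)).card : ℝ))
              * ((T.card : ℝ) / ((V s).card : ℝ)) := by ring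
          _ ≤ _ := h'
    have hfib : ((L (en j)).filter fun i => t (i, pos s) ∈ T ∧ t (i, pos (nb j)) ∈ S (nb j)).card
        = ∑ s' ∈ T, (JS (pos s) (fun j => pos (nb j)) t (fun j => L (en j))
            (fun j => S (nb j)) s' j).card := by
      rw [Finset.card_eq_sum_card_fiberwise (f := fun i => t (i, pos s)) (t := T)]
      · apply Finset.sum_congr rfl
        intro s' hs'
        congr 1
        ext i
        simp only [JS, Finset.mem_filter]
        constructor
        · rintro ⟨⟨ha, _, hc⟩, hd⟩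
          exact ⟨ha, hd, hc⟩
        · rintro ⟨ha, hb, hc⟩
          exact ⟨⟨ha, by rw [hb]; exact hs', hc⟩, hb⟩
      · intro i hi
        simp only [Finset.coe_filter, Set.mem_setOf_eq] at hi
        exact hi.2.1
    have hlt : ∑ s' ∈ T, (JS (pos s) (fun j => pos (nb j)) t (fun j => L (en j))
            (fun j => S (nb j)) s' j).card < ∑ _s' ∈ T, z := by
      apply Finset.sum_lt_sum_of_nonempty hTne
      intro s' hs'
      exact (Finset.mem_filter.1 hs').2
    rw [Finset.sum_const, smul_eq_mul, ← hfib] at hlt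
    have hlt' : (((L (en j)).filter fun i => t (i, pos s) ∈ T ∧ t (i, pos (nb j)) ∈ S (nb j)).card
        : ℝ) < (T.card : ℝ) * (z : ℝ) := by exact_mod_cast hlt
    have h1 : (T.card : ℝ) * (z : ℝ) ≤ (T.card : ℝ) * (c₀ * ε * m / ((V s).card : ℝ)) :=
      mul_le_mul_of_nonneg_left hz hTpos.le
    have h2 : ε ≤ ((S (nb j)).card : ℝ) / ((V (nb j)).card : ℝ) := by
      rw [le_div_iff₀ (hVpos _)]
      exact hSj
    have h3 : c₀ * m * ((T.card : ℝ) / ((V s).card : ℝ)) * ε
        ≤ c₀ * m * ((T.card : ℝ) / ((V s).card : ℝ))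
          * (((S (nb j)).card : ℝ) / ((V (nb j)).card : ℝ)) := by
      apply mul_le_mul_of_nonneg_left h2
      have := hVpos s
      positivity
    have h4 : (T.card : ℝ) * (c₀ * ε * m / ((V s).card : ℝ))
        = c₀ * m * ((T.card : ℝ) / ((V s).card : ℝ)) * ε := by ring
    linarith
  have hun : ((V s).filter fun s' => ∃ j,
        (JS (pos s) (fun j => pos (nb j)) t (fun j => L (en j)) (fun j => S (nb j)) s' j).card
          < z)
      ⊆ Finset.univ.biUnion fun j => (V s).filter fun s' =>
        (JS (pos s) (fun j => pos (nb j)) t (fun j => L (en j)) (fun j => S (nb j)) s' j).card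
          < z := by
    intro s' hs'
    rw [Finset.mem_filter] at hs'
    obtain ⟨h1, j, h2⟩ := hs'
    rw [Finset.mem_biUnion]
    exact ⟨j, Finset.mem_univ _, Finset.mem_filter.2 ⟨h1, h2⟩⟩
  have hc1 := (Finset.card_le_card hun).trans Finset.card_biUnion_le
  have hc2 : ((((V s).filter fun s' => ∃ j,
        (JS (pos s) (fun j => pos (nb j)) t (fun j => L (en j)) (fun j => S (nb j)) s' j).card
          < z).card : ℕ) : ℝ) ≤ ((∑ j, (((V s).filter fun s' =>
        (JS (pos s) (fun j => pos (nb j)) t (fun j => L (en j)) (fun j => S (nb j)) s' j).card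
          < z).card) : ℕ) : ℝ) := by exact_mod_cast hc1
  refine hc2.trans ?_
  push_cast
  calc (∑ j, ((((V s).filter fun s' =>
        (JS (pos s) (fun j => pos (nb j)) t (fun j => L (en j)) (fun j => S (nb j)) s' j).card
          < z).card : ℝ))) ≤ ∑ _j : Fin k, εin * ((V s).card : ℝ) :=
        Finset.sum_le_sum fun j _ => hone j
    _ = (k : ℝ) * εin * ((V s).card : ℝ) := by
        rw [Finset.sum_const, Finset.card_univ, Fintype.card_fin, nsmul_eq_mul, mul_assoc]

end Pool.Agent.CUG
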