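import Pool.Agent.CUG.Defs

set_option autoImplicit false

/-!
# CUG.CNT

Elementary (`clsL` is symmetric; classes of different unordered edges are disjoint: if the two
position pairs are equal use `Parts.disV`, otherwise there is a position of one that is not a position of
the other, use `Parts.disg`). `ext_le_gcnt`: `∏_{e∈F} mm e y` counts the families of blocks `λ_e ∈ L e`
consistent with `y`; `λ` is injective because the `L e` are disjoint (see CUB/GSP.lean, CUB/ITA.lean, where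
this is proved inline). `nrm_ge`: `|V i| ≥ κ₁ N`, `|V i| ≤ N`, `msz ≥ κ₁^kp M`, `M / N^2 = h^(-8 be)`
(`P.hga`).
-/

namespace Pool.Agent.CUG

open Pool.Agent.CUB
open scoped Classical

theorem clsL_symm {kp v N M : ℕ} (t : Fin M × Fin kp → Fin N) (pos : Fin v → Fin kp)
    (V : Fin v → Finset (Fin N)) (Vg : Fin kp → Finset (Fin N)) (L0 : Finset (Fin M))
    (d d' : Fin v) : clsL t pos V Vg L0 (d, d') = clsL t pos V Vg L0 (d', d) := by
  unfold clsL
  by_cases h : pos d = pos d'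
  · rw [if_pos h, if_pos h.symm]
  · rw [if_neg h, if_neg (fun h' => h h'.symm)]
    unfold cls
    refine Finset.filter_congr fun i _ => ?_
    refine forall_congr' fun a => ?_
    by_cases h1 : a = pos d
    · have h2 : a ≠ pos d' := fun h2 => h (h1.symm.trans h2)
      simp only [if_pos h1, if_neg h2]
    · simp only [if_neg h1]

theorem clsL_sub {kp v N M : ℕ} (t : Fin M × Fin kp → Fin N) (pos : Fin v → Fin kp)
    (V : Fin v → Finset (Fin N)) (Vg : Fin kp → Finset (Fin N)) (L0 : Finset (Fin M))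
    (e : Fin v × Fin v) : clsL t pos V Vg L0 e ⊆ L0 := by
  unfold clsL
  split_ifs
  · exact Finset.empty_subset _
  · exact Finset.filter_subset _ _

theorem clsL_mono {kp v N M : ℕ} (t : Fin M × Fin kp → Fin N) (pos : Fin v → Fin kp)
    (V : Fin v → Finset (Fin N)) (Vg : Fin kp → Finset (Fin N)) (L0 L1 : Finset (Fin M))
    (h : L0 ⊆ L1) (e : Fin v × Fin v) : clsL t pos V Vg L0 e ⊆ clsL t pos V Vg L1 e := by
  unfold clsL
  split_ifs
  · exact le_rfl
  · exact Finset.filter_subset_filter _ h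

theorem clsL_mem {kp v N M : ℕ} (t : Fin M × Fin kp → Fin N) (pos : Fin v → Fin kp)
    (V : Fin v → Finset (Fin N)) (Vg : Fin kp → Finset (Fin N)) (L0 : Finset (Fin M))
    (e : Fin v × Fin v) (i : Fin M) (hi : i ∈ clsL t pos V Vg L0 e) :
    i ∈ L0 ∧ pos e.1 ≠ pos e.2 ∧ t (i, pos e.1) ∈ V e.1 ∧ t (i, pos e.2) ∈ V e.2 := by
  unfold clsL at hi
  by_cases h : pos e.1 = pos e.2
  · rw [if_pos h] at hi
    exact absurd hi (Finset.notMem_empty _)
  · rw [if_neg h] at hi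
    obtain ⟨h1, h2⟩ := Finset.mem_filter.1 hi
    refine ⟨h1, h, ?_, ?_⟩
    · have := h2 (pos e.1)
      rwa [if_pos rfl] at this
    · have := h2 (pos e.2)
      rwa [if_neg (fun h' => h h'.symm), if_pos rfl] at this

/-- Classes of different unordered edges are disjoint. -/
theorem clsL_disj {kp v N M : ℕ} (t : Fin M × Fin kp → Fin N) (pos : Fin v → Fin kp) (κ₁ : ℝ)
    (V : Fin v → Finset (Fin N)) (Vg : Fin kp → Finset (Fin N)) (nn : Fin kp → ℕ)
    (hP : Parts pos κ₁ V Vg nn) (L0 : Finset (Fin M)) (e e' : Fin v × Fin v) (h : e ≠ e')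
    (h' : e ≠ (e'.2, e'.1)) : Disjoint (clsL t pos V Vg L0 e) (clsL t pos V Vg L0 e') := by
  rw [Finset.disjoint_left]
  intro i hi hi'
  have key : ∀ d, t (i, pos d) ∈ V d → d = e'.1 ∨ d = e'.2 := by
    intro d hd
    have hq : pos e'.1 ≠ pos e'.2 := (clsL_mem t pos V Vg L0 e' i hi').2.1
    unfold clsL at hi'
    rw [if_neg hq] at hi'
    have h2 := (Finset.mem_filter.1 hi').2 (pos d)
    by_cases h3 : pos d = pos e'.1
    · rw [if_pos h3] at h2
      by_contra hc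
      push Not at hc
      exact Finset.disjoint_left.1 (hP.disV d e'.1 hc.1 h3) hd h2
    · rw [if_neg h3] at h2
      by_cases h4 : pos d = pos e'.2
      · rw [if_pos h4] at h2
        by_contra hc
        push Not at hc
        exact Finset.disjoint_left.1 (hP.disV d e'.2 hc.2 h4) hd h2
      · rw [if_neg h4] at h2
        exact absurd h2 (Finset.disjoint_left.1 (hP.disg d) hd)
  obtain ⟨_, h1, h2, h3⟩ := clsL_mem t pos V Vg L0 e i hi
  have h4 := key e.1 h2
  have h5 := key e.2 h3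
  rcases h4 with h4 | h4
  · rcases h5 with h5 | h5
    · exact h1 (by rw [h4, h5])
    · exact h (Prod.ext h4 h5)
  · rcases h5 with h5 | h5
    · exact h' (Prod.ext h4 h5)
    · exact h1 (by rw [h4, h5])

private lemma CNT_gcnt {kp v N M : ℕ} (t : Fin M × Fin kp → Fin N) (pos : Fin v → Fin kp)
    (L : Fin v × Fin v → Finset (Fin M)) (G : Finset (Fin v × Fin v)) (B' : Finset (Fin v))
    (ρ : Fin v → Fin N) (hdis : ∀ e ∈ G, ∀ e' ∈ G, e ≠ e' → Disjoint (L e) (L e'))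
    (X : Finset (Fin v → Fin N)) (hX : ∀ y ∈ X, ∀ i, i ∉ B' → y i = ρ i) :
    ∑ y ∈ X, ∏ e ∈ G, mm t pos L e y ≤ Gcnt t pos G B' ρ := by
  have h1 : ∀ y : Fin v → Fin N, ∏ e ∈ G, mm t pos L e y =
      (Fintype.piFinset (fun e : ↥G => (L e.1).filter fun i =>
        t (i, pos e.1.1) = y e.1.1 ∧ t (i, pos e.1.2) = y e.1.2)).card := by
    intro y
    rw [Fintype.card_piFinset, ← Finset.prod_coe_sort]
    rfl
  rw [Finset.sum_congr rfl fun y _ => h1 y, ← Finset.card_sigma]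
  unfold Gcnt
  refine Finset.card_le_card_of_injOn (fun q => (q.1, q.2)) ?_ ?_
  · rintro ⟨y, lam⟩ hq
    simp only [Finset.coe_sigma, Set.mem_sigma_iff, Finset.mem_coe, Finset.mem_filter,
      Fintype.mem_piFinset] at hq
    simp only [Finset.coe_filter, Finset.mem_univ, true_and, Set.mem_ofPred_eq]
    refine ⟨hX y hq.1, ?_, fun e => (hq.2 e).2⟩
    intro e e' hee
    by_contra hne
    have hne' : e.1 ≠ e'.1 := fun h => hne (Subtype.ext h)
    have := Finset.disjoint_left.1 (hdis e.1 e.2 e'.1 e'.2 hne') (hq.2 e).1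
    rw [hee] at this
    exact this (hq.2 e').1
  · rintro ⟨y, lam⟩ _ ⟨y', lam'⟩ _ h
    simp only [Prod.mk.injEq] at h
    obtain ⟨h2, h3⟩ := h
    subst h2
    subst h3
    rfl

/-- Extension counts are bounded by the crude count. -/
theorem ext_le_gcnt {kp v N M : ℕ} (t : Fin M × Fin kp → Fin N) (pos : Fin v → Fin kp)
    (L : Fin v × Fin v → Finset (Fin M)) (F : Finset (Fin v × Fin v)) (B : Finset (Fin v))
    (hdis : ∀ e ∈ F, ∀ e' ∈ F, e ≠ e' → Disjoint (L e) (L e')) (S : Fin v → Finset (Fin N))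
    (x : Fin v → Fin N) : ext t pos L F B S x ≤ Gcnt t pos F B x := by
  unfold ext
  refine CNT_gcnt t pos L F B x hdis (box B S x) ?_
  intro y hy i hi
  unfold box at hy
  have := Fintype.mem_piFinset.mp hy i
  rw [if_neg hi] at this
  exact Finset.mem_singleton.mp this

/-- Total weight of the assignments with a given value at `u`. -/
theorem sum_le_gcnt {kp v N M : ℕ} (t : Fin M × Fin kp → Fin N) (pos : Fin v → Fin kp)
    (L : Fin v × Fin v → Finset (Fin M)) (E : Finset (Fin v × Fin v))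
    (hdis : ∀ e ∈ E, ∀ e' ∈ E, e ≠ e' → Disjoint (L e) (L e')) (V : Fin v → Finset (Fin N))
    (u : Fin v) (ρ : Fin v → Fin N) :
    ∑ x ∈ (Fintype.piFinset V).filter (fun x => x u = ρ u), ∏ e ∈ E, mm t pos L e x
      ≤ Gcnt t pos E (Finset.univ.erase u) ρ := by
  refine CNT_gcnt t pos L E (Finset.univ.erase u) ρ hdis _ ?_
  intro y hy i hi
  have h1 : i = u := by
    by_contra hc
    exact hi (Finset.mem_erase.2 ⟨hc, Finset.mem_univ _⟩)
  rw [h1]
  exact (Finset.mem_filter.1 hy).2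

theorem parts_le {kp v N : ℕ} {pos : Fin v → Fin kp} {κ₁ : ℝ} {V : Fin v → Finset (Fin N)}
    {Vg : Fin kp → Finset (Fin N)} {nn : Fin kp → ℕ} (hP : Parts pos κ₁ V Vg nn) (a : Fin kp) :
    (nn a : ℝ) ≤ (N : ℝ) := by
  rw [← hP.cg a]
  have := Finset.card_le_univ (Vg a)
  rw [Fintype.card_fin] at this
  exact_mod_cast this

theorem msz_le {kp v N : ℕ} (M : ℕ) {pos : Fin v → Fin kp} {κ₁ : ℝ} {V : Fin v → Finset (Fin N)}
    {Vg : Fin kp → Finset (Fin N)} {nn : Fin kp → ℕ} (hP : Parts pos κ₁ V Vg nn) :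
    msz N M nn ≤ (M : ℝ) := by
  unfold msz
  refine mul_le_of_le_one_right (Nat.cast_nonneg _) ?_
  refine Finset.prod_le_one (fun a _ => by positivity) fun a _ => ?_
  exact div_le_one_of_le₀ (parts_le hP a) (Nat.cast_nonneg _)

theorem msz_ge {kp v N : ℕ} (M : ℕ) {pos : Fin v → Fin kp} {κ₁ : ℝ} {V : Fin v → Finset (Fin N)}
    {Vg : Fin kp → Finset (Fin N)} {nn : Fin kp → ℕ} (hP : Parts pos κ₁ V Vg nn) (hκ : 0 < κ₁)
    (hN : 0 < N) : κ₁ ^ kp * (M : ℝ) ≤ msz N M nn := by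
  unfold msz
  rw [mul_comm]
  refine mul_le_mul_of_nonneg_left ?_ (Nat.cast_nonneg _)
  have h1 : ∏ _a : Fin kp, κ₁ ≤ ∏ a, ((nn a : ℝ) / (N : ℝ)) := by
    refine Finset.prod_le_prod (fun _ _ => hκ.le) fun a _ => ?_
    have h2 : (0 : ℝ) < (N : ℝ) := by exact_mod_cast hN
    rw [le_div_iff₀ h2]
    exact hP.big a
  rw [Finset.prod_const, Finset.card_univ, Fintype.card_fin] at h1
  exact h1

private lemma CNT_fac {kp v N : ℕ} (P : Prm) (M : ℕ) {H : ℝ} (hNH : (N : ℝ) = H ^ (8 * P.al))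
    (hMH : (M : ℝ) = H ^ (8 * P.ga)) (hH0 : 0 < H) {pos : Fin v → Fin kp} {κ₁ : ℝ}
    {V : Fin v → Finset (Fin N)} {Vg : Fin kp → Finset (Fin N)} {nn : Fin kp → ℕ}
    (hP : Parts pos κ₁ V Vg nn) (hκ : 0 < κ₁) (hN : 0 < N) (e : Fin v × Fin v) :
    κ₁ ^ kp / H ^ (8 * P.be) ≤ msz N M nn / (((V e.1).card : ℝ) * ((V e.2).card : ℝ)) := by
  have hms := msz_ge M hP hκ hN
  have hN' : (0 : ℝ) < (N : ℝ) := by exact_mod_cast hN
  have hV0 : ∀ i, 0 < ((V i).card : ℝ) := by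
    intro i
    rw [hP.cV i]
    exact lt_of_lt_of_le (by positivity) (hP.big _)
  have hVN : ∀ i, ((V i).card : ℝ) ≤ (N : ℝ) := by
    intro i
    rw [hP.cV i]
    exact parts_le hP _
  rw [div_le_div_iff₀ (by positivity) (mul_pos (hV0 _) (hV0 _))]
  calc κ₁ ^ kp * (((V e.1).card : ℝ) * ((V e.2).card : ℝ))
      ≤ κ₁ ^ kp * ((N : ℝ) * (N : ℝ)) :=
        mul_le_mul_of_nonneg_left (mul_le_mul (hVN _) (hVN _) (hV0 _).le hN'.le) (by positivity)
    _ = κ₁ ^ kp * (M : ℝ) * H ^ (8 * P.be) := by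
        rw [hNH, hMH, mul_assoc, ← pow_add, ← pow_add]
        congr 2
        have := P.hga
        omega
    _ ≤ msz N M nn * H ^ (8 * P.be) := mul_le_mul_of_nonneg_right hms (by positivity)

/-- Lower bound for the nominal weight. -/
theorem nrm_ge {kp v N M : ℕ} (P : Prm) (h : ℕ) (h1 : 1 ≤ h) (hN : N = h ^ (8 * P.al))
    (hM : M = h ^ (8 * P.ga)) {pos : Fin v → Fin kp} {κ₁ : ℝ} {V : Fin v → Finset (Fin N)}
    {Vg : Fin kp → Finset (Fin N)} {nn : Fin kp → ℕ} (hP : Parts pos κ₁ V Vg nn) (hκ : 0 < κ₁)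
    (E : Finset (Fin v × Fin v)) :
    κ₁ ^ (v + kp * E.card) * ((h : ℝ) ^ (8 * P.al * v) / (h : ℝ) ^ (8 * P.be * E.card))
      ≤ nrm V (msz N M nn) E := by
  obtain ⟨H, hH⟩ : ∃ H : ℝ, H = (h : ℝ) := ⟨_, rfl⟩
  have hH1 : 1 ≤ H := by rw [hH]; exact_mod_cast h1
  have hH0 : 0 < H := by linarith
  have hN0 : 0 < N := by rw [hN]; positivity
  have hNH : (N : ℝ) = H ^ (8 * P.al) := by rw [hN, hH]; push_cast; rfl
  have hMH : (M : ℝ) = H ^ (8 * P.ga) := by rw [hM, hH]; push_cast; rfl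
  have hms := msz_ge M hP hκ hN0
  have hfac := CNT_fac P M hNH hMH hH0 hP hκ hN0
  rw [← hH]
  unfold nrm
  rw [Fintype.card_piFinset, Nat.cast_prod]
  have p1 : (κ₁ * (N : ℝ)) ^ v ≤ ∏ i, ((V i).card : ℝ) := by
    have := Finset.prod_le_prod (s := Finset.univ) (f := fun _ : Fin v => κ₁ * (N : ℝ))
      (g := fun i => ((V i).card : ℝ)) (fun _ _ => by positivity)
      (fun i _ => by rw [hP.cV i]; exact hP.big _)
    rw [Finset.prod_const, Finset.card_univ, Fintype.card_fin] at this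
    exact this
  have p2 : (κ₁ ^ kp / H ^ (8 * P.be)) ^ E.card ≤
      ∏ e ∈ E, (msz N M nn / (((V e.1).card : ℝ) * ((V e.2).card : ℝ))) := by
    rw [← Finset.prod_const]
    exact Finset.prod_le_prod (fun _ _ => by positivity) fun e _ => hfac e
  have p3 : κ₁ ^ (v + kp * E.card) * (H ^ (8 * P.al * v) / H ^ (8 * P.be * E.card)) =
      (κ₁ * (N : ℝ)) ^ v * (κ₁ ^ kp / H ^ (8 * P.be)) ^ E.card := by
    rw [hNH, mul_pow, div_pow, pow_add, pow_mul κ₁, pow_mul H, pow_mul H]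
    ring
  rw [p3]
  exact mul_le_mul p1 p2 (by positivity) (Finset.prod_nonneg fun i _ => Nat.cast_nonneg _)

/-- Lower bound for the nominal extension count. -/
theorem nom_ge {kp v N M : ℕ} (P : Prm) (h : ℕ) (h1 : 1 ≤ h) (hN : N = h ^ (8 * P.al))
    (hM : M = h ^ (8 * P.ga)) {pos : Fin v → Fin kp} {κ₁ : ℝ} {V : Fin v → Finset (Fin N)}
    {Vg : Fin kp → Finset (Fin N)} {nn : Fin kp → ℕ} (hP : Parts pos κ₁ V Vg nn) (hκ : 0 < κ₁)
    (F : Finset (Fin v × Fin v)) (B : Finset (Fin v)) :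
    κ₁ ^ (B.card + kp * F.card) * ((h : ℝ) ^ (8 * P.al * B.card) / (h : ℝ) ^ (8 * P.be * F.card))
      ≤ nom V (msz N M nn) F B := by
  obtain ⟨H, hH⟩ : ∃ H : ℝ, H = (h : ℝ) := ⟨_, rfl⟩
  have hH1 : 1 ≤ H := by rw [hH]; exact_mod_cast h1
  have hH0 : 0 < H := by linarith
  have hN0 : 0 < N := by rw [hN]; positivity
  have hNH : (N : ℝ) = H ^ (8 * P.al) := by rw [hN, hH]; push_cast; rfl
  have hMH : (M : ℝ) = H ^ (8 * P.ga) := by rw [hM, hH]; push_cast; rfl
  have hms := msz_ge M hP hκ hN0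
  have hfac := CNT_fac P M hNH hMH hH0 hP hκ hN0
  rw [← hH]
  unfold nom
  have p1 : (κ₁ * (N : ℝ)) ^ B.card ≤ ∏ i ∈ B, ((V i).card : ℝ) := by
    rw [← Finset.prod_const]
    exact Finset.prod_le_prod (fun _ _ => by positivity)
      (fun i _ => by rw [hP.cV i]; exact hP.big _)
  have p2 : (κ₁ ^ kp / H ^ (8 * P.be)) ^ F.card ≤
      ∏ e ∈ F, (msz N M nn / (((V e.1).card : ℝ) * ((V e.2).card : ℝ))) := by
    rw [← Finset.prod_const]
    exact Finset.prod_le_prod (fun _ _ => by positivity) fun e _ => hfac e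
  have p3 : κ₁ ^ (B.card + kp * F.card) * (H ^ (8 * P.al * B.card) / H ^ (8 * P.be * F.card)) =
      (κ₁ * (N : ℝ)) ^ B.card * (κ₁ ^ kp / H ^ (8 * P.be)) ^ F.card := by
    rw [hNH, mul_pow, div_pow, pow_add, pow_mul κ₁, pow_mul H, pow_mul H]
    ring
  rw [p3]
  exact mul_le_mul p1 p2 (by positivity) (Finset.prod_nonneg fun i _ => Nat.cast_nonneg _)

end Pool.Agent.CUG
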