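import Pool.Agent.CUG.WS
import Pool.Agent.CUG.CNT

set_option autoImplicit false

/-!
# CUG.GSC

Adapt CUB/GSC.lean (96 ↦ 8 al, 40 ↦ 8 be, 152 ↦ 8 ga, 56 ↦ 8 (al - be)). For `l < j` (so `k ≥ 2`):
`F_l = F' ∪ {en i : i > l}`, `a = 8 al (v-2) - 8 be |F_l|`. Condition of `CR` for
`T ⊆ univ \ {s, nb l}`, `R = Tᶜ`: `8 be |ins F_l R| ≤ 8 al (|R| - 2)`. `|R| = 2`: `ins F_l {s, nb l} = ∅`. `|R| ≥ 3`:
`D2` and `en l ∈ ins F R \ F_l` give `be |ins F_l R| + be ≤ be |ins F R| ≤ al |R| + be - 2 al - 1`, i.e. even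
`8 be |ins F_l R| + 8 ≤ 8 al (|R| - 2)`. The rest as in CUB.
-/

namespace Pool.Agent.CUG

open Pool.Agent.CUB
open scoped Classical

private lemma GSC_wsum {kp v N M k : ℕ} (t : Fin M × Fin kp → Fin N) (pos : Fin v → Fin kp)
    (L : Fin v × Fin v → Finset (Fin M)) (F' : Finset (Fin v × Fin v)) (B : Finset (Fin v))
    (S : Fin v → Finset (Fin N)) (nb : Fin k → Fin v) (E : ℝ) (V : Fin v → Finset (Fin N))
    (w : Fin k → Fin N → ℝ) :
    wsum w (fun y => (∑ x : ↥(Fintype.piFinset V), uu t pos L F' B S nb E x.1 y)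
        / (Fintype.card ↥(Fintype.piFinset V) : ℝ))
      = (∑ x ∈ Fintype.piFinset V, ∑ y ∈ box B S x,
          (∏ j, w j (y (nb j))) * ∏ e ∈ F', (mm t pos L e y : ℝ))
          / E / ((Fintype.piFinset V).card : ℝ) := by
  rw [wsum_div, Fintype.card_coe]
  congr 1
  rw [← Finset.sum_coe_sort (Fintype.piFinset V)
    (fun x => ∑ y ∈ box B S x, (∏ j, w j (y (nb j))) * ∏ e ∈ F', (mm t pos L e y : ℝ))]
  rw [wsum_sum Finset.univ w (fun (x : ↥(Fintype.piFinset V)) => uu t pos L F' B S nb E x.1),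
    Finset.sum_div]
  refine Finset.sum_congr rfl fun x _ => ?_
  unfold uu
  rw [wsum_div]
  congr 1
  unfold wsum
  have h1 : ∀ y' : Fin k → Fin N, (∏ j, w j (y' j)) *
      ((∑ y ∈ (box B S x.1).filter (fun y => ∀ j, y (nb j) = y' j), ∏ e ∈ F', mm t pos L e y : ℕ) : ℝ)
      = ∑ y ∈ (box B S x.1).filter (fun y => (fun j => y (nb j)) = y'),
        (∏ j, w j (y (nb j))) * ∏ e ∈ F', (mm t pos L e y : ℝ) := by
    intro y'
    push_cast
    rw [Finset.mul_sum]
    have hf : (box B S x.1).filter (fun y => ∀ j, y (nb j) = y' j) =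
        (box B S x.1).filter (fun y => (fun j => y (nb j)) = y') := by
      ext y
      simp only [Finset.mem_filter, funext_iff]
    rw [hf]
    refine Finset.sum_congr rfl fun y hy => ?_
    have := (Finset.mem_filter.1 hy).2
    rw [← this]
  rw [Finset.sum_congr rfl fun y' _ => h1 y']
  exact Finset.sum_fiberwise _ _ _

private lemma GSC_box {v N : ℕ} (B : Finset (Fin v)) (S V : Fin v → Finset (Fin N))
    (hS : ∀ i, S i ⊆ V i) (H : (Fin v → Fin N) → ℝ) (hH : ∀ y, 0 ≤ H y) :
    ∑ x ∈ Fintype.piFinset V, ∑ y ∈ box B S x, H y ≤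
      (∏ i ∈ B, ((V i).card : ℝ)) * ∑ y ∈ Fintype.piFinset V, H y := by
  have h1 : ∀ x ∈ Fintype.piFinset V, ∑ y ∈ box B S x, H y ≤
      ∑ y ∈ Fintype.piFinset V, if ∀ i, i ∉ B → x i = y i then H y else 0 := by
    intro x hx
    rw [← Finset.sum_filter]
    refine Finset.sum_le_sum_of_subset_of_nonneg ?_ (fun y _ _ => hH y)
    intro y hy
    unfold box at hy
    rw [Fintype.mem_piFinset] at hy
    rw [Fintype.mem_piFinset] at hx
    rw [Finset.mem_filter, Fintype.mem_piFinset]
    refine ⟨fun i => ?_, fun i hi => ?_⟩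
    · have := hy i
      by_cases hB : i ∈ B
      · rw [if_pos hB] at this
        exact hS i this
      · rw [if_neg hB, Finset.mem_singleton] at this
        rw [this]
        exact hx i
    · have := hy i
      rw [if_neg hi, Finset.mem_singleton] at this
      exact this.symm
  refine (Finset.sum_le_sum h1).trans ?_
  rw [Finset.sum_comm, Finset.mul_sum]
  refine Finset.sum_le_sum fun y hy => ?_
  rw [← Finset.sum_filter, Finset.sum_const, nsmul_eq_mul]
  refine mul_le_mul_of_nonneg_right ?_ (hH y)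
  have h2 : (Fintype.piFinset V).filter (fun x => ∀ i, i ∉ B → x i = y i) = box B V y := by
    ext x
    unfold box
    rw [Finset.mem_filter, Fintype.mem_piFinset, Fintype.mem_piFinset]
    rw [Fintype.mem_piFinset] at hy
    constructor
    · rintro ⟨h3, h4⟩ i
      by_cases hB : i ∈ B
      · rw [if_pos hB]
        exact h3 i
      · rw [if_neg hB, Finset.mem_singleton]
        exact h4 i hB
    · intro h3
      refine ⟨fun i => ?_, fun i hi => ?_⟩
      · have := h3 i
        by_cases hB : i ∈ B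
        · rw [if_pos hB] at this
          exact this
        · rw [if_neg hB, Finset.mem_singleton] at this
          rw [this]
          exact hy i
      · have := h3 i
        rw [if_neg hi, Finset.mem_singleton] at this
        exact this
  rw [h2]
  unfold box
  rw [Fintype.card_piFinset]
  push_cast
  rw [← Finset.prod_subset (Finset.subset_univ B)]
  · refine le_of_eq (Finset.prod_congr rfl fun i hi => ?_)
    rw [if_pos hi]
  · intro i _ hi
    rw [if_neg hi, Finset.card_singleton, Nat.cast_one]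

private lemma GSC_free {v N : ℕ} (V : Fin v → Finset (Fin N)) (s : Fin v) (s' : Fin N)
    (hs' : s' ∈ V s) (H : (Fin v → Fin N) → ℝ) (hH : ∀ y, 0 ≤ H y)
    (hfree : ∀ y b, H (Function.update y s b) = H y) :
    ∑ y ∈ Fintype.piFinset V, H y ≤
      ((V s).card : ℝ) * ∑ y ∈ (Fintype.piFinset V).filter (fun y => y s = s'), H y := by
  rw [← nsmul_eq_mul, ← Finset.sum_const, ← Finset.sum_product']
  have hinj : Set.InjOn (fun y : Fin v → Fin N => (y s, Function.update y s s'))
      (Fintype.piFinset V : Finset (Fin v → Fin N)) := by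
    intro y _ y' _ h
    simp only [Prod.mk.injEq] at h
    funext i
    by_cases hi : i = s
    · rw [hi]
      exact h.1
    · have := congrFun h.2 i
      rwa [Function.update_of_ne hi, Function.update_of_ne hi] at this
  calc ∑ y ∈ Fintype.piFinset V, H y
      = ∑ y ∈ Fintype.piFinset V, H (y s, Function.update y s s').2 := by
        refine Finset.sum_congr rfl fun y _ => ?_
        exact (hfree y s').symm
    _ = ∑ q ∈ (Fintype.piFinset V).image (fun y => (y s, Function.update y s s')), H q.2 := by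
        rw [Finset.sum_image hinj]
    _ ≤ _ := by
        refine Finset.sum_le_sum_of_subset_of_nonneg ?_ (fun q _ _ => hH q.2)
        intro q hq
        obtain ⟨y, hy, rfl⟩ := Finset.mem_image.1 hq
        rw [Fintype.mem_piFinset] at hy
        rw [Finset.mem_product, Finset.mem_filter, Fintype.mem_piFinset]
        refine ⟨hy s, fun i => ?_, Function.update_self _ _ _⟩
        by_cases hi : i = s
        · subst hi
          simpa using hs'
        · simpa [Function.update_of_ne hi] using hy i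

private lemma GSC_gcnt {kp v N M : ℕ} (t : Fin M × Fin kp → Fin N) (pos : Fin v → Fin kp)
    (L : Fin v × Fin v → Finset (Fin M)) (G : Finset (Fin v × Fin v)) (B' : Finset (Fin v))
    (ρ : Fin v → Fin N) (hdis : ∀ e ∈ G, ∀ e' ∈ G, e ≠ e' → Disjoint (L e) (L e')) :
    ∑ y ∈ (Finset.univ : Finset (Fin v → Fin N)).filter (fun y => ∀ i, i ∉ B' → y i = ρ i),
      ∏ e ∈ G, mm t pos L e y ≤ Gcnt t pos G B' ρ := by
  have h1 : ∀ y : Fin v → Fin N, ∏ e ∈ G, mm t pos L e y =
      (Fintype.piFinset (fun e : ↥G => (L e.1).filter fun i =>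
        t (i, pos e.1.1) = y e.1.1 ∧ t (i, pos e.1.2) = y e.1.2)).card := by
    intro y
    rw [Fintype.card_piFinset, ← Finset.prod_coe_sort]
    rfl
  rw [Finset.sum_congr rfl fun y _ => h1 y, ← Finset.card_sigma]
  unfold Gcnt
  refine Finset.card_le_card_of_injOn (fun q => (q.1, q.2)) ?_ ?_
  · rintro ⟨y, lam⟩ hq
    simp only [Finset.coe_sigma, Set.mem_sigma_iff, Finset.mem_coe, Finset.mem_filter,
      Finset.mem_univ, true_and, Fintype.mem_piFinset] at hq
    simp only [Finset.coe_filter, Finset.mem_univ, true_and, Set.mem_ofPred_eq]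
    refine ⟨hq.1, ?_, fun e => (hq.2 e).2⟩
    intro e e' hee
    by_contra hne
    have hne' : e.1 ≠ e'.1 := fun h => hne (Subtype.ext h)
    have := Finset.disjoint_left.1 (hdis e.1 e.2 e'.1 e'.2 hne') (hq.2 e).1
    rw [hee] at this
    exact this (hq.2 e').1
  · rintro ⟨y, lam⟩ _ ⟨y', lam'⟩ _ h
    simp only [Prod.mk.injEq] at h
    obtain ⟨h2, h3⟩ := h
    subst h2
    subst h3
    rfl

private lemma GSC_bd {kp v N M k : ℕ} (t : Fin M × Fin kp → Fin N) (pos : Fin v → Fin kp)
    (L : Fin v × Fin v → Finset (Fin M)) (F' : Finset (Fin v × Fin v)) (B : Finset (Fin v))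
    (S : Fin v → Finset (Fin N)) (nb : Fin k → Fin v) (E : ℝ) (hE : 0 < E)
    (V : Fin v → Finset (Fin N)) (hS : ∀ i, S i ⊆ V i) (s : Fin v) (s' : Fin N) (hs' : s' ∈ V s)
    (hF' : ∀ e ∈ F', e.1 ≠ s ∧ e.2 ≠ s) (hnb : ∀ j, nb j ≠ s)
    (w : Fin k → Fin N → ℝ) (hw : ∀ j b, 0 ≤ w j b) (G : Finset (Fin v × Fin v))
    (B' : Finset (Fin v)) (ρ : Fin v → Fin N)
    (hdis : ∀ e ∈ G, ∀ e' ∈ G, e ≠ e' → Disjoint (L e) (L e'))
    (hG : ∀ y : Fin v → Fin N, y s = s' →
      (∏ j, w j (y (nb j))) * ∏ e ∈ F', (mm t pos L e y : ℝ) ≤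
        if (∀ i, i ∉ B' → y i = ρ i) then ((∏ e ∈ G, mm t pos L e y : ℕ) : ℝ) else 0)
    (n : ℕ) (hn : Gcnt t pos G B' ρ ≤ n) :
    wsum w (fun y => (∑ x : ↥(Fintype.piFinset V), uu t pos L F' B S nb E x.1 y)
        / (Fintype.card ↥(Fintype.piFinset V) : ℝ))
      ≤ (∏ i ∈ B, ((V i).card : ℝ)) * ((V s).card : ℝ) * (n : ℝ) / E
          / ((Fintype.piFinset V).card : ℝ) := by
  rw [GSC_wsum]
  refine div_le_div_of_nonneg_right (div_le_div_of_nonneg_right ?_ hE.le) (Nat.cast_nonneg _)
  set H : (Fin v → Fin N) → ℝ := fun y => (∏ j, w j (y (nb j))) * ∏ e ∈ F', (mm t pos L e y : ℝ)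
    with hHdef
  have hH : ∀ y, 0 ≤ H y := fun y => mul_nonneg (Finset.prod_nonneg fun j _ => hw _ _)
    (Finset.prod_nonneg fun e _ => Nat.cast_nonneg _)
  have hfree : ∀ y b, H (Function.update y s b) = H y := by
    intro y b
    simp only [hHdef]
    congr 1
    · refine Finset.prod_congr rfl fun j _ => ?_
      rw [Function.update_of_ne (hnb j)]
    · refine Finset.prod_congr rfl fun e he => ?_
      unfold mm
      rw [Function.update_of_ne (hF' e he).1, Function.update_of_ne (hF' e he).2]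
  refine (GSC_box B S V hS H hH).trans ?_
  rw [mul_assoc]
  refine mul_le_mul_of_nonneg_left ?_ (Finset.prod_nonneg fun i _ => Nat.cast_nonneg _)
  refine (GSC_free V s s' hs' H hH hfree).trans ?_
  refine mul_le_mul_of_nonneg_left ?_ (Nat.cast_nonneg _)
  calc ∑ y ∈ (Fintype.piFinset V).filter (fun y => y s = s'), H y
      ≤ ∑ y ∈ (Fintype.piFinset V).filter (fun y => y s = s'),
          (if (∀ i, i ∉ B' → y i = ρ i) then ((∏ e ∈ G, mm t pos L e y : ℕ) : ℝ) else 0) :=
        Finset.sum_le_sum fun y hy => hG y (Finset.mem_filter.1 hy).2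
    _ ≤ ∑ y : Fin v → Fin N,
          (if (∀ i, i ∉ B' → y i = ρ i) then ((∏ e ∈ G, mm t pos L e y : ℕ) : ℝ) else 0) := by
        refine Finset.sum_le_sum_of_subset_of_nonneg (Finset.subset_univ _) fun y _ _ => ?_
        split_ifs
        · exact Nat.cast_nonneg _
        · exact le_rfl
    _ = ((∑ y ∈ (Finset.univ : Finset (Fin v → Fin N)).filter (fun y => ∀ i, i ∉ B' → y i = ρ i),
          ∏ e ∈ G, mm t pos L e y : ℕ) : ℝ) := by
        rw [← Finset.sum_filter]
        push_cast
        rfl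
    _ ≤ (n : ℝ) := by
        exact_mod_cast (GSC_gcnt t pos L G B' ρ hdis).trans hn

private lemma GSC_num (A D bb h a q f v k : ℕ) (hbb : bb + D = A) (κ₁ cz W Pr Q Pg c1 : ℝ) (hh : 1 ≤ h) (hc1 : 0 < c1)
    (hc11 : c1 ≤ 1) (hc1κ : c1 ≤ κ₁) (hc1z : c1 ≤ cz * κ₁) (hqk : q ≤ k)
    (hC : 1 ≤ c1 ^ (v + f + k) * (h : ℝ)) (ha : a + D * (f + q) = A * (v - 2)) (hv2 : 2 ≤ v)
    (ha1 : 1 ≤ a) (hW : κ₁ ^ f / (h : ℝ) ^ (D * f) ≤ W)
    (hPr : (κ₁ * (h : ℝ) ^ A) ^ (v - 1) ≤ Pr) (hQ : (cz * κ₁ * (h : ℝ) ^ bb) ^ q ≤ Q)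
    (hPg : Pg ≤ ((h : ℝ) ^ A) ^ (q + 1)) : Pg * (h : ℝ) ^ (a - 1) ≤ W * Pr * Q := by
  have hR : (1 : ℝ) ≤ (h : ℝ) := by exact_mod_cast hh
  have h0 : (0 : ℝ) < (h : ℝ) := by linarith
  have hκ : 0 < κ₁ := lt_of_lt_of_le hc1 hc1κ
  have hzκ : 0 < cz * κ₁ := lt_of_lt_of_le hc1 hc1z
  have e1 : c1 ^ f / (h : ℝ) ^ (D * f) ≤ W :=
    (div_le_div_of_nonneg_right (pow_le_pow_left₀ hc1.le hc1κ f) (by positivity)).trans hW
  have e2 : (c1 * (h : ℝ) ^ A) ^ (v - 1) ≤ Pr :=
    (pow_le_pow_left₀ (by positivity) (mul_le_mul_of_nonneg_right hc1κ (by positivity)) _).trans hPr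
  have e3 : (c1 * (h : ℝ) ^ bb) ^ q ≤ Q :=
    (pow_le_pow_left₀ (by positivity) (mul_le_mul_of_nonneg_right hc1z (by positivity)) _).trans hQ
  have hW0 : 0 < W := lt_of_lt_of_le (by positivity) e1
  have hPr0 : 0 < Pr := lt_of_lt_of_le (by positivity) e2
  have e4 : (c1 ^ f / (h : ℝ) ^ (D * f)) * (c1 * (h : ℝ) ^ A) ^ (v - 1) * (c1 * (h : ℝ) ^ bb) ^ q
      ≤ W * Pr * Q :=
    mul_le_mul (mul_le_mul e1 e2 (by positivity) hW0.le) e3 (by positivity) (by positivity)
  refine le_trans ?_ e4
  have e5 : Pg * (h : ℝ) ^ (a - 1) ≤ (h : ℝ) ^ (A * (q + 1) + (a - 1)) := by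
    rw [pow_add, pow_mul]
    exact mul_le_mul_of_nonneg_right hPg (by positivity)
  refine e5.trans ?_
  have e6 : (c1 ^ f / (h : ℝ) ^ (D * f)) * (c1 * (h : ℝ) ^ A) ^ (v - 1) *
      (c1 * (h : ℝ) ^ bb) ^ q = c1 ^ (f + (v - 1) + q) * (h : ℝ) ^ (A * (v - 1) + bb * q)
        / (h : ℝ) ^ (D * f) := by
    rw [mul_pow, mul_pow, ← pow_mul, ← pow_mul, pow_add, pow_add, pow_add]
    ring
  rw [e6, le_div_iff₀ (by positivity)]
  have e7 : (h : ℝ) ^ (A * (v - 1) + bb * q) =
      (h : ℝ) ^ (A * (q + 1) + (a - 1) + D * f) * (h : ℝ) := by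
    rw [← pow_succ]
    congr 1
    obtain ⟨w, hw⟩ := Nat.exists_eq_add_of_le hv2
    subst hw
    have q1 : 2 + w - 2 = w := by omega
    have q2 : 2 + w - 1 = w + 1 := by omega
    obtain ⟨a', ha'⟩ := Nat.exists_eq_add_of_le ha1
    have q3 : 1 + a' - 1 = a' := by omega
    rw [ha', q3, q2]
    rw [q1, ha'] at ha
    rw [← hbb] at ha ⊢
    linarith
  rw [e7, ← pow_add]
  have e8 : c1 ^ (v + f + k) ≤ c1 ^ (f + (v - 1) + q) :=
    pow_le_pow_of_le_one hc1.le hc11 (by omega)
  have e9 : 1 ≤ c1 ^ (f + (v - 1) + q) * (h : ℝ) :=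
    hC.trans (mul_le_mul_of_nonneg_right e8 h0.le)
  calc (h : ℝ) ^ (A * (q + 1) + (a - 1) + D * f)
      = 1 * (h : ℝ) ^ (A * (q + 1) + (a - 1) + D * f) := (one_mul _).symm
    _ ≤ (c1 ^ (f + (v - 1) + q) * (h : ℝ)) * (h : ℝ) ^ (A * (q + 1) + (a - 1) + D * f) :=
        mul_le_mul_of_nonneg_right e9 (by positivity)
    _ = _ := by ring

private lemma GSC_fin (h a : ℕ) (ha : 8 ≤ a) (hh : 1 ≤ h) (PB vs W Pl Pg Pr Q X Y : ℝ)
    (hPB : 0 < PB) (hvs : 0 < vs) (hW : 0 < W) (hPl : 0 < Pl) (hPg : 0 < Pg) (hPr : 0 < Pr)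
    (hY0 : 0 ≤ Y)
    (hX : X ≤ PB * vs * (h : ℝ) ^ (a - 8 + 1) / (PB * W / (Pl * Pg)) / (vs * Pr))
    (hY : Y ≤ PB * vs * (h : ℝ) ^ (a + 1) / (PB * W / (Pl * Pg)) / (vs * Pr))
    (hMI : Pg * (h : ℝ) ^ (a - 1) ≤ W * Pr * Q) :
    X * Y ≤ 1 / (h : ℝ) ^ 4 * (Q * Pl) ^ 2 := by
  have h0 : (0 : ℝ) < (h : ℝ) := by exact_mod_cast hh
  have e1 : ∀ n : ℕ, PB * vs * (h : ℝ) ^ n / (PB * W / (Pl * Pg)) / (vs * Pr) =
      (h : ℝ) ^ n * (Pl * Pg) / (W * Pr) := by
    intro n
    field_simp
  rw [e1] at hX hY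
  have e2 : X * Y ≤ ((h : ℝ) ^ (a - 8 + 1) * (Pl * Pg) / (W * Pr)) *
      ((h : ℝ) ^ (a + 1) * (Pl * Pg) / (W * Pr)) :=
    mul_le_mul hX hY hY0 (by positivity)
  refine e2.trans ?_
  have e3 : ((h : ℝ) ^ (a - 8 + 1) * (Pl * Pg) / (W * Pr)) *
      ((h : ℝ) ^ (a + 1) * (Pl * Pg) / (W * Pr)) =
      1 / (h : ℝ) ^ 4 * ((Pg * (h : ℝ) ^ (a - 1)) ^ 2 * Pl ^ 2 / (W * Pr) ^ 2) := by
    have e4 : (h : ℝ) ^ (a - 8 + 1) * (h : ℝ) ^ (a + 1) * (h : ℝ) ^ 4 =
        ((h : ℝ) ^ (a - 1)) ^ 2 := by
      rw [← pow_add, ← pow_add, ← pow_mul]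
      congr 1
      omega
    have e5 : (h : ℝ) ^ (a - 8 + 1) * (h : ℝ) ^ (a + 1) =
        ((h : ℝ) ^ (a - 1)) ^ 2 / (h : ℝ) ^ 4 := by
      rw [eq_div_iff (by positivity), e4]
    calc ((h : ℝ) ^ (a - 8 + 1) * (Pl * Pg) / (W * Pr)) *
          ((h : ℝ) ^ (a + 1) * (Pl * Pg) / (W * Pr))
        = ((h : ℝ) ^ (a - 8 + 1) * (h : ℝ) ^ (a + 1)) * (Pl * Pg) ^ 2 / (W * Pr) ^ 2 := by ring
      _ = _ := by
        rw [e5]
        ring
  rw [e3]
  refine mul_le_mul_of_nonneg_left ?_ (by positivity)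
  rw [div_le_iff₀ (by positivity)]
  have e6 : (Pg * (h : ℝ) ^ (a - 1)) ^ 2 ≤ (W * Pr * Q) ^ 2 :=
    pow_le_pow_left₀ (by positivity) hMI 2
  calc (Pg * (h : ℝ) ^ (a - 1)) ^ 2 * Pl ^ 2 ≤ (W * Pr * Q) ^ 2 * Pl ^ 2 :=
        mul_le_mul_of_nonneg_right e6 (by positivity)
    _ = _ := by ring

/-- `SprC` from the crude counts. -/
theorem gsc {kp : ℕ} (P : Prm) (v : ℕ) (pos : Fin v → Fin kp) (F : Finset (Fin v × Fin v))
    (B : Finset (Fin v)) (s : Fin v) (hpos : PosD pos F) (htch : Tch F B) (hD2 : D2 P F)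
    (hs : s ∉ B) (k : ℕ)
    (en : Fin k → Fin v × Fin v) (nb : Fin k → Fin v) (hst : Star F s k en nb) (cz κ₁ : ℝ)
    (hcz : 0 < cz) (hκ : 0 < κ₁) :
    ∃ h₀ : ℕ, ∀ h ≥ h₀, ∀ (N M : ℕ) (V : Fin v → Finset (Fin N)) (m : ℝ)
      (L : Fin v × Fin v → Finset (Fin M)) (Vc : Fin M × Fin kp → Finset (Fin N)),
      KHyp P h pos F κ₁ V m L Vc → ∀ t : Fin M × Fin kp → Fin N, CR P h t pos →
      ∀ (S : Fin v → Finset (Fin N)), (∀ i, S i ⊆ V i) → ∀ s' ∈ V s,
      ∀ (z : ℕ), cz * m / ((V s).card : ℝ) ≤ (z : ℝ) →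
      ∀ J' : Fin k → Finset (Fin M), (∀ j, J' j ⊆ (L (en j)).filter fun i => t (i, pos s) = s') →
      SprC (fun j => pos (nb j)) t (fun j => V (nb j)) J' z (1 / (h : ℝ) ^ 4)
        (fun y => (∑ x : ↥(Fintype.piFinset V),
          uu t pos L (offs F s) B S nb (nom V m (offs F s) B / ∏ j, ((V (nb j)).card : ℝ)) x.1 y)
            / (Fintype.card ↥(Fintype.piFinset V) : ℝ)) := by
  set c1 : ℝ := min 1 (min κ₁ (cz * κ₁)) with hc1def
  have hc1 : 0 < c1 := lt_min one_pos (lt_min hκ (mul_pos hcz hκ))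
  have hc11 : c1 ≤ 1 := min_le_left _ _
  have hc1κ : c1 ≤ κ₁ := (min_le_right _ _).trans (min_le_left _ _)
  have hc1z : c1 ≤ cz * κ₁ := (min_le_right _ _).trans (min_le_right _ _)
  have hC0 : 0 < c1 ^ (v + (offs F s).card + k) := by positivity
  refine ⟨max 1 ⌈1 / c1 ^ (v + (offs F s).card + k)⌉₊, ?_⟩
  intro h hh N M V m L Vc hK t hCR S hS s' hs' z hz J' hJ'
  have hh1 : 1 ≤ h := (le_max_left _ _).trans hh
  have hhC : 1 ≤ c1 ^ (v + (offs F s).card + k) * (h : ℝ) := by
    have e1 : (⌈1 / c1 ^ (v + (offs F s).card + k)⌉₊ : ℝ) ≤ (h : ℝ) := by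
      exact_mod_cast (le_max_right _ _).trans hh
    have e2 := (Nat.le_ceil (1 / c1 ^ (v + (offs F s).card + k))).trans e1
    rw [div_le_iff₀ hC0] at e2
    linarith
  have hR : (1 : ℝ) ≤ (h : ℝ) := by exact_mod_cast hh1
  have h0 : (0 : ℝ) < (h : ℝ) := by linarith
  have hbl : P.be ≤ P.al := by
    have h1 := P.hdd
    have h2 : P.be * 1 ≤ P.be * P.dd := Nat.mul_le_mul_left _ P.hd
    omega
  obtain ⟨bb, hbb⟩ : ∃ bb : ℕ, bb + 8 * P.be = 8 * P.al := ⟨8 * P.al - 8 * P.be, by omega⟩
  have hex1 : 8 * P.al + 8 * P.al = 8 * P.ga + 8 * P.be := by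
    have := P.hga
    omega
  have hex2 : bb + 8 * P.al = 8 * P.ga := by
    have := P.hga
    omega
  have hNR : (N : ℝ) = (h : ℝ) ^ (8 * P.al) := by rw [hK.hN]; push_cast; rfl
  have hMR : (M : ℝ) = (h : ℝ) ^ (8 * P.ga) := by rw [hK.hM]; push_cast; rfl
  have hVle : ∀ i, ((V i).card : ℝ) ≤ (h : ℝ) ^ (8 * P.al) := by
    intro i
    rw [← hNR]
    have := Finset.card_le_univ (V i)
    rw [Fintype.card_fin] at this
    exact_mod_cast this
  have hVge : ∀ i, κ₁ * (h : ℝ) ^ (8 * P.al) ≤ ((V i).card : ℝ) := by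
    intro i
    rw [← hNR]
    exact hK.hV i
  have hVpos : ∀ i, 0 < ((V i).card : ℝ) := fun i => lt_of_lt_of_le (by positivity) (hVge i)
  have hmge : κ₁ * (h : ℝ) ^ (8 * P.ga) ≤ m := by
    rw [← hMR]
    exact hK.hm
  have hm0 : 0 < m := lt_of_lt_of_le (by positivity) hmge
  -- star facts
  have hen : ∀ i, en i ∈ F := fun i => ((hst.mem (en i)).1 ⟨i, rfl⟩).1
  have hneF : ∀ e ∈ F, e.1 ≠ e.2 := fun e he h' => hpos e he (by rw [h'])
  have hnb : ∀ j, nb j ≠ s := by
    intro j hj
    have h1 := hneF _ (hen j)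
    rcases hst.ends j with ⟨h2, h3⟩ | ⟨h2, h3⟩
    · exact h1 (by rw [h2, h3, hj])
    · exact h1 (by rw [h2, h3, hj])
  have hF' : ∀ e ∈ offs F s, e.1 ≠ s ∧ e.2 ≠ s := fun e he => (Finset.mem_filter.1 he).2
  have hF'F : offs F s ⊆ F := Finset.filter_subset _ _
  intro l y0 hy0 j hlj a0 ha0
  -- the index sets
  set I1 : Finset (Fin k) := Finset.univ.filter (fun i => l < i) with hI1
  set q : ℕ := k - 1 - (l : ℕ) with hq
  have hI1card : I1.card = q := by
    have : I1 = Finset.Ioi l := by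
      ext i
      simp [hI1]
    rw [this, Fin.card_Ioi]
  have hlI1 : l ∉ I1 := by simp [hI1]
  have hjI1 : j ∈ I1 := by simp [hI1, hlj]
  have hnI : ∀ i, i < l → i ∉ I1 := fun i h1 h3 =>
    absurd (Finset.mem_filter.1 h3).2 (not_lt.2 h1.le)
  have hnI' : ∀ i, i < l → i ∉ I1.erase j := fun i h1 h3 =>
    hnI i h1 (Finset.mem_of_mem_erase h3)
  set GG : Finset (Fin k) → Finset (Fin v × Fin v) := fun I => offs F s ∪ I.image en with hGG
  have hGGF : ∀ I, GG I ⊆ F := by
    intro I e he
    rcases Finset.mem_union.1 he with h1 | h1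
    · exact hF'F h1
    · obtain ⟨i, _, rfl⟩ := Finset.mem_image.1 h1
      exact hen i
  have hdisj : ∀ I : Finset (Fin k), Disjoint (offs F s) (I.image en) := by
    intro I
    rw [Finset.disjoint_left]
    intro e he he'
    obtain ⟨i, _, rfl⟩ := Finset.mem_image.1 he'
    have h1 := hF' _ he
    rcases hst.ends i with ⟨h2, _⟩ | ⟨_, h2⟩
    · exact h1.1 h2
    · exact h1.2 h2
  have hGGcard : ∀ I, (GG I).card = (offs F s).card + I.card := by
    intro I
    simp only [hGG]
    rw [Finset.card_union_of_disjoint (hdisj I), Finset.card_image_of_injective _ hst.inj]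
  have hGGmem : ∀ I i, en i ∈ GG I → i ∈ I := by
    intro I i hi
    rcases Finset.mem_union.1 hi with h1 | h1
    · exact absurd h1 (fun h2 => by
        have h3 := hF' _ h2
        rcases hst.ends i with ⟨h4, _⟩ | ⟨_, h4⟩
        · exact h3.1 h4
        · exact h3.2 h4)
    · obtain ⟨i', hi', h2⟩ := Finset.mem_image.1 h1
      rw [← hst.inj h2]
      exact hi'
  have hGpos : ∀ I, PosD pos (GG I) := fun I e he => hpos e (hGGF I he)
  have hGdis : ∀ I, ∀ e ∈ GG I, ∀ e' ∈ GG I, e ≠ e' → Disjoint (L e) (L e') :=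
    fun I e he e' he' hne => hK.hdis e (hGGF I he) e' (hGGF I he') hne
  have hlj' : l ≠ j := ne_of_lt hlj
  have hnblj : nb l ≠ nb j := fun h' => hlj' (hst.injn h')
  have hsl : s ≠ nb l := (hnb l).symm
  have hsj : s ≠ nb j := (hnb j).symm
  have hv3 : 3 ≤ v := by
    have h1 : ({s, nb l, nb j} : Finset (Fin v)).card = 3 := by
      rw [Finset.card_insert_of_notMem, Finset.card_insert_of_notMem, Finset.card_singleton]
      · simpa using hnblj
      · simp [hsl, hsj]
    have h2 := Finset.card_le_univ ({s, nb l, nb j} : Finset (Fin v))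
    rw [Fintype.card_fin] at h2
    omega
  have hins3 : ∀ R : Finset (Fin v), s ∈ R → nb l ∈ R → 3 ≤ R.card →
      8 * P.be * (ins (GG I1) R).card + (16 * P.al + 8) ≤ 8 * P.al * R.card := by
    intro R hsR hlR hR3
    have h1 := hD2 R hR3
    have h2 : ins (GG I1) R ⊂ ins F R := by
      refine Finset.ssubset_iff_subset_ne.2 ⟨?_, ?_⟩
      · exact Finset.filter_subset_filter _ (hGGF I1)
      · intro h3
        have h4 : en l ∈ ins F R := by
          refine Finset.mem_filter.2 ⟨hen l, ?_⟩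
          rcases hst.ends l with ⟨h5, h6⟩ | ⟨h5, h6⟩
          · rw [h5, h6]
            exact ⟨hsR, hlR⟩
          · rw [h5, h6]
            exact ⟨hlR, hsR⟩
        rw [← h3] at h4
        exact hlI1 (hGGmem I1 l (Finset.mem_filter.1 h4).1)
    have h3 := Finset.card_lt_card h2
    have h4 : P.be * ((ins (GG I1) R).card + 1) ≤ P.be * (ins F R).card :=
      Nat.mul_le_mul_left _ h3
    linarith
  have hins2 : ∀ R : Finset (Fin v), s ∈ R → nb l ∈ R →
      8 * P.be * (ins (GG I1) R).card + 16 * P.al ≤ 8 * P.al * R.card := by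
    intro R hsR hlR
    have hsub : ({s, nb l} : Finset (Fin v)) ⊆ R := by
      intro i hi
      rcases Finset.mem_insert.1 hi with h1 | h1
      · rw [h1]; exact hsR
      · rw [Finset.mem_singleton.1 h1]; exact hlR
    have hc2 : ({s, nb l} : Finset (Fin v)).card = 2 := by
      rw [Finset.card_insert_of_notMem (by simpa using hsl), Finset.card_singleton]
    have hcR := Finset.card_le_card hsub
    rcases Nat.lt_or_ge R.card 3 with h3 | h3
    · have hReq : ({s, nb l} : Finset (Fin v)) = R :=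
        Finset.eq_of_subset_of_card_le hsub (by omega)
      have hemp : ins (GG I1) R = ∅ := by
        rw [Finset.eq_empty_iff_forall_notMem]
        intro e he
        obtain ⟨he1, he2, he3⟩ := Finset.mem_filter.1 he
        rw [← hReq, Finset.mem_insert, Finset.mem_singleton] at he2 he3
        rcases Finset.mem_union.1 he1 with h4 | h4
        · have h5 := hF' _ h4
          have h6 := hneF _ (hF'F h4)
          rcases he2 with h7 | h7
          · exact h5.1 h7
          · rcases he3 with h8 | h8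
            · exact h5.2 h8
            · exact h6 (h7.trans h8.symm)
        · obtain ⟨i, hi, rfl⟩ := Finset.mem_image.1 h4
          have hil : i ≠ l := fun h' => hlI1 (h' ▸ hi)
          have hnbi : nb i ≠ nb l := fun h' => hil (hst.injn h')
          rcases hst.ends i with ⟨_, h6⟩ | ⟨h6, _⟩
          · rw [h6] at he3
            rcases he3 with h7 | h7
            · exact hnb i h7
            · exact hnbi h7
          · rw [h6] at he2
            rcases he2 with h7 | h7
            · exact hnb i h7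
            · exact hnbi h7
      rw [hemp, Finset.card_empty]
      have h5 : 8 * P.al * 2 ≤ 8 * P.al * R.card := Nat.mul_le_mul_left _ (by omega)
      linarith
    · have := hins3 R hsR hlR h3
      linarith
  have hG1univ : (ins (GG I1) Finset.univ).card = (GG I1).card := by
    congr 1
    unfold ins
    rw [Finset.filter_true_of_mem]
    intro e _
    exact ⟨Finset.mem_univ _, Finset.mem_univ _⟩
  have hG1 : 8 * P.be * (GG I1).card + (16 * P.al + 8) ≤ 8 * P.al * v := by
    have := hins3 Finset.univ (Finset.mem_univ _) (Finset.mem_univ _)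
      (by rw [Finset.card_univ, Fintype.card_fin]; exact hv3)
    rw [hG1univ, Finset.card_univ, Fintype.card_fin] at this
    exact this
  have hvv : 8 * P.al * (v - 2) + 16 * P.al = 8 * P.al * v := by
    obtain ⟨w, hw⟩ := Nat.exists_eq_add_of_le (show 2 ≤ v by omega)
    have h1 : v - 2 = w := by omega
    rw [h1, hw]
    ring
  obtain ⟨a, ha⟩ : ∃ a : ℕ, a + 8 * P.be * (GG I1).card = 8 * P.al * (v - 2) :=
    ⟨8 * P.al * (v - 2) - 8 * P.be * (GG I1).card, by omega⟩
  have ha8 : 8 ≤ a := by omega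
  have hpart : ∀ T : Finset (Fin v), (tch (GG I1) T).card + (ins (GG I1) Tᶜ).card =
      (GG I1).card := by
    intro T
    unfold tch ins
    rw [← Finset.card_filter_add_card_filter_not (s := GG I1) (fun e => e.1 ∈ T ∨ e.2 ∈ T)]
    congr 2
    refine Finset.filter_congr fun e _ => ?_
    rw [Finset.mem_compl, Finset.mem_compl, not_or]
  have hTc : ∀ T : Finset (Fin v), T.card + Tᶜ.card = v := by
    intro T
    rw [Finset.card_add_card_compl, Fintype.card_fin]
  have hCR1 : ∀ ρ : Fin v → Fin N,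
      Gcnt t pos (GG I1) (Finset.univ \ {s, nb l}) ρ ≤ h ^ (a + 1) := by
    intro ρ
    refine hCR _ _ ρ a (hGpos I1) ?_
    intro T hT
    have hsT : s ∈ Tᶜ := by
      rw [Finset.mem_compl]
      intro h1
      have := hT h1
      simp at this
    have hlT : nb l ∈ Tᶜ := by
      rw [Finset.mem_compl]
      intro h1
      have := hT h1
      simp at this
    have h1 := hins2 _ hsT hlT
    have h2 := hpart T
    have h3 := hTc T
    have e1 : 8 * P.al * T.card + 8 * P.al * (Tᶜ).card = 8 * P.al * v := by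
      rw [← mul_add, h3]
    have e2 : 8 * P.be * (tch (GG I1) T).card + 8 * P.be * (ins (GG I1) Tᶜ).card =
        8 * P.be * (GG I1).card := by
      rw [← mul_add, h2]
    omega
  have hCR2 : ∀ ρ : Fin v → Fin N,
      Gcnt t pos (GG (I1.erase j)) (Finset.univ \ {s, nb l, nb j}) ρ ≤ h ^ (a - 8 + 1) := by
    intro ρ
    refine hCR _ _ ρ (a - 8) (hGpos _) ?_
    intro T hT
    have hsT : s ∈ Tᶜ := by
      rw [Finset.mem_compl]
      intro h1
      have := hT h1
      simp at this
    have hlT : nb l ∈ Tᶜ := by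
      rw [Finset.mem_compl]
      intro h1
      have := hT h1
      simp at this
    have hjT : nb j ∈ Tᶜ := by
      rw [Finset.mem_compl]
      intro h1
      have := hT h1
      simp at this
    have hc3 : 3 ≤ (Tᶜ).card := by
      have h1 : ({s, nb l, nb j} : Finset (Fin v)).card = 3 := by
        rw [Finset.card_insert_of_notMem, Finset.card_insert_of_notMem, Finset.card_singleton]
        · simpa using hnblj
        · simp [hsl, hsj]
      rw [← h1]
      refine Finset.card_le_card ?_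
      intro i hi
      simp only [Finset.mem_insert, Finset.mem_singleton] at hi
      rcases hi with h2 | h2 | h2
      · rw [h2]; exact hsT
      · rw [h2]; exact hlT
      · rw [h2]; exact hjT
    have h1 := hins3 _ hsT hlT hc3
    have h2 := hpart T
    have h3 := hTc T
    have h4 : (tch (GG I1) T).card ≤ (tch (GG (I1.erase j)) T).card := by
      refine Finset.card_le_card ?_
      intro e he
      obtain ⟨he1, he2⟩ := Finset.mem_filter.1 he
      refine Finset.mem_filter.2 ⟨?_, he2⟩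
      rcases Finset.mem_union.1 he1 with h5 | h5
      · exact Finset.mem_union_left _ h5
      · obtain ⟨i, hi, rfl⟩ := Finset.mem_image.1 h5
        refine Finset.mem_union_right _ (Finset.mem_image.2 ⟨i, ?_, rfl⟩)
        refine Finset.mem_erase.2 ⟨?_, hi⟩
        intro hij
        subst hij
        rw [Finset.mem_compl] at hsT hjT
        rcases hst.ends i with ⟨h6, h7⟩ | ⟨h6, h7⟩
        · rw [h6, h7] at he2
          rcases he2 with h8 | h8
          · exact hsT h8
          · exact hjT h8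
        · rw [h6, h7] at he2
          rcases he2 with h8 | h8
          · exact hjT h8
          · exact hsT h8
    have e1 : 8 * P.al * T.card + 8 * P.al * (Tᶜ).card = 8 * P.al * v := by
      rw [← mul_add, h3]
    have e2 : 8 * P.be * (tch (GG I1) T).card + 8 * P.be * (ins (GG I1) Tᶜ).card =
        8 * P.be * (GG I1).card := by
      rw [← mul_add, h2]
    have e3 : 8 * P.be * (tch (GG I1) T).card ≤ 8 * P.be * (tch (GG (I1.erase j)) T).card :=
      Nat.mul_le_mul_left _ h4
    omega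
  -- bounds on the weights
  have hwE : ∀ (y : Fin v → Fin N), y s = s' → ∀ i,
      wE (fun j => pos (nb j)) t J' i (y (nb i)) ≤ (mm t pos L (en i) y : ℝ) := by
    intro y hys i
    unfold wE mm
    refine Nat.cast_le.2 (Finset.card_le_card ?_)
    intro b hb
    obtain ⟨hb1, hb2⟩ := Finset.mem_filter.1 hb
    obtain ⟨hb3, hb4⟩ := Finset.mem_filter.1 (hJ' i hb1)
    refine Finset.mem_filter.2 ⟨hb3, ?_⟩
    rcases hst.ends i with ⟨h6, h7⟩ | ⟨h6, h7⟩
    · rw [h6, h7, hys]
      exact ⟨hb4, hb2⟩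
    · rw [h6, h7, hys]
      exact ⟨hb2, hb4⟩
  have hprodG : ∀ (I : Finset (Fin k)) (y : Fin v → Fin N),
      ((∏ e ∈ GG I, mm t pos L e y : ℕ) : ℝ) =
        (∏ i, (if i ∈ I then (mm t pos L (en i) y : ℝ) else 1)) *
          ∏ e ∈ offs F s, (mm t pos L e y : ℝ) := by
    intro I y
    simp only [hGG]
    rw [Finset.prod_union (hdisj I), Finset.prod_image (fun i _ i' _ h' => hst.inj h')]
    push_cast
    rw [mul_comm, Finset.prod_ite_mem, Finset.univ_inter]
  have hgen : ∀ (w : Fin k → Fin N → ℝ) (I : Finset (Fin k)) (y : Fin v → Fin N), y s = s' →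
      (∀ i b, 0 ≤ w i b) →
      (∀ i, w i (y (nb i)) ≤ if i ∈ I then (mm t pos L (en i) y : ℝ) else 1) →
      (∏ i, w i (y (nb i))) * ∏ e ∈ offs F s, (mm t pos L e y : ℝ) ≤
        ((∏ e ∈ GG I, mm t pos L e y : ℕ) : ℝ) := by
    intro w I y _ hw hw2
    rw [hprodG]
    refine mul_le_mul_of_nonneg_right ?_ (Finset.prod_nonneg fun e _ => Nat.cast_nonneg _)
    exact Finset.prod_le_prod (fun i _ => hw _ _) (fun i _ => hw2 i)
  have hw1n : ∀ (y b : Fin N), 0 ≤ w1 y b := by
    intro y b
    unfold w1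
    split_ifs
    · exact zero_le_one
    · exact le_rfl
  have hw1l : ∀ (y b : Fin N), w1 y b ≤ 1 := by
    intro y b
    unfold w1
    split_ifs
    · exact le_rfl
    · exact zero_le_one
  have hlwn : ∀ i b, 0 ≤ lw (fun j => pos (nb j)) t (fun j => V (nb j)) J' l y0 i b :=
    fun i b => lw_nonneg _ _ _ _ _ _ _ _
  -- the total
  set E : ℝ := nom V m (offs F s) B / ∏ j, ((V (nb j)).card : ℝ) with hE
  set W : ℝ := ∏ e ∈ offs F s, (m / (((V e.1).card : ℝ) * ((V e.2).card : ℝ))) with hW
  have hW0 : 0 < W := Finset.prod_pos fun e _ => div_pos hm0 (mul_pos (hVpos _) (hVpos _))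
  have hPB : 0 < ∏ i ∈ B, ((V i).card : ℝ) := Finset.prod_pos fun i _ => hVpos i
  have hPn : 0 < ∏ j, ((V (nb j)).card : ℝ) := Finset.prod_pos fun i _ => hVpos _
  have hE0 : 0 < E := div_pos (mul_pos hPB hW0) hPn
  have htot := GSC_bd t pos L (offs F s) B S nb E hE0 V hS s s' hs' hF' hnb
    (lw (fun j => pos (nb j)) t (fun j => V (nb j)) J' l y0) hlwn (GG I1)
    (Finset.univ \ {s, nb l}) (fun i => if i = s then s' else y0) (hGdis I1)
    (by
      intro y hys
      by_cases hyl : y (nb l) = y0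
      · have hcond : ∀ i, i ∉ Finset.univ \ ({s, nb l} : Finset (Fin v)) →
            y i = if i = s then s' else y0 := by
          intro i hi
          simp only [Finset.mem_sdiff, Finset.mem_univ, true_and, not_not, Finset.mem_insert,
            Finset.mem_singleton] at hi
          rcases hi with h1 | h1
          · rw [h1, if_pos rfl, hys]
          · rw [h1, if_neg (hnb l), hyl]
        rw [if_pos hcond]
        refine hgen _ I1 y hys hlwn ?_
        intro i
        unfold lw
        by_cases h1 : i < l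
        · rw [if_pos h1, if_neg (hnI i h1)]
          split_ifs
          · exact le_rfl
          · exact zero_le_one
        · rw [if_neg h1]
          by_cases h2 : i = l
          · rw [if_pos h2, if_neg (by rw [h2]; exact hlI1)]
            unfold w1
            split_ifs
            · exact le_rfl
            · exact zero_le_one
          · rw [if_neg h2, if_pos (by
              simp only [hI1, Finset.mem_filter, Finset.mem_univ, true_and]
              exact lt_of_le_of_ne (not_lt.1 h1) (Ne.symm h2))]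
            exact hwE y hys i
      · have h1 : ∏ i, lw (fun j => pos (nb j)) t (fun j => V (nb j)) J' l y0 i (y (nb i)) = 0 := by
          refine Finset.prod_eq_zero (Finset.mem_univ l) ?_
          unfold lw
          rw [if_neg (lt_irrefl l), if_pos rfl]
          unfold w1
          rw [if_neg hyl]
        rw [h1, zero_mul]
        split_ifs
        · exact Nat.cast_nonneg _
        · exact le_rfl)
    (h ^ (a + 1)) (hCR1 _)
  have hcoef := GSC_bd t pos L (offs F s) B S nb E hE0 V hS s s' hs' hF' hnb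
    (Function.update (lw (fun j => pos (nb j)) t (fun j => V (nb j)) J' l y0) j
      (w1 (t (a0, pos (nb j)))))
    (by
      intro i b
      by_cases hij : i = j
      · rw [hij, Function.update_self]
        exact hw1n _ _
      · rw [Function.update_of_ne hij]
        exact hlwn i b) (GG (I1.erase j))
    (Finset.univ \ {s, nb l, nb j})
    (fun i => if i = s then s' else if i = nb l then y0 else t (a0, pos (nb j)))
    (hGdis _)
    (by
      intro y hys
      by_cases hyl : y (nb l) = y0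
      · by_cases hyj : y (nb j) = t (a0, pos (nb j))
        · have hcond : ∀ i, i ∉ Finset.univ \ ({s, nb l, nb j} : Finset (Fin v)) →
              y i = if i = s then s' else if i = nb l then y0 else t (a0, pos (nb j)) := by
            intro i hi
            simp only [Finset.mem_sdiff, Finset.mem_univ, true_and, not_not, Finset.mem_insert,
              Finset.mem_singleton] at hi
            rcases hi with h1 | h1 | h1
            · rw [h1, if_pos rfl, hys]
            · rw [h1, if_neg (hnb l), if_pos rfl, hyl]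
            · rw [h1, if_neg (hnb j), if_neg hnblj.symm, hyj]
          rw [if_pos hcond]
          refine hgen _ (I1.erase j) y hys ?_ ?_
          · intro i b
            by_cases hij : i = j
            · rw [hij, Function.update_self]
              exact hw1n _ _
            · rw [Function.update_of_ne hij]
              exact hlwn i b
          · intro i
            by_cases hij : i = j
            · rw [hij, Function.update_self, if_neg (Finset.notMem_erase j I1)]
              exact hw1l _ _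
            · rw [Function.update_of_ne hij]
              unfold lw
              by_cases h1 : i < l
              · rw [if_pos h1, if_neg (hnI' i h1)]
                split_ifs
                · exact le_rfl
                · exact zero_le_one
              · rw [if_neg h1]
                by_cases h2 : i = l
                · rw [if_pos h2, if_neg (by
                    rw [h2]
                    exact fun h3 => hlI1 (Finset.mem_of_mem_erase h3))]
                  unfold w1
                  split_ifs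
                  · exact le_rfl
                  · exact zero_le_one
                · rw [if_neg h2, if_pos (by
                    refine Finset.mem_erase.2 ⟨hij, ?_⟩
                    simp only [hI1, Finset.mem_filter, Finset.mem_univ, true_and]
                    exact lt_of_le_of_ne (not_lt.1 h1) (Ne.symm h2))]
                  exact hwE y hys i
        · have h1 : ∏ i, Function.update (lw (fun j => pos (nb j)) t (fun j => V (nb j)) J' l y0) j
              (w1 (t (a0, pos (nb j)))) i (y (nb i)) = 0 := by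
            refine Finset.prod_eq_zero (Finset.mem_univ j) ?_
            rw [Function.update_self]
            unfold w1
            rw [if_neg hyj]
          rw [h1, zero_mul]
          split_ifs
          · exact Nat.cast_nonneg _
          · exact le_rfl
      · have h1 : ∏ i, Function.update (lw (fun j => pos (nb j)) t (fun j => V (nb j)) J' l y0) j
            (w1 (t (a0, pos (nb j)))) i (y (nb i)) = 0 := by
          refine Finset.prod_eq_zero (Finset.mem_univ l) ?_
          rw [Function.update_of_ne hlj']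
          unfold lw
          rw [if_neg (lt_irrefl l), if_pos rfl]
          unfold w1
          rw [if_neg hyl]
        rw [h1, zero_mul]
        split_ifs
        · exact Nat.cast_nonneg _
        · exact le_rfl)
    (h ^ (a - 8 + 1)) (hCR2 _)
  -- the final computation
  set Pl : ℝ := ∏ i ∈ Finset.univ.filter (fun i : Fin k => i < l), ((V (nb i)).card : ℝ) with hPl
  set Pg : ℝ := ∏ i ∈ Finset.univ.filter (fun i : Fin k => ¬ i < l), ((V (nb i)).card : ℝ) with hPg
  set Pr : ℝ := ∏ i ∈ Finset.univ.erase s, ((V i).card : ℝ) with hPr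
  have hPl0 : 0 < Pl := Finset.prod_pos fun i _ => hVpos _
  have hPg0 : 0 < Pg := Finset.prod_pos fun i _ => hVpos _
  have hPr0 : 0 < Pr := Finset.prod_pos fun i _ => hVpos _
  have hPnE : ∏ j, ((V (nb j)).card : ℝ) = Pl * Pg :=
    (Finset.prod_filter_mul_prod_filter_not Finset.univ (fun i : Fin k => i < l)
      (fun i => ((V (nb i)).card : ℝ))).symm
  have hEE : E = (∏ i ∈ B, ((V i).card : ℝ)) * W / (Pl * Pg) := by
    rw [hE, hPnE]
    rfl
  have hcard : ((Fintype.piFinset V).card : ℝ) = ((V s).card : ℝ) * Pr := by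
    rw [Fintype.card_piFinset]
    push_cast
    rw [hPr, Finset.mul_prod_erase Finset.univ (fun i => ((V i).card : ℝ)) (Finset.mem_univ s)]
  have hMI : Pg * (h : ℝ) ^ (a - 1) ≤ W * Pr * (z : ℝ) ^ q := by
    refine GSC_num (8 * P.al) (8 * P.be) bb h a q (offs F s).card v k hbb κ₁ cz W Pr
      ((z : ℝ) ^ q) Pg c1 hh1 hc1 hc11 hc1κ hc1z
      (by omega) hhC ?_ (by omega) (by omega) ?_ ?_ ?_ ?_
    · rw [← ha, hGGcard, hI1card]
    · rw [hW]
      have h1 : ∀ e ∈ offs F s, κ₁ / (h : ℝ) ^ (8 * P.be) ≤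
          m / (((V e.1).card : ℝ) * ((V e.2).card : ℝ)) := by
        intro e _
        rw [div_le_div_iff₀ (by positivity) (mul_pos (hVpos _) (hVpos _))]
        calc κ₁ * (((V e.1).card : ℝ) * ((V e.2).card : ℝ))
            ≤ κ₁ * ((h : ℝ) ^ (8 * P.al) * (h : ℝ) ^ (8 * P.al)) := by
              refine mul_le_mul_of_nonneg_left ?_ hκ.le
              exact mul_le_mul (hVle _) (hVle _) (hVpos _).le (by positivity)
          _ = κ₁ * ((h : ℝ) ^ (8 * P.ga) * (h : ℝ) ^ (8 * P.be)) := by
              rw [← pow_add, ← pow_add, hex1]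
          _ = (κ₁ * (h : ℝ) ^ (8 * P.ga)) * (h : ℝ) ^ (8 * P.be) := (mul_assoc _ _ _).symm
          _ ≤ m * (h : ℝ) ^ (8 * P.be) := mul_le_mul_of_nonneg_right hmge (by positivity)
      have h2 := Finset.prod_le_prod (s := offs F s) (f := fun _ => κ₁ / (h : ℝ) ^ (8 * P.be))
        (fun e _ => by positivity) h1
      rw [Finset.prod_const, div_pow, ← pow_mul] at h2
      exact h2
    · rw [hPr]
      have h2 := Finset.prod_le_prod (s := Finset.univ.erase s) (f := fun _ => κ₁ * (h : ℝ) ^ (8 * P.al))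
        (g := fun i => ((V i).card : ℝ)) (fun e _ => by positivity) (fun i _ => hVge i)
      rw [Finset.prod_const, Finset.card_erase_of_mem (Finset.mem_univ _), Finset.card_univ,
        Fintype.card_fin] at h2
      exact h2
    · refine pow_le_pow_left₀ (by positivity) ?_ _
      refine le_trans ?_ hz
      rw [le_div_iff₀ (hVpos s)]
      calc cz * κ₁ * (h : ℝ) ^ bb * ((V s).card : ℝ)
          ≤ cz * κ₁ * (h : ℝ) ^ bb * (h : ℝ) ^ (8 * P.al) :=
            mul_le_mul_of_nonneg_left (hVle s) (by positivity)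
        _ = cz * (κ₁ * ((h : ℝ) ^ bb * (h : ℝ) ^ (8 * P.al))) := by ring
        _ = cz * (κ₁ * (h : ℝ) ^ (8 * P.ga)) := by rw [← pow_add, hex2]
        _ ≤ cz * m := mul_le_mul_of_nonneg_left hmge hcz.le
    · rw [hPg]
      have h2 := Finset.prod_le_prod (s := Finset.univ.filter (fun i : Fin k => ¬ i < l))
        (f := fun i => ((V (nb i)).card : ℝ)) (g := fun _ => (h : ℝ) ^ (8 * P.al))
        (fun i _ => (hVpos _).le) (fun i _ => hVle _)
      rw [Finset.prod_const] at h2
      have h3 : (Finset.univ.filter (fun i : Fin k => ¬ i < l)).card = q + 1 := by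
        have : Finset.univ.filter (fun i : Fin k => ¬ i < l) = Finset.Ici l := by
          ext i
          simp
        rw [this, Fin.card_Ici]
        have := l.2
        omega
      rw [h3] at h2
      exact h2
  have hY0 : 0 ≤ wsum (lw (fun j => pos (nb j)) t (fun j => V (nb j)) J' l y0)
      (fun y => (∑ x : ↥(Fintype.piFinset V), uu t pos L (offs F s) B S nb E x.1 y)
            / (Fintype.card ↥(Fintype.piFinset V) : ℝ)) := by
    refine wsum_nonneg _ _ hlwn ?_
    intro y
    refine div_nonneg (Finset.sum_nonneg fun x _ => ?_) (Nat.cast_nonneg _)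
    unfold uu
    exact div_nonneg (Nat.cast_nonneg _) hE0.le
  rw [Nat.cast_pow] at htot hcoef
  rw [hcard] at htot hcoef
  have hEnom : nom V m (offs F s) B / ∏ j, ((V (nb j)).card : ℝ) =
      (∏ i ∈ B, ((V i).card : ℝ)) * W / (Pl * Pg) := by
    rw [← hEE]
  refine GSC_fin h a ha8 hh1 (∏ i ∈ B, ((V i).card : ℝ)) ((V s).card : ℝ) W Pl Pg Pr ((z : ℝ) ^ q)
    _ _ hPB (hVpos s) hW0 hPl0 hPg0 hPr0 hY0 ?_ ?_ hMI
  · rw [← hEE]
    exact hcoef
  · rw [← hEE]
    exact htot

end Pool.Agent.CUG
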