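import Pool.Agent.CUG.WS
import Pool.Agent.CUG.CNT

set_option autoImplicit false

/-!
# CUG.GSP

Adapt CUB/GSP.lean (96 ↦ 8 al, 40 ↦ 8 be, 152 ↦ 8 ga, 56 ↦ 8 (al - be)). Let `F' = offs F s`,
`E = nom V m F' B / ∏_j |V (nb j)|`, `ρ = update x s s'`. `k = 0`: nothing to prove. Otherwise `hRS` with
`S = B`: `be |F| + 1 ≤ al |B|`; `a = 8 al |B| - 8 be |F| ≥ 8`. (1) total: `E · wsum (wE p t J') (uu x) ≤
Gcnt t pos F B ρ ≤ h^(a+1)`: for `T ⊆ B`, `T ≠ B`, `hRS` for `B \ T` gives
`8 al |T| + 8 ≤ a + 8 be |tch F T|`. (2) coefficient: `Gcnt t pos (F \ {en j}) (B \ {nb j}) ρ'` and `CR` with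
`a - 8`. (3) `E z^k ≥ C h^{8 al (|B|-k) - 8 be |F'| + 8 (al-be) k} = C h^a`, so
`h^(2a-6) ≤ h^(-4) (E z^k)^2` once `h^2 ≥ 1/C^2`.
-/

namespace Pool.Agent.CUG

open Pool.Agent.CUB
open scoped Classical

private lemma GSP_count {kp v N M k : ℕ} (t : Fin M × Fin kp → Fin N) (pos : Fin v → Fin kp)
    (L : Fin v × Fin v → Finset (Fin M)) (F F₁ : Finset (Fin v × Fin v)) (B B₁ : Finset (Fin v))
    (S : Fin v → Finset (Fin N)) (s : Fin v) (hpos : PosD pos F) (hs : s ∉ B)
    (en : Fin k → Fin v × Fin v) (nb : Fin k → Fin v) (hst : Star F s k en nb) (j₀ : Fin k)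
    (hdis : ∀ e ∈ F, ∀ e' ∈ F, e ≠ e' → Disjoint (L e) (L e'))
    (s' : Fin N) (J' : Fin k → Finset (Fin M))
    (hJ' : ∀ j, J' j ⊆ (L (en j)).filter fun i => t (i, pos s) = s')
    (x ρ₁ : Fin v → Fin N) (A : Finset (Fin k → Fin M)) (hA : A ⊆ Fintype.piFinset J')
    (h1 : offs F s ⊆ F₁) (h2 : F₁ ⊆ F)
    (hρ : ∀ lam ∈ A, ∀ y ∈ box B S x, (∀ j, y (nb j) = t (lam j, pos (nb j))) → ∀ i, i ∉ B₁ →
      Function.update y s s' i = ρ₁ i)
    (hlam : ∀ lam ∈ A, ∀ lam' ∈ A, (∀ j, en j ∈ F₁ → lam j = lam' j) → lam = lam') :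
    ∑ lam ∈ A, ∑ y ∈ (box B S x).filter (fun y => ∀ j, y (nb j) = t (lam j, pos (nb j))),
      ∏ e ∈ offs F s, mm t pos L e y ≤ Gcnt t pos F₁ B₁ ρ₁ := by
  have : Nonempty (Fin k) := ⟨j₀⟩
  have hprod : ∀ y : Fin v → Fin N, ∏ e ∈ offs F s, mm t pos L e y =
      (Fintype.piFinset fun e : ↥(offs F s) => (L e.1).filter fun i =>
        t (i, pos e.1.1) = y e.1.1 ∧ t (i, pos e.1.2) = y e.1.2).card := by
    intro y
    rw [Fintype.card_piFinset, ← Finset.prod_coe_sort]
    rfl
  have hsum : ∑ lam ∈ A, ∑ y ∈ (box B S x).filter (fun y => ∀ j, y (nb j) =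
      t (lam j, pos (nb j))), ∏ e ∈ offs F s, mm t pos L e y =
      (A.sigma fun lam => ((box B S x).filter (fun y => ∀ j, y (nb j) =
        t (lam j, pos (nb j)))).sigma fun y =>
        (Fintype.piFinset fun e : ↥(offs F s) => (L e.1).filter fun i =>
        t (i, pos e.1.1) = y e.1.1 ∧ t (i, pos e.1.2) = y e.1.2)).card := by
    rw [Finset.card_sigma]
    refine Finset.sum_congr rfl fun lam _ => ?_
    rw [Finset.card_sigma]
    exact Finset.sum_congr rfl fun y _ => hprod y
  rw [hsum]
  have hends : ∀ e ∈ F, e.1 ≠ e.2 := by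
    intro e he h
    exact hpos e he (by rw [h])
  have hinv : ∀ j, Function.invFun en (en j) = j := Function.leftInverse_invFun hst.inj
  have hbox : ∀ y ∈ box B S x, y s = x s := by
    intro y hy
    have := Fintype.mem_piFinset.mp hy s
    rw [if_neg hs] at this
    exact Finset.mem_singleton.mp this
  have hoff : ∀ e : Fin v × Fin v, e ∈ F → e ∉ offs F s → ∃ j, en j = e := by
    intro e he hn
    rw [hst.mem]
    refine ⟨he, ?_⟩
    by_contra hc
    push Not at hc
    exact hn (Finset.mem_filter.mpr ⟨he, hc.1, hc.2⟩)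
  refine Finset.card_le_card_of_injOn
    (fun q : (_ : Fin k → Fin M) × (_ : Fin v → Fin N) × (↥(offs F s) → Fin M) =>
      ((Function.update q.2.1 s s', fun e : ↥F₁ =>
        if h : e.1 ∈ offs F s then q.2.2 ⟨e.1, h⟩ else q.1 (Function.invFun en e.1)) :
        (Fin v → Fin N) × (↥F₁ → Fin M))) ?_ ?_
  · rintro ⟨lam, y, μ⟩ hq
    rw [Finset.mem_coe, Finset.mem_sigma] at hq
    obtain ⟨hlamA, hq⟩ := hq
    rw [Finset.mem_sigma, Finset.mem_filter] at hq
    obtain ⟨⟨hy, hynb⟩, hμ⟩ := hq
    simp only at hlamA hy hynb hμ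
    rw [Fintype.mem_piFinset] at hμ
    have hlamJ := Fintype.mem_piFinset.mp (hA hlamA)
    -- facts about the chosen blocks
    have key : ∀ e : ↥F₁, (if h : e.1 ∈ offs F s then μ ⟨e.1, h⟩ else
        lam (Function.invFun en e.1)) ∈ L e.1 ∧
        t ((if h : e.1 ∈ offs F s then μ ⟨e.1, h⟩ else lam (Function.invFun en e.1)),
          pos e.1.1) = Function.update y s s' e.1.1 ∧
        t ((if h : e.1 ∈ offs F s then μ ⟨e.1, h⟩ else lam (Function.invFun en e.1)),
          pos e.1.2) = Function.update y s s' e.1.2 := by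
      rintro ⟨e, he⟩
      by_cases h : e ∈ offs F s
      · simp only [h, dif_pos]
        have h3 := Finset.mem_filter.mp (hμ ⟨e, h⟩)
        have h4 := (Finset.mem_filter.mp h).2
        rw [Function.update_of_ne h4.1, Function.update_of_ne h4.2]
        exact h3
      · simp only [h, dif_neg, not_false_eq_true]
        obtain ⟨j, rfl⟩ := hoff e (h2 he) h
        rw [hinv]
        have h3 := Finset.mem_filter.mp (hJ' j (hlamJ j))
        have h4 := hends _ (h2 he)
        refine ⟨h3.1, ?_⟩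
        rcases hst.ends j with h5 | h5
        · have h6 : nb j ≠ s := by
            rw [← h5.1, ← h5.2]
            exact h4.symm
          rw [h5.1, h5.2, Function.update_self, Function.update_of_ne h6]
          exact ⟨h3.2, (hynb j).symm⟩
        · have h6 : nb j ≠ s := by
            rw [← h5.1, ← h5.2]
            exact h4
          rw [h5.1, h5.2, Function.update_self, Function.update_of_ne h6]
          exact ⟨(hynb j).symm, h3.2⟩
    rw [Finset.mem_coe, Finset.mem_filter]
    refine ⟨Finset.mem_univ _, fun i hi => hρ lam hlamA y hy hynb i hi, ?_, fun e => (key e).2⟩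
    intro e e' hee
    by_contra hne
    have hd := hdis e.1 (h2 e.2) e'.1 (h2 e'.2) (fun h => hne (Subtype.ext h))
    have k1 := (key e).1
    have k2 := (key e').1
    simp only at hee
    rw [hee] at k1
    exact Finset.disjoint_left.mp hd k1 k2
  · rintro ⟨lam, y, μ⟩ hq ⟨lam', y', μ'⟩ hq' hqq
    rw [Finset.mem_coe, Finset.mem_sigma] at hq hq'
    obtain ⟨hlamA, hq⟩ := hq
    obtain ⟨hlamA', hq'⟩ := hq'
    rw [Finset.mem_sigma, Finset.mem_filter] at hq hq'
    obtain ⟨⟨hy, hynb⟩, hμ⟩ := hq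
    obtain ⟨⟨hy', hynb'⟩, hμ'⟩ := hq'
    simp only at hlamA hy hynb hμ hlamA' hy' hynb' hμ'
    rw [Prod.mk.injEq] at hqq
    obtain ⟨hq1, hq2⟩ := hqq
    simp only at hq1 hq2
    have hyy : y = y' := by
      funext i
      by_cases hi : i = s
      · subst hi
        rw [hbox y hy, hbox y' hy']
      · have := congrFun hq1 i
        rwa [Function.update_of_ne hi, Function.update_of_ne hi] at this
    have hμμ : μ = μ' := by
      funext e
      have := congrFun hq2 ⟨e.1, h1 e.2⟩
      simpa using this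
    have hll : lam = lam' := by
      refine hlam lam hlamA lam' hlamA' fun j hj => ?_
      have := congrFun hq2 ⟨en j, hj⟩
      have hn : en j ∉ offs F s := by
        intro h
        have h4 := (Finset.mem_filter.mp h).2
        rcases hst.ends j with h5 | h5
        · exact h4.1 h5.1
        · exact h4.2 h5.2
      simp only [hn, dif_neg, not_false_eq_true] at this
      rwa [hinv] at this
    subst hyy hμμ hll
    rfl

private lemma GSP_exp {v : ℕ} (P : Prm) (F : Finset (Fin v × Fin v)) (B : Finset (Fin v)) (htch : Tch F B)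
    (hRS : RS P F B) (T : Finset (Fin v)) (hT : T ⊆ B) :
    (T = B → 8 * P.al * T.card + 8 * P.be * F.card = 8 * P.al * B.card + 8 * P.be * (tch F T).card) ∧
    (T ≠ B → 8 * P.al * T.card + 8 + 8 * P.be * F.card ≤ 8 * P.al * B.card + 8 * P.be * (tch F T).card) := by
  constructor
  · rintro rfl
    have : tch F T = F := by
      unfold tch
      exact Finset.filter_true_of_mem htch
    rw [this]
  · intro hne
    have hne' : (B \ T).Nonempty := by
      rw [Finset.sdiff_nonempty]
      exact fun h => hne (Finset.Subset.antisymm hT h)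
    have h1 := hRS (B \ T) Finset.sdiff_subset hne'
    have h2 : (F.filter fun e => (e.1 ∈ B → e.1 ∈ B \ T) ∧ (e.2 ∈ B → e.2 ∈ B \ T)) =
        F.filter fun e => ¬ (e.1 ∈ T ∨ e.2 ∈ T) := by
      refine Finset.filter_congr fun e _ => ?_
      simp only [Finset.mem_sdiff]
      constructor
      · rintro ⟨h3, h4⟩ (h5 | h5)
        · exact (h3 (hT h5)).2 h5
        · exact (h4 (hT h5)).2 h5
      · intro h3
        push Not at h3
        exact ⟨fun h4 => ⟨h4, h3.1⟩, fun h4 => ⟨h4, h3.2⟩⟩
    rw [h2] at h1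
    have h3 : (tch F T).card + (F.filter fun e => ¬ (e.1 ∈ T ∨ e.2 ∈ T)).card = F.card :=
      Finset.card_filter_add_card_filter_not _
    have h4 : (B \ T).card + T.card = B.card := Finset.card_sdiff_add_card_eq_card hT
    rw [← h3, ← h4]
    linarith

/-- `SprA` from the crude counts. -/
theorem gsp {kp : ℕ} (P : Prm) (v : ℕ) (pos : Fin v → Fin kp) (F : Finset (Fin v × Fin v))
    (B : Finset (Fin v)) (s : Fin v) (hpos : PosD pos F) (htch : Tch F B) (hRS : RS P F B)
    (hs : s ∉ B) (k : ℕ)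
    (en : Fin k → Fin v × Fin v) (nb : Fin k → Fin v) (hst : Star F s k en nb) (cz κ₁ : ℝ)
    (hcz : 0 < cz) (hκ : 0 < κ₁) :
    ∃ h₀ : ℕ, ∀ h ≥ h₀, ∀ (N M : ℕ) (V : Fin v → Finset (Fin N)) (m : ℝ)
      (L : Fin v × Fin v → Finset (Fin M)) (Vc : Fin M × Fin kp → Finset (Fin N)),
      KHyp P h pos F κ₁ V m L Vc → ∀ t : Fin M × Fin kp → Fin N, CR P h t pos →
      ∀ (S : Fin v → Finset (Fin N)), (∀ i, S i ⊆ V i) → ∀ s' ∈ V s,
      ∀ (z : ℕ), cz * m / ((V s).card : ℝ) ≤ (z : ℝ) →
      ∀ J' : Fin k → Finset (Fin M), (∀ j, J' j ⊆ (L (en j)).filter fun i => t (i, pos s) = s') →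
      SprA (fun j => pos (nb j)) t J' z (1 / (h : ℝ) ^ 4)
        (fun x : ↥(Fintype.piFinset V) =>
          uu t pos L (offs F s) B S nb (nom V m (offs F s) B / ∏ j, ((V (nb j)).card : ℝ)) x.1) := by
  rcases Nat.eq_zero_or_pos k with hk | hk
  · subst hk
    refine ⟨0, fun h _ N M V m L Vc _ t _ S _ s' _ z _ J' _ => ?_⟩
    intro x j
    exact j.elim0
  have henF : ∀ j, en j ∈ F ∧ ((en j).1 = s ∨ (en j).2 = s) := fun j => (hst.mem _).mp ⟨j, rfl⟩
  have hoffn : ∀ j, en j ∉ offs F s := by
    intro j h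
    have h4 := (Finset.mem_filter.mp h).2
    rcases (henF j).2 with h5 | h5
    · exact h4.1 h5
    · exact h4.2 h5
  have hnbB : ∀ j, nb j ∈ B := by
    intro j
    have h1 := htch _ (henF j).1
    rcases hst.ends j with h2 | h2
    · rw [h2.1, h2.2] at h1
      exact h1.resolve_left hs
    · rw [h2.1, h2.2] at h1
      exact h1.resolve_right hs
  have hFk : (offs F s).card + k = F.card := by
    have h1 : (offs F s).card + (F.filter fun e => ¬ (e.1 ≠ s ∧ e.2 ≠ s)).card = F.card :=
      Finset.card_filter_add_card_filter_not _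
    have h2 : (F.filter fun e => ¬ (e.1 ≠ s ∧ e.2 ≠ s)) = Finset.univ.image en := by
      ext e
      rw [Finset.mem_filter, Finset.mem_image]
      have h3 := hst.mem e
      constructor
      · rintro ⟨h4, h5⟩
        obtain ⟨j, hj⟩ := h3.mpr ⟨h4, by
          by_contra h6
          push Not at h6
          exact h5 h6⟩
        exact ⟨j, Finset.mem_univ _, hj⟩
      · rintro ⟨j, _, hj⟩
        obtain ⟨h4, h5⟩ := h3.mp ⟨j, hj⟩
        refine ⟨h4, fun h6 => ?_⟩
        rcases h5 with h5 | h5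
        · exact h6.1 h5
        · exact h6.2 h5
    rw [h2, Finset.card_image_of_injective _ hst.inj, Finset.card_univ, Fintype.card_fin] at h1
    exact h1
  have hnbsub : Finset.univ.image nb ⊆ B := by
    intro i hi
    rw [Finset.mem_image] at hi
    obtain ⟨j, _, rfl⟩ := hi
    exact hnbB j
  have hnbcard : (Finset.univ.image nb).card = k := by
    rw [Finset.card_image_of_injective _ hst.injn, Finset.card_univ, Fintype.card_fin]
  have hBk : (B \ Finset.univ.image nb).card + k = B.card := by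
    have := Finset.card_sdiff_add_card_eq_card hnbsub
    rwa [hnbcard] at this
  have hRSB : 8 * P.be * F.card + 8 ≤ 8 * P.al * B.card := by
    have h1 := (GSP_exp P F B htch hRS ∅ (Finset.empty_subset _)).2 (by
      intro h
      have h2 := hnbB ⟨0, hk⟩
      rw [← h] at h2
      exact absurd h2 (Finset.notMem_empty _))
    have h2 : tch F ∅ = ∅ := by
      unfold tch
      exact Finset.filter_false_of_mem (by simp)
    rw [h2, Finset.card_empty, Finset.card_empty] at h1
    omega
  obtain ⟨a, ha⟩ : ∃ a : ℕ, a + 8 * P.be * F.card = 8 * P.al * B.card := ⟨8 * P.al * B.card - 8 * P.be * F.card, by omega⟩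
  have ha8 : 8 ≤ a := by omega
  obtain ⟨C, hC⟩ : ∃ C : ℝ, C = κ₁ ^ (B \ Finset.univ.image nb).card * κ₁ ^ (offs F s).card *
    (cz * κ₁) ^ k := ⟨_, rfl⟩
  have hC0 : 0 < C := by rw [hC]; positivity
  refine ⟨⌈1 / C⌉₊ + 1, ?_⟩
  intro h hh N M V m L Vc hK t hCR S hS s' hs' z hz J' hJ' x j i₀ hi₀
  have hh1 : 1 / C ≤ (h : ℝ) := by
    have h1 := Nat.le_ceil (1 / C)
    have h2 : ((⌈1 / C⌉₊ : ℕ) : ℝ) ≤ (h : ℝ) := by
      exact_mod_cast (by omega : ⌈1 / C⌉₊ ≤ h)
    linarith
  have hhn : 1 ≤ h := by omega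
  obtain ⟨H, hH⟩ : ∃ H : ℝ, H = (h : ℝ) := ⟨_, rfl⟩
  have hH1 : 1 ≤ H := by rw [hH]; exact_mod_cast hhn
  have hH0 : 0 < H := by linarith
  have hbl : P.be ≤ P.al := by
    have h1 := P.hdd
    have h2 : P.be * 1 ≤ P.be * P.dd := Nat.mul_le_mul_left _ P.hd
    omega
  obtain ⟨bb, hbb⟩ : ∃ bb : ℕ, bb + 8 * P.be = 8 * P.al := ⟨8 * P.al - 8 * P.be, by omega⟩
  have hex1 : H ^ (8 * P.al) * H ^ (8 * P.al) = H ^ (8 * P.ga) * H ^ (8 * P.be) := by
    rw [← pow_add, ← pow_add]
    congr 1
    have := P.hga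
    omega
  have hex2 : H ^ bb * H ^ (8 * P.al) = H ^ (8 * P.ga) := by
    rw [← pow_add]
    congr 1
    have := P.hga
    omega
  have hNH : (N : ℝ) = H ^ (8 * P.al) := by rw [hK.hN, hH]; push_cast; rfl
  have hMH : (M : ℝ) = H ^ (8 * P.ga) := by rw [hK.hM, hH]; push_cast; rfl
  have hVpos : ∀ i, (0 : ℝ) < ((V i).card : ℝ) := by
    intro i
    refine lt_of_lt_of_le ?_ (hK.hV i)
    rw [hNH]
    positivity
  have hVN : ∀ i, ((V i).card : ℝ) ≤ H ^ (8 * P.al) := by
    intro i
    rw [← hNH]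
    have := Finset.card_le_univ (V i)
    rw [Fintype.card_fin] at this
    exact_mod_cast this
  have hm0 : 0 < m := by
    refine lt_of_lt_of_le ?_ hK.hm
    rw [hMH]
    positivity
  obtain ⟨E, hE⟩ : ∃ E : ℝ, E = nom V m (offs F s) B / ∏ j, ((V (nb j)).card : ℝ) := ⟨_, rfl⟩
  have hEeq : E = (∏ i ∈ B \ Finset.univ.image nb, ((V i).card : ℝ)) *
      ∏ e ∈ offs F s, (m / (((V e.1).card : ℝ) * ((V e.2).card : ℝ))) := by
    rw [hE]
    unfold nom
    have h1 : ∏ i ∈ B, ((V i).card : ℝ) = (∏ i ∈ B \ Finset.univ.image nb, ((V i).card : ℝ)) *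
        ∏ j, ((V (nb j)).card : ℝ) := by
      rw [← Finset.prod_sdiff hnbsub]
      congr 1
      rw [Finset.prod_image fun a _ b _ hab => hst.injn hab]
    have h2 : ∏ j, ((V (nb j)).card : ℝ) ≠ 0 := (Finset.prod_pos fun j _ => hVpos _).ne'
    rw [h1]
    field_simp
  have hE0 : 0 < E := by
    rw [hEeq]
    refine mul_pos (Finset.prod_pos fun i _ => hVpos i) (Finset.prod_pos fun e _ => ?_)
    have := hVpos e.1
    have := hVpos e.2
    positivity
  -- lower bound for `E z ^ k`
  have hElow : C * H ^ a ≤ E * (z : ℝ) ^ k := by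
    have p1 : (κ₁ * H ^ (8 * P.al)) ^ (B \ Finset.univ.image nb).card ≤
        ∏ i ∈ B \ Finset.univ.image nb, ((V i).card : ℝ) := by
      rw [← Finset.prod_const]
      refine Finset.prod_le_prod (fun i _ => by positivity) fun i _ => ?_
      rw [← hNH]
      exact hK.hV i
    have p2 : (κ₁ / H ^ (8 * P.be)) ^ (offs F s).card ≤
        ∏ e ∈ offs F s, (m / (((V e.1).card : ℝ) * ((V e.2).card : ℝ))) := by
      rw [← Finset.prod_const]
      refine Finset.prod_le_prod (fun i _ => by positivity) fun e _ => ?_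
      have v1 := hVpos e.1
      have v2 := hVpos e.2
      rw [div_le_div_iff₀ (by positivity) (by positivity)]
      have q1 : ((V e.1).card : ℝ) * ((V e.2).card : ℝ) ≤ H ^ (8 * P.al) * H ^ (8 * P.al) :=
        mul_le_mul (hVN _) (hVN _) v2.le (by positivity)
      calc κ₁ * (((V e.1).card : ℝ) * ((V e.2).card : ℝ)) ≤ κ₁ * (H ^ (8 * P.al) * H ^ (8 * P.al)) :=
            mul_le_mul_of_nonneg_left q1 hκ.le
        _ = κ₁ * H ^ (8 * P.ga) * H ^ (8 * P.be) := by rw [hex1]; ring
        _ ≤ m * H ^ (8 * P.be) := by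
            refine mul_le_mul_of_nonneg_right ?_ (by positivity)
            rw [← hMH]
            exact hK.hm
    have p3 : (cz * κ₁ * H ^ bb) ^ k ≤ (z : ℝ) ^ k := by
      refine pow_le_pow_left₀ (by positivity) (le_trans ?_ hz) k
      rw [le_div_iff₀ (hVpos s)]
      calc cz * κ₁ * H ^ bb * ((V s).card : ℝ) ≤ cz * κ₁ * H ^ bb * H ^ (8 * P.al) :=
            mul_le_mul_of_nonneg_left (hVN s) (by positivity)
        _ = cz * (κ₁ * (H ^ bb * H ^ (8 * P.al))) := by ring
        _ = cz * (κ₁ * H ^ (8 * P.ga)) := by rw [hex2]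
        _ ≤ cz * m := by
            refine mul_le_mul_of_nonneg_left ?_ hcz.le
            rw [← hMH]
            exact hK.hm
    have p4 : C * H ^ a = (κ₁ * H ^ (8 * P.al)) ^ (B \ Finset.univ.image nb).card *
        (κ₁ / H ^ (8 * P.be)) ^ (offs F s).card * (cz * κ₁ * H ^ bb) ^ k := by
      have q1 : H ^ a * (H ^ (8 * P.be)) ^ (offs F s).card =
          (H ^ (8 * P.al)) ^ (B \ Finset.univ.image nb).card * (H ^ bb) ^ k := by
        rw [← pow_mul, ← pow_mul, ← pow_mul, ← pow_add, ← pow_add]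
        congr 1
        have q5 : (bb + 8 * P.be) * k = 8 * P.al * k := by rw [hbb]
        rw [← hFk, ← hBk] at ha
        linarith
      rw [hC, mul_pow κ₁ (H ^ (8 * P.al)), mul_pow (cz * κ₁) (H ^ bb), div_pow]
      have q2 : (H ^ (8 * P.be)) ^ (offs F s).card ≠ 0 := by positivity
      have q3 : κ₁ ^ (B \ Finset.univ.image nb).card * (H ^ (8 * P.al)) ^ (B \ Finset.univ.image nb).card *
          (κ₁ ^ (offs F s).card / (H ^ (8 * P.be)) ^ (offs F s).card) * ((cz * κ₁) ^ k * (H ^ bb) ^ k) =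
          κ₁ ^ (B \ Finset.univ.image nb).card * κ₁ ^ (offs F s).card * (cz * κ₁) ^ k *
          ((H ^ (8 * P.al)) ^ (B \ Finset.univ.image nb).card * (H ^ bb) ^ k /
            (H ^ (8 * P.be)) ^ (offs F s).card) := by ring
      rw [q3, ← q1, mul_div_cancel_right₀ _ q2]
    rw [p4, hEeq]
    have r1 : 0 ≤ (κ₁ / H ^ (8 * P.be)) ^ (offs F s).card := by positivity
    have r2 : 0 ≤ (cz * κ₁ * H ^ bb) ^ k := by positivity
    have r3 : 0 ≤ ∏ i ∈ B \ Finset.univ.image nb, ((V i).card : ℝ) :=
      Finset.prod_nonneg fun i _ => (hVpos i).le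
    have r4 : 0 ≤ ∏ e ∈ offs F s, (m / (((V e.1).card : ℝ) * ((V e.2).card : ℝ))) :=
      r1.trans p2
    exact mul_le_mul (mul_le_mul p1 p2 r1 r3) p3 r2 (mul_nonneg r3 r4)
  -- the two counts
  have hc1 : wsum (wE (fun j => pos (nb j)) t J')
      (uu t pos L (offs F s) B S nb E x.1) ≤ H ^ (a + 1) / E := by
    rw [← emp_eq_wsum]
    unfold emp uu
    rw [← Finset.sum_div, ← Nat.cast_sum]
    refine div_le_div_of_nonneg_right ?_ hE0.le
    have h1 := GSP_count t pos L F F B B S s hpos hs en nb hst j hK.hdis s' J' hJ' x.1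
      (Function.update x.1 s s') (Fintype.piFinset J') le_rfl (Finset.filter_subset _ _) le_rfl
      (by
        intro lam _ y hy _ i hi
        by_cases his : i = s
        · subst his
          rw [Function.update_self, Function.update_self]
        · rw [Function.update_of_ne his, Function.update_of_ne his]
          have := Fintype.mem_piFinset.mp hy i
          rw [if_neg hi] at this
          exact Finset.mem_singleton.mp this)
      (by
        intro lam _ lam' _ hj
        funext j'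
        exact hj j' (henF j').1)
    have h2 := hCR F B (Function.update x.1 s s') a hpos (by
      intro T hT
      have h3 := GSP_exp P F B htch hRS T hT
      by_cases h4 : T = B
      · have := h3.1 h4
        omega
      · have := h3.2 h4
        omega)
    rw [hH]
    exact_mod_cast h1.trans h2
  have hc2 : wsum (Function.update (wE (fun j => pos (nb j)) t J') j
      (w1 (t (i₀, (fun j => pos (nb j)) j))))
      (uu t pos L (offs F s) B S nb E x.1) ≤ H ^ (a - 8 + 1) / E := by
    rw [← emp_coef (fun j => pos (nb j)) t J' _ j i₀ hi₀]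
    unfold uu
    rw [← Finset.sum_div, ← Nat.cast_sum]
    refine div_le_div_of_nonneg_right ?_ hE0.le
    have hjs : nb j ≠ s := fun h => hs (h ▸ hnbB j)
    have h1 := GSP_count t pos L F (F.erase (en j)) B (B.erase (nb j)) S s hpos hs en nb hst j
      hK.hdis s' J' hJ' x.1
      (Function.update (Function.update x.1 s s') (nb j) (t (i₀, pos (nb j))))
      ((Fintype.piFinset J').filter fun lam => lam j = i₀) (Finset.filter_subset _ _)
      (by
        intro e he
        rw [Finset.mem_erase]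
        refine ⟨fun h => hoffn j (h ▸ he), (Finset.mem_filter.mp he).1⟩)
      (Finset.erase_subset _ _)
      (by
        intro lam hlam y hy hynb i hi
        rw [Finset.mem_filter] at hlam
        by_cases hij : i = nb j
        · subst hij
          rw [Function.update_of_ne hjs, Function.update_self, hynb j, hlam.2]
        · rw [Function.update_of_ne hij]
          by_cases his : i = s
          · subst his
            rw [Function.update_self, Function.update_self]
          · rw [Function.update_of_ne his, Function.update_of_ne his]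
            have hiB : i ∉ B := fun h => hi (Finset.mem_erase.mpr ⟨hij, h⟩)
            have := Fintype.mem_piFinset.mp hy i
            rw [if_neg hiB] at this
            exact Finset.mem_singleton.mp this)
      (by
        intro lam hlam lam' hlam' hj
        rw [Finset.mem_filter] at hlam hlam'
        funext j'
        by_cases hjj : j' = j
        · subst hjj
          rw [hlam.2, hlam'.2]
        · refine hj j' (Finset.mem_erase.mpr ⟨fun h => hjj (hst.inj h), (henF j').1⟩))
    have h2 := hCR (F.erase (en j)) (B.erase (nb j))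
      (Function.update (Function.update x.1 s s') (nb j) (t (i₀, pos (nb j)))) (a - 8)
      (fun e he => hpos e (Finset.mem_of_mem_erase he)) (by
      intro T hT
      have hTB : T ⊆ B := hT.trans (Finset.erase_subset _ _)
      have hjT : nb j ∉ T := fun h => (Finset.mem_erase.mp (hT h)).1 rfl
      have hsT : s ∉ T := fun h => hs (hTB h)
      have h3 := (GSP_exp P F B htch hRS T hTB).2 (fun h => hjT (h ▸ hnbB j))
      have h4 : tch (F.erase (en j)) T = tch F T := by
        ext e
        unfold tch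
        rw [Finset.mem_filter, Finset.mem_filter, Finset.mem_erase]
        constructor
        · rintro ⟨⟨_, h5⟩, h6⟩
          exact ⟨h5, h6⟩
        · rintro ⟨h5, h6⟩
          refine ⟨⟨?_, h5⟩, h6⟩
          rintro rfl
          rcases hst.ends j with h7 | h7
          · rw [h7.1, h7.2] at h6
            rcases h6 with h6 | h6
            · exact hsT h6
            · exact hjT h6
          · rw [h7.1, h7.2] at h6
            rcases h6 with h6 | h6
            · exact hjT h6
            · exact hsT h6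
      rw [h4]
      omega)
    rw [hH]
    exact_mod_cast h1.trans h2
  have hn2 : 0 ≤ wsum (Function.update (wE (fun j => pos (nb j)) t J') j
      (w1 (t (i₀, (fun j => pos (nb j)) j))))
      (uu t pos L (offs F s) B S nb E x.1) := by
    rw [← emp_coef (fun j => pos (nb j)) t J' _ j i₀ hi₀]
    refine Finset.sum_nonneg fun lam _ => ?_
    unfold uu
    exact div_nonneg (Nat.cast_nonneg _) hE0.le
  have hn1 : 0 ≤ wsum (wE (fun j => pos (nb j)) t J')
      (uu t pos L (offs F s) B S nb E x.1) := by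
    rw [← emp_eq_wsum]
    refine Finset.sum_nonneg fun lam _ => ?_
    unfold uu
    exact div_nonneg (Nat.cast_nonneg _) hE0.le
  rw [← hE]
  refine (mul_le_mul hc2 hc1 hn1 (by positivity)).trans ?_
  rw [← hH]
  have hCH : 1 ≤ C * H := by
    rw [hH]
    rw [div_le_iff₀ hC0] at hh1
    linarith
  have hsq : (C * H ^ a) ^ 2 ≤ (E * (z : ℝ) ^ k) ^ 2 :=
    pow_le_pow_left₀ (by positivity) hElow 2
  have hkey : H ^ (a - 8 + 1) * H ^ (a + 1) * H ^ 4 ≤ (E * (z : ℝ) ^ k) ^ 2 := by
    refine le_trans ?_ hsq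
    have e1 : H ^ (a - 8 + 1) * H ^ (a + 1) * H ^ 4 = H ^ (2 * a - 2) := by
      rw [← pow_add, ← pow_add]
      congr 1
      omega
    have e2 : (C * H ^ a) ^ 2 = (C * H) ^ 2 * H ^ (2 * a - 2) := by
      have e3 : H ^ a ^ 1 * H ^ a = H ^ 2 * H ^ (2 * a - 2) := by
        rw [pow_one, ← pow_add, ← pow_add]
        congr 1
        omega
      rw [pow_one] at e3
      calc (C * H ^ a) ^ 2 = C ^ 2 * (H ^ a * H ^ a) := by ring
        _ = C ^ 2 * (H ^ 2 * H ^ (2 * a - 2)) := by rw [e3]
        _ = _ := by ring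
    rw [e1, e2]
    exact le_mul_of_one_le_left (by positivity) (one_le_pow₀ hCH)
  rw [div_mul_div_comm, div_le_iff₀ (by positivity)]
  have e5 : 1 / H ^ 4 * ((z : ℝ) ^ k) ^ 2 * (E * E) = (E * (z : ℝ) ^ k) ^ 2 / H ^ 4 := by
    field_simp
  rw [e5, le_div_iff₀ (by positivity)]
  exact hkey

end Pool.Agent.CUG
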