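import Pool.Agent.CUG.ADDX
import Pool.Agent.CUG.GAL
import Pool.Agent.CUG.GSP
import Pool.Agent.CUG.GSC

set_option autoImplicit false

/-!
# CUG.ADDG

Adapt CUB/ADDG.lean (96 ↦ 8 al, 152 ↦ 8 ga, 56 ↦ 8 (al - be) ≥ 8: `be + 2 ≤ al` by `P.hdd`, `P.hd`).
-/

namespace Pool.Agent.CUG

open Pool.Agent.CUB
open scoped Classical

private theorem addg_star {kp v : ℕ} (pos : Fin v → Fin kp) (F : Finset (Fin v × Fin v))
    (s : Fin v) (hpos : PosD pos F) (hsimp : Simp F) :
    ∃ (k : ℕ) (en : Fin k → Fin v × Fin v) (nb : Fin k → Fin v), Star F s k en nb := by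
  set Es := F.filter (fun e => e.1 = s ∨ e.2 = s) with hEs
  set q := Es.equivFin with hq
  have hmem : ∀ j, (q.symm j).1 ∈ F ∧ ((q.symm j).1.1 = s ∨ (q.symm j).1.2 = s) := by
    intro j
    exact Finset.mem_filter.1 (q.symm j).2
  have hends : ∀ j, ((q.symm j).1.1 = s ∧ (q.symm j).1.2
        = (if (q.symm j).1.1 = s then (q.symm j).1.2 else (q.symm j).1.1)) ∨
      ((q.symm j).1.1 = (if (q.symm j).1.1 = s then (q.symm j).1.2 else (q.symm j).1.1) ∧
        (q.symm j).1.2 = s) := by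
    intro j
    by_cases h1 : (q.symm j).1.1 = s
    · left
      rw [if_pos h1]
      exact ⟨h1, rfl⟩
    · right
      rw [if_neg h1]
      exact ⟨rfl, (hmem j).2.resolve_left h1⟩
  refine ⟨Es.card, fun j => (q.symm j).1,
    fun j => if (q.symm j).1.1 = s then (q.symm j).1.2 else (q.symm j).1.1, ?_, ?_, ?_, hends⟩
  · exact Subtype.val_injective.comp q.symm.injective
  · intro i j hij
    have key : (q.symm i).1 = (q.symm j).1 := by
      rcases hends i with ⟨a1, a2⟩ | ⟨a1, a2⟩ <;> rcases hends j with ⟨b1, b2⟩ | ⟨b1, b2⟩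
      · exact Prod.ext (a1.trans b1.symm) (a2.trans (hij.trans b2.symm))
      · exfalso
        refine hsimp _ (hmem i).1 ?_
        have h1 : ((q.symm i).1.2, (q.symm i).1.1) = (q.symm j).1 :=
          Prod.ext (a2.trans (hij.trans b1.symm)) (a1.trans b2.symm)
        rw [h1]
        exact (hmem j).1
      · exfalso
        refine hsimp _ (hmem i).1 ?_
        have h1 : ((q.symm i).1.2, (q.symm i).1.1) = (q.symm j).1 :=
          Prod.ext (a2.trans b1.symm) (a1.trans (hij.trans b2.symm))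
        rw [h1]
        exact (hmem j).1
      · exact Prod.ext (a1.trans (hij.trans b1.symm)) (a2.trans b2.symm)
    exact q.symm.injective (Subtype.ext key)
  · intro e
    constructor
    · rintro ⟨j, rfl⟩
      exact hmem j
    · intro he
      have h1 : e ∈ Es := by
        rw [hEs, Finset.mem_filter]
        exact he
      exact ⟨q ⟨e, h1⟩, by rw [Equiv.symm_apply_apply]⟩

private theorem addg_dcount {v N : ℕ} (V : Fin v → Finset (Fin N)) (s : Fin v)
    (f : Fin N → (Fin v → Fin N) → Prop)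
    (hf : ∀ a b x, f a (Function.update x s b) ↔ f a x) :
    (V s).card * ((Fintype.piFinset V).filter fun x => f (x s) x).card
      = ∑ a ∈ V s, ((Fintype.piFinset V).filter fun x => f a x).card := by
  have hupd : ∀ x ∈ Fintype.piFinset V, ∀ a ∈ V s, Function.update x s a ∈ Fintype.piFinset V := by
    intro x hx a ha
    rw [Fintype.mem_piFinset] at hx ⊢
    intro i
    by_cases hi : i = s
    · subst hi
      rw [Function.update_self]
      exact ha
    · rw [Function.update_of_ne hi]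
      exact hx i
  rw [← Finset.card_product, ← Finset.card_sigma]
  refine Finset.card_bij' (fun q _ => (⟨q.2 s, Function.update q.2 s q.1⟩ : Σ _ : Fin N, (Fin v → Fin N)))
    (fun q _ => (q.2 s, Function.update q.2 s q.1)) ?_ ?_ ?_ ?_
  · rintro ⟨a, x⟩ hx
    rw [Finset.mem_product, Finset.mem_filter] at hx
    obtain ⟨ha, hx1, hx2⟩ := hx
    rw [Finset.mem_sigma, Finset.mem_filter]
    exact ⟨(Fintype.mem_piFinset.1 hx1) s, hupd x hx1 a ha, (hf _ _ _).2 hx2⟩
  · rintro ⟨a, x⟩ hx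
    rw [Finset.mem_sigma, Finset.mem_filter] at hx
    obtain ⟨ha, hx1, hx2⟩ := hx
    rw [Finset.mem_product, Finset.mem_filter]
    refine ⟨(Fintype.mem_piFinset.1 hx1) s, hupd x hx1 a ha, ?_⟩
    show f (Function.update x s a s) (Function.update x s a)
    rw [Function.update_self]
    exact (hf _ _ _).2 hx2
  · rintro ⟨a, x⟩ _
    simp only [Function.update_self, Function.update_idem, Function.update_eq_self]
  · rintro ⟨a, x⟩ _
    simp only [Function.update_self, Function.update_idem, Function.update_eq_self]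

private theorem addg_sub {α : Type} [DecidableEq α] (X : Finset α) (P : α → Prop) :
    (Finset.univ.filter fun x : ↥X => P x.1).card = (X.filter P).card := by
  refine Finset.card_bij' (fun x _ => x.1) (fun x hx => ⟨x, (Finset.mem_filter.1 hx).1⟩) ?_ ?_ ?_ ?_
  · intro x hx
    rw [Finset.mem_filter] at hx ⊢
    exact ⟨x.2, hx.2⟩
  · intro x hx
    rw [Finset.mem_filter] at hx ⊢
    exact ⟨Finset.mem_univ _, hx.2⟩
  · intro x _
    rfl
  · intro x _
    rfl

private theorem addg_bad {v N : ℕ} (V : Fin v → Finset (Fin N)) (s : Fin v) (ε : ℝ) (hε : 0 ≤ ε)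
    (hV : (V s).Nonempty) (f : Fin N → (Fin v → Fin N) → Prop)
    (hf : ∀ a b x, f a (Function.update x s b) ↔ f a x)
    (hbad : (((V s).filter fun a => (ε / 2) * ((Fintype.piFinset V).card : ℝ) <
      (((Fintype.piFinset V).filter fun x => f a x).card : ℝ)).card : ℝ)
        ≤ (ε / 2) * ((V s).card : ℝ)) :
    (((Fintype.piFinset V).filter fun x => f (x s) x).card : ℝ)
      ≤ ε * ((Fintype.piFinset V).card : ℝ) := by
  have h1 := addg_dcount V s f hf
  have h2 : ((V s).card : ℝ) * (((Fintype.piFinset V).filter fun x => f (x s) x).card : ℝ)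
      = ∑ a ∈ V s, (((Fintype.piFinset V).filter fun x => f a x).card : ℝ) := by
    exact_mod_cast h1
  set X := Fintype.piFinset V with hX
  set Bad := (V s).filter fun a => (ε / 2) * (X.card : ℝ) <
      ((X.filter fun x => f a x).card : ℝ) with hBad
  have h3 : ∑ a ∈ V s, ((X.filter fun x => f a x).card : ℝ)
      ≤ ∑ a ∈ V s, ((if a ∈ Bad then (X.card : ℝ) else 0) + (ε / 2) * (X.card : ℝ)) := by
    refine Finset.sum_le_sum fun a ha => ?_
    split_ifs with hb
    · have h4 : ((X.filter fun x => f a x).card : ℝ) ≤ X.card := by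
        exact_mod_cast Finset.card_filter_le _ _
      have h5 : 0 ≤ (ε / 2) * (X.card : ℝ) := by positivity
      linarith
    · rw [zero_add]
      by_contra hc
      exact hb (by
        rw [hBad, Finset.mem_filter]
        exact ⟨ha, not_le.1 hc⟩)
  have h4 : ∑ a ∈ V s, (if a ∈ Bad then (X.card : ℝ) else 0) = (Bad.card : ℝ) * (X.card : ℝ) := by
    rw [← Finset.sum_filter, Finset.sum_const, nsmul_eq_mul]
    congr 2
    rw [Finset.filter_mem_eq_inter, hBad, Finset.inter_eq_right.2 (Finset.filter_subset _ _)]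
  rw [Finset.sum_add_distrib, h4, Finset.sum_const, nsmul_eq_mul, ← h2] at h3
  have h5 : (0 : ℝ) < (V s).card := by exact_mod_cast Finset.card_pos.2 hV
  have h6 : (Bad.card : ℝ) * (X.card : ℝ) ≤ (ε / 2) * ((V s).card : ℝ) * (X.card : ℝ) :=
    mul_le_mul_of_nonneg_right hbad (by positivity)
  have h7 : ((V s).card : ℝ) * ((X.filter fun x => f (x s) x).card : ℝ)
      ≤ ((V s).card : ℝ) * (ε * (X.card : ℝ)) := by
    refine h3.trans ?_
    nlinarith [h6]
  exact le_of_mul_le_mul_left h7 h5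

private theorem addg_alg (P G H Q : ℝ) (hP : P ≠ 0) (hG : G ≠ 0) (hQ : Q ≠ 0) :
    (P * (G * H)) / ((P * G) / Q) = H * Q := by
  field_simp

private theorem addg_iff {v : ℕ} (s : Fin v) (e : Fin v × Fin v) :
    ¬ (e.1 ≠ s ∧ e.2 ≠ s) ↔ (e.1 = s ∨ e.2 = s) := by
  rw [not_and_or, not_not, not_not]

private theorem addg_nom {v N k : ℕ} (V : Fin v → Finset (Fin N)) (m : ℝ)
    (F : Finset (Fin v × Fin v)) (B : Finset (Fin v)) (s : Fin v) (hm : 0 < m)
    (hV : ∀ i, (0 : ℝ) < (V i).card) (en : Fin k → Fin v × Fin v) (nb : Fin k → Fin v)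
    (hst : Star F s k en nb) :
    nom V m F B / (nom V m (offs F s) B / ∏ j, ((V (nb j)).card : ℝ))
      = (m / ((V s).card : ℝ)) ^ k := by
  have key : ∀ g : Fin v × Fin v → ℝ, (∀ e, 0 < g e) →
      (∀ j, g (en j) * ((V (nb j)).card : ℝ) = m / ((V s).card : ℝ)) →
      ((∏ i ∈ B, ((V i).card : ℝ)) * ∏ e ∈ F, g e) /
        (((∏ i ∈ B, ((V i).card : ℝ)) * ∏ e ∈ offs F s, g e) / ∏ j, ((V (nb j)).card : ℝ))
      = (m / ((V s).card : ℝ)) ^ k := by
    intro g hg0 h2
    have h1 : ∏ e ∈ F, g e = (∏ e ∈ offs F s, g e) * ∏ j, g (en j) := by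
      unfold offs
      rw [← Finset.prod_filter_mul_prod_filter_not F (fun e : Fin v × Fin v => e.1 ≠ s ∧ e.2 ≠ s)]
      congr 1
      rw [← Finset.prod_image (s := Finset.univ) (g := en) (f := g) (fun i _ j _ h => hst.inj h)]
      refine Finset.prod_congr ?_ fun _ _ => rfl
      ext e
      rw [Finset.mem_filter, Finset.mem_image]
      constructor
      · rintro ⟨h2, h3⟩
        obtain ⟨j, hj⟩ := (hst.mem e).2 ⟨h2, (addg_iff s e).1 h3⟩
        exact ⟨j, Finset.mem_univ _, hj⟩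
      · rintro ⟨j, _, hj⟩
        obtain ⟨h2, h3⟩ := (hst.mem e).1 ⟨j, hj⟩
        exact ⟨h2, (addg_iff s e).2 h3⟩
    have h3 : (∏ j, g (en j)) * ∏ j, ((V (nb j)).card : ℝ) = (m / ((V s).card : ℝ)) ^ k := by
      rw [← Finset.prod_mul_distrib, Finset.prod_congr rfl fun j _ => h2 j, Finset.prod_const,
        Finset.card_univ, Fintype.card_fin]
    have e1 : 0 < ∏ e ∈ offs F s, g e := Finset.prod_pos fun e _ => hg0 e
    have e2 : 0 < ∏ i ∈ B, ((V i).card : ℝ) := Finset.prod_pos fun i _ => hV i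
    have e3 : 0 < ∏ j, ((V (nb j)).card : ℝ) := Finset.prod_pos fun j _ => hV _
    rw [← h3, h1]
    exact addg_alg _ _ _ _ e2.ne' e1.ne' e3.ne'
  refine key (fun e => m / (((V e.1).card : ℝ) * ((V e.2).card : ℝ)))
    (fun e => div_pos hm (mul_pos (hV _) (hV _))) fun j => ?_
  have e1 := (hV (nb j)).ne'
  have e2 := (hV s).ne'
  show m / (((V (en j).1).card : ℝ) * ((V (en j).2).card : ℝ)) * _ = _
  rcases hst.ends j with ⟨h3, h4⟩ | ⟨h3, h4⟩
  · rw [h3, h4]
    field_simp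
  · rw [h3, h4]
    field_simp

private theorem addg_exp (θ₁ : ℝ) (hθ₁ : 0 < θ₁) (n : ℕ) :
    ∃ h₀ : ℕ, ∀ h ≥ h₀, ((h : ℝ) ^ 4) ^ n * Real.exp (-(θ₁ * (h : ℝ) ^ 4)) ≤ 1 := by
  have h1 := Real.tendsto_pow_mul_exp_neg_atTop_nhds_zero n
  have h2 : Filter.Tendsto (fun h : ℕ => θ₁ * (h : ℝ) ^ 4) Filter.atTop Filter.atTop := by
    refine Filter.Tendsto.const_mul_atTop hθ₁ ?_
    exact (Filter.tendsto_pow_atTop (by norm_num)).comp tendsto_natCast_atTop_atTop
  have h3 := h1.comp h2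
  have h4 : (0 : ℝ) < θ₁ ^ n := by positivity
  obtain ⟨h₀, h5⟩ := Filter.eventually_atTop.1 (h3.eventually (gt_mem_nhds h4))
  refine ⟨h₀, fun h hh => ?_⟩
  have h6 := h5 h hh
  simp only [Function.comp_apply] at h6
  rw [mul_pow, mul_assoc] at h6
  have h7 : ((h : ℝ) ^ 4) ^ n * Real.exp (-(θ₁ * (h : ℝ) ^ 4)) < 1 := by
    by_contra hc
    have h8 : θ₁ ^ n * 1 ≤ θ₁ ^ n * (((h : ℝ) ^ 4) ^ n * Real.exp (-(θ₁ * (h : ℝ) ^ 4))) :=
      mul_le_mul_of_nonneg_left (not_lt.1 hc) h4.le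
    linarith
  exact h7.le

/-- The induction step of the key theorem: adding the star at the root `s`. -/
theorem addg {kp : ℕ} (P : Prm) (v : ℕ) (pos : Fin v → Fin kp) (F : Finset (Fin v × Fin v))
    (B : Finset (Fin v)) (s : Fin v) (hpos : PosD pos F) (hsimp : Simp F) (htch : Tch F B)
    (hD2 : D2 P F) (hRS : RS P F B) (hs : s ∉ B) (hsF : ∃ e ∈ F, e.1 = s ∨ e.2 = s) :
    ∀ c₀ ε K : ℝ, 0 < c₀ → 0 < ε → ε ≤ 1 → 0 < K →
    ∃ ε' : ℝ, 0 < ε' ∧ ∀ c' : ℝ, 0 < c' → ∃ c : ℝ, 0 < c ∧ ∃ εin : ℝ, 0 < εin ∧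
    ∀ κ₁ : ℝ, 0 < κ₁ → ∃ h₀ : ℕ, ∀ h ≥ h₀, ∀ (N M : ℕ) (V : Fin v → Finset (Fin N)) (m : ℝ)
      (L : Fin v × Fin v → Finset (Fin M)) (Vc : Fin M × Fin kp → Finset (Fin N)),
      KHyp P h pos F κ₁ V m L Vc →
      (((Fintype.piFinset Vc).filter fun t => CR P h t pos ∧ Dense t pos L V m F εin c₀ ∧
          Reg t pos L V m (offs F s) B ε' c' ∧ ¬ Reg t pos L V m F B ε c).card : ℝ)
        ≤ Real.exp (-(K * m)) * ((Fintype.piFinset Vc).card : ℝ) := by
  intro c₀ ε K hc₀ hε hε1 hK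
  obtain ⟨k, en, nb, hst⟩ := addg_star pos F s hpos hsimp
  have hk : 0 < k := by
    obtain ⟨e, he, hes⟩ := hsF
    obtain ⟨j, -⟩ := (hst.mem e).2 ⟨he, hes⟩
    exact lt_of_le_of_lt (Nat.zero_le _) j.2
  have hkR : (0 : ℝ) < k := by exact_mod_cast hk
  have henF : ∀ j, en j ∈ F := fun j => ((hst.mem (en j)).1 ⟨j, rfl⟩).1
  have hnbB : ∀ j, nb j ∈ B := by
    intro j
    rcases hst.ends j with ⟨h1, h2⟩ | ⟨h1, h2⟩
    · rcases htch _ (henF j) with h3 | h3
      · rw [h1] at h3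
        exact absurd h3 hs
      · rwa [h2] at h3
    · rcases htch _ (henF j) with h3 | h3
      · rwa [h1] at h3
      · rw [h2] at h3
        exact absurd h3 hs
  have hps : ∀ j, pos (nb j) ≠ pos s := by
    intro j
    have h3 := hpos _ (henF j)
    rcases hst.ends j with ⟨h1, h2⟩ | ⟨h1, h2⟩
    · rw [h1, h2] at h3
      exact h3.symm
    · rw [h1, h2] at h3
      exact h3
  have hb : 0 < 8 * (K + 2) / (c₀ * ε ^ 2) := by positivity
  obtain ⟨ε'₀, hε'₀, hX⟩ := addx k ε hε (8 * (K + 2) / (c₀ * ε ^ 2)) hb ε hε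
  refine ⟨min ε'₀ ε, lt_min hε'₀ hε, fun c' hc' => ?_⟩
  obtain ⟨c₂, hc₂, θ₁, hθ₁, z₀, hX⟩ := hX c' hc'
  have hcz : 0 < c₀ * ε / 2 := by positivity
  refine ⟨c₂ * (c₀ * ε / 2) ^ k, by positivity, min ε (ε / (4 * k)),
    lt_min hε (by positivity), fun κ₁ hκ₁ => ?_⟩
  obtain ⟨h₁, hh₁⟩ := gsp P v pos F B s hpos htch hRS hs k en nb hst (c₀ * ε / 2) κ₁ hcz hκ₁
  obtain ⟨h₂, hh₂⟩ := gsc P v pos F B s hpos htch hD2 hs k en nb hst (c₀ * ε / 2) κ₁ hcz hκ₁
  obtain ⟨h₃, hh₃⟩ := addg_exp θ₁ hθ₁ (2 * P.al * (v + 1))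
  obtain ⟨h₄, hh₄⟩ := exists_nat_ge (1 + 1 / θ₁ + 2 * (z₀ + 1) / (c₀ * ε * κ₁) + (v + 1) / κ₁)
  refine ⟨h₁ + h₂ + h₃ + h₄, fun h hh N M V m L Vc hKH => ?_⟩
  -- numerical facts
  have hh4 : (h₄ : ℝ) ≤ h := by
    have : h₄ ≤ h := by omega
    exact_mod_cast this
  have q1 : 0 < 1 / θ₁ := by positivity
  have q2 : 0 ≤ 2 * ((z₀ : ℝ) + 1) / (c₀ * ε * κ₁) := by positivity
  have q3 : 0 ≤ ((v : ℝ) + 1) / κ₁ := by positivity
  have h1 : (1 : ℝ) ≤ h := by linarith
  have h0 : (0 : ℝ) < h := by linarith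
  have hθh : 1 / θ₁ ≤ (h : ℝ) := by linarith
  have hzh : 2 * ((z₀ : ℝ) + 1) / (c₀ * ε * κ₁) ≤ h := by linarith
  have hvh : ((v : ℝ) + 1) / κ₁ ≤ h := by linarith
  have hNR : (N : ℝ) = (h : ℝ) ^ (8 * P.al) := by
    rw [hKH.hN]
    push_cast
    rfl
  obtain ⟨q, hq1, hq2⟩ : ∃ q : ℕ, 1 ≤ q ∧ 8 * P.ga = q + 8 * P.al := by
    have i1 := P.hga
    have i2 := P.hdd
    have i3 : P.be * 1 ≤ P.be * P.dd := Nat.mul_le_mul_left _ P.hd
    exact ⟨8 * (P.al - P.be), by omega, by omega⟩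
  have hMR : (M : ℝ) = (h : ℝ) ^ q * N := by
    rw [hKH.hM, hNR, ← pow_add, ← hq2]
    push_cast
    rfl
  have hN0 : (0 : ℝ) < N := by rw [hNR]; positivity
  have hVle : ∀ i, ((V i).card : ℝ) ≤ N := by
    intro i
    have h5 := Finset.card_le_univ (V i)
    rw [Fintype.card_fin] at h5
    exact_mod_cast h5
  have hVpos : ∀ i, (0 : ℝ) < (V i).card := fun i =>
    lt_of_lt_of_le (by positivity) (hKH.hV i)
  have hVne : ∀ i, (V i).Nonempty := fun i => Finset.card_pos.1 (by exact_mod_cast hVpos i)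
  have hm0 : 0 < m := by
    refine lt_of_lt_of_le ?_ hKH.hm
    rw [hMR]
    positivity
  have hhq : (h : ℝ) ≤ (h : ℝ) ^ q := by
    calc (h : ℝ) = (h : ℝ) ^ 1 := (pow_one _).symm
      _ ≤ (h : ℝ) ^ q := pow_le_pow_right₀ h1 hq1
  have hh4' : (h : ℝ) ≤ (h : ℝ) ^ 4 := by
    calc (h : ℝ) = (h : ℝ) ^ 1 := (pow_one _).symm
      _ ≤ (h : ℝ) ^ 4 := pow_le_pow_right₀ h1 (by norm_num)
  -- the number `z`
  set r := c₀ * ε * m / ((V s).card : ℝ) with hr
  have hr1 : 2 * ((z₀ : ℝ) + 1) ≤ r := by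
    have e1 : c₀ * ε * κ₁ * (h : ℝ) ^ q ≤ r := by
      rw [hr, le_div_iff₀ (hVpos s)]
      have e2 : c₀ * ε * κ₁ * (h : ℝ) ^ q * ((V s).card : ℝ)
          ≤ c₀ * ε * κ₁ * (h : ℝ) ^ q * N :=
        mul_le_mul_of_nonneg_left (hVle s) (by positivity)
      have e3 : c₀ * ε * (κ₁ * (M : ℝ)) ≤ c₀ * ε * m :=
        mul_le_mul_of_nonneg_left hKH.hm (by positivity)
      rw [hMR] at e3
      nlinarith [e2, e3]
    have e4 : 2 * ((z₀ : ℝ) + 1) ≤ c₀ * ε * κ₁ * (h : ℝ) := by
      rw [div_le_iff₀ (by positivity)] at hzh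
      linarith
    have e5 : c₀ * ε * κ₁ * (h : ℝ) ≤ c₀ * ε * κ₁ * (h : ℝ) ^ q :=
      mul_le_mul_of_nonneg_left hhq (by positivity)
    linarith
  have hz0' : (0 : ℝ) ≤ z₀ := Nat.cast_nonneg _
  set z := ⌊r⌋₊ with hz
  have hz1 : (z : ℝ) ≤ r := Nat.floor_le (by linarith)
  have hz2 : r < z + 1 := Nat.lt_floor_add_one r
  have hz3 : c₀ * ε / 2 * m / ((V s).card : ℝ) ≤ z := by
    have e1 : c₀ * ε / 2 * m / ((V s).card : ℝ) = r / 2 := by
      rw [hr]
      ring
    rw [e1]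
    linarith
  have hz4 : z₀ ≤ z := by
    have : (z₀ : ℝ) ≤ z := by linarith
    exact_mod_cast this
  -- `θ`
  have hθ0 : (0 : ℝ) < 1 / (h : ℝ) ^ 4 := by positivity
  have hθle : 1 / (h : ℝ) ^ 4 ≤ θ₁ := by
    rw [div_le_iff₀ (by positivity)]
    rw [div_le_iff₀ hθ₁] at hθh
    nlinarith [mul_le_mul_of_nonneg_left hh4' hθ₁.le]
  have hdiv : θ₁ / (1 / (h : ℝ) ^ 4) = θ₁ * (h : ℝ) ^ 4 := by
    rw [div_div_eq_mul_div, div_one]
  have hexp := hh₃ h (by omega)
  rw [← pow_mul] at hexp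
  have hexp1 : (N : ℝ) * Real.exp (-(θ₁ / (1 / (h : ℝ) ^ 4))) ≤ 1 := by
    rw [hdiv]
    refine le_trans (mul_le_mul_of_nonneg_right ?_ (Real.exp_pos _).le) hexp
    rw [hNR]
    exact pow_le_pow_right₀ h1 (by nlinarith [Nat.zero_le (P.al * v)])
  have hcardX : ((Fintype.piFinset V).card : ℝ) ≤ (h : ℝ) ^ (4 * (2 * P.al * (v + 1))) := by
    rw [Fintype.card_piFinset]
    push_cast
    calc ∏ i, ((V i).card : ℝ) ≤ ∏ _i : Fin v, (N : ℝ) :=
          Finset.prod_le_prod (fun i _ => Nat.cast_nonneg _) fun i _ => hVle i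
      _ = (h : ℝ) ^ (8 * P.al * v) := by
          rw [Finset.prod_const, Finset.card_univ, Fintype.card_fin, hNR, ← pow_mul]
      _ ≤ _ := pow_le_pow_right₀ h1 (by nlinarith [Nat.zero_le (P.al * v)])
  have hexp2 : (Fintype.card ↥(Fintype.piFinset V) : ℝ) *
      Real.exp (-(θ₁ / (1 / (h : ℝ) ^ 4))) ≤ 1 := by
    rw [hdiv, Fintype.card_coe]
    exact le_trans (mul_le_mul_of_nonneg_right hcardX (Real.exp_pos _).le) hexp
  -- the normalisation
  set E := nom V m (offs F s) B / ∏ j, ((V (nb j)).card : ℝ) with hE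
  have hnom : ∀ F', 0 < nom V m F' B := by
    intro F'
    unfold nom
    refine mul_pos (Finset.prod_pos fun i _ => hVpos i) (Finset.prod_pos fun e _ => ?_)
    exact div_pos hm0 (mul_pos (hVpos _) (hVpos _))
  have hE0 : 0 < E := div_pos (hnom _) (Finset.prod_pos fun j _ => hVpos _)
  have hnomE : nom V m F B / E = (m / ((V s).card : ℝ)) ^ k := by
    rw [hE]
    exact addg_nom V m F B s hm0 hVpos en nb hst
  -- the events
  let A : (Fin v → Finset (Fin N)) → Finset (Fin M × Fin kp → Fin N) := fun S =>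
    (Fintype.piFinset Vc).filter fun t =>
          (∀ Y : Fin k → Finset (Fin N), (∀ j, Y j ⊆ S (nb j)) →
            (∀ j, ε'₀ * ((V (nb j)).card : ℝ) ≤ ((Y j).card : ℝ)) →
            ((Finset.univ.filter fun x : ↥(Fintype.piFinset V) =>
                ∑ y ∈ Fintype.piFinset Y, uu t pos L (offs F s) B S nb E x.1 y
                  < c' * ∏ j, ((V (nb j)).card : ℝ)).card : ℝ)
              ≤ ε'₀ * (Fintype.card ↥(Fintype.piFinset V) : ℝ)) ∧
          (∀ s' ∈ V s, ∀ J' : Fin k → Finset (Fin M),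
            (∀ j, J' j ⊆ (L (en j)).filter fun i => t (i, pos s) = s') → (∀ j, (J' j).card = z) →
            SprA (fun j => pos (nb j)) t J' z (1 / (h : ℝ) ^ 4)
                (fun x : ↥(Fintype.piFinset V) => uu t pos L (offs F s) B S nb E x.1) ∧
              SprC (fun j => pos (nb j)) t (fun j => V (nb j)) J' z (1 / (h : ℝ) ^ 4)
                (fun y => (∑ x : ↥(Fintype.piFinset V), uu t pos L (offs F s) B S nb E x.1 y) /
                  (Fintype.card ↥(Fintype.piFinset V) : ℝ))) ∧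
          (((V s).filter fun s' => ∃ j, (JS (pos s) (fun j => pos (nb j)) t (fun j => L (en j))
              (fun j => S (nb j)) s' j).card < z).card : ℝ)
            ≤ (ε / 4) * ((V s).card : ℝ) ∧
          (ε / 2) * ((V s).card : ℝ) < (((V s).filter fun s' =>
            (ε / 2) * (Fintype.card ↥(Fintype.piFinset V) : ℝ) <
              ((Finset.univ.filter fun x : ↥(Fintype.piFinset V) =>
                emp (fun j => pos (nb j)) t (JS (pos s) (fun j => pos (nb j)) t (fun j => L (en j))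
                  (fun j => S (nb j)) s') (uu t pos L (offs F s) B S nb E x.1)
                    < c₂ * (z : ℝ) ^ k).card : ℝ)).card : ℝ)
  have hA : ∀ S : Fin v → Finset (Fin N), (∀ i, S i ⊆ V i) →
      (∀ i ∈ B, ε * ((V i).card : ℝ) ≤ ((S i).card : ℝ)) →
      ((A S).card : ℝ) ≤ 2 ^ (V s).card *
        Real.exp (-(8 * (K + 2) / (c₀ * ε ^ 2) * z * ((ε / 4) * ((V s).card : ℝ))))
          * ((Fintype.piFinset Vc).card : ℝ) := by
    intro S hS hSε
    refine hX N M ↥(Fintype.piFinset V) (pos s) (fun j => pos (nb j)) (fun j => L (en j)) (V s)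
      (fun j => V (nb j)) (fun j => S (nb j)) Vc z (1 / (h : ℝ) ^ 4)
      (fun t x => uu t pos L (offs F s) B S nb E x.1) hps ?_ (fun j => hS _) (fun j => hVne _)
      (fun j => hSε _ (hnbB j)) ?_ ?_ ?_ hz4 hθ0 hθle hexp1 hexp2
    · intro i j hij
      exact hKH.hdis _ (henF i) _ (henF j) fun h5 => hij (hst.inj h5)
    · intro j i hi
      have h5 := hKH.hVc _ (henF j) i hi
      rcases hst.ends j with ⟨h6, h7⟩ | ⟨h6, h7⟩
      · rw [h6, h7] at h5
        exact h5
      · rw [h6, h7] at h5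
        exact ⟨h5.2, h5.1⟩
    · intro t x y
      exact div_nonneg (Nat.cast_nonneg _) hE0.le
    · intro t t' htt
      funext x
      have h5 := gal_inv pos L F B S s hKH.hdis en nb hst E t t' htt
      show uu t pos L (offs F s) B S nb E x.1 = uu t' pos L (offs F s) B S nb E x.1
      rw [h5]
  -- the inclusion
  have hsub : ((Fintype.piFinset Vc).filter fun t => CR P h t pos ∧
      Dense t pos L V m F (min ε (ε / (4 * k))) c₀ ∧
      Reg t pos L V m (offs F s) B (min ε'₀ ε) c' ∧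
      ¬ Reg t pos L V m F B ε (c₂ * (c₀ * ε / 2) ^ k)) ⊆
      (Finset.univ.filter fun S : Fin v → Finset (Fin N) => (∀ i, S i ⊆ V i) ∧
        ∀ i ∈ B, ε * ((V i).card : ℝ) ≤ ((S i).card : ℝ)).biUnion A := by
    intro t ht
    rw [Finset.mem_filter] at ht
    obtain ⟨htΩ, hCR, hDense, hReg, hnReg⟩ := ht
    unfold Reg at hnReg
    push Not at hnReg
    obtain ⟨S, hS, hSε, hS3⟩ := hnReg
    rw [Finset.mem_biUnion]
    refine ⟨S, Finset.mem_filter.2 ⟨Finset.mem_univ _, hS, hSε⟩, Finset.mem_filter.2 ⟨htΩ, ?_⟩⟩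
    refine ⟨?_, ?_, ?_, ?_⟩
    · intro Y hY hYε
      have h5 := gal_reg t pos L V m F B s hs htch en nb hst ε (min ε'₀ ε) c' (min_le_right _ _) hm0
        hVne hReg S hS hSε Y hY (fun j => le_trans (mul_le_mul_of_nonneg_right (min_le_left _ _)
          (Nat.cast_nonneg _)) (hYε j))
      exact h5.trans (mul_le_mul_of_nonneg_right (min_le_left _ _) (Nat.cast_nonneg _))
    · intro s' hs' J' hJ' _
      exact ⟨hh₁ h (by omega) N M V m L Vc hKH t hCR S hS s' hs' z hz3 J' hJ',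
        hh₂ h (by omega) N M V m L Vc hKH t hCR S hS s' hs' z hz3 J' hJ'⟩
    · have h5 := gal_dense t pos L V m F B s hs htch en nb hst ε (min ε (ε / (4 * k))) c₀ hε
        (lt_min hε (by positivity)) (min_le_left _ _) hc₀ hm0 hVne hDense S hS hSε z hz1
      refine h5.trans (mul_le_mul_of_nonneg_right ?_ (Nat.cast_nonneg _))
      calc (k : ℝ) * min ε (ε / (4 * k)) ≤ k * (ε / (4 * k)) :=
            mul_le_mul_of_nonneg_left (min_le_right _ _) hkR.le
        _ = ε / 4 := by field_simp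
    · by_contra hcon
      rw [not_lt] at hcon
      set f : Fin N → (Fin v → Fin N) → Prop := fun s' x =>
        emp (fun j => pos (nb j)) t (JS (pos s) (fun j => pos (nb j)) t (fun j => L (en j))
          (fun j => S (nb j)) s') (uu t pos L (offs F s) B S nb E x) < c₂ * (z : ℝ) ^ k with hf
      have hfu : ∀ a b x, f a (Function.update x s b) ↔ f a x := by
        intro a b x
        rw [hf]
        show emp _ t _ (uu t pos L (offs F s) B S nb E (Function.update x s b)) < _ ↔ _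
        rw [gal_upd t pos L F B S s hs htch en nb hst E x b]
      have h5 : ∀ a, (Finset.univ.filter fun x : ↥(Fintype.piFinset V) => f a x.1).card
          = ((Fintype.piFinset V).filter fun x => f a x).card := fun a => addg_sub _ _
      have h6 := addg_bad V s ε hε.le (hVne s) f hfu (by
        refine le_trans ?_ hcon
        refine le_of_eq ?_
        congr 2
        refine Finset.filter_congr fun a _ => ?_
        rw [← h5 a, Fintype.card_coe])
      have h7 : (Fintype.piFinset V).filter (fun x =>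
          (ext t pos L F B S x : ℝ) < c₂ * (c₀ * ε / 2) ^ k * nom V m F B) ⊆
          (Fintype.piFinset V).filter fun x => f (x s) x := by
        intro x hx
        rw [Finset.mem_filter] at hx ⊢
        refine ⟨hx.1, ?_⟩
        show emp _ t _ (uu t pos L (offs F s) B S nb E x) < _
        rw [← gal_ext t pos L F B S s hs htch en nb hst E x]
        have h8 : (ext t pos L F B S x : ℝ) / E < c₂ * (c₀ * ε / 2) ^ k * nom V m F B / E :=
          div_lt_div_of_pos_right hx.2 hE0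
        have h9 : c₂ * (c₀ * ε / 2) ^ k * nom V m F B / E
            = c₂ * (c₀ * ε / 2 * m / ((V s).card : ℝ)) ^ k := by
          rw [mul_div_assoc, hnomE]
          rw [mul_assoc, ← mul_pow]
          congr 2
          ring
        have h10 : c₂ * (c₀ * ε / 2 * m / ((V s).card : ℝ)) ^ k ≤ c₂ * (z : ℝ) ^ k :=
          mul_le_mul_of_nonneg_left (pow_le_pow_left₀ (by positivity) hz3 k) hc₂.le
        linarith
      have h8 : (((Fintype.piFinset V).filter (fun x =>
          (ext t pos L F B S x : ℝ) < c₂ * (c₀ * ε / 2) ^ k * nom V m F B)).card : ℝ)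
          ≤ ε * ((Fintype.piFinset V).card : ℝ) :=
        le_trans (by exact_mod_cast Finset.card_le_card h7) h6
      exact absurd hS3 (not_lt.2 h8)
  -- the union bound
  set Ω := (Fintype.piFinset Vc).card with hΩ
  have hz5 : c₀ * ε / 2 * m ≤ z * ((V s).card : ℝ) := by
    rwa [div_le_iff₀ (hVpos s)] at hz3
  have hbz : (K + 2) * m ≤ 8 * (K + 2) / (c₀ * ε ^ 2) * z * ((ε / 4) * ((V s).card : ℝ)) := by
    have e1 : 8 * (K + 2) / (c₀ * ε ^ 2) * z * ((ε / 4) * ((V s).card : ℝ))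
        = 8 * (K + 2) / (c₀ * ε ^ 2) * (ε / 4) * (z * ((V s).card : ℝ)) := by ring
    have e2 : (K + 2) * m = 8 * (K + 2) / (c₀ * ε ^ 2) * (ε / 4) * (c₀ * ε / 2 * m) := by
      field_simp
      ring
    rw [e1, e2]
    exact mul_le_mul_of_nonneg_left hz5 (by positivity)
  have hvN : ((v : ℝ) + 1) * N ≤ m := by
    refine le_trans ?_ hKH.hm
    rw [hMR]
    have e1 : (v : ℝ) + 1 ≤ κ₁ * (h : ℝ) ^ q := by
      rw [div_le_iff₀ hκ₁] at hvh
      calc (v : ℝ) + 1 ≤ (h : ℝ) * κ₁ := hvh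
        _ = κ₁ * (h : ℝ) := mul_comm _ _
        _ ≤ κ₁ * (h : ℝ) ^ q := mul_le_mul_of_nonneg_left hhq hκ₁.le
    calc ((v : ℝ) + 1) * N ≤ κ₁ * (h : ℝ) ^ q * N := mul_le_mul_of_nonneg_right e1 hN0.le
      _ = κ₁ * ((h : ℝ) ^ q * N) := by ring
  have hcardS : (((Finset.univ.filter fun S : Fin v → Finset (Fin N) => (∀ i, S i ⊆ V i) ∧
        ∀ i ∈ B, ε * ((V i).card : ℝ) ≤ ((S i).card : ℝ)).card : ℕ) : ℝ) ≤ 2 ^ (N * v) := by
    have e1 : (Finset.univ.filter fun S : Fin v → Finset (Fin N) => (∀ i, S i ⊆ V i) ∧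
        ∀ i ∈ B, ε * ((V i).card : ℝ) ≤ ((S i).card : ℝ)).card ≤ 2 ^ (N * v) := by
      refine (Finset.card_filter_le _ _).trans ?_
      rw [Finset.card_univ, Fintype.card_fun, Fintype.card_finset, Fintype.card_fin,
        Fintype.card_fin, ← pow_mul]
    exact_mod_cast e1
  calc _ ≤ ((((Finset.univ.filter fun S : Fin v → Finset (Fin N) => (∀ i, S i ⊆ V i) ∧
        ∀ i ∈ B, ε * ((V i).card : ℝ) ≤ ((S i).card : ℝ)).biUnion A).card : ℕ) : ℝ) := by
        exact_mod_cast Finset.card_le_card hsub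
    _ ≤ ∑ S ∈ (Finset.univ.filter fun S : Fin v → Finset (Fin N) => (∀ i, S i ⊆ V i) ∧
        ∀ i ∈ B, ε * ((V i).card : ℝ) ≤ ((S i).card : ℝ)), ((A S).card : ℝ) := by
        exact_mod_cast Finset.card_biUnion_le
    _ ≤ ∑ S ∈ (Finset.univ.filter fun S : Fin v → Finset (Fin N) => (∀ i, S i ⊆ V i) ∧
        ∀ i ∈ B, ε * ((V i).card : ℝ) ≤ ((S i).card : ℝ)),
          (2 ^ N * Real.exp (-((K + 2) * m)) * (Ω : ℝ)) := by
        refine Finset.sum_le_sum fun S hS => ?_
        rw [Finset.mem_filter] at hS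
        refine (hA S hS.2.1 hS.2.2).trans (mul_le_mul_of_nonneg_right ?_ (Nat.cast_nonneg _))
        have e1 : (V s).card ≤ N := by
          have h5 := Finset.card_le_univ (V s)
          rwa [Fintype.card_fin] at h5
        exact mul_le_mul (pow_le_pow_right₀ (by norm_num) e1) (Real.exp_le_exp.2 (by linarith))
          (Real.exp_pos _).le (by positivity)
    _ ≤ 2 ^ (N * v) * (2 ^ N * Real.exp (-((K + 2) * m)) * (Ω : ℝ)) := by
        rw [Finset.sum_const, nsmul_eq_mul]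
        exact mul_le_mul_of_nonneg_right hcardS (by positivity)
    _ ≤ Real.exp (-(K * m)) * (Ω : ℝ) := by
        rw [← mul_assoc, ← mul_assoc]
        refine mul_le_mul_of_nonneg_right ?_ (Nat.cast_nonneg _)
        have e1 : (2 : ℝ) ≤ Real.exp 1 := by
          have := Real.add_one_le_exp (1 : ℝ)
          linarith
        have e2 : (2 : ℝ) ^ (N * v) * 2 ^ N ≤ Real.exp m := by
          rw [← pow_add]
          calc (2 : ℝ) ^ (N * v + N) ≤ Real.exp 1 ^ (N * v + N) :=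
                pow_le_pow_left₀ (by norm_num) e1 _
            _ = Real.exp (((N * v + N : ℕ) : ℝ)) := by
                rw [← Real.exp_nat_mul, mul_one]
            _ ≤ Real.exp m := by
                refine Real.exp_le_exp.2 ?_
                push_cast
                nlinarith [hvN]
        calc (2 : ℝ) ^ (N * v) * 2 ^ N * Real.exp (-((K + 2) * m))
            ≤ Real.exp m * Real.exp (-((K + 2) * m)) :=
              mul_le_mul_of_nonneg_right e2 (Real.exp_pos _).le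
          _ = Real.exp (m + -((K + 2) * m)) := (Real.exp_add _ _).symm
          _ ≤ Real.exp (-(K * m)) := Real.exp_le_exp.2 (by nlinarith [hm0])

end Pool.Agent.CUG
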