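import Mathlib
import Pool.Agent.CUB.Defs2

set_option autoImplicit false

/-!
Project CUG (MP_e72c4a_co): for all `Δ ≥ 3` and all `r`, graphs on `O(n)` vertices that are `r`-partition
universal for the graphs on `n` vertices of maximum degree at most `Δ` and contain no `K_{s,s'}` with
`(Δ - 1) (s + s' - 2) + 1 < s s'` (for instance `K_{2Δ-2,2Δ-2}`, `K_{Δ,Δ²-3Δ+4}`; `K_{3,4}` for `Δ = 3`,
`K_{5,6}` for `Δ = 4`).

Conventions: `P : Prm` collects numerical parameters, `kp` = number of positions (finally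
`kp = Δ + 1 = P.dd + 2`), `N = h ^ (8 * P.al)`, `M = h ^ (8 * P.ga)`, so `M / N = h ^ (8 (al - be))`
and `M / N ^ 2 = h ^ (- 8 be)`; `P.dd = Δ - 1`; `P.mu` = maximal multiplicity of a pair.
(Project CUB is the case `Δ = 3`: `al = 12`, `be = 5`, `ga = 19`, `dd = 2`, `mu = 4`, `kp = 4`.)
A configuration is a function `t : Fin M × Fin kp → Fin N` (block `i` has the cells `(i, a)`).
Types are the elements of `Fin v`, every type `d` has a position `pos d : Fin kp`; an edge is a pair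
`e : Fin v × Fin v` of types with different positions. A type assignment is `x : Fin v → Fin N`.
Definitions that do not mention positions are those of `Pool.Agent.CUB`.
-/

namespace Pool.Agent.CUG

open scoped Classical
export Pool.Agent.CUB (fib wsum w1 tch ins Simp Tch nom nrm box)

/-- Numerical parameters. -/
structure Prm where
  al : ℕ
  be : ℕ
  ga : ℕ
  mu : ℕ
  dd : ℕ
  hga : ga + be = 2 * al
  hdd : be * dd + 2 ≤ al
  hmu : 2 * al + 1 ≤ be * (mu + 1)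
  hbe : 1 ≤ be
  hd : 1 ≤ dd

/-! ### Counting structures in a configuration -/

/-- Number of blocks in `L e` that join `x e.1` and `x e.2`. -/
def mm {kp v N M : ℕ} (t : Fin M × Fin kp → Fin N) (pos : Fin v → Fin kp)
    (L : Fin v × Fin v → Finset (Fin M)) (e : Fin v × Fin v) (x : Fin v → Fin N) : ℕ :=
  ((L e).filter fun i => t (i, pos e.1) = x e.1 ∧ t (i, pos e.2) = x e.2).card

/-- Number of extensions (with multiplicity) of the root assignment `x` to the free vertices `B`,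
placed inside `S`. -/
def ext {kp v N M : ℕ} (t : Fin M × Fin kp → Fin N) (pos : Fin v → Fin kp)
    (L : Fin v × Fin v → Finset (Fin M)) (F : Finset (Fin v × Fin v)) (B : Finset (Fin v))
    (S : Fin v → Finset (Fin N)) (x : Fin v → Fin N) : ℕ :=
  ∑ y ∈ box B S x, ∏ e ∈ F, mm t pos L e y

/-- Regularity: inside all large sets `S`, all but an `ε` proportion of the root assignments have at
least `c` times the nominal number of extensions. -/
def Reg {kp v N M : ℕ} (t : Fin M × Fin kp → Fin N) (pos : Fin v → Fin kp)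
    (L : Fin v × Fin v → Finset (Fin M)) (V : Fin v → Finset (Fin N)) (m : ℝ)
    (F : Finset (Fin v × Fin v)) (B : Finset (Fin v)) (ε c : ℝ) : Prop :=
  ∀ S : Fin v → Finset (Fin N), (∀ i, S i ⊆ V i) →
    (∀ i ∈ B, ε * ((V i).card : ℝ) ≤ ((S i).card : ℝ)) →
    (((Fintype.piFinset V).filter fun x =>
        (ext t pos L F B S x : ℝ) < c * nom V m F B).card : ℝ)
      ≤ ε * ((Fintype.piFinset V).card : ℝ)

/-- Every class `L e` (`e ∈ F`) is dense on all large sub-rectangles. -/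
def Dense {kp v N M : ℕ} (t : Fin M × Fin kp → Fin N) (pos : Fin v → Fin kp)
    (L : Fin v × Fin v → Finset (Fin M)) (V : Fin v → Finset (Fin N)) (m : ℝ)
    (F : Finset (Fin v × Fin v)) (ε c₀ : ℝ) : Prop :=
  ∀ e ∈ F, ∀ S₁ S₂ : Finset (Fin N), S₁ ⊆ V e.1 → S₂ ⊆ V e.2 →
    ε * ((V e.1).card : ℝ) ≤ (S₁.card : ℝ) → ε * ((V e.2).card : ℝ) ≤ (S₂.card : ℝ) →
    c₀ * m * ((S₁.card : ℝ) / ((V e.1).card : ℝ)) * ((S₂.card : ℝ) / ((V e.2).card : ℝ))
      ≤ (((L e).filter fun i => t (i, pos e.1) ∈ S₁ ∧ t (i, pos e.2) ∈ S₂).card : ℝ)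

/-- The crude rooted count: pairs (assignment `y` equal to `ρ` off `B`, injective choice of blocks
for the edges) that are consistent. -/
noncomputable def Gcnt {kp v N M : ℕ} (t : Fin M × Fin kp → Fin N) (pos : Fin v → Fin kp)
    (F : Finset (Fin v × Fin v)) (B : Finset (Fin v)) (ρ : Fin v → Fin N) : ℕ :=
  ((Finset.univ : Finset ((Fin v → Fin N) × (↥F → Fin M))).filter fun p =>
    (∀ i, i ∉ B → p.1 i = ρ i) ∧ Function.Injective p.2 ∧
      ∀ e : ↥F, t (p.2 e, pos e.1.1) = p.1 e.1.1 ∧ t (p.2 e, pos e.1.2) = p.1 e.1.2).card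

/-- The two ends of every edge have different positions. -/
def PosD {kp v : ℕ} (pos : Fin v → Fin kp) (F : Finset (Fin v × Fin v)) : Prop :=
  ∀ e ∈ F, pos e.1 ≠ pos e.2

/-- Local sparsity. -/
def D2 {v : ℕ} (P : Prm) (F : Finset (Fin v × Fin v)) : Prop :=
  ∀ S : Finset (Fin v), 3 ≤ S.card →
    P.be * (ins F S).card + (2 * P.al + 1) ≤ P.al * S.card + P.be

/-- Rooted sparsity. -/
def RS {v : ℕ} (P : Prm) (F : Finset (Fin v × Fin v)) (B : Finset (Fin v)) : Prop :=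
  ∀ S : Finset (Fin v), S ⊆ B → S.Nonempty →
    P.be * (F.filter fun e => (e.1 ∈ B → e.1 ∈ S) ∧ (e.2 ∈ B → e.2 ∈ S)).card + 1
      ≤ P.al * S.card

/-- Crude upper bounds for all rooted counts. -/
def CR {kp v N M : ℕ} (P : Prm) (h : ℕ) (t : Fin M × Fin kp → Fin N) (pos : Fin v → Fin kp) :
    Prop :=
  ∀ (F : Finset (Fin v × Fin v)) (B : Finset (Fin v)) (ρ : Fin v → Fin N) (a : ℕ), PosD pos F →
    (∀ T : Finset (Fin v), T ⊆ B → 8 * P.al * T.card ≤ a + 8 * P.be * (tch F T).card) →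
    Gcnt t pos F B ρ ≤ h ^ (a + 1)

/-! ### Weighted and empirical sums -/

/-- Empirical sum of `g` over the blocks `J`. -/
noncomputable def emp {kp k N M : ℕ} (p : Fin k → Fin kp) (t : Fin M × Fin kp → Fin N)
    (J : Fin k → Finset (Fin M)) (g : (Fin k → Fin N) → ℝ) : ℝ :=
  ∑ lam ∈ Fintype.piFinset J, g fun j => t (lam j, p j)

/-- Empirical weight: how often `b` occurs at the `j`-th coordinate. -/
def wE {kp k N M : ℕ} (p : Fin k → Fin kp) (t : Fin M × Fin kp → Fin N) (J : Fin k → Finset (Fin M))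
    (j : Fin k) (b : Fin N) : ℝ :=
  (((J j).filter fun i => t (i, p j) = b).card : ℝ)

/-- Level weights: coordinates below `l` are summed over `V`, coordinate `l` is fixed at `y`, the
coordinates above `l` are empirical. -/
def lw {kp k N M : ℕ} (p : Fin k → Fin kp) (t : Fin M × Fin kp → Fin N) (V : Fin k → Finset (Fin N))
    (J : Fin k → Finset (Fin M)) (l : Fin k) (y : Fin N) (j : Fin k) (b : Fin N) : ℝ :=
  if j < l then (if b ∈ V j then 1 else 0) else if j = l then w1 y b else wE p t J j b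

/-- Spread condition for a family of functions, all coordinates empirical. -/
def SprA {kp k N M : ℕ} {ι : Type} (p : Fin k → Fin kp) (t : Fin M × Fin kp → Fin N)
    (J : Fin k → Finset (Fin M)) (z : ℕ) (θ : ℝ) (u : ι → (Fin k → Fin N) → ℝ) : Prop :=
  ∀ x : ι, ∀ j : Fin k, ∀ a ∈ J j,
    wsum (Function.update (wE p t J) j (w1 (t (a, p j)))) (u x) * wsum (wE p t J) (u x)
      ≤ θ * ((z : ℝ) ^ k) ^ 2

/-- Spread condition at all levels. -/
def SprC {kp k N M : ℕ} (p : Fin k → Fin kp) (t : Fin M × Fin kp → Fin N)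
    (V : Fin k → Finset (Fin N))
    (J : Fin k → Finset (Fin M)) (z : ℕ) (θ : ℝ) (g : (Fin k → Fin N) → ℝ) : Prop :=
  ∀ l : Fin k, ∀ y ∈ V l, ∀ j : Fin k, l < j → ∀ a ∈ J j,
    wsum (Function.update (lw p t V J l y) j (w1 (t (a, p j)))) g * wsum (lw p t V J l y) g
      ≤ θ * ((z : ℝ) ^ (k - 1 - (l : ℕ)) *
          ∏ i ∈ Finset.univ.filter (fun i : Fin k => i < l), ((V i).card : ℝ)) ^ 2

/-! ### The star at a root -/

/-- Blocks of `D j` at `s'` whose `j`-th cell lies in `S j`. -/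
def JS {kp k N M : ℕ} (ps : Fin kp) (p : Fin k → Fin kp) (t : Fin M × Fin kp → Fin N)
    (D : Fin k → Finset (Fin M)) (S : Fin k → Finset (Fin N)) (s' : Fin N) :
    Fin k → Finset (Fin M) :=
  fun j => (D j).filter fun i => t (i, ps) = s' ∧ t (i, p j) ∈ S j

export Pool.Agent.CUB (Star offs)

/-- The number of extensions with prescribed values at the vertices `nb j`, normalised by `E`. -/
noncomputable def uu {kp v N M k : ℕ} (t : Fin M × Fin kp → Fin N) (pos : Fin v → Fin kp)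
    (L : Fin v × Fin v → Finset (Fin M)) (F : Finset (Fin v × Fin v)) (B : Finset (Fin v))
    (S : Fin v → Finset (Fin N)) (nb : Fin k → Fin v) (E : ℝ) (x : Fin v → Fin N)
    (y' : Fin k → Fin N) : ℝ :=
  ((∑ y ∈ (box B S x).filter (fun y => ∀ j, y (nb j) = y' j), ∏ e ∈ F, mm t pos L e y : ℕ) : ℝ) / E

/-- Standing hypotheses for a fixed family of classes `L`. -/
structure KHyp {kp v N M : ℕ} (P : Prm) (h : ℕ) (pos : Fin v → Fin kp) (F : Finset (Fin v × Fin v))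
    (κ₁ : ℝ) (V : Fin v → Finset (Fin N)) (m : ℝ) (L : Fin v × Fin v → Finset (Fin M))
    (Vc : Fin M × Fin kp → Finset (Fin N)) : Prop where
  hN : N = h ^ (8 * P.al)
  hM : M = h ^ (8 * P.ga)
  hV : ∀ i, κ₁ * (N : ℝ) ≤ ((V i).card : ℝ)
  hm : κ₁ * (M : ℝ) ≤ m
  hmM : m ≤ (M : ℝ)
  hdis : ∀ e ∈ F, ∀ e' ∈ F, e ≠ e' → Disjoint (L e) (L e')
  hVc : ∀ e ∈ F, ∀ i ∈ L e, Vc (i, pos e.1) = V e.1 ∧ Vc (i, pos e.2) = V e.2

/-! ### Global properties of a configuration -/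

/-- Two vertices (at different positions) lie in at most `mu` common blocks. -/
def MUL {kp N M : ℕ} (mu : ℕ) (t : Fin M × Fin kp → Fin N) : Prop :=
  ∀ a b : Fin kp, a ≠ b → ∀ x y : Fin N,
    ((Finset.univ : Finset (Fin M)).filter fun i => t (i, a) = x ∧ t (i, b) = y).card ≤ mu

/-- Upper uniformity on large boxes. -/
def UU {kp N M : ℕ} (κ₁ : ℝ) (t : Fin M × Fin kp → Fin N) : Prop :=
  ∀ (X : Fin kp → Finset (Fin N)), (∀ a, κ₁ * (N : ℝ) ≤ ((X a).card : ℝ)) →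
    (((Finset.univ : Finset (Fin M)).filter fun i => ∀ a, t (i, a) ∈ X a).card : ℝ)
      ≤ 8 * (M : ℝ) * ∏ a, (((X a).card : ℝ) / (N : ℝ))

/-- Total counts of all patterns. -/
def TOT {kp v N M : ℕ} (P : Prm) (h : ℕ) (K₁ : ℝ) (t : Fin M × Fin kp → Fin N)
    (pos : Fin v → Fin kp) : Prop :=
  ∀ (F : Finset (Fin v × Fin v)) (ρ : Fin v → Fin N), PosD pos F →
    (Gcnt t pos F Finset.univ ρ : ℝ)
      ≤ K₁ * ((h : ℝ) ^ (8 * P.al * v) / (h : ℝ) ^ (8 * P.be * F.card))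

/-- `x` (of type `i`) lies in few copies of every pattern. -/
def VX {kp v N M : ℕ} (P : Prm) (h : ℕ) (K₂ : ℝ) (t : Fin M × Fin kp → Fin N)
    (pos : Fin v → Fin kp) (i : Fin v) (x : Fin N) : Prop :=
  ∀ F : Finset (Fin v × Fin v), PosD pos F → ∀ ρ : Fin v → Fin N, ρ i = x →
    (Gcnt t pos F (Finset.univ.erase i) ρ : ℝ)
      ≤ K₂ * ((h : ℝ) ^ (8 * P.al * v) / ((h : ℝ) ^ (8 * P.al) * (h : ℝ) ^ (8 * P.be * F.card)))

/-- Number of blocks of `L (d, d')` through `a` and `b`. -/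
def pmul {kp v N M : ℕ} (t : Fin M × Fin kp → Fin N) (pos : Fin v → Fin kp)
    (L : Fin v × Fin v → Finset (Fin M)) (d d' : Fin v) (a b : Fin N) : ℕ :=
  ((L (d, d')).filter fun i => t (i, pos d) = a ∧ t (i, pos d') = b).card

/-- The potential functional of a pattern `l` and a weight `Y`, given the values of `x` on `S`. -/
noncomputable def Phi {kp v N M : ℕ} (t : Fin M × Fin kp → Fin N) (pos : Fin v → Fin kp)
    (L : Fin v × Fin v → Finset (Fin M)) (V : Fin v → Finset (Fin N)) (m : ℝ)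
    (l : Finset (Fin v × Fin v)) (Y : (Fin v → Fin N) → ℝ) (S : Finset (Fin v))
    (x : Fin v → Fin N) : ℝ :=
  (∑ α ∈ box Sᶜ V x, Y α * ∏ e ∈ l.filter (fun e => ¬ (e.1 ∈ S ∧ e.2 ∈ S)),
      ((mm t pos L e α : ℝ) * (((V e.1).card : ℝ) * ((V e.2).card : ℝ) / m)))
    / ∏ i ∈ Sᶜ, ((V i).card : ℝ)

/-! ### Classes cut out by boxes -/

/-- Blocks of `L0` whose cells at `pos e.1`, `pos e.2` lie in `V e.1`, `V e.2` and whose other cells
lie in `Vg`. -/
def cls {kp v N M : ℕ} (t : Fin M × Fin kp → Fin N) (pos : Fin v → Fin kp)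
    (V : Fin v → Finset (Fin N)) (Vg : Fin kp → Finset (Fin N)) (L0 : Finset (Fin M))
    (e : Fin v × Fin v) : Finset (Fin M) :=
  L0.filter fun i => ∀ a : Fin kp,
    t (i, a) ∈ (if a = pos e.1 then V e.1 else if a = pos e.2 then V e.2 else Vg a)

/-- The family of classes cut out by `V`, `Vg` from `L0`. -/
def clsL {kp v N M : ℕ} (t : Fin M × Fin kp → Fin N) (pos : Fin v → Fin kp)
    (V : Fin v → Finset (Fin N)) (Vg : Fin kp → Finset (Fin N)) (L0 : Finset (Fin M)) :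
    Fin v × Fin v → Finset (Fin M) :=
  fun e => if pos e.1 = pos e.2 then ∅ else cls t pos V Vg L0 e

/-- Admissible rooted pattern. -/
structure Adm {kp v : ℕ} (P : Prm) (pos : Fin v → Fin kp) (F : Finset (Fin v × Fin v))
    (B : Finset (Fin v)) : Prop where
  posd : PosD pos F
  simp : Simp F
  tch : Tch F B
  d2 : D2 P F
  rs : RS P F B

/-- Admissible pattern between roots: sparse, and after fixing the two ends of an edge the other
vertices can be peeled off with at most `dd = Δ - 1` neighbours each. -/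
structure EOK {kp v : ℕ} (P : Prm) (pos : Fin v → Fin kp) (E : Finset (Fin v × Fin v)) : Prop where
  posd : PosD pos E
  simp : Simp E
  sparse : ∀ R : Finset (Fin v), R.Nonempty → P.be * (ins E R).card + P.al ≤ P.al * R.card
  peel : ∀ e ∈ E, ∀ R : Finset (Fin v), R.Nonempty → e.1 ∉ R → e.2 ∉ R → ∃ i ∈ R,
    (Finset.univ.filter fun u : Fin v => (u ∈ R ∨ u = e.1 ∨ u = e.2) ∧
      ((u, i) ∈ E ∨ (i, u) ∈ E)).card ≤ P.dd

/-- The parts `V d`, `Vg a` have the right sizes and are disjoint. -/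
structure Parts {kp v N : ℕ} (pos : Fin v → Fin kp) (κ₁ : ℝ) (V : Fin v → Finset (Fin N))
    (Vg : Fin kp → Finset (Fin N)) (nn : Fin kp → ℕ) : Prop where
  cV : ∀ i, (V i).card = nn (pos i)
  cg : ∀ a, (Vg a).card = nn a
  big : ∀ a, κ₁ * (N : ℝ) ≤ (nn a : ℝ)
  disV : ∀ i j, i ≠ j → pos i = pos j → Disjoint (V i) (V j)
  disg : ∀ i, Disjoint (V i) (Vg (pos i))

/-- The nominal class size. -/
noncomputable def msz {kp : ℕ} (N M : ℕ) (nn : Fin kp → ℕ) : ℝ :=
  (M : ℝ) * ∏ a, ((nn a : ℝ) / (N : ℝ))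

/-- All pairs of types with different positions. -/
def allE {kp v : ℕ} (pos : Fin v → Fin kp) : Finset (Fin v × Fin v) :=
  Finset.univ.filter fun e => pos e.1 ≠ pos e.2

/-- Pattern goodness: for all parts and all `L0` that are dense, the root assignments with few
extensions carry little weight of every admissible pattern between roots. -/
def PG {kp v N M : ℕ} (P : Prm) (t : Fin M × Fin kp → Fin N) (pos : Fin v → Fin kp)
    (c₀ εin c ε₄ κ₁ : ℝ) : Prop :=
  ∀ (V : Fin v → Finset (Fin N)) (Vg : Fin kp → Finset (Fin N)) (nn : Fin kp → ℕ)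
    (L0 : Finset (Fin M)), Parts pos κ₁ V Vg nn →
    Dense t pos (clsL t pos V Vg L0) V (msz N M nn) (allE pos) εin c₀ →
    ∀ (F : Finset (Fin v × Fin v)) (B : Finset (Fin v)) (E : Finset (Fin v × Fin v))
      (S : Fin v → Finset (Fin N)), Adm P pos F B → EOK P pos E →
      (∀ e ∈ E, e.1 ∉ B ∧ e.2 ∉ B) → (∀ i, S i ⊆ V i) →
      (∀ i ∈ B, (V i).card ≤ 2 * (S i).card) →
      ((∑ x ∈ (Fintype.piFinset V).filter (fun x =>
          (ext t pos (clsL t pos V Vg L0) F B S x : ℝ) < c * nom V (msz N M nn) F B),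
          ∏ e ∈ E, mm t pos (clsL t pos V Vg L0) e x : ℕ) : ℝ) ≤ ε₄ * nrm V (msz N M nn) E

/-! ### Heavy stars -/

/-- The heaviness constant. -/
noncomputable def Chv (P : Prm) : ℝ := 8 * (P.mu : ℝ) ^ P.dd

/-- The star at `i` with leaves (neighbours) `Q` is heavy at `x`: too many common neighbours. -/
def Heavy {kp v N M : ℕ} (P : Prm) (t : Fin M × Fin kp → Fin N) (pos : Fin v → Fin kp)
    (L : Fin v × Fin v → Finset (Fin M)) (V : Fin v → Finset (Fin N)) (m : ℝ) (i : Fin v)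
    (Q : Finset (Fin v)) (x : Fin v → Fin N) : Prop :=
  Chv P * (((V i).card : ℝ) * ∏ u ∈ Q, (m / (((V u).card : ℝ) * ((V i).card : ℝ))))
    < ((∑ y ∈ V i, ∏ u ∈ Q, pmul t pos L u i (x u) y : ℕ) : ℝ)

/-- Heavy control: there is no large disjoint family of heavy tuples, for any parts. -/
def HC {kp v N M : ℕ} (P : Prm) (h : ℕ) (κ₁ : ℝ) (t : Fin M × Fin kp → Fin N)
    (pos : Fin v → Fin kp) : Prop :=
  ∀ (V : Fin v → Finset (Fin N)) (Vg : Fin kp → Finset (Fin N)) (nn : Fin kp → ℕ),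
    Parts pos κ₁ V Vg nn →
    ∀ (i : Fin v) (Q : Finset (Fin v)), Q.card ≤ P.dd → (∀ u ∈ Q, pos u ≠ pos i) →
    ∀ D : Finset (Fin v → Fin N), (∀ x ∈ D, ∀ u ∈ Q, x u ∈ V u) →
      (∀ x ∈ D, ∀ x' ∈ D, x ≠ x' → ∀ u ∈ Q, x u ≠ x' u) →
      (∀ x ∈ D, Heavy P t pos (clsL t pos V Vg Finset.univ) V (msz N M nn) i Q x) →
      h ^ 15 * D.card ≤ N

/-- Heavy stars of `E` carry little weight; the classes are not too large. -/
def HW {kp v N M : ℕ} (P : Prm) (h : ℕ) (t : Fin M × Fin kp → Fin N) (pos : Fin v → Fin kp)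
    (L : Fin v × Fin v → Finset (Fin M)) (V : Fin v → Finset (Fin N)) (m : ℝ)
    (E : Finset (Fin v × Fin v)) : Prop :=
  (∀ e ∈ E, ((L e).card : ℝ) ≤ 8 * m) ∧
  ∀ (i : Fin v) (Q : Finset (Fin v)), Q.card ≤ P.dd → (∀ u ∈ Q, (u, i) ∈ E ∨ (i, u) ∈ E) →
    ((∑ x ∈ (Fintype.piFinset V).filter (fun x => Heavy P t pos L V m i Q x),
        ∏ e ∈ E, mm t pos L e x : ℕ) : ℝ) ≤ 1 / (h : ℝ) * nrm V m E

/-! ### Sequential embedding -/

/-- Edges of the vertex set `A` (an edge from every parent `i ∈ par j` to `j ∈ A`). -/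
def edg {v n : ℕ} (ty : Fin n → Fin v) (par : Fin n → Finset (Fin n)) (A : Finset (Fin n)) :
    Finset (Fin v × Fin v) :=
  A.biUnion fun j => (par j).image fun i => (ty i, ty j)

export Pool.Agent.CUB (asg)

/-- The nominal number of candidates for the vertex `j`. -/
noncomputable def Rn {v N n : ℕ} (V : Fin v → Finset (Fin N)) (m : ℝ) (ty : Fin n → Fin v)
    (par : Fin n → Finset (Fin n)) (j : Fin n) : ℝ :=
  ((V (ty j)).card : ℝ) *
    ∏ i ∈ par j, (m / (((V (ty i)).card : ℝ) * ((V (ty j)).card : ℝ)))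

/-- Invariant of the sequential embedding after the first `j` vertices. -/
def WInv {kp v N M n : ℕ} {β μ ι : Type} [Fintype ι] (t : Fin M × Fin kp → Fin N)
    (pos : Fin v → Fin kp) (L : Fin v × Fin v → Finset (Fin M)) (V : Fin v → Finset (Fin N))
    (ty : Fin n → Fin v) (par : Fin n → Finset (Fin n)) (x₀ : Fin v → Fin N)
    (Ab : β → Finset (Fin n)) (Yb : β → (Fin v → Fin N) → ℝ)
    (A : μ → ι → Finset (Fin n)) (Y : μ → ι → (Fin v → Fin N) → ℝ) (μ₀ : ℝ) (j : ℕ)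
    (φ : Fin n → Fin N) : Prop :=
  (∀ i : Fin n, (i : ℕ) < j → φ i ∈ V (ty i)) ∧
  (∀ i : Fin n, (i : ℕ) < j → ∀ u ∈ par i, 0 < pmul t pos L (ty u) (ty i) (φ u) (φ i)) ∧
  (∀ i i' : Fin n, (i : ℕ) < j → (i' : ℕ) < j → i ≠ i' → ty i = ty i' → φ i ≠ φ i') ∧
  (∀ b : β, (∀ i ∈ Ab b, (i : ℕ) < j) → Yb b (asg ty (Ab b) φ x₀) < 1) ∧
  (∀ k : μ, ∑ i ∈ Finset.univ.filter (fun i : ι => ∀ a ∈ A k i, (a : ℕ) < j),
    Y k i (asg ty (A k i) φ x₀) ≤ 3 * μ₀)

/-- The star of the vertex `j`. -/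
def star {v n : ℕ} (ty : Fin n → Fin v) (par : Fin n → Finset (Fin n)) (j : Fin n) :
    Finset (Fin v × Fin v) :=
  (par j).image fun i => (ty i, ty j)

/-- Embedding instance: `n` vertices with types and parent sets, closures `cl j` (closed under
parents, containing `j`), stages `st` of types; `q` pieces with patterns `(F i, B i)` and root
vertices `A i` (closed under parents). `J` bounds all the local quantities, `Ds` the stages. -/
structure Inst {kp v n q : ℕ} (P : Prm) (J Ds : ℕ) (pos : Fin v → Fin kp) (st : Fin v → ℕ)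
    (ty : Fin n → Fin v) (par : Fin n → Finset (Fin n)) (cl : Fin n → Finset (Fin n))
    (F : Fin q → Finset (Fin v × Fin v)) (B : Fin q → Finset (Fin v))
    (A : Fin q → Finset (Fin n)) : Prop where
  st_lt : ∀ j, st (ty j) < Ds
  par_lt : ∀ j, ∀ i ∈ par j, i < j
  par_pos : ∀ j, ∀ i ∈ par j, pos (ty i) ≠ pos (ty j)
  par_st : ∀ j, ∀ i ∈ par j, st (ty i) < st (ty j)
  par_card : ∀ j, (par j).card ≤ P.dd
  cl_self : ∀ j, j ∈ cl j
  cl_par : ∀ j, ∀ i ∈ cl j, par i ⊆ cl j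
  cl_le : ∀ j, ∀ i ∈ cl j, i ≤ j
  cl_st : ∀ j, ∀ i ∈ cl j, i ≠ j → st (ty i) < st (ty j)
  cl_inj : ∀ j, Set.InjOn ty (cl j : Set (Fin n))
  cl_card : ∀ j, (cl j).card ≤ J
  cl_cnt : ∀ i, (Finset.univ.filter fun j => i ∈ cl j).card ≤ J
  cl_disj : ∀ j j', j ≠ j' → ty j = ty j' → Disjoint (cl j) (cl j')
  cl_ok : ∀ j, EOK P pos (edg ty par (cl j))
  star_adm : ∀ j, Adm P pos (star ty par j) {ty j}
  adm : ∀ i, Adm P pos (F i) (B i)
  B_ne : ∀ i, (B i).Nonempty
  BA : ∀ i, ∀ j : Fin n, ty j ∉ B i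
  FA : ∀ i, ∀ e ∈ F i, (e.1 ∈ B i ∨ ∃ j ∈ A i, ty j = e.1) ∧ (e.2 ∈ B i ∨ ∃ j ∈ A i, ty j = e.2)
  A_par : ∀ i, ∀ j ∈ A i, par j ⊆ A i
  A_inj : ∀ i, Set.InjOn ty (A i : Set (Fin n))
  A_card : ∀ i, (A i).card ≤ J
  A_cnt : ∀ j, (Finset.univ.filter fun i => j ∈ A i).card ≤ J
  A_disj : ∀ i i', i ≠ i' → (∃ d, d ∈ B i ∧ d ∈ B i') → Disjoint (A i) (A i')
  A_ok : ∀ i, EOK P pos (edg ty par (A i))

/-- The instance is realised: `φ` embeds the vertices, `y i` is a copy of the `i`-th piece. -/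
structure Realised {kp v N M n q : ℕ} (t : Fin M × Fin kp → Fin N) (pos : Fin v → Fin kp)
    (L : Fin v × Fin v → Finset (Fin M)) (V : Fin v → Finset (Fin N)) (ty : Fin n → Fin v)
    (par : Fin n → Finset (Fin n)) (F : Fin q → Finset (Fin v × Fin v))
    (B : Fin q → Finset (Fin v))
    (A : Fin q → Finset (Fin n)) (φ : Fin n → Fin N) (y : Fin q → Fin v → Fin N) : Prop where
  mem : ∀ j, φ j ∈ V (ty j)
  edge : ∀ j, ∀ i ∈ par j, 0 < pmul t pos L (ty i) (ty j) (φ i) (φ j)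
  inj : ∀ j j', j ≠ j' → ty j = ty j' → φ j ≠ φ j'
  ymem : ∀ i, ∀ d ∈ B i, y i d ∈ V d
  yA : ∀ i, ∀ j ∈ A i, y i (ty j) = φ j
  yF : ∀ i, ∀ e ∈ F i, 0 < mm t pos L e (y i)
  yinj : ∀ i i', i ≠ i' → ∀ d, d ∈ B i → d ∈ B i' → y i d ≠ y i' d

/-! ### Structure of graphs, host graphs -/

export Pool.Agent.CUB (patF hostG)

/-- Number of ordered pairs of adjacent vertices inside `S` (twice the number of edges). -/
noncomputable def inn {X : Type} [Fintype X] (H : SimpleGraph X) (S : Finset X) : ℕ :=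
  (Finset.univ.filter fun p : X × X => p.1 ∈ S ∧ p.2 ∈ S ∧ H.Adj p.1 p.2).card

/-- Number of edges from `S` to the complement of `Q`. -/
noncomputable def out {X : Type} [Fintype X] (H : SimpleGraph X) (Q S : Finset X) : ℕ :=
  (Finset.univ.filter fun p : X × X => p.1 ∈ S ∧ p.2 ∉ Q ∧ H.Adj p.1 p.2).card

/-- No complete graph on `k` vertices. -/
def KFree {X : Type} (k : ℕ) (H : SimpleGraph X) : Prop :=
  ∀ f : Fin k → X, Function.Injective f → ¬ ∀ i j, i ≠ j → H.Adj (f i) (f j)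

/-- `Q` is a good piece: rooted sparsity of all its subsets. -/
def Good {X : Type} [Fintype X] (P : Prm) (H : SimpleGraph X) (Q : Finset X) : Prop :=
  ∀ S : Finset X, S ⊆ Q → S.Nonempty → P.be * (inn H S + 2 * out H Q S) + 2 ≤ 2 * P.al * S.card

/-- Structure of a graph `H`: `U` is the union of the pieces `Q i` (good, connected, at most `tp`
vertices, no edges between different pieces); the other vertices have stages such that adjacent ones
have different stages and every vertex has at most `Δ - 1` neighbours of smaller stage. -/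
structure Decomp {X : Type} [Fintype X] (P : Prm) (H : SimpleGraph X) (tp Ds : ℕ) (U : Finset X)
    (stg : X → ℕ) (q : ℕ) (Q : Fin q → Finset X) : Prop where
  sub : ∀ i, Q i ⊆ U
  cov : ∀ u ∈ U, ∃ i, u ∈ Q i
  dis : ∀ i j, i ≠ j → Disjoint (Q i) (Q j)
  ne : ∀ i, (Q i).Nonempty
  hi : ∀ i, (Q i).card ≤ tp
  conn : ∀ i, (H.induce (Q i : Set X)).Connected
  good : ∀ i, Good P H (Q i)
  adjU : ∀ u ∈ U, ∀ w ∈ U, H.Adj u w → ∃ i, u ∈ Q i ∧ w ∈ Q i
  stl : ∀ w, stg w < Ds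
  stn : ∀ w, w ∉ U → ∀ w', w' ∉ U → H.Adj w w' → stg w ≠ stg w'
  par : ∀ w, w ∉ U →
    (Finset.univ.filter fun w' : X => w' ∉ U ∧ H.Adj w w' ∧ stg w' < stg w).card ≤ P.dd
  peel : ∀ a b, a ∉ U → b ∉ U → H.Adj a b → ∀ R : Finset X, R.Nonempty → (∀ x ∈ R, x ∉ U) →
    a ∉ R → b ∉ R → ∃ i ∈ R,
      (Finset.univ.filter fun u : X => (u ∈ R ∨ u = a ∨ u = b) ∧ H.Adj u i).card ≤ P.dd

/-- All graphs on `n` vertices of maximum degree at most `Δ` embed into the `kp`-partite graph of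
the blocks in `L0`. -/
def UnivP {kp N M : ℕ} (Δ : ℕ) (t : Fin M × Fin kp → Fin N) (L0 : Finset (Fin M)) (n : ℕ) : Prop :=
  ∀ H : SimpleGraph (Fin n), (∀ x, (H.neighborSet x).ncard ≤ Δ) →
    ∃ φ : Fin n → Fin kp × Fin N, Function.Injective φ ∧ ∀ u w, H.Adj u w →
      (φ u).1 ≠ (φ w).1 ∧ ∃ i ∈ L0, t (i, (φ u).1) = (φ u).2 ∧ t (i, (φ w).1) = (φ w).2

/-- `K_{s,s'}`-free, in elementary form. -/
def KSFree {X : Type} (s s' : ℕ) (G : SimpleGraph X) : Prop :=
  ∀ (a : Fin s → X) (a' : Fin s' → X), Function.Injective a → Function.Injective a' →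
    ¬ ∀ i j, G.Adj (a i) (a' j)

/-- A `K_{s,s'}` of the host together with the blocks that cover its edges. -/
def CrossK {b N M s s' : ℕ} (B : SimpleGraph (Fin b)) (f : Fin M × Fin b → Fin N)
    (c : (Fin s → Fin b × Fin N) × (Fin s' → Fin b × Fin N) × (Fin s → Fin s' → Fin M)) : Prop :=
  Function.Injective c.1 ∧ Function.Injective c.2.1 ∧ (∀ i j, B.Adj (c.1 i).1 (c.2.1 j).1) ∧
    (∀ i j, f (c.2.2 i j, (c.1 i).1) = (c.1 i).2 ∧ f (c.2.2 i j, (c.2.1 j).1) = (c.2.1 j).2)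

end Pool.Agent.CUG
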