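import Pool.Agent.CUG.LA
import Pool.Agent.CUB.PRI
import Pool.Agent.CUG.Defs

set_option autoImplicit false

/-!
# CUB.ADDX

Proof. Let `ε', c₂, θ₁, z₀` be from `la k ρ b (ε/2)`. Fix a choice function `sel` that picks from a
finset of size `≥ z` a subset of size `z`. For `t` in the event let `T(t)` be the set of `s' ∈ Vs` with
`∀ j, z ≤ |JS ps p t D S s' j|` and `(ε/2)|ι| < #{x : emp (JS s') (u t x) < c₂ z^k}`; by the last two
conjuncts `|T(t)| ≥ (ε/4)|Vs|`. For `s' ∈ T(t)` put `J'(s') = sel (JS s')` (coordinatewise); by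
`emp_mono` `(ε/2)|ι| < #{x : emp J'(s') (u t x) < c₂ z^k}`.
Condition on all cells except `C = {(i, p j) : i ∈ D j}` and on the membership pattern
`{(i, p j) ∈ C : t (i, p j) ∈ S j}`: i.e. partition `piFinset Vc` into the boxes `piFinset Vc'` with
`Vc' c = {t c}` off `C` and `Vc' (i, p j) = S j` or `V j \ S j` on `C`. On such a box `u t`, all the sets
`J t s' j = {i ∈ D j : t (i, ps) = s'}`, `JS ...` and `J'(s')` are constant (note `p j ≠ ps`, `D i`
disjoint), and for fixed `s'` the event `E(s')` = [`SprA ∧ SprC` for `J'(s')` and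
`(ε/2)|ι| < #{x : emp J'(s') (u t x) < c₂ z^k}`] depends only on the cells `(i, p j)`, `i ∈ J'(s') j`;
these cell sets are disjoint for different `s'`. By `la` (with `Vst = S`, `Vc'`), each has
probability `≤ exp(-bz)` on the box. So by `pri`, for a fixed `T ⊆ Vs` with `|T| ≥ (ε/4)|Vs|`, all
`E(s')`, `s' ∈ T`, hold with probability `≤ exp(-bz|T|)`; sum over the `≤ 2^{|Vs|}` sets `T` and over
the boxes. (The first conjunct of the event is constant on the box; if it fails there is nothing to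
prove there.)
-/

namespace Pool.Agent.CUG

open Pool.Agent.CUB

variable {kp : ℕ}

open scoped Classical

theorem addx_card_le {α : Type} (s : Finset α) (P Q : α → Prop) {i1 : DecidablePred P}
    {i2 : DecidablePred Q} (h : ∀ a ∈ s, P a → Q a) :
    (@Finset.filter _ P i1 s).card ≤ (@Finset.filter _ Q i2 s).card :=
  Finset.card_le_card fun a ha =>
    (@Finset.mem_filter _ Q i2 s a).mpr ⟨((@Finset.mem_filter _ P i1 s a).mp ha).1,
      h a ((@Finset.mem_filter _ P i1 s a).mp ha).1 ((@Finset.mem_filter _ P i1 s a).mp ha).2⟩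

theorem addx_part {α : Type} (X : Finset α) (box : α → Finset α) (P : α → Prop)
    {inst : DecidablePred P} (q : ℝ)
    (h1 : ∀ t ∈ X, t ∈ box t) (h2 : ∀ t ∈ X, box t ⊆ X)
    (h3 : ∀ t ∈ X, ∀ t' ∈ box t, box t' = box t)
    (h : ∀ t ∈ X, (((box t).filter P).card : ℝ) ≤ q * ((box t).card : ℝ)) :
    ((X.filter P).card : ℝ) ≤ q * (X.card : ℝ) := by
  have e1 : ∀ t ∈ X, (X.filter fun t' => box t' = box t) = box t := by
    intro t ht
    ext t'
    rw [Finset.mem_filter]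
    constructor
    · rintro ⟨ht', he⟩
      rw [← he]
      exact h1 t' ht'
    · intro ht'
      exact ⟨h2 t ht ht', h3 t ht t' ht'⟩
  have c1 : (X.filter P).card =
      ∑ B ∈ X.image box, ((X.filter P).filter fun t => box t = B).card :=
    Finset.card_eq_sum_card_fiberwise fun t ht =>
      Finset.mem_image_of_mem box (Finset.mem_filter.mp ht).1
  have c2 : X.card = ∑ B ∈ X.image box, (X.filter fun t => box t = B).card :=
    Finset.card_eq_sum_card_fiberwise fun t ht => Finset.mem_image_of_mem box ht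
  rw [c1, c2]
  push_cast
  rw [Finset.mul_sum]
  refine Finset.sum_le_sum fun B hB => ?_
  obtain ⟨t, ht, rfl⟩ := Finset.mem_image.mp hB
  rw [Finset.filter_comm, e1 t ht]
  exact h t ht

theorem addx_union {κ : Type} [Fintype κ] [DecidableEq κ] {N : ℕ} (W : κ → Finset (Fin N))
    (G : Finset (Fin N)) (nv : ℕ) (hG : G.card ≤ nv) (C : Fin N → Finset κ)
    (hC : ∀ i ∈ G, ∀ j ∈ G, i ≠ j → Disjoint (C i) (C j)) (E : Fin N → (κ → Fin N) → Prop)
    (hdep : ∀ i ∈ G, ∀ t t' : κ → Fin N, (∀ c ∈ C i, t c = t' c) → E i t → E i t')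
    (x y : ℝ) (hx : 0 ≤ x)
    (hE : ∀ i ∈ G, (((Fintype.piFinset W).filter (E i)).card : ℝ) ≤
      Real.exp (-x) * ((Fintype.piFinset W).card : ℝ))
    (P : (κ → Fin N) → Prop) {inst : DecidablePred P}
    (hP : ∀ t ∈ Fintype.piFinset W, P t →
      ∃ T : Finset (Fin N), T ⊆ G ∧ y ≤ (T.card : ℝ) ∧ ∀ i ∈ T, E i t) :
    (((Fintype.piFinset W).filter P).card : ℝ) ≤
      2 ^ nv * Real.exp (-(x * y)) * ((Fintype.piFinset W).card : ℝ) := by
  have hsub : (Fintype.piFinset W).filter P ⊆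
      (G.powerset.filter fun T => y ≤ (T.card : ℝ)).biUnion fun T =>
        (Fintype.piFinset W).filter fun t => ∀ i ∈ T, E i t := by
    intro t ht
    rw [Finset.mem_filter] at ht
    obtain ⟨T, hT1, hT2, hT3⟩ := hP t ht.1 ht.2
    rw [Finset.mem_biUnion]
    refine ⟨T, ?_, ?_⟩
    · rw [Finset.mem_filter, Finset.mem_powerset]
      exact ⟨hT1, hT2⟩
    · rw [Finset.mem_filter]
      exact ⟨ht.1, hT3⟩
  have h1 : ((Fintype.piFinset W).filter P).card ≤
      ∑ T ∈ G.powerset.filter fun T => y ≤ (T.card : ℝ),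
        ((Fintype.piFinset W).filter fun t => ∀ i ∈ T, E i t).card :=
    (Finset.card_le_card hsub).trans Finset.card_biUnion_le
  have h2 : (((Fintype.piFinset W).filter P).card : ℝ) ≤
      ∑ T ∈ G.powerset.filter fun T => y ≤ (T.card : ℝ),
        (((Fintype.piFinset W).filter fun t => ∀ i ∈ T, E i t).card : ℝ) := by
    exact_mod_cast h1
  refine h2.trans ?_
  have h3 : ∀ T ∈ G.powerset.filter fun T => y ≤ (T.card : ℝ),
      (((Fintype.piFinset W).filter fun t => ∀ i ∈ T, E i t).card : ℝ) ≤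
        Real.exp (-(x * y)) * ((Fintype.piFinset W).card : ℝ) := by
    intro T hT
    rw [Finset.mem_filter, Finset.mem_powerset] at hT
    have h4 := pri W T C (fun i hi j hj => hC i (hT.1 hi) j (hT.1 hj)) E
      (fun i hi t _ t' _ => hdep i (hT.1 hi) t t') (Real.exp (-x)) (Real.exp_pos _).le
      (fun i hi => hE i (hT.1 hi))
    refine le_trans ?_ (h4.trans (mul_le_mul_of_nonneg_right ?_ (Nat.cast_nonneg _)))
    · rw [Nat.cast_le]
      exact addx_card_le _ _ _ fun _ _ h => h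
    rw [← Real.exp_nat_mul]
    refine Real.exp_le_exp.mpr ?_
    have h5 : x * y ≤ x * (T.card : ℝ) := mul_le_mul_of_nonneg_left hT.2 hx
    linarith
  refine (Finset.sum_le_card_nsmul _ _ _ h3).trans ?_
  rw [nsmul_eq_mul, mul_assoc]
  refine mul_le_mul_of_nonneg_right ?_ (by positivity)
  have h5 : (G.powerset.filter fun T => y ≤ (T.card : ℝ)).card ≤ 2 ^ nv := by
    refine (Finset.card_filter_le _ _).trans ?_
    rw [Finset.card_powerset]
    exact Nat.pow_le_pow_right (by norm_num) hG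
  exact_mod_cast h5

/-- The box of `t`: off `C` frozen, on `C` the membership in `Sc` is frozen. -/
noncomputable def addxW {κ : Type} [DecidableEq κ] {N : ℕ} (Vc : κ → Finset (Fin N))
    (C : Finset κ) (Sc : κ → Finset (Fin N)) (t : κ → Fin N) (c : κ) : Finset (Fin N) :=
  if c ∈ C then (if t c ∈ Sc c then Sc c else Vc c \ Sc c) else {t c}

theorem addxW_self {κ : Type} [Fintype κ] [DecidableEq κ] {N : ℕ} (Vc : κ → Finset (Fin N))
    (C : Finset κ) (Sc : κ → Finset (Fin N)) (t : κ → Fin N) (ht : t ∈ Fintype.piFinset Vc) :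
    t ∈ Fintype.piFinset (addxW Vc C Sc t) := by
  rw [Fintype.mem_piFinset] at ht ⊢
  intro c
  unfold addxW
  by_cases hc : c ∈ C
  · rw [if_pos hc]
    by_cases h : t c ∈ Sc c
    · rw [if_pos h]
      exact h
    · rw [if_neg h, Finset.mem_sdiff]
      exact ⟨ht c, h⟩
  · rw [if_neg hc]
    exact Finset.mem_singleton_self _

theorem addxW_sub {κ : Type} [Fintype κ] [DecidableEq κ] {N : ℕ} (Vc : κ → Finset (Fin N))
    (C : Finset κ) (Sc : κ → Finset (Fin N)) (hS : ∀ c ∈ C, Sc c ⊆ Vc c) (t : κ → Fin N)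
    (ht : t ∈ Fintype.piFinset Vc) :
    Fintype.piFinset (addxW Vc C Sc t) ⊆ Fintype.piFinset Vc := by
  rw [Fintype.mem_piFinset] at ht
  intro t' ht'
  rw [Fintype.mem_piFinset] at ht' ⊢
  intro c
  have h1 := ht' c
  unfold addxW at h1
  by_cases hc : c ∈ C
  · rw [if_pos hc] at h1
    by_cases h : t c ∈ Sc c
    · rw [if_pos h] at h1
      exact hS c hc h1
    · rw [if_neg h, Finset.mem_sdiff] at h1
      exact h1.1
  · rw [if_neg hc, Finset.mem_singleton] at h1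
    rw [h1]
    exact ht c

theorem addxW_off {κ : Type} [Fintype κ] [DecidableEq κ] {N : ℕ} (Vc : κ → Finset (Fin N))
    (C : Finset κ) (Sc : κ → Finset (Fin N)) (t t' : κ → Fin N)
    (ht' : t' ∈ Fintype.piFinset (addxW Vc C Sc t)) (c : κ) (hc : c ∉ C) : t' c = t c := by
  have h1 := Fintype.mem_piFinset.mp ht' c
  unfold addxW at h1
  rw [if_neg hc, Finset.mem_singleton] at h1
  exact h1

theorem addxW_on {κ : Type} [Fintype κ] [DecidableEq κ] {N : ℕ} (Vc : κ → Finset (Fin N))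
    (C : Finset κ) (Sc : κ → Finset (Fin N)) (t t' : κ → Fin N)
    (ht' : t' ∈ Fintype.piFinset (addxW Vc C Sc t)) (c : κ) (hc : c ∈ C) :
    (t' c ∈ Sc c ↔ t c ∈ Sc c) := by
  have h1 := Fintype.mem_piFinset.mp ht' c
  unfold addxW at h1
  rw [if_pos hc] at h1
  by_cases h : t c ∈ Sc c
  · rw [if_pos h] at h1
    exact ⟨fun _ => h, fun _ => h1⟩
  · rw [if_neg h, Finset.mem_sdiff] at h1
    exact ⟨fun h2 => absurd h2 h1.2, fun h2 => absurd h2 h⟩

theorem addxW_eq {κ : Type} [Fintype κ] [DecidableEq κ] {N : ℕ} (Vc : κ → Finset (Fin N))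
    (C : Finset κ) (Sc : κ → Finset (Fin N)) (t t' : κ → Fin N)
    (ht' : t' ∈ Fintype.piFinset (addxW Vc C Sc t)) : addxW Vc C Sc t' = addxW Vc C Sc t := by
  funext c
  by_cases hc : c ∈ C
  · have h1 := addxW_on Vc C Sc t t' ht' c hc
    unfold addxW
    rw [if_pos hc, if_pos hc]
    by_cases h : t c ∈ Sc c
    · rw [if_pos h, if_pos (h1.mpr h)]
    · rw [if_neg h, if_neg (fun h2 => h (h1.mp h2))]
  · unfold addxW
    rw [if_neg hc, if_neg hc, addxW_off Vc C Sc t t' ht' c hc]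

theorem addx_wE_congr {k N M : ℕ} (p : Fin k → Fin kp) (t t' : Fin M × Fin kp → Fin N)
    (J : Fin k → Finset (Fin M)) (h : ∀ j, ∀ i ∈ J j, t (i, p j) = t' (i, p j)) :
    wE p t J = wE p t' J := by
  funext j b
  unfold wE
  congr 2
  refine Finset.filter_congr fun i hi => ?_
  rw [h j i hi]

theorem addx_lw_congr {k N M : ℕ} (p : Fin k → Fin kp) (t t' : Fin M × Fin kp → Fin N)
    (V : Fin k → Finset (Fin N)) (J : Fin k → Finset (Fin M))
    (h : ∀ j, ∀ i ∈ J j, t (i, p j) = t' (i, p j)) (l : Fin k) (y : Fin N) :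
    lw p t V J l y = lw p t' V J l y := by
  funext j b
  unfold lw
  rw [addx_wE_congr p t t' J h]

theorem addx_sprA_congr {k N M : ℕ} {ι : Type} (p : Fin k → Fin kp) (t t' : Fin M × Fin kp → Fin N)
    (J : Fin k → Finset (Fin M)) (z : ℕ) (θ : ℝ) (u : ι → (Fin k → Fin N) → ℝ)
    (h : ∀ j, ∀ i ∈ J j, t (i, p j) = t' (i, p j)) (hA : SprA p t J z θ u) :
    SprA p t' J z θ u := by
  intro x j a ha
  have h1 := hA x j a ha
  rw [addx_wE_congr p t t' J h, h j a ha] at h1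
  exact h1

theorem addx_sprC_congr {k N M : ℕ} (p : Fin k → Fin kp) (t t' : Fin M × Fin kp → Fin N)
    (V : Fin k → Finset (Fin N)) (J : Fin k → Finset (Fin M)) (z : ℕ) (θ : ℝ)
    (g : (Fin k → Fin N) → ℝ)
    (h : ∀ j, ∀ i ∈ J j, t (i, p j) = t' (i, p j)) (hA : SprC p t V J z θ g) :
    SprC p t' V J z θ g := by
  intro l y hy j hj a ha
  have h1 := hA l y hy j hj a ha
  rw [addx_lw_congr p t t' V J h, h j a ha] at h1
  exact h1

/-- The set `S j` at the cell `(i, p j)`, `i ∈ D j`. -/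
noncomputable def addxSc {k N M : ℕ} (p : Fin k → Fin kp) (D : Fin k → Finset (Fin M))
    (S : Fin k → Finset (Fin N)) (c : Fin M × Fin kp) : Finset (Fin N) :=
  if h : ∃ j, c.1 ∈ D j ∧ c.2 = p j then S h.choose else ∅

theorem addxSc_eq {k N M : ℕ} (p : Fin k → Fin kp) (D : Fin k → Finset (Fin M))
    (S : Fin k → Finset (Fin N)) (hD : ∀ i j, i ≠ j → Disjoint (D i) (D j)) (j : Fin k)
    (i : Fin M) (hi : i ∈ D j) : addxSc p D S (i, p j) = S j := by
  have h : ∃ j', (i, p j).1 ∈ D j' ∧ (i, p j).2 = p j' := ⟨j, hi, rfl⟩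
  unfold addxSc
  rw [dif_pos h]
  have h1 := h.choose_spec.1
  by_contra hne
  have h2 : h.choose ≠ j := fun h3 => hne (by rw [h3])
  exact Finset.disjoint_left.mp (hD _ _ h2) h1 hi

/-- Adding a star with centre at the positions `ps`: for most values `s'` of the centre, most of the
functions `u t x` have a large empirical sum over the blocks at `s'`. -/
theorem addx (k : ℕ) : ∀ ρ : ℝ, 0 < ρ → ∀ b : ℝ, 0 < b → ∀ ε : ℝ, 0 < ε →
    ∃ ε' : ℝ, 0 < ε' ∧ ∀ c' : ℝ, 0 < c' → ∃ c₂ : ℝ, 0 < c₂ ∧ ∃ θ₁ : ℝ, 0 < θ₁ ∧ ∃ z₀ : ℕ,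
    ∀ (N M : ℕ) (ι : Type) [Fintype ι] (ps : Fin kp) (p : Fin k → Fin kp)
      (D : Fin k → Finset (Fin M)) (Vs : Finset (Fin N)) (V S : Fin k → Finset (Fin N))
      (Vc : Fin M × Fin kp → Finset (Fin N)) (z : ℕ) (θ : ℝ)
      (u : (Fin M × Fin kp → Fin N) → ι → (Fin k → Fin N) → ℝ),
      (∀ j, p j ≠ ps) → (∀ i j, i ≠ j → Disjoint (D i) (D j)) → (∀ j, S j ⊆ V j) →
      (∀ j, (V j).Nonempty) → (∀ j, ρ * ((V j).card : ℝ) ≤ ((S j).card : ℝ)) →
      (∀ j, ∀ i ∈ D j, Vc (i, ps) = Vs ∧ Vc (i, p j) = V j) →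
      (∀ t x y, 0 ≤ u t x y) →
      (∀ t t' : Fin M × Fin kp → Fin N,
        (∀ c : Fin M × Fin kp, (∀ j, ∀ i ∈ D j, c ≠ (i, p j)) → t c = t' c) → u t = u t') →
      z₀ ≤ z → 0 < θ → θ ≤ θ₁ → (N : ℝ) * Real.exp (-(θ₁ / θ)) ≤ 1 →
      (Fintype.card ι : ℝ) * Real.exp (-(θ₁ / θ)) ≤ 1 →
      (((Fintype.piFinset Vc).filter fun t =>
          (∀ Y : Fin k → Finset (Fin N), (∀ j, Y j ⊆ S j) →
            (∀ j, ε' * ((V j).card : ℝ) ≤ ((Y j).card : ℝ)) →
            ((Finset.univ.filter fun x : ι =>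
                ∑ y ∈ Fintype.piFinset Y, u t x y < c' * ∏ j, ((V j).card : ℝ)).card : ℝ)
              ≤ ε' * (Fintype.card ι : ℝ)) ∧
          (∀ s' ∈ Vs, ∀ J' : Fin k → Finset (Fin M),
            (∀ j, J' j ⊆ (D j).filter fun i => t (i, ps) = s') → (∀ j, (J' j).card = z) →
            SprA p t J' z θ (u t) ∧
              SprC p t V J' z θ (fun y => (∑ x, u t x y) / (Fintype.card ι : ℝ))) ∧
          ((Vs.filter fun s' => ∃ j, (JS ps p t D S s' j).card < z).card : ℝ)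
            ≤ (ε / 4) * (Vs.card : ℝ) ∧
          (ε / 2) * (Vs.card : ℝ) < ((Vs.filter fun s' =>
            (ε / 2) * (Fintype.card ι : ℝ) < ((Finset.univ.filter fun x : ι =>
              emp p t (JS ps p t D S s') (u t x) < c₂ * (z : ℝ) ^ k).card : ℝ)).card : ℝ)).card : ℝ)
        ≤ 2 ^ Vs.card * Real.exp (-(b * z * ((ε / 4) * (Vs.card : ℝ))))
            * ((Fintype.piFinset Vc).card : ℝ) := by
  intro ρ hρ b hb ε hε
  obtain ⟨ε', hε', hla1⟩ := la k ρ hρ b hb (ε / 2) (by positivity)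
  refine ⟨ε', hε', ?_⟩
  intro c' hc'
  obtain ⟨c₂, hc₂, θ₁, hθ₁0, z₀, hla⟩ := hla1 c' hc'
  refine ⟨c₂, hc₂, θ₁, hθ₁0, z₀, ?_⟩
  intro N M ι _ ps p D Vs V S Vc z θ u hps hDdis hSV hVne hρV hVc hu hdep hz₀ hθ hθ₁ hN hι
  obtain ⟨Sc, hSc⟩ : ∃ Sc : Fin M × Fin kp → Finset (Fin N), Sc = addxSc p D S := ⟨_, rfl⟩
  have hSc1 : ∀ j, ∀ i ∈ D j, Sc (i, p j) = S j := by
    intro j i hi
    rw [hSc]
    exact addxSc_eq p D S hDdis j i hi
  obtain ⟨C, hC⟩ : ∃ C : Finset (Fin M × Fin kp), C = coreCells p D := ⟨_, rfl⟩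
  have hmemC : ∀ i a, (i, a) ∈ C ↔ ∃ j, i ∈ D j ∧ a = p j := by
    intro i a
    rw [hC]
    exact mem_coreCells p D i a
  have hScV : ∀ c ∈ C, Sc c ⊆ Vc c := by
    rintro ⟨i, a⟩ hc
    obtain ⟨j, hj, rfl⟩ := (hmemC i a).mp hc
    rw [hSc1 j i hj, (hVc j i hj).2]
    exact hSV j
  refine addx_part _ (fun t => Fintype.piFinset (addxW Vc C Sc t)) _ _
    (fun t ht => addxW_self Vc C Sc t ht) (fun t ht => addxW_sub Vc C Sc hScV t ht)
    (fun t _ t' ht' => by rw [addxW_eq Vc C Sc t t' ht']) ?_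
  intro t₀ ht₀
  obtain ⟨W, hW⟩ : ∃ W : Fin M × Fin kp → Finset (Fin N), W = addxW Vc C Sc t₀ := ⟨_, rfl⟩
  rw [← hW]
  have hoff : ∀ t ∈ Fintype.piFinset W, ∀ c, c ∉ C → t c = t₀ c := by
    intro t ht c hc
    rw [hW] at ht
    exact addxW_off Vc C Sc t₀ t ht c hc
  have hon : ∀ t ∈ Fintype.piFinset W, ∀ c, c ∈ C → (t c ∈ Sc c ↔ t₀ c ∈ Sc c) := by
    intro t ht c hc
    rw [hW] at ht
    exact addxW_on Vc C Sc t₀ t ht c hc
  have hps' : ∀ t ∈ Fintype.piFinset W, ∀ i, t (i, ps) = t₀ (i, ps) := by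
    intro t ht i
    refine hoff t ht _ ?_
    rw [hmemC]
    rintro ⟨j, _, h⟩
    exact hps j h.symm
  have hut : ∀ t ∈ Fintype.piFinset W, u t = u t₀ := by
    intro t ht
    refine hdep t t₀ ?_
    rintro ⟨i, a⟩ hc
    refine hoff t ht _ ?_
    rw [hmemC]
    rintro ⟨j, hj, h⟩
    exact hc j i hj (by rw [h])
  have hJS : ∀ t ∈ Fintype.piFinset W, ∀ s', JS ps p t D S s' = JS ps p t₀ D S s' := by
    intro t ht s'
    funext j
    unfold JS
    refine Finset.filter_congr fun i hi => ?_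
    rw [hps' t ht i]
    have h1 := hon t ht (i, p j) ((hmemC i (p j)).mpr ⟨j, hi, rfl⟩)
    rw [hSc1 j i hi] at h1
    rw [h1]
  by_cases hreg : ∀ Y : Fin k → Finset (Fin N), (∀ j, Y j ⊆ S j) →
      (∀ j, ε' * ((V j).card : ℝ) ≤ ((Y j).card : ℝ)) →
      ((Finset.univ.filter fun x : ι =>
        ∑ y ∈ Fintype.piFinset Y, u t₀ x y < c' * ∏ j, ((V j).card : ℝ)).card : ℝ)
        ≤ ε' * (Fintype.card ι : ℝ)
  swap
  · refine core_filter_zero _ _ _ (by positivity) ?_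
    rintro t ht ⟨h1, _⟩
    rw [hut t ht] at h1
    exact hreg h1
  obtain ⟨sel, hsel⟩ : ∃ sel : Finset (Fin M) → Finset (Fin M),
      ∀ A, sel A ⊆ A ∧ (z ≤ A.card → (sel A).card = z) := by
    refine Classical.axiomOfChoice (r := fun (A B : Finset (Fin M)) => B ⊆ A ∧ (z ≤ A.card → B.card = z))
      ?_
    intro A
    by_cases hA : z ≤ A.card
    · obtain ⟨B, hB1, hB2⟩ := Finset.exists_subset_card_eq hA
      exact ⟨B, hB1, fun _ => hB2⟩
    · exact ⟨∅, Finset.empty_subset _, fun h => absurd h hA⟩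
  obtain ⟨J', hJ'⟩ : ∃ J' : Fin N → Fin k → Finset (Fin M),
      J' = fun s' j => sel (JS ps p t₀ D S s' j) := ⟨_, rfl⟩
  have hJ'sub : ∀ s' j, J' s' j ⊆ JS ps p t₀ D S s' j := by
    intro s' j
    rw [hJ']
    exact (hsel _).1
  have hJ'mem : ∀ s' j, ∀ i ∈ J' s' j, i ∈ D j ∧ t₀ (i, ps) = s' ∧ t₀ (i, p j) ∈ S j := by
    intro s' j i hi
    have h1 := hJ'sub s' j hi
    unfold JS at h1
    exact Finset.mem_filter.mp h1
  obtain ⟨G, hG⟩ : ∃ G : Finset (Fin N), G = Vs.filter fun s' =>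
      ∀ j, z ≤ (JS ps p t₀ D S s' j).card := ⟨_, rfl⟩
  have hJ'card : ∀ s' ∈ G, ∀ j, (J' s' j).card = z := by
    intro s' hs' j
    rw [hG, Finset.mem_filter] at hs'
    rw [hJ']
    exact (hsel _).2 (hs'.2 j)
  obtain ⟨E, hE⟩ : ∃ E : Fin N → (Fin M × Fin kp → Fin N) → Prop, E = fun s' t =>
      SprA p t (J' s') z θ (u t₀) ∧
        SprC p t V (J' s') z θ (fun y => (∑ x, u t₀ x y) / (Fintype.card ι : ℝ)) ∧
        (ε / 2) * (Fintype.card ι : ℝ) < ((Finset.univ.filter fun x : ι =>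
            emp p t (J' s') (u t₀ x) < c₂ * (z : ℝ) ^ k).card : ℝ) := ⟨_, rfl⟩
  have hEs : ∀ s' ∈ G, (((Fintype.piFinset W).filter (E s')).card : ℝ) ≤
      Real.exp (-(b * z)) * ((Fintype.piFinset W).card : ℝ) := by
    intro s' hs'
    have h1 := hla N M ι p V S (J' s') W z θ (u t₀) (hu t₀) hSV hVne hρV hreg (hJ'card s' hs') hz₀
      hθ hθ₁ hN hι
      (fun i j hij => (hDdis i j hij).mono (fun a ha => (hJ'mem s' i a ha).1)
        (fun a ha => (hJ'mem s' j a ha).1))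
      (fun j i hi => by
        obtain ⟨h2, h3, h4⟩ := hJ'mem s' j i hi
        rw [hW]
        unfold addxW
        rw [if_pos ((hmemC i (p j)).mpr ⟨j, h2, rfl⟩), hSc1 j i h2, if_pos h4])
    refine le_trans ?_ h1
    rw [Nat.cast_le]
    refine Finset.card_le_card fun t ht => ?_
    rw [Finset.mem_filter] at ht ⊢
    rw [hE] at ht
    exact ht
  refine addx_union W G Vs.card (by rw [hG]; exact Finset.card_filter_le _ _)
    (fun s' => coreCells p (J' s')) ?_ E ?_ (b * z) ((ε / 4) * (Vs.card : ℝ)) (by positivity) hEs _ ?_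
  · intro s _ s' _ hss
    rw [Finset.disjoint_left]
    rintro ⟨i, a⟩ h1 h2
    rw [mem_coreCells] at h1 h2
    obtain ⟨j, hj, _⟩ := h1
    obtain ⟨j', hj', _⟩ := h2
    exact hss ((hJ'mem s j i hj).2.1.symm.trans (hJ'mem s' j' i hj').2.1)
  · intro s' _ t t' htt hEt
    have h1 : ∀ j, ∀ i ∈ J' s' j, t (i, p j) = t' (i, p j) := by
      intro j i hi
      exact htt _ ((mem_coreCells p (J' s') i (p j)).mpr ⟨j, hi, rfl⟩)
    rw [hE] at hEt ⊢
    obtain ⟨h2, h3, h4⟩ := hEt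
    refine ⟨addx_sprA_congr p t t' _ z θ _ h1 h2, addx_sprC_congr p t t' V _ z θ _ h1 h3, ?_⟩
    refine lt_of_lt_of_le h4 ?_
    rw [Nat.cast_le]
    refine Finset.card_le_card fun x hx => ?_
    rw [Finset.mem_filter] at hx ⊢
    rw [core_emp_congr p t t' (J' s') (u t₀ x) h1] at hx
    exact hx
  · rintro t ht ⟨_, h2, h3, h4⟩
    rw [hut t ht] at h2 h4
    obtain ⟨H, hH⟩ : ∃ H : Finset (Fin N), H = Vs.filter fun s' =>
        (ε / 2) * (Fintype.card ι : ℝ) < ((Finset.univ.filter fun x : ι =>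
          emp p t (JS ps p t D S s') (u t₀ x) < c₂ * (z : ℝ) ^ k).card : ℝ) := ⟨_, rfl⟩
    rw [← hH] at h4
    obtain ⟨R, hR⟩ : ∃ R : Finset (Fin N), R = Vs.filter fun s' =>
        ∃ j, (JS ps p t D S s' j).card < z := ⟨_, rfl⟩
    rw [← hR] at h3
    have hT1 : ∀ s' ∈ H \ R, s' ∈ G := by
      intro s' hs'
      rw [Finset.mem_sdiff, hH, hR, Finset.mem_filter, Finset.mem_filter] at hs'
      rw [hG, Finset.mem_filter]
      refine ⟨hs'.1.1, fun j => ?_⟩
      by_contra hcon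
      refine hs'.2 ⟨hs'.1.1, j, ?_⟩
      rw [hJS t ht s']
      omega
    refine ⟨H \ R, hT1, ?_, ?_⟩
    · have h5 : (H.card : ℝ) ≤ ((H \ R).card : ℝ) + (R.card : ℝ) := by
        have h6 := Finset.le_card_sdiff R H
        have h7 : H.card ≤ (H \ R).card + R.card := by omega
        exact_mod_cast h7
      linarith
    · intro s' hs'
      have hs'G := hT1 s' hs'
      rw [Finset.mem_sdiff, hH, Finset.mem_filter] at hs'
      obtain ⟨⟨h5, h6⟩, -⟩ := hs'
      have h7 := h2 s' h5 (J' s')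
        (fun j i hi => by
          obtain ⟨h8, h9, _⟩ := hJ'mem s' j i hi
          rw [Finset.mem_filter]
          exact ⟨h8, (hps' t ht i).trans h9⟩)
        (hJ'card s' hs'G)
      rw [hE]
      refine ⟨h7.1, h7.2, lt_of_lt_of_le h6 ?_⟩
      rw [Nat.cast_le]
      refine Finset.card_le_card fun x hx => ?_
      rw [Finset.mem_filter] at hx ⊢
      refine ⟨hx.1, lt_of_le_of_lt ?_ hx.2⟩
      refine emp_mono p t (J' s') _ (u t₀ x) (u t₀ x) ?_ (hu t₀ x) (fun _ => le_rfl)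
      intro j
      rw [hJS t ht s']
      exact hJ'sub s' j

end Pool.Agent.CUG
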