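import Pool.Agent.CUG.Defs

set_option autoImplicit false

/-!
# CUG.COL

Adapt CUB/COL.lean: greedy colouring; `ty x = (χ x, c x, [x ∈ U], stg x)` in
`Fin (dd+2) × Fin D' × Bool × Fin Ds ≃ Fin v`, `D'` larger than the number of walks of length `≤ Rd` from a vertex,
`pos` = first component, `st` = last component.
-/

namespace Pool.Agent.CUG

open Pool.Agent.CUB
open scoped Classical

/-- Greedy colouring. -/
private theorem COL_greedy {X : Type} [Fintype X] (R : X → X → Prop) (hs : ∀ a b, R a b → R b a)
    (hi : ∀ a, ¬ R a a) (D : ℕ)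
    (hD' : ∀ x, ({y | R x y} : Set X).ncard ≤ D) :
    ∃ c : X → Fin (D + 1), ∀ a b, R a b → c a ≠ c b := by
  have hD : ∀ x, ((Finset.univ : Finset X).filter fun y => R x y).card ≤ D := by
    intro x
    have h1 : ({y | R x y} : Set X).ncard
        = ((Finset.univ : Finset X).filter fun y => R x y).card := by
      rw [← Set.ncard_coe_finset]
      congr 1
      ext w
      simp
    rw [← h1]
    exact hD' x
  have key : ∀ S : Finset X, ∃ c : X → Fin (D + 1), ∀ a ∈ S, ∀ b ∈ S, R a b → c a ≠ c b := by
    intro S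
    induction S using Finset.induction_on with
    | empty => exact ⟨fun _ => 0, by simp⟩
    | insert x S hx ih =>
      obtain ⟨c, hc⟩ := ih
      have hcard : (((Finset.univ : Finset X).filter fun y => R x y).image c).card
          < (Finset.univ : Finset (Fin (D + 1))).card := by
        rw [Finset.card_univ, Fintype.card_fin]
        exact Nat.lt_succ_of_le (Finset.card_image_le.trans (hD x))
      obtain ⟨k, -, hk⟩ := Finset.exists_mem_notMem_of_card_lt_card hcard
      have hk' : ∀ y, R x y → c y ≠ k := by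
        intro y hy he
        exact hk (Finset.mem_image.2 ⟨y, by simpa using hy, he⟩)
      refine ⟨Function.update c x k, ?_⟩
      intro a ha b hb hab
      by_cases hax : a = x
      · by_cases hbx : b = x
        · subst hax
          subst hbx
          exact absurd hab (hi _)
        · subst hax
          rw [Function.update_self, Function.update_of_ne hbx]
          exact fun h => hk' b hab h.symm
      · by_cases hbx : b = x
        · subst hbx
          rw [Function.update_self, Function.update_of_ne hax]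
          exact hk' a (hs _ _ hab)
        · rw [Function.update_of_ne hax, Function.update_of_ne hbx]
          exact hc a (Finset.mem_of_mem_insert_of_ne ha hax) b
            (Finset.mem_of_mem_insert_of_ne hb hbx) hab
  obtain ⟨c, hc⟩ := key Finset.univ
  exact ⟨c, fun a b hab => hc a (Finset.mem_univ _) b (Finset.mem_univ _) hab⟩

/-- Number of vertices at the end of short walks. -/
private theorem COL_ball {X : Type} [Fintype X] (H : SimpleGraph X) (Δ : ℕ)
    (hd : ∀ x, (H.neighborSet x).ncard ≤ Δ) (n : ℕ) :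
    ∀ u, ((Finset.univ : Finset X).filter fun w => ∃ p : H.Walk u w, p.length ≤ n).card
      ≤ (Δ + 1) ^ n := by
  have hN : ∀ u, ((Finset.univ : Finset X).filter fun w => H.Adj u w).card ≤ Δ := by
    intro u
    have h1 : (H.neighborSet u).ncard
        = ((Finset.univ : Finset X).filter fun w => H.Adj u w).card := by
      rw [← Set.ncard_coe_finset]
      congr 1
      ext w
      simp
    rw [← h1]
    exact hd u
  induction n with
  | zero =>
    intro u
    rw [pow_zero]
    refine Finset.card_le_one.2 ?_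
    intro a ha b hb
    rw [Finset.mem_filter] at ha hb
    obtain ⟨-, p, hp⟩ := ha
    obtain ⟨-, q, hq⟩ := hb
    have h1 : u = a := SimpleGraph.Walk.eq_of_length_eq_zero (Nat.le_zero.1 hp)
    have h2 : u = b := SimpleGraph.Walk.eq_of_length_eq_zero (Nat.le_zero.1 hq)
    rw [← h1, ← h2]
  | succ n ih =>
    intro u
    have hsub : ((Finset.univ : Finset X).filter fun w => ∃ p : H.Walk u w, p.length ≤ n + 1)
        ⊆ (insert u ((Finset.univ : Finset X).filter fun w => H.Adj u w)).biUnion
          (fun z => (Finset.univ : Finset X).filter fun w => ∃ p : H.Walk z w, p.length ≤ n) := by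
      intro w hw
      rw [Finset.mem_filter] at hw
      obtain ⟨-, p, hp⟩ := hw
      rw [Finset.mem_biUnion]
      cases p with
      | nil =>
        refine ⟨u, Finset.mem_insert_self _ _, ?_⟩
        rw [Finset.mem_filter]
        exact ⟨Finset.mem_univ _, SimpleGraph.Walk.nil, by simp⟩
      | @cons _ z _ hz q =>
        refine ⟨z, Finset.mem_insert_of_mem (by simpa using hz), ?_⟩
        rw [Finset.mem_filter]
        refine ⟨Finset.mem_univ _, q, ?_⟩
        rw [SimpleGraph.Walk.length_cons] at hp
        omega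
    have hc4 : (insert u ((Finset.univ : Finset X).filter fun w => H.Adj u w)).card ≤ Δ + 1 :=
      (Finset.card_insert_le _ _).trans (Nat.succ_le_succ (hN u))
    calc _ ≤ _ := Finset.card_le_card hsub
      _ ≤ ∑ z ∈ insert u ((Finset.univ : Finset X).filter fun w => H.Adj u w),
          ((Finset.univ : Finset X).filter fun w => ∃ p : H.Walk z w, p.length ≤ n).card :=
        Finset.card_biUnion_le
      _ ≤ ∑ z ∈ insert u ((Finset.univ : Finset X).filter fun w => H.Adj u w), (Δ + 1) ^ n :=
        Finset.sum_le_sum fun z _ => ih z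
      _ = (insert u ((Finset.univ : Finset X).filter fun w => H.Adj u w)).card * (Δ + 1) ^ n := by
        rw [Finset.sum_const, smul_eq_mul]
      _ ≤ (Δ + 1) * (Δ + 1) ^ n := Nat.mul_le_mul_right _ hc4
      _ = (Δ + 1) ^ (n + 1) := by rw [pow_succ]; ring

/-- The typing with an arbitrary bound on the number of short walks. -/
private theorem COL_typ (dd D n Ds : ℕ) (hDn : (dd + 2) ^ n ≤ D) :
    ∃ (v : ℕ) (pos : Fin v → Fin (dd + 2)) (st : Fin v → ℕ),
    ∀ (X : Type) [Fintype X] (H : SimpleGraph X) (U : Finset X) (stg : X → ℕ),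
    (∀ x, (H.neighborSet x).ncard ≤ dd + 1) → (∀ x, stg x < Ds) →
    ∃ ty : X → Fin v, (∀ u w, H.Adj u w → pos (ty u) ≠ pos (ty w)) ∧
      (∀ u w, u ≠ w → (∃ p : H.Walk u w, p.length ≤ n) → ty u ≠ ty w) ∧
      (∀ u w, ty u = ty w → (u ∈ U ↔ w ∈ U)) ∧ (∀ x, st (ty x) = stg x) := by
  have e : Fin (dd + 2) × Fin (D + 1) × Bool × Fin Ds ≃
      Fin (Fintype.card (Fin (dd + 2) × Fin (D + 1) × Bool × Fin Ds)) :=
    Fintype.equivFin _
  refine ⟨_, fun i => (e.symm i).1, fun i => ((e.symm i).2.2.2 : ℕ), ?_⟩
  intro X _ H U stg hd hst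
  obtain ⟨χ, hχ⟩ := COL_greedy (fun a b => H.Adj a b) (fun a b h => h.symm)
    (fun a h => h.ne rfl) (dd + 1) hd
  obtain ⟨c, hc⟩ := COL_greedy (fun a b => a ≠ b ∧ ∃ p : H.Walk a b, p.length ≤ n)
    (by
      rintro a b ⟨hab, p, hp⟩
      exact ⟨hab.symm, p.reverse, by rw [SimpleGraph.Walk.length_reverse]; exact hp⟩)
    (fun a h => h.1 rfl) D
    (by
      intro x
      refine le_trans ?_ ((COL_ball H (dd + 1) hd n x).trans hDn)
      rw [← Set.ncard_coe_finset]
      refine Set.ncard_le_ncard ?_ (Set.toFinite _)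
      intro w hw
      rw [Finset.mem_coe, Finset.mem_filter]
      exact ⟨Finset.mem_univ _, hw.2⟩)
  refine ⟨fun x => e (χ x, c x, decide (x ∈ U), ⟨stg x, hst x⟩), ?_, ?_, ?_, ?_⟩
  · intro u w huw
    simp only [Equiv.symm_apply_apply]
    exact hχ u w huw
  · intro u w huw hp h
    have h1 := e.injective h
    rw [Prod.mk.injEq, Prod.mk.injEq] at h1
    exact hc u w ⟨huw, hp⟩ h1.2.1
  · intro u w h
    have h1 := e.injective h
    rw [Prod.mk.injEq, Prod.mk.injEq, Prod.mk.injEq] at h1
    exact decide_eq_decide.1 h1.2.2.1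
  · intro x
    simp only [Equiv.symm_apply_apply]

/-- Typing of graphs of maximum degree at most `dd + 1` with given stages. -/
theorem colt (dd Rd Ds : ℕ) : ∃ (v : ℕ) (pos : Fin v → Fin (dd + 2)) (st : Fin v → ℕ),
    ∀ (X : Type) [Fintype X] (H : SimpleGraph X) (U : Finset X) (stg : X → ℕ),
    (∀ x, (H.neighborSet x).ncard ≤ dd + 1) → (∀ x, stg x < Ds) →
    ∃ ty : X → Fin v, (∀ u w, H.Adj u w → pos (ty u) ≠ pos (ty w)) ∧
      (∀ u w, u ≠ w → (∃ p : H.Walk u w, p.length ≤ Rd) → ty u ≠ ty w) ∧
      (∀ u w, ty u = ty w → (u ∈ U ↔ w ∈ U)) ∧ (∀ x, st (ty x) = stg x) := by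
  exact COL_typ dd ((dd + 2) ^ Rd) Rd Ds le_rfl

/-- Proper colouring with `dd + 2` colours. -/
theorem col_proper (dd : ℕ) (X : Type) [Fintype X] (H : SimpleGraph X)
    (hdeg : ∀ x, (H.neighborSet x).ncard ≤ dd + 1) :
    ∃ χ : X → Fin (dd + 2), ∀ u w, H.Adj u w → χ u ≠ χ w := by
  exact COL_greedy (fun a b => H.Adj a b) (fun a b h => h.symm) (fun a h => h.ne rfl) (dd + 1) hdeg

end Pool.Agent.CUG
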