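import Pool.Agent.CUG.Defs

set_option autoImplicit false

/-!
# CUB.WS

Elementary. `emp_eq_wsum`: group `lam` by the values `y j = t (lam j, p j)`
(`Finset.prod_univ_sum`-like). `emp_coef`: the same for the `J` with `J j` replaced by `{a}`.
`wsum_cons`: `Fin.consEquiv` / `Fin.prod_univ_succ`. For `sprC_mono`, `sprA_mono` note that all the
weights are `≥ 0`, they decrease when `J` shrinks, and `0 ≤ (smaller coef)(smaller total) ≤ ...`; the
case that `Function.update` replaces coordinate `j` is harmless.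
-/

namespace Pool.Agent.CUG

open Pool.Agent.CUB

variable {kp : ℕ}

open scoped Classical

theorem wsum_nonneg {k N : ℕ} (w : Fin k → Fin N → ℝ) (g : (Fin k → Fin N) → ℝ)
    (hw : ∀ j b, 0 ≤ w j b) (hg : ∀ y, 0 ≤ g y) : 0 ≤ wsum w g := by
  unfold wsum
  exact Finset.sum_nonneg fun y _ => mul_nonneg (Finset.prod_nonneg fun j _ => hw j _) (hg y)

theorem wsum_mono {k N : ℕ} (w w' : Fin k → Fin N → ℝ) (g g' : (Fin k → Fin N) → ℝ)
    (hw : ∀ j b, 0 ≤ w j b) (hww : ∀ j b, w j b ≤ w' j b) (hg : ∀ y, 0 ≤ g y)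
    (hgg : ∀ y, g y ≤ g' y) : wsum w g ≤ wsum w' g' := by
  unfold wsum
  refine Finset.sum_le_sum fun y _ => ?_
  refine mul_le_mul ?_ (hgg y) (hg y) ?_
  · exact Finset.prod_le_prod (fun j _ => hw j _) (fun j _ => hww j _)
  · exact Finset.prod_nonneg fun j _ => (hw j _).trans (hww j _)

theorem wsum_sum {k N : ℕ} {ι : Type} (I : Finset ι) (w : Fin k → Fin N → ℝ)
    (g : ι → (Fin k → Fin N) → ℝ) : wsum w (fun y => ∑ i ∈ I, g i y) = ∑ i ∈ I, wsum w (g i) := by
  unfold wsum
  rw [Finset.sum_comm]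
  exact Finset.sum_congr rfl fun y _ => Finset.mul_sum _ _ _

theorem wsum_mul {k N : ℕ} (w : Fin k → Fin N → ℝ) (c : ℝ) (g : (Fin k → Fin N) → ℝ) :
    wsum w (fun y => c * g y) = c * wsum w g := by
  unfold wsum
  rw [Finset.mul_sum]
  exact Finset.sum_congr rfl fun y _ => by ring

theorem wsum_div {k N : ℕ} (w : Fin k → Fin N → ℝ) (c : ℝ) (g : (Fin k → Fin N) → ℝ) :
    wsum w (fun y => g y / c) = wsum w g / c := by
  unfold wsum
  rw [Finset.sum_div]
  exact Finset.sum_congr rfl fun y _ => by ring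

theorem wsum_cons {k N : ℕ} (w : Fin (k + 1) → Fin N → ℝ) (g : (Fin (k + 1) → Fin N) → ℝ) :
    wsum w g = ∑ y₀, w 0 y₀ * wsum (fun j => w j.succ) (fun y => g (Fin.cons y₀ y)) := by
  unfold wsum
  rw [← (Fin.consEquiv (fun _ : Fin (k + 1) => Fin N)).sum_comp, Fintype.sum_prod_type]
  refine Finset.sum_congr rfl fun y₀ _ => ?_
  rw [Finset.mul_sum]
  refine Finset.sum_congr rfl fun y _ => ?_
  have h1 : (Fin.consEquiv (fun _ : Fin (k + 1) => Fin N)) (y₀, y) =
      (Fin.cons y₀ y : Fin (k + 1) → Fin N) := rfl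
  rw [h1, Fin.prod_univ_succ]
  simp only [Fin.cons_zero, Fin.cons_succ]
  ring

theorem wE_nonneg {k N M : ℕ} (p : Fin k → Fin kp) (t : Fin M × Fin kp → Fin N)
    (J : Fin k → Finset (Fin M)) (j : Fin k) (b : Fin N) : 0 ≤ wE p t J j b := by
  unfold wE
  exact Nat.cast_nonneg _

private theorem w1_nonneg {N : ℕ} (y b : Fin N) : 0 ≤ w1 y b := by
  unfold w1
  split_ifs <;> norm_num

theorem lw_nonneg {k N M : ℕ} (p : Fin k → Fin kp) (t : Fin M × Fin kp → Fin N)
    (V : Fin k → Finset (Fin N)) (J : Fin k → Finset (Fin M)) (l : Fin k) (y : Fin N) (j : Fin k)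
    (b : Fin N) : 0 ≤ lw p t V J l y j b := by
  unfold lw
  by_cases h1 : j < l
  · rw [if_pos h1]
    by_cases h2 : b ∈ V j
    · rw [if_pos h2]; norm_num
    · rw [if_neg h2]
  · rw [if_neg h1]
    by_cases h2 : j = l
    · rw [if_pos h2]; exact w1_nonneg _ _
    · rw [if_neg h2]; exact wE_nonneg _ _ _ _ _

/-- The empirical sum is the weighted sum with the empirical weights. -/
theorem emp_eq_wsum {k N M : ℕ} (p : Fin k → Fin kp) (t : Fin M × Fin kp → Fin N)
    (J : Fin k → Finset (Fin M)) (g : (Fin k → Fin N) → ℝ) : emp p t J g = wsum (wE p t J) g := by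
  unfold emp wsum
  rw [← Finset.sum_fiberwise (Fintype.piFinset J) (fun lam => fun j => t (lam j, p j))]
  refine Finset.sum_congr rfl fun y _ => ?_
  have h1 : ((Fintype.piFinset J).filter fun lam => (fun j => t (lam j, p j)) = y) =
      Fintype.piFinset fun j => (J j).filter fun i => t (i, p j) = y j := by
    ext lam
    simp only [Finset.mem_filter, Fintype.mem_piFinset, funext_iff]
    constructor
    · rintro ⟨h2, h3⟩ j
      exact ⟨h2 j, h3 j⟩
    · intro h2
      exact ⟨fun j => (h2 j).1, fun j => (h2 j).2⟩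
  rw [h1]
  have h2 : ∀ lam ∈ Fintype.piFinset fun j => (J j).filter fun i => t (i, p j) = y j,
      g (fun j => t (lam j, p j)) = g y := by
    intro lam hlam
    rw [Fintype.mem_piFinset] at hlam
    congr 1
    funext j
    exact (Finset.mem_filter.mp (hlam j)).2
  rw [Finset.sum_congr rfl h2, Finset.sum_const, Fintype.card_piFinset, nsmul_eq_mul]
  unfold wE
  rw [Nat.cast_prod]

/-- Coefficient of the block `a` in coordinate `j`. -/
theorem emp_coef {k N M : ℕ} (p : Fin k → Fin kp) (t : Fin M × Fin kp → Fin N)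
    (J : Fin k → Finset (Fin M)) (g : (Fin k → Fin N) → ℝ) (j : Fin k) (a : Fin M) (ha : a ∈ J j) :
    ∑ lam ∈ (Fintype.piFinset J).filter (fun lam => lam j = a), g (fun i => t (lam i, p i))
      = wsum (Function.update (wE p t J) j (w1 (t (a, p j)))) g := by
  have h1 : (Fintype.piFinset J).filter (fun lam => lam j = a) =
      Fintype.piFinset (Function.update J j {a}) := by
    ext lam
    simp only [Finset.mem_filter, Fintype.mem_piFinset]
    constructor
    · rintro ⟨h2, h3⟩ i
      by_cases hi : i = j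
      · subst hi
        rw [Function.update_self, Finset.mem_singleton]; exact h3
      · rw [Function.update_of_ne hi]; exact h2 i
    · intro h2
      have h3 : lam j = a := by
        have := h2 j
        rw [Function.update_self, Finset.mem_singleton] at this
        exact this
      refine ⟨fun i => ?_, h3⟩
      by_cases hi : i = j
      · subst hi
        rw [h3]; exact ha
      · have := h2 i
        rw [Function.update_of_ne hi] at this
        exact this
  have h2 : wE p t (Function.update J j {a}) = Function.update (wE p t J) j (w1 (t (a, p j))) := by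
    funext i b
    by_cases hi : i = j
    · subst hi
      rw [Function.update_self]
      unfold wE w1
      rw [Function.update_self]
      by_cases hb : b = t (a, p i)
      · rw [if_pos hb]
        have h4 : ({a} : Finset (Fin M)).filter (fun i' => t (i', p i) = b) = {a} := by
          rw [Finset.filter_eq_self]
          intro x hx
          rw [Finset.mem_singleton] at hx
          rw [hx]; exact hb.symm
        rw [h4, Finset.card_singleton, Nat.cast_one]
      · rw [if_neg hb]
        have h4 : ({a} : Finset (Fin M)).filter (fun i' => t (i', p i) = b) = ∅ := by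
          rw [Finset.filter_eq_empty_iff]
          intro x hx h5
          rw [Finset.mem_singleton] at hx
          rw [hx] at h5
          exact hb h5.symm
        rw [h4, Finset.card_empty, Nat.cast_zero]
    · rw [Function.update_of_ne hi]
      unfold wE
      rw [Function.update_of_ne hi]
  have h3 := emp_eq_wsum p t (Function.update J j {a}) g
  rw [h2] at h3
  rw [h1, ← h3]
  rfl

theorem emp_mono {k N M : ℕ} (p : Fin k → Fin kp) (t : Fin M × Fin kp → Fin N)
    (J J' : Fin k → Finset (Fin M)) (g g' : (Fin k → Fin N) → ℝ) (hJ : ∀ j, J j ⊆ J' j)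
    (hg : ∀ y, 0 ≤ g y) (hgg : ∀ y, g y ≤ g' y) : emp p t J g ≤ emp p t J' g' := by
  unfold emp
  refine (Finset.sum_le_sum fun lam _ => hgg _).trans ?_
  exact Finset.sum_le_sum_of_subset_of_nonneg (Fintype.piFinset_subset _ _ hJ)
    (fun lam _ _ => (hg _).trans (hgg _))

private theorem wE_mono {k N M : ℕ} (p : Fin k → Fin kp) (t : Fin M × Fin kp → Fin N)
    (J J' : Fin k → Finset (Fin M)) (hJ : ∀ j, J j ⊆ J' j) (j : Fin k) (b : Fin N) :
    wE p t J j b ≤ wE p t J' j b := by
  unfold wE
  exact_mod_cast Finset.card_le_card (Finset.filter_subset_filter _ (hJ j))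

private theorem lw_mono {k N M : ℕ} (p : Fin k → Fin kp) (t : Fin M × Fin kp → Fin N)
    (V : Fin k → Finset (Fin N)) (J J' : Fin k → Finset (Fin M)) (hJ : ∀ j, J j ⊆ J' j)
    (l : Fin k) (y : Fin N) (j : Fin k) (b : Fin N) :
    lw p t V J l y j b ≤ lw p t V J' l y j b := by
  unfold lw
  by_cases h1 : j < l
  · rw [if_pos h1, if_pos h1]
  · rw [if_neg h1, if_neg h1]
    by_cases h2 : j = l
    · rw [if_pos h2, if_pos h2]
    · rw [if_neg h2, if_neg h2]; exact wE_mono p t J J' hJ j b

private theorem upd_nonneg {k N : ℕ} (w : Fin k → Fin N → ℝ) (hw : ∀ j b, 0 ≤ w j b) (j : Fin k)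
    (y : Fin N) (i : Fin k) (b : Fin N) : 0 ≤ Function.update w j (w1 y) i b := by
  by_cases hi : i = j
  · subst hi
    rw [Function.update_self]; exact w1_nonneg _ _
  · rw [Function.update_of_ne hi]; exact hw i b

private theorem upd_mono {k N : ℕ} (w w' : Fin k → Fin N → ℝ) (hw : ∀ j b, w j b ≤ w' j b)
    (j : Fin k) (y : Fin N) (i : Fin k) (b : Fin N) :
    Function.update w j (w1 y) i b ≤ Function.update w' j (w1 y) i b := by
  by_cases hi : i = j
  · subst hi
    rw [Function.update_self, Function.update_self]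
  · rw [Function.update_of_ne hi, Function.update_of_ne hi]; exact hw i b

theorem sprA_mono {k N M : ℕ} {ι : Type} (p : Fin k → Fin kp) (t : Fin M × Fin kp → Fin N)
    (J J' : Fin k → Finset (Fin M)) (z : ℕ) (θ : ℝ) (u : ι → (Fin k → Fin N) → ℝ)
    (hJ : ∀ j, J j ⊆ J' j) (hu : ∀ x y, 0 ≤ u x y) (h : SprA p t J' z θ u) :
    SprA p t J z θ u := by
  intro x j a ha
  refine le_trans ?_ (h x j a (hJ j ha))
  refine mul_le_mul ?_ ?_ ?_ ?_
  · exact wsum_mono _ _ _ _ (upd_nonneg _ (wE_nonneg p t J) j _)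
      (upd_mono _ _ (wE_mono p t J J' hJ) j _) (hu x) (fun _ => le_rfl)
  · exact wsum_mono _ _ _ _ (wE_nonneg p t J) (wE_mono p t J J' hJ) (hu x) (fun _ => le_rfl)
  · exact wsum_nonneg _ _ (wE_nonneg p t J) (hu x)
  · exact wsum_nonneg _ _ (upd_nonneg _ (wE_nonneg p t J') j _) (hu x)

theorem sprC_mono {k N M : ℕ} (p : Fin k → Fin kp) (t : Fin M × Fin kp → Fin N)
    (V : Fin k → Finset (Fin N)) (J J' : Fin k → Finset (Fin M)) (z : ℕ) (θ : ℝ)
    (g g' : (Fin k → Fin N) → ℝ) (hJ : ∀ j, J j ⊆ J' j) (hg : ∀ y, 0 ≤ g y)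
    (hgg : ∀ y, g y ≤ g' y) (h : SprC p t V J' z θ g') : SprC p t V J z θ g := by
  intro l y hy j hj a ha
  refine le_trans ?_ (h l y hy j hj a (hJ j ha))
  have hg' : ∀ y, 0 ≤ g' y := fun y => (hg y).trans (hgg y)
  refine mul_le_mul ?_ ?_ ?_ ?_
  · exact wsum_mono _ _ _ _ (upd_nonneg _ (lw_nonneg p t V J l y) j _)
      (upd_mono _ _ (lw_mono p t V J J' hJ l y) j _) hg hgg
  · exact wsum_mono _ _ _ _ (lw_nonneg p t V J l y) (lw_mono p t V J J' hJ l y) hg hgg
  · exact wsum_nonneg _ _ (lw_nonneg p t V J l y) hg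
  · exact wsum_nonneg _ _ (upd_nonneg _ (lw_nonneg p t V J' l y) j _) hg'

end Pool.Agent.CUG
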