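import Pool.Agent.CUG.Defs
import Pool.Agent.CUB.PRF

set_option autoImplicit false

/-!
# CUG.CRA

Adapt CUB/CRA.lean (96 ↦ 8 al, 40 ↦ 8 be, 152 ↦ 8 ga; `M / N^2 = h^(-8 be)` by `P.hga`).
-/

namespace Pool.Agent.CUG

open Pool.Agent.CUB
open scoped Classical

/-- The count for one choice of the blocks. -/
theorem cr1_core {kp v : ℕ} (P : Prm) (h N M : ℕ) (hN : N = h ^ (8 * P.al)) (hM : M = h ^ (8 * P.ga))
    (h1 : 1 ≤ h)
    (pos : Fin v → Fin kp) (F : Finset (Fin v × Fin v)) (B : Finset (Fin v)) (ρ : Fin v → Fin N)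
    (a : ℕ) (hpos : PosD pos F)
    (ha : ∀ T : Finset (Fin v), T ⊆ B → 8 * P.al * T.card ≤ a + 8 * P.be * (tch F T).card)
    (U : Finset (Fin M)) (t : Fin M × Fin kp → Fin N) (C : Finset (Fin M × Fin kp))
    (hC : ∀ c, c ∈ C ↔ c.1 ∉ U)
    (lam : ↥F → Fin M) (hlam : Function.Injective lam)
    (Q : Finset ((Fin M × Fin kp → Fin N) × (Fin v → Fin N)))
    (hQ : ∀ p ∈ Q, (∀ c, c ∉ C → p.1 c = t c) ∧ (∀ i, i ∉ B → p.2 i = ρ i) ∧
      ∀ e : ↥F, p.1 (lam e, pos e.1.1) = p.2 e.1.1 ∧ p.1 (lam e, pos e.1.2) = p.2 e.1.2) :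
    Q.card * M ^ ((Finset.univ : Finset ↥F).filter fun e => lam e ∉ U).card
      ≤ h ^ a * N ^ C.card := by
  set K : Finset ↥F := (Finset.univ : Finset ↥F).filter fun e => lam e ∉ U with hK
  set D1 : Finset (Fin M × Fin kp) := K.image fun e => (lam e, pos e.1.1) with hD1
  set D2 : Finset (Fin M × Fin kp) := K.image fun e => (lam e, pos e.1.2) with hD2
  have hc1 : D1.card = K.card := by
    rw [hD1]
    apply Finset.card_image_of_injective
    intro e e' hee
    exact hlam (Prod.mk.inj hee).1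
  have hc2 : D2.card = K.card := by
    rw [hD2]
    apply Finset.card_image_of_injective
    intro e e' hee
    exact hlam (Prod.mk.inj hee).1
  have hdis : Disjoint D1 D2 := by
    rw [Finset.disjoint_left]
    intro c hc hc'
    rw [hD1, Finset.mem_image] at hc
    rw [hD2, Finset.mem_image] at hc'
    obtain ⟨e, -, rfl⟩ := hc
    obtain ⟨e', -, he'⟩ := hc'
    have h2 := Prod.mk.inj he'
    have h3 : e' = e := hlam h2.1
    subst h3
    exact hpos _ e'.2 h2.2.symm
  have hDC : D1 ∪ D2 ⊆ C := by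
    intro c hc
    rw [hC]
    rw [Finset.mem_union, hD1, hD2, Finset.mem_image, Finset.mem_image] at hc
    rcases hc with ⟨e, he, rfl⟩ | ⟨e, he, rfl⟩
    · rw [hK, Finset.mem_filter] at he; exact he.2
    · rw [hK, Finset.mem_filter] at he; exact he.2
  have hDcard : (D1 ∪ D2).card = 2 * K.card := by
    rw [Finset.card_union_of_disjoint hdis, hc1, hc2]; ring
  have hCcard : (C \ (D1 ∪ D2)).card + 2 * K.card = C.card := by
    rw [← hDcard]; exact Finset.card_sdiff_add_card_eq_card hDC
  set T : Finset (Fin v) := B.filter fun i => ∀ e : ↥F, lam e ∈ U → i ≠ e.1.1 ∧ i ≠ e.1.2 with hT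
  have hTB : T ⊆ B := Finset.filter_subset _ _
  have htch : (tch F T).card ≤ K.card := by
    have hsub : tch F T ⊆ K.image Subtype.val := by
      intro e he
      unfold tch at he
      rw [Finset.mem_filter] at he
      rw [Finset.mem_image]
      refine ⟨⟨e, he.1⟩, ?_, rfl⟩
      rw [hK, Finset.mem_filter]
      refine ⟨Finset.mem_univ _, ?_⟩
      intro hU
      rcases he.2 with h2 | h2
      · rw [hT, Finset.mem_filter] at h2
        exact (h2.2 ⟨e, he.1⟩ hU).1 rfl
      · rw [hT, Finset.mem_filter] at h2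
        exact (h2.2 ⟨e, he.1⟩ hU).2 rfl
    exact (Finset.card_le_card hsub).trans Finset.card_image_le
  have hQcard : Q.card ≤ N ^ (C \ (D1 ∪ D2)).card * N ^ T.card := by
    have h2 : Q.card ≤ (Finset.univ : Finset ((↥(C \ (D1 ∪ D2)) → Fin N) × (↥T → Fin N))).card := by
      apply Finset.card_le_card_of_injOn
        (fun p => ((fun c => p.1 c.1), (fun i => p.2 i.1)))
      · intro p _; exact Finset.mem_coe.2 (Finset.mem_univ _)
      · intro p hp q hq hpq
        have hp' := hQ p (Finset.mem_coe.1 hp)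
        have hq' := hQ q (Finset.mem_coe.1 hq)
        have e1 := (Prod.mk.inj hpq).1
        have e2 := (Prod.mk.inj hpq).2
        have hy : ∀ i, p.2 i = q.2 i := by
          intro i
          by_cases hiT : i ∈ T
          · exact congrFun e2 ⟨i, hiT⟩
          · by_cases hiB : i ∈ B
            · rw [hT, Finset.mem_filter, not_and] at hiT
              have h3 := hiT hiB
              push Not at h3
              obtain ⟨e, heU, he⟩ := h3
              have hcell : ∀ b, p.1 (lam e, b) = q.1 (lam e, b) := by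
                intro b
                have hnc : (lam e, b) ∉ C := by rw [hC]; exact not_not.2 heU
                rw [hp'.1 _ hnc, hq'.1 _ hnc]
              by_cases hi1 : i = e.1.1
              · rw [hi1, ← (hp'.2.2 e).1, ← (hq'.2.2 e).1]; exact hcell _
              · have hi2 := he hi1
                rw [hi2, ← (hp'.2.2 e).2, ← (hq'.2.2 e).2]; exact hcell _
            · rw [hp'.2.1 i hiB, hq'.2.1 i hiB]
        have ht : ∀ c, p.1 c = q.1 c := by
          intro c
          by_cases hcC : c ∈ C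
          · by_cases hcD : c ∈ D1 ∪ D2
            · rw [Finset.mem_union, hD1, hD2, Finset.mem_image, Finset.mem_image] at hcD
              rcases hcD with ⟨e, he, rfl⟩ | ⟨e, he, rfl⟩
              · rw [(hp'.2.2 e).1, (hq'.2.2 e).1]; exact hy _
              · rw [(hp'.2.2 e).2, (hq'.2.2 e).2]; exact hy _
            · exact congrFun e1 ⟨c, Finset.mem_sdiff.2 ⟨hcC, hcD⟩⟩
          · rw [hp'.1 c hcC, hq'.1 c hcC]
        exact Prod.ext (funext ht) (funext hy)
    refine h2.trans (le_of_eq ?_)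
    rw [Finset.card_univ, Fintype.card_prod, Fintype.card_fun, Fintype.card_fun, Fintype.card_fin,
      Fintype.card_coe, Fintype.card_coe]
  have hexp := ha T hTB
  have hNp : ∀ k : ℕ, N ^ k = h ^ (8 * P.al * k) := fun k => by rw [pow_mul, ← hN]
  have hMp : ∀ k : ℕ, M ^ k = h ^ (8 * P.ga * k) := fun k => by rw [pow_mul, ← hM]
  calc Q.card * M ^ K.card ≤ (N ^ (C \ (D1 ∪ D2)).card * N ^ T.card) * M ^ K.card :=
        Nat.mul_le_mul_right _ hQcard
    _ = h ^ (8 * P.al * (C \ (D1 ∪ D2)).card + 8 * P.al * T.card + 8 * P.ga * K.card) := by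
        rw [hNp, hNp, hMp, pow_add, pow_add]
    _ ≤ h ^ (a + 8 * P.al * C.card) := by
        apply Nat.pow_le_pow_right h1
        have e1 : 8 * P.be * (tch F T).card ≤ 8 * P.be * K.card := Nat.mul_le_mul_left _ htch
        have e2 : P.ga * K.card + P.be * K.card = P.al * (2 * K.card) := by
          rw [← add_mul, P.hga]; ring
        rw [← hCcard]
        have e3 : 8 * P.al * ((C \ (D1 ∪ D2)).card + 2 * K.card)
            = 8 * P.al * (C \ (D1 ∪ D2)).card + 8 * (P.al * (2 * K.card)) := by ring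
        have e4 : 8 * P.ga * K.card = 8 * (P.ga * K.card) := by ring
        have e5 : 8 * P.be * K.card = 8 * (P.be * K.card) := by ring
        rw [e3, e4]
        omega
    _ = h ^ a * N ^ C.card := by rw [hNp, pow_add]

/-- One-step estimate: given the blocks in `U`, the conditional expectation of the crude count. -/
theorem cr1 {kp v : ℕ} (P : Prm) (h N M : ℕ) (hN : N = h ^ (8 * P.al)) (hM : M = h ^ (8 * P.ga))
    (h1 : 1 ≤ h)
    (pos : Fin v → Fin kp) (F : Finset (Fin v × Fin v)) (B : Finset (Fin v)) (ρ : Fin v → Fin N)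
    (a : ℕ) (hpos : PosD pos F)
    (ha : ∀ T : Finset (Fin v), T ⊆ B → 8 * P.al * T.card ≤ a + 8 * P.be * (tch F T).card)
    (U : Finset (Fin M)) (t : Fin M × Fin kp → Fin N) :
    ∑ t' ∈ fib (fun _ => Finset.univ) (Finset.univ.filter fun c : Fin M × Fin kp => c.1 ∉ U) t,
        (Gcnt t' pos F B ρ : ℝ)
      ≤ (1 + (U.card : ℝ)) ^ F.card * (h : ℝ) ^ a *
        ((fib (fun _ => Finset.univ) (Finset.univ.filter fun c : Fin M × Fin kp => c.1 ∉ U) t).card
          : ℝ) := by
  set C : Finset (Fin M × Fin kp) := Finset.univ.filter fun c : Fin M × Fin kp => c.1 ∉ U with hCdef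
  have hC : ∀ c, c ∈ C ↔ c.1 ∉ U := by
    intro c; rw [hCdef, Finset.mem_filter]; simp
  set Om : Finset (Fin M × Fin kp → Fin N) := fib (fun _ => Finset.univ) C t with hOm
  have hOmem : ∀ t' ∈ Om, ∀ c, c ∉ C → t' c = t c := by
    intro t' ht' c hc
    rw [hOm, fib, Fintype.mem_piFinset] at ht'
    have h2 := ht' c
    rw [if_neg hc, Finset.mem_singleton] at h2
    exact h2
  have hOcard : Om.card = N ^ C.card := by
    rw [hOm, fib, Fintype.card_piFinset]
    have h2 : ∀ c : Fin M × Fin kp, (if c ∈ C then (Finset.univ : Finset (Fin N)) else {t c}).card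
        = if c ∈ C then N else 1 := by
      intro c
      split_ifs
      · rw [Finset.card_univ, Fintype.card_fin]
      · rw [Finset.card_singleton]
    rw [Finset.prod_congr rfl fun c _ => h2 c, Finset.prod_ite, Finset.prod_const_one, mul_one,
      Finset.prod_const]
    congr 2
    ext c
    simp
  have hMpos : (0 : ℝ) < (M : ℝ) := by
    rw [hM]; positivity
  -- the sum as a sum over the choice of blocks
  let PP : (Fin M × Fin kp → Fin N) → (Fin v → Fin N) → (↥F → Fin M) → Prop := fun t' y lam =>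
    (∀ i, i ∉ B → y i = ρ i) ∧ Function.Injective lam ∧
      ∀ e : ↥F, t' (lam e, pos e.1.1) = y e.1.1 ∧ t' (lam e, pos e.1.2) = y e.1.2
  have hG : ∀ t' : Fin M × Fin kp → Fin N, Gcnt t' pos F B ρ
      = ∑ lam : ↥F → Fin M, ∑ y : Fin v → Fin N, if PP t' y lam then 1 else 0 := by
    intro t'
    unfold Gcnt
    rw [Finset.card_filter, Fintype.sum_prod_type_right]
  have hsum : ∑ t' ∈ Om, Gcnt t' pos F B ρ
      = ∑ lam : ↥F → Fin M, ((Om ×ˢ (Finset.univ : Finset (Fin v → Fin N))).filter
          fun p => PP p.1 p.2 lam).card := by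
    rw [Finset.sum_congr rfl fun t' _ => hG t', Finset.sum_comm]
    apply Finset.sum_congr rfl
    intro lam _
    rw [Finset.card_filter, Finset.sum_product]
  have hbd : ∀ lam : ↥F → Fin M,
      (((Om ×ˢ (Finset.univ : Finset (Fin v → Fin N))).filter fun p => PP p.1 p.2 lam).card : ℝ)
        ≤ (h : ℝ) ^ a * (Om.card : ℝ) * ∏ e : ↥F, (if lam e ∈ U then (1 : ℝ) else (M : ℝ)⁻¹) := by
    intro lam
    have hprod : ∏ e : ↥F, (if lam e ∈ U then (1 : ℝ) else (M : ℝ)⁻¹)
        = ((M : ℝ) ^ ((Finset.univ : Finset ↥F).filter fun e => lam e ∉ U).card)⁻¹ := by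
      rw [Finset.prod_ite, Finset.prod_const_one, one_mul, Finset.prod_const, inv_pow]
    by_cases hl : Function.Injective lam
    · have hcore := cr1_core P h N M hN hM h1 pos F B ρ a hpos ha U t C hC lam hl
        ((Om ×ˢ (Finset.univ : Finset (Fin v → Fin N))).filter fun p => PP p.1 p.2 lam) (by
          intro p hp
          rw [Finset.mem_filter, Finset.mem_product] at hp
          exact ⟨hOmem p.1 hp.1.1, hp.2.1, hp.2.2.2⟩)
      rw [hprod, hOcard, ← div_eq_mul_inv, le_div_iff₀ (by positivity)]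
      exact_mod_cast hcore
    · have h0 : ((Om ×ˢ (Finset.univ : Finset (Fin v → Fin N))).filter
          fun p => PP p.1 p.2 lam) = ∅ := by
        rw [Finset.filter_eq_empty_iff]
        intro p _ hp
        exact hl hp.2.1
      rw [h0, Finset.card_empty, Nat.cast_zero, hprod]
      positivity
  have hUM : ∑ i : Fin M, (if i ∈ U then (1 : ℝ) else (M : ℝ)⁻¹) ≤ 1 + (U.card : ℝ) := by
    rw [Finset.sum_ite, Finset.sum_const, Finset.sum_const, nsmul_eq_mul, nsmul_eq_mul, mul_one]
    have h2 : ((Finset.univ : Finset (Fin M)).filter fun i => i ∈ U) = U := by ext; simp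
    have h3 : ((((Finset.univ : Finset (Fin M)).filter fun i => i ∉ U).card : ℕ) : ℝ) ≤ (M : ℝ) := by
      have := Finset.card_le_univ ((Finset.univ : Finset (Fin M)).filter fun i => i ∉ U)
      rw [Fintype.card_fin] at this
      exact_mod_cast this
    rw [h2]
    have h4 : ((((Finset.univ : Finset (Fin M)).filter fun i => i ∉ U).card : ℕ) : ℝ) * (M : ℝ)⁻¹
        ≤ 1 := by
      rw [← div_eq_mul_inv, div_le_one hMpos]; exact h3
    linarith
  have hUM0 : 0 ≤ ∑ i : Fin M, (if i ∈ U then (1 : ℝ) else (M : ℝ)⁻¹) := by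
    apply Finset.sum_nonneg
    intro i _
    split_ifs <;> positivity
  calc ∑ t' ∈ Om, (Gcnt t' pos F B ρ : ℝ) = ((∑ t' ∈ Om, Gcnt t' pos F B ρ : ℕ) : ℝ) := by
        push_cast; rfl
    _ = ∑ lam : ↥F → Fin M, (((Om ×ˢ (Finset.univ : Finset (Fin v → Fin N))).filter
          fun p => PP p.1 p.2 lam).card : ℝ) := by
        rw [hsum]; push_cast; rfl
    _ ≤ ∑ lam : ↥F → Fin M, (h : ℝ) ^ a * (Om.card : ℝ) *
          ∏ e : ↥F, (if lam e ∈ U then (1 : ℝ) else (M : ℝ)⁻¹) :=
        Finset.sum_le_sum fun lam _ => hbd lam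
    _ = (h : ℝ) ^ a * (Om.card : ℝ) *
          (∑ i : Fin M, (if i ∈ U then (1 : ℝ) else (M : ℝ)⁻¹)) ^ F.card := by
        rw [← Finset.mul_sum]
        congr 1
        have h5 := Finset.prod_univ_sum (fun _ : ↥F => (Finset.univ : Finset (Fin M)))
          (fun _ i => (if i ∈ U then (1 : ℝ) else (M : ℝ)⁻¹))
        rw [Finset.prod_const, Finset.card_univ, Fintype.card_coe] at h5
        rw [h5, Fintype.piFinset_univ]
    _ ≤ (h : ℝ) ^ a * (Om.card : ℝ) * (1 + (U.card : ℝ)) ^ F.card := by
        apply mul_le_mul_of_nonneg_left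
        · exact pow_le_pow_left₀ hUM0 hUM _
        · positivity
    _ = (1 + (U.card : ℝ)) ^ F.card * (h : ℝ) ^ a * (Om.card : ℝ) := by ring

end Pool.Agent.CUG
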