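import Pool.Agent.CUG.CRM

set_option autoImplicit false

/-!
# CUG.CRF

Union bound with the moment `r = 8 al v + 1`, adapted from CUB/CRF.lean.
-/

namespace Pool.Agent.CUG

open Pool.Agent.CUB
open scoped Classical

private noncomputable def CRF_K (P : Prm) (v : ℕ) : ℝ :=
  ((1 + ((8 * P.al * v + 1 : ℕ) : ℝ) * ((v * v : ℕ) : ℝ)) ^ (v * v)) ^ (8 * P.al * v + 1)

private theorem CRF_K_nonneg (P : Prm) (v : ℕ) : 0 ≤ CRF_K P v := by
  unfold CRF_K
  positivity

private theorem CRF_one {kp v : ℕ} (P : Prm) (h N M : ℕ) (hN : N = h ^ (8 * P.al)) (hM : M = h ^ (8 * P.ga)) (h1 : 1 ≤ h)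
    (pos : Fin v → Fin kp) (F : Finset (Fin v × Fin v)) (B : Finset (Fin v)) (ρ : Fin v → Fin N)
    (a : ℕ) :
    (((Finset.univ : Finset (Fin M × Fin kp → Fin N)).filter fun t =>
        (PosD pos F ∧ (∀ T : Finset (Fin v), T ⊆ B → 8 * P.al * T.card ≤ a + 8 * P.be * (tch F T).card)) ∧
          h ^ (a + 1) < Gcnt t pos F B ρ).card : ℝ)
      ≤ CRF_K P v / (h : ℝ) ^ (8 * P.al * v + 1) * (Fintype.card (Fin M × Fin kp → Fin N) : ℝ) := by
  have hh : (0 : ℝ) < (h : ℝ) := by exact_mod_cast h1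
  by_cases hp : PosD pos F ∧ ∀ T : Finset (Fin v), T ⊆ B → 8 * P.al * T.card ≤ a + 8 * P.be * (tch F T).card
  · set r : ℕ := 8 * P.al * v + 1 with hr
    set A := (Finset.univ : Finset (Fin M × Fin kp → Fin N)).filter fun t =>
        (PosD pos F ∧ (∀ T : Finset (Fin v), T ⊆ B → 8 * P.al * T.card ≤ a + 8 * P.be * (tch F T).card)) ∧
          h ^ (a + 1) < Gcnt t pos F B ρ with hA
    have hmom := crm P h N M hN hM h1 pos F B ρ a hp.1 hp.2 r
    have hlow : (A.card : ℝ) * (((h : ℝ) ^ (a + 1)) ^ r)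
        ≤ ∑ t : Fin M × Fin kp → Fin N, (Gcnt t pos F B ρ : ℝ) ^ r := by
      calc (A.card : ℝ) * (((h : ℝ) ^ (a + 1)) ^ r)
          = ∑ _t ∈ A, (((h : ℝ) ^ (a + 1)) ^ r) := by
            rw [Finset.sum_const, nsmul_eq_mul]
        _ ≤ ∑ t ∈ A, (Gcnt t pos F B ρ : ℝ) ^ r := by
            refine Finset.sum_le_sum fun t ht => ?_
            rw [hA, Finset.mem_filter] at ht
            have h2 : ((h : ℝ) ^ (a + 1)) ≤ (Gcnt t pos F B ρ : ℝ) := by
              exact_mod_cast ht.2.2.le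
            exact pow_le_pow_left₀ (by positivity) h2 r
        _ ≤ ∑ t : Fin M × Fin kp → Fin N, (Gcnt t pos F B ρ : ℝ) ^ r :=
            Finset.sum_le_sum_of_subset_of_nonneg (Finset.subset_univ _)
              fun t _ _ => by positivity
    have hFc : F.card ≤ v * v := by
      have := Finset.card_le_univ F
      simpa [Fintype.card_prod, Fintype.card_fin] using this
    have hK : (1 + (r : ℝ) * (F.card : ℝ)) ^ F.card
        ≤ (1 + ((8 * P.al * v + 1 : ℕ) : ℝ) * ((v * v : ℕ) : ℝ)) ^ (v * v) := by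
      have hFc' : (F.card : ℝ) ≤ ((v * v : ℕ) : ℝ) := by exact_mod_cast hFc
      have hb : (1 + (r : ℝ) * (F.card : ℝ)) ≤ (1 + ((8 * P.al * v + 1 : ℕ) : ℝ) * ((v * v : ℕ) : ℝ)) := by
        have hr0 : (0 : ℝ) ≤ (r : ℝ) := Nat.cast_nonneg _
        have := mul_le_mul_of_nonneg_left hFc' hr0
        rw [hr] at this ⊢
        linarith
      have h10 : (1 : ℝ) ≤ (1 + ((8 * P.al * v + 1 : ℕ) : ℝ) * ((v * v : ℕ) : ℝ)) := by
        have : (0 : ℝ) ≤ ((8 * P.al * v + 1 : ℕ) : ℝ) * ((v * v : ℕ) : ℝ) := by positivity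
        linarith
      calc (1 + (r : ℝ) * (F.card : ℝ)) ^ F.card
          ≤ (1 + ((8 * P.al * v + 1 : ℕ) : ℝ) * ((v * v : ℕ) : ℝ)) ^ F.card :=
            pow_le_pow_left₀ (by positivity) hb _
        _ ≤ (1 + ((8 * P.al * v + 1 : ℕ) : ℝ) * ((v * v : ℕ) : ℝ)) ^ (v * v) :=
            pow_le_pow_right₀ h10 hFc
    have hc0 : (0 : ℝ) ≤ (Fintype.card (Fin M × Fin kp → Fin N) : ℝ) := Nat.cast_nonneg _
    have hup : ((1 + (r : ℝ) * (F.card : ℝ)) ^ F.card * (h : ℝ) ^ a) ^ r *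
        (Fintype.card (Fin M × Fin kp → Fin N) : ℝ)
        ≤ (CRF_K P v * ((h : ℝ) ^ a) ^ r) * (Fintype.card (Fin M × Fin kp → Fin N) : ℝ) := by
      apply mul_le_mul_of_nonneg_right _ hc0
      rw [mul_pow]
      apply mul_le_mul_of_nonneg_right _ (by positivity)
      unfold CRF_K
      exact pow_le_pow_left₀ (by positivity) hK r
    have hall : (A.card : ℝ) * (((h : ℝ) ^ (a + 1)) ^ r)
        ≤ (CRF_K P v * ((h : ℝ) ^ a) ^ r) * (Fintype.card (Fin M × Fin kp → Fin N) : ℝ) :=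
      (hlow.trans hmom).trans hup
    have hpos1 : (0 : ℝ) < ((h : ℝ) ^ a) ^ r := by positivity
    have hpos2 : (0 : ℝ) < (h : ℝ) ^ r := by positivity
    have he : ((h : ℝ) ^ (a + 1)) ^ r = ((h : ℝ) ^ a) ^ r * (h : ℝ) ^ r := by
      rw [← mul_pow]
      congr 1
    rw [he] at hall
    have hfin : (A.card : ℝ) * (h : ℝ) ^ r
        ≤ CRF_K P v * (Fintype.card (Fin M × Fin kp → Fin N) : ℝ) := by
      have h3 : ((h : ℝ) ^ a) ^ r * ((A.card : ℝ) * (h : ℝ) ^ r)
          ≤ ((h : ℝ) ^ a) ^ r * (CRF_K P v * (Fintype.card (Fin M × Fin kp → Fin N) : ℝ)) := by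
        calc ((h : ℝ) ^ a) ^ r * ((A.card : ℝ) * (h : ℝ) ^ r)
            = (A.card : ℝ) * (((h : ℝ) ^ a) ^ r * (h : ℝ) ^ r) := by ring
          _ ≤ _ := hall
          _ = ((h : ℝ) ^ a) ^ r * (CRF_K P v * (Fintype.card (Fin M × Fin kp → Fin N) : ℝ)) := by ring
      exact le_of_mul_le_mul_left h3 hpos1
    rw [div_mul_eq_mul_div, le_div_iff₀ hpos2]
    exact hfin
  · have hemp : ((Finset.univ : Finset (Fin M × Fin kp → Fin N)).filter fun t =>
        (PosD pos F ∧ (∀ T : Finset (Fin v), T ⊆ B → 8 * P.al * T.card ≤ a + 8 * P.be * (tch F T).card)) ∧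
          h ^ (a + 1) < Gcnt t pos F B ρ) = ∅ := by
      rw [Finset.filter_eq_empty_iff]
      intro t _ ht
      exact hp ht.1
    rw [hemp]
    have := CRF_K_nonneg P v
    simp only [Finset.card_empty, Nat.cast_zero]
    positivity

/-- All crude bounds hold for most configurations. -/
theorem crf {kp : ℕ} (P : Prm) (v : ℕ) (pos : Fin v → Fin kp) (δ : ℝ) (hδ : 0 < δ) :
    ∃ h₀ : ℕ, ∀ h ≥ h₀, ∀ N M : ℕ, N = h ^ (8 * P.al) → M = h ^ (8 * P.ga) →
      (((Finset.univ : Finset (Fin M × Fin kp → Fin N)).filter fun t => ¬ CR P h t pos).card : ℝ)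
        ≤ δ * (Fintype.card (Fin M × Fin kp → Fin N) : ℝ) := by
  set C0 : ℝ := (Fintype.card (Finset (Fin v × Fin v)) : ℝ) * ((Fintype.card (Finset (Fin v)) : ℝ) *
    (((8 * P.al * v + 1 : ℕ) : ℝ) * CRF_K P v)) with hC0
  have hC0n : 0 ≤ C0 := by
    have := CRF_K_nonneg P v
    rw [hC0]
    positivity
  obtain ⟨h₀, hh₀⟩ := exists_nat_gt (C0 / δ)
  refine ⟨max h₀ 1, ?_⟩
  intro h hh N M hN hM
  have h1 : 1 ≤ h := le_trans (le_max_right _ _) hh
  have h0 : h₀ ≤ h := le_trans (le_max_left _ _) hh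
  have hhp : (0 : ℝ) < (h : ℝ) := by exact_mod_cast h1
  have hC : C0 / (h : ℝ) ≤ δ := by
    rw [div_le_iff₀ hhp]
    rw [div_lt_iff₀ hδ] at hh₀
    have : (h₀ : ℝ) ≤ (h : ℝ) := by exact_mod_cast h0
    nlinarith
  set A : Finset (Fin v × Fin v) × Finset (Fin v) × (Fin v → Fin N) × Fin (8 * P.al * v + 1) →
      Finset (Fin M × Fin kp → Fin N) := fun x =>
    (Finset.univ : Finset (Fin M × Fin kp → Fin N)).filter fun t =>
        (PosD pos x.1 ∧ (∀ T : Finset (Fin v), T ⊆ x.2.1 →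
          8 * P.al * T.card ≤ (x.2.2.2 : ℕ) + 8 * P.be * (tch x.1 T).card)) ∧
          h ^ ((x.2.2.2 : ℕ) + 1) < Gcnt t pos x.1 x.2.1 x.2.2.1 with hA
  have hsub : ((Finset.univ : Finset (Fin M × Fin kp → Fin N)).filter fun t => ¬ CR P h t pos)
      ⊆ (Finset.univ : Finset (Finset (Fin v × Fin v) × Finset (Fin v) × (Fin v → Fin N) ×
        Fin (8 * P.al * v + 1))).biUnion A := by
    intro t ht
    rw [Finset.mem_filter] at ht
    have hn := ht.2
    unfold CR at hn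
    push Not at hn
    obtain ⟨F, B, ρ, a, hpos, hadm, hbig⟩ := hn
    rw [Finset.mem_biUnion]
    by_cases ha : a < 8 * P.al * v + 1
    · refine ⟨(F, B, ρ, ⟨a, ha⟩), Finset.mem_univ _, ?_⟩
      simp only [hA]
      rw [Finset.mem_filter]
      exact ⟨Finset.mem_univ _, ⟨hpos, hadm⟩, hbig⟩
    · refine ⟨(F, B, ρ, ⟨8 * P.al * v, by omega⟩), Finset.mem_univ _, ?_⟩
      simp only [hA]
      rw [Finset.mem_filter]
      refine ⟨Finset.mem_univ _, ⟨hpos, ?_⟩, ?_⟩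
      · intro T _
        have : T.card ≤ v := by
          have := Finset.card_le_univ T
          simpa using this
        have h2 : 8 * P.al * T.card ≤ 8 * P.al * v := Nat.mul_le_mul_left _ this
        exact h2.trans (Nat.le_add_right _ _)
      · refine lt_of_le_of_lt ?_ hbig
        exact Nat.pow_le_pow_right h1 (by omega)
  have hterm : ∀ x, ((A x).card : ℝ)
      ≤ CRF_K P v / (h : ℝ) ^ (8 * P.al * v + 1) * (Fintype.card (Fin M × Fin kp → Fin N) : ℝ) := by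
    intro x
    exact CRF_one P h N M hN hM h1 pos x.1 x.2.1 x.2.2.1 (x.2.2.2 : ℕ)
  have hc0 : (0 : ℝ) ≤ (Fintype.card (Fin M × Fin kp → Fin N) : ℝ) := Nat.cast_nonneg _
  have hcard : (((Finset.univ : Finset (Finset (Fin v × Fin v) × Finset (Fin v) ×
      (Fin v → Fin N) × Fin (8 * P.al * v + 1))).card : ℕ) : ℝ) *
      (CRF_K P v / (h : ℝ) ^ (8 * P.al * v + 1)) = C0 / (h : ℝ) := by
    rw [Finset.card_univ, Fintype.card_prod, Fintype.card_prod, Fintype.card_prod,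
      Fintype.card_fun, Fintype.card_fin, Fintype.card_fin, Fintype.card_fin, hN, hC0]
    push_cast
    have hne : (h : ℝ) ≠ 0 := hhp.ne'
    have e1 : (((h : ℝ) ^ (8 * P.al)) ^ v) = (h : ℝ) ^ (8 * P.al * v) := by rw [← pow_mul]
    rw [e1, pow_succ]
    field_simp
  calc (((Finset.univ : Finset (Fin M × Fin kp → Fin N)).filter fun t => ¬ CR P h t pos).card : ℝ)
      ≤ (((Finset.univ : Finset (Finset (Fin v × Fin v) × Finset (Fin v) × (Fin v → Fin N) ×
        Fin (8 * P.al * v + 1))).biUnion A).card : ℝ) := by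
        exact_mod_cast Finset.card_le_card hsub
    _ ≤ ∑ x, ((A x).card : ℝ) := by
        exact_mod_cast Finset.card_biUnion_le
    _ ≤ ∑ _x : Finset (Fin v × Fin v) × Finset (Fin v) × (Fin v → Fin N) × Fin (8 * P.al * v + 1),
        CRF_K P v / (h : ℝ) ^ (8 * P.al * v + 1) * (Fintype.card (Fin M × Fin kp → Fin N) : ℝ) :=
        Finset.sum_le_sum fun x _ => hterm x
    _ = (C0 / (h : ℝ)) * (Fintype.card (Fin M × Fin kp → Fin N) : ℝ) := by
        rw [Finset.sum_const, nsmul_eq_mul, ← hcard]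
        ring
    _ ≤ δ * (Fintype.card (Fin M × Fin kp → Fin N) : ℝ) := mul_le_mul_of_nonneg_right hC hc0

end Pool.Agent.CUG
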