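import Pool.Agent.CUG.CRA

set_option autoImplicit false

/-!
# CUG.CRM

Moments of the crude rooted count.
-/

namespace Pool.Agent.CUG

open Pool.Agent.CUB
open scoped Classical

private def CRM_cons {kp v N M : ℕ} (t : Fin M × Fin kp → Fin N) (pos : Fin v → Fin kp)
    (F : Finset (Fin v × Fin v)) (B : Finset (Fin v)) (ρ : Fin v → Fin N)
    (p : (Fin v → Fin N) × (↥F → Fin M)) : Prop :=
  (∀ i, i ∉ B → p.1 i = ρ i) ∧ Function.Injective p.2 ∧
      ∀ e : ↥F, t (p.2 e, pos e.1.1) = p.1 e.1.1 ∧ t (p.2 e, pos e.1.2) = p.1 e.1.2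

private noncomputable def CRM_f {kp v N M : ℕ} (pos : Fin v → Fin kp)
    (F : Finset (Fin v × Fin v)) (B : Finset (Fin v)) (ρ : Fin v → Fin N)
    (t : Fin M × Fin kp → Fin N) (p : (Fin v → Fin N) × (↥F → Fin M)) : ℝ :=
  if CRM_cons t pos F B ρ p then 1 else 0

private theorem CRM_G {kp v N M : ℕ} (t : Fin M × Fin kp → Fin N) (pos : Fin v → Fin kp)
    (F : Finset (Fin v × Fin v)) (B : Finset (Fin v)) (ρ : Fin v → Fin N) :
    (Gcnt t pos F B ρ : ℝ) = ∑ p, CRM_f pos F B ρ t p := by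
  unfold Gcnt CRM_f
  rw [Finset.card_filter]
  push_cast
  refine Finset.sum_congr rfl fun p _ => ?_
  unfold CRM_cons
  congr

private theorem CRM_f_nonneg {kp v N M : ℕ} (t : Fin M × Fin kp → Fin N) (pos : Fin v → Fin kp)
    (F : Finset (Fin v × Fin v)) (B : Finset (Fin v)) (ρ : Fin v → Fin N)
    (p : (Fin v → Fin N) × (↥F → Fin M)) : 0 ≤ CRM_f pos F B ρ t p := by
  unfold CRM_f
  split_ifs <;> norm_num

private theorem CRM_f_eq {kp v N M : ℕ} (t t' : Fin M × Fin kp → Fin N) (pos : Fin v → Fin kp)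
    (F : Finset (Fin v × Fin v)) (B : Finset (Fin v)) (ρ : Fin v → Fin N)
    (p : (Fin v → Fin N) × (↥F → Fin M)) (h : ∀ e a, t' (p.2 e, a) = t (p.2 e, a)) :
    CRM_f pos F B ρ t' p = CRM_f pos F B ρ t p := by
  have hiff : CRM_cons t' pos F B ρ p ↔ CRM_cons t pos F B ρ p := by
    unfold CRM_cons
    simp only [h]
  unfold CRM_f
  exact if_congr hiff rfl rfl

private theorem CRM_step {kp v : ℕ} (P : Prm) (h N M : ℕ) (hN : N = h ^ (8 * P.al))
    (hM : M = h ^ (8 * P.ga)) (h1 : 1 ≤ h)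
    (pos : Fin v → Fin kp) (F : Finset (Fin v × Fin v)) (B : Finset (Fin v)) (ρ : Fin v → Fin N)
    (a : ℕ) (hpos : PosD pos F)
    (ha : ∀ T : Finset (Fin v), T ⊆ B → 8 * P.al * T.card ≤ a + 8 * P.be * (tch F T).card) (R r : ℕ)
    (hr : r ≤ R) (q : Fin r → (Fin v → Fin N) × (↥F → Fin M)) :
    ∑ t : Fin M × Fin kp → Fin N, (∏ i, CRM_f pos F B ρ t (q i)) * (Gcnt t pos F B ρ : ℝ)
      ≤ ((1 + (R : ℝ) * (F.card : ℝ)) ^ F.card * (h : ℝ) ^ a) *
        ∑ t : Fin M × Fin kp → Fin N, ∏ i, CRM_f pos F B ρ t (q i) := by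
  have hU : ∃ U : Finset (Fin M), (U.card : ℝ) ≤ (R : ℝ) * (F.card : ℝ) ∧
      ∀ i e, (q i).2 e ∈ U := by
    refine ⟨Finset.univ.biUnion fun i => Finset.univ.image (q i).2, ?_, ?_⟩
    · have h2 : (Finset.univ.biUnion fun i => Finset.univ.image (q i).2).card ≤ r * F.card := by
        refine Finset.card_biUnion_le.trans ?_
        calc ∑ i : Fin r, (Finset.univ.image (q i).2).card
            ≤ ∑ _i : Fin r, F.card := by
              refine Finset.sum_le_sum fun i _ => ?_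
              refine Finset.card_image_le.trans ?_
              rw [Finset.card_univ, Fintype.card_coe]
          _ = r * F.card := by simp
      have h3 : (Finset.univ.biUnion fun i => Finset.univ.image (q i).2).card ≤ R * F.card :=
        h2.trans (Nat.mul_le_mul_right _ hr)
      exact_mod_cast h3
    · intro i e
      rw [Finset.mem_biUnion]
      exact ⟨i, Finset.mem_univ _, Finset.mem_image_of_mem _ (Finset.mem_univ _)⟩
  obtain ⟨U, hUc, hUm⟩ := hU
  have key := prf_sum (N := N) (fun _ : Fin M × Fin kp => Finset.univ)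
    (Finset.univ.filter fun c : Fin M × Fin kp => c.1 ∉ U)
    (fun t => (∏ i, CRM_f pos F B ρ t (q i)) * (Gcnt t pos F B ρ : ℝ))
    (fun t => ∏ i, CRM_f pos F B ρ t (q i))
    ((1 + (R : ℝ) * (F.card : ℝ)) ^ F.card * (h : ℝ) ^ a) ?_
  · rw [Fintype.piFinset_univ] at key
    exact key
  intro t _
  have hagree : ∀ t' ∈ fib (fun _ => Finset.univ)
      (Finset.univ.filter fun c : Fin M × Fin kp => c.1 ∉ U) t,
      ∏ i, CRM_f pos F B ρ t' (q i) = ∏ i, CRM_f pos F B ρ t (q i) := by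
    intro t' ht'
    refine Finset.prod_congr rfl fun i _ => ?_
    refine CRM_f_eq t t' pos F B ρ (q i) fun e b => ?_
    unfold fib at ht'
    rw [Fintype.mem_piFinset] at ht'
    have := ht' ((q i).2 e, b)
    rw [if_neg] at this
    · exact Finset.mem_singleton.1 this
    · rw [Finset.mem_filter]
      intro hc
      exact hc.2 (hUm i e)
  rw [Finset.sum_congr rfl fun t' ht' => by rw [hagree t' ht']]
  rw [Finset.sum_congr (g := fun _ => ∏ i, CRM_f pos F B ρ t (q i)) rfl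
    fun t' ht' => hagree t' ht']
  rw [← Finset.mul_sum, Finset.sum_const, nsmul_eq_mul]
  have hw : 0 ≤ ∏ i, CRM_f pos F B ρ t (q i) :=
    Finset.prod_nonneg fun i _ => CRM_f_nonneg t pos F B ρ (q i)
  have hcr := cr1 P h N M hN hM h1 pos F B ρ a hpos ha U t
  have hpow : (1 + (U.card : ℝ)) ^ F.card ≤ (1 + (R : ℝ) * (F.card : ℝ)) ^ F.card :=
    pow_le_pow_left₀ (by positivity) (by linarith) _
  calc (∏ i, CRM_f pos F B ρ t (q i)) *
        ∑ t' ∈ fib (fun _ => Finset.univ) (Finset.univ.filter fun c : Fin M × Fin kp => c.1 ∉ U) t,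
          (Gcnt t' pos F B ρ : ℝ)
      ≤ (∏ i, CRM_f pos F B ρ t (q i)) * ((1 + (U.card : ℝ)) ^ F.card * (h : ℝ) ^ a *
        ((fib (fun _ => Finset.univ) (Finset.univ.filter fun c : Fin M × Fin kp => c.1 ∉ U) t).card
          : ℝ)) := mul_le_mul_of_nonneg_left hcr hw
    _ ≤ (∏ i, CRM_f pos F B ρ t (q i)) * ((1 + (R : ℝ) * (F.card : ℝ)) ^ F.card * (h : ℝ) ^ a *
        ((fib (fun _ => Finset.univ) (Finset.univ.filter fun c : Fin M × Fin kp => c.1 ∉ U) t).card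
          : ℝ)) := by
        refine mul_le_mul_of_nonneg_left ?_ hw
        refine mul_le_mul_of_nonneg_right ?_ (by positivity)
        exact mul_le_mul_of_nonneg_right hpow (by positivity)
    _ = _ := by ring

private theorem CRM_main {kp v : ℕ} (P : Prm) (h N M : ℕ) (hN : N = h ^ (8 * P.al))
    (hM : M = h ^ (8 * P.ga)) (h1 : 1 ≤ h)
    (pos : Fin v → Fin kp) (F : Finset (Fin v × Fin v)) (B : Finset (Fin v)) (ρ : Fin v → Fin N)
    (a : ℕ) (hpos : PosD pos F)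
    (ha : ∀ T : Finset (Fin v), T ⊆ B → 8 * P.al * T.card ≤ a + 8 * P.be * (tch F T).card) (R : ℕ) :
    ∀ r : ℕ, r ≤ R → ∑ t : Fin M × Fin kp → Fin N, (Gcnt t pos F B ρ : ℝ) ^ r
      ≤ ((1 + (R : ℝ) * (F.card : ℝ)) ^ F.card * (h : ℝ) ^ a) ^ r *
        (Fintype.card (Fin M × Fin kp → Fin N) : ℝ) := by
  intro r
  induction r with
  | zero =>
    intro _
    simp
  | succ r ih =>
    intro hr
    have hr' : r ≤ R := by omega
    have e1 : ∀ t : Fin M × Fin kp → Fin N, (Gcnt t pos F B ρ : ℝ) ^ r =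
        ∑ q : Fin r → (Fin v → Fin N) × (↥F → Fin M), ∏ i, CRM_f pos F B ρ t (q i) := by
      intro t
      rw [CRM_G, Fintype.sum_pow]
    have e2 : ∑ t : Fin M × Fin kp → Fin N, (Gcnt t pos F B ρ : ℝ) ^ (r + 1) =
        ∑ q : Fin r → (Fin v → Fin N) × (↥F → Fin M), ∑ t : Fin M × Fin kp → Fin N,
          (∏ i, CRM_f pos F B ρ t (q i)) * (Gcnt t pos F B ρ : ℝ) := by
      rw [Finset.sum_comm]
      refine Finset.sum_congr rfl fun t _ => ?_
      rw [pow_succ, e1 t, Finset.sum_mul]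
    have e3 : ∑ q : Fin r → (Fin v → Fin N) × (↥F → Fin M), ∑ t : Fin M × Fin kp → Fin N,
          (∏ i, CRM_f pos F B ρ t (q i)) =
        ∑ t : Fin M × Fin kp → Fin N, (Gcnt t pos F B ρ : ℝ) ^ r := by
      rw [Finset.sum_comm]
      exact Finset.sum_congr rfl fun t _ => (e1 t).symm
    have hc : 0 ≤ (1 + (R : ℝ) * (F.card : ℝ)) ^ F.card * (h : ℝ) ^ a := by positivity
    rw [e2]
    calc ∑ q : Fin r → (Fin v → Fin N) × (↥F → Fin M), ∑ t : Fin M × Fin kp → Fin N,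
          (∏ i, CRM_f pos F B ρ t (q i)) * (Gcnt t pos F B ρ : ℝ)
        ≤ ∑ q : Fin r → (Fin v → Fin N) × (↥F → Fin M),
          ((1 + (R : ℝ) * (F.card : ℝ)) ^ F.card * (h : ℝ) ^ a) *
            ∑ t : Fin M × Fin kp → Fin N, (∏ i, CRM_f pos F B ρ t (q i)) :=
          Finset.sum_le_sum fun q _ =>
            CRM_step P h N M hN hM h1 pos F B ρ a hpos ha R r hr' q
      _ = ((1 + (R : ℝ) * (F.card : ℝ)) ^ F.card * (h : ℝ) ^ a) *
          ∑ t : Fin M × Fin kp → Fin N, (Gcnt t pos F B ρ : ℝ) ^ r := by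
          rw [← Finset.mul_sum, e3]
      _ ≤ ((1 + (R : ℝ) * (F.card : ℝ)) ^ F.card * (h : ℝ) ^ a) *
          (((1 + (R : ℝ) * (F.card : ℝ)) ^ F.card * (h : ℝ) ^ a) ^ r *
            (Fintype.card (Fin M × Fin kp → Fin N) : ℝ)) :=
          mul_le_mul_of_nonneg_left (ih hr') hc
      _ = _ := by rw [pow_succ]; ring

/-- Moments of the crude count. -/
theorem crm {kp v : ℕ} (P : Prm) (h N M : ℕ) (hN : N = h ^ (8 * P.al))
    (hM : M = h ^ (8 * P.ga)) (h1 : 1 ≤ h)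
    (pos : Fin v → Fin kp) (F : Finset (Fin v × Fin v)) (B : Finset (Fin v)) (ρ : Fin v → Fin N)
    (a : ℕ) (hpos : PosD pos F)
    (ha : ∀ T : Finset (Fin v), T ⊆ B → 8 * P.al * T.card ≤ a + 8 * P.be * (tch F T).card) (r : ℕ) :
    ∑ t : Fin M × Fin kp → Fin N, (Gcnt t pos F B ρ : ℝ) ^ r
      ≤ ((1 + (r : ℝ) * (F.card : ℝ)) ^ F.card * (h : ℝ) ^ a) ^ r *
        (Fintype.card (Fin M × Fin kp → Fin N) : ℝ) :=
  CRM_main P h N M hN hM h1 pos F B ρ a hpos ha r r le_rfl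

end Pool.Agent.CUG
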