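import Pool.Agent.CUG.Defs

set_option autoImplicit false

/-!
# CUG.CST

Choice of the constants stage by stage.
-/

namespace Pool.Agent.CUG

open Pool.Agent.CUB
open scoped Classical

/-- Choice of the constants stage by stage. -/
theorem cst (Q : ℝ → ℝ → ℝ → Prop)
    (hQ : ∀ ε₄ : ℝ, 0 < ε₄ → ∃ c : ℝ, 0 < c ∧ ∃ εin : ℝ, 0 < εin ∧ Q ε₄ c εin)
    (hanti : ∀ ε₄ c εin εin' : ℝ, 0 < εin' → εin' ≤ εin → Q ε₄ c εin → Q ε₄ c εin')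
    (J Ds : ℕ) (A : ℝ) (hA : 0 ≤ A) :
    ∃ (c ε₄ Km : ℕ → ℝ) (εin : ℝ), 0 < εin ∧ (∀ s, 0 < c s) ∧ (∀ s, 0 < ε₄ s) ∧
      (∀ s, 1 ≤ Km s) ∧ Monotone Km ∧ (∀ s, 2 * (J : ℝ) * max 4 (A / c s) ≤ Km (s + 1)) ∧
      (∀ s ≤ Ds, Km s ^ J * ε₄ s < 1) ∧ ∀ s ≤ Ds, Q (ε₄ s) (c s) εin := by
  have h1 : ∀ ε₄ : ℝ, ∃ c e : ℝ, 0 < ε₄ → (0 < c ∧ 0 < e ∧ Q ε₄ c e) := by
    intro ε₄
    by_cases h : 0 < ε₄
    · obtain ⟨c, hc, e, he, hq⟩ := hQ ε₄ h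
      exact ⟨c, e, fun _ => ⟨hc, he, hq⟩⟩
    · exact ⟨0, 0, fun h' => absurd h' h⟩
  choose fc fe hf using h1
  obtain ⟨Km, hK0, hKs⟩ : ∃ Km : ℕ → ℝ, Km 0 = 1 ∧
      ∀ s, Km (s + 1) = max (Km s) (2 * (J : ℝ) * max 4 (A / fc (1 / (2 * Km s ^ J)))) :=
    ⟨fun s => Nat.rec 1
      (fun _ K => max K (2 * (J : ℝ) * max 4 (A / fc (1 / (2 * K ^ J))))) s, rfl, fun s => rfl⟩
  have hK1 : ∀ s, 1 ≤ Km s := by
    intro s
    induction s with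
    | zero => rw [hK0]
    | succ s ih => rw [hKs]; exact ih.trans (le_max_left _ _)
  have hKp : ∀ s, 0 < Km s ^ J := fun s => pow_pos (lt_of_lt_of_le one_pos (hK1 s)) J
  have he : ∀ s, 0 < 1 / (2 * Km s ^ J) := fun s => by
    have := hKp s
    positivity
  obtain ⟨s0, -, hs0⟩ := Finset.exists_min_image (Finset.range (Ds + 1))
    (fun s => fe (1 / (2 * Km s ^ J))) ⟨0, by simp⟩
  refine ⟨fun s => fc (1 / (2 * Km s ^ J)), fun s => 1 / (2 * Km s ^ J), Km,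
    fe (1 / (2 * Km s0 ^ J)), (hf _ (he s0)).2.1, fun s => (hf _ (he s)).1, he, hK1,
    monotone_nat_of_le_succ (fun s => ?_), fun s => ?_, fun s _ => ?_, fun s hs => ?_⟩
  · rw [hKs]; exact le_max_left _ _
  · rw [hKs]; exact le_max_right _ _
  · have h2 := hKp s
    have h3 : Km s ^ J * (1 / (2 * Km s ^ J)) = 1 / 2 := by
      field_simp
    simp only [h3]
    norm_num
  · refine hanti _ _ _ _ (hf _ (he s0)).2.1 ?_ (hf _ (he s)).2.2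
    exact hs0 s (by simp; omega)

end Pool.Agent.CUG
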