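import Pool.Agent.CUG.Defs

set_option autoImplicit false

/-!
# CUG.EBD

Edge counts in graphs of maximum degree `dd + 1`: `ebd` (sets with at least three vertices), `inn_even`,
`inn_out_le`, and the counts for connected sets `cq_sub`, `cq_full`, `cq_cyc`.
-/

namespace Pool.Agent.CUG

open Pool.Agent.CUB
open scoped Classical

/-- Sum of the degrees over `S`. -/
theorem EBD_deg {X : Type} [Fintype X] (dd : ℕ) (H : SimpleGraph X)
    (hdeg : ∀ x, (H.neighborSet x).ncard ≤ dd + 1) (S : Finset X) :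
    (Finset.univ.filter fun p : X × X => p.1 ∈ S ∧ H.Adj p.1 p.2).card ≤ (dd + 1) * S.card := by
  refine Finset.card_le_mul_card_image_of_maps_to (f := Prod.fst) ?_ _ ?_
  · intro p hp
    exact (Finset.mem_filter.1 hp).2.1
  · intro x _
    refine le_trans ?_ (hdeg x)
    rw [← Set.ncard_coe_finset]
    refine Set.ncard_le_ncard_of_injOn Prod.snd ?_ ?_ (Set.toFinite _)
    · intro p hp
      rw [Finset.mem_coe, Finset.mem_filter, Finset.mem_filter] at hp
      obtain ⟨⟨-, -, h⟩, h'⟩ := hp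
      rw [h'] at h
      exact h
    · intro p hp p' hp' h
      rw [Finset.mem_coe, Finset.mem_filter] at hp hp'
      exact Prod.ext (hp.2.trans hp'.2.symm) h

/-- Splitting the degrees into three kinds of neighbours. -/
theorem EBD_three {X : Type} [Fintype X] (dd : ℕ) (H : SimpleGraph X)
    (hdeg : ∀ x, (H.neighborSet x).ncard ≤ dd + 1) (Q S : Finset X) (hS : S ⊆ Q) :
    inn H S + (Finset.univ.filter fun p : X × X => p.1 ∈ S ∧ p.2 ∈ Q ∧ p.2 ∉ S ∧
      H.Adj p.1 p.2).card + out H Q S ≤ (dd + 1) * S.card := by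
  refine le_trans ?_ (EBD_deg dd H hdeg S)
  unfold inn out
  rw [Finset.card_filter, Finset.card_filter, Finset.card_filter, Finset.card_filter,
    ← Finset.sum_add_distrib, ← Finset.sum_add_distrib]
  refine Finset.sum_le_sum fun p _ => ?_
  by_cases h1 : p.1 ∈ S
  · by_cases h2 : H.Adj p.1 p.2
    · by_cases h3 : p.2 ∈ S
      · simp [h1, h2, h3, hS h3]
      · by_cases h4 : p.2 ∈ Q
        · simp [h1, h2, h3, h4]
        · simp [h1, h2, h3, h4]
    · simp [h1, h2]
  · simp [h1]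

/-- Every vertex of a connected set has a neighbour closer to the root. -/
theorem EBD_closer {X : Type} (H : SimpleGraph X) (Q : Finset X)
    (hQ : (H.induce (Q : Set X)).Connected) (r : X) (hr : r ∈ Q) :
    ∃ d : X → ℕ, ∀ u ∈ Q, u ≠ r → ∃ y ∈ Q, H.Adj u y ∧ d y < d u := by
  refine ⟨fun x => if h : x ∈ Q then (H.induce (Q : Set X)).dist ⟨x, h⟩ ⟨r, hr⟩ else 0, ?_⟩
  intro u hu hur
  obtain ⟨p, hp⟩ := hQ.exists_walk_length_eq_dist ⟨u, hu⟩ ⟨r, hr⟩
  cases p with
  | nil => exact absurd rfl hur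
  | @cons _ y _ h q =>
    refine ⟨y.1, y.2, h, ?_⟩
    have hy : (y.1 : X) ∈ Q := y.2
    beta_reduce
    rw [dif_pos hy, dif_pos hu, ← hp, SimpleGraph.Walk.length_cons]
    have := SimpleGraph.dist_le q
    exact Nat.lt_succ_of_le this

/-- Number of edges inside `Q` touching `S`. -/
theorem EBD_key {X : Type} [Fintype X] (H : SimpleGraph X) (Q S : Finset X)
    (hQ : (H.induce (Q : Set X)).Connected) (hS : S ⊆ Q) (r : X) (hr : r ∈ Q) :
    2 * (S.erase r).card ≤ inn H S + 2 * (Finset.univ.filter fun p : X × X => p.1 ∈ S ∧ p.2 ∈ Q ∧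
      p.2 ∉ S ∧ H.Adj p.1 p.2).card := by
  obtain ⟨d, hd⟩ := EBD_closer H Q hQ r hr
  have hd' : ∀ u : X, ∃ y : X, u ∈ S.erase r → y ∈ Q ∧ H.Adj u y ∧ d y < d u := by
    intro u
    by_cases hu : u ∈ S.erase r
    · obtain ⟨hne, hu'⟩ := Finset.mem_erase.1 hu
      obtain ⟨y, h1, h2, h3⟩ := hd u (hS hu') hne
      exact ⟨y, fun _ => ⟨h1, h2, h3⟩⟩
    · exact ⟨u, fun h => absurd h hu⟩
  choose par hpar using hd'
  have hsplit : ((S.erase r).filter fun u => par u ∈ S).card +
      ((S.erase r).filter fun u => ¬ par u ∈ S).card = (S.erase r).card :=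
    Finset.card_filter_add_card_filter_not _
  have h1 : 2 * ((S.erase r).filter fun u => par u ∈ S).card ≤ inn H S := by
    have hA : ((((S.erase r).filter fun u => par u ∈ S).image fun u => (u, par u)) ∪
        (((S.erase r).filter fun u => par u ∈ S).image fun u => (par u, u))) ⊆
        (Finset.univ.filter fun p : X × X => p.1 ∈ S ∧ p.2 ∈ S ∧ H.Adj p.1 p.2) := by
      intro p hp
      rw [Finset.mem_filter]
      refine ⟨Finset.mem_univ _, ?_⟩
      rcases Finset.mem_union.1 hp with hp | hp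
      · obtain ⟨u, hu, rfl⟩ := Finset.mem_image.1 hp
        obtain ⟨hu1, hu2⟩ := Finset.mem_filter.1 hu
        exact ⟨(Finset.mem_erase.1 hu1).2, hu2, (hpar u hu1).2.1⟩
      · obtain ⟨u, hu, rfl⟩ := Finset.mem_image.1 hp
        obtain ⟨hu1, hu2⟩ := Finset.mem_filter.1 hu
        exact ⟨hu2, (Finset.mem_erase.1 hu1).2, (hpar u hu1).2.1.symm⟩
    have hB := Finset.card_le_card hA
    rw [Finset.card_union_of_disjoint, Finset.card_image_of_injective,
      Finset.card_image_of_injective] at hB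
    · unfold inn
      omega
    · intro u w h
      exact (Prod.mk.inj h).2
    · intro u w h
      exact (Prod.mk.inj h).1
    · rw [Finset.disjoint_left]
      intro p hp hp'
      obtain ⟨u, hu, rfl⟩ := Finset.mem_image.1 hp
      obtain ⟨w, hw, h⟩ := Finset.mem_image.1 hp'
      obtain ⟨h2, h3⟩ := Prod.mk.inj h
      have h4 := (hpar u (Finset.mem_filter.1 hu).1).2.2
      have h5 := (hpar w (Finset.mem_filter.1 hw).1).2.2
      rw [h2] at h5
      rw [← h3] at h4
      omega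
  have h2 : ((S.erase r).filter fun u => ¬ par u ∈ S).card ≤
      (Finset.univ.filter fun p : X × X => p.1 ∈ S ∧ p.2 ∈ Q ∧ p.2 ∉ S ∧ H.Adj p.1 p.2).card := by
    refine Finset.card_le_card_of_injOn (fun u => (u, par u)) ?_ ?_
    · intro u hu
      obtain ⟨hu1, hu2⟩ := Finset.mem_filter.1 hu
      refine Finset.mem_filter.2 ⟨Finset.mem_univ _, (Finset.mem_erase.1 hu1).2, (hpar u hu1).1,
        hu2, (hpar u hu1).2.1⟩
    · intro u _ w _ h
      exact (Prod.mk.inj h).1
  omega

/-- `inn` is even. -/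
theorem inn_even {X : Type} [Fintype X] (H : SimpleGraph X) (S : Finset X) : Even (inn H S) := by
  have h : ((inn H S : ℕ) : ZMod 2) = 0 := by
    unfold inn
    rw [Finset.card_eq_sum_ones, Nat.cast_sum]
    refine Finset.sum_involution (fun p _ => (p.2, p.1)) ?_ ?_ ?_ ?_
    · intro p _
      decide
    · intro p hp _ h
      have h1 := (Finset.mem_filter.1 hp).2.2.2
      have h2 : p.2 = p.1 := congrArg Prod.fst h
      rw [h2] at h1
      exact H.loopless.irrefl _ h1
    · intro p hp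
      obtain ⟨-, h1, h2, h3⟩ := Finset.mem_filter.1 hp
      exact Finset.mem_filter.2 ⟨Finset.mem_univ _, h2, h1, h3.symm⟩
    · intro p _
      rfl
  rw [ZMod.natCast_eq_zero_iff] at h
  exact even_iff_two_dvd.2 h

/-- Sum of the degrees. -/
theorem inn_out_le {X : Type} [Fintype X] (dd : ℕ) (H : SimpleGraph X)
    (hdeg : ∀ x, (H.neighborSet x).ncard ≤ dd + 1) (S : Finset X) :
    inn H S + out H S S ≤ (dd + 1) * S.card := by
  have := EBD_three dd H hdeg S S (Finset.Subset.refl S)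
  omega

/-- At most `n (n - 1)` ordered pairs. -/
theorem EBD_off {X : Type} [Fintype X] (H : SimpleGraph X) (S : Finset X) :
    inn H S ≤ S.card * S.card - S.card := by
  rw [← Finset.offDiag_card]
  refine Finset.card_le_card ?_
  intro p hp
  obtain ⟨-, h1, h2, h3⟩ := Finset.mem_filter.1 hp
  exact Finset.mem_offDiag.2 ⟨h1, h2, h3.ne⟩

/-- Two pairs are missing if `S` does not span a complete graph. -/
theorem EBD_off2 {X : Type} [Fintype X] (H : SimpleGraph X) (S : Finset X) (k : ℕ)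
    (hk : S.card = k) (hK : KFree k H) : inn H S + 2 ≤ S.card * S.card - S.card := by
  have hex : ∃ x ∈ S, ∃ y ∈ S, x ≠ y ∧ ¬ H.Adj x y := by
    by_contra hcon
    push Not at hcon
    refine hK (fun i => (S.equivFinOfCardEq hk).symm i) ?_ ?_
    · intro i j hij
      exact (S.equivFinOfCardEq hk).symm.injective (Subtype.ext hij)
    · intro i j hij
      refine hcon _ (Subtype.prop _) _ (Subtype.prop _) ?_
      intro h
      exact hij ((S.equivFinOfCardEq hk).symm.injective (Subtype.ext h))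
  obtain ⟨x, hx, y, hy, hxy, hadj⟩ := hex
  rw [← Finset.offDiag_card]
  have hsub : insert (x, y) (insert (y, x)
      (Finset.univ.filter fun p : X × X => p.1 ∈ S ∧ p.2 ∈ S ∧ H.Adj p.1 p.2)) ⊆ S.offDiag := by
    intro p hp
    rcases Finset.mem_insert.1 hp with rfl | hp
    · exact Finset.mem_offDiag.2 ⟨hx, hy, hxy⟩
    rcases Finset.mem_insert.1 hp with rfl | hp
    · exact Finset.mem_offDiag.2 ⟨hy, hx, hxy.symm⟩
    obtain ⟨-, h1, h2, h3⟩ := Finset.mem_filter.1 hp
    exact Finset.mem_offDiag.2 ⟨h1, h2, h3.ne⟩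
  have hc := Finset.card_le_card hsub
  rw [Finset.card_insert_of_notMem, Finset.card_insert_of_notMem] at hc
  · unfold inn
    omega
  · intro h
    exact hadj (Finset.mem_filter.1 h).2.2.2.symm
  · intro h
    rcases Finset.mem_insert.1 h with h | h
    · exact hxy (Prod.mk.inj h).1
    · exact hadj (Finset.mem_filter.1 h).2.2.2

/-- Edges inside a set of at least three vertices. -/
theorem ebd {X : Type} [Fintype X] (dd : ℕ) (hd : 2 ≤ dd) (H : SimpleGraph X)
    (hdeg : ∀ x, (H.neighborSet x).ncard ≤ dd + 1) (hK : KFree (dd + 2) H) (S : Finset X)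
    (hS : 3 ≤ S.card) : inn H S + 4 * dd ≤ 2 * dd * S.card + 2 := by
  have h0 := EBD_off H S
  have h1 := inn_out_le dd H hdeg S
  have h2 := inn_even H S
  rcases lt_trichotomy S.card (dd + 2) with h | h | h
  · -- at most `dd + 1` vertices
    obtain ⟨n, hn⟩ : ∃ n, S.card = n := ⟨_, rfl⟩
    rw [hn] at h0 h hS ⊢
    obtain ⟨a, rfl⟩ : ∃ a, n = a + 3 := ⟨n - 3, by omega⟩
    obtain ⟨b, rfl⟩ : ∃ b, dd = a + 2 + b := ⟨dd - (a + 2), by omega⟩
    have h3 : (a + 3) * (a + 3) - (a + 3) = (a + 3) * (a + 2) := by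
      rw [show (a + 3) * (a + 3) = (a + 3) * (a + 2) + (a + 3) by ring]
      omega
    rw [h3] at h0
    nlinarith [Nat.zero_le (a * b), Nat.zero_le a, Nat.zero_le b, Nat.zero_le (a * a)]
  · have h3 := EBD_off2 H S (dd + 2) h hK
    rw [h] at h3 ⊢
    obtain ⟨b, rfl⟩ : ∃ b, dd = b + 2 := ⟨dd - 2, by omega⟩
    have h4 : (b + 2 + 2) * (b + 2 + 2) - (b + 2 + 2) = (b + 4) * (b + 3) := by
      rw [show (b + 2 + 2) * (b + 2 + 2) = (b + 4) * (b + 3) + (b + 2 + 2) by ring]
      omega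
    rw [h4] at h3
    nlinarith [Nat.zero_le (b * b), Nat.zero_le b]
  · by_cases h5 : dd = 2
    · subst h5
      obtain ⟨k, hk⟩ := h2
      omega
    · obtain ⟨b, rfl⟩ : ∃ b, dd = b + 3 := ⟨dd - 3, by omega⟩
      obtain ⟨n, hn⟩ : ∃ n, S.card = n + b + 6 := ⟨S.card - (b + 6), by omega⟩
      rw [hn] at h1 ⊢
      nlinarith [Nat.zero_le (b * b), Nat.zero_le b, Nat.zero_le (b * n), Nat.zero_le n]

/-- Connected set, proper subset. -/
theorem cq_sub {X : Type} [Fintype X] (dd : ℕ) (H : SimpleGraph X)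
    (hdeg : ∀ x, (H.neighborSet x).ncard ≤ dd + 1) (Q S : Finset X)
    (hQ : (H.induce (Q : Set X)).Connected) (hS : S ⊆ Q) (hne : S ≠ Q) :
    inn H S + 2 * out H Q S ≤ 2 * dd * S.card := by
  obtain ⟨r, hr, hrS⟩ : ∃ r ∈ Q, r ∉ S := by
    by_contra hcon
    push Not at hcon
    exact hne (Finset.Subset.antisymm hS hcon)
  have h1 := EBD_key H Q S hQ hS r hr
  rw [Finset.erase_eq_of_notMem hrS] at h1
  have h2 := EBD_three dd H hdeg Q S hS
  have h3 : 2 * dd * S.card + 2 * S.card = 2 * ((dd + 1) * S.card) := by ring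
  omega

/-- Connected set. -/
theorem cq_full {X : Type} [Fintype X] (dd : ℕ) (H : SimpleGraph X)
    (hdeg : ∀ x, (H.neighborSet x).ncard ≤ dd + 1) (Q : Finset X)
    (hQ : (H.induce (Q : Set X)).Connected) : inn H Q + 2 * out H Q Q ≤ 2 * dd * Q.card + 2 := by
  obtain ⟨⟨r, hr⟩⟩ := hQ.nonempty
  have hr' : r ∈ Q := hr
  have h1 := EBD_key H Q Q hQ (Finset.Subset.refl Q) r hr'
  have h0 : (Finset.univ.filter fun p : X × X => p.1 ∈ Q ∧ p.2 ∈ Q ∧ p.2 ∉ Q ∧
      H.Adj p.1 p.2).card = 0 := by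
    rw [Finset.card_eq_zero, Finset.filter_eq_empty_iff]
    rintro p _ ⟨_, h, h', _⟩
    exact h' h
  rw [h0, Finset.card_erase_of_mem hr'] at h1
  have h2 := inn_out_le dd H hdeg Q
  have h3 : 2 * dd * Q.card + 2 * Q.card = 2 * ((dd + 1) * Q.card) := by ring
  omega

/-- Connected set containing a cycle. -/
theorem cq_cyc {X : Type} [Fintype X] (dd : ℕ) (H : SimpleGraph X)
    (hdeg : ∀ x, (H.neighborSet x).ncard ≤ dd + 1) (Q : Finset X)
    (hc : 2 * Q.card ≤ inn H Q) : inn H Q + 2 * out H Q Q ≤ 2 * dd * Q.card := by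
  have h2 := inn_out_le dd H hdeg Q
  have h3 : 2 * dd * Q.card + 2 * Q.card = 2 * ((dd + 1) * Q.card) := by ring
  omega

end Pool.Agent.CUG
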