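import Pool.Agent.CUB.EDG
import Pool.Agent.CUG.Defs

set_option autoImplicit false

/-!
# CUG.EDG

Elementary. `eok_mono`: all fields are monotone. `ext_star`: `box {ty j} S x` is `{update x (ty j) y : y ∈ S (ty j)}`,
the edges of the star are `(ty i, ty j)`, `i ∈ par j` (injective), `ty i ≠ ty j`.
-/

namespace Pool.Agent.CUG

open Pool.Agent.CUB
open scoped Classical

theorem edg_mem {v n : ℕ} (ty : Fin n → Fin v) (par : Fin n → Finset (Fin n)) (A : Finset (Fin n))
    (e : Fin v × Fin v) : e ∈ edg ty par A ↔ ∃ j ∈ A, ∃ i ∈ par j, e = (ty i, ty j) := by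
  unfold edg
  simp only [Finset.mem_biUnion, Finset.mem_image]
  constructor
  · rintro ⟨j, hj, i, hi, h⟩
    exact ⟨j, hj, i, hi, h.symm⟩
  · rintro ⟨j, hj, i, hi, h⟩
    exact ⟨j, hj, i, hi, h.symm⟩

theorem edg_mono {v n : ℕ} (ty : Fin n → Fin v) (par : Fin n → Finset (Fin n))
    (A A' : Finset (Fin n)) (h : A ⊆ A') : edg ty par A ⊆ edg ty par A' := by
  intro e he
  rw [edg_mem] at he ⊢
  obtain ⟨j, hj, r⟩ := he
  exact ⟨j, h hj, r⟩

theorem eok_mono {kp v : ℕ} (P : Prm) (pos : Fin v → Fin kp) (E E' : Finset (Fin v × Fin v))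
    (h : E' ⊆ E) (hE : EOK P pos E) : EOK P pos E' := by
  refine ⟨fun e he => hE.posd e (h he), ?_, ?_, ?_⟩
  · have hs := hE.simp
    unfold Simp at hs ⊢
    exact fun e he h' => hs e (h he) (h h')
  · intro R hR
    have h1 := hE.sparse R hR
    have h2 : (ins E' R).card ≤ (ins E R).card := by
      apply Finset.card_le_card
      unfold ins
      exact Finset.filter_subset_filter _ h
    have h3 := Nat.mul_le_mul_left P.be h2
    omega
  · intro e he R hR h1 h2
    obtain ⟨i, hi, hc⟩ := hE.peel e (h he) R hR h1 h2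
    refine ⟨i, hi, le_trans (Finset.card_le_card ?_) hc⟩
    intro u hu
    rw [Finset.mem_filter] at hu ⊢
    exact ⟨hu.1, hu.2.1, hu.2.2.imp (fun t => h t) (fun t => h t)⟩

theorem star_mem {v n : ℕ} (ty : Fin n → Fin v) (par : Fin n → Finset (Fin n)) (j : Fin n)
    (e : Fin v × Fin v) : e ∈ star ty par j ↔ ∃ i ∈ par j, e = (ty i, ty j) := by
  unfold star
  simp only [Finset.mem_image]
  constructor
  · rintro ⟨i, hi, h⟩
    exact ⟨i, hi, h.symm⟩
  · rintro ⟨i, hi, h⟩
    exact ⟨i, hi, h.symm⟩

/-- The extension count of the star of `j`. -/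
theorem ext_star {kp v N M n : ℕ} (t : Fin M × Fin kp → Fin N) (pos : Fin v → Fin kp)
    (L : Fin v × Fin v → Finset (Fin M)) (ty : Fin n → Fin v) (par : Fin n → Finset (Fin n))
    (j : Fin n) (hinj : Set.InjOn ty (par j : Set (Fin n))) (hne : ∀ i ∈ par j, ty i ≠ ty j)
    (S : Fin v → Finset (Fin N)) (x : Fin v → Fin N) :
    ext t pos L (star ty par j) {ty j} S x
      = ∑ y ∈ S (ty j), ∏ i ∈ par j, pmul t pos L (ty i) (ty j) (x (ty i)) y := by
  unfold ext
  symm
  refine Finset.sum_bij' (fun y _ => Function.update x (ty j) y) (fun z _ => z (ty j)) ?_ ?_ ?_ ?_ ?_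
  · intro y hy
    unfold Pool.Agent.CUB.box
    rw [Fintype.mem_piFinset]
    intro i
    by_cases hi : i = ty j
    · subst hi
      simpa using hy
    · rw [if_neg (by simpa using hi), Finset.mem_singleton, Function.update_of_ne hi]
  · intro z hz
    unfold Pool.Agent.CUB.box at hz
    rw [Fintype.mem_piFinset] at hz
    have := hz (ty j)
    simpa using this
  · intro y _
    simp
  · intro z hz
    unfold Pool.Agent.CUB.box at hz
    rw [Fintype.mem_piFinset] at hz
    funext i
    by_cases hi : i = ty j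
    · subst hi
      simp
    · rw [Function.update_of_ne hi]
      have := hz i
      rw [if_neg (by simpa using hi), Finset.mem_singleton] at this
      exact this.symm
  · intro y _
    unfold star
    rw [Finset.prod_image]
    · apply Finset.prod_congr rfl
      intro i hi
      unfold mm pmul
      dsimp only
      rw [Function.update_self, Function.update_of_ne (hne i hi)]
    · intro a ha b hb hab
      exact hinj ha hb (congrArg Prod.fst hab)

/-- The nominal extension count of the star of `j`. -/
theorem nom_star {v N n : ℕ} (V : Fin v → Finset (Fin N)) (m : ℝ) (ty : Fin n → Fin v)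
    (par : Fin n → Finset (Fin n)) (j : Fin n) (hinj : Set.InjOn ty (par j : Set (Fin n))) :
    nom V m (star ty par j) {ty j} = Rn V m ty par j := by
  unfold Pool.Agent.CUB.nom Rn star
  rw [Finset.prod_singleton, Finset.prod_image]
  intro a ha b hb hab
  exact hinj ha hb (congrArg Prod.fst hab)

end Pool.Agent.CUG
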