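import Pool.Agent.CUG.CNT
import Pool.Agent.CUG.PHI

set_option autoImplicit false

/-!
# CUG.ITA

Adapt CUB/ITA.lean (`E` is now only `PosD`, `Simp`). (1) `a = 8 al |B| - 8 be |F| ≥ 8` (`RS` for `S = B`);
`ext .. ≤ Gcnt t pos F (B.erase d) (update α d x) ≤ h^(a-8+1)` by `CR`: for `T ⊆ B.erase d`, `RS` for `B \ T` gives
`8 al |T| + 8 ≤ a + 8 be |tch F T|`. `nom ≥ C h^a` (`nom_ge`). (2) `phi_zero`;
`∑_α ext(.., update α d x) ∏_{E} mm e α ≤ (∏_{i∈B}|V i|) Gcnt t pos (F ∪ E) (univ.erase d) ρ`, `ρ d = x` (edges of `E`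
avoid `B`, edges of `F` touch `B`), then `VX`.
-/

namespace Pool.Agent.CUG

open Pool.Agent.CUB
open scoped Classical

private theorem ITA_box_card {v N : ℕ} (B : Finset (Fin v)) (V : Fin v → Finset (Fin N))
    (y : Fin v → Fin N) : (box B V y).card = ∏ i ∈ B, (V i).card := by
  unfold box
  rw [Fintype.card_piFinset]
  have h1 : ∀ i : Fin v, (if i ∈ B then V i else {y i} : Finset (Fin N)).card =
      if i ∈ B then (V i).card else 1 := by
    intro i
    split_ifs <;> simp
  rw [Finset.prod_congr rfl fun i _ => h1 i, Finset.prod_ite_mem, Finset.univ_inter]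

private theorem ITA_alg (q K A Bq Cq D : ℝ) (hA : 0 < A) (hB : 0 < Bq) (hC : 0 < Cq)
    (hD : 0 < D) : q * (K * (A / (Bq * Cq))) / (D * (A / Cq)) = K / D * q / Bq := by
  field_simp

private theorem ITA_e1 (q W A B X T : ℝ) (hW : W ≠ 0) (hA : A ≠ 0) (hB : B ≠ 0) (hT : T ≠ 0) :
    q / (W * A) * (W * X) / (T * B) = q * X / (T * (A * B)) := by
  field_simp

private theorem ITA_pw (x D : ℝ) (a b c : ℕ) (hx : x ≠ 0) (h : a = b + c) :
    D * (x ^ a / x ^ c) = D * x ^ b := by
  rw [h, pow_add]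
  field_simp

private theorem ITA_swap {kp v N M : ℕ} (t : Fin M × Fin kp → Fin N) (pos : Fin v → Fin kp)
    (L : Fin v × Fin v → Finset (Fin M)) (F E : Finset (Fin v × Fin v)) (B : Finset (Fin v))
    (V S : Fin v → Finset (Fin N)) (d : Fin v) (hd : d ∈ B) (x : Fin N)
    (hFE : Disjoint F E) (hE : ∀ e ∈ E, e.1 ∉ B ∧ e.2 ∉ B) :
    ∑ α ∈ Fintype.piFinset V, ext t pos L F (B.erase d) S (Function.update α d x) *
        ∏ e ∈ E, mm t pos L e α =
      (∏ i ∈ B, (V i).card) * ext t pos L (F ∪ E) (Finset.univ.erase d)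
        (fun i => if i ∈ B then S i else V i) (fun _ => x) := by
  unfold ext
  have h1 : ∀ α ∈ Fintype.piFinset V,
      (∑ y ∈ box (B.erase d) S (Function.update α d x), ∏ e ∈ F, mm t pos L e y) *
        ∏ e ∈ E, mm t pos L e α =
      ∑ y ∈ box (B.erase d) S (Function.update α d x), ∏ e ∈ F ∪ E, mm t pos L e y := by
    intro α _
    rw [Finset.sum_mul]
    apply Finset.sum_congr rfl
    intro y hy
    rw [Finset.prod_union hFE]
    congr 1
    apply Finset.prod_congr rfl
    intro e he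
    have h2 : ∀ i, i ∉ B → y i = α i := by
      intro i hi
      have h3 := Fintype.mem_piFinset.1 hy i
      have hid : i ≠ d := fun h => hi (h ▸ hd)
      have h4 : i ∉ B.erase d := fun h => hi (Finset.mem_of_mem_erase h)
      rw [if_neg h4, Finset.mem_singleton, Function.update_of_ne hid] at h3
      exact h3
    unfold mm
    rw [h2 _ (hE e he).1, h2 _ (hE e he).2]
  rw [Finset.sum_congr rfl h1]
  rw [Finset.sum_comm' (s := Fintype.piFinset V)
    (t := fun α => box (B.erase d) S (Function.update α d x))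
    (t' := box (Finset.univ.erase d) (fun i => if i ∈ B then S i else V i) (fun _ => x))
    (s' := fun y => box B V y)]
  · rw [Finset.mul_sum]
    apply Finset.sum_congr rfl
    intro y _
    rw [Finset.sum_const, ITA_box_card, smul_eq_mul]
  · intro α y
    unfold box
    simp only [Fintype.mem_piFinset]
    constructor
    · rintro ⟨h2, h3⟩
      constructor
      · intro i
        by_cases hi : i ∈ B
        · simp only [hi, if_true]
          exact h2 i
        · simp only [hi, if_false, Finset.mem_singleton]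
          have h4 := h3 i
          have hid : i ≠ d := fun h => hi (h ▸ hd)
          have h5 : i ∉ B.erase d := fun h => hi (Finset.mem_of_mem_erase h)
          rw [if_neg h5, Finset.mem_singleton, Function.update_of_ne hid] at h4
          exact h4.symm
      · intro i
        have h4 := h3 i
        by_cases hid : i = d
        · subst hid
          have h5 : i ∉ B.erase i := Finset.notMem_erase i B
          rw [if_neg h5, Finset.mem_singleton, Function.update_self] at h4
          have h6 : i ∉ Finset.univ.erase i := Finset.notMem_erase i _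
          rw [if_neg h6, Finset.mem_singleton]
          exact h4
        · have h6 : i ∈ Finset.univ.erase d := Finset.mem_erase.2 ⟨hid, Finset.mem_univ _⟩
          rw [if_pos h6]
          by_cases hi : i ∈ B
          · rw [if_pos hi]
            rw [if_pos (Finset.mem_erase.2 ⟨hid, hi⟩)] at h4
            exact h4
          · rw [if_neg hi]
            have h5 : i ∉ B.erase d := fun h => hi (Finset.mem_of_mem_erase h)
            rw [if_neg h5, Finset.mem_singleton, Function.update_of_ne hid] at h4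
            rw [h4]
            exact h2 i
    · rintro ⟨h2, h3⟩
      have h7 : ∀ i, i ∉ B → α i = y i := by
        intro i hi
        have := h2 i
        rw [if_neg hi, Finset.mem_singleton] at this
        exact this
      constructor
      · intro i
        by_cases hi : i ∈ B
        · have := h2 i
          rwa [if_pos hi] at this
        · have hid : i ≠ d := fun h => hi (h ▸ hd)
          have h6 : i ∈ Finset.univ.erase d := Finset.mem_erase.2 ⟨hid, Finset.mem_univ _⟩
          have h4 := h3 i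
          rw [if_pos h6, if_neg hi] at h4
          rw [h7 i hi]
          exact h4
      · intro i
        have h4 := h3 i
        by_cases hid : i = d
        · subst hid
          have h6 : i ∉ Finset.univ.erase i := Finset.notMem_erase i _
          rw [if_neg h6, Finset.mem_singleton] at h4
          have h5 : i ∉ B.erase i := Finset.notMem_erase i B
          rw [if_neg h5, Finset.mem_singleton, Function.update_self]
          exact h4
        · have h6 : i ∈ Finset.univ.erase d := Finset.mem_erase.2 ⟨hid, Finset.mem_univ _⟩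
          rw [if_pos h6] at h4
          by_cases hi : i ∈ B
          · rw [if_pos (Finset.mem_erase.2 ⟨hid, hi⟩)]
            rwa [if_pos hi] at h4
          · have h5 : i ∉ B.erase d := fun h => hi (Finset.mem_of_mem_erase h)
            rw [if_neg h5, Finset.mem_singleton, Function.update_of_ne hid]
            exact (h7 i hi).symm

private theorem ITA_crude {kp v N M : ℕ} (P : Prm) (h : ℕ) (t : Fin M × Fin kp → Fin N)
    (pos : Fin v → Fin kp) (hCR : CR P h t pos) (F : Finset (Fin v × Fin v)) (B : Finset (Fin v))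
    (d : Fin v) (hA : Adm P pos F B) (hd : d ∈ B) (ρ : Fin v → Fin N) :
    ∃ a : ℕ, 8 * P.al * B.card = a + 8 + 8 * P.be * F.card ∧
      Gcnt t pos F (B.erase d) ρ ≤ h ^ (a + 1) := by
  have h1 := hA.rs B (Finset.Subset.refl _) ⟨d, hd⟩
  have h2 : (F.filter fun e => (e.1 ∈ B → e.1 ∈ B) ∧ (e.2 ∈ B → e.2 ∈ B)) = F :=
    Finset.filter_true_of_mem fun e _ => ⟨id, id⟩
  rw [h2] at h1
  have e1 : 8 * P.al * B.card = 8 * (P.al * B.card) := by ring
  have e2 : 8 * P.be * F.card = 8 * (P.be * F.card) := by ring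
  refine ⟨8 * (P.al * B.card) - 8 - 8 * (P.be * F.card), by rw [e1, e2]; omega, ?_⟩
  apply hCR F (B.erase d) ρ _ hA.posd
  intro T hT
  have hTB : T ⊆ B := hT.trans (Finset.erase_subset _ _)
  have h3 := hA.rs (B \ T) Finset.sdiff_subset
    ⟨d, Finset.mem_sdiff.2 ⟨hd, fun hh => by
      have := hT hh
      simp at this⟩⟩
  have h4 : (F.filter fun e => (e.1 ∈ B → e.1 ∈ B \ T) ∧ (e.2 ∈ B → e.2 ∈ B \ T)) =
      F \ tch F T := by
    ext e
    simp only [Finset.mem_filter, Finset.mem_sdiff, tch]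
    constructor
    · rintro ⟨h5, h6, h7⟩
      refine ⟨h5, ?_⟩
      rintro ⟨_, h8 | h8⟩
      · exact (h6 (hTB h8)).2 h8
      · exact (h7 (hTB h8)).2 h8
    · rintro ⟨h5, h6⟩
      refine ⟨h5, fun h7 => ⟨h7, fun h8 => h6 ⟨h5, Or.inl h8⟩⟩,
        fun h7 => ⟨h7, fun h8 => h6 ⟨h5, Or.inr h8⟩⟩⟩
  have h5 : tch F T ⊆ F := Finset.filter_subset _ _
  rw [h4, Finset.card_sdiff_of_subset h5, Finset.card_sdiff_of_subset hTB] at h3
  have h6 := Finset.card_le_card h5
  have h7 := Finset.card_le_card hTB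
  have h8 : P.be * (F.card - (tch F T).card) = P.be * F.card - P.be * (tch F T).card :=
    Nat.mul_sub _ _ _
  have h9 : P.al * (B.card - T.card) = P.al * B.card - P.al * T.card := Nat.mul_sub _ _ _
  have h10 : P.be * (tch F T).card ≤ P.be * F.card := Nat.mul_le_mul_left _ h6
  have h11 : P.al * T.card ≤ P.al * B.card := Nat.mul_le_mul_left _ h7
  rw [h8, h9] at h3
  have e3 : 8 * P.al * T.card = 8 * (P.al * T.card) := by ring
  have e4 : 8 * P.be * (tch F T).card = 8 * (P.be * (tch F T).card) := by ring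
  rw [e3, e4]
  omega

/-- Bounds for the usage of the vertex `x` (type `d`) by copies of a piece. -/
theorem ita {kp : ℕ} (P : Prm) (v : ℕ) (pos : Fin v → Fin kp) (κ₁ K₂ : ℝ) (hκ : 0 < κ₁)
    (hK₂ : 0 < K₂) :
    ∃ C₇ : ℝ, 0 < C₇ ∧ ∃ h₀ : ℕ, ∀ h ≥ h₀, ∀ N M : ℕ,
    N = h ^ (8 * P.al) → M = h ^ (8 * P.ga) →
    ∀ t : Fin M × Fin kp → Fin N, CR P h t pos →
    ∀ (V : Fin v → Finset (Fin N)) (Vg : Fin kp → Finset (Fin N)) (nn : Fin kp → ℕ)
      (L0 : Finset (Fin M)) (S : Fin v → Finset (Fin N)), Parts pos κ₁ V Vg nn →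
      (∀ i, S i ⊆ V i) →
      ∀ (F : Finset (Fin v × Fin v)) (B : Finset (Fin v)) (d : Fin v) (x : Fin N)
        (E : Finset (Fin v × Fin v)), Adm P pos F B → d ∈ B → x ∈ S d → VX P h K₂ t pos d x →
        PosD pos E → Simp E → (∀ e ∈ E, e.1 ∉ B ∧ e.2 ∉ B) →
        (∀ α : Fin v → Fin N, (h : ℝ) ^ 6 *
            (ext t pos (clsL t pos V Vg L0) F (B.erase d) S (Function.update α d x) : ℝ)
          ≤ nom V (msz N M nn) F B) ∧
        ∀ x₀ : Fin v → Fin N,
          Phi t pos (clsL t pos V Vg L0) V (msz N M nn) E (fun α => (h : ℝ) ^ 6 *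
            (ext t pos (clsL t pos V Vg L0) F (B.erase d) S (Function.update α d x) : ℝ) /
              nom V (msz N M nn) F B) ∅ x₀
            ≤ C₇ * (h : ℝ) ^ 6 / (N : ℝ) := by
  refine ⟨K₂ / κ₁ ^ (v + kp * (v * v)), by positivity,
    max 1 ⌈1 / κ₁ ^ (v + kp * (v * v))⌉₊, ?_⟩
  intro h hh N M hN hM t hCR V Vg nn L0 S hP hSV F B d x E hA hd hx hVX hEp hEs hEB
  have hh1 : 1 ≤ h := (le_max_left _ _).trans hh
  have hh2 : 1 / κ₁ ^ (v + kp * (v * v)) ≤ (h : ℝ) := by
    refine (Nat.le_ceil _).trans ?_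
    exact_mod_cast (le_max_right _ _).trans hh
  have hr0 : (0 : ℝ) < (h : ℝ) := by exact_mod_cast hh1
  have hNr : (N : ℝ) = (h : ℝ) ^ (8 * P.al) := by rw [hN]; push_cast; ring
  have hMr : (M : ℝ) = (h : ℝ) ^ (8 * P.ga) := by rw [hM]; push_cast; ring
  have hN0 : (0 : ℝ) < (N : ℝ) := by rw [hNr]; positivity
  have hNn : 0 < N := by exact_mod_cast hN0
  have hM0 : (0 : ℝ) < (M : ℝ) := by rw [hMr]; positivity
  have hκ1 : κ₁ ≤ 1 := by
    have h1 := (hP.big (pos d)).trans (parts_le hP (pos d))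
    by_contra hcon
    push Not at hcon
    nlinarith
  have hm0 : 0 < msz N M nn :=
    (by positivity : (0 : ℝ) < κ₁ ^ kp * (M : ℝ)).trans_le (msz_ge M hP hκ hNn)
  set m : ℝ := msz N M nn with hm
  have hV0 : ∀ i, (0 : ℝ) < ((V i).card : ℝ) := by
    intro i
    rw [hP.cV i]
    exact (mul_pos hκ hN0).trans_le (hP.big _)
  have hVne : ∀ i, (V i).Nonempty := by
    intro i
    rw [← Finset.card_pos]
    exact_mod_cast hV0 i
  have hBc : B.card ≤ v := by simpa using Finset.card_le_univ B
  have hFc : F.card ≤ v * v := by simpa using Finset.card_le_univ F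
  have hFE : Disjoint F E := by
    rw [Finset.disjoint_left]
    intro e he he'
    have h1 := hEB e he'
    rcases hA.tch e he with h2 | h2
    · exact h1.1 h2
    · exact h1.2 h2
  have hposFE : PosD pos (F ∪ E) := by
    intro e he
    rcases Finset.mem_union.1 he with he | he
    · exact hA.posd e he
    · exact hEp e he
  have hsimpFE : Simp (F ∪ E) := by
    intro e he he2
    rcases Finset.mem_union.1 he with he | he <;> rcases Finset.mem_union.1 he2 with he' | he'
    · exact hA.simp e he he'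
    · have h1 := hEB _ he'
      rcases hA.tch e he with h2 | h2
      · exact h1.2 h2
      · exact h1.1 h2
    · have h1 := hEB e he
      rcases hA.tch _ he' with h2 | h2
      · exact h1.2 h2
      · exact h1.1 h2
    · exact hEs e he he'
  have hdis : ∀ G : Finset (Fin v × Fin v), Simp G → ∀ e ∈ G, ∀ e' ∈ G, e ≠ e' →
      Disjoint (clsL t pos V Vg L0 e) (clsL t pos V Vg L0 e') := by
    intro G hG e he e' he' hee
    refine clsL_disj t pos κ₁ V Vg nn hP L0 e e' hee ?_
    intro hcon
    exact hG e' he' (hcon ▸ he)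
  constructor
  · intro α
    obtain ⟨a, ha, hG⟩ := ITA_crude P h t pos hCR F B d hA hd (Function.update α d x)
    have h1 := ext_le_gcnt t pos (clsL t pos V Vg L0) F (B.erase d) (hdis F hA.simp) S
      (Function.update α d x)
    have h2 : (ext t pos (clsL t pos V Vg L0) F (B.erase d) S (Function.update α d x) : ℝ) ≤
        (h : ℝ) ^ (a + 1) := by exact_mod_cast h1.trans hG
    have h3 : κ₁ ^ (v + kp * (v * v)) * (h : ℝ) ^ (a + 8) ≤ nom V m F B := by
      have h4 := nom_ge P h hh1 hN hM hP hκ F B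
      rw [ITA_pw (h : ℝ) _ _ (a + 8) _ hr0.ne' ha] at h4
      refine le_trans ?_ h4
      have h6 : κ₁ ^ (v + kp * (v * v)) ≤ κ₁ ^ (B.card + kp * F.card) :=
        pow_le_pow_of_le_one hκ.le hκ1 (Nat.add_le_add hBc (Nat.mul_le_mul_left _ hFc))
      gcongr
    refine le_trans ?_ h3
    have h7 : 1 ≤ κ₁ ^ (v + kp * (v * v)) * (h : ℝ) := by
      rw [div_le_iff₀ (by positivity)] at hh2
      linarith
    calc (h : ℝ) ^ 6 * (ext t pos (clsL t pos V Vg L0) F (B.erase d) S (Function.update α d x) : ℝ)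
        ≤ (h : ℝ) ^ 6 * (h : ℝ) ^ (a + 1) := by gcongr
      _ = 1 * (h : ℝ) ^ (a + 7) := by ring
      _ ≤ (κ₁ ^ (v + kp * (v * v)) * (h : ℝ)) * (h : ℝ) ^ (a + 7) := by gcongr
      _ = κ₁ ^ (v + kp * (v * v)) * (h : ℝ) ^ (a + 8) := by ring
  · intro x₀
    have hsw := ITA_swap t pos (clsL t pos V Vg L0) F E B V S d hd x hFE hEB
    have hle := ext_le_gcnt t pos (clsL t pos V Vg L0) (F ∪ E) (Finset.univ.erase d)
      (hdis _ hsimpFE) (fun i => if i ∈ B then S i else V i) (fun _ => x)
    have hc := hVX (F ∪ E) hposFE (fun _ => x) rfl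
    have hnr := nrm_ge P h hh1 hN hM hP hκ (F ∪ E)
    have hFEc : (F ∪ E).card ≤ v * v := by simpa using Finset.card_le_univ (F ∪ E)
    set f : ℕ := (F ∪ E).card with hf
    rw [phi_zero t pos _ V m hm0 hVne]
    have hsum : ∑ α ∈ Fintype.piFinset V, (h : ℝ) ^ 6 *
        (ext t pos (clsL t pos V Vg L0) F (B.erase d) S (Function.update α d x) : ℝ) /
          nom V m F B * ((∏ e ∈ E, mm t pos (clsL t pos V Vg L0) e α : ℕ) : ℝ) =
        (h : ℝ) ^ 6 / nom V m F B *
          ((∑ α ∈ Fintype.piFinset V, ext t pos (clsL t pos V Vg L0) F (B.erase d) S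
            (Function.update α d x) * ∏ e ∈ E, mm t pos (clsL t pos V Vg L0) e α : ℕ) : ℝ) := by
      rw [Nat.cast_sum, Finset.mul_sum]
      apply Finset.sum_congr rfl
      intro α _
      rw [Nat.cast_mul]
      ring
    rw [hsum, hsw]
    have hX : ((ext t pos (clsL t pos V Vg L0) (F ∪ E) (Finset.univ.erase d)
        (fun i => if i ∈ B then S i else V i) (fun _ => x) : ℕ) : ℝ) ≤
        K₂ * ((h : ℝ) ^ (8 * P.al * v) / ((h : ℝ) ^ (8 * P.al) * (h : ℝ) ^ (8 * P.be * f))) := by
      refine le_trans ?_ hc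
      exact_mod_cast hle
    set X : ℝ := ((ext t pos (clsL t pos V Vg L0) (F ∪ E) (Finset.univ.erase d)
        (fun i => if i ∈ B then S i else V i) (fun _ => x) : ℕ) : ℝ) with hXdef
    have hX0 : 0 ≤ X := by rw [hXdef]; positivity
    have hcast : (((∏ i ∈ B, (V i).card) * ext t pos (clsL t pos V Vg L0) (F ∪ E)
        (Finset.univ.erase d) (fun i => if i ∈ B then S i else V i) (fun _ => x) : ℕ) : ℝ) =
        (∏ i ∈ B, ((V i).card : ℝ)) * X := by
      rw [hXdef, Nat.cast_mul, Nat.cast_prod]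
    rw [hcast]
    have hW0 : 0 < ∏ i ∈ B, ((V i).card : ℝ) := Finset.prod_pos fun i _ => hV0 i
    have hq0 : ∀ e : Fin v × Fin v, 0 < m / (((V e.1).card : ℝ) * ((V e.2).card : ℝ)) :=
      fun e => div_pos hm0 (mul_pos (hV0 _) (hV0 _))
    have hQF0 : 0 < ∏ e ∈ F, (m / (((V e.1).card : ℝ) * ((V e.2).card : ℝ))) :=
      Finset.prod_pos fun e _ => hq0 e
    have hQE0 : 0 < ∏ e ∈ E, (m / (((V e.1).card : ℝ) * ((V e.2).card : ℝ))) :=
      Finset.prod_pos fun e _ => hq0 e
    have hT0 : (0 : ℝ) < ((Fintype.piFinset V).card : ℝ) := by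
      rw [Fintype.card_piFinset, Nat.cast_prod]
      exact Finset.prod_pos fun i _ => hV0 i
    unfold nrm at hnr ⊢
    unfold nom
    rw [Finset.prod_union hFE] at hnr
    rw [ITA_e1 _ _ _ _ _ _ hW0.ne' hQF0.ne' hQE0.ne' hT0.ne']
    have hden0 : 0 < κ₁ ^ (v + kp * f) * ((h : ℝ) ^ (8 * P.al * v) / (h : ℝ) ^ (8 * P.be * f)) := by
      positivity
    refine (div_le_div₀ (by positivity) (mul_le_mul_of_nonneg_left hX (by positivity))
      hden0 hnr).trans ?_
    rw [ITA_alg _ _ _ _ _ _ (by positivity) (by positivity) (by positivity) (by positivity), hNr]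
    have h9 : κ₁ ^ (v + kp * (v * v)) ≤ κ₁ ^ (v + kp * f) :=
      pow_le_pow_of_le_one hκ.le hκ1 (Nat.add_le_add_left (Nat.mul_le_mul_left _ hFEc) _)
    have h10 : K₂ / κ₁ ^ (v + kp * f) ≤ K₂ / κ₁ ^ (v + kp * (v * v)) :=
      div_le_div_of_nonneg_left hK₂.le (by positivity) h9
    gcongr

end Pool.Agent.CUG
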