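import Pool.Agent.CUG.CNT
import Pool.Agent.CUG.PHI

set_option autoImplicit false

/-!
# CUG.ITC

Proof. `phi_zero`. For every `x ∈ Cand`: `∑_{α ∈ piFinset V, α d = x} ∏_E mm e α ≤ Gcnt t pos E (univ.erase d) ρ`
(`sum_le_gcnt`, `ρ d = x`; classes of different edges of `E` are disjoint by `Simp` and `clsL_disj`)
`≤ K₂ h^{8 al v}/(h^{8 al} h^{8 be |E|}) ≤ (C₇/N) nrm E` (`nrm_ge`), `C₇ = K₂/κ₁^(v + kp v²)` (for `κ₁ ≤ 1`; `κ₁ > 1`
impossible). Sum over `x ∈ Cand`.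
-/

namespace Pool.Agent.CUG

open Pool.Agent.CUB
open scoped Classical

private theorem ITC_alg (q K A Bq Cq D : ℝ) (hA : 0 < A) (hB : 0 < Bq) (hC : 0 < Cq)
    (hD : 0 < D) : q * (K * (A / (Bq * Cq))) / (D * (A / Cq)) = q * (K / D) / Bq := by
  field_simp

/-- Weight of the assignments with value in a set `Cand` of vertices of type `d`. -/
theorem itc {kp : ℕ} (P : Prm) (v : ℕ) (pos : Fin v → Fin kp) (κ₁ K₂ : ℝ) (hκ : 0 < κ₁)
    (hK₂ : 0 < K₂) :
    ∃ C₇ : ℝ, 0 < C₇ ∧ ∀ h : ℕ, 1 ≤ h → ∀ N M : ℕ,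
    N = h ^ (8 * P.al) → M = h ^ (8 * P.ga) → ∀ t : Fin M × Fin kp → Fin N,
    ∀ (V : Fin v → Finset (Fin N)) (Vg : Fin kp → Finset (Fin N)) (nn : Fin kp → ℕ)
      (L0 : Finset (Fin M)), Parts pos κ₁ V Vg nn →
      ∀ (d : Fin v) (Cand : Finset (Fin N)), (∀ x ∈ Cand, x ∈ V d ∧ VX P h K₂ t pos d x) →
      ∀ (E : Finset (Fin v × Fin v)), PosD pos E → Simp E → ∀ (w : ℝ), 0 ≤ w →
      ∀ x₀ : Fin v → Fin N,
        Phi t pos (clsL t pos V Vg L0) V (msz N M nn) E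
          (fun α => if α d ∈ Cand then w else 0) ∅ x₀ ≤ w * (Cand.card : ℝ) * C₇ / (N : ℝ) := by
  refine ⟨K₂ / κ₁ ^ (v + kp * (v * v)), by positivity, ?_⟩
  intro h hh1 N M hN hM t V Vg nn L0 hP d Cand hC E hEp hEs w hw x₀
  have hr0 : (0 : ℝ) < (h : ℝ) := by exact_mod_cast hh1
  have hNr : (N : ℝ) = (h : ℝ) ^ (8 * P.al) := by rw [hN]; push_cast; ring
  have hMr : (M : ℝ) = (h : ℝ) ^ (8 * P.ga) := by rw [hM]; push_cast; ring
  have hN0 : (0 : ℝ) < (N : ℝ) := by rw [hNr]; positivity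
  have hNn : 0 < N := by exact_mod_cast hN0
  have hM0 : (0 : ℝ) < (M : ℝ) := by rw [hMr]; positivity
  have hκ1 : κ₁ ≤ 1 := by
    have h1 := (hP.big (pos d)).trans (parts_le hP (pos d))
    by_contra hcon
    push Not at hcon
    nlinarith
  have hm0 : 0 < msz N M nn :=
    (by positivity : (0 : ℝ) < κ₁ ^ kp * (M : ℝ)).trans_le (msz_ge M hP hκ hNn)
  have hVne : ∀ i, (V i).Nonempty := by
    intro i
    rw [← Finset.card_pos]
    have h1 : (0 : ℝ) < ((V i).card : ℝ) := by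
      rw [hP.cV i]
      exact (mul_pos hκ hN0).trans_le (hP.big _)
    exact_mod_cast h1
  have hdis : ∀ e ∈ E, ∀ e' ∈ E, e ≠ e' →
      Disjoint (clsL t pos V Vg L0 e) (clsL t pos V Vg L0 e') := by
    intro e he e' he' hee
    refine clsL_disj t pos κ₁ V Vg nn hP L0 e e' hee ?_
    intro hcon
    exact hEs e' he' (hcon ▸ he)
  have hnr := nrm_ge P h hh1 hN hM hP hκ E
  have hEc : E.card ≤ v * v := by simpa using Finset.card_le_univ E
  set f : ℕ := E.card with hf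
  rw [phi_zero t pos _ V _ hm0 hVne]
  have hsum : ∑ x ∈ Fintype.piFinset V, (if x d ∈ Cand then w else 0) *
      ((∏ e ∈ E, mm t pos (clsL t pos V Vg L0) e x : ℕ) : ℝ) =
      w * ((∑ x ∈ (Fintype.piFinset V).filter (fun x => x d ∈ Cand),
        ∏ e ∈ E, mm t pos (clsL t pos V Vg L0) e x : ℕ) : ℝ) := by
    rw [Nat.cast_sum, Finset.sum_filter, Finset.mul_sum]
    apply Finset.sum_congr rfl
    intro x _
    split_ifs <;> simp
  have hfib : ∑ x ∈ (Fintype.piFinset V).filter (fun x => x d ∈ Cand),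
      ∏ e ∈ E, mm t pos (clsL t pos V Vg L0) e x =
      ∑ c ∈ Cand, ∑ x ∈ (Fintype.piFinset V).filter (fun x => x d = c),
        ∏ e ∈ E, mm t pos (clsL t pos V Vg L0) e x := by
    rw [← Finset.sum_fiberwise_of_maps_to (s := (Fintype.piFinset V).filter (fun x => x d ∈ Cand))
      (t := Cand) (g := fun x => x d) (fun x hx => (Finset.mem_filter.1 hx).2)]
    apply Finset.sum_congr rfl
    intro c hc
    apply Finset.sum_congr _ fun _ _ => rfl
    ext x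
    simp only [Finset.mem_filter]
    constructor
    · rintro ⟨⟨h1, _⟩, h2⟩
      exact ⟨h1, h2⟩
    · rintro ⟨h1, h2⟩
      exact ⟨⟨h1, h2 ▸ hc⟩, h2⟩
  have hle : ((∑ x ∈ (Fintype.piFinset V).filter (fun x => x d ∈ Cand),
      ∏ e ∈ E, mm t pos (clsL t pos V Vg L0) e x : ℕ) : ℝ) ≤ (Cand.card : ℝ) *
      (K₂ * ((h : ℝ) ^ (8 * P.al * v) / ((h : ℝ) ^ (8 * P.al) * (h : ℝ) ^ (8 * P.be * f)))) := by
    rw [hfib, Nat.cast_sum, ← nsmul_eq_mul]
    apply Finset.sum_le_card_nsmul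
    intro c hc
    have h1 := sum_le_gcnt t pos (clsL t pos V Vg L0) E hdis V d (fun _ => c)
    have h2 := (hC c hc).2 E hEp (fun _ => c) rfl
    refine le_trans ?_ h2
    exact_mod_cast h1
  rw [hsum]
  have hden0 : 0 < κ₁ ^ (v + kp * f) * ((h : ℝ) ^ (8 * P.al * v) / (h : ℝ) ^ (8 * P.be * f)) := by
    positivity
  refine (div_le_div₀ (by positivity) (mul_le_mul_of_nonneg_left hle hw) hden0 hnr).trans ?_
  rw [← mul_assoc, ITC_alg _ _ _ _ _ _ (by positivity) (by positivity) (by positivity)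
    (by positivity), hNr]
  have h9 : κ₁ ^ (v + kp * (v * v)) ≤ κ₁ ^ (v + kp * f) :=
    pow_le_pow_of_le_one hκ.le hκ1 (Nat.add_le_add_left (Nat.mul_le_mul_left _ hEc) _)
  have h10 : K₂ / κ₁ ^ (v + kp * f) ≤ K₂ / κ₁ ^ (v + kp * (v * v)) :=
    div_le_div_of_nonneg_left hK₂.le (by positivity) h9
  gcongr

/-- Initial value of an indicator item. -/
theorem phi_bad {kp v N M : ℕ} (t : Fin M × Fin kp → Fin N) (pos : Fin v → Fin kp)
    (L : Fin v × Fin v → Finset (Fin M)) (V : Fin v → Finset (Fin N)) (m : ℝ) (hm : 0 < m)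
    (hV : ∀ i, (V i).Nonempty) (E : Finset (Fin v × Fin v)) (Q : (Fin v → Fin N) → Prop) (ε₄ : ℝ)
    (h : ((∑ x ∈ (Fintype.piFinset V).filter Q, ∏ e ∈ E, mm t pos L e x : ℕ) : ℝ)
      ≤ ε₄ * nrm V m E)
    (x₀ : Fin v → Fin N) :
    Phi t pos L V m E (fun α => if Q α then 1 else 0) ∅ x₀ ≤ ε₄ := by
  rw [phi_zero t pos L V m hm hV]
  have hn : 0 < nrm V m E := by
    unfold nrm
    have hV0 : ∀ i, (0 : ℝ) < ((V i).card : ℝ) := fun i => by exact_mod_cast (hV i).card_pos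
    refine mul_pos ?_ (Finset.prod_pos fun e _ => div_pos hm (mul_pos (hV0 _) (hV0 _)))
    rw [Fintype.card_piFinset, Nat.cast_prod]
    exact Finset.prod_pos fun i _ => hV0 i
  rw [div_le_iff₀ hn]
  refine le_trans (le_of_eq ?_) h
  rw [Nat.cast_sum, Finset.sum_filter]
  apply Finset.sum_congr rfl
  intro x _
  split_ifs <;> simp

end Pool.Agent.CUG
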