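import Pool.Agent.CUG.WEMG
import Pool.Agent.CUG.ITA
import Pool.Agent.CUG.ITC

set_option autoImplicit false

/-!
# CUG.EIA

Adapt CUB/EIA.lean. `L = clsL ..`, `m = msz`, `μ₀ = c₆ h^6`, `Jb = 2 J`, `Cj j = max 4 (4 mu^dd / c (st (ty j)))`,
`Kb j = Km (st (ty j) + 1)`. Apply `wemg` with b-items `β = Fin q ⊕ Fin n`: piece `i`: `A i`,
`Yb α = 1[ext t pos L (F i) (B i) S α < c Ds · nom]`, initial value `≤ ε₄ Ds` by `PG` and `phi_bad`
(`E = edg ty par (A i)`, `A_ok`; ends not in `B i` by `BA`), `∏_{j∈A i} Kb j ≤ Km Ds ^ J` (`st_lt`: `st + 1 ≤ Ds`,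
`Km` monotone, `≥ 1`); vertex `j`: `A = cl j \ {j}` (closed: parents are smaller), `s = st (ty j)`,
`Yb α = 1[ext t pos L (star ty par j) {ty j} S α < c s · nom]`, initial value `≤ ε₄ s` by `PG` (`star_adm`; `E = edg ty par
(cl j \ {j})`, `cl_ok`, `eok_mono`; its ends are `≠ ty j` by `cl_inj`), `∏ Kb ≤ Km s ^ J` (`cl_st`). At most
`A_cnt + cl_cnt ≤ 2 J` b-items contain a vertex. Meters `μ = (Fin v × Fin N) ⊕ (Fin v × Finset (Fin v) ×
(Fin v → Fin N))`, items `ι = Fin q ⊕ Fin n`: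
kind 1, `(d,x)`: as in CUB (for `i` with `d ∈ B i`, `x ∈ S d`: `A i`, `Y α = h^6 ext t pos L (F i) ((B i).erase d) S
(update α d x)/nom`, `ita`), disjoint by `A_disj`, other items trivial (`∅`, `0`).
kind 2, `(d, Q, x)`: `Cand = {y ∈ S d : ∀ u ∈ Q, 0 < pmul u d (x u) y}`; for `j` with `ty j = d`: `cl j` and
`Y α = if α d ∈ Cand then w else 0`, `w = h^6/|Cand|` if `h^6 ≤ |Cand|` and `w = 0` otherwise (initial value
`≤ C₇ h^6/N` by `itc`), disjoint by `cl_disj`; other items trivial.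
`∑ (∏ Cj) Φ ≤ max(n,q) Cmax^J C₇ h^6/N ≤ μ₀` for small `c₈` (`Cmax` = max of the finitely many values `s < Ds`);
`|μ| ≤ v N + v 2^v N^v ≤ exp(c₆ h^6)` for `h ≥ h₀`.
Availability at `j` (`s = st (ty j)`): the b-item of `j` is complete, so (`ext_star`, `nom_star`)
`c s · Rn ≤ ∑_{y∈S (ty j)} ∏_{i∈par j} pmul(..) ≤ mu^dd |Cand|` with `Cand` for `(ty j, (par j).image ty, φ on
parents)` (`MUL`, `par_card`), so `|Cand| ≥ (c s/mu^dd) Rn ≥ h^6`; the meter shows that at most
`3 c₆ |Cand| ≤ |Cand|/2` elements of `Cand` are used by `i < j`, `ty i = ty j` (their items are complete).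
`Av` = the unused elements: `2 Rn ≤ (4 mu^dd/c s) |Av|`.
-/

namespace Pool.Agent.CUG

open Pool.Agent.CUB
open scoped Classical

private theorem EIA_exp (C : ℝ) (k : ℕ) (c : ℝ) (hc : 0 < c) :
    ∃ h1 : ℕ, ∀ h ≥ h1, C * (h : ℝ) ^ k ≤ Real.exp (c * (h : ℝ) ^ 6) := by
  obtain ⟨h1, hh1⟩ := exists_nat_ge (C * ((k + 1).factorial : ℝ) / c ^ (k + 1))
  refine ⟨max h1 1, fun h hh => ?_⟩
  have h2 : (h1 : ℝ) ≤ (h : ℝ) := by exact_mod_cast (le_max_left _ _).trans hh
  have h3 : (1 : ℝ) ≤ (h : ℝ) := by exact_mod_cast (le_max_right _ _).trans hh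
  have hck : 0 < c ^ (k + 1) := by positivity
  have h5 := hh1.trans h2
  rw [div_le_iff₀ hck] at h5
  have h6 := Real.pow_div_factorial_le_exp (c * (h : ℝ) ^ 6) (by positivity) (k + 1)
  refine le_trans ?_ h6
  have hf : (0 : ℝ) < ((k + 1).factorial : ℝ) := by exact_mod_cast Nat.factorial_pos (k + 1)
  rw [le_div_iff₀ hf]
  have h7 : (0 : ℝ) ≤ (h : ℝ) ^ k := by positivity
  have h8 : (h : ℝ) ^ (k + 1) ≤ ((h : ℝ) ^ 6) ^ (k + 1) :=
    pow_le_pow_left₀ (by positivity) (le_self_pow₀ h3 (by norm_num)) _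
  calc C * (h : ℝ) ^ k * ((k + 1).factorial : ℝ)
      = (C * ((k + 1).factorial : ℝ)) * (h : ℝ) ^ k := by ring
    _ ≤ ((h : ℝ) * c ^ (k + 1)) * (h : ℝ) ^ k := mul_le_mul_of_nonneg_right h5 h7
    _ = c ^ (k + 1) * (h : ℝ) ^ (k + 1) := by ring
    _ ≤ c ^ (k + 1) * ((h : ℝ) ^ 6) ^ (k + 1) := mul_le_mul_of_nonneg_left h8 hck.le
    _ = (c * (h : ℝ) ^ 6) ^ (k + 1) := by rw [mul_pow]

private theorem EIA_ext_congr {kp v N M : ℕ} (t : Fin M × Fin kp → Fin N) (pos : Fin v → Fin kp)
    (L : Fin v × Fin v → Finset (Fin M)) (F : Finset (Fin v × Fin v)) (B : Finset (Fin v))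
    (S : Fin v → Finset (Fin N)) (x x' : Fin v → Fin N)
    (h : ∀ e ∈ F, (e.1 ∈ B ∨ x e.1 = x' e.1) ∧ (e.2 ∈ B ∨ x e.2 = x' e.2)) :
    ext t pos L F B S x = ext t pos L F B S x' := by
  unfold ext
  have hbox : ∀ (z y : Fin v → Fin N), y ∈ box B S z ↔
      ∀ d, (d ∈ B → y d ∈ S d) ∧ (d ∉ B → y d = z d) := by
    intro z y
    unfold box
    rw [Fintype.mem_piFinset]
    constructor
    · intro hy d
      have := hy d
      constructor
      · intro hd; rw [if_pos hd] at this; exact this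
      · intro hd; rw [if_neg hd] at this; exact Finset.mem_singleton.mp this
    · intro hy d
      by_cases hd : d ∈ B
      · rw [if_pos hd]; exact (hy d).1 hd
      · rw [if_neg hd]; exact Finset.mem_singleton.mpr ((hy d).2 hd)
  refine Finset.sum_nbij' (fun y d => if d ∈ B then y d else x' d)
    (fun y d => if d ∈ B then y d else x d) ?_ ?_ ?_ ?_ ?_
  · intro y hy
    rw [hbox] at hy ⊢
    intro d
    constructor
    · intro hd; simp only [if_pos hd]; exact (hy d).1 hd
    · intro hd; simp only [if_neg hd]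
  · intro y hy
    rw [hbox] at hy ⊢
    intro d
    constructor
    · intro hd; simp only [if_pos hd]; exact (hy d).1 hd
    · intro hd; simp only [if_neg hd]
  · intro y hy
    rw [hbox] at hy
    funext d
    by_cases hd : d ∈ B
    · simp only [if_pos hd]
    · simp only [if_neg hd]; exact ((hy d).2 hd).symm
  · intro y hy
    rw [hbox] at hy
    funext d
    by_cases hd : d ∈ B
    · simp only [if_pos hd]
    · simp only [if_neg hd]; exact ((hy d).2 hd).symm
  · intro y hy
    rw [hbox] at hy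
    refine Finset.prod_congr rfl fun e he => ?_
    have key : ∀ d, (d ∈ B ∨ x d = x' d) → (if d ∈ B then y d else x' d) = y d := by
      intro d hd
      by_cases hdB : d ∈ B
      · rw [if_pos hdB]
      · rw [if_neg hdB]
        rcases hd with hd | hd
        · exact absurd hd hdB
        · rw [← hd]; exact ((hy d).2 hdB).symm
    have k1 := key e.1 (h e he).1
    have k2 := key e.2 (h e he).2
    unfold mm
    beta_reduce
    rw [k1, k2]

private theorem EIA_Phi_zero {kp v N M : ℕ} (t : Fin M × Fin kp → Fin N) (pos : Fin v → Fin kp)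
    (L : Fin v × Fin v → Finset (Fin M)) (V : Fin v → Finset (Fin N)) (m : ℝ)
    (l : Finset (Fin v × Fin v)) (S : Finset (Fin v)) (x : Fin v → Fin N) :
    Phi t pos L V m l (fun _ => 0) S x = 0 := by
  unfold Phi
  simp

private theorem EIA_mu (P : Prm) : 1 ≤ P.mu := by
  by_contra hcon
  have h0 : P.mu = 0 := by omega
  have h1 := P.hmu
  have h2 := P.hdd
  rw [h0] at h1
  have h3 : P.be * 1 ≤ P.be * P.dd := Nat.mul_le_mul_left _ P.hd
  omega

/-- Candidates: vertices of type `p.1` adjacent to all the `p.2.2 u`, `u ∈ p.2.1`. -/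
private def EIA_Cand {kp v N M : ℕ} (t : Fin M × Fin kp → Fin N)
    (pos : Fin v → Fin kp) (L : Fin v × Fin v → Finset (Fin M)) (S : Fin v → Finset (Fin N))
    (p : Fin v × Finset (Fin v) × (Fin v → Fin N)) : Finset (Fin N) :=
  (S p.1).filter fun y => ∀ u ∈ p.2.1, 0 < pmul t pos L u p.1 (p.2.2 u) y

private noncomputable def EIA_w {kp v N M : ℕ} (t : Fin M × Fin kp → Fin N)
    (pos : Fin v → Fin kp) (L : Fin v × Fin v → Finset (Fin M)) (S : Fin v → Finset (Fin N))
    (h : ℕ) (p : Fin v × Finset (Fin v) × (Fin v → Fin N)) : ℝ :=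
  if (h : ℝ) ^ 6 ≤ ((EIA_Cand t pos L S p).card : ℝ) then
    (h : ℝ) ^ 6 / ((EIA_Cand t pos L S p).card : ℝ) else 0

private theorem EIA_w_nonneg {kp v N M : ℕ} (t : Fin M × Fin kp → Fin N)
    (pos : Fin v → Fin kp) (L : Fin v × Fin v → Finset (Fin M)) (S : Fin v → Finset (Fin N))
    (h : ℕ) (p : Fin v × Finset (Fin v) × (Fin v → Fin N)) : 0 ≤ EIA_w t pos L S h p := by
  unfold EIA_w
  split_ifs
  · positivity
  · exact le_rfl

private theorem EIA_w_le {kp v N M : ℕ} (t : Fin M × Fin kp → Fin N)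
    (pos : Fin v → Fin kp) (L : Fin v × Fin v → Finset (Fin M)) (S : Fin v → Finset (Fin N))
    (h : ℕ) (hh : 0 < (h : ℝ)) (p : Fin v × Finset (Fin v) × (Fin v → Fin N)) :
    EIA_w t pos L S h p ≤ 1 := by
  unfold EIA_w
  split_ifs with h1
  · have h2 : (0 : ℝ) < ((EIA_Cand t pos L S p).card : ℝ) := lt_of_lt_of_le (by positivity) h1
    rw [div_le_one h2]
    exact h1
  · norm_num

private theorem EIA_w_mul {kp v N M : ℕ} (t : Fin M × Fin kp → Fin N)
    (pos : Fin v → Fin kp) (L : Fin v × Fin v → Finset (Fin M)) (S : Fin v → Finset (Fin N))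
    (h : ℕ) (hh : 0 < (h : ℝ)) (p : Fin v × Finset (Fin v) × (Fin v → Fin N)) :
    EIA_w t pos L S h p * ((EIA_Cand t pos L S p).card : ℝ) ≤ (h : ℝ) ^ 6 := by
  unfold EIA_w
  split_ifs with h1
  · have h2 : (0 : ℝ) < ((EIA_Cand t pos L S p).card : ℝ) := lt_of_lt_of_le (by positivity) h1
    rw [div_mul_cancel₀ _ h2.ne']
  · rw [zero_mul]; positivity

private def EIA_Ab {n q : ℕ} (cl : Fin n → Finset (Fin n))
    (A : Fin q → Finset (Fin n)) : Fin q ⊕ Fin n → Finset (Fin n)
  | Sum.inl i => A i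
  | Sum.inr j => (cl j).erase j

private noncomputable def EIA_Yb {kp v N M n q : ℕ} (t : Fin M × Fin kp → Fin N)
    (pos : Fin v → Fin kp) (L : Fin v × Fin v → Finset (Fin M)) (V : Fin v → Finset (Fin N))
    (S : Fin v → Finset (Fin N)) (m : ℝ) (cD : ℝ) (cs : Fin n → ℝ)
    (ty : Fin n → Fin v) (par : Fin n → Finset (Fin n)) (F : Fin q → Finset (Fin v × Fin v))
    (B : Fin q → Finset (Fin v)) : Fin q ⊕ Fin n → (Fin v → Fin N) → ℝ
  | Sum.inl i => fun α => if (ext t pos L (F i) (B i) S α : ℝ) < cD * nom V m (F i) (B i) then 1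
      else 0
  | Sum.inr j => fun α => if (ext t pos L (star ty par j) {ty j} S α : ℝ)
      < cs j * nom V m (star ty par j) {ty j} then 1 else 0

private def EIA_A {v N n q : ℕ} (S : Fin v → Finset (Fin N)) (ty : Fin n → Fin v)
    (cl : Fin n → Finset (Fin n)) (B : Fin q → Finset (Fin v)) (A : Fin q → Finset (Fin n)) :
    (Fin v × Fin N) ⊕ (Fin v × Finset (Fin v) × (Fin v → Fin N)) → Fin q ⊕ Fin n →
      Finset (Fin n)
  | Sum.inl p, Sum.inl i => if p.1 ∈ B i ∧ p.2 ∈ S p.1 then A i else ∅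
  | Sum.inl _, Sum.inr _ => ∅
  | Sum.inr _, Sum.inl _ => ∅
  | Sum.inr p, Sum.inr j => if ty j = p.1 then cl j else ∅

private noncomputable def EIA_Y {kp v N M n q : ℕ} (t : Fin M × Fin kp → Fin N)
    (pos : Fin v → Fin kp) (L : Fin v × Fin v → Finset (Fin M)) (V : Fin v → Finset (Fin N))
    (S : Fin v → Finset (Fin N)) (m : ℝ) (h : ℕ)
    (ty : Fin n → Fin v) (F : Fin q → Finset (Fin v × Fin v))
    (B : Fin q → Finset (Fin v)) :
    (Fin v × Fin N) ⊕ (Fin v × Finset (Fin v) × (Fin v → Fin N)) → Fin q ⊕ Fin n →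
      (Fin v → Fin N) → ℝ
  | Sum.inl p, Sum.inl i => fun α => if p.1 ∈ B i ∧ p.2 ∈ S p.1 then (h : ℝ) ^ 6 *
      (ext t pos L (F i) ((B i).erase p.1) S (Function.update α p.1 p.2) : ℝ) /
        nom V m (F i) (B i) else 0
  | Sum.inl _, Sum.inr _ => fun _ => 0
  | Sum.inr _, Sum.inl _ => fun _ => 0
  | Sum.inr p, Sum.inr j => fun α => if ty j = p.1 then
      (if α p.1 ∈ EIA_Cand t pos L S p then EIA_w t pos L S h p else 0) else 0

/-- A positive lower bound for finitely many positive values. -/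
private theorem EIA_min (c : ℕ → ℝ) (hc : ∀ s, 0 < c s) (D : ℕ) :
    ∃ cm : ℝ, 0 < cm ∧ ∀ s < D, cm ≤ c s := by
  induction D with
  | zero => exact ⟨1, one_pos, fun s hs => absurd hs (by omega)⟩
  | succ D ih =>
    obtain ⟨cm, h1, h2⟩ := ih
    refine ⟨min cm (c D), lt_min h1 (hc D), fun s hs => ?_⟩
    rcases Nat.lt_succ_iff_lt_or_eq.mp hs with h | h
    · exact (min_le_left _ _).trans (h2 s h)
    · rw [h]; exact min_le_right _ _

private theorem EIA_big (A : ℝ) : ∃ h1 : ℕ, ∀ h ≥ h1, A ≤ (h : ℝ) ^ 10 := by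
  obtain ⟨h1, hh1⟩ := exists_nat_ge A
  refine ⟨max h1 1, fun h hh => ?_⟩
  have h2 : (h1 : ℝ) ≤ (h : ℝ) := by exact_mod_cast (le_max_left _ _).trans hh
  have h3 : (1 : ℝ) ≤ (h : ℝ) := by exact_mod_cast (le_max_right _ _).trans hh
  exact (hh1.trans h2).trans (le_self_pow₀ h3 (by norm_num))

/-- The products of multiplicities are bounded on the candidates and vanish elsewhere. -/
private theorem EIA_sum_le {kp v N M n : ℕ} (P : Prm) (t : Fin M × Fin kp → Fin N)
    (pos : Fin v → Fin kp) (V : Fin v → Finset (Fin N)) (Vg : Fin kp → Finset (Fin N))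
    (L0 : Finset (Fin M)) (hMUL : MUL P.mu t) (S : Fin v → Finset (Fin N)) (ty : Fin n → Fin v)
    (par : Fin n → Finset (Fin n)) (j : Fin n) (hpos : ∀ i ∈ par j, pos (ty i) ≠ pos (ty j))
    (hcard : (par j).card ≤ P.dd) (x : Fin v → Fin N) :
    ∑ y ∈ S (ty j), ∏ i ∈ par j, pmul t pos (clsL t pos V Vg L0) (ty i) (ty j) (x (ty i)) y
      ≤ P.mu ^ P.dd *
        (EIA_Cand t pos (clsL t pos V Vg L0) S (ty j, (par j).image ty, x)).card := by
  have hmu := EIA_mu P
  rw [mul_comm, ← smul_eq_mul, ← Finset.sum_const]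
  unfold EIA_Cand
  rw [Finset.sum_filter]
  refine Finset.sum_le_sum fun y _ => ?_
  split_ifs with hy
  · calc ∏ i ∈ par j, pmul t pos (clsL t pos V Vg L0) (ty i) (ty j) (x (ty i)) y
        ≤ ∏ _i ∈ par j, P.mu := by
          refine Finset.prod_le_prod' fun i hi => ?_
          refine le_trans ?_ (hMUL (pos (ty i)) (pos (ty j)) (hpos i hi) (x (ty i)) y)
          unfold pmul
          refine Finset.card_le_card ?_
          intro a ha
          exact Finset.mem_filter.mpr ⟨Finset.mem_univ _, (Finset.mem_filter.mp ha).2⟩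
      _ = P.mu ^ (par j).card := by rw [Finset.prod_const]
      _ ≤ P.mu ^ P.dd := Nat.pow_le_pow_right hmu hcard
  · simp only [not_forall] at hy
    obtain ⟨u, hu, hu2⟩ := hy
    obtain ⟨i, hi, hiu⟩ := Finset.mem_image.mp hu
    have h0 : pmul t pos (clsL t pos V Vg L0) (ty i) (ty j) (x (ty i)) y = 0 := by
      rw [hiu]
      exact Nat.eq_zero_of_not_pos hu2
    exact le_of_eq (Finset.prod_eq_zero hi h0)

/-- Embedding of the sequential part of an instance, with good roots for all pieces and controlled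
usage. -/
theorem eia {kp : ℕ} (P : Prm) (v : ℕ) (pos : Fin v → Fin kp) (st : Fin v → ℕ) (J Ds : ℕ)
    (c₀ κ₁ K₂ εin c₆ : ℝ) (c ε₄ Km : ℕ → ℝ)
    (hc₀ : 0 < c₀) (hκ : 0 < κ₁) (hK₂ : 0 < K₂) (hεin : 0 < εin) (hc₆ : 0 < c₆)
    (h6 : 6 * c₆ ≤ 1) (hc : ∀ s, 0 < c s) (hε : ∀ s, 0 < ε₄ s) (hKm1 : ∀ s, 1 ≤ Km s)
    (hKmm : Monotone Km)
    (hKms : ∀ s, 2 * (J : ℝ) * max 4 (4 * (P.mu : ℝ) ^ P.dd / c s) ≤ Km (s + 1))
    (h4 : ∀ s ≤ Ds, Km s ^ J * ε₄ s < 1) :
    ∃ c₈ : ℝ, 0 < c₈ ∧ ∃ h₀ : ℕ, ∀ h ≥ h₀, ∀ N M : ℕ,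
    N = h ^ (8 * P.al) → M = h ^ (8 * P.ga) →
    ∀ t : Fin M × Fin kp → Fin N, CR P h t pos → MUL P.mu t →
    (∀ s ≤ Ds, PG P t pos c₀ εin (c s) (ε₄ s) κ₁) →
    ∀ (V : Fin v → Finset (Fin N)) (Vg : Fin kp → Finset (Fin N)) (nn : Fin kp → ℕ)
      (L0 : Finset (Fin M)) (S : Fin v → Finset (Fin N)), Parts pos κ₁ V Vg nn →
      Dense t pos (clsL t pos V Vg L0) V (msz N M nn) (allE pos) εin c₀ →
      (∀ i, S i ⊆ V i) → (∀ i, (V i).card ≤ 2 * (S i).card) →
      (∀ i, ∀ x ∈ S i, VX P h K₂ t pos i x) →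
      ∀ (n q : ℕ) (ty : Fin n → Fin v) (par : Fin n → Finset (Fin n))
        (cl : Fin n → Finset (Fin n))
        (F : Fin q → Finset (Fin v × Fin v)) (B : Fin q → Finset (Fin v))
        (A : Fin q → Finset (Fin n)), Inst P J Ds pos st ty par cl F B A →
        (n : ℝ) ≤ c₈ * (N : ℝ) → (q : ℝ) ≤ c₈ * (N : ℝ) → ∀ x₀ : Fin v → Fin N,
        ∃ φ : Fin n → Fin N, (∀ j, φ j ∈ V (ty j)) ∧
          (∀ j, ∀ i ∈ par j,
            0 < pmul t pos (clsL t pos V Vg L0) (ty i) (ty j) (φ i) (φ j)) ∧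
          (∀ j j', j ≠ j' → ty j = ty j' → φ j ≠ φ j') ∧
          (∀ i, c Ds * nom V (msz N M nn) (F i) (B i)
            ≤ (ext t pos (clsL t pos V Vg L0) (F i) (B i) S (asg ty (A i) φ x₀) : ℝ)) ∧
          (∀ i, ∀ d ∈ B i, ∀ x ∈ S d, (h : ℝ) ^ 6 *
            (ext t pos (clsL t pos V Vg L0) (F i) ((B i).erase d) S
              (Function.update (asg ty (A i) φ x₀) d x) : ℝ) ≤ nom V (msz N M nn) (F i) (B i)) ∧
          (∀ d, ∀ x ∈ S d, ∑ i ∈ Finset.univ.filter (fun i : Fin q => d ∈ B i), (h : ℝ) ^ 6 *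
            (ext t pos (clsL t pos V Vg L0) (F i) ((B i).erase d) S
              (Function.update (asg ty (A i) φ x₀) d x) : ℝ) / nom V (msz N M nn) (F i) (B i)
            ≤ 3 * c₆ * (h : ℝ) ^ 6) := by
  obtain ⟨cm, hcm, hcm2⟩ := EIA_min c hc Ds
  set Cf : ℕ → ℝ := fun s => max 4 (4 * (P.mu : ℝ) ^ P.dd / c s) with hCf
  have hCf4 : ∀ s, 4 ≤ Cf s := fun s => le_max_left _ _
  have hCf1 : ∀ s, 1 ≤ Cf s := fun s => by have := hCf4 s; linarith
  set C : ℝ := max 4 (4 * (P.mu : ℝ) ^ P.dd / cm) with hCdef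
  have hC4 : 4 ≤ C := le_max_left _ _
  have hC1 : 1 ≤ C := by linarith
  have hCfC : ∀ s < Ds, Cf s ≤ C := by
    intro s hs
    refine max_le_max le_rfl ?_
    exact div_le_div_of_nonneg_left (by positivity) hcm (hcm2 s hs)
  obtain ⟨Ca, hCa, ha, hita⟩ := ita P v pos κ₁ K₂ hκ hK₂
  obtain ⟨Cb, hCb, hitc⟩ := itc P v pos κ₁ K₂ hκ hK₂
  obtain ⟨he, hhe⟩ := EIA_exp ((v : ℝ) + v * 2 ^ v) (8 * P.al * (v + 1)) c₆ hc₆
  obtain ⟨hb, hhb0⟩ := EIA_big ((P.mu : ℝ) ^ P.dd / (cm * κ₁ ^ (1 + kp * P.dd)))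
  set D : ℝ := C ^ J * (Ca + Cb) with hD
  have hDpos : 0 < D := by positivity
  refine ⟨c₆ / D, by positivity, max (max ha hb) (max he 1), ?_⟩
  intro h hh N M hN hM t hCR hMUL hPG V Vg nn L0 S hP hDense hSV hVS hVX n q ty par cl F B A
    hI hnc hqc x₀
  have hha : h ≥ ha := ((le_max_left _ _).trans (le_max_left _ _)).trans hh
  have hhb : h ≥ hb := ((le_max_right _ _).trans (le_max_left _ _)).trans hh
  have hhe' : h ≥ he := ((le_max_left _ _).trans (le_max_right _ _)).trans hh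
  have hh1 : 1 ≤ h := ((le_max_right _ _).trans (le_max_right _ _)).trans hh
  have hh0 : (0 : ℝ) < (h : ℝ) := by exact_mod_cast (show 0 < h by omega)
  have hh1r : (1 : ℝ) ≤ (h : ℝ) := by exact_mod_cast hh1
  have hNr : (N : ℝ) = (h : ℝ) ^ (8 * P.al) := by rw [hN]; push_cast; rfl
  have hMr : (M : ℝ) = (h : ℝ) ^ (8 * P.ga) := by rw [hM]; push_cast; rfl
  have hNp : (0 : ℝ) < (N : ℝ) := by rw [hNr]; positivity
  have hMp : (0 : ℝ) < (M : ℝ) := by rw [hMr]; positivity
  have hnn : ∀ a, 0 < (nn a : ℝ) := fun a => lt_of_lt_of_le (mul_pos hκ hNp) (hP.big a)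
  set m : ℝ := msz N M nn with hmdef
  have hm : 0 < m := by
    rw [hmdef]; unfold msz
    exact mul_pos hMp (Finset.prod_pos (fun a _ => div_pos (hnn a) hNp))
  have hVp : ∀ i, (0 : ℝ) < ((V i).card : ℝ) := by
    intro i; rw [hP.cV i]; exact hnn _
  have hV : ∀ i, (V i).Nonempty := by
    intro i
    exact Finset.card_pos.mp (by exact_mod_cast hVp i)
  set L := clsL t pos V Vg L0 with hL
  have hnom : ∀ i, 0 ≤ nom V m (F i) (B i) := by
    intro i
    unfold nom
    refine mul_nonneg (Finset.prod_nonneg fun _ _ => Nat.cast_nonneg _)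
      (Finset.prod_nonneg fun e _ => div_nonneg hm.le (by positivity))
  -- the edges of the items
  have hedgA : ∀ i, ∀ e ∈ edg ty par (A i), e.1 ∉ B i ∧ e.2 ∉ B i := by
    intro i e hemem
    rw [edg_mem] at hemem
    obtain ⟨j, hj, k, hk, rfl⟩ := hemem
    exact ⟨hI.BA i _, hI.BA i _⟩
  have hParlt : ∀ j, ∀ k ∈ cl j, ∀ i ∈ par k, i ∈ (cl j).erase j := by
    intro j k hk i hi
    refine Finset.mem_erase.mpr ⟨?_, hI.cl_par j k hk hi⟩
    have h1 := hI.par_lt k i hi
    have h2 := hI.cl_le j k hk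
    exact (lt_of_lt_of_le h1 h2).ne
  have hok : ∀ j, EOK P pos (edg ty par ((cl j).erase j)) := fun j =>
    eok_mono P pos _ _ (edg_mono ty par _ _ (Finset.erase_subset _ _)) (hI.cl_ok j)
  have hedgcl : ∀ j, ∀ e ∈ edg ty par ((cl j).erase j),
      e.1 ∉ ({ty j} : Finset (Fin v)) ∧ e.2 ∉ ({ty j} : Finset (Fin v)) := by
    intro j e hemem
    rw [edg_mem] at hemem
    obtain ⟨k, hk, i, hi, rfl⟩ := hemem
    have hk2 := Finset.mem_erase.mp hk
    have hi2 := Finset.mem_erase.mp (hParlt j k hk2.2 i hi)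
    refine ⟨?_, ?_⟩
    · rw [Finset.mem_singleton]
      intro hcon
      exact hi2.1 (hI.cl_inj j (Finset.mem_coe.2 hi2.2) (Finset.mem_coe.2 (hI.cl_self j)) hcon)
    · rw [Finset.mem_singleton]
      intro hcon
      exact hk2.1 (hI.cl_inj j (Finset.mem_coe.2 hk2.2) (Finset.mem_coe.2 (hI.cl_self j)) hcon)
  have hclinj : ∀ j, Set.InjOn ty ((cl j).erase j : Finset (Fin n)) := by
    intro j a ha' b hb' hab
    exact hI.cl_inj j (Finset.mem_coe.2 (Finset.mem_of_mem_erase (Finset.mem_coe.1 ha')))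
      (Finset.mem_coe.2 (Finset.mem_of_mem_erase (Finset.mem_coe.1 hb'))) hab
  have hparcl : ∀ j, ∀ i ∈ par j, i ∈ (cl j).erase j := fun j i hi =>
    hParlt j j (hI.cl_self j) i hi
  have hparinj : ∀ j, Set.InjOn ty (par j : Set (Fin n)) := by
    intro j a ha' b hb' hab
    exact hclinj j (Finset.mem_coe.2 (hparcl j a (Finset.mem_coe.1 ha')))
      (Finset.mem_coe.2 (hparcl j b (Finset.mem_coe.1 hb'))) hab
  have hparne : ∀ j, ∀ i ∈ par j, ty i ≠ ty j := by
    intro j i hi hcon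
    exact hI.par_pos j i hi (congrArg pos hcon)
  -- products
  have hKp : ∀ (s : ℕ) (X : Finset (Fin n)), (∀ k ∈ X, st (ty k) + 1 ≤ s) → X.card ≤ J →
      ∏ k ∈ X, Km (st (ty k) + 1) ≤ Km s ^ J := by
    intro s X hX hXc
    calc ∏ k ∈ X, Km (st (ty k) + 1) ≤ ∏ _k ∈ X, Km s :=
          Finset.prod_le_prod (fun k _ => by have := hKm1 (st (ty k) + 1); linarith)
            (fun k hk => hKmm (hX k hk))
      _ = Km s ^ X.card := by rw [Finset.prod_const]
      _ ≤ Km s ^ J := pow_le_pow_right₀ (hKm1 s) hXc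
  have hKpow : ∀ (s : ℕ) (X : Finset (Fin n)) (x : ℝ), s ≤ Ds → (∀ k ∈ X, st (ty k) + 1 ≤ s) →
      X.card ≤ J → x ≤ ε₄ s → (∏ k ∈ X, Km (st (ty k) + 1)) * x < 1 := by
    intro s X x hs hX hXc hx
    have h0 : 0 ≤ ∏ k ∈ X, Km (st (ty k) + 1) :=
      Finset.prod_nonneg fun k _ => by have := hKm1 (st (ty k) + 1); linarith
    calc (∏ k ∈ X, Km (st (ty k) + 1)) * x ≤ (∏ k ∈ X, Km (st (ty k) + 1)) * ε₄ s :=
          mul_le_mul_of_nonneg_left hx h0
      _ ≤ Km s ^ J * ε₄ s := mul_le_mul_of_nonneg_right (hKp s X hX hXc) (hε s).le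
      _ < 1 := h4 s hs
  have hCpow : ∀ (X : Finset (Fin n)) (x y : ℝ), X.card ≤ J → x ≤ y → 0 ≤ y →
      (∏ k ∈ X, Cf (st (ty k))) * x ≤ C ^ J * y := by
    intro X x y hX hx hy
    have h0 : 0 ≤ ∏ k ∈ X, Cf (st (ty k)) :=
      Finset.prod_nonneg fun k _ => by have := hCf1 (st (ty k)); linarith
    have h1 : ∏ k ∈ X, Cf (st (ty k)) ≤ C ^ J := by
      calc ∏ k ∈ X, Cf (st (ty k)) ≤ ∏ _k ∈ X, C :=
            Finset.prod_le_prod (fun k _ => by have := hCf1 (st (ty k)); linarith)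
              (fun k _ => hCfC _ (hI.st_lt k))
        _ = C ^ X.card := by rw [Finset.prod_const]
        _ ≤ C ^ J := pow_le_pow_right₀ hC1 hX
    calc (∏ k ∈ X, Cf (st (ty k))) * x ≤ (∏ k ∈ X, Cf (st (ty k))) * y :=
          mul_le_mul_of_nonneg_left hx h0
      _ ≤ C ^ J * y := mul_le_mul_of_nonneg_right h1 hy
  have hc8a : (q : ℝ) * (C ^ J * (Ca * (h : ℝ) ^ 6 / (N : ℝ))) ≤ c₆ * (h : ℝ) ^ 6 := by
    have h2 : c₆ / D * (C ^ J * Ca) ≤ c₆ := by
      rw [div_mul_eq_mul_div, div_le_iff₀ hDpos]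
      refine mul_le_mul_of_nonneg_left ?_ hc₆.le
      rw [hD]
      exact mul_le_mul_of_nonneg_left (by linarith) (by positivity)
    calc (q : ℝ) * (C ^ J * (Ca * (h : ℝ) ^ 6 / (N : ℝ)))
        ≤ (c₆ / D * (N : ℝ)) * (C ^ J * (Ca * (h : ℝ) ^ 6 / (N : ℝ))) :=
          mul_le_mul_of_nonneg_right hqc (by positivity)
      _ = (c₆ / D * (C ^ J * Ca)) * (h : ℝ) ^ 6 := by field_simp
      _ ≤ c₆ * (h : ℝ) ^ 6 := mul_le_mul_of_nonneg_right h2 (by positivity)
  have hc8b : (n : ℝ) * (C ^ J * ((h : ℝ) ^ 6 * Cb / (N : ℝ))) ≤ c₆ * (h : ℝ) ^ 6 := by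
    have h2 : c₆ / D * (C ^ J * Cb) ≤ c₆ := by
      rw [div_mul_eq_mul_div, div_le_iff₀ hDpos]
      refine mul_le_mul_of_nonneg_left ?_ hc₆.le
      rw [hD]
      exact mul_le_mul_of_nonneg_left (by linarith) (by positivity)
    calc (n : ℝ) * (C ^ J * ((h : ℝ) ^ 6 * Cb / (N : ℝ)))
        ≤ (c₆ / D * (N : ℝ)) * (C ^ J * ((h : ℝ) ^ 6 * Cb / (N : ℝ))) :=
          mul_le_mul_of_nonneg_right hnc (by positivity)
      _ = (c₆ / D * (C ^ J * Cb)) * (h : ℝ) ^ 6 := by field_simp
      _ ≤ c₆ * (h : ℝ) ^ 6 := mul_le_mul_of_nonneg_right h2 (by positivity)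
  -- dependence
  have hdep1 : ∀ (i : Fin q) (x x' : Fin v → Fin N), (∀ j ∈ A i, x (ty j) = x' (ty j)) →
      ext t pos L (F i) (B i) S x = ext t pos L (F i) (B i) S x' := by
    intro i x x' hx
    refine EIA_ext_congr t pos L (F i) (B i) S x x' fun e hemem => ?_
    obtain ⟨h1, h2⟩ := hI.FA i e hemem
    refine ⟨h1.imp id ?_, h2.imp id ?_⟩
    · rintro ⟨j, hj, hje⟩; rw [← hje]; exact hx j hj
    · rintro ⟨j, hj, hje⟩; rw [← hje]; exact hx j hj
  have hdep3 : ∀ (j : Fin n) (x x' : Fin v → Fin N),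
      (∀ k ∈ (cl j).erase j, x (ty k) = x' (ty k)) →
      ext t pos L (star ty par j) {ty j} S x = ext t pos L (star ty par j) {ty j} S x' := by
    intro j x x' hx
    refine EIA_ext_congr t pos L (star ty par j) {ty j} S x x' fun e hemem => ?_
    rw [star_mem] at hemem
    obtain ⟨i, hi, rfl⟩ := hemem
    exact ⟨Or.inr (hx i (hparcl j i hi)), Or.inl (Finset.mem_singleton_self _)⟩
  have hdep2 : ∀ (i : Fin q) (d : Fin v) (y : Fin N) (x x' : Fin v → Fin N),
      (∀ j ∈ A i, x (ty j) = x' (ty j)) →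
      ext t pos L (F i) ((B i).erase d) S (Function.update x d y) =
        ext t pos L (F i) ((B i).erase d) S (Function.update x' d y) := by
    intro i d y x x' hx
    refine EIA_ext_congr t pos L (F i) ((B i).erase d) S _ _ fun e hemem => ?_
    have key : ∀ z : Fin v, (z ∈ B i ∨ ∃ j ∈ A i, ty j = z) →
        (z ∈ (B i).erase d ∨ Function.update x d y z = Function.update x' d y z) := by
      intro z hz
      by_cases hzd : z = d
      · right; subst hzd; rw [Function.update_self, Function.update_self]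
      · rcases hz with hz | ⟨j, hj, hje⟩
        · exact Or.inl (Finset.mem_erase.mpr ⟨hzd, hz⟩)
        · right
          rw [Function.update_of_ne hzd, Function.update_of_ne hzd, ← hje]; exact hx j hj
    obtain ⟨h1, h2⟩ := hI.FA i e hemem
    exact ⟨key _ h1, key _ h2⟩
  have hitaI : ∀ (i : Fin q) (d : Fin v) (x : Fin N), d ∈ B i → x ∈ S d →
      (∀ α : Fin v → Fin N, (h : ℝ) ^ 6 *
        (ext t pos L (F i) ((B i).erase d) S (Function.update α d x) : ℝ)
          ≤ nom V m (F i) (B i)) ∧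
        ∀ x₀ : Fin v → Fin N,
          Phi t pos L V m (edg ty par (A i)) (fun α => (h : ℝ) ^ 6 *
            (ext t pos L (F i) ((B i).erase d) S (Function.update α d x) : ℝ) /
              nom V m (F i) (B i)) ∅ x₀
            ≤ Ca * (h : ℝ) ^ 6 / (N : ℝ) := by
    intro i d x hd hx
    exact hita h hha N M hN hM t hCR V Vg nn L0 S hP hSV (F i) (B i) d x
      (edg ty par (A i)) (hI.adm i) hd hx (hVX d x hx) (hI.A_ok i).posd (hI.A_ok i).simp
      (hedgA i)
  have main := wemg t pos L V m (c₆ * (h : ℝ) ^ 6) (2 * J) (fun j => Cf (st (ty j)))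
    (fun j => Km (st (ty j) + 1)) ty par x₀ hm hV (fun j => hCf1 _)
    ?_ (fun j => hKm1 _) (by positivity) hI.par_lt (Fin q ⊕ Fin n) (EIA_Ab cl A)
    (EIA_Yb t pos L V S m (c Ds) (fun j => c (st (ty j))) ty par F B) ?_ ?_ ?_ ?_ ?_ ?_
    ((Fin v × Fin N) ⊕ (Fin v × Finset (Fin v) × (Fin v → Fin N))) (Fin q ⊕ Fin n)
    (EIA_A S ty cl B A)
    (EIA_Y t pos L V S m h ty F B) ?_ ?_ ?_ ?_ ?_ ?_ ?_ ?_ ?_
  · -- conclusion
    obtain ⟨φ, hφ1, hφ2, hφ3, hφ4, hφ5⟩ := main
    refine ⟨φ, fun j => hφ1 j j.2, fun j => hφ2 j j.2,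
      fun j j' hjj ht => hφ3 j j' j.2 j'.2 hjj ht, ?_, ?_, ?_⟩
    · intro i
      have h1 := hφ4 (Sum.inl i) (fun a _ => a.2)
      simp only [EIA_Yb, EIA_Ab] at h1
      by_contra hcon
      rw [not_le] at hcon
      rw [if_pos hcon] at h1
      exact lt_irrefl _ h1
    · intro i d hd x hx
      exact (hitaI i d x hd hx).1 _
    · intro d x hx
      have h1 := hφ5 (Sum.inl (d, x))
      have h2 : (Finset.univ.filter fun i : Fin q ⊕ Fin n =>
          ∀ a ∈ EIA_A S ty cl B A (Sum.inl (d, x)) i, (a : ℕ) < n) = Finset.univ := by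
        rw [Finset.filter_true_of_mem]
        intro i _ a _
        exact a.2
      rw [h2, Fintype.sum_sum_type] at h1
      simp only [EIA_Y, EIA_A, Finset.sum_const_zero, add_zero] at h1
      rw [← mul_assoc] at h1
      refine le_trans (le_of_eq ?_) h1
      rw [Finset.sum_filter]
      refine Finset.sum_congr rfl fun i _ => ?_
      by_cases hd : d ∈ B i
      · rw [if_pos hd, if_pos ⟨hd, hx⟩, if_pos ⟨hd, hx⟩]
      · rw [if_neg hd, if_neg (fun hcon => hd hcon.1)]
  · -- hKb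
    intro j
    have h1 := hKms (st (ty j))
    push_cast
    exact h1
  · -- hYb0
    rintro (i | j) x
    · simp only [EIA_Yb]; split_ifs <;> norm_num
    · simp only [EIA_Yb]; split_ifs <;> norm_num
  · -- hAb
    rintro (i | j) k hk
    · exact hI.A_par i k hk
    · intro i hi
      exact hParlt j k (Finset.mem_of_mem_erase hk) i hi
  · -- hAbi
    rintro (i | j)
    · exact hI.A_inj i
    · exact hclinj j
  · -- hYbd
    rintro (i | j) x x' hx
    · simp only [EIA_Yb]
      rw [hdep1 i x x' hx]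
    · simp only [EIA_Yb]
      rw [hdep3 j x x' hx]
  · -- hb0
    rintro (i | j)
    · refine hKpow Ds (A i) _ le_rfl (fun k _ => hI.st_lt k) (hI.A_card i) ?_
      have h1 := hPG Ds le_rfl V Vg nn L0 hP hDense (F i) (B i) (edg ty par (A i)) S (hI.adm i)
        (hI.A_ok i) (hedgA i) hSV (fun k _ => hVS k)
      have h2 := phi_bad t pos L V m hm hV (edg ty par (A i))
        (fun α => (ext t pos L (F i) (B i) S α : ℝ) < c Ds * nom V m (F i) (B i)) (ε₄ Ds)
        h1 x₀
      refine le_trans (le_of_eq ?_) h2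
      have h3 : EIA_Yb t pos L V S m (c Ds) (fun j => c (st (ty j))) ty par F B (Sum.inl i)
          = (fun α =>
          @ite ℝ ((ext t pos L (F i) (B i) S α : ℝ) < c Ds * nom V m (F i) (B i))
            (Classical.propDecidable _) 1 0) := by
        funext α
        simp only [EIA_Yb]
      rw [h3]
      rfl
    · refine hKpow (st (ty j)) ((cl j).erase j) _ (hI.st_lt j).le ?_
        ((Finset.card_le_card (Finset.erase_subset _ _)).trans (hI.cl_card j)) ?_
      · intro k hk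
        have hk2 := Finset.mem_erase.mp hk
        exact hI.cl_st j k hk2.2 hk2.1
      have h1 := hPG (st (ty j)) (hI.st_lt j).le V Vg nn L0 hP hDense (star ty par j) {ty j}
        (edg ty par ((cl j).erase j)) S (hI.star_adm j) (hok j) (hedgcl j) hSV (fun k _ => hVS k)
      have h2 := phi_bad t pos L V m hm hV (edg ty par ((cl j).erase j))
        (fun α => (ext t pos L (star ty par j) {ty j} S α : ℝ)
          < c (st (ty j)) * nom V m (star ty par j) {ty j}) (ε₄ (st (ty j)))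
        h1 x₀
      refine le_trans (le_of_eq ?_) h2
      have h3 : EIA_Yb t pos L V S m (c Ds) (fun j => c (st (ty j))) ty par F B (Sum.inr j)
          = (fun α =>
          @ite ℝ ((ext t pos L (star ty par j) {ty j} S α : ℝ)
              < c (st (ty j)) * nom V m (star ty par j) {ty j})
            (Classical.propDecidable _) 1 0) := by
        funext α
        simp only [EIA_Yb]
      rw [h3]
      rfl
  · -- hJb
    intro j
    have h1 : (Finset.univ.filter fun b : Fin q ⊕ Fin n => j ∈ EIA_Ab cl A b) ⊆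
        ((Finset.univ.filter fun i : Fin q => j ∈ A i).image Sum.inl) ∪
        ((Finset.univ.filter fun j' : Fin n => j ∈ cl j').image Sum.inr) := by
      rintro (i | j') hb'
      · have h2 := (Finset.mem_filter.mp hb').2
        exact Finset.mem_union_left _ (Finset.mem_image_of_mem _
          (Finset.mem_filter.mpr ⟨Finset.mem_univ _, h2⟩))
      · have h2 := (Finset.mem_filter.mp hb').2
        simp only [EIA_Ab] at h2
        exact Finset.mem_union_right _ (Finset.mem_image_of_mem _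
          (Finset.mem_filter.mpr ⟨Finset.mem_univ _, Finset.mem_of_mem_erase h2⟩))
    calc _ ≤ _ := Finset.card_le_card h1
      _ ≤ _ := Finset.card_union_le _ _
      _ ≤ J + J := Nat.add_le_add (Finset.card_image_le.trans (hI.A_cnt j))
        (Finset.card_image_le.trans (hI.cl_cnt j))
      _ = 2 * J := by ring
  · -- hY0
    rintro (p | p) (i | j) x
    · simp only [EIA_Y]
      split_ifs
      · exact div_nonneg (by positivity) (hnom i)
      · exact le_rfl
    · simp only [EIA_Y]; exact le_rfl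
    · simp only [EIA_Y]; exact le_rfl
    · simp only [EIA_Y]
      split_ifs
      · exact EIA_w_nonneg t pos L S h p
      · exact le_rfl
      · exact le_rfl
  · -- hY1
    rintro (p | p) (i | j) x
    · simp only [EIA_Y]
      split_ifs with hp
      · exact div_le_one_of_le₀ ((hitaI i p.1 p.2 hp.1 hp.2).1 x) (hnom i)
      · norm_num
    · simp only [EIA_Y]; norm_num
    · simp only [EIA_Y]; norm_num
    · simp only [EIA_Y]
      split_ifs
      · exact EIA_w_le t pos L S h hh0 p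
      · norm_num
      · norm_num
  · -- hA
    rintro (p | p) (i | j) k hk
    · simp only [EIA_A] at hk ⊢
      split_ifs at hk ⊢ with hp
      · exact hI.A_par i k hk
      · exact absurd hk (Finset.notMem_empty _)
    · simp only [EIA_A] at hk; exact absurd hk (Finset.notMem_empty _)
    · simp only [EIA_A] at hk; exact absurd hk (Finset.notMem_empty _)
    · simp only [EIA_A] at hk ⊢
      split_ifs at hk ⊢ with hp
      · exact hI.cl_par j k hk
      · exact absurd hk (Finset.notMem_empty _)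
  · -- hAi
    rintro (p | p) (i | j)
    · simp only [EIA_A]
      split_ifs
      · exact hI.A_inj i
      · rw [Finset.coe_empty]; exact Set.injOn_empty _
    · simp only [EIA_A]; rw [Finset.coe_empty]; exact Set.injOn_empty _
    · simp only [EIA_A]; rw [Finset.coe_empty]; exact Set.injOn_empty _
    · simp only [EIA_A]
      split_ifs
      · exact hI.cl_inj j
      · rw [Finset.coe_empty]; exact Set.injOn_empty _
  · -- hYd
    rintro (p | p) (i | j) x x' hx
    · simp only [EIA_Y]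
      by_cases hp : p.1 ∈ B i ∧ p.2 ∈ S p.1
      · rw [if_pos hp, if_pos hp, hdep2 i p.1 p.2 x x']
        simp only [EIA_A] at hx
        rw [if_pos hp] at hx
        exact hx
      · rw [if_neg hp, if_neg hp]
    · simp only [EIA_Y]
    · simp only [EIA_Y]
    · simp only [EIA_Y]
      by_cases hp : ty j = p.1
      · rw [if_pos hp, if_pos hp]
        have h1 : x p.1 = x' p.1 := by
          rw [← hp]
          apply hx
          simp only [EIA_A]
          rw [if_pos hp]
          exact hI.cl_self j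
        rw [h1]
      · rw [if_neg hp, if_neg hp]
  · -- hdisj
    rintro (p | p) (i | j) (i' | j') hne
    · simp only [EIA_A]
      split_ifs with h1 h2 h2
      · exact hI.A_disj i i' (fun hcon => hne (by rw [hcon])) ⟨p.1, h1.1, h2.1⟩
      · exact Finset.disjoint_empty_right _
      · exact Finset.disjoint_empty_left _
      · exact Finset.disjoint_empty_left _
    · simp only [EIA_A]; exact Finset.disjoint_empty_right _
    · simp only [EIA_A]; exact Finset.disjoint_empty_left _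
    · simp only [EIA_A]; exact Finset.disjoint_empty_left _
    · simp only [EIA_A]; exact Finset.disjoint_empty_left _
    · simp only [EIA_A]; exact Finset.disjoint_empty_left _
    · simp only [EIA_A]; exact Finset.disjoint_empty_right _
    · simp only [EIA_A]
      split_ifs with h1 h2 h2
      · exact hI.cl_disj j j' (fun hcon => hne (by rw [hcon])) (h1.trans h2.symm)
      · exact Finset.disjoint_empty_right _
      · exact Finset.disjoint_empty_left _
      · exact Finset.disjoint_empty_left _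
  · -- hμ
    rintro (p | p)
    · rw [Fintype.sum_sum_type]
      have h1 : ∀ j : Fin n, (∏ k ∈ EIA_A S ty cl B A (Sum.inl p) (Sum.inr j), Cf (st (ty k))) *
          Phi t pos L V m (edg ty par (EIA_A S ty cl B A (Sum.inl p) (Sum.inr j)))
            (EIA_Y t pos L V S m h ty F B (Sum.inl p) (Sum.inr j)) ∅ x₀ = 0 := by
        intro j
        have h2 : EIA_Y t pos L V S m h ty F B (Sum.inl p) (Sum.inr j) = fun _ => 0 := rfl
        rw [h2, EIA_Phi_zero, mul_zero]
      rw [Finset.sum_eq_zero (fun j _ => h1 j), add_zero]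
      have h2 : ∀ i : Fin q, (∏ k ∈ EIA_A S ty cl B A (Sum.inl p) (Sum.inl i), Cf (st (ty k))) *
          Phi t pos L V m (edg ty par (EIA_A S ty cl B A (Sum.inl p) (Sum.inl i)))
            (EIA_Y t pos L V S m h ty F B (Sum.inl p) (Sum.inl i)) ∅ x₀
            ≤ C ^ J * (Ca * (h : ℝ) ^ 6 / (N : ℝ)) := by
        intro i
        by_cases hp : p.1 ∈ B i ∧ p.2 ∈ S p.1
        · have h3 : EIA_A S ty cl B A (Sum.inl p) (Sum.inl i) = A i := by
            simp only [EIA_A]; rw [if_pos hp]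
          have h4' : EIA_Y (n := n) t pos L V S m h ty F B (Sum.inl p) (Sum.inl i) = fun α =>
              (h : ℝ) ^ 6 * (ext t pos L (F i) ((B i).erase p.1) S
                (Function.update α p.1 p.2) : ℝ) / nom V m (F i) (B i) := by
            funext α
            simp only [EIA_Y]; rw [if_pos hp]
          rw [h3, h4']
          exact hCpow _ _ _ (hI.A_card i) ((hitaI i p.1 p.2 hp.1 hp.2).2 x₀) (by positivity)
        · have h4' : EIA_Y (n := n) t pos L V S m h ty F B (Sum.inl p) (Sum.inl i) = fun _ => 0 := by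
            funext α
            simp only [EIA_Y]; rw [if_neg hp]
          rw [h4', EIA_Phi_zero, mul_zero]
          positivity
      calc _ ≤ ∑ _i : Fin q, C ^ J * (Ca * (h : ℝ) ^ 6 / (N : ℝ)) :=
            Finset.sum_le_sum fun i _ => h2 i
        _ = (q : ℝ) * (C ^ J * (Ca * (h : ℝ) ^ 6 / (N : ℝ))) := by
            rw [Finset.sum_const, Finset.card_univ, Fintype.card_fin, nsmul_eq_mul]
        _ ≤ _ := hc8a
    · rw [Fintype.sum_sum_type]
      have h1 : ∀ i : Fin q, (∏ k ∈ EIA_A S ty cl B A (Sum.inr p) (Sum.inl i), Cf (st (ty k))) *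
          Phi t pos L V m (edg ty par (EIA_A S ty cl B A (Sum.inr p) (Sum.inl i)))
            (EIA_Y t pos L V S m h ty F B (Sum.inr p) (Sum.inl i)) ∅ x₀ = 0 := by
        intro i
        have h2 : EIA_Y (n := n) t pos L V S m h ty F B (Sum.inr p) (Sum.inl i) = fun _ => 0 := rfl
        rw [h2, EIA_Phi_zero, mul_zero]
      rw [Finset.sum_eq_zero (fun i _ => h1 i), zero_add]
      have h2 : ∀ j : Fin n, (∏ k ∈ EIA_A S ty cl B A (Sum.inr p) (Sum.inr j), Cf (st (ty k))) *
          Phi t pos L V m (edg ty par (EIA_A S ty cl B A (Sum.inr p) (Sum.inr j)))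
            (EIA_Y t pos L V S m h ty F B (Sum.inr p) (Sum.inr j)) ∅ x₀
            ≤ C ^ J * ((h : ℝ) ^ 6 * Cb / (N : ℝ)) := by
        intro j
        by_cases hp : ty j = p.1
        · have h3 : EIA_A S ty cl B A (Sum.inr p) (Sum.inr j) = cl j := by
            simp only [EIA_A]; rw [if_pos hp]
          have h4' : EIA_Y (q := q) t pos L V S m h ty F B (Sum.inr p) (Sum.inr j) = fun α =>
              if α p.1 ∈ EIA_Cand t pos L S p then EIA_w t pos L S h p else 0 := by
            funext α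
            simp only [EIA_Y]; rw [if_pos hp]
          rw [h3, h4']
          refine hCpow _ _ _ (hI.cl_card j) ?_ (by positivity)
          have h5 := hitc h hh1 N M hN hM t V Vg nn L0 hP p.1 (EIA_Cand t pos L S p)
            (by
              intro x hx
              have hx2 := (Finset.mem_filter.mp hx).1
              exact ⟨hSV p.1 hx2, hVX p.1 x hx2⟩)
            (edg ty par (cl j)) (hI.cl_ok j).posd (hI.cl_ok j).simp
            (EIA_w t pos L S h p) (EIA_w_nonneg t pos L S h p) x₀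
          refine h5.trans ?_
          have h6' := EIA_w_mul t pos L S h hh0 p
          exact div_le_div_of_nonneg_right (mul_le_mul_of_nonneg_right h6' hCb.le) hNp.le
        · have h4' : EIA_Y (q := q) t pos L V S m h ty F B (Sum.inr p) (Sum.inr j) = fun _ => 0 := by
            funext α
            simp only [EIA_Y]; rw [if_neg hp]
          rw [h4', EIA_Phi_zero, mul_zero]
          positivity
      calc _ ≤ ∑ _j : Fin n, C ^ J * ((h : ℝ) ^ 6 * Cb / (N : ℝ)) :=
            Finset.sum_le_sum fun j _ => h2 j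
        _ = (n : ℝ) * (C ^ J * ((h : ℝ) ^ 6 * Cb / (N : ℝ))) := by
            rw [Finset.sum_const, Finset.card_univ, Fintype.card_fin, nsmul_eq_mul]
        _ ≤ _ := hc8b
  · -- hμc
    have h1 := hhe h hhe'
    refine le_trans ?_ h1
    rw [Fintype.card_sum, Fintype.card_prod, Fintype.card_prod, Fintype.card_prod,
      Fintype.card_finset, Fintype.card_fun, Fintype.card_fin, Fintype.card_fin]
    push_cast
    rw [hNr]
    have h2 : (h : ℝ) ^ (8 * P.al) ≤ (h : ℝ) ^ (8 * P.al * (v + 1)) :=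
      pow_le_pow_right₀ hh1r (Nat.le_mul_of_pos_right _ (Nat.succ_pos v))
    have h3 : ((h : ℝ) ^ (8 * P.al)) ^ v ≤ (h : ℝ) ^ (8 * P.al * (v + 1)) := by
      rw [← pow_mul]
      exact pow_le_pow_right₀ hh1r (Nat.mul_le_mul_left _ (Nat.le_succ v))
    have h4' : (0 : ℝ) ≤ (v : ℝ) := Nat.cast_nonneg v
    have h5 : (0 : ℝ) ≤ (v : ℝ) * 2 ^ v := by positivity
    calc (v : ℝ) * (h : ℝ) ^ (8 * P.al) + (v : ℝ) * (2 ^ v * ((h : ℝ) ^ (8 * P.al)) ^ v)
        = (v : ℝ) * (h : ℝ) ^ (8 * P.al) + (v : ℝ) * 2 ^ v * ((h : ℝ) ^ (8 * P.al)) ^ v := by ring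
      _ ≤ (v : ℝ) * (h : ℝ) ^ (8 * P.al * (v + 1))
          + (v : ℝ) * 2 ^ v * (h : ℝ) ^ (8 * P.al * (v + 1)) :=
        add_le_add (mul_le_mul_of_nonneg_left h2 h4') (mul_le_mul_of_nonneg_left h3 h5)
      _ = _ := by ring
  · -- hav
    intro j φ hinv
    obtain ⟨hφ1, hφ2, hφ3, hφ4, hφ5⟩ := hinv
    set x := asg ty ((cl j).erase j) φ x₀ with hx
    have hxi : ∀ i ∈ par j, x (ty i) = φ i := fun i hi =>
      asg_mem ty ((cl j).erase j) (hclinj j) φ x₀ i (hparcl j i hi)
    set pt : Fin v × Finset (Fin v) × (Fin v → Fin N) := (ty j, (par j).image ty, x) with hpt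
    set W := EIA_Cand t pos L S pt with hW
    set s := st (ty j) with hs
    have hsD : s < Ds := hI.st_lt j
    -- many candidates
    have hE : c s * Rn V m ty par j ≤
        (ext t pos L (star ty par j) {ty j} S x : ℝ) := by
      have h1 := hφ4 (Sum.inr j) (by
        intro i hi
        simp only [EIA_Ab] at hi
        have hi2 := Finset.mem_erase.mp hi
        exact Fin.lt_def.mp (lt_of_le_of_ne (hI.cl_le j i hi2.2) hi2.1))
      simp only [EIA_Yb, EIA_Ab] at h1
      rw [← nom_star V m ty par j (hparinj j)]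
      by_contra hcon
      rw [not_le] at hcon
      rw [if_pos hcon] at h1
      exact lt_irrefl _ h1
    have hWc : c s * Rn V m ty par j ≤ (P.mu : ℝ) ^ P.dd * (W.card : ℝ) := by
      refine hE.trans ?_
      rw [ext_star t pos L ty par j (hparinj j) (hparne j) S x]
      have h1 := EIA_sum_le P t pos V Vg L0 hMUL S ty par j (hI.par_pos j) (hI.par_card j) x
      exact_mod_cast h1
    have hcs : 0 < c s := hc s
    have hmu1 : (1 : ℝ) ≤ (P.mu : ℝ) := by exact_mod_cast EIA_mu P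
    have hmup : (0 : ℝ) < (P.mu : ℝ) ^ P.dd := by positivity
    have hκ1 : κ₁ ≤ 1 := by
      have h1 := hP.big (pos (ty j))
      have h2 := parts_le hP (pos (ty j))
      have h3 := h1.trans h2
      by_contra hcon
      rw [not_le] at hcon
      nlinarith
    have hRn : κ₁ ^ (1 + kp * P.dd) * (h : ℝ) ^ 16 ≤ Rn V m ty par j := by
      have h1 := nom_ge P h hh1 hN hM hP hκ (star ty par j) {ty j}
      rw [← hmdef, nom_star V m ty par j (hparinj j), Finset.card_singleton] at h1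
      have hsc : (star ty par j).card ≤ P.dd := by
        unfold star
        exact Finset.card_image_le.trans (hI.par_card j)
      refine le_trans ?_ h1
      refine mul_le_mul ?_ ?_ (by positivity) (by positivity)
      · exact pow_le_pow_of_le_one hκ.le hκ1
          (Nat.add_le_add_left (Nat.mul_le_mul_left _ hsc) _)
      · rw [le_div_iff₀ (by positivity), ← pow_add]
        refine pow_le_pow_right₀ hh1r ?_
        have h2 : P.be * (star ty par j).card ≤ P.be * P.dd := Nat.mul_le_mul_left _ hsc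
        have h3 := P.hdd
        calc 16 + 8 * P.be * (star ty par j).card
            = 16 + 8 * (P.be * (star ty par j).card) := by ring
          _ ≤ 16 + 8 * (P.be * P.dd) := by omega
          _ ≤ 8 * P.al * 1 := by omega
    have hW6 : (h : ℝ) ^ 6 ≤ (W.card : ℝ) := by
      have h1 := hhb0 h hhb
      rw [div_le_iff₀ (by positivity)] at h1
      have h2 : (P.mu : ℝ) ^ P.dd * (h : ℝ) ^ 6 ≤ (P.mu : ℝ) ^ P.dd * (W.card : ℝ) := by
        calc (P.mu : ℝ) ^ P.dd * (h : ℝ) ^ 6
            ≤ ((h : ℝ) ^ 10 * (cm * κ₁ ^ (1 + kp * P.dd))) * (h : ℝ) ^ 6 :=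
              mul_le_mul_of_nonneg_right h1 (by positivity)
          _ = cm * (κ₁ ^ (1 + kp * P.dd) * (h : ℝ) ^ 16) := by ring
          _ ≤ c s * (κ₁ ^ (1 + kp * P.dd) * (h : ℝ) ^ 16) :=
              mul_le_mul_of_nonneg_right (hcm2 s hsD) (by positivity)
          _ ≤ c s * Rn V m ty par j := mul_le_mul_of_nonneg_left hRn hcs.le
          _ ≤ _ := hWc
      exact le_of_mul_le_mul_left h2 hmup
    have hWpos : (0 : ℝ) < (W.card : ℝ) := lt_of_lt_of_le (by positivity) hW6
    set U := Finset.univ.filter fun i : Fin n => i < j ∧ ty i = ty j ∧ φ i ∈ W with hU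
    have hUc : (U.card : ℝ) ≤ (W.card : ℝ) / 2 := by
      have h1 := hφ5 (Sum.inr pt)
      have hw : EIA_w t pos L S h pt = (h : ℝ) ^ 6 / (W.card : ℝ) := by
        unfold EIA_w
        rw [← hW, if_pos hW6]
      have h2 : ∑ i ∈ U.image (Sum.inr : Fin n → Fin q ⊕ Fin n),
          EIA_Y t pos L V S m h ty F B (Sum.inr pt) i
            (asg ty (EIA_A S ty cl B A (Sum.inr pt) i) φ x₀)
          = (U.card : ℝ) * ((h : ℝ) ^ 6 / (W.card : ℝ)) := by
        rw [Finset.sum_image (fun a _ b _ hab => Sum.inr_injective hab)]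
        rw [← nsmul_eq_mul, ← Finset.sum_const]
        refine Finset.sum_congr rfl fun i hi => ?_
        obtain ⟨hi1, hi2, hi3⟩ := (Finset.mem_filter.mp hi).2
        have h3 : EIA_A S ty cl B A (Sum.inr pt) (Sum.inr i) = cl i := by
          simp only [EIA_A]; rw [if_pos hi2]
        rw [h3]
        simp only [EIA_Y]
        have h5 : asg ty (cl i) φ x₀ (ty j) = φ i := by
          rw [← hi2]
          exact asg_mem ty (cl i) (hI.cl_inj i) φ x₀ i (hI.cl_self i)
        rw [if_pos hi2, hw, if_pos]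
        rw [← hW]
        change asg ty (cl i) φ x₀ (ty j) ∈ W
        rw [h5]
        exact hi3
      have h3 : U.image (Sum.inr : Fin n → Fin q ⊕ Fin n) ⊆
          Finset.univ.filter (fun i : Fin q ⊕ Fin n =>
            ∀ a ∈ EIA_A S ty cl B A (Sum.inr pt) i, (a : ℕ) < (j : ℕ)) := by
        intro i hi
        obtain ⟨i', hi', rfl⟩ := Finset.mem_image.mp hi
        obtain ⟨hi1, hi2, hi3⟩ := (Finset.mem_filter.mp hi').2
        refine Finset.mem_filter.mpr ⟨Finset.mem_univ _, fun a haa => ?_⟩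
        simp only [EIA_A] at haa
        rw [if_pos hi2] at haa
        exact lt_of_le_of_lt (show (a : ℕ) ≤ (i' : ℕ) from hI.cl_le _ a haa) hi1
      have h5 : ∑ i ∈ U.image (Sum.inr : Fin n → Fin q ⊕ Fin n),
          EIA_Y t pos L V S m h ty F B (Sum.inr pt) i
            (asg ty (EIA_A S ty cl B A (Sum.inr pt) i) φ x₀) ≤
          3 * (c₆ * (h : ℝ) ^ 6) := by
        refine le_trans (Finset.sum_le_sum_of_subset_of_nonneg h3 ?_) h1
        rintro (i | i) _ _
        · simp only [EIA_Y]; exact le_rfl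
        · simp only [EIA_Y]
          split_ifs
          · exact EIA_w_nonneg t pos L S h pt
          · exact le_rfl
          · exact le_rfl
      rw [h2, ← mul_div_assoc, div_le_iff₀ hWpos] at h5
      have h7 : (0 : ℝ) < (h : ℝ) ^ 6 := by positivity
      have h8 : (U.card : ℝ) * (h : ℝ) ^ 6 ≤ (3 * c₆ * (W.card : ℝ)) * (h : ℝ) ^ 6 := by
        calc (U.card : ℝ) * (h : ℝ) ^ 6 ≤ 3 * (c₆ * (h : ℝ) ^ 6) * (W.card : ℝ) := h5
          _ = _ := by ring
      have h9 := le_of_mul_le_mul_right h8 h7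
      nlinarith
    refine ⟨W \ U.image φ, ?_, ?_, ?_, ?_⟩
    · intro y hy
      exact hSV _ (Finset.mem_filter.mp (Finset.mem_sdiff.mp hy).1).1
    · intro y hy i hi hti hcon
      obtain ⟨hy1, hy2⟩ := Finset.mem_sdiff.mp hy
      refine hy2 (Finset.mem_image.mpr ⟨i, Finset.mem_filter.mpr
        ⟨Finset.mem_univ _, hi, hti, ?_⟩, hcon⟩)
      rw [hcon]
      exact hy1
    · intro y hy i hi
      have h1 := (Finset.mem_filter.mp (Finset.mem_sdiff.mp hy).1).2 (ty i)
        (Finset.mem_image_of_mem _ hi)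
      have h2 := hxi i hi
      change 0 < pmul t pos L (ty i) (ty j) (x (ty i)) y at h1
      rw [h2] at h1
      exact h1
    · have h1 := Finset.le_card_sdiff (U.image φ) W
      have h2 : (U.image φ).card ≤ U.card := Finset.card_image_le
      have h3 : (W.card : ℝ) ≤ ((W \ U.image φ).card : ℝ) + (U.card : ℝ) := by
        have h5 : W.card ≤ (W \ U.image φ).card + U.card := by omega
        exact_mod_cast h5
      have h5 : (W.card : ℝ) ≤ 2 * ((W \ U.image φ).card : ℝ) := by linarith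
      have h7 : 4 * (P.mu : ℝ) ^ P.dd / c s ≤ Cf s := le_max_right _ _
      have h8 : (0 : ℝ) ≤ ((W \ U.image φ).card : ℝ) := Nat.cast_nonneg _
      calc 2 * Rn V m ty par j = 2 / c s * (c s * Rn V m ty par j) := by field_simp
        _ ≤ 2 / c s * ((P.mu : ℝ) ^ P.dd * (W.card : ℝ)) :=
          mul_le_mul_of_nonneg_left hWc (by positivity)
        _ ≤ 2 / c s * ((P.mu : ℝ) ^ P.dd * (2 * ((W \ U.image φ).card : ℝ))) :=
          mul_le_mul_of_nonneg_left (mul_le_mul_of_nonneg_left h5 hmup.le) (by positivity)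
        _ = 4 * (P.mu : ℝ) ^ P.dd / c s * ((W \ U.image φ).card : ℝ) := by ring
        _ ≤ Cf s * ((W \ U.image φ).card : ℝ) := mul_le_mul_of_nonneg_right h7 h8

end Pool.Agent.CUG
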