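import Pool.Agent.CUG.EIA
import Pool.Agent.CUG.VST
import Pool.Agent.CUB.FP

set_option autoImplicit false

/-!
# CUG.EIB

Adapt CUB/EIB.lean. `K₂` from `vst`; `c₆ = min (c Ds/(48(v+1))) (1/6)`, `c₈, h₀` from `eia`; `fp` with `H = c Ds · h^6`,
`c₅ = 3 c₆/c Ds`.
-/

namespace Pool.Agent.CUG

open Pool.Agent.CUB
open scoped Classical

private theorem EIB_box_filter {v N : ℕ} (B : Finset (Fin v)) (S : Fin v → Finset (Fin N))
    (α : Fin v → Fin N) (d : Fin v) (hd : d ∈ B) (x : Fin N) (hx : x ∈ S d) :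
    (box B S α).filter (fun y => y d = x) = box (B.erase d) S (Function.update α d x) := by
  ext y
  unfold box
  rw [Finset.mem_filter, Fintype.mem_piFinset, Fintype.mem_piFinset]
  constructor
  · rintro ⟨h1, h2⟩ i
    by_cases hi : i = d
    · subst hi
      simp [h2]
    · have h3 := h1 i
      by_cases hB : i ∈ B
      · simpa [hi, hB] using h3
      · simpa [hi, hB] using h3
  · intro h1
    have h2 : y d = x := by
      have := h1 d
      simpa using this
    refine ⟨fun i => ?_, h2⟩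
    by_cases hi : i = d
    · subst hi
      rw [if_pos hd, h2]
      exact hx
    · have h3 := h1 i
      by_cases hB : i ∈ B
      · simpa [hi, hB] using h3
      · simpa [hi, hB] using h3

private theorem EIB_box_filter' {v N : ℕ} (B : Finset (Fin v)) (S : Fin v → Finset (Fin N))
    (α : Fin v → Fin N) (d : Fin v) (hd : d ∈ B) (x : Fin N) (hx : x ∉ S d) :
    (box B S α).filter (fun y => y d = x) = ∅ := by
  rw [Finset.filter_eq_empty_iff]
  intro y hy h2
  unfold box at hy
  have h3 := Fintype.mem_piFinset.1 hy d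
  rw [if_pos hd, h2] at h3
  exact hx h3

private theorem EIB_asg {v n N : ℕ} (ty : Fin n → Fin v) (A : Finset (Fin n)) (φ : Fin n → Fin N)
    (x₀ : Fin v → Fin N) (hA : Set.InjOn ty (A : Set (Fin n))) (j : Fin n) (hj : j ∈ A) :
    asg ty A φ x₀ (ty j) = φ j := by
  have hex : ∃ j' ∈ A, ty j' = ty j := ⟨j, hj, rfl⟩
  have h1 : asg ty A φ x₀ (ty j) = φ (Classical.choose hex) := by
    unfold asg
    rw [dif_pos hex]
  have h2 := Classical.choose_spec hex
  rw [h1, hA (Finset.mem_coe.2 h2.1) (Finset.mem_coe.2 hj) h2.2]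

/-- The weight of a candidate copy. -/
private noncomputable def EIB_om {kp v N M : ℕ} (t : Fin M × Fin kp → Fin N)
    (pos : Fin v → Fin kp)
    (L : Fin v × Fin v → Finset (Fin M)) (F : Finset (Fin v × Fin v)) (B : Finset (Fin v))
    (S : Fin v → Finset (Fin N)) (α : Fin v → Fin N) (y : Fin v → Fin N) : ℝ :=
  if y ∈ box B S α then ((∏ e ∈ F, mm t pos L e y : ℕ) : ℝ) else 0

private theorem EIB_om_nonneg {kp v N M : ℕ} (t : Fin M × Fin kp → Fin N)
    (pos : Fin v → Fin kp)
    (L : Fin v × Fin v → Finset (Fin M)) (F : Finset (Fin v × Fin v)) (B : Finset (Fin v))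
    (S : Fin v → Finset (Fin N)) (α : Fin v → Fin N) (y : Fin v → Fin N) :
    0 ≤ EIB_om t pos L F B S α y := by
  unfold EIB_om
  split_ifs
  · exact Nat.cast_nonneg _
  · exact le_rfl

private theorem EIB_om_sum {kp v N M : ℕ} (t : Fin M × Fin kp → Fin N)
    (pos : Fin v → Fin kp)
    (L : Fin v × Fin v → Finset (Fin M)) (F : Finset (Fin v × Fin v)) (B : Finset (Fin v))
    (S : Fin v → Finset (Fin N)) (α : Fin v → Fin N) :
    (ext t pos L F B S α : ℝ) = ∑ y, EIB_om t pos L F B S α y := by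
  unfold EIB_om ext
  rw [Finset.sum_ite_mem, Finset.univ_inter]
  push_cast
  rfl

private theorem EIB_om_fiber {kp v N M : ℕ} (t : Fin M × Fin kp → Fin N)
    (pos : Fin v → Fin kp)
    (L : Fin v × Fin v → Finset (Fin M)) (F : Finset (Fin v × Fin v)) (B : Finset (Fin v))
    (S : Fin v → Finset (Fin N)) (α : Fin v → Fin N) (d : Fin v) (x : Fin N) :
    ∑ y ∈ Finset.univ.filter (fun y : Fin v → Fin N => y d = x), EIB_om t pos L F B S α y =
      ∑ y ∈ (box B S α).filter (fun y => y d = x), ((∏ e ∈ F, mm t pos L e y : ℕ) : ℝ) := by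
  unfold EIB_om
  rw [← Finset.sum_filter, Finset.filter_filter]
  refine Finset.sum_congr ?_ fun _ _ => rfl
  ext y
  simp only [Finset.mem_filter, Finset.mem_univ, true_and]
  exact and_comm

private theorem EIB_fiber_in {kp v N M : ℕ} (t : Fin M × Fin kp → Fin N)
    (pos : Fin v → Fin kp)
    (L : Fin v × Fin v → Finset (Fin M)) (F : Finset (Fin v × Fin v)) (B : Finset (Fin v))
    (S : Fin v → Finset (Fin N)) (α : Fin v → Fin N) (d : Fin v) (hd : d ∈ B) (x : Fin N)
    (hx : x ∈ S d) :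
    ∑ y ∈ Finset.univ.filter (fun y : Fin v → Fin N => y d = x), EIB_om t pos L F B S α y =
      (ext t pos L F (B.erase d) S (Function.update α d x) : ℝ) := by
  rw [EIB_om_fiber, EIB_box_filter B S α d hd x hx]
  unfold ext
  push_cast
  rfl

private theorem EIB_fiber_out {kp v N M : ℕ} (t : Fin M × Fin kp → Fin N)
    (pos : Fin v → Fin kp)
    (L : Fin v × Fin v → Finset (Fin M)) (F : Finset (Fin v × Fin v)) (B : Finset (Fin v))
    (S : Fin v → Finset (Fin N)) (α : Fin v → Fin N) (d : Fin v) (hd : d ∈ B) (x : Fin N)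
    (hx : x ∉ S d) :
    ∑ y ∈ Finset.univ.filter (fun y : Fin v → Fin N => y d = x), EIB_om t pos L F B S α y = 0 := by
  rw [EIB_om_fiber, EIB_box_filter' B S α d hd x hx, Finset.sum_empty]

private theorem EIB_log (K v : ℕ) (c c₈ : ℝ) (hc : 0 < c) (hc₈ : 0 < c₈) :
    ∃ h₁ : ℕ, ∀ h ≥ h₁, ∀ q : ℕ, (q : ℝ) ≤ c₈ * ((h ^ K : ℕ) : ℝ) →
      4 * (v : ℝ) * Real.log q ≤ c * (h : ℝ) ^ 6 := by
  obtain ⟨h₁, hh₁⟩ := exists_nat_ge (4 * (v : ℝ) * (|Real.log c₈| + (K : ℝ)) / c)
  refine ⟨max h₁ 1, fun h hh q hq => ?_⟩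
  have h1 : (1 : ℝ) ≤ h := by
    have : 1 ≤ h := le_trans (le_max_right _ _) hh
    exact_mod_cast this
  have h2 : 4 * (v : ℝ) * (|Real.log c₈| + (K : ℝ)) ≤ c * (h : ℝ) := by
    have h3 : (h₁ : ℝ) ≤ h := by
      have : h₁ ≤ h := le_trans (le_max_left _ _) hh
      exact_mod_cast this
    have h4 := le_trans hh₁ h3
    rw [div_le_iff₀ hc] at h4
    linarith
  have hv : (0 : ℝ) ≤ v := Nat.cast_nonneg v
  have h5 : Real.log q ≤ (|Real.log c₈| + (K : ℝ)) * h := by
    rcases Nat.eq_zero_or_pos q with h0 | h0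
    · subst h0
      simp only [Nat.cast_zero, Real.log_zero]
      positivity
    · have hq0 : (0 : ℝ) < q := by exact_mod_cast h0
      have hh0 : (0 : ℝ) < h := by linarith
      calc Real.log q ≤ Real.log (c₈ * ((h ^ K : ℕ) : ℝ)) := Real.log_le_log hq0 hq
        _ = Real.log c₈ + (K : ℝ) * Real.log h := by
            push_cast
            rw [Real.log_mul (ne_of_gt hc₈) (by positivity), Real.log_pow]
        _ ≤ |Real.log c₈| * 1 + (K : ℝ) * h := by
            have h6 := le_abs_self (Real.log c₈)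
            have h7 := mul_le_mul_of_nonneg_left (Real.log_le_self (le_of_lt hh0))
              (Nat.cast_nonneg (α := ℝ) K)
            linarith
        _ ≤ |Real.log c₈| * h + (K : ℝ) * h := by
            have h8 := mul_le_mul_of_nonneg_left h1 (abs_nonneg (Real.log c₈))
            linarith
        _ = (|Real.log c₈| + (K : ℝ)) * h := by ring
  calc 4 * (v : ℝ) * Real.log q ≤ 4 * (v : ℝ) * ((|Real.log c₈| + (K : ℝ)) * h) :=
        mul_le_mul_of_nonneg_left h5 (by positivity)
    _ = (4 * (v : ℝ) * (|Real.log c₈| + (K : ℝ))) * h := by ring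
    _ ≤ (c * (h : ℝ)) * h := mul_le_mul_of_nonneg_right h2 (by linarith)
    _ = c * (h : ℝ) ^ 2 := by ring
    _ ≤ c * (h : ℝ) ^ 6 := by
        refine mul_le_mul_of_nonneg_left ?_ hc.le
        exact pow_le_pow_right₀ h1 (by norm_num)

private theorem EIB_nom_pos {v N : ℕ} (V : Fin v → Finset (Fin N)) (m : ℝ) (hm : 0 < m)
    (hV : ∀ i, 0 < ((V i).card : ℝ)) (F : Finset (Fin v × Fin v)) (B : Finset (Fin v)) :
    0 < nom V m F B := by
  unfold nom
  refine mul_pos (Finset.prod_pos fun i _ => hV i) (Finset.prod_pos fun e _ => ?_)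
  exact div_pos hm (mul_pos (hV _) (hV _))

private theorem EIB_msz_pos {kp : ℕ} (N M : ℕ) (nn : Fin kp → ℕ) (hN : 0 < (N : ℝ)) (hM : 0 < (M : ℝ))
    (hn : ∀ a, 0 < (nn a : ℝ)) : 0 < msz N M nn := by
  unfold msz
  exact mul_pos hM (Finset.prod_pos fun a _ => div_pos (hn a) hN)

/-- Realisation of an instance. -/
theorem eib {kp : ℕ} (P : Prm) (v : ℕ) (pos : Fin v → Fin kp) (st : Fin v → ℕ) (J Ds : ℕ)
    (c₀ κ₁ K₁ εin : ℝ) (c ε₄ Km : ℕ → ℝ)
    (hc₀ : 0 < c₀) (hκ : 0 < κ₁) (hK₁ : 0 < K₁) (hεin : 0 < εin)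
    (hc : ∀ s, 0 < c s) (hε : ∀ s, 0 < ε₄ s) (hKm1 : ∀ s, 1 ≤ Km s) (hKmm : Monotone Km)
    (hKms : ∀ s, 2 * (J : ℝ) * max 4 (4 * (P.mu : ℝ) ^ P.dd / c s) ≤ Km (s + 1))
    (h4 : ∀ s ≤ Ds, Km s ^ J * ε₄ s < 1) :
    ∃ c₈ : ℝ, 0 < c₈ ∧ ∃ h₀ : ℕ, ∀ h ≥ h₀, ∀ N M : ℕ,
    N = h ^ (8 * P.al) → M = h ^ (8 * P.ga) →
    ∀ t : Fin M × Fin kp → Fin N, CR P h t pos → MUL P.mu t → TOT P h K₁ t pos →
    (∀ s ≤ Ds, PG P t pos c₀ εin (c s) (ε₄ s) κ₁) →
    ∀ (V : Fin v → Finset (Fin N)) (Vg : Fin kp → Finset (Fin N)) (nn : Fin kp → ℕ)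
      (L0 : Finset (Fin M)), Parts pos κ₁ V Vg nn →
      Dense t pos (clsL t pos V Vg L0) V (msz N M nn) (allE pos) εin c₀ →
      ∀ (n q : ℕ) (ty : Fin n → Fin v) (par : Fin n → Finset (Fin n))
        (cl : Fin n → Finset (Fin n))
        (F : Fin q → Finset (Fin v × Fin v)) (B : Fin q → Finset (Fin v))
        (A : Fin q → Finset (Fin n)), Inst P J Ds pos st ty par cl F B A →
        (n : ℝ) ≤ c₈ * (N : ℝ) → (q : ℝ) ≤ c₈ * (N : ℝ) →
        ∃ (φ : Fin n → Fin N) (y : Fin q → Fin v → Fin N),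
          Realised t pos (clsL t pos V Vg L0) V ty par F B A φ y := by
  obtain ⟨K₂, hK₂, hvst⟩ := vst P v pos κ₁ K₁ hκ hK₁
  have hcD : 0 < c Ds := hc Ds
  set c₆ : ℝ := min (c Ds / (48 * ((v : ℝ) + 1))) (1 / 6) with hc₆def
  have hv0 : (0 : ℝ) ≤ v := Nat.cast_nonneg v
  have hc₆ : 0 < c₆ := by
    rw [hc₆def]
    refine lt_min ?_ ?_ <;> positivity
  have hc₆1 : c₆ ≤ c Ds / (48 * ((v : ℝ) + 1)) := min_le_left _ _
  have hc₆2 : 6 * c₆ ≤ 1 := by
    have := min_le_right (c Ds / (48 * ((v : ℝ) + 1))) (1 / 6)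
    rw [← hc₆def] at this
    linarith
  obtain ⟨c₈, hc₈, h₀, heia⟩ := eia P v pos st J Ds c₀ κ₁ K₂ εin c₆ c ε₄ Km hc₀ hκ hK₂ hεin hc₆
    hc₆2 hc hε hKm1 hKmm hKms h4
  obtain ⟨h₁, hlog⟩ := EIB_log (8 * P.al) v (c Ds) c₈ hcD hc₈
  refine ⟨c₈, hc₈, max (max h₀ h₁) 1, ?_⟩
  intro h hh N M hN hM t hCR hMUL hTOT hPG V Vg nn L0 hParts hDense n q ty par cl F B A
    hInst hn hq
  have hh0 : h₀ ≤ h := le_trans (le_trans (le_max_left _ _) (le_max_left _ _)) hh
  have hh1 : h₁ ≤ h := le_trans (le_trans (le_max_right _ _) (le_max_left _ _)) hh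
  have hh2 : 1 ≤ h := le_trans (le_max_right _ _) hh
  have hhR : (0 : ℝ) < (h : ℝ) := by exact_mod_cast hh2
  have hNpos : 0 < N := by rw [hN]; exact pow_pos hh2 _
  have hMpos : 0 < M := by rw [hM]; exact pow_pos hh2 _
  have hNR : (0 : ℝ) < (N : ℝ) := by exact_mod_cast hNpos
  have hMR : (0 : ℝ) < (M : ℝ) := by exact_mod_cast hMpos
  have hnn : ∀ a, (0 : ℝ) < (nn a : ℝ) := fun a =>
    lt_of_lt_of_le (mul_pos hκ hNR) (hParts.big a)
  have hVc : ∀ i, κ₁ * (N : ℝ) ≤ ((V i).card : ℝ) := by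
    intro i
    rw [hParts.cV i]
    exact hParts.big (pos i)
  have hVp : ∀ i, (0 : ℝ) < ((V i).card : ℝ) := fun i =>
    lt_of_lt_of_le (mul_pos hκ hNR) (hVc i)
  have hmp : 0 < msz N M nn := EIB_msz_pos N M nn hNR hMR hnn
  obtain ⟨S, hSV, hS2, hSG⟩ := hvst h N M hh2 hN hM t hTOT V hVc
  obtain ⟨φ, hφV, hφe, hφi, hgood, hsmall, huse⟩ := heia h hh0 N M hN hM t hCR hMUL hPG V Vg
    nn L0 S hParts hDense hSV hS2 hSG n q ty par cl F B A hInst hn hq
    (fun _ => ⟨0, hNpos⟩)
  set L := clsL t pos V Vg L0 with hL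
  set x₀ : Fin v → Fin N := fun _ => ⟨0, hNpos⟩ with hx₀
  have hnomp : ∀ i, 0 < nom V (msz N M nn) (F i) (B i) := fun i =>
    EIB_nom_pos V (msz N M nn) hmp hVp (F i) (B i)
  have hWp : ∀ i, 0 < (ext t pos L (F i) (B i) S (asg ty (A i) φ x₀) : ℝ) := fun i =>
    lt_of_lt_of_le (mul_pos hcD (hnomp i)) (hgood i)
  have hH : 0 < c Ds * (h : ℝ) ^ 6 := by positivity
  have hfib : ∀ i, ∀ d ∈ B i, ∀ x, ∑ y ∈ Finset.univ.filter (fun y : Fin v → Fin N => y d = x),
      EIB_om t pos L (F i) (B i) S (asg ty (A i) φ x₀) y =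
      if x ∈ S d then (ext t pos L (F i) ((B i).erase d) S
        (Function.update (asg ty (A i) φ x₀) d x) : ℝ) else 0 := by
    intro i d hd x
    split_ifs with hx
    · exact EIB_fiber_in t pos L (F i) (B i) S _ d hd x hx
    · exact EIB_fiber_out t pos L (F i) (B i) S _ d hd x hx
  have hqlog : 4 * (v : ℝ) * Real.log q ≤ c Ds * (h : ℝ) ^ 6 := by
    refine hlog h hh1 q ?_
    rw [← hN]
    exact hq
  obtain ⟨y, hy1, hy2⟩ := fp v q N B
    (fun i y => EIB_om t pos L (F i) (B i) S (asg ty (A i) φ x₀) y)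
    (fun i y => EIB_om_nonneg t pos L (F i) (B i) S _ y)
    (fun i => (ext t pos L (F i) (B i) S (asg ty (A i) φ x₀) : ℝ))
    (fun i => EIB_om_sum t pos L (F i) (B i) S _) hWp (c Ds * (h : ℝ) ^ 6) (3 * c₆ / c Ds)
    (by positivity)
    (by
      have e1 : 16 * (v : ℝ) * (3 * c₆ / c Ds) = 48 * (v : ℝ) * c₆ / c Ds := by ring
      rw [e1, div_le_one hcD]
      have e2 : 48 * ((v : ℝ) + 1) * c₆ ≤ c Ds := by
        have := hc₆1
        rw [le_div_iff₀ (by positivity)] at this
        linarith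
      nlinarith)
    hH hqlog
    (by
      intro i d hd x
      rw [hfib i d hd x, le_div_iff₀ hH]
      split_ifs with hx
      · have e1 := hsmall i d hd x hx
        have e2 := hgood i
        calc (ext t pos L (F i) ((B i).erase d) S
              (Function.update (asg ty (A i) φ x₀) d x) : ℝ) * (c Ds * (h : ℝ) ^ 6)
            = c Ds * ((h : ℝ) ^ 6 * (ext t pos L (F i) ((B i).erase d) S
              (Function.update (asg ty (A i) φ x₀) d x) : ℝ)) := by ring
          _ ≤ c Ds * nom V (msz N M nn) (F i) (B i) := mul_le_mul_of_nonneg_left e1 hcD.le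
          _ ≤ _ := e2
      · rw [zero_mul]
        exact (hWp i).le)
    (by
      intro d x
      by_cases hx : x ∈ S d
      · calc ∑ i ∈ Finset.univ.filter (fun i : Fin q => d ∈ B i),
              (∑ y ∈ Finset.univ.filter (fun y : Fin v → Fin N => y d = x),
                EIB_om t pos L (F i) (B i) S (asg ty (A i) φ x₀) y) /
              (ext t pos L (F i) (B i) S (asg ty (A i) φ x₀) : ℝ)
            ≤ ∑ i ∈ Finset.univ.filter (fun i : Fin q => d ∈ B i), (1 / (c Ds * (h : ℝ) ^ 6)) *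
              ((h : ℝ) ^ 6 * (ext t pos L (F i) ((B i).erase d) S
              (Function.update (asg ty (A i) φ x₀) d x) : ℝ) / nom V (msz N M nn) (F i) (B i)) := by
                refine Finset.sum_le_sum fun i hi => ?_
                have hd : d ∈ B i := (Finset.mem_filter.1 hi).2
                rw [hfib i d hd x, if_pos hx]
                have e2 := hgood i
                have e3 := hnomp i
                rw [div_le_iff₀ (hWp i)]
                have e4 : (0 : ℝ) ≤ (ext t pos L (F i) ((B i).erase d) S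
                  (Function.update (asg ty (A i) φ x₀) d x) : ℝ) := Nat.cast_nonneg _
                have e5 : 0 < (h : ℝ) ^ 6 := by positivity
                have e6 : 1 / (c Ds * (h : ℝ) ^ 6) *
                    ((h : ℝ) ^ 6 * (ext t pos L (F i) ((B i).erase d) S
                    (Function.update (asg ty (A i) φ x₀) d x) : ℝ) /
                    nom V (msz N M nn) (F i) (B i)) *
                    (ext t pos L (F i) (B i) S (asg ty (A i) φ x₀) : ℝ)
                    = (ext t pos L (F i) ((B i).erase d) S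
                    (Function.update (asg ty (A i) φ x₀) d x) : ℝ) *
                    ((ext t pos L (F i) (B i) S (asg ty (A i) φ x₀) : ℝ) /
                    (c Ds * nom V (msz N M nn) (F i) (B i))) := by
                  field_simp
                rw [e6]
                have e7 : 1 ≤ (ext t pos L (F i) (B i) S (asg ty (A i) φ x₀) : ℝ) /
                    (c Ds * nom V (msz N M nn) (F i) (B i)) := by
                  rw [one_le_div (mul_pos hcD e3)]
                  exact e2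
                have e8 := mul_le_mul_of_nonneg_left e7 e4
                linarith
          _ = (1 / (c Ds * (h : ℝ) ^ 6)) * ∑ i ∈ Finset.univ.filter (fun i : Fin q => d ∈ B i),
              ((h : ℝ) ^ 6 * (ext t pos L (F i) ((B i).erase d) S
              (Function.update (asg ty (A i) φ x₀) d x) : ℝ) / nom V (msz N M nn) (F i) (B i)) := by
                rw [Finset.mul_sum]
          _ ≤ (1 / (c Ds * (h : ℝ) ^ 6)) * (3 * c₆ * (h : ℝ) ^ 6) :=
                mul_le_mul_of_nonneg_left (huse d x hx) (by positivity)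
          _ = 3 * c₆ / c Ds := by
                have e5 : (h : ℝ) ^ 6 ≠ 0 := by positivity
                field_simp
      · refine le_trans (le_of_eq ?_) (show (0 : ℝ) ≤ 3 * c₆ / c Ds by positivity)
        refine Finset.sum_eq_zero fun i hi => ?_
        have hd : d ∈ B i := (Finset.mem_filter.1 hi).2
        rw [hfib i d hd x, if_neg hx, zero_div])
  have hybox : ∀ i, y i ∈ box (B i) S (asg ty (A i) φ x₀) := by
    intro i
    by_contra hcon
    have := hy1 i
    unfold EIB_om at this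
    rw [if_neg hcon] at this
    exact lt_irrefl _ this
  have hyprod : ∀ i, 0 < ∏ e ∈ F i, mm t pos L e (y i) := by
    intro i
    have := hy1 i
    unfold EIB_om at this
    rw [if_pos (hybox i)] at this
    exact_mod_cast this
  refine ⟨φ, y, ?_⟩
  exact
    { mem := hφV
      edge := hφe
      inj := hφi
      ymem := by
        intro i d hd
        have h1 := hybox i
        unfold box at h1
        have h2 := Fintype.mem_piFinset.1 h1 d
        rw [if_pos hd] at h2
        exact hSV d h2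
      yA := by
        intro i j hj
        have h1 := hybox i
        unfold box at h1
        have h2 := Fintype.mem_piFinset.1 h1 (ty j)
        rw [if_neg (hInst.BA i j), Finset.mem_singleton] at h2
        rw [h2, EIB_asg ty (A i) φ x₀ (hInst.A_inj i) j hj]
      yF := by
        intro i e he
        rcases Nat.eq_zero_or_pos (mm t pos L e (y i)) with h0 | h0
        · exfalso
          have h1 := hyprod i
          rw [Finset.prod_eq_zero he h0] at h1
          exact lt_irrefl _ h1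
        · exact h0
      yinj := hy2 }

end Pool.Agent.CUG
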