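import Pool.Agent.CUG.Defs

set_option autoImplicit false

/-!
# CUG.EKF

Adapt CUB/EKF.lean. ek: greedy (`R' a = Vr a \ {used}`). kd: if `f` spans a `K_{D+1}`, every `f a` has its `D`
neighbours inside, so two `K_{D+1}`'s sharing a vertex coincide. Enumerate the `(D+1)`-element cliques.
-/

namespace Pool.Agent.CUG

open Pool.Agent.CUB
open scoped Classical

/-- Greedy choice of disjoint blocks inside the reserved parts. -/
theorem ek {kp N M : ℕ} (t : Fin M × Fin kp → Fin N) (L0 : Finset (Fin M))
    (Vr : Fin kp → Finset (Fin N))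
    (hR : ∀ R' : Fin kp → Finset (Fin N), (∀ a, R' a ⊆ Vr a) →
      (∀ a, (Vr a).card ≤ 2 * (R' a).card) → ∃ i ∈ L0, ∀ a, t (i, a) ∈ R' a)
    (q : ℕ) (hq : ∀ a, 2 * q ≤ (Vr a).card) :
    ∃ ι : Fin q → Fin M, (∀ j, ι j ∈ L0) ∧ (∀ j a, t (ι j, a) ∈ Vr a) ∧
      ∀ j j', j ≠ j' → ∀ a, t (ι j, a) ≠ t (ι j', a) := by
  have key : ∀ k : ℕ, k ≤ q → ∃ ι : Fin k → Fin M, (∀ j, ι j ∈ L0) ∧ (∀ j a, t (ι j, a) ∈ Vr a) ∧
      ∀ j j', j ≠ j' → ∀ a, t (ι j, a) ≠ t (ι j', a) := by
    intro k
    induction k with
    | zero =>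
      intro _
      exact ⟨fun j => j.elim0, fun j => j.elim0, fun j => j.elim0, fun j => j.elim0⟩
    | succ k ih =>
      intro hk
      obtain ⟨ι, h1, h2, h3⟩ := ih (by omega)
      obtain ⟨i, hi, hi'⟩ := hR (fun a => Vr a \ Finset.univ.image fun j : Fin k => t (ι j, a))
        (fun a => Finset.sdiff_subset) (by
          intro a
          have h4 : (Finset.univ.image fun j : Fin k => t (ι j, a)).card ≤ k := by
            refine Finset.card_image_le.trans ?_
            simp
          have h5 := Finset.le_card_sdiff (Finset.univ.image fun j : Fin k => t (ι j, a)) (Vr a)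
          have h6 := hq a
          omega)
      refine ⟨Fin.snoc ι i, ?_, ?_, ?_⟩
      · intro j
        refine Fin.lastCases ?_ (fun j => ?_) j
        · simpa using hi
        · simpa using h1 j
      · intro j
        refine Fin.lastCases ?_ (fun j => ?_) j
        · intro a
          have := hi' a
          simp only [Finset.mem_sdiff] at this
          simpa using this.1
        · intro a
          simpa using h2 j a
      · have hne : ∀ j a, t (ι j, a) ≠ t (i, a) := by
          intro j a hja
          have := hi' a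
          simp only [Finset.mem_sdiff, Finset.mem_image, Finset.mem_univ, true_and,
            not_exists] at this
          exact this.2 j hja
        intro j j'
        refine Fin.lastCases ?_ (fun j => ?_) j
        · refine Fin.lastCases ?_ (fun j' => ?_) j'
          · intro h; exact absurd rfl h
          · intro _ a
            simpa using (hne j' a).symm
        · refine Fin.lastCases ?_ (fun j' => ?_) j'
          · intro _ a
            simpa using hne j a
          · intro h a
            have : j ≠ j' := by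
              rintro rfl
              exact h rfl
            simpa using h3 j j' this a
  exact key q le_rfl

private theorem EKF_nbr (D n : ℕ) (H : SimpleGraph (Fin n))
    (hdeg : ∀ x, (H.neighborSet x).ncard ≤ D) (s : Finset (Fin n)) (hs : s.card = D + 1)
    (hcl : ∀ x ∈ s, ∀ y ∈ s, x ≠ y → H.Adj x y) (x : Fin n) (hx : x ∈ s) (y : Fin n)
    (hxy : H.Adj x y) : y ∈ s := by
  by_contra hy
  have h1 : ((insert y (s.erase x) : Finset (Fin n)) : Set (Fin n)) ⊆ H.neighborSet x := by
    intro z hz
    simp only [Finset.coe_insert, Finset.coe_erase, Set.mem_insert_iff, Set.mem_sdiff,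
      Finset.mem_coe, Set.mem_singleton_iff] at hz
    rw [SimpleGraph.mem_neighborSet]
    rcases hz with rfl | hz
    · exact hxy
    · exact hcl x hx z hz.1 (fun h => hz.2 h.symm)
  have h2 := Set.ncard_le_ncard h1 (Set.toFinite _)
  rw [Set.ncard_coe_finset, Finset.card_insert_of_notMem (by simp [hy]),
    Finset.card_erase_of_mem hx] at h2
  have := hdeg x
  omega

/-- The `K_{D+1}`'s of a graph of maximum degree `D` are components. -/
theorem kd (D n : ℕ) (H : SimpleGraph (Fin n)) (hdeg : ∀ x, (H.neighborSet x).ncard ≤ D) :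
    ∃ (q : ℕ) (κ : Fin q → Fin (D + 1) → Fin n),
      (∀ i a j b, κ i a = κ j b → i = j ∧ a = b) ∧
      (∀ i a b, a ≠ b → H.Adj (κ i a) (κ i b)) ∧
      (∀ i a x, H.Adj (κ i a) x → ∃ b, x = κ i b) ∧
      (∀ f : Fin (D + 1) → Fin n, Function.Injective f → (∀ a b, a ≠ b → H.Adj (f a) (f b)) →
        ∃ i a, κ i a = f 0) := by
  let C : Finset (Finset (Fin n)) := Finset.univ.filter fun s =>
    s.card = D + 1 ∧ ∀ x ∈ s, ∀ y ∈ s, x ≠ y → H.Adj x y
  have hC : ∀ s ∈ C, s.card = D + 1 ∧ ∀ x ∈ s, ∀ y ∈ s, x ≠ y → H.Adj x y := by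
    intro s hs
    exact (Finset.mem_filter.1 hs).2
  let e := C.equivFin
  have hs : ∀ i : Fin C.card, ((e.symm i : C) : Finset (Fin n)).card = D + 1 := fun i =>
    (hC _ (e.symm i).2).1
  let f : ∀ i : Fin C.card, ((e.symm i : C) : Finset (Fin n)) ≃ Fin (D + 1) := fun i =>
    ((e.symm i : C) : Finset (Fin n)).equivFinOfCardEq (hs i)
  have hmem : ∀ i a, (((f i).symm a : ((e.symm i : C) : Finset (Fin n))) : Fin n) ∈
      ((e.symm i : C) : Finset (Fin n)) := fun i a => ((f i).symm a).2
  refine ⟨C.card, fun i a => ((f i).symm a : ((e.symm i : C) : Finset (Fin n))), ?_, ?_, ?_, ?_⟩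
  · intro i a j b h
    have hij : i = j := by
      have h1 : ((e.symm i : C) : Finset (Fin n)) = ((e.symm j : C) : Finset (Fin n)) := by
        have hsub : ∀ i' j' : Fin C.card, ∀ x, x ∈ ((e.symm i' : C) : Finset (Fin n)) →
            x ∈ ((e.symm j' : C) : Finset (Fin n)) →
            ((e.symm i' : C) : Finset (Fin n)) ⊆ ((e.symm j' : C) : Finset (Fin n)) := by
          intro i' j' x hx hx' y hy
          by_cases hxy : x = y
          · rw [← hxy]; exact hx'
          · exact EKF_nbr D n H hdeg _ (hs j') (hC _ (e.symm j').2).2 x hx' y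
              ((hC _ (e.symm i').2).2 x hx y hy hxy)
        have hxi := hmem i a
        have hxj : (((f i).symm a : ((e.symm i : C) : Finset (Fin n))) : Fin n) ∈
            ((e.symm j : C) : Finset (Fin n)) := by
          have h2 := hmem j b
          have h3 : (((f i).symm a : ((e.symm i : C) : Finset (Fin n))) : Fin n) =
              (((f j).symm b : ((e.symm j : C) : Finset (Fin n))) : Fin n) := h
          rw [h3]; exact h2
        exact Finset.Subset.antisymm (hsub i j _ hxi hxj) (hsub j i _ hxj hxi)
      have h2 : e.symm i = e.symm j := Subtype.ext h1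
      exact e.symm.injective h2
    subst hij
    refine ⟨rfl, ?_⟩
    have h2 : (f i).symm a = (f i).symm b := Subtype.ext h
    exact (f i).symm.injective h2
  · intro i a b hab
    refine (hC _ (e.symm i).2).2 _ (hmem i a) _ (hmem i b) ?_
    intro h
    exact hab ((f i).symm.injective (Subtype.ext h))
  · intro i a x hx
    have h1 := EKF_nbr D n H hdeg _ (hs i) (hC _ (e.symm i).2).2 _ (hmem i a) x hx
    refine ⟨f i ⟨x, h1⟩, ?_⟩
    simp
  · intro g hg hadj
    have hin : (Finset.univ.image g : Finset (Fin n)) ∈ C := by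
      rw [Finset.mem_filter]
      refine ⟨Finset.mem_univ _, ?_, ?_⟩
      · rw [Finset.card_image_of_injective _ hg, Finset.card_univ, Fintype.card_fin]
      · intro x hx y hy hxy
        obtain ⟨a, _, rfl⟩ := Finset.mem_image.1 hx
        obtain ⟨b, _, rfl⟩ := Finset.mem_image.1 hy
        exact hadj a b (fun h => hxy (by rw [h]))
    have h1 : g 0 ∈ ((e.symm (e ⟨_, hin⟩) : C) : Finset (Fin n)) := by
      rw [Equiv.symm_apply_apply]
      exact Finset.mem_image_of_mem g (Finset.mem_univ 0)
    refine ⟨e ⟨_, hin⟩, f _ ⟨g 0, h1⟩, ?_⟩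
    simp

end Pool.Agent.CUG
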