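import Pool.Agent.CUG.EBD
import Pool.Agent.CUG.COL

set_option autoImplicit false

/-!
# CUG.GRF

Proof. Take a maximal family `𝒯` of connected `Good` sets `Q` (nonempty, `|Q| ≤ tp`), pairwise disjoint and without
edges between different members. `U = ⋃ 𝒯`, `N₁` = vertices outside `U` with a neighbour in `U`, `W` = the other
vertices outside `U`. By maximality (*): no nonempty connected `Q ⊆ W` with `|Q| ≤ tp` is good.
(i) Every `w ∈ W` has degree exactly `dd+1`: otherwise `{w}` is good (`2 be dd + 2 ≤ 2 al`).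
(ii) `W` contains no connected set of exactly `tp` vertices: it would be good (`cq_full`, `cq_sub`, `be + 1 ≤ 2 tp`:
`be (2 dd tp + 2) + 2 ≤ 2 (be dd + 2) tp`). So all components of `H[W]` have less than `tp` vertices (a connected set
with `≥ tp` vertices contains a connected one with exactly `tp`).
(iii) no connected `Q ⊆ W`, `|Q| ≤ tp`, has `inn H Q ≥ 2|Q|` (`cq_cyc`, `cq_sub`).
(iv) every component `Q` of `H[W]` has a vertex with a neighbour in `N₁`: otherwise (neighbours of `W` are in
`W ∪ N₁`) all neighbours of `Q` are in `Q` and `inn H Q = (dd+1)|Q| ≥ 2|Q|`, contradiction to (iii).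
Stages: `χ` proper with `dd+2` colours (`col_proper`). For `w ∈ W` let `δ(w) ∈ [1, tp - 1]` be the distance to `N₁`;
`stg w = (tp - δ(w)) (dd+2) + χ w` for `w ∈ W`, `stg w = tp (dd+2) + χ w` for `w ∈ N₁`, `0` on `U`. Adjacent vertices
outside `U` have different stages (`χ`). `par`: `w ∈ N₁` has a neighbour in `U`, so at most `dd` neighbours outside `U`;
`w ∈ W` has a neighbour in `N₁` or in `W` with smaller `δ`, i.e. of larger stage, so at most `dd` with smaller stage.
peel: let `a, b ∉ U` be adjacent, `R ∌ a, b` nonempty, outside `U`, and suppose every `i ∈ R` has `≥ dd + 1`, hence all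
its, neighbours in `R ∪ {a,b}`. Then `R ⊆ W` (a vertex of `N₁` has a neighbour in `U`). Let `Q` be a component of `H[R]`
(so `|Q| < tp`, by (ii)); its neighbours are in `Q ∪ {a,b}`, `inn Q + out Q Q = (dd+1)|Q|` (by (i)) and `out Q Q ≤ 2 dd`
(`a`, `b` have at most `dd` neighbours besides each other). So `inn Q ≥ (dd+1)|Q| - 2 dd > 2|Q| - 2` if `|Q| ≥ 3`
(`dd ≥ 2`), i.e. `inn Q ≥ 2|Q|` (`inn_even`), contradiction to (iii). `|Q| = 1`: degree `≤ 2 < dd + 1`. `|Q| = 2`:
`dd + 1 ≤ 3`, so `dd = 2` and `Q ∪ {a, b}` spans a `K_4`, contradiction to `hK`.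
-/

namespace Pool.Agent.CUG

open Pool.Agent.CUB
open scoped Classical

/-- neighbours as a finset -/
noncomputable def GRF_nb {X : Type} [Fintype X] (H : SimpleGraph X) (x : X) : Finset X :=
  Finset.univ.filter fun y => H.Adj x y

theorem GRF_mem {X : Type} [Fintype X] {H : SimpleGraph X} {x y : X} :
    y ∈ GRF_nb H x ↔ H.Adj x y := by
  simp [GRF_nb]

theorem GRF_card {X : Type} [Fintype X] {H : SimpleGraph X} {d : ℕ}
    (hdeg : ∀ x, (H.neighborSet x).ncard ≤ d) (x : X) : (GRF_nb H x).card ≤ d := by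
  have h : H.neighborSet x = (GRF_nb H x : Set X) := by
    ext y
    simp [GRF_mem]
  have h2 := hdeg x
  rwa [h, Set.ncard_coe_finset] at h2

theorem GRF_inn {X : Type} [Fintype X] (H : SimpleGraph X) (S : Finset X) :
    inn H S = ∑ x ∈ S, (GRF_nb H x ∩ S).card := by
  unfold inn
  rw [Finset.card_eq_sum_card_fiberwise (f := fun p : X × X => p.1) (t := S)]
  · refine Finset.sum_congr rfl ?_
    intro x hx
    refine Finset.card_bij (fun p _ => p.2) ?_ ?_ ?_
    · intro p hp
      obtain ⟨h1, h2⟩ := Finset.mem_filter.1 hp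
      obtain ⟨_, h3, h4, h5⟩ := Finset.mem_filter.1 h1
      have h6 : p.1 = x := h2
      rw [h6] at h5
      exact Finset.mem_inter.2 ⟨GRF_mem.2 h5, h4⟩
    · intro p hp p' hp' h
      have h1 : p.1 = x := (Finset.mem_filter.1 hp).2
      have h2 : p'.1 = x := (Finset.mem_filter.1 hp').2
      exact Prod.ext (h1.trans h2.symm) h
    · intro y hy
      obtain ⟨h1, h2⟩ := Finset.mem_inter.1 hy
      exact ⟨(x, y), Finset.mem_filter.2 ⟨Finset.mem_filter.2 ⟨Finset.mem_univ _, hx, h2,
        GRF_mem.1 h1⟩, rfl⟩, rfl⟩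
  · intro p hp
    exact Finset.mem_coe.2 (Finset.mem_filter.1 (Finset.mem_coe.1 hp)).2.1

theorem GRF_out {X : Type} [Fintype X] (H : SimpleGraph X) (Q S : Finset X) :
    out H Q S = ∑ x ∈ S, (GRF_nb H x \ Q).card := by
  unfold out
  rw [Finset.card_eq_sum_card_fiberwise (f := fun p : X × X => p.1) (t := S)]
  · refine Finset.sum_congr rfl ?_
    intro x hx
    refine Finset.card_bij (fun p _ => p.2) ?_ ?_ ?_
    · intro p hp
      obtain ⟨h1, h2⟩ := Finset.mem_filter.1 hp
      obtain ⟨_, h3, h4, h5⟩ := Finset.mem_filter.1 h1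
      have h6 : p.1 = x := h2
      rw [h6] at h5
      exact Finset.mem_sdiff.2 ⟨GRF_mem.2 h5, h4⟩
    · intro p hp p' hp' h
      have h1 : p.1 = x := (Finset.mem_filter.1 hp).2
      have h2 : p'.1 = x := (Finset.mem_filter.1 hp').2
      exact Prod.ext (h1.trans h2.symm) h
    · intro y hy
      obtain ⟨h1, h2⟩ := Finset.mem_sdiff.1 hy
      exact ⟨(x, y), Finset.mem_filter.2 ⟨Finset.mem_filter.2 ⟨Finset.mem_univ _, hx, h2,
        GRF_mem.1 h1⟩, rfl⟩, rfl⟩
  · intro p hp
    exact Finset.mem_coe.2 (Finset.mem_filter.1 (Finset.mem_coe.1 hp)).2.1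

theorem GRF_conn_one {X : Type} (H : SimpleGraph X) (x : X) :
    (H.induce (({x} : Finset X) : Set X)).Connected := by
  rw [SimpleGraph.connected_iff_exists_forall_reachable]
  refine ⟨⟨x, by simp⟩, ?_⟩
  rintro ⟨y, hy⟩
  have : y = x := by simpa using hy
  subst this
  exact SimpleGraph.Reachable.refl _

theorem GRF_conn_ins {X : Type} (H : SimpleGraph X) (T : Finset X) (y : X)
    (hT : (H.induce (T : Set X)).Connected) (u : X) (hu : u ∈ T) (h : H.Adj y u) :
    (H.induce ((insert y T : Finset X) : Set X)).Connected := by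
  rw [SimpleGraph.connected_iff_exists_forall_reachable] at hT ⊢
  obtain ⟨⟨x, hx⟩, hr⟩ := hT
  have hTS : T ⊆ insert y T := Finset.subset_insert _ _
  have key : ∀ y' (hy : y' ∈ T), (H.induce ((insert y T : Finset X) : Set X)).Reachable
      ⟨x, Finset.mem_coe.2 (hTS hx)⟩ ⟨y', Finset.mem_coe.2 (hTS hy)⟩ := by
    intro y' hy
    have h1 := hr ⟨y', hy⟩
    have hsub : (T : Set X) ⊆ ((insert y T : Finset X) : Set X) := Finset.coe_subset.2 hTS
    exact h1.map (SimpleGraph.induceHomOfLE H hsub).toHom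
  refine ⟨⟨x, Finset.mem_coe.2 (hTS hx)⟩, ?_⟩
  rintro ⟨z, hz⟩
  rcases Finset.mem_insert.1 (Finset.mem_coe.1 hz) with h1 | h1
  · subst h1
    refine (key u hu).trans ?_
    apply SimpleGraph.Adj.reachable
    exact h.symm
  · exact key z h1

/-- an edge leaves every proper nonempty subset of a connected set -/
theorem GRF_edge {X : Type} (H : SimpleGraph X) (Q : Finset X)
    (hQ : (H.induce (Q : Set X)).Connected) (T : Finset X) (hT : T ⊆ Q) (hne : T.Nonempty)
    (hTQ : T ≠ Q) : ∃ u ∈ T, ∃ y ∈ Q, y ∉ T ∧ H.Adj y u := by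
  by_contra hcon
  push Not at hcon
  obtain ⟨x, hx⟩ := hne
  obtain ⟨z, hz, hzT⟩ : ∃ z ∈ Q, z ∉ T := by
    by_contra h
    push Not at h
    exact hTQ (Finset.Subset.antisymm hT h)
  obtain ⟨w⟩ := hQ.preconnected ⟨x, Finset.mem_coe.2 (hT hx)⟩ ⟨z, Finset.mem_coe.2 hz⟩
  have key : ∀ (a b : ((Q : Set X) : Type)) (w : (H.induce (Q : Set X)).Walk a b),
      a.1 ∈ T → b.1 ∈ T := by
    intro a b w
    induction w with
    | nil => exact id
    | @cons a c b h p ih =>
      intro ha
      refine ih ?_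
      by_contra hc
      exact hcon a.1 ha c.1 (Finset.mem_coe.1 c.2) hc (SimpleGraph.Adj.symm h)
  exact hzT (key _ _ w hx)

/-- connected sets contain connected sets of every smaller size -/
theorem GRF_shrink {X : Type} (H : SimpleGraph X) (Q : Finset X)
    (hQ : (H.induce (Q : Set X)).Connected) (k : ℕ) (hk : 1 ≤ k) (hkQ : k ≤ Q.card) :
    ∃ T ⊆ Q, (H.induce (T : Set X)).Connected ∧ T.card = k := by
  induction k with
  | zero => omega
  | succ k ih =>
    rcases Nat.eq_zero_or_pos k with h0 | h0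
    · subst h0
      obtain ⟨x, hx⟩ : Q.Nonempty := Finset.card_pos.1 (by omega)
      exact ⟨{x}, Finset.singleton_subset_iff.2 hx, GRF_conn_one H x, Finset.card_singleton _⟩
    · obtain ⟨T, hTQ, hT, hc⟩ := ih h0 (by omega)
      obtain ⟨u, hu, y, hy, hyT, hadj⟩ := GRF_edge H Q hQ T hTQ (Finset.card_pos.1 (by omega))
        (fun h => by rw [h] at hc; omega)
      exact ⟨insert y T, Finset.insert_subset_iff.2 ⟨hy, hTQ⟩,
        GRF_conn_ins H T y hT u hu hadj, by rw [Finset.card_insert_of_notMem hyT, hc]⟩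

/-- maximal connected subset -/
theorem GRF_comp {X : Type} [Fintype X] (H : SimpleGraph X) (C : Finset X) (w : X) (hw : w ∈ C) :
    ∃ Q ⊆ C, (H.induce (Q : Set X)).Connected ∧ w ∈ Q ∧
      ∀ u ∈ Q, ∀ y ∈ C, H.Adj u y → y ∈ Q := by
  have hex : ∃ n, ∃ Q ⊆ C, (H.induce (Q : Set X)).Connected ∧ w ∈ Q ∧ C.card - Q.card = n :=
    ⟨_, {w}, Finset.singleton_subset_iff.2 hw, GRF_conn_one H w, Finset.mem_singleton_self _, rfl⟩
  obtain ⟨Q, hQC, hQ, hwQ, hn⟩ := Nat.find_spec hex
  refine ⟨Q, hQC, hQ, hwQ, ?_⟩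
  intro u hu y hy hadj
  by_contra hyQ
  have h1 : insert y Q ⊆ C := Finset.insert_subset_iff.2 ⟨hy, hQC⟩
  have h2 : C.card - (insert y Q).card < Nat.find hex := by
    have h3 := Finset.card_le_card h1
    rw [Finset.card_insert_of_notMem hyQ] at h3 ⊢
    omega
  exact Nat.find_min hex h2 ⟨insert y Q, h1, GRF_conn_ins H Q y hQ u hu hadj.symm,
    Finset.mem_insert_of_mem hwQ, rfl⟩

/-- families of good pieces -/
def GRF_fam {X : Type} [Fintype X] (P : Prm) (H : SimpleGraph X) (tp : ℕ)
    (F : Finset (Finset X)) : Prop :=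
  (∀ T ∈ F, T.Nonempty ∧ T.card ≤ tp ∧ (H.induce (T : Set X)).Connected ∧ Good P H T) ∧
  (∀ T ∈ F, ∀ T' ∈ F, T ≠ T' → Disjoint T T' ∧ ∀ u ∈ T, ∀ w ∈ T', ¬ H.Adj u w)

theorem GRF_max {X : Type} [Fintype X] (P : Prm) (H : SimpleGraph X) (tp : ℕ) :
    ∃ F : Finset (Finset X), GRF_fam P H tp F ∧
      ∀ Q : Finset X, Q.Nonempty → Q.card ≤ tp → (H.induce (Q : Set X)).Connected →
        (∀ x ∈ Q, x ∉ F.biUnion id ∧ ∀ u ∈ F.biUnion id, ¬ H.Adj u x) → ¬ Good P H Q := by
  have hex : ∃ n, ∃ F : Finset (Finset X), GRF_fam P H tp F ∧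
      (Finset.univ : Finset (Finset X)).card - F.card = n :=
    ⟨_, ∅, ⟨by simp, by simp⟩, rfl⟩
  obtain ⟨F, hF, hn⟩ := Nat.find_spec hex
  refine ⟨F, hF, ?_⟩
  intro Q hne hcard hconn hout hgood
  have hQF : Q ∉ F := by
    intro h
    obtain ⟨x, hx⟩ := hne
    exact (hout x hx).1 (Finset.mem_biUnion.2 ⟨Q, h, hx⟩)
  have hd : ∀ T ∈ F, Disjoint T Q ∧ ∀ u ∈ T, ∀ w ∈ Q, ¬ H.Adj u w := by
    intro T hT
    refine ⟨Finset.disjoint_left.2 fun x hx hx' =>
      (hout x hx').1 (Finset.mem_biUnion.2 ⟨T, hT, hx⟩), ?_⟩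
    intro u hu w hw
    exact (hout w hw).2 u (Finset.mem_biUnion.2 ⟨T, hT, hu⟩)
  have h1 : GRF_fam P H tp (insert Q F) := by
    refine ⟨?_, ?_⟩
    · intro T hT
      rcases Finset.mem_insert.1 hT with h | h
      · subst h
        exact ⟨hne, hcard, hconn, hgood⟩
      · exact hF.1 T h
    · intro T hT T' hT' hTT
      rcases Finset.mem_insert.1 hT with h | h
      · rcases Finset.mem_insert.1 hT' with h' | h'
        · exact absurd (h.trans h'.symm) hTT
        · subst h
          exact ⟨(hd T' h').1.symm, fun u hu w hw hadj => (hd T' h').2 w hw u hu hadj.symm⟩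
      · rcases Finset.mem_insert.1 hT' with h' | h'
        · subst h'
          exact hd T h
        · exact hF.2 T h T' h' hTT
  have h2 : (Finset.univ : Finset (Finset X)).card - (insert Q F).card < Nat.find hex := by
    have h3 := Finset.card_le_card (Finset.subset_univ (insert Q F))
    rw [Finset.card_insert_of_notMem hQF] at h3 ⊢
    omega
  exact Nat.find_min hex h2 ⟨insert Q F, h1, rfl⟩

/-- levels -/
def GRF_R {X : Type} (H : SimpleGraph X) (N W : X → Prop) : ℕ → X → Prop
  | 0, w => N w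
  | k + 1, w => W w ∧ ∃ y, H.Adj w y ∧ GRF_R H N W k y

/-- Decomposition of `K_{dd+2}`-free graphs of maximum degree `dd + 1`. -/
theorem grf (P : Prm) (tp : ℕ) (htp : 1 ≤ tp) (hal : P.al = P.be * P.dd + 2)
    (hbt : P.be + 1 ≤ 2 * tp) (hd2 : 2 ≤ P.dd) (X : Type) [Fintype X] (H : SimpleGraph X)
    (hdeg : ∀ x, (H.neighborSet x).ncard ≤ P.dd + 1) (hK : KFree (P.dd + 2) H) :
    ∃ (U : Finset X) (stg : X → ℕ) (q : ℕ) (Q : Fin q → Finset X),
      Decomp P H tp ((tp + 1) * (P.dd + 2)) U stg q Q := by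
  obtain ⟨F, hF, hmax⟩ := GRF_max P H tp
  obtain ⟨χ, hχ⟩ := col_proper P.dd X H hdeg
  set U : Finset X := F.biUnion id with hU
  set W : X → Prop := fun x => x ∉ U ∧ ∀ u ∈ U, ¬ H.Adj u x with hW
  set N : X → Prop := fun x => x ∉ U ∧ ∃ u ∈ U, H.Adj u x with hN
  have hcase : ∀ x, x ∉ U → N x ∨ W x := by
    intro x hx
    by_cases h : ∃ u ∈ U, H.Adj u x
    · exact Or.inl ⟨hx, h⟩
    · right
      refine ⟨hx, ?_⟩
      intro u hu hadj
      exact h ⟨u, hu, hadj⟩
  -- no good connected set in `W`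
  have hstar : ∀ Q : Finset X, Q.Nonempty → Q.card ≤ tp → (H.induce (Q : Set X)).Connected →
      (∀ x ∈ Q, W x) → ¬ Good P H Q := hmax
  have hbed : ∀ s : ℕ, 1 ≤ s → ∀ a : ℕ, a ≤ 2 * P.dd * s → P.be * a + 2 ≤ 2 * P.al * s := by
    intro s hs a ha
    have h1 : P.be * a ≤ P.be * (2 * P.dd * s) := Nat.mul_le_mul_left _ ha
    have h2 : 2 * P.al * s = P.be * (2 * P.dd * s) + 4 * s := by rw [hal]; ring
    omega
  -- (iii)
  have hcyc : ∀ Q : Finset X, Q.Nonempty → Q.card ≤ tp → (H.induce (Q : Set X)).Connected →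
      (∀ x ∈ Q, W x) → inn H Q < 2 * Q.card := by
    intro Q hne hc hconn hQW
    by_contra hcon
    refine hstar Q hne hc hconn hQW ?_
    intro S hS hSne
    by_cases hSQ : S = Q
    · rw [hSQ]
      exact hbed _ (Finset.card_pos.2 hne) _ (cq_cyc P.dd H hdeg Q (not_lt.1 hcon))
    · exact hbed _ (Finset.card_pos.2 hSne) _ (cq_sub P.dd H hdeg Q S hconn hS hSQ)
  -- (ii)
  have hsmall : ∀ Q : Finset X, (H.induce (Q : Set X)).Connected → (∀ x ∈ Q, W x) →
      Q.card < tp := by
    intro Q hconn hQW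
    by_contra hcon
    obtain ⟨T, hTQ, hT, hTc⟩ := GRF_shrink H Q hconn tp htp (not_lt.1 hcon)
    refine hstar T (Finset.card_pos.1 (by omega)) hTc.le hT (fun x hx => hQW x (hTQ hx)) ?_
    intro S hS hSne
    by_cases hST : S = T
    · rw [hST]
      have h1 := cq_full P.dd H hdeg T hT
      have h2 : P.be * (inn H T + 2 * out H T T) ≤ P.be * (2 * P.dd * T.card + 2) :=
        Nat.mul_le_mul_left _ h1
      have h3 : 2 * P.al * T.card = P.be * (2 * P.dd * T.card) + 4 * T.card := by rw [hal]; ring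
      have h4 : P.be * (2 * P.dd * T.card + 2) = P.be * (2 * P.dd * T.card) + 2 * P.be := by ring
      omega
    · exact hbed _ (Finset.card_pos.2 hSne) _ (cq_sub P.dd H hdeg T S hT hS hST)
  -- (i)
  have hfull : ∀ x, W x → (GRF_nb H x).card = P.dd + 1 := by
    intro x hx
    refine le_antisymm (GRF_card hdeg x) ?_
    by_contra hcon
    refine hstar {x} (Finset.singleton_nonempty x) (by simpa using htp) (GRF_conn_one H x)
      (fun y hy => by rw [Finset.mem_singleton.1 hy]; exact hx) ?_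
    intro S hS hSne
    have hSx : S = {x} := (Finset.subset_singleton_iff.1 hS).resolve_left hSne.ne_empty
    rw [hSx]
    refine hbed _ (by simp) _ ?_
    rw [GRF_inn, GRF_out, Finset.sum_singleton, Finset.sum_singleton, Finset.card_singleton]
    have h1 : (GRF_nb H x ∩ {x}).card = 0 := by
      rw [Finset.card_eq_zero]
      ext y
      simp only [Finset.mem_inter, Finset.mem_singleton, GRF_mem, Finset.notMem_empty, iff_false,
        not_and]
      rintro h rfl
      exact h.ne rfl
    have h2 : (GRF_nb H x \ {x}).card ≤ (GRF_nb H x).card :=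
      Finset.card_le_card Finset.sdiff_subset
    have h3 : 2 * P.dd * 1 = 2 * P.dd := by ring
    omega
  -- neighbours of `W`
  have hnbW : ∀ x, W x → ∀ y, H.Adj x y → N y ∨ W y := by
    intro x hx y hy
    exact hcase y fun h => hx.2 y h hy.symm
  -- closed sets are impossible
  have hclosed : ∀ Q : Finset X, Q.Nonempty → (H.induce (Q : Set X)).Connected →
      (∀ x ∈ Q, W x) → ∃ x ∈ Q, ∃ y, H.Adj x y ∧ y ∉ Q := by
    intro Q hne hconn hQW
    by_contra hcon
    push Not at hcon
    have h1 := hcyc Q hne (hsmall Q hconn hQW).le hconn hQW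
    rw [GRF_inn] at h1
    have h2 : ∑ x ∈ Q, (GRF_nb H x ∩ Q).card = ∑ x ∈ Q, (P.dd + 1) := by
      refine Finset.sum_congr rfl fun x hx => ?_
      rw [Finset.inter_eq_left.2 fun y hy => hcon x hx y (GRF_mem.1 hy)]
      exact hfull x (hQW x hx)
    rw [h2, Finset.sum_const, smul_eq_mul] at h1
    have h3 : Q.card * 2 ≤ Q.card * (P.dd + 1) := Nat.mul_le_mul_left _ (by omega)
    omega
  -- levels exist
  have hlev : ∀ x, x ∉ U → ∃ k, GRF_R H N W k x := by
    intro x hx
    rcases hcase x hx with h | h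
    · exact ⟨0, h⟩
    · by_contra hcon
      obtain ⟨Q, hQC, hQ, hxQ, hcl⟩ := GRF_comp H
        (Finset.univ.filter fun y => W y ∧ ¬ ∃ k, GRF_R H N W k y) x
        (Finset.mem_filter.2 ⟨Finset.mem_univ _, h, hcon⟩)
      have hQW : ∀ y ∈ Q, W y := fun y hy => (Finset.mem_filter.1 (hQC hy)).2.1
      obtain ⟨a, ha, b, hab, hb⟩ := hclosed Q ⟨x, hxQ⟩ hQ hQW
      have ha' := (Finset.mem_filter.1 (hQC ha)).2
      refine hb (hcl a ha b (Finset.mem_filter.2 ⟨Finset.mem_univ _, ?_, ?_⟩) hab)
      · rcases hnbW a ha'.1 b hab with h1 | h1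
        · exact absurd ⟨1, ha'.1, b, hab, h1⟩ ha'.2
        · exact h1
      · rintro ⟨k, hk⟩
        exact ha'.2 ⟨k + 1, ha'.1, b, hab, hk⟩
  -- exact levels are small
  have hsmallk : ∀ k x, GRF_R H N W (k + 1) x → (∀ j < k + 1, ¬ GRF_R H N W j x) →
      ∃ Q : Finset X, (H.induce (Q : Set X)).Connected ∧ (∀ y ∈ Q, W y) ∧ x ∈ Q ∧
        Q.card = k + 1 ∧ ∀ y ∈ Q, ∃ j ≤ k + 1, GRF_R H N W j y := by
    intro k
    induction k with
    | zero =>
      intro x hx _
      refine ⟨{x}, GRF_conn_one H x, ?_, Finset.mem_singleton_self _, Finset.card_singleton _, ?_⟩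
      · intro y hy
        rw [Finset.mem_singleton.1 hy]
        exact hx.1
      · intro y hy
        rw [Finset.mem_singleton.1 hy]
        exact ⟨1, le_rfl, hx⟩
    | succ k ih =>
      intro x hx hmin
      obtain ⟨hxW, y, hxy, hy⟩ := hx
      have hmin' : ∀ j < k + 1, ¬ GRF_R H N W j y := by
        intro j hj h
        exact hmin (j + 1) (by omega) ⟨hxW, y, hxy, h⟩
      obtain ⟨Q, hQ, hQW, hyQ, hc, hl⟩ := ih y hy hmin'
      have hxQ : x ∉ Q := by
        intro h
        obtain ⟨j, hj, h'⟩ := hl x h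
        exact hmin j (by omega) h'
      refine ⟨insert x Q, GRF_conn_ins H Q x hQ y hyQ hxy, ?_, Finset.mem_insert_self _ _,
        by rw [Finset.card_insert_of_notMem hxQ, hc], ?_⟩
      · intro z hz
        rcases Finset.mem_insert.1 hz with h | h
        · rw [h]; exact hxW
        · exact hQW z h
      · intro z hz
        rcases Finset.mem_insert.1 hz with h | h
        · rw [h]; exact ⟨k + 1 + 1, le_rfl, hxW, y, hxy, hy⟩
        · obtain ⟨j, hj, h'⟩ := hl z h
          exact ⟨j, by omega, h'⟩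
  set δ : X → ℕ := fun x => if h : ∃ k, GRF_R H N W k x then Nat.find h else 0 with hδ
  have hδs : ∀ x, x ∉ U → GRF_R H N W (δ x) x ∧ ∀ j < δ x, ¬ GRF_R H N W j x := by
    intro x hx
    have h := hlev x hx
    have : δ x = Nat.find h := by simp only [hδ]; rw [dif_pos h]
    rw [this]
    exact ⟨Nat.find_spec h, fun j hj => Nat.find_min h hj⟩
  have hδle : ∀ x k, GRF_R H N W k x → δ x ≤ k := by
    intro x k hk
    have h : ∃ k, GRF_R H N W k x := ⟨k, hk⟩
    have : δ x = Nat.find h := by simp only [hδ]; rw [dif_pos h]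
    rw [this]
    exact Nat.find_min' h hk
  have hδW : ∀ x, W x → ∃ y, H.Adj x y ∧ y ∉ U ∧ δ y < δ x ∧ δ x < tp + 1 := by
    intro x hx
    obtain ⟨h1, h2⟩ := hδs x hx.1
    rcases hd : δ x with _ | k
    · rw [hd] at h1
      obtain ⟨_, u, hu, hux⟩ : N x := h1
      exact absurd hux (hx.2 u hu)
    · rw [hd] at h1 h2
      obtain ⟨Q, hQ, hQW, _, hc, _⟩ := hsmallk k x h1 h2
      have h3 := hsmall Q hQ hQW
      obtain ⟨_, y, hxy, hy⟩ := h1
      refine ⟨y, hxy, ?_, ?_, by omega⟩
      · rcases hnbW x hx y hxy with h | h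
        · exact h.1
        · exact h.1
      · have := hδle y k hy
        omega
  refine ⟨U, fun x => if x ∈ U then 0 else (tp - δ x) * (P.dd + 2) + (χ x : ℕ), F.card,
    fun i => (F.equivFin.symm i).1, ?_⟩
  have hFe : ∀ i : Fin F.card, (F.equivFin.symm i).1 ∈ F := fun i => (F.equivFin.symm i).2
  have hFi : ∀ T ∈ F, ∃ i : Fin F.card, (F.equivFin.symm i).1 = T := by
    intro T hT
    exact ⟨F.equivFin ⟨T, hT⟩, by simp⟩
  have hFinj : ∀ i j : Fin F.card, i ≠ j → (F.equivFin.symm i).1 ≠ (F.equivFin.symm j).1 := by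
    intro i j hij h
    exact hij (F.equivFin.symm.injective (Subtype.ext h))
  refine
    { sub := ?_
      cov := ?_
      dis := ?_
      ne := ?_
      hi := ?_
      conn := ?_
      good := ?_
      adjU := ?_
      stl := ?_
      stn := ?_
      par := ?_
      peel := ?_ }
  · intro i x hx
    exact Finset.mem_biUnion.2 ⟨_, hFe i, hx⟩
  · intro u hu
    obtain ⟨T, hT, huT⟩ := Finset.mem_biUnion.1 hu
    obtain ⟨i, hi⟩ := hFi T hT
    exact ⟨i, by rw [hi]; exact huT⟩
  · intro i j hij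
    exact (hF.2 _ (hFe i) _ (hFe j) (hFinj i j hij)).1
  · intro i
    exact (hF.1 _ (hFe i)).1
  · intro i
    exact (hF.1 _ (hFe i)).2.1
  · intro i
    exact (hF.1 _ (hFe i)).2.2.1
  · intro i
    exact (hF.1 _ (hFe i)).2.2.2
  · intro u hu w hw hadj
    obtain ⟨T, hT, huT⟩ := Finset.mem_biUnion.1 hu
    obtain ⟨T', hT', hwT'⟩ := Finset.mem_biUnion.1 hw
    have hTT : T = T' := by
      by_contra hne
      exact (hF.2 T hT T' hT' hne).2 u huT w hwT' hadj
    subst hTT
    obtain ⟨i, hi⟩ := hFi T hT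
    exact ⟨i, by rw [hi]; exact ⟨huT, hwT'⟩⟩
  · intro w
    have hχw : (χ w : ℕ) < P.dd + 2 := (χ w).isLt
    by_cases h : w ∈ U
    · simp only [if_pos h]
      positivity
    · simp only [if_neg h]
      have h1 : (tp - δ w) * (P.dd + 2) ≤ tp * (P.dd + 2) := Nat.mul_le_mul_right _ (Nat.sub_le _ _)
      have h2 : (tp + 1) * (P.dd + 2) = tp * (P.dd + 2) + (P.dd + 2) := by ring
      omega
  · intro w hw w' hw' hadj heq
    simp only [if_neg hw, if_neg hw'] at heq
    have h1 := congrArg (fun z => z % (P.dd + 2)) heq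
    simp only [Nat.mul_add_mod', Nat.mod_eq_of_lt (χ w).isLt, Nat.mod_eq_of_lt (χ w').isLt] at h1
    exact hχ w w' hadj (Fin.ext h1)
  · intro w hw
    -- a neighbour that is not counted
    have hex : ∃ y, H.Adj w y ∧ ¬ (y ∉ U ∧ H.Adj w y ∧
        (if y ∈ U then 0 else (tp - δ y) * (P.dd + 2) + (χ y : ℕ)) <
          (if w ∈ U then 0 else (tp - δ w) * (P.dd + 2) + (χ w : ℕ))) := by
      rcases hcase w hw with h | h
      · obtain ⟨_, u, hu, huw⟩ := h
        exact ⟨u, huw.symm, fun h' => h'.1 hu⟩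
      · obtain ⟨y, hwy, hyU, hd1, hd2⟩ := hδW w h
        refine ⟨y, hwy, fun h' => ?_⟩
        have h3 := h'.2.2
        simp only [if_neg hw, if_neg hyU] at h3
        have h4 : (tp - δ w + 1) * (P.dd + 2) ≤ (tp - δ y) * (P.dd + 2) :=
          Nat.mul_le_mul_right _ (by omega)
        have h5 : (tp - δ w + 1) * (P.dd + 2) = (tp - δ w) * (P.dd + 2) + (P.dd + 2) := by ring
        have h6 := (χ w).isLt
        omega
    obtain ⟨y, hwy, hy⟩ := hex
    have hsub : (Finset.univ.filter fun w' : X => w' ∉ U ∧ H.Adj w w' ∧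
        (if w' ∈ U then 0 else (tp - δ w') * (P.dd + 2) + (χ w' : ℕ)) <
          (if w ∈ U then 0 else (tp - δ w) * (P.dd + 2) + (χ w : ℕ))) ⊆
        (GRF_nb H w).erase y := by
      intro z hz
      have hz' := (Finset.mem_filter.1 hz).2
      refine Finset.mem_erase.2 ⟨?_, GRF_mem.2 hz'.2.1⟩
      rintro rfl
      exact hy hz'
    have h1 := Finset.card_le_card hsub
    rw [Finset.card_erase_of_mem (GRF_mem.2 hwy)] at h1
    have h2 := GRF_card hdeg w
    omega
  · intro a b ha hb hab R hR hRU haR hbR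
    by_contra hcon
    push Not at hcon
    have hall : ∀ i ∈ R, (GRF_nb H i).card = P.dd + 1 ∧
        ∀ u, H.Adj u i → u ∈ R ∨ u = a ∨ u = b := by
      intro i hi
      have h1 := hcon i hi
      have hsub : (Finset.univ.filter fun u : X => (u ∈ R ∨ u = a ∨ u = b) ∧ H.Adj u i) ⊆
          GRF_nb H i := by
        intro z hz
        exact GRF_mem.2 (Finset.mem_filter.1 hz).2.2.symm
      have h2 := Finset.card_le_card hsub
      have h3 := GRF_card hdeg i
      refine ⟨by omega, ?_⟩
      intro u hu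
      have heq := Finset.eq_of_subset_of_card_le hsub (by omega)
      have : u ∈ GRF_nb H i := GRF_mem.2 hu.symm
      rw [← heq] at this
      exact (Finset.mem_filter.1 this).2.1
    have hRW : ∀ i ∈ R, W i := by
      intro i hi
      refine ⟨hRU i hi, ?_⟩
      intro u hu hui
      rcases (hall i hi).2 u hui with h | h | h
      · exact hRU u h hu
      · exact ha (h ▸ hu)
      · exact hb (h ▸ hu)
    obtain ⟨r, hr⟩ := hR
    obtain ⟨Q, hQR, hQ, hrQ, hcl⟩ := GRF_comp H R r hr
    have hQW : ∀ y ∈ Q, W y := fun y hy => hRW y (hQR hy)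
    have hlt := hsmall Q hQ hQW
    have hcy := hcyc Q ⟨r, hrQ⟩ hlt.le hQ hQW
    have hev := inn_even H Q
    have hnbQ : ∀ x ∈ Q, ∀ y, H.Adj x y → y ∈ Q ∨ y = a ∨ y = b := by
      intro x hx y hxy
      rcases (hall x (hQR hx)).2 y hxy.symm with h | h | h
      · exact Or.inl (hcl x hx y h hxy)
      · exact Or.inr (Or.inl h)
      · exact Or.inr (Or.inr h)
    have haQ : a ∉ Q := fun h => haR (hQR h)
    have hbQ : b ∉ Q := fun h => hbR (hQR h)
    -- number of edges from `Q` to `a` and `b`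
    have hea : (Q.filter fun x => H.Adj x a).card ≤ P.dd := by
      have h1 : (Q.filter fun x => H.Adj x a) ⊆ (GRF_nb H a).erase b := by
        intro z hz
        obtain ⟨h1, h2⟩ := Finset.mem_filter.1 hz
        refine Finset.mem_erase.2 ⟨?_, GRF_mem.2 h2.symm⟩
        rintro rfl
        exact hbQ h1
      have h2 := Finset.card_le_card h1
      rw [Finset.card_erase_of_mem (GRF_mem.2 hab)] at h2
      have h3 := GRF_card hdeg a
      omega
    have heb : (Q.filter fun x => H.Adj x b).card ≤ P.dd := by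
      have h1 : (Q.filter fun x => H.Adj x b) ⊆ (GRF_nb H b).erase a := by
        intro z hz
        obtain ⟨h1, h2⟩ := Finset.mem_filter.1 hz
        refine Finset.mem_erase.2 ⟨?_, GRF_mem.2 h2.symm⟩
        rintro rfl
        exact haQ h1
      have h2 := Finset.card_le_card h1
      rw [Finset.card_erase_of_mem (GRF_mem.2 hab.symm)] at h2
      have h3 := GRF_card hdeg b
      omega
    have hout : out H Q Q ≤ (Q.filter fun x => H.Adj x a).card + (Q.filter fun x => H.Adj x b).card := by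
      rw [GRF_out, Finset.card_filter, Finset.card_filter, ← Finset.sum_add_distrib]
      refine Finset.sum_le_sum fun x hx => ?_
      have h1 : GRF_nb H x \ Q ⊆ (if H.Adj x a then {a} else ∅) ∪ (if H.Adj x b then {b} else ∅) := by
        intro y hy
        obtain ⟨h1, h2⟩ := Finset.mem_sdiff.1 hy
        have hxy := GRF_mem.1 h1
        rcases hnbQ x hx y hxy with h | h | h
        · exact absurd h h2
        · subst h
          exact Finset.mem_union_left _ (by rw [if_pos hxy]; exact Finset.mem_singleton_self _)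
        · subst h
          exact Finset.mem_union_right _ (by rw [if_pos hxy]; exact Finset.mem_singleton_self _)
      refine (Finset.card_le_card h1).trans ((Finset.card_union_le _ _).trans ?_)
      refine Nat.add_le_add ?_ ?_
      · split_ifs <;> simp
      · split_ifs <;> simp
    have hsum : inn H Q + out H Q Q = Q.card * (P.dd + 1) := by
      rw [GRF_inn, GRF_out, ← Finset.sum_add_distrib]
      have : ∀ x ∈ Q, (GRF_nb H x ∩ Q).card + (GRF_nb H x \ Q).card = P.dd + 1 := by
        intro x hx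
        rw [add_comm, Finset.card_sdiff_add_card_inter]
        exact hfull x (hQW x hx)
      rw [Finset.sum_congr rfl this, Finset.sum_const, smul_eq_mul]
    have hQ1 : 1 ≤ Q.card := Finset.card_pos.2 ⟨r, hrQ⟩
    obtain ⟨m, hm⟩ := hev
    have hQ2 : Q.card ≤ 2 := by
      by_contra h3
      obtain ⟨d, hd⟩ : ∃ d, P.dd = d + 1 := ⟨P.dd - 1, by omega⟩
      obtain ⟨c, hc⟩ : ∃ c, Q.card = c + 3 := ⟨Q.card - 3, by omega⟩
      rw [hd, hc] at hsum
      rw [hd] at hea heb
      have h5 : (c + 3) * (d + 1 + 1) = c * d + 2 * c + 3 * d + 6 := by ring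
      have h6 : 1 ≤ d := by omega
      omega
    have hnbc : ∀ x ∈ Q, P.dd + 1 ≤ ((Q.erase x) ∪ {a, b}).card := by
      intro x hx
      rw [← hfull x (hQW x hx)]
      refine Finset.card_le_card ?_
      intro y hy
      have hxy := GRF_mem.1 hy
      rcases hnbQ x hx y hxy with h | h | h
      · exact Finset.mem_union_left _ (Finset.mem_erase.2 ⟨hxy.ne', h⟩)
      · exact Finset.mem_union_right _ (by rw [h]; simp)
      · exact Finset.mem_union_right _ (by rw [h]; simp)
    have hcle : ∀ x ∈ Q, ((Q.erase x) ∪ {a, b}).card ≤ Q.card - 1 + 2 := by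
      intro x hx
      refine (Finset.card_union_le _ _).trans ?_
      rw [Finset.card_erase_of_mem hx]
      exact Nat.add_le_add_left Finset.card_le_two _
    have h7 := (hnbc r hrQ).trans (hcle r hrQ)
    have hQ2' : Q.card = 2 := by omega
    have hdd2 : P.dd = 2 := by omega
    obtain ⟨x, y, hxy, hQxy⟩ := Finset.card_eq_two.1 hQ2'
    have hx : x ∈ Q := by rw [hQxy]; simp
    have hy : y ∈ Q := by rw [hQxy]; simp
    have hax : a ≠ x := fun h => haQ (h ▸ hx)
    have hay : a ≠ y := fun h => haQ (h ▸ hy)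
    have hbx : b ≠ x := fun h => hbQ (h ▸ hx)
    have hby : b ≠ y := fun h => hbQ (h ▸ hy)
    have hadjall : ∀ z ∈ Q, ∀ z' ∈ (Q.erase z) ∪ {a, b}, H.Adj z z' := by
      intro z hz z' hz'
      have hsub : GRF_nb H z ⊆ (Q.erase z) ∪ {a, b} := by
        intro y hy
        have hxy := GRF_mem.1 hy
        rcases hnbQ z hz y hxy with h | h | h
        · exact Finset.mem_union_left _ (Finset.mem_erase.2 ⟨hxy.ne', h⟩)
        · exact Finset.mem_union_right _ (by rw [h]; simp)
        · exact Finset.mem_union_right _ (by rw [h]; simp)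
      have h8 := hcle z hz
      have h9 := hfull z (hQW z hz)
      have heq := Finset.eq_of_subset_of_card_le hsub (by omega)
      rw [← heq] at hz'
      exact GRF_mem.1 hz'
    have e1 : H.Adj x y := hadjall x hx y (Finset.mem_union_left _ (Finset.mem_erase.2 ⟨hxy.symm, hy⟩))
    have e2 : H.Adj x a := hadjall x hx a (Finset.mem_union_right _ (by simp))
    have e3 : H.Adj x b := hadjall x hx b (Finset.mem_union_right _ (by simp))
    have e4 : H.Adj y a := hadjall y hy a (Finset.mem_union_right _ (by simp))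
    have e5 : H.Adj y b := hadjall y hy b (Finset.mem_union_right _ (by simp))
    rw [hdd2] at hK
    have hadj4 : ∀ i j : Fin 4, i ≠ j → H.Adj ((![x, y, a, b] : Fin 4 → X) i)
        ((![x, y, a, b] : Fin 4 → X) j) := by
      intro i j hij
      fin_cases i <;> fin_cases j <;>
        first
        | exact absurd rfl hij
        | exact e1
        | exact e2
        | exact e3
        | exact e4
        | exact e5
        | exact hab
        | exact e1.symm
        | exact e2.symm
        | exact e3.symm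
        | exact e4.symm
        | exact e5.symm
        | exact hab.symm
    refine hK ![x, y, a, b] ?_ hadj4
    intro i j hij
    by_contra hne
    exact (hadj4 i j hne).ne hij

end Pool.Agent.CUG
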