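import Pool.Agent.CUG.INS
import Pool.Agent.CUG.GRF
import Pool.Agent.CUG.EKF
import Pool.Agent.CUG.COL
import Pool.Agent.CUG.CNT

set_option autoImplicit false

/-!
# CUG.EMU

Universality from the realisability of all instances. `Ds = (tp+1)(dd+2)`, `J, Rd` from
`inst_of_decomp`, `v, pos, st` from `colt`.
-/

namespace Pool.Agent.CUG

open Pool.Agent.CUB
open scoped Classical

/-- Two vertices of a connected piece with at most `tp` vertices are joined by a short walk. -/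
theorem EMU_walk {X : Type} (H : SimpleGraph X) (Q : Finset X) (tp : ℕ)
    (hc : (H.induce (Q : Set X)).Connected) (hQ : Q.card ≤ tp) (u w : X) (hu : u ∈ Q)
    (hw : w ∈ Q) : ∃ p : H.Walk u w, p.length ≤ tp := by
  obtain ⟨p, hp⟩ := (hc.preconnected ⟨u, hu⟩ ⟨w, hw⟩).exists_isPath
  have h1 := hp.length_lt
  have h2 : Fintype.card (Q : Set X) = Q.card := by simp
  rw [h2] at h1
  have h3 := SimpleGraph.Walk.length_map (SimpleGraph.Embedding.induce (Q : Set X)).toHom p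
  exact ⟨p.map (SimpleGraph.Embedding.induce (Q : Set X)).toHom,
    le_trans (le_of_eq h3) (by omega)⟩

/-- The part outside the copies of `K_{dd+2}`. -/
theorem EMU_main (P : Prm) (tp : ℕ) (htp : 1 ≤ tp) (hal : P.al = P.be * P.dd + 2)
    (hbt : P.be + 1 ≤ 2 * tp) (hd2 : 2 ≤ P.dd) (J Rd : ℕ)
    (hins : ∀ {v kp : ℕ} (pos : Fin v → Fin kp) (st : Fin v → ℕ) {X : Type} [Fintype X]
      (H : SimpleGraph X) (_ : ∀ x, (H.neighborSet x).ncard ≤ P.dd + 1)
      (_ : KFree (P.dd + 2) H) (U : Finset X) (stg : X → ℕ) (q : ℕ) (Q : Fin q → Finset X)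
      (_ : Decomp P H tp ((tp + 1) * (P.dd + 2)) U stg q Q) (ty : X → Fin v)
      (_ : ∀ u w, H.Adj u w → pos (ty u) ≠ pos (ty w))
      (_ : ∀ u w, u ≠ w → (∃ p : H.Walk u w, p.length ≤ Rd) → ty u ≠ ty w)
      (_ : ∀ u w, ty u = ty w → (u ∈ U ↔ w ∈ U)) (_ : ∀ x, st (ty x) = stg x),
      ∃ (n : ℕ) (e : Fin n → X) (par cl : Fin n → Finset (Fin n))
        (A : Fin q → Finset (Fin n)), Function.Injective e ∧ (∀ x, x ∉ U ↔ ∃ j, e j = x) ∧
        (∀ j i, i ∈ par j ↔ H.Adj (e i) (e j) ∧ stg (e i) < stg (e j)) ∧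
        (∀ i, ∀ u ∈ Q i, ∀ w, w ∉ U → H.Adj u w → ∃ j ∈ A i, e j = w) ∧
        Inst P J ((tp + 1) * (P.dd + 2)) pos st (fun j => ty (e j)) par cl
          (fun i => patF H ty (Q i)) (fun i => (Q i).image ty) A)
    {v : ℕ} (pos : Fin v → Fin (P.dd + 2)) (st : Fin v → ℕ)
    (hcol : ∀ (X : Type) [Fintype X] (H : SimpleGraph X) (U : Finset X) (stg : X → ℕ),
      (∀ x, (H.neighborSet x).ncard ≤ P.dd + 1) → (∀ x, stg x < (tp + 1) * (P.dd + 2)) →
      ∃ ty : X → Fin v, (∀ u w, H.Adj u w → pos (ty u) ≠ pos (ty w)) ∧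
        (∀ u w, u ≠ w → (∃ p : H.Walk u w, p.length ≤ max Rd tp) → ty u ≠ ty w) ∧
        (∀ u w, ty u = ty w → (u ∈ U ↔ w ∈ U)) ∧ (∀ x, st (ty x) = stg x))
    {X : Type} [Fintype X] (H : SimpleGraph X)
    (hdeg : ∀ x, (H.neighborSet x).ncard ≤ P.dd + 1) (hK : KFree (P.dd + 2) H)
    {N M : ℕ} (t : Fin M × Fin (P.dd + 2) → Fin N) (L0 : Finset (Fin M))
    (V : Fin v → Finset (Fin N)) (Vg : Fin (P.dd + 2) → Finset (Fin N))
    (n : ℕ) (hX : Fintype.card X ≤ n)
    (hI : ∀ (n' q : ℕ) (ty : Fin n' → Fin v) (par : Fin n' → Finset (Fin n'))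
        (cl : Fin n' → Finset (Fin n')) (F : Fin q → Finset (Fin v × Fin v))
        (B : Fin q → Finset (Fin v)) (A : Fin q → Finset (Fin n')),
        Inst P J ((tp + 1) * (P.dd + 2)) pos st ty par cl F B A → n' ≤ n → q ≤ n →
          ∃ (φ : Fin n' → Fin N) (y : Fin q → Fin v → Fin N),
            Realised t pos (clsL t pos V Vg L0) V ty par F B A φ y) :
    ∃ (ty : X → Fin v) (g : X → Fin N), (∀ x, g x ∈ V (ty x)) ∧
      (∀ x x', ty x = ty x' → g x = g x' → x = x') ∧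
      (∀ x x', H.Adj x x' → pos (ty x) ≠ pos (ty x') ∧
        ∃ i ∈ L0, t (i, pos (ty x)) = g x ∧ t (i, pos (ty x')) = g x') := by
  obtain ⟨U, stg, q', Q, hD⟩ := grf P tp htp hal hbt hd2 X H hdeg hK
  obtain ⟨ty, hT1, hT2, hT3, hT4⟩ := hcol X H U stg hdeg hD.stl
  have hT2' : ∀ u w, u ≠ w → (∃ p : H.Walk u w, p.length ≤ Rd) → ty u ≠ ty w := by
    rintro u w huw ⟨p, hp⟩
    exact hT2 u w huw ⟨p, le_trans hp (le_max_left _ _)⟩
  obtain ⟨n', e, parW, cl, A, he, hecov, hepar, hA, hInst⟩ :=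
    hins pos st H hdeg hK U stg q' Q hD ty hT1 hT2' hT3 hT4
  have hn' : n' ≤ n := by
    have := Fintype.card_le_of_injective e he
    rw [Fintype.card_fin] at this
    exact this.trans hX
  have hq' : q' ≤ n := by
    have hinj : Function.Injective fun i => (hD.ne i).choose := by
      intro i j hij
      by_contra hne'
      have h1 := (hD.ne i).choose_spec
      have h2 := (hD.ne j).choose_spec
      change (hD.ne i).choose = (hD.ne j).choose at hij
      rw [← hij] at h2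
      exact Finset.disjoint_left.1 (hD.dis i j hne') h1 h2
    have := Fintype.card_le_of_injective _ hinj
    rw [Fintype.card_fin] at this
    exact this.trans hX
  obtain ⟨φ, y, hR⟩ := hI n' q' _ parW cl _ _ A hInst hn' hq'
  let g : X → Fin N := fun x => if h : x ∈ U then y (hD.cov x h).choose (ty x)
    else φ ((hecov x).1 h).choose
  have G1 : ∀ i, ∀ u ∈ Q i, g u = y i (ty u) := by
    intro i u hu
    have hU : u ∈ U := hD.sub i hu
    have h1 : g u = y (hD.cov u hU).choose (ty u) := dif_pos hU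
    have h2 : (hD.cov u hU).choose = i := by
      by_contra hne'
      exact Finset.disjoint_left.1 (hD.dis _ _ hne') (hD.cov u hU).choose_spec hu
    rw [h1, h2]
  have G2 : ∀ j, g (e j) = φ j := by
    intro j
    have hU : e j ∉ U := (hecov (e j)).2 ⟨j, rfl⟩
    have h1 : g (e j) = φ ((hecov (e j)).1 hU).choose := dif_neg hU
    rw [h1, he ((hecov (e j)).1 hU).choose_spec]
  have hUc : ∀ x, x ∉ U → ∃ j, e j = x := fun x hx => (hecov x).1 hx
  refine ⟨ty, g, ?_, ?_, ?_⟩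
  · intro x
    by_cases hx : x ∈ U
    · obtain ⟨i, hi⟩ := hD.cov x hx
      rw [G1 i x hi]
      exact hR.ymem i (ty x) (Finset.mem_image_of_mem ty hi)
    · obtain ⟨j, rfl⟩ := hUc x hx
      rw [G2]
      exact hR.mem j
  · intro x x' hty hg
    by_contra hxx
    by_cases hx : x ∈ U
    · have hx' : x' ∈ U := (hT3 x x' hty).1 hx
      obtain ⟨i, hi⟩ := hD.cov x hx
      obtain ⟨i', hi'⟩ := hD.cov x' hx'
      by_cases hii : i = i'
      · subst hii
        obtain ⟨p, hp⟩ := EMU_walk H (Q i) tp (hD.conn i) (hD.hi i) x x' hi hi'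
        exact hT2 x x' hxx ⟨p, le_trans hp (le_max_right _ _)⟩ hty
      · rw [G1 i x hi, G1 i' x' hi', ← hty] at hg
        refine hR.yinj i i' hii (ty x) (Finset.mem_image_of_mem ty hi) ?_ hg
        rw [hty]
        exact Finset.mem_image_of_mem ty hi'
    · have hx' : x' ∉ U := fun h => hx ((hT3 x x' hty).2 h)
      obtain ⟨j, rfl⟩ := hUc x hx
      obtain ⟨j', rfl⟩ := hUc x' hx'
      rw [G2, G2] at hg
      exact hR.inj j j' (fun h => hxx (by rw [h])) hty hg
  · -- edges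
    have key : ∀ i, ∀ x ∈ Q i, ∀ x', H.Adj x x' →
        ∃ k ∈ L0, t (k, pos (ty x)) = g x ∧ t (k, pos (ty x')) = g x' := by
      intro i x hx x' hadj
      have h1 : y i (ty x) = g x := (G1 i x hx).symm
      have h2 : y i (ty x') = g x' := by
        by_cases hx' : x' ∈ U
        · obtain ⟨i', hi1, hi2⟩ := hD.adjU x (hD.sub i hx) x' hx' hadj
          have hii : i' = i := by
            by_contra hne'
            exact Finset.disjoint_left.1 (hD.dis _ _ hne') hi1 hx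
          subst hii
          exact (G1 i' x' hi2).symm
        · obtain ⟨j, hj, rfl⟩ := hA i x hx x' hx' hadj
          rw [G2]
          exact hR.yA i j hj
      have hne' : ty x ≠ ty x' := fun h => hT1 x x' hadj (by rw [h])
      rcases lt_or_gt_of_ne hne' with hlt | hlt
      · have hmem : (ty x, ty x') ∈ patF H ty (Q i) := by
          simp only [patF, Finset.mem_filter, Finset.mem_univ, true_and]
          exact ⟨hlt, x, x', hadj, rfl, rfl, Or.inl hx⟩
        have h3 := hR.yF i _ hmem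
        unfold mm at h3
        obtain ⟨k, hk⟩ := Finset.card_pos.1 h3
        obtain ⟨hk1, hk2, hk3⟩ := Finset.mem_filter.1 hk
        exact ⟨k, clsL_sub _ _ _ _ _ _ hk1, hk2.trans h1, hk3.trans h2⟩
      · have hmem : (ty x', ty x) ∈ patF H ty (Q i) := by
          simp only [patF, Finset.mem_filter, Finset.mem_univ, true_and]
          exact ⟨hlt, x', x, hadj.symm, rfl, rfl, Or.inr hx⟩
        have h3 := hR.yF i _ hmem
        unfold mm at h3
        obtain ⟨k, hk⟩ := Finset.card_pos.1 h3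
        obtain ⟨hk1, hk2, hk3⟩ := Finset.mem_filter.1 hk
        exact ⟨k, clsL_sub _ _ _ _ _ _ hk1, hk3.trans h1, hk2.trans h2⟩
    have keyW : ∀ x x', x ∉ U → x' ∉ U → H.Adj x x' → stg x < stg x' →
        ∃ k ∈ L0, t (k, pos (ty x)) = g x ∧ t (k, pos (ty x')) = g x' := by
      intro x x' hx hx' hadj hs
      obtain ⟨j, rfl⟩ := hUc x hx
      obtain ⟨j', rfl⟩ := hUc x' hx'
      have hpj : j ∈ parW j' := (hepar j' j).2 ⟨hadj, hs⟩
      have h3 := hR.edge j' j hpj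
      unfold pmul at h3
      obtain ⟨k, hk⟩ := Finset.card_pos.1 h3
      obtain ⟨hk1, hk2, hk3⟩ := Finset.mem_filter.1 hk
      rw [G2, G2]
      exact ⟨k, clsL_sub _ _ _ _ _ _ hk1, hk2, hk3⟩
    intro x x' hadj
    refine ⟨hT1 x x' hadj, ?_⟩
    by_cases hx : x ∈ U
    · obtain ⟨i, hi⟩ := hD.cov x hx
      exact key i x hi x' hadj
    · by_cases hx' : x' ∈ U
      · obtain ⟨i, hi⟩ := hD.cov x' hx'
        obtain ⟨k, hk, h1, h2⟩ := key i x' hi x hadj.symm
        exact ⟨k, hk, h2, h1⟩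
      · rcases lt_or_gt_of_ne (hD.stn x hx x' hx' hadj) with h | h
        · exact keyW x x' hx hx' hadj h
        · obtain ⟨k, hk, h1, h2⟩ := keyW x' x hx' hx hadj.symm h
          exact ⟨k, hk, h2, h1⟩

/-- Universality from the realisability of all instances. -/
theorem emb_setup (P : Prm) (tp : ℕ) (htp : 1 ≤ tp) (hal : P.al = P.be * P.dd + 2)
    (hbt : P.be + 1 ≤ 2 * tp) (hd2 : 2 ≤ P.dd) :
    ∃ (J Ds v : ℕ) (pos : Fin v → Fin (P.dd + 2)) (st : Fin v → ℕ),
    ∀ {N M : ℕ} (t : Fin M × Fin (P.dd + 2) → Fin N) (L0 : Finset (Fin M)) (κ₁ : ℝ)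
      (V : Fin v → Finset (Fin N)) (Vg Vr : Fin (P.dd + 2) → Finset (Fin N))
      (nn : Fin (P.dd + 2) → ℕ) (_ : Parts pos κ₁ V Vg nn)
      (_ : ∀ i, Disjoint (V i) (Vr (pos i)))
      (_ : ∀ R' : Fin (P.dd + 2) → Finset (Fin N), (∀ a, R' a ⊆ Vr a) →
        (∀ a, (Vr a).card ≤ 2 * (R' a).card) → ∃ i ∈ L0, ∀ a, t (i, a) ∈ R' a)
      (n : ℕ) (_ : ∀ a, 2 * n ≤ (Vr a).card)
      (_ : ∀ (n' q : ℕ) (ty : Fin n' → Fin v) (par : Fin n' → Finset (Fin n'))
        (cl : Fin n' → Finset (Fin n')) (F : Fin q → Finset (Fin v × Fin v))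
        (B : Fin q → Finset (Fin v)) (A : Fin q → Finset (Fin n')),
        Inst P J Ds pos st ty par cl F B A → n' ≤ n → q ≤ n →
          ∃ (φ : Fin n' → Fin N) (y : Fin q → Fin v → Fin N),
            Realised t pos (clsL t pos V Vg L0) V ty par F B A φ y),
    UnivP (P.dd + 1) t L0 n := by
  obtain ⟨J, Rd, hins⟩ := inst_of_decomp P hd2 tp ((tp + 1) * (P.dd + 2))
  obtain ⟨v, pos, st, hcol⟩ := colt P.dd (max Rd tp) ((tp + 1) * (P.dd + 2))
  refine ⟨J, (tp + 1) * (P.dd + 2), v, pos, st, ?_⟩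
  intro N M t L0 κ₁ V Vg Vr nn hP hVr hR n hn hI
  intro H hdeg
  obtain ⟨q, κ, hκinj, hκadj, hκnb, hκK⟩ := kd (P.dd + 1) n H hdeg
  have hdeg' : ∀ x : {x : Fin n // ∀ i a, κ i a ≠ x},
      ((H.comap Subtype.val : SimpleGraph {x : Fin n // ∀ i a, κ i a ≠ x}).neighborSet x).ncard
        ≤ P.dd + 1 := by
    intro x
    refine le_trans ?_ (hdeg x.1)
    rw [← Set.ncard_image_of_injective _ Subtype.val_injective]
    refine Set.ncard_le_ncard ?_ (Set.toFinite _)
    rintro _ ⟨z, hz, rfl⟩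
    exact hz
  have hK' : KFree (P.dd + 2)
      (H.comap Subtype.val : SimpleGraph {x : Fin n // ∀ i a, κ i a ≠ x}) := by
    intro f hf hadj
    obtain ⟨i, a, h⟩ := hκK (fun j => (f j).1) (fun a b hab => hf (Subtype.ext hab))
      (fun a b hab => hadj a b hab)
    exact (f 0).2 i a h
  have hXn : Fintype.card {x : Fin n // ∀ i a, κ i a ≠ x} ≤ n := by
    have := Fintype.card_le_of_injective (Subtype.val : {x : Fin n // ∀ i a, κ i a ≠ x} → Fin n)
      Subtype.val_injective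
    rwa [Fintype.card_fin] at this
  obtain ⟨ty, g, hg1, hg2, hg3⟩ := EMU_main P tp htp hal hbt hd2 J Rd hins pos st hcol
    (H.comap Subtype.val) hdeg' hK' t L0 V Vg n hXn hI
  have hq : q ≤ n := by
    have hinj : Function.Injective fun i : Fin q => κ i 0 := by
      intro i j hij
      exact (hκinj i 0 j 0 hij).1
    have := Fintype.card_le_of_injective _ hinj
    rwa [Fintype.card_fin, Fintype.card_fin] at this
  obtain ⟨ι, hι1, hι2, hι3⟩ := ek t L0 Vr hR q (fun a => le_trans (by omega) (hn a))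
  let ψ : Fin n → Fin (P.dd + 2) × Fin N := fun x =>
    if h : ∃ p : Fin q × Fin (P.dd + 2), κ p.1 p.2 = x then
    (h.choose.2, t (ι h.choose.1, h.choose.2)) else
    (pos (ty ⟨x, fun i a hia => h ⟨(i, a), hia⟩⟩), g ⟨x, fun i a hia => h ⟨(i, a), hia⟩⟩)
  have P1 : ∀ i a, ψ (κ i a) = (a, t (ι i, a)) := by
    intro i a
    have h : ∃ p : Fin q × Fin (P.dd + 2), κ p.1 p.2 = κ i a := ⟨(i, a), rfl⟩
    have h1 : ψ (κ i a) = (h.choose.2, t (ι h.choose.1, h.choose.2)) := dif_pos h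
    obtain ⟨h2, h3⟩ := hκinj _ _ _ _ h.choose_spec
    rw [h1, h2, h3]
  have P2 : ∀ (x : Fin n) (hx : ∀ i a, κ i a ≠ x), ψ x = (pos (ty ⟨x, hx⟩), g ⟨x, hx⟩) := by
    intro x hx
    have h : ¬ ∃ p : Fin q × Fin (P.dd + 2), κ p.1 p.2 = x := by
      rintro ⟨p, hp⟩
      exact hx _ _ hp
    exact dif_neg h
  have hdich : ∀ x : Fin n, (∃ i a, κ i a = x) ∨ (∀ i a, κ i a ≠ x) := by
    intro x
    by_cases h : ∃ i a, κ i a = x
    · exact Or.inl h
    · right
      intro i a hia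
      exact h ⟨i, a, hia⟩
  refine ⟨ψ, ?_, ?_⟩
  · -- injectivity
    have mixed : ∀ (i : Fin q) (a : Fin (P.dd + 2)) (x : Fin n) (_ : ∀ i a, κ i a ≠ x),
        ψ (κ i a) ≠ ψ x := by
      intro i a x hx heq
      rw [P1, P2 x hx, Prod.mk.injEq] at heq
      obtain ⟨h1, h2⟩ := heq
      have h3 := hι2 i a
      rw [h2, h1] at h3
      exact Finset.disjoint_left.1 (hVr (ty ⟨x, hx⟩)) (hg1 ⟨x, hx⟩) h3
    intro x x' hxx
    rcases hdich x with ⟨i, a, rfl⟩ | hx
    · rcases hdich x' with ⟨i', a', rfl⟩ | hx'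
      · rw [P1, P1, Prod.mk.injEq] at hxx
        obtain ⟨h1, h2⟩ := hxx
        subst h1
        by_cases hii : i = i'
        · rw [hii]
        · exact absurd h2 (hι3 i i' hii a)
      · exact absurd hxx (mixed i a x' hx')
    · rcases hdich x' with ⟨i', a', rfl⟩ | hx'
      · exact absurd hxx.symm (mixed i' a' x hx)
      · rw [P2 x hx, P2 x' hx', Prod.mk.injEq] at hxx
        obtain ⟨h1, h2⟩ := hxx
        by_cases hty : ty ⟨x, hx⟩ = ty ⟨x', hx'⟩
        · exact congrArg Subtype.val (hg2 _ _ hty h2)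
        · exfalso
          have h3 := hg1 ⟨x', hx'⟩
          rw [← h2] at h3
          exact Finset.disjoint_left.1 (hP.disV _ _ hty h1) (hg1 ⟨x, hx⟩) h3
  · -- edges
    have k4e : ∀ (i : Fin q) (a : Fin (P.dd + 2)) (w : Fin n), H.Adj (κ i a) w →
        (ψ (κ i a)).1 ≠ (ψ w).1 ∧ ∃ k ∈ L0, t (k, (ψ (κ i a)).1) = (ψ (κ i a)).2 ∧
          t (k, (ψ w).1) = (ψ w).2 := by
      intro i a w hadj
      obtain ⟨b, rfl⟩ := hκnb i a w hadj
      rw [P1, P1]
      refine ⟨?_, ι i, hι1 i, rfl, rfl⟩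
      change a ≠ b
      rintro rfl
      exact H.loopless.irrefl _ hadj
    intro u w hadj
    rcases hdich u with ⟨i, a, rfl⟩ | hu
    · exact k4e i a w hadj
    · rcases hdich w with ⟨i, a, rfl⟩ | hw
      · obtain ⟨h1, k, hk, h2, h3⟩ := k4e i a u hadj.symm
        exact ⟨h1.symm, k, hk, h3, h2⟩
      · rw [P2 u hu, P2 w hw]
        exact hg3 ⟨u, hu⟩ ⟨w, hw⟩ hadj

end Pool.Agent.CUG
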