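import Pool.Agent.CUG.EBD

set_option autoImplicit false

/-!
# CUG.EOK

sparse: for `R` nonempty let `R' = {a ∈ A : ty a ∈ R}`, `|R'| ≤ |R|`, `2 |ins E R| ≤ inn H R'` (`Simp`); `|R'| ≥ 3`: `ebd`
gives `|ins| ≤ dd (|R'| - 2) + 1 ≤ dd (|R'| - 1)`; `|R'| = 2`: `≤ 1 ≤ dd`; `|R'| ≤ 1`: `0`. So
`be |ins| + al ≤ al |R|` (`be dd ≤ al`). peel: `e = (ty a, ty b)`. If some `i ∈ R` is not the type of a vertex of `A` it has
no neighbours. Otherwise `R' = {c ∈ A : ty c ∈ R}` is nonempty, `a, b ∉ R'`; take `i' ∈ R'` from `hpeel` and `i = ty i'`: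
a type `u` with `(u ∈ R ∨ u = e.1 ∨ u = e.2)` and `(u,i) ∈ E ∨ (i,u) ∈ E` is the type of a vertex `c ∈ A` adjacent to `i'`
(`hE`, `hinj`), `c ∈ R' ∪ {a,b}`; injective.
-/

namespace Pool.Agent.CUG

open Pool.Agent.CUB
open scoped Classical

/-- the ordered pairs inside a set -/
theorem EOK_inn_le {X : Type} [Fintype X] (H : SimpleGraph X) (S : Finset X) :
    inn H S ≤ S.card * S.card - S.card := by
  unfold inn
  rw [← Finset.offDiag_card]
  refine Finset.card_le_card ?_
  intro p hp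
  obtain ⟨_, h1, h2, h3⟩ := Finset.mem_filter.1 hp
  exact Finset.mem_offDiag.2 ⟨h1, h2, h3.ne⟩

/-- every edge of the pattern is counted twice -/
theorem EOK_two {X : Type} [Fintype X] (H : SimpleGraph X) {v : ℕ} (ty : X → Fin v)
    (A : Finset X) (E : Finset (Fin v × Fin v))
    (hE : ∀ e ∈ E, ∃ a ∈ A, ∃ b ∈ A, H.Adj a b ∧ ty a = e.1 ∧ ty b = e.2) (hsimp : Simp E)
    (R : Finset (Fin v)) :
    2 * (ins E R).card ≤ inn H (A.filter fun a => ty a ∈ R) := by
  have hdis : Disjoint (ins E R) ((ins E R).image Prod.swap) := by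
    rw [Finset.disjoint_left]
    intro e he he'
    obtain ⟨e', he1, he2⟩ := Finset.mem_image.1 he'
    have h1 := hsimp e' (Finset.mem_filter.1 he1).1
    have h2 : (e'.2, e'.1) = e := he2
    rw [h2] at h1
    exact h1 (Finset.mem_filter.1 he).1
  have hcard : ((ins E R) ∪ ((ins E R).image Prod.swap)).card = 2 * (ins E R).card := by
    rw [Finset.card_union_of_disjoint hdis, Finset.card_image_of_injective _ Prod.swap_injective]
    ring
  rw [← hcard]
  unfold inn
  refine le_trans (Finset.card_le_card (t := (Finset.univ.filter fun p : X × X =>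
    p.1 ∈ (A.filter fun a => ty a ∈ R) ∧ p.2 ∈ (A.filter fun a => ty a ∈ R) ∧
      H.Adj p.1 p.2).image fun p => (ty p.1, ty p.2)) ?_) Finset.card_image_le
  intro e he
  rcases Finset.mem_union.1 he with h | h
  · obtain ⟨h1, h2, h3⟩ := Finset.mem_filter.1 h
    obtain ⟨a, ha, b, hb, hab, ta, tb⟩ := hE e h1
    refine Finset.mem_image.2 ⟨(a, b), Finset.mem_filter.2 ⟨Finset.mem_univ _, ?_, ?_, hab⟩, ?_⟩
    · exact Finset.mem_filter.2 ⟨ha, by rw [ta]; exact h2⟩
    · exact Finset.mem_filter.2 ⟨hb, by rw [tb]; exact h3⟩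
    · exact Prod.ext ta tb
  · obtain ⟨e', he', rfl⟩ := Finset.mem_image.1 h
    obtain ⟨h1, h2, h3⟩ := Finset.mem_filter.1 he'
    obtain ⟨a, ha, b, hb, hab, ta, tb⟩ := hE e' h1
    refine Finset.mem_image.2 ⟨(b, a), Finset.mem_filter.2 ⟨Finset.mem_univ _, ?_, ?_, hab.symm⟩,
      ?_⟩
    · exact Finset.mem_filter.2 ⟨hb, by rw [tb]; exact h3⟩
    · exact Finset.mem_filter.2 ⟨ha, by rw [ta]; exact h2⟩
    · exact Prod.ext tb ta

/-- Patterns of vertex sets outside `U` are admissible. -/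
theorem eok_gen (P : Prm) (hd2 : 2 ≤ P.dd) {X : Type} [Fintype X] (H : SimpleGraph X)
    (hdeg : ∀ x, (H.neighborSet x).ncard ≤ P.dd + 1) (hK : KFree (P.dd + 2) H)
    {v kp : ℕ} (pos : Fin v → Fin kp) (ty : X → Fin v) (A : Finset X)
    (hinj : Set.InjOn ty (A : Set X))
    (hpeel : ∀ a ∈ A, ∀ b ∈ A, H.Adj a b → ∀ R : Finset X, R.Nonempty → R ⊆ A →
      a ∉ R → b ∉ R → ∃ i ∈ R,
        (Finset.univ.filter fun u : X => (u ∈ R ∨ u = a ∨ u = b) ∧ H.Adj u i).card ≤ P.dd)
    (E : Finset (Fin v × Fin v))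
    (hE : ∀ e ∈ E, ∃ a ∈ A, ∃ b ∈ A, H.Adj a b ∧ ty a = e.1 ∧ ty b = e.2)
    (hpos : PosD pos E) (hsimp : Simp E) : EOK P pos E := by
  refine ⟨hpos, hsimp, ?_, ?_⟩
  · intro R hR
    have h2 := EOK_two H ty A E hE hsimp R
    have hle : (A.filter fun a => ty a ∈ R).card ≤ R.card := by
      refine Finset.card_le_card_of_injOn ty ?_ ?_
      · intro a ha
        exact (Finset.mem_filter.1 (Finset.mem_coe.1 ha)).2
      · intro a ha b hb h
        exact hinj (Finset.mem_coe.2 (Finset.mem_filter.1 (Finset.mem_coe.1 ha)).1)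
          (Finset.mem_coe.2 (Finset.mem_filter.1 (Finset.mem_coe.1 hb)).1) h
    have h3 := EOK_inn_le H (A.filter fun a => ty a ∈ R)
    have hRc : 1 ≤ R.card := Finset.card_pos.2 hR
    have hdd := P.hdd
    have key : (ins E R).card + P.dd ≤ P.dd * (A.filter fun a => ty a ∈ R).card ∨
        (ins E R).card = 0 := by
      by_cases hc : 3 ≤ (A.filter fun a => ty a ∈ R).card
      · left
        have h4 := ebd P.dd hd2 H hdeg hK _ hc
        have h5 : 2 * P.dd * (A.filter fun a => ty a ∈ R).card =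
          2 * (P.dd * (A.filter fun a => ty a ∈ R).card) := by ring
        omega
      · by_cases hc2 : (A.filter fun a => ty a ∈ R).card = 2
        · left
          rw [hc2] at h3 ⊢
          omega
        · right
          have : (A.filter fun a => ty a ∈ R).card = 0 ∨ (A.filter fun a => ty a ∈ R).card = 1 := by
            omega
          rcases this with h | h <;> rw [h] at h3 <;> omega
    rcases key with h | h
    · have h6 : P.be * (ins E R).card + P.be * P.dd ≤ P.be * P.dd * R.card := by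
        have h7 : P.be * ((ins E R).card + P.dd) ≤ P.be * (P.dd * R.card) :=
          Nat.mul_le_mul_left _ (h.trans (Nat.mul_le_mul_left _ hle))
        calc _ = P.be * ((ins E R).card + P.dd) := by ring
          _ ≤ P.be * (P.dd * R.card) := h7
          _ = _ := by ring
      obtain ⟨r, hr⟩ : ∃ r, R.card = r + 1 := ⟨R.card - 1, by omega⟩
      rw [hr] at h6 ⊢
      have h8 : P.be * P.dd * r ≤ P.al * r := Nat.mul_le_mul_right _ (by omega)
      have h9 : P.be * P.dd * (r + 1) = P.be * P.dd * r + P.be * P.dd := by ring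
      have h10 : P.al * (r + 1) = P.al * r + P.al := by ring
      omega
    · rw [h]
      have : P.al * 1 ≤ P.al * R.card := Nat.mul_le_mul_left _ hRc
      omega
  · intro e he R hR h1 h2
    obtain ⟨a, ha, b, hb, hab, ta, tb⟩ := hE e he
    by_cases hall : ∀ i ∈ R, ∃ c ∈ A, ty c = i
    · have hRne : (A.filter fun c => ty c ∈ R).Nonempty := by
        obtain ⟨i, hi⟩ := hR
        obtain ⟨c, hc, rfl⟩ := hall i hi
        exact ⟨c, Finset.mem_filter.2 ⟨hc, hi⟩⟩
      obtain ⟨i', hi', hcard⟩ := hpeel a ha b hb hab (A.filter fun c => ty c ∈ R) hRne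
        (Finset.filter_subset _ _)
        (fun h => h1 (by rw [← ta]; exact (Finset.mem_filter.1 h).2))
        (fun h => h2 (by rw [← tb]; exact (Finset.mem_filter.1 h).2))
      obtain ⟨hi'A, hi'R⟩ := Finset.mem_filter.1 hi'
      refine ⟨ty i', hi'R, le_trans ?_ hcard⟩
      refine le_trans (Finset.card_le_card (t := (Finset.univ.filter fun u : X =>
        (u ∈ (A.filter fun c => ty c ∈ R) ∨ u = a ∨ u = b) ∧ H.Adj u i').image ty) ?_)
        Finset.card_image_le
      intro u hu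
      obtain ⟨_, hu1, hu2⟩ := Finset.mem_filter.1 hu
      have hex : ∃ c ∈ A, ty c = u ∧ H.Adj c i' := by
        rcases hu2 with h | h
        · obtain ⟨c, hc, d, hd, hcd, tc, td⟩ := hE _ h
          have : d = i' := hinj (Finset.mem_coe.2 hd) (Finset.mem_coe.2 hi'A) td
          rw [this] at hcd
          exact ⟨c, hc, tc, hcd⟩
        · obtain ⟨c, hc, d, hd, hcd, tc, td⟩ := hE _ h
          have : c = i' := hinj (Finset.mem_coe.2 hc) (Finset.mem_coe.2 hi'A) tc
          rw [this] at hcd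
          exact ⟨d, hd, td, hcd.symm⟩
      obtain ⟨c, hc, rfl, hadj⟩ := hex
      refine Finset.mem_image.2 ⟨c, Finset.mem_filter.2 ⟨Finset.mem_univ _, ?_, hadj⟩, rfl⟩
      rcases hu1 with h | h | h
      · exact Or.inl (Finset.mem_filter.2 ⟨hc, h⟩)
      · exact Or.inr (Or.inl (hinj (Finset.mem_coe.2 hc) (Finset.mem_coe.2 ha) (h.trans ta.symm)))
      · exact Or.inr (Or.inr (hinj (Finset.mem_coe.2 hc) (Finset.mem_coe.2 hb) (h.trans tb.symm)))
    · push Not at hall
      obtain ⟨i, hi, hno⟩ := hall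
      refine ⟨i, hi, ?_⟩
      have : (Finset.univ.filter fun u : Fin v => (u ∈ R ∨ u = e.1 ∨ u = e.2) ∧
          ((u, i) ∈ E ∨ (i, u) ∈ E)) = ∅ := by
        rw [Finset.filter_eq_empty_iff]
        rintro u _ ⟨_, h | h⟩
        · obtain ⟨c, hc, d, hd, hcd, tc, td⟩ := hE _ h
          exact hno d hd td
        · obtain ⟨c, hc, d, hd, hcd, tc, td⟩ := hE _ h
          exact hno c hc tc
      rw [this]
      simp

end Pool.Agent.CUG
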