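import Pool.Agent.CUG.RED

set_option autoImplicit false

/-!
# CUG.FINB

Adapt CUB/FINB.lean (exponent `al` instead of 96). `dd = Δ - 1`, `b₁ = Δ^2`. For arbitrary `s, s'` with
`dd (s + s' - 2) + 1 < s s'`: then `s, s' ≥ dd + 1` (if `s ≤ dd` then `s s' ≤ dd s' + ..`: `s = 0` impossible; `1 ≤ s ≤ dd`:
`s s' - 1 ≤ dd (s + s' - 2)` since `dd (s+s'-2) ≥ s (s + s' - 2) ≥ s s' - 1`), and `(s₁, s₁') = (min s b₁, min s' b₁)` satisfies the
same inequality, i.e. `(s₁ - dd)(s₁' - dd) > (dd-1)^2` (if one of them is `b₁` then `(b₁ - dd) · 1 > (dd - 1)^2`), and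
`K_{s₁,s₁'} ⊆ K_{s,s'}`. Apply `host` with `b₁`.
-/

namespace Pool.Agent.CUG

open Pool.Agent.CUB
open scoped Classical

private theorem finb_h (al : ℕ) (hal : 0 < al) (h0 A n : ℕ) (hn : 1 ≤ n) :
    ∃ h ≥ h0, A * n ≤ h ^ al ∧ h ^ al ≤ (h0 ^ al + 2 ^ al * A + 1) * n := by
  have hex : ∃ c : ℕ, A * n ≤ c ^ al := ⟨A * n, Nat.le_self_pow (by omega) _⟩
  set c := Nat.find hex with hc
  have h1 : A * n ≤ c ^ al := Nat.find_spec hex
  have h2 : c ^ al ≤ 2 ^ al * (A * n) + 1 := by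
    rcases Nat.lt_or_ge c 2 with hlt | hge
    · have : c ^ al ≤ 1 := by
        have h3 : c ≤ 1 := by omega
        calc c ^ al ≤ 1 ^ al := Nat.pow_le_pow_left h3 al
          _ = 1 := one_pow al
      exact le_trans this (Nat.le_add_left _ _)
    · have h3 : ¬ A * n ≤ (c - 1) ^ al := Nat.find_min hex (by omega)
      have h4 : c ^ al ≤ (2 * (c - 1)) ^ al := Nat.pow_le_pow_left (by omega) al
      rw [mul_pow] at h4
      have h5 : (c - 1) ^ al ≤ A * n := by omega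
      have h6 : 2 ^ al * (c - 1) ^ al ≤ 2 ^ al * (A * n) := Nat.mul_le_mul_left _ h5
      exact le_trans (le_trans h4 h6) (Nat.le_add_right _ _)
  refine ⟨max h0 c, le_max_left _ _, le_trans h1 (Nat.pow_le_pow_left (le_max_right _ _) al), ?_⟩
  have h5 : (max h0 c) ^ al ≤ h0 ^ al + c ^ al := by
    rcases le_total h0 c with h | h
    · rw [max_eq_right h]; exact Nat.le_add_left _ _
    · rw [max_eq_left h]; exact Nat.le_add_right _ _
  calc (max h0 c) ^ al ≤ h0 ^ al + c ^ al := h5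
    _ ≤ h0 ^ al + (2 ^ al * (A * n) + 1) := Nat.add_le_add_left h2 _
    _ ≤ h0 ^ al * n + (2 ^ al * (A * n) + n) :=
        Nat.add_le_add (Nat.le_mul_of_pos_right _ hn) (Nat.add_le_add_left hn _)
    _ = _ := by ring

private theorem finb_ge (dd s s' : ℕ) (h : dd * (s + s' - 2) + 1 < s * s') : dd + 1 ≤ s := by
  by_contra hlt
  have hs : s ≤ dd := by omega
  rcases Nat.eq_zero_or_pos s with h0 | h0
  · subst h0; simp at h
  · rcases Nat.eq_zero_or_pos s' with h0' | h0'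
    · subst h0'; simp at h
    · obtain ⟨x, rfl⟩ : ∃ x, s = x + 1 := ⟨s - 1, by omega⟩
      obtain ⟨y, rfl⟩ : ∃ y, s' = y + 1 := ⟨s' - 1, by omega⟩
      have h1 : x + 1 + (y + 1) - 2 = x + y := by omega
      rw [h1] at h
      have h2 : (x + 1) * (x + y) ≤ dd * (x + y) := Nat.mul_le_mul_right _ hs
      nlinarith [Nat.zero_le (x * x)]

private theorem finb_iff (dd x y : ℕ) (hd : 1 ≤ dd) :
    dd * (dd + 1 + x + (dd + 1 + y) - 2) + 1 < (dd + 1 + x) * (dd + 1 + y) ↔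
      (dd - 1) * (dd - 1) < (x + 1) * (y + 1) := by
  obtain ⟨e, rfl⟩ : ∃ e, dd = e + 1 := ⟨dd - 1, by omega⟩
  have h1 : e + 1 + 1 + x + (e + 1 + 1 + y) - 2 = 2 * e + x + y + 2 := by omega
  have h2 : e + 1 - 1 = e := by omega
  rw [h1, h2]
  constructor
  · intro h; nlinarith
  · intro h; nlinarith

private theorem finb_red (dd s s' b₁ : ℕ) (hd : 1 ≤ dd) (hb : b₁ = (dd + 1) ^ 2)
    (h : dd * (s + s' - 2) + 1 < s * s') :
    ∃ s₁ ≤ s, ∃ s₁' ≤ s', s₁ ≤ b₁ ∧ s₁' ≤ b₁ ∧ dd * (s₁ + s₁' - 2) + 1 < s₁ * s₁' := by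
  have hs : dd + 1 ≤ s := finb_ge dd s s' h
  have hs' : dd + 1 ≤ s' := by
    apply finb_ge dd s' s
    rw [Nat.add_comm s' s, Nat.mul_comm s' s]; exact h
  obtain ⟨x, rfl⟩ : ∃ x, s = dd + 1 + x := ⟨s - (dd + 1), by omega⟩
  obtain ⟨y, rfl⟩ : ∃ y, s' = dd + 1 + y := ⟨s' - (dd + 1), by omega⟩
  rw [finb_iff dd x y hd] at h
  obtain ⟨e, rfl⟩ : ∃ e, dd = e + 1 := ⟨dd - 1, by omega⟩
  have h2 : e + 1 - 1 = e := by omega
  rw [h2] at h
  have hbb : b₁ = e * e + 4 * e + 4 := by rw [hb]; ring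
  -- the truncation bound for `x`
  have hw : e * e + 3 * e + 2 + (e + 2) = b₁ := by rw [hbb]; ring
  have hbase : e * e < (e * e + 3 * e + 2 + 1) * 1 := by nlinarith
  refine ⟨e + 1 + 1 + min x (e * e + 3 * e + 2), by
      have := min_le_left x (e * e + 3 * e + 2); omega,
    e + 1 + 1 + min y (e * e + 3 * e + 2), by
      have := min_le_left y (e * e + 3 * e + 2); omega, by
      have := min_le_right x (e * e + 3 * e + 2); omega, by
      have := min_le_right y (e * e + 3 * e + 2); omega, ?_⟩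
  rw [finb_iff (e + 1) _ _ hd, h2]
  rcases le_total x (e * e + 3 * e + 2) with hx | hx
  · rw [min_eq_left hx]
    rcases le_total y (e * e + 3 * e + 2) with hy | hy
    · rw [min_eq_left hy]; exact h
    · rw [min_eq_right hy]
      nlinarith [Nat.zero_le (x * (e * e + 3 * e + 2))]
  · rw [min_eq_right hx]
    nlinarith [Nat.zero_le ((e * e + 3 * e + 2) * min y (e * e + 3 * e + 2)),
      Nat.zero_le (min y (e * e + 3 * e + 2))]

/-- The final theorem. -/
theorem final (Δ : ℕ) (hΔ : 3 ≤ Δ) (r : ℕ) (hr : 0 < r) :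
    ∃ C : ℕ, ∀ n : ℕ, 1 ≤ n →
      ∃ N : ℕ, N ≤ C * n ∧
        ∃ G : SimpleGraph (Fin N),
          (∀ s s' : ℕ, (Δ - 1) * (s + s' - 2) + 1 < s * s' →
            ¬ (completeBipartiteGraph (Fin s) (Fin s')).IsContained G) ∧
          ∀ χ : Sym2 (Fin N) → Fin r, ∃ c : Fin r,
            ∀ H : SimpleGraph (Fin n),
              (∀ v : Fin n, (H.neighborSet v).ncard ≤ Δ) →
                H.IsContained (SimpleGraph.fromEdgeSet {e | e ∈ G.edgeSet ∧ χ e = c}) := by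
  obtain ⟨dd, rfl⟩ : ∃ dd, Δ = dd + 1 := ⟨Δ - 1, by omega⟩
  have hdd : dd + 1 - 1 = dd := by omega
  rw [hdd]
  obtain ⟨b, K, h₀, al, hal, hh⟩ := host dd (by omega) ((dd + 1) ^ 2) r hr
  refine ⟨b * (h₀ ^ al + 2 ^ al * K + 1), ?_⟩
  intro n hn
  obtain ⟨h, hh0, hA, hC⟩ := finb_h al hal h₀ K n hn
  obtain ⟨G, hG, hcol⟩ := hh h hh0 (h ^ al) rfl
  generalize h ^ al = N at hA hC G hG hcol
  refine ⟨b * N, ?_, G.comap finProdFinEquiv.symm, ?_, ?_⟩
  · calc b * N ≤ b * ((h₀ ^ al + 2 ^ al * K + 1) * n) := Nat.mul_le_mul_left _ hC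
      _ = _ := (mul_assoc _ _ _).symm
  · rintro s s' hss ⟨f⟩
    obtain ⟨s₁, hs₁, s₁', hs₁', hb, hb', hss₁⟩ := finb_red dd s s' _ (by omega) rfl hss
    apply hG s₁ s₁' hb hb' hss₁
      (fun i => finProdFinEquiv.symm (f (Sum.inl (Fin.castLE hs₁ i))))
      (fun j => finProdFinEquiv.symm (f (Sum.inr (Fin.castLE hs₁' j))))
    · intro i i' hii
      exact Fin.castLE_injective hs₁
        (Sum.inl.inj (f.injective (finProdFinEquiv.symm.injective hii)))
    · intro i i' hii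
      exact Fin.castLE_injective hs₁'
        (Sum.inr.inj (f.injective (finProdFinEquiv.symm.injective hii)))
    · intro i j
      have : (G.comap finProdFinEquiv.symm).Adj (f (Sum.inl (Fin.castLE hs₁ i)))
          (f (Sum.inr (Fin.castLE hs₁' j))) := by
        apply f.toHom.map_adj
        simp [completeBipartiteGraph]
      exact this
  · intro χ
    obtain ⟨c, hc⟩ := hcol (fun s => χ (s.map finProdFinEquiv))
    refine ⟨c, fun H hH => ?_⟩
    obtain ⟨φ, hφi, hφ⟩ := hc n hA H hH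
    refine ⟨⟨⟨fun u => finProdFinEquiv (φ u), ?_⟩, ?_⟩⟩
    · intro u w huw
      obtain ⟨h1, h2⟩ := hφ u w huw
      rw [SimpleGraph.fromEdgeSet_adj]
      refine ⟨⟨?_, ?_⟩, ?_⟩
      · rw [SimpleGraph.mem_edgeSet, SimpleGraph.comap_adj, Equiv.symm_apply_apply,
          Equiv.symm_apply_apply]
        exact h1
      · rw [← h2]
        rfl
      · intro hEq
        exact h1.ne (finProdFinEquiv.injective hEq)
    · intro u w huw
      exact hφi (finProdFinEquiv.injective huw)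

end Pool.Agent.CUG
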