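import Pool.Agent.CUG.Defs
import Pool.Agent.CUB.Defs
import Pool.Agent.PUG.TRI

set_option autoImplicit false

/-!
# CUG.GAD

Generalise Pool/Agent/PUG/TRI.lean from `K33Free` to `KSFree τ τ`, `τ ≥ 3` (import Pool.Agent.PUG.STR or TRI; reuse
`share_one`, `out_one`, `c4_amal`, `star_lemma`, ...): in `k33_inner` the pigeonhole among three of the `τ` neighbours
suffices (`Fin 3 → Fin τ`, `Fin.castLE`); `k33_amal`, `inv0`, `exists_construction`, `k33_ramsey` change only in the
type `Fin 3` ↦ `Fin τ`. (TRI's `Inv` structure has a field `k33`: copy it with `KSFree τ τ`.)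
kk_ramsey_complete: `F = ⊤` on `Fin (dd+2)`, `τ = dd+1 ≥ 3`; it is `KSFree τ τ` since adjacent vertices are different, so
the `2 τ = 2 dd + 2 > dd + 2` vertices of a `K_{τ,τ}` would be different.
-/

namespace Pool.Agent.CUG

open Pool.Agent.CUB
open scoped Classical

section step

open Pool.Agent.PUG Pool.Agent.PUG.Tri

variable {V T X' Y' Q : Type} {r : ℕ} (A : Amal V T X' Y' Q)

private theorem GAD_inner {τ : ℕ} (hτ : 3 ≤ τ) (kk : KSFree τ τ A.G)
    (P : PLStar (fun (x : {v : V // A.π v = A.s}) (y : {v : V // A.π v = A.t}) => A.G.Adj x.1 y.1)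
      r X' Y' Q A.I' A.φ A.ψ) {a a' : Fin τ → A.Vert} (ha : Function.Injective a)
    (ha' : Function.Injective a') (h : ∀ i j, A.graph.Adj (a i) (a' j)) {q : Q}
    {w : {v : V // A.π v ≠ A.s ∧ A.π v ≠ A.t}} (i₀ : Fin τ) (hi₀ : a i₀ = Sum.inr (q, w)) :
    False := by
  have hy : ∀ j, ∃ u, A.map q u = a' j := by
    intro j
    have := h i₀ j
    rw [hi₀] at this
    obtain ⟨u, -, hu⟩ := A.adj_inr this
    exact ⟨u, hu⟩
  have hx : ∀ i, ∃ u, A.map q u = a i := by
    intro i
    by_contra hne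
    choose v hv using hy
    have hadj : ∀ j, A.graph.Adj (a i) (A.map q (v j)) := by
      intro j
      rw [hv j]
      exact h i j
    obtain ⟨j₁, j₂, hj, hp⟩ := pigeon (fun j : Fin 3 => A.π (v (Fin.castLE hτ j)))
      (fun j => out_nbr A hne (hadj (Fin.castLE hτ j)))
    have := out_one A P hne (hadj (Fin.castLE hτ j₁)) (hadj (Fin.castLE hτ j₂)) hp
    apply hj
    apply Fin.castLE_injective hτ
    apply ha'
    rw [← hv (Fin.castLE hτ j₁), ← hv (Fin.castLE hτ j₂), this]
  choose u hu using hx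
  choose v hv using hy
  refine kk u v ?_ ?_ ?_
  · intro i j hij
    apply ha
    rw [← hu i, ← hu j, hij]
  · intro i j hij
    apply ha'
    rw [← hv i, ← hv j, hij]
  · intro i j
    rw [← A.adj_map q, hu, hv]
    exact h i j

private theorem GAD_amal {τ : ℕ} (hτ : 3 ≤ τ) (kk : KSFree τ τ A.G)
    (P : PLStar (fun (x : {v : V // A.π v = A.s}) (y : {v : V // A.π v = A.t}) => A.G.Adj x.1 y.1)
      r X' Y' Q A.I' A.φ A.ψ) : KSFree τ τ A.graph := by
  intro a a' ha ha' h
  let i0 : Fin τ := ⟨0, by omega⟩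
  let i1 : Fin τ := ⟨1, by omega⟩
  have h01 : i0 ≠ i1 := by
    intro he
    have := congrArg Fin.val he
    simp [i0, i1] at this
  by_cases h1 : ∃ i q w, a i = Sum.inr (q, w)
  · obtain ⟨i, q, w, hi⟩ := h1
    exact GAD_inner A hτ kk P ha ha' h i hi
  by_cases h2 : ∃ i q w, a' i = Sum.inr (q, w)
  · obtain ⟨i, q, w, hi⟩ := h2
    exact GAD_inner A hτ kk P ha' ha (fun i j => (h j i).symm) i hi
  push Not at h1 h2
  have c1 : ∀ i, (∃ x', a i = A.vx x') ∨ (∃ y', a i = A.vy y') := by
    intro i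
    rcases A.cases (a i) with h | h | ⟨q, w, h⟩
    · exact Or.inl h
    · exact Or.inr h
    · exact absurd h (h1 i q w)
  have c2 : ∀ i, (∃ x', a' i = A.vx x') ∨ (∃ y', a' i = A.vy y') := by
    intro i
    rcases A.cases (a' i) with h | h | ⟨q, w, h⟩
    · exact Or.inl h
    · exact Or.inr h
    · exact absurd h (h2 i q w)
  have main : ∀ b b' : Fin τ → A.Vert, Function.Injective b → Function.Injective b' →
      (∀ i j, A.graph.Adj (b i) (b' j)) → (∀ i, (∃ x', b i = A.vx x') ∨ (∃ y', b i = A.vy y')) →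
      (∀ i, (∃ x', b' i = A.vx x') ∨ (∃ y', b' i = A.vy y')) → (∃ x', b i0 = A.vx x') →
      False := by
    intro b b' hb hb' hadj c c' h0
    have k1 : ∀ j, ∃ y', b' j = A.vy y' := by
      intro j
      rcases c' j with ⟨x', hx⟩ | h
      · exfalso
        obtain ⟨x0, hx0⟩ := h0
        have := hadj i0 j
        rw [hx0, hx] at this
        exact A.proj_ne this rfl
      · exact h
    have k2 : ∀ j, ∃ y', b j = A.vx y' := by
      intro j
      rcases c j with h | ⟨y', hy⟩
      · exact h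
      · exfalso
        obtain ⟨y0, hy0⟩ := k1 i0
        have := hadj j i0
        rw [hy0, hy] at this
        exact A.proj_ne this rfl
    choose y hy using k1
    choose x hx using k2
    have hI : ∀ i j, A.I' (x i) (y j) := by
      intro i j
      rw [← A.adj_xy, ← hx, ← hy]
      exact hadj i j
    refine P.c4 (x i0) (x i1) (y i0) (y i1) ?_ ?_ (hI i0 i0) (hI i0 i1) (hI i1 i0) (hI i1 i1)
    · intro he
      have : b i0 = b i1 := by rw [hx, hx, he]
      exact h01 (hb this)
    · intro he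
      have : b' i0 = b' i1 := by rw [hy, hy, he]
      exact h01 (hb' this)
  rcases c1 i0 with h0 | ⟨y0, h0⟩
  · exact main a a' ha ha' h c1 c2 h0
  · rcases c2 i0 with h0' | ⟨y1, h0'⟩
    · exact main a' a ha' ha (fun i j => (h j i).symm) c2 c1 h0'
    · have := h i0 i0
      rw [h0, h0'] at this
      exact A.proj_ne this rfl

end step

section construction

open Pool.Agent.PUG Pool.Agent.PUG.Tri

variable {f : ℕ}

/-- invariants of the construction -/
structure GADInv (τ : ℕ) {R : ℕ} {V : Type} (π : V → Fin R) (G : SimpleGraph V) : Prop where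
  ne : ∀ u v, G.Adj u v → π u ≠ π v
  c4 : ∀ s t : Fin R, s ≠ t → C4Free (fun (x : {v : V // π v = s}) (y : {v : V // π v = t}) =>
    G.Adj x.1 y.1)
  kk : KSFree τ τ G

private theorem GAD_inv0 {τ : ℕ} (hτ : 3 ≤ τ) (F : SimpleGraph (Fin f)) (hF : KSFree τ τ F)
    (R : ℕ) : GADInv τ (pi0 (f := f)) (G0 F R) where
  ne := by
    rintro ⟨α, u⟩ ⟨β, v⟩ ⟨h, h'⟩ he
    change α = β at h
    subst h
    change F.Adj u v at h'
    exact h'.ne (α.injective he)
  c4 := by
    rintro s t - ⟨⟨α, x₁⟩, hx1⟩ ⟨⟨β, x₂⟩, hx2⟩ ⟨⟨γ, y₁⟩, hy1⟩ ⟨⟨δ, y₂⟩, hy2⟩ hx hy h11 h12 h21 h22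
    have e1 : α = γ := h11.1
    have e2 : β = γ := h21.1
    subst e1
    subst e2
    apply hx
    have : β x₁ = β x₂ := by
      have a : β x₁ = s := hx1
      have b : β x₂ = s := hx2
      rw [a, b]
    have := β.injective this
    subst this
    rfl
  kk := by
    intro a a' ha ha' h
    let i0 : Fin τ := ⟨0, by omega⟩
    have e : ∀ j, (a' j).1 = (a i0).1 := fun j => ((h i0 j).1).symm
    have e' : ∀ i, (a i).1 = (a i0).1 := fun i => ((h i i0).1).trans (e i0)
    refine hF (fun i => (a i).2) (fun i => (a' i).2) ?_ ?_ (fun i j => (h i j).2)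
    · intro i j hij
      exact ha (Prod.ext ((e' i).trans (e' j).symm) hij)
    · intro i j hij
      exact ha' (Prod.ext ((e i).trans (e j).symm) hij)

private theorem GAD_construction {τ : ℕ} (hτ : 3 ≤ τ) (r : ℕ) (hr : 0 < r)
    (F : SimpleGraph (Fin f)) (hF : KSFree τ τ F) (R : ℕ) (D : Finset (Fin R × Fin R)) :
    ∃ (V : Type) (_ : Finite V) (π : V → Fin R) (G : SimpleGraph V),
      GADInv τ π G ∧ Ram F r π G D := by
  induction D using Finset.induction_on with
  | empty => exact ⟨V0 f R, inferInstance, pi0, G0 F R, GAD_inv0 hτ F hF R, ram0 F r R⟩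
  | insert ab D _ ih =>
    obtain ⟨V, hfin, π, G, hinv, hram⟩ := ih
    by_cases hab : ab.1 = ab.2
    · refine ⟨V, hfin, π, G, hinv, ?_⟩
      intro c
      obtain ⟨Φ, h0, h1, h2, h3⟩ := hram c
      refine ⟨Φ, h0, h1, h2, ?_⟩
      intro ab' hab'
      rcases Finset.mem_insert.1 hab' with rfl | hab'
      · refine ⟨⟨0, hr⟩, fun u v huv hu hv => ?_⟩
        exfalso
        exact (GAD_inv0 hτ F hF R).ne u v huv (by rw [hu, hv, hab])
      · exact h3 ab' hab'
    · obtain ⟨X', Y', Q, fX, fY, fQ, I', φ, ψ, P⟩ := star_lemma r hr _ (hinv.c4 ab.1 ab.2 hab)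
      let A : Amal V (Fin R) X' Y' Q :=
        { π := π
          G := G
          s := ab.1
          t := ab.2
          hst := hab
          hG := hinv.ne
          I' := I'
          φ := φ
          ψ := ψ
          injφ := P.injφ
          injψ := P.injψ
          ind := P.ind }
      refine ⟨A.Vert, inferInstance, A.proj, A.graph, ?_, ?_⟩
      · exact ⟨fun u v h => A.proj_ne h, c4_amal A hinv.c4 P, GAD_amal A hτ hinv.kk P⟩
      · exact ram_step F A D hram ab rfl rfl P

end construction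

open Pool.Agent.PUG Pool.Agent.PUG.Tri in
/-- Every `K_{τ,τ}`-free graph has a `K_{τ,τ}`-free Ramsey graph (`τ ≥ 3`). -/
theorem kk_ramsey (τ : ℕ) (hτ : 3 ≤ τ) (r : ℕ) (hr : 0 < r) {f : ℕ} (F : SimpleGraph (Fin f))
    (hF : KSFree τ τ F) :
    ∃ (b : ℕ) (B : SimpleGraph (Fin b)), KSFree τ τ B ∧ ∀ χ : Sym2 (Fin b) → Fin r,
      ∃ (i : Fin r) (g : Fin f → Fin b), Function.Injective g ∧
        ∀ u v, F.Adj u v → B.Adj (g u) (g v) ∧ χ s(g u, g v) = i := by
  obtain ⟨R, hR⟩ := ramsey_pairs r f hr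
  obtain ⟨V, hfin, π, G, hinv, hram⟩ := GAD_construction hτ r hr F hF R Finset.univ
  have := Fintype.ofFinite V
  let e : V ≃ Fin (Fintype.card V) := Fintype.equivFin V
  refine ⟨Fintype.card V, G.comap e.symm, ?_, ?_⟩
  · intro a a' ha ha' h
    exact hinv.kk (fun i => e.symm (a i)) (fun i => e.symm (a' i))
      (fun i j hij => ha (e.symm.injective hij)) (fun i j hij => ha' (e.symm.injective hij)) h
  · intro χ
    obtain ⟨Φ, h0, h1, h2, h3⟩ := hram (fun u v => χ s(e u, e v))
    choose g hg using fun ab : Fin R × Fin R => h3 ab (Finset.mem_univ ab)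
    obtain ⟨σ, k, hσ, hk⟩ := hR (fun a b => g (a, b))
    let α : Fin f ↪ Fin R := ⟨σ, hσ.injective⟩
    refine ⟨k, fun u => e (Φ (α, u)), ?_, ?_⟩
    · intro u v h
      have := h0 (e.injective h)
      exact congrArg Prod.snd this
    · intro u v huv
      have key : ∀ u v : Fin f, F.Adj u v → u < v → χ s(e (Φ (α, u)), e (Φ (α, v))) = k := by
        intro u v huv hlt
        have hadj : (G0 F R).Adj (α, u) (α, v) := ⟨rfl, huv⟩
        have := hg (σ u, σ v) (α, u) (α, v) hadj rfl rfl
        rw [this]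
        exact hk u v hlt
      constructor
      · rw [SimpleGraph.comap_adj, e.symm_apply_apply, e.symm_apply_apply]
        exact h2 _ _ ⟨rfl, huv⟩
      · rcases lt_or_gt_of_ne huv.ne with hlt | hlt
        · exact key u v huv hlt
        · rw [Sym2.eq_swap]
          exact key v u huv.symm hlt

/-- The case of a complete graph. -/
theorem kk_ramsey_complete (dd : ℕ) (hd2 : 2 ≤ dd) (r : ℕ) (hr : 0 < r) :
    ∃ (b : ℕ) (B : SimpleGraph (Fin b)), KSFree (dd + 1) (dd + 1) B ∧
      ∀ χ : Sym2 (Fin b) → Fin r, ∃ (i : Fin r) (g : Fin (dd + 2) → Fin b),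
        Function.Injective g ∧ ∀ u w, u ≠ w → B.Adj (g u) (g w) ∧ χ s(g u, g w) = i := by
  have hF : KSFree (dd + 1) (dd + 1) (⊤ : SimpleGraph (Fin (dd + 2))) := by
    intro a a' ha ha' h
    have hinj : Function.Injective (Sum.elim a a') := by
      intro x y hxy
      rcases x with i | i <;> rcases y with j | j
      · exact congrArg Sum.inl (ha hxy)
      · exact absurd hxy (h i j).ne
      · exact absurd hxy (h j i).ne'
      · exact congrArg Sum.inr (ha' hxy)
    have hc := Fintype.card_le_of_injective _ hinj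
    rw [Fintype.card_sum, Fintype.card_fin, Fintype.card_fin] at hc
    omega
  obtain ⟨b, B, hB, hram⟩ := kk_ramsey (dd + 1) (by omega) r hr _ hF
  refine ⟨b, B, hB, fun χ => ?_⟩
  obtain ⟨i, g, hg, h⟩ := hram χ
  exact ⟨i, g, hg, fun u w huw => h u w (by rw [SimpleGraph.top_adj]; exact huw)⟩

end Pool.Agent.CUG
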