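import Pool.Agent.CUB.PRF
import Pool.Agent.CUG.Defs

set_option autoImplicit false

/-!
# CUB.GST

Proof. Exponential moment with `λ = 2K/ε₄`: on `A₁ × A₂` (uniform, independent over `i ∈ D`),
`E exp(λ H) ≤ 1 + (exp(λC) - 1) E[H]/C ≤ exp((exp(λC)-1) ε'/C)` (convexity of exp on `[0, C]`), so the
probability is `≤ exp(8 m (exp(λC)-1) ε'/C - λ ε₄ m) ≤ exp(-K m)` if `8 (exp(λC)-1) ε'/C ≤ K`.
(`∑_{t∈piFinset Vc} ∏_{i∈D} f(t(i,pu), t(i,pw))` factorises over the blocks; handle empty `A₁`/`A₂`,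
empty `D`, `m = 0` separately: the event is empty or the bound trivial.)
-/

namespace Pool.Agent.CUG

open Pool.Agent.CUB

variable {kp : ℕ}

open scoped Classical

private theorem upd_sum {ι α : Type} [Fintype ι] [DecidableEq ι] (V : ι → Finset α) (j : ι)
    (Φ : (ι → α) → ℝ) :
    ∑ t ∈ Fintype.piFinset V, ∑ a ∈ V j, Φ (Function.update t j a)
      = ((V j).card : ℝ) * ∑ t ∈ Fintype.piFinset V, Φ t := by
  have h1 : ((V j).card : ℝ) * ∑ t ∈ Fintype.piFinset V, Φ t
      = ∑ t ∈ Fintype.piFinset V, ∑ _a ∈ V j, Φ t := by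
    simp [Finset.mul_sum]
  rw [h1, ← Finset.sum_product', ← Finset.sum_product']
  refine Finset.sum_bij' (fun p _ => (Function.update p.1 j p.2, p.1 j))
    (fun p _ => (Function.update p.1 j p.2, p.1 j)) ?_ ?_ ?_ ?_ ?_
  · rintro ⟨t, a⟩ h
    simp only [Finset.mem_product, Fintype.mem_piFinset] at h ⊢
    refine ⟨fun i => ?_, h.1 j⟩
    by_cases hi : i = j
    · subst hi; simpa using h.2
    · simpa [Function.update_of_ne hi] using h.1 i
  · rintro ⟨t, a⟩ h
    simp only [Finset.mem_product, Fintype.mem_piFinset] at h ⊢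
    refine ⟨fun i => ?_, h.1 j⟩
    by_cases hi : i = j
    · subst hi; simpa using h.2
    · simpa [Function.update_of_ne hi] using h.1 i
  · rintro ⟨t, a⟩ h
    simp
  · rintro ⟨t, a⟩ h
    simp
  · rintro ⟨t, a⟩ h
    simp

private theorem block_prod {N M : ℕ} (pu pw : Fin kp) (hne : pu ≠ pw) (A₁ A₂ : Finset (Fin N))
    (Vc : Fin M × Fin kp → Finset (Fin N)) (g : Fin N → Fin N → ℝ) (hg : ∀ a b, 0 ≤ g a b) (c : ℝ)
    (hc : 0 ≤ c) (hgs : ∑ a ∈ A₁, ∑ b ∈ A₂, g a b ≤ c * ((A₁.card : ℝ) * (A₂.card : ℝ)))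
    (D : Finset (Fin M)) (hD : ∀ i ∈ D, Vc (i, pu) = A₁ ∧ Vc (i, pw) = A₂) :
    ∑ t ∈ Fintype.piFinset Vc, ∏ i ∈ D, g (t (i, pu)) (t (i, pw))
      ≤ c ^ D.card * ((Fintype.piFinset Vc).card : ℝ) := by
  induction D using Finset.induction_on with
  | empty => simp
  | insert i D hi ih =>
    have hi' := hD i (Finset.mem_insert_self i D)
    have ih' := ih fun k hk => hD k (Finset.mem_insert_of_mem hk)
    have hF : ∀ t : Fin M × Fin kp → Fin N, 0 ≤ ∏ k ∈ D, g (t (k, pu)) (t (k, pw)) :=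
      fun t => Finset.prod_nonneg fun k _ => hg _ _
    by_cases hA : (A₁.card : ℝ) * (A₂.card : ℝ) = 0
    · have hemp : Fintype.piFinset Vc = ∅ := by
        rw [← Finset.not_nonempty_iff_eq_empty]
        rintro ⟨t, ht⟩
        rw [Fintype.mem_piFinset] at ht
        have h1 := ht (i, pu)
        have h2 := ht (i, pw)
        rw [hi'.1] at h1
        rw [hi'.2] at h2
        have h3 : 0 < A₁.card := Finset.card_pos.2 ⟨_, h1⟩
        have h4 : 0 < A₂.card := Finset.card_pos.2 ⟨_, h2⟩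
        have : (0 : ℝ) < (A₁.card : ℝ) * (A₂.card : ℝ) := by positivity
        linarith
      rw [hemp]
      simp
    · have hApos : 0 < (A₁.card : ℝ) * (A₂.card : ℝ) :=
        lt_of_le_of_ne (by positivity) (Ne.symm hA)
      have key : ((A₁.card : ℝ) * (A₂.card : ℝ)) *
          ∑ t ∈ Fintype.piFinset Vc, g (t (i, pu)) (t (i, pw)) *
            ∏ k ∈ D, g (t (k, pu)) (t (k, pw))
          = (∑ a ∈ A₁, ∑ b ∈ A₂, g a b) *
            ∑ t ∈ Fintype.piFinset Vc, ∏ k ∈ D, g (t (k, pu)) (t (k, pw)) := by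
        have e1 := upd_sum Vc (i, pw) (fun t => g (t (i, pu)) (t (i, pw)) *
            ∏ k ∈ D, g (t (k, pu)) (t (k, pw)))
        have e2 := upd_sum Vc (i, pu) (fun t => ∑ b ∈ Vc (i, pw), g (t (i, pu)) b *
            ∏ k ∈ D, g (t (k, pu)) (t (k, pw)))
        have hpr : ∀ (t : Fin M × Fin kp → Fin N) (p : Fin kp) (a : Fin N),
            ∏ k ∈ D, g (Function.update t (i, p) a (k, pu)) (Function.update t (i, p) a (k, pw))
              = ∏ k ∈ D, g (t (k, pu)) (t (k, pw)) := by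
          intro t p a
          refine Finset.prod_congr rfl fun k hk => ?_
          have hki : k ≠ i := fun h => hi (h ▸ hk)
          rw [Function.update_of_ne (by simp [hki]), Function.update_of_ne (by simp [hki])]
        have hne1 : ((i, pu) : Fin M × Fin kp) ≠ (i, pw) := by simp [hne]
        simp only [hpr, Function.update_self, Function.update_of_ne hne1] at e1 e2
        rw [hi'.1] at e2
        rw [hi'.2] at e1 e2
        have e3 : ∑ t ∈ Fintype.piFinset Vc, ∑ a ∈ A₁, ∑ b ∈ A₂,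
            g a b * ∏ k ∈ D, g (t (k, pu)) (t (k, pw))
            = (∑ a ∈ A₁, ∑ b ∈ A₂, g a b) *
            ∑ t ∈ Fintype.piFinset Vc, ∏ k ∈ D, g (t (k, pu)) (t (k, pw)) := by
          rw [Finset.mul_sum]
          refine Finset.sum_congr rfl fun t _ => ?_
          rw [Finset.sum_mul]
          refine Finset.sum_congr rfl fun a _ => ?_
          rw [Finset.sum_mul]
        rw [← e3, e2, e1]
        ring
      simp only [Finset.prod_insert hi]
      have h5 : ((A₁.card : ℝ) * (A₂.card : ℝ)) *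
          ∑ t ∈ Fintype.piFinset Vc, g (t (i, pu)) (t (i, pw)) *
            ∏ k ∈ D, g (t (k, pu)) (t (k, pw))
          ≤ ((A₁.card : ℝ) * (A₂.card : ℝ)) * (c ^ (insert i D).card *
            ((Fintype.piFinset Vc).card : ℝ)) := by
        rw [key, Finset.card_insert_of_notMem hi, pow_succ]
        have h6 : 0 ≤ ∑ t ∈ Fintype.piFinset Vc, ∏ k ∈ D, g (t (k, pu)) (t (k, pw)) :=
          Finset.sum_nonneg fun t _ => hF t
        calc (∑ a ∈ A₁, ∑ b ∈ A₂, g a b) *
              ∑ t ∈ Fintype.piFinset Vc, ∏ k ∈ D, g (t (k, pu)) (t (k, pw))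
            ≤ (c * ((A₁.card : ℝ) * (A₂.card : ℝ))) *
              ∑ t ∈ Fintype.piFinset Vc, ∏ k ∈ D, g (t (k, pu)) (t (k, pw)) :=
              mul_le_mul_of_nonneg_right hgs h6
          _ ≤ (c * ((A₁.card : ℝ) * (A₂.card : ℝ))) *
              (c ^ D.card * ((Fintype.piFinset Vc).card : ℝ)) :=
              mul_le_mul_of_nonneg_left ih' (by positivity)
          _ = _ := by ring
      exact le_of_mul_le_mul_left h5 hApos

/-- Upper tail for a sum of a bounded function with small mean over the blocks of a class. -/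
theorem gst : ∀ C ε₄ K : ℝ, 0 < C → 0 < ε₄ → 0 < K → ∃ ε' : ℝ, 0 < ε' ∧
    ∀ (N M : ℕ) (D : Finset (Fin M)) (pu pw : Fin kp) (A₁ A₂ : Finset (Fin N))
      (Vc : Fin M × Fin kp → Finset (Fin N)) (m : ℝ) (H : Fin N → Fin N → ℝ),
      pu ≠ pw → 0 ≤ m → (∀ a b, 0 ≤ H a b) → (∀ a b, H a b ≤ C) → (D.card : ℝ) ≤ 8 * m →
      (∀ i ∈ D, Vc (i, pu) = A₁ ∧ Vc (i, pw) = A₂) →
      ∑ a ∈ A₁, ∑ b ∈ A₂, H a b ≤ ε' * ((A₁.card : ℝ) * (A₂.card : ℝ)) →
      (((Fintype.piFinset Vc).filter fun t =>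
          ε₄ * m ≤ ∑ i ∈ D, H (t (i, pu)) (t (i, pw))).card : ℝ)
        ≤ Real.exp (-(K * m)) * ((Fintype.piFinset Vc).card : ℝ) := by
  intro C ε₄ K hC hε hK
  set lam : ℝ := 2 * K / ε₄ with hlam
  have hlp : 0 < lam := by positivity
  set B : ℝ := (Real.exp (lam * C) - 1) / C with hB
  have hBp : 0 < B := by
    have : 1 < Real.exp (lam * C) := by
      rw [Real.one_lt_exp_iff]; positivity
    rw [hB]
    exact div_pos (by linarith) hC
  refine ⟨K / (8 * B), by positivity, ?_⟩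
  intro N M D pu pw A₁ A₂ Vc m H hne hm hH0 hHC hDc hD hsum
  set ε' : ℝ := K / (8 * B) with hε'
  have hε'p : 0 < ε' := by rw [hε']; positivity
  -- convexity
  have hexp : ∀ a b, Real.exp (lam * H a b) ≤ 1 + B * H a b := by
    intro a b
    have h0 := hH0 a b
    have h1 := hHC a b
    have hconv := convexOn_exp.2 (Set.mem_univ (0 : ℝ)) (Set.mem_univ (lam * C))
      (show (0 : ℝ) ≤ 1 - H a b / C by
        have : H a b / C ≤ 1 := by rw [div_le_one hC]; exact h1
        linarith) (show (0 : ℝ) ≤ H a b / C by positivity) (by ring)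
    simp only [smul_eq_mul, mul_zero, Real.exp_zero, zero_add, mul_one] at hconv
    have e1 : H a b / C * (lam * C) = lam * H a b := by field_simp
    rw [e1] at hconv
    calc Real.exp (lam * H a b) ≤ 1 - H a b / C + H a b / C * Real.exp (lam * C) := hconv
      _ = 1 + B * H a b := by rw [hB]; field_simp; ring
  have hgs : ∑ a ∈ A₁, ∑ b ∈ A₂, Real.exp (lam * H a b)
      ≤ (1 + B * ε') * ((A₁.card : ℝ) * (A₂.card : ℝ)) := by
    calc ∑ a ∈ A₁, ∑ b ∈ A₂, Real.exp (lam * H a b)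
        ≤ ∑ a ∈ A₁, ∑ b ∈ A₂, (1 + B * H a b) :=
          Finset.sum_le_sum fun a _ => Finset.sum_le_sum fun b _ => hexp a b
      _ = (A₁.card : ℝ) * (A₂.card : ℝ) + B * ∑ a ∈ A₁, ∑ b ∈ A₂, H a b := by
          simp only [Finset.sum_add_distrib, Finset.mul_sum]
          simp
      _ ≤ (A₁.card : ℝ) * (A₂.card : ℝ) + B * (ε' * ((A₁.card : ℝ) * (A₂.card : ℝ))) := by
          have := mul_le_mul_of_nonneg_left hsum hBp.le
          linarith
      _ = _ := by ring
  have hmain := block_prod pu pw hne A₁ A₂ Vc (fun a b => Real.exp (lam * H a b))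
    (fun a b => (Real.exp_pos _).le) (1 + B * ε') (by positivity) hgs D hD
  have hmk : (((Fintype.piFinset Vc).filter fun t =>
          ε₄ * m ≤ ∑ i ∈ D, H (t (i, pu)) (t (i, pw))).card : ℝ)
      ≤ Real.exp (-(lam * (ε₄ * m))) * ∑ t ∈ Fintype.piFinset Vc,
          ∏ i ∈ D, Real.exp (lam * H (t (i, pu)) (t (i, pw))) := by
    rw [Finset.mul_sum, Finset.card_eq_sum_ones, Nat.cast_sum, Finset.sum_filter]
    refine Finset.sum_le_sum fun t _ => ?_
    have e1 : ∏ i ∈ D, Real.exp (lam * H (t (i, pu)) (t (i, pw)))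
        = Real.exp (lam * ∑ i ∈ D, H (t (i, pu)) (t (i, pw))) := by
      rw [Finset.mul_sum, Real.exp_sum]
    rw [e1, ← Real.exp_add]
    split_ifs with hcond
    · rw [Nat.cast_one]
      apply Real.one_le_exp
      have := mul_le_mul_of_nonneg_left hcond hlp.le
      linarith
    · exact (Real.exp_pos _).le
  have hpow : (1 + B * ε') ^ D.card ≤ Real.exp (K * m) := by
    calc (1 + B * ε') ^ D.card ≤ (Real.exp (B * ε')) ^ D.card := by
          apply pow_le_pow_left₀ (by positivity)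
          have := Real.add_one_le_exp (B * ε')
          linarith
      _ = Real.exp ((D.card : ℝ) * (B * ε')) := by
          rw [← Real.exp_nat_mul]
      _ ≤ Real.exp (K * m) := by
          apply Real.exp_le_exp.2
          calc (D.card : ℝ) * (B * ε') ≤ 8 * m * (B * ε') :=
                mul_le_mul_of_nonneg_right hDc (by positivity)
            _ = K * m := by rw [hε']; field_simp
  have hcard : (0 : ℝ) ≤ ((Fintype.piFinset Vc).card : ℝ) := Nat.cast_nonneg _
  calc (((Fintype.piFinset Vc).filter fun t =>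
          ε₄ * m ≤ ∑ i ∈ D, H (t (i, pu)) (t (i, pw))).card : ℝ)
      ≤ Real.exp (-(lam * (ε₄ * m))) * ∑ t ∈ Fintype.piFinset Vc,
          ∏ i ∈ D, Real.exp (lam * H (t (i, pu)) (t (i, pw))) := hmk
    _ ≤ Real.exp (-(lam * (ε₄ * m))) * ((1 + B * ε') ^ D.card *
          ((Fintype.piFinset Vc).card : ℝ)) :=
        mul_le_mul_of_nonneg_left hmain (Real.exp_pos _).le
    _ ≤ Real.exp (-(lam * (ε₄ * m))) * (Real.exp (K * m) *
          ((Fintype.piFinset Vc).card : ℝ)) :=
        mul_le_mul_of_nonneg_left (mul_le_mul_of_nonneg_right hpow hcard) (Real.exp_pos _).le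
    _ = Real.exp (-(K * m)) * ((Fintype.piFinset Vc).card : ℝ) := by
        rw [← mul_assoc, ← Real.exp_add]
        congr 2
        rw [hlam]
        field_simp
        ring

end Pool.Agent.CUG
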