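import Pool.Agent.CUG.PEEL
import Pool.Agent.CUG.GST
import Pool.Agent.CUG.CNT

set_option autoImplicit false

/-!
# CUG.GGR

Proof (replaces CUB/GFR.lean, same structure). (1) Light part, by induction on the finset `l ⊆ E` (constants
`ε₄ ↦ ε'`): for all `ε₄, K` there is `ε₃` such that, up to probability `exp(-Km)` in `piFinset Vc`: if
`|L e| ≤ 8m` for `e ∈ l` and `|Bad| ≤ ε₃|X|` then `∑_{x∈Bad, NH l x} ∏_{e∈l} mm e x ≤ ε₄ nrm l`. `l = ∅`: `ε₃ = ε₄`.
`l = insert e l'`, `e = (u,w)`: `ε'` from `gst` with `C = Chv^v`, `K+1` (and `ε₄/2`, say); IH for `l'` with `ε'`,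
`K+1`. Given all cells except those of the blocks in `L e` (`prf`), the function
`H(a,b) = ∑_{x∈Bad, NH l' x, x u = a, x w = b} ∏_{e'∈l'} mm e' x` is fixed (`L e` is disjoint from `L e'`, and the
stars in `NH l'` use only classes of `l'`, by symmetry of `L`); `H ≤ Chv^v nrm l'/(|V u||V w|)` by `peel_bound`
(the peeling property of `E` for `e` passes to `l' ⊆ E`; `(u,w), (w,u) ∉ l'` by `Simp`); `∑ H ≤ ε' nrm l'` by IH;
`NH l x → NH l' x`, so `∑_{x∈Bad, NH l x} ∏_l mm ≤ ∑_{i∈L e} H(t(i,pos u), t(i,pos w))`. Apply `gst` to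
`H (|V u||V w|)/nrm l'`, `nrm l = nrm l' m/(|V u||V w|)`.
(2) Heavy part (`l = E`): `HW` gives `∑_{x : ¬ NH E x} ∏_E mm ≤ v 2^v (1/h) nrm E ≤ (ε₄/2) nrm E` for `h ≥ h₀`.
(3) `|E|` failure probabilities `exp(-(K+1)m)`: `|E| ≤ e^m` for `h ≥ h₀`.
-/

namespace Pool.Agent.CUG

open Pool.Agent.CUB
open scoped Classical

private noncomputable def GGR_S {kp v N M : ℕ} (P : Prm) (t : Fin M × Fin kp → Fin N)
    (pos : Fin v → Fin kp)
    (L : Fin v × Fin v → Finset (Fin M)) (V : Fin v → Finset (Fin N)) (m : ℝ)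
    (l : Finset (Fin v × Fin v)) (A : Finset (Fin v → Fin N)) : ℝ :=
  ∑ x ∈ A.filter (fun x => NH P t pos L V m l x), ∏ e ∈ l, (mm t pos L e x : ℝ)

private noncomputable def GGR_H {kp v N M : ℕ} (P : Prm) (t : Fin M × Fin kp → Fin N)
    (pos : Fin v → Fin kp)
    (L : Fin v × Fin v → Finset (Fin M)) (V : Fin v → Finset (Fin N)) (m : ℝ)
    (l : Finset (Fin v × Fin v)) (A : Finset (Fin v → Fin N)) (u w : Fin v) (a b : Fin N) : ℝ :=
  ∑ x ∈ A.filter (fun x => NH P t pos L V m l x ∧ x u = a ∧ x w = b),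
    ∏ e ∈ l, (mm t pos L e x : ℝ)

private lemma GGR_nrm_pos {v N : ℕ} (V : Fin v → Finset (Fin N)) (m : ℝ)
    (l : Finset (Fin v × Fin v)) (hm : 0 < m) (hV : ∀ i, (V i).Nonempty) : 0 < nrm V m l := by
  have hc : ∀ i, 0 < ((V i).card : ℝ) := fun i => by exact_mod_cast (hV i).card_pos
  unfold nrm
  refine mul_pos ?_ (Finset.prod_pos fun e _ => div_pos hm (mul_pos (hc _) (hc _)))
  rw [Fintype.card_piFinset]
  push_cast
  exact Finset.prod_pos fun i _ => hc i

private lemma GGR_nrm_cons {v N : ℕ} (V : Fin v → Finset (Fin N)) (m : ℝ) (e : Fin v × Fin v)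
    (l : Finset (Fin v × Fin v)) (he : e ∉ l) :
    nrm V m (insert e l) = nrm V m l * (m / (((V e.1).card : ℝ) * ((V e.2).card : ℝ))) := by
  unfold nrm
  rw [Finset.prod_insert he]
  ring

private lemma GGR_mm_congr {kp v N M : ℕ} (t t' : Fin M × Fin kp → Fin N) (pos : Fin v → Fin kp)
    (L : Fin v × Fin v → Finset (Fin M)) (e : Fin v × Fin v) (x : Fin v → Fin N)
    (h : ∀ c : Fin M × Fin kp, c.1 ∈ L e → t c = t' c) : mm t pos L e x = mm t' pos L e x := by
  unfold mm
  congr 1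
  refine Finset.filter_congr fun i hi => ?_
  rw [h (i, pos e.1) hi, h (i, pos e.2) hi]

private lemma GGR_pmul_congr {kp v N M : ℕ} (t t' : Fin M × Fin kp → Fin N)
    (pos : Fin v → Fin kp)
    (L : Fin v × Fin v → Finset (Fin M)) (d d' : Fin v) (a b : Fin N)
    (h : ∀ c : Fin M × Fin kp, c.1 ∈ L (d, d') → t c = t' c) :
    pmul t pos L d d' a b = pmul t' pos L d d' a b := by
  unfold pmul
  congr 1
  refine Finset.filter_congr fun i hi => ?_
  rw [h (i, pos d) hi, h (i, pos d') hi]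

private lemma GGR_nh_congr {kp v N M : ℕ} (P : Prm) (t t' : Fin M × Fin kp → Fin N)
    (pos : Fin v → Fin kp)
    (L : Fin v × Fin v → Finset (Fin M)) (hsym : ∀ d d', L (d, d') = L (d', d))
    (V : Fin v → Finset (Fin N)) (m : ℝ)
    (l : Finset (Fin v × Fin v)) (x : Fin v → Fin N)
    (h : ∀ c : Fin M × Fin kp, ∀ e ∈ l, c.1 ∈ L e → t c = t' c) :
    NH P t pos L V m l x ↔ NH P t' pos L V m l x := by
  unfold NH
  refine forall_congr' fun i => forall_congr' fun Q => forall_congr' fun _ =>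
    forall_congr' fun hQ => not_congr ?_
  unfold Heavy
  have h1 : ∑ y ∈ V i, ∏ u ∈ Q, pmul t pos L u i (x u) y =
      ∑ y ∈ V i, ∏ u ∈ Q, pmul t' pos L u i (x u) y := by
    refine Finset.sum_congr rfl fun y _ => Finset.prod_congr rfl fun u hu => ?_
    refine GGR_pmul_congr t t' pos L u i (x u) y fun c hc => ?_
    rcases hQ u hu with h2 | h2
    · exact h c _ h2 hc
    · rw [hsym] at hc
      exact h c _ h2 hc
  rw [h1]

private lemma GGR_S_congr {kp v N M : ℕ} (P : Prm) (t t' : Fin M × Fin kp → Fin N)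
    (pos : Fin v → Fin kp)
    (L : Fin v × Fin v → Finset (Fin M)) (hsym : ∀ d d', L (d, d') = L (d', d))
    (V : Fin v → Finset (Fin N)) (m : ℝ)
    (l : Finset (Fin v × Fin v)) (A : Finset (Fin v → Fin N))
    (h : ∀ c : Fin M × Fin kp, ∀ e ∈ l, c.1 ∈ L e → t c = t' c) :
    GGR_S P t pos L V m l A = GGR_S P t' pos L V m l A := by
  unfold GGR_S
  have h1 : A.filter (fun x => NH P t pos L V m l x) =
      A.filter (fun x => NH P t' pos L V m l x) :=
    Finset.filter_congr fun x _ => GGR_nh_congr P t t' pos L hsym V m l x h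
  rw [h1]
  refine Finset.sum_congr rfl fun x _ => Finset.prod_congr rfl fun e he => ?_
  rw [GGR_mm_congr t t' pos L e x (fun c hc => h c e he hc)]

private lemma GGR_H_congr {kp v N M : ℕ} (P : Prm) (t t' : Fin M × Fin kp → Fin N)
    (pos : Fin v → Fin kp)
    (L : Fin v × Fin v → Finset (Fin M)) (hsym : ∀ d d', L (d, d') = L (d', d))
    (V : Fin v → Finset (Fin N)) (m : ℝ)
    (l : Finset (Fin v × Fin v)) (A : Finset (Fin v → Fin N)) (u w : Fin v) (a b : Fin N)
    (h : ∀ c : Fin M × Fin kp, ∀ e ∈ l, c.1 ∈ L e → t c = t' c) :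
    GGR_H P t pos L V m l A u w a b = GGR_H P t' pos L V m l A u w a b := by
  unfold GGR_H
  have h1 : A.filter (fun x => NH P t pos L V m l x ∧ x u = a ∧ x w = b) =
      A.filter (fun x => NH P t' pos L V m l x ∧ x u = a ∧ x w = b) :=
    Finset.filter_congr fun x _ => by rw [GGR_nh_congr P t t' pos L hsym V m l x h]
  rw [h1]
  refine Finset.sum_congr rfl fun x _ => Finset.prod_congr rfl fun e he => ?_
  rw [GGR_mm_congr t t' pos L e x (fun c hc => h c e he hc)]

private lemma GGR_H_nonneg {kp v N M : ℕ} (P : Prm) (t : Fin M × Fin kp → Fin N)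
    (pos : Fin v → Fin kp)
    (L : Fin v × Fin v → Finset (Fin M)) (V : Fin v → Finset (Fin N)) (m : ℝ)
    (l : Finset (Fin v × Fin v)) (A : Finset (Fin v → Fin N)) (u w : Fin v) (a b : Fin N) :
    0 ≤ GGR_H P t pos L V m l A u w a b :=
  Finset.sum_nonneg fun _ _ => Finset.prod_nonneg fun _ _ => Nat.cast_nonneg _

private lemma GGR_nh_mono {kp v N M : ℕ} (P : Prm) (t : Fin M × Fin kp → Fin N)
    (pos : Fin v → Fin kp)
    (L : Fin v × Fin v → Finset (Fin M)) (V : Fin v → Finset (Fin N)) (m : ℝ)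
    {l l' : Finset (Fin v × Fin v)} (hl : l ⊆ l') (x : Fin v → Fin N)
    (h : NH P t pos L V m l' x) : NH P t pos L V m l x :=
  fun i Q hQ hQ2 => h i Q hQ fun u hu => (hQ2 u hu).imp (fun h => hl h) (fun h => hl h)

/-- The sum for `insert e l` through the blocks of `L e`. -/
private lemma GGR_S_cons {kp v N M : ℕ} (P : Prm) (t : Fin M × Fin kp → Fin N)
    (pos : Fin v → Fin kp)
    (L : Fin v × Fin v → Finset (Fin M)) (V : Fin v → Finset (Fin N)) (m : ℝ)
    (e : Fin v × Fin v) (l : Finset (Fin v × Fin v)) (he : e ∉ l) (A : Finset (Fin v → Fin N)) :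
    GGR_S P t pos L V m (insert e l) A ≤
      ∑ i ∈ L e, GGR_H P t pos L V m l A e.1 e.2 (t (i, pos e.1)) (t (i, pos e.2)) := by
  unfold GGR_S GGR_H
  have h1 : ∀ x ∈ A.filter (fun x => NH P t pos L V m (insert e l) x),
      ∏ e' ∈ insert e l, (mm t pos L e' x : ℝ) =
        ∑ i ∈ L e, if (x e.1 = t (i, pos e.1) ∧ x e.2 = t (i, pos e.2)) then
          ∏ e' ∈ l, (mm t pos L e' x : ℝ) else 0 := by
    intro x _
    rw [Finset.prod_insert he, ← Finset.sum_filter, Finset.sum_const,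
      nsmul_eq_mul]
    congr 2
    unfold mm
    congr 1
    refine Finset.filter_congr fun i _ => ?_
    constructor
    · rintro ⟨h2, h3⟩
      exact ⟨h2.symm, h3.symm⟩
    · rintro ⟨h2, h3⟩
      exact ⟨h2.symm, h3.symm⟩
  rw [Finset.sum_congr rfl h1, Finset.sum_comm]
  refine Finset.sum_le_sum fun i _ => ?_
  rw [← Finset.sum_filter]
  refine Finset.sum_le_sum_of_subset_of_nonneg ?_
    (fun x _ _ => Finset.prod_nonneg fun _ _ => Nat.cast_nonneg _)
  intro x hx
  obtain ⟨hx1, hx2, hx3⟩ := Finset.mem_filter.1 hx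
  obtain ⟨hx4, hx5⟩ := Finset.mem_filter.1 hx1
  exact Finset.mem_filter.2
    ⟨hx4, GGR_nh_mono P t pos L V m (Finset.subset_insert e l) x hx5, hx2, hx3⟩

private lemma GGR_H_sum {kp v N M : ℕ} (P : Prm) (t : Fin M × Fin kp → Fin N)
    (pos : Fin v → Fin kp)
    (L : Fin v × Fin v → Finset (Fin M)) (V : Fin v → Finset (Fin N)) (m : ℝ)
    (l : Finset (Fin v × Fin v)) (A : Finset (Fin v → Fin N)) (u w : Fin v)
    (A₁ A₂ : Finset (Fin N)) :
    ∑ a ∈ A₁, ∑ b ∈ A₂, GGR_H P t pos L V m l A u w a b ≤ GGR_S P t pos L V m l A := by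
  have h1 : ∀ a b, GGR_H P t pos L V m l A u w a b =
      ∑ x ∈ A.filter (fun x => NH P t pos L V m l x), if (x u = a ∧ x w = b) then
        ∏ e ∈ l, (mm t pos L e x : ℝ) else 0 := by
    intro a b
    unfold GGR_H
    rw [← Finset.sum_filter, Finset.filter_filter]
  have h2 : ∑ a ∈ A₁, ∑ b ∈ A₂, GGR_H P t pos L V m l A u w a b =
      ∑ x ∈ A.filter (fun x => NH P t pos L V m l x), ∑ p ∈ A₁ ×ˢ A₂,
        if (x u = p.1 ∧ x w = p.2) then ∏ e ∈ l, (mm t pos L e x : ℝ) else 0 := by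
    symm
    rw [Finset.sum_comm, Finset.sum_product]
    refine Finset.sum_congr rfl fun a _ => Finset.sum_congr rfl fun b _ => (h1 a b).symm
  rw [h2]
  unfold GGR_S
  refine Finset.sum_le_sum fun x _ => ?_
  have h0 : 0 ≤ ∏ e ∈ l, (mm t pos L e x : ℝ) :=
    Finset.prod_nonneg fun _ _ => Nat.cast_nonneg _
  rw [← Finset.sum_filter, Finset.sum_const, nsmul_eq_mul]
  have h3 : ((A₁ ×ˢ A₂).filter (fun p => x u = p.1 ∧ x w = p.2)).card ≤ 1 := by
    rw [Finset.card_le_one]
    intro p hp p' hp'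
    have h4 := (Finset.mem_filter.1 hp).2
    have h5 := (Finset.mem_filter.1 hp').2
    exact Prod.ext (h4.1.symm.trans h5.1) (h4.2.symm.trans h5.2)
  have h4 : (((A₁ ×ˢ A₂).filter (fun p => x u = p.1 ∧ x w = p.2)).card : ℝ) ≤ 1 := by
    exact_mod_cast h3
  calc _ ≤ 1 * ∏ e ∈ l, (mm t pos L e x : ℝ) := mul_le_mul_of_nonneg_right h4 h0
    _ = _ := one_mul _

private lemma GGR_H_le {kp v N M : ℕ} (P : Prm) (t : Fin M × Fin kp → Fin N)
    (pos : Fin v → Fin kp)
    (L : Fin v × Fin v → Finset (Fin M)) (V : Fin v → Finset (Fin N)) (m : ℝ) (hm : 0 < m)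
    (hV : ∀ i, (V i).Nonempty) (hsym : ∀ d d', L (d, d') = L (d', d))
    (l : Finset (Fin v × Fin v)) (hpos : PosD pos l) (hsimp : Simp l)
    (A : Finset (Fin v → Fin N)) (hA : A ⊆ Fintype.piFinset V) (u w : Fin v) (huw : u ≠ w)
    (h1 : (u, w) ∉ l) (h2 : (w, u) ∉ l)
    (hpeel : ∀ R : Finset (Fin v), R.Nonempty → u ∉ R → w ∉ R → ∃ i ∈ R,
      (Finset.univ.filter fun z : Fin v => (z ∈ R ∨ z = u ∨ z = w) ∧
        ((z, i) ∈ l ∨ (i, z) ∈ l)).card ≤ P.dd)
    (a b : Fin N) :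
    GGR_H P t pos L V m l A u w a b ≤
      Chv P ^ v * nrm V m l / (((V u).card : ℝ) * ((V w).card : ℝ)) := by
  have hc : ∀ i, 0 < ((V i).card : ℝ) := fun i => by exact_mod_cast (hV i).card_pos
  have hChv : (0 : ℝ) ≤ Chv P := le_trans zero_le_one (chv_ge P)
  have hpos0 : 0 ≤ Chv P ^ v * nrm V m l / (((V u).card : ℝ) * ((V w).card : ℝ)) :=
    div_nonneg (mul_nonneg (pow_nonneg hChv _) (GGR_nrm_pos V m l hm hV).le)
      (mul_nonneg (hc _).le (hc _).le)
  by_cases hab : a ∈ V u ∧ b ∈ V w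
  · obtain ⟨ha, hb⟩ := hab
    refine le_trans ?_ (peel_bound P t pos L V m hm hV hsym l hpos hsimp u w huw h1 h2 hpeel
      a b ha hb)
    unfold GGR_H
    rw [Nat.cast_sum]
    have e1 : ∀ x, ((∏ e ∈ l, mm t pos L e x : ℕ) : ℝ) =
        ∏ e ∈ l, (mm t pos L e x : ℝ) := fun x => by rw [Nat.cast_prod]
    rw [Finset.sum_congr rfl fun x _ => e1 x]
    refine Finset.sum_le_sum_of_subset_of_nonneg ?_
      (fun x _ _ => Finset.prod_nonneg fun _ _ => Nat.cast_nonneg _)
    intro x hx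
    obtain ⟨hx1, hx2, hx3, hx4⟩ := Finset.mem_filter.1 hx
    exact Finset.mem_filter.2 ⟨hA hx1, hx3, hx4, hx2⟩
  · have : GGR_H P t pos L V m l A u w a b = 0 := by
      unfold GGR_H
      rw [Finset.filter_eq_empty_iff.2, Finset.sum_empty]
      intro x hx h2
      have h3 := hA hx
      rw [Fintype.mem_piFinset] at h3
      exact hab ⟨h2.2.1 ▸ h3 u, h2.2.2 ▸ h3 w⟩
    rw [this]
    exact hpos0

/-- The peeling property. -/
private def GGR_peel {v : ℕ} (P : Prm) (l : Finset (Fin v × Fin v)) : Prop :=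
  ∀ e ∈ l, ∀ R : Finset (Fin v), R.Nonempty → e.1 ∉ R → e.2 ∉ R → ∃ i ∈ R,
    (Finset.univ.filter fun u : Fin v => (u ∈ R ∨ u = e.1 ∨ u = e.2) ∧
      ((u, i) ∈ l ∨ (i, u) ∈ l)).card ≤ P.dd

private lemma GGR_peel_sub {v : ℕ} (P : Prm) {l l' : Finset (Fin v × Fin v)} (hl : l ⊆ l')
    (e : Fin v × Fin v)
    (h : ∀ R : Finset (Fin v), R.Nonempty → e.1 ∉ R → e.2 ∉ R → ∃ i ∈ R,
      (Finset.univ.filter fun u : Fin v => (u ∈ R ∨ u = e.1 ∨ u = e.2) ∧
        ((u, i) ∈ l' ∨ (i, u) ∈ l')).card ≤ P.dd) :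
    ∀ R : Finset (Fin v), R.Nonempty → e.1 ∉ R → e.2 ∉ R → ∃ i ∈ R,
      (Finset.univ.filter fun u : Fin v => (u ∈ R ∨ u = e.1 ∨ u = e.2) ∧
        ((u, i) ∈ l ∨ (i, u) ∈ l)).card ≤ P.dd := by
  intro R h1 h2 h3
  obtain ⟨i, hi, h4⟩ := h R h1 h2 h3
  refine ⟨i, hi, le_trans (Finset.card_le_card ?_) h4⟩
  intro u hu
  obtain ⟨_, hu1, hu2⟩ := Finset.mem_filter.1 hu
  exact Finset.mem_filter.2 ⟨Finset.mem_univ _, hu1, hu2.imp (fun h => hl h) (fun h => hl h)⟩

private lemma GGR_light {kp v : ℕ} (P : Prm) (pos : Fin v → Fin kp)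
    (l : Finset (Fin v × Fin v)) :
    PosD pos l → Simp l → GGR_peel P l →
    ∀ ε₄ K : ℝ, 0 < ε₄ → 0 < K → ∃ ε₃ : ℝ, 0 < ε₃ ∧
    ∀ (N M : ℕ) (V : Fin v → Finset (Fin N)) (m : ℝ)
      (L : Fin v × Fin v → Finset (Fin M)) (Vc : Fin M × Fin kp → Finset (Fin N))
      (Bad : (Fin M × Fin kp → Fin N) → Finset (Fin v → Fin N)),
      0 < m → (∀ i, (V i).Nonempty) → (∀ d d', L (d, d') = L (d', d)) →
      (∀ e ∈ l, ∀ e' ∈ l, e ≠ e' → Disjoint (L e) (L e')) →
      (∀ e ∈ l, ∀ i ∈ L e, Vc (i, pos e.1) = V e.1 ∧ Vc (i, pos e.2) = V e.2) →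
      (∀ e ∈ l, ((L e).card : ℝ) ≤ 8 * m) →
      (∀ t, Bad t ⊆ Fintype.piFinset V) →
      (∀ t t' : Fin M × Fin kp → Fin N,
        (∀ c : Fin M × Fin kp, (∀ e ∈ l, c.1 ∉ L e) → t c = t' c) → Bad t = Bad t') →
      (((Fintype.piFinset Vc).filter fun t =>
          ((Bad t).card : ℝ) ≤ ε₃ * ((Fintype.piFinset V).card : ℝ) ∧
          ε₄ * nrm V m l < GGR_S P t pos L V m l (Bad t)).card : ℝ)
        ≤ (l.card : ℝ) * Real.exp (-(K * m)) * ((Fintype.piFinset Vc).card : ℝ) := by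
  induction l using Finset.induction_on with
  | empty =>
    intro _ _ _ ε₄ K hε hK
    refine ⟨ε₄, hε, ?_⟩
    intro N M V m L Vc Bad hm hV hsym hdis hVc hL hBV hBad
    have h1 : (Fintype.piFinset Vc).filter (fun t =>
          ((Bad t).card : ℝ) ≤ ε₄ * ((Fintype.piFinset V).card : ℝ) ∧
          ε₄ * nrm V m ∅ < GGR_S P t pos L V m ∅ (Bad t)) = ∅ := by
      rw [Finset.filter_eq_empty_iff]
      rintro t _ ⟨h2, h3⟩
      unfold nrm GGR_S at h3
      have h4 : (((Bad t).filter (fun x => NH P t pos L V m ∅ x)).card : ℝ) ≤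
          ((Bad t).card : ℝ) := by
        exact_mod_cast Finset.card_le_card (Finset.filter_subset _ _)
      simp only [Finset.prod_empty, mul_one, Finset.sum_const, nsmul_eq_mul] at h3
      linarith
    rw [h1, Finset.card_empty]
    simp
  | insert e l hel ih =>
    intro hpos hsimp hpeel ε₄ K hε hK
    have hsub := Finset.subset_insert e l
    have hposl : PosD pos l := fun e' he' => hpos e' (hsub he')
    have hsimpl : Simp l := fun e' he' h => hsimp e' (hsub he') (hsub h)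
    have hpeell : GGR_peel P l := fun e' he' => GGR_peel_sub P hsub e' (hpeel e' (hsub he'))
    have he0 : e ∈ insert e l := Finset.mem_insert_self e l
    have hne0 : e.1 ≠ e.2 := fun h => hpos e he0 (by rw [h])
    have he1 : (e.1, e.2) ∉ l := hel
    have he2 : (e.2, e.1) ∉ l := fun h => hsimp e he0 (hsub h)
    have hpeele := GGR_peel_sub P hsub e (hpeel e he0)
    have hChv : (0 : ℝ) < Chv P := lt_of_lt_of_le zero_lt_one (chv_ge P)
    obtain ⟨ε', hε', hgst⟩ := gst (kp := kp) (Chv P ^ v) ε₄ K (pow_pos hChv _) hε hK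
    obtain ⟨ε₃, hε₃, hIH⟩ := ih hposl hsimpl hpeell ε' K hε' hK
    refine ⟨ε₃, hε₃, ?_⟩
    intro N M V m L Vc Bad hm hV hsym hdis hVc hL hBV hBad
    have hc : ∀ i, 0 < ((V i).card : ℝ) := fun i => by exact_mod_cast (hV i).card_pos
    have hnl := GGR_nrm_pos V m l hm hV
    have hIH' := hIH N M V m L Vc Bad hm hV hsym
      (fun e1 h1 e2 h2 hne => hdis e1 (hsub h1) e2 (hsub h2) hne)
      (fun e1 h1 => hVc e1 (hsub h1))
      (fun e1 h1 => hL e1 (hsub h1)) hBV
      (fun t t' h => hBad t t' (fun c hc' => h c (fun e1 h1 => hc' e1 (hsub h1))))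
    set C : Finset (Fin M × Fin kp) :=
      Finset.univ.filter (fun c => c.1 ∈ L e ∧ (c.2 = pos e.1 ∨ c.2 = pos e.2)) with hC
    obtain ⟨PP, hP⟩ : ∃ PP : (Fin M × Fin kp → Fin N) → Prop, ∀ t, PP t ↔
        (GGR_S P t pos L V m l (Bad t) ≤ ε' * nrm V m l ∧
          ε₄ * nrm V m (insert e l) < GGR_S P t pos L V m (insert e l) (Bad t)) :=
      ⟨_, fun t => Iff.rfl⟩
    have hstep : (((Fintype.piFinset Vc).filter PP).card : ℝ) ≤
        Real.exp (-(K * m)) * ((Fintype.piFinset Vc).card : ℝ) := by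
      refine prf Vc C PP _ (Real.exp_pos _).le ?_
      intro t0 ht0
      have hmem : ∀ t ∈ fib Vc C t0, ∀ c, c ∉ C → t c = t0 c := by
        intro t ht c hcC
        unfold fib at ht
        rw [Fintype.mem_piFinset] at ht
        have := ht c
        rw [if_neg hcC, Finset.mem_singleton] at this
        exact this
      have hagree : ∀ t ∈ fib Vc C t0, ∀ c : Fin M × Fin kp, c.1 ∉ L e → t c = t0 c := by
        intro t ht c hcL
        refine hmem t ht c ?_
        intro h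
        exact hcL (Finset.mem_filter.1 h).2.1
      have hagl : ∀ t ∈ fib Vc C t0, ∀ c : Fin M × Fin kp, ∀ e' ∈ l, c.1 ∈ L e' →
          t c = t0 c := by
        intro t ht c e' he' hcL
        refine hagree t ht c ?_
        have hne : e' ≠ e := fun h => hel (h ▸ he')
        exact Finset.disjoint_left.1 (hdis e' (hsub he') e he0 hne) hcL
      have hBt : ∀ t ∈ fib Vc C t0, Bad t = Bad t0 := by
        intro t ht
        refine hBad t t0 fun c hc' => hagree t ht c (hc' e he0)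
      by_cases hgood : GGR_S P t0 pos L V m l (Bad t0) ≤ ε' * nrm V m l
      · set cf : ℝ := ((V e.1).card : ℝ) * ((V e.2).card : ℝ) / nrm V m l with hcf
        have hcf0 : 0 < cf := div_pos (mul_pos (hc _) (hc _)) hnl
        set H' : Fin N → Fin N → ℝ := fun a b =>
          GGR_H P t0 pos L V m l (Bad t0) e.1 e.2 a b * cf with hH'
        have hg := hgst N M (L e) (pos e.1) (pos e.2) (V e.1) (V e.2)
          (fun c => if c ∈ C then Vc c else {t0 c}) m H' (hpos e he0) hm.le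
          (fun a b => mul_nonneg (GGR_H_nonneg P t0 pos L V m l (Bad t0) e.1 e.2 a b) hcf0.le)
          (by
            intro a b
            have h1 := GGR_H_le P t0 pos L V m hm hV hsym l hposl hsimpl (Bad t0) (hBV t0)
              e.1 e.2 hne0 he1 he2 hpeele a b
            have h2 := mul_le_mul_of_nonneg_right h1 hcf0.le
            refine h2.trans (le_of_eq ?_)
            rw [hcf]
            have := (hc e.1).ne'
            have := (hc e.2).ne'
            have := hnl.ne'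
            field_simp)
          (hL e he0)
          (by
            intro i hi
            have h1 : (i, pos e.1) ∈ C := by simp [hC, hi]
            have h2 : (i, pos e.2) ∈ C := by simp [hC, hi]
            rw [if_pos h1, if_pos h2]
            exact hVc e he0 i hi)
          (by
            have h1 := GGR_H_sum P t0 pos L V m l (Bad t0) e.1 e.2 (V e.1) (V e.2)
            have h2 : ∑ a ∈ V e.1, ∑ b ∈ V e.2, H' a b =
                (∑ a ∈ V e.1, ∑ b ∈ V e.2,
                  GGR_H P t0 pos L V m l (Bad t0) e.1 e.2 a b) * cf := by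
              simp only [hH', Finset.sum_mul]
            rw [h2]
            calc _ ≤ (ε' * nrm V m l) * cf :=
                  mul_le_mul_of_nonneg_right (h1.trans hgood) hcf0.le
              _ = ε' * (((V e.1).card : ℝ) * ((V e.2).card : ℝ)) := by
                  rw [hcf]
                  have := hnl.ne'
                  field_simp)
        refine le_trans (Nat.cast_le.2 (Finset.card_le_card ?_)) hg
        intro t ht
        obtain ⟨ht1, ht23⟩ := Finset.mem_filter.1 ht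
        obtain ⟨ht2, ht3⟩ := (hP t).1 ht23
        refine Finset.mem_filter.2 ⟨?_, ?_⟩
        · unfold fib at ht1
          rw [Fintype.mem_piFinset] at ht1 ⊢
          intro c
          by_cases hcC : c ∈ C
          · have := ht1 c
            rw [if_pos hcC] at this
            rw [if_pos hcC]
            exact this
          · have := ht1 c
            rw [if_neg hcC] at this
            rw [if_neg hcC]
            exact this
        · have h1 := GGR_S_cons P t pos L V m e l hel (Bad t)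
          rw [hBt t ht1] at h1 ht3
          have h2 : ∑ i ∈ L e, GGR_H P t pos L V m l (Bad t0) e.1 e.2 (t (i, pos e.1))
              (t (i, pos e.2)) = ∑ i ∈ L e, GGR_H P t0 pos L V m l (Bad t0) e.1 e.2
                (t (i, pos e.1)) (t (i, pos e.2)) := by
            refine Finset.sum_congr rfl fun i _ => ?_
            exact GGR_H_congr P t t0 pos L hsym V m l (Bad t0) e.1 e.2 _ _ (hagl t ht1)
          rw [h2] at h1
          have h3 : ∑ i ∈ L e, H' (t (i, pos e.1)) (t (i, pos e.2)) =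
              (∑ i ∈ L e, GGR_H P t0 pos L V m l (Bad t0) e.1 e.2 (t (i, pos e.1))
              (t (i, pos e.2))) * cf := by
            simp only [hH', Finset.sum_mul]
          rw [h3]
          have h4 : ε₄ * m = (ε₄ * nrm V m (insert e l)) * cf := by
            rw [GGR_nrm_cons V m e l hel, hcf]
            have := (hc e.1).ne'
            have := (hc e.2).ne'
            have := hnl.ne'
            field_simp
          rw [h4]
          exact mul_le_mul_of_nonneg_right (ht3.le.trans h1) hcf0.le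
      · have hemp : (fib Vc C t0).filter PP = ∅ := by
          rw [Finset.filter_eq_empty_iff]
          intro t ht hPt
          have h1 := ((hP t).1 hPt).1
          rw [hBt t ht, GGR_S_congr P t t0 pos L hsym V m l (Bad t0) (hagl t ht)] at h1
          exact hgood h1
        rw [hemp, Finset.card_empty, Nat.cast_zero]
        exact mul_nonneg (Real.exp_pos _).le (Nat.cast_nonneg _)
    have hcover : ((Fintype.piFinset Vc).filter fun t =>
          ((Bad t).card : ℝ) ≤ ε₃ * ((Fintype.piFinset V).card : ℝ) ∧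
          ε₄ * nrm V m (insert e l) < GGR_S P t pos L V m (insert e l) (Bad t)) ⊆
        ((Fintype.piFinset Vc).filter fun t =>
          ((Bad t).card : ℝ) ≤ ε₃ * ((Fintype.piFinset V).card : ℝ) ∧
          ε' * nrm V m l < GGR_S P t pos L V m l (Bad t)) ∪
        ((Fintype.piFinset Vc).filter PP) := by
      intro t ht
      obtain ⟨ht1, ht2, ht3⟩ := Finset.mem_filter.1 ht
      rcases lt_or_ge (ε' * nrm V m l) (GGR_S P t pos L V m l (Bad t)) with h1 | h1
      · exact Finset.mem_union_left _ (Finset.mem_filter.2 ⟨ht1, ht2, h1⟩)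
      · exact Finset.mem_union_right _ (Finset.mem_filter.2 ⟨ht1, (hP t).2 ⟨h1, ht3⟩⟩)
    have h5 := (Nat.cast_le (α := ℝ)).2
      ((Finset.card_le_card hcover).trans (Finset.card_union_le _ _))
    rw [Nat.cast_add] at h5
    refine h5.trans ((add_le_add hIH' hstep).trans (le_of_eq ?_))
    rw [Finset.card_insert_of_notMem hel]
    push_cast
    ring

private lemma GGR_heavy {kp v N M : ℕ} (P : Prm) (t : Fin M × Fin kp → Fin N)
    (pos : Fin v → Fin kp)
    (L : Fin v × Fin v → Finset (Fin M)) (V : Fin v → Finset (Fin N)) (m : ℝ) (h : ℕ)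
    (hm : 0 < m) (hV : ∀ i, (V i).Nonempty) (E : Finset (Fin v × Fin v))
    (hHW : HW P h t pos L V m E) :
    ∑ x ∈ (Fintype.piFinset V).filter (fun x => ¬ NH P t pos L V m E x),
        ∏ e ∈ E, (mm t pos L e x : ℝ) ≤
      ((v : ℝ) * 2 ^ v) * (1 / (h : ℝ) * nrm V m E) := by
  have hn0 := GGR_nrm_pos V m E hm hV
  set f : (Fin v → Fin N) → ℝ := fun x => ∏ e ∈ E, (mm t pos L e x : ℝ) with hf
  have hf0 : ∀ x, 0 ≤ f x := fun x => Finset.prod_nonneg fun _ _ => Nat.cast_nonneg _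
  set Z : Finset (Fin v × Finset (Fin v)) := Finset.univ.filter fun z =>
    z.2.card ≤ P.dd ∧ ∀ u ∈ z.2, (u, z.1) ∈ E ∨ (z.1, u) ∈ E with hZ
  have h1 : ∀ x ∈ (Fintype.piFinset V).filter (fun x => ¬ NH P t pos L V m E x), f x ≤
      ∑ z ∈ Z, if Heavy P t pos L V m z.1 z.2 x then f x else 0 := by
    intro x hx
    have hx2 := (Finset.mem_filter.1 hx).2
    unfold NH at hx2
    push Not at hx2
    obtain ⟨i, Q, hQ1, hQ2, hQ3⟩ := hx2
    have hz : ((i, Q) : Fin v × Finset (Fin v)) ∈ Z :=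
      Finset.mem_filter.2 ⟨Finset.mem_univ _, hQ1, hQ2⟩
    have h2 : (if Heavy P t pos L V m (i, Q).1 (i, Q).2 x then f x else 0) ≤
        ∑ z ∈ Z, if Heavy P t pos L V m z.1 z.2 x then f x else 0 :=
      Finset.single_le_sum
        (f := fun z : Fin v × Finset (Fin v) => if Heavy P t pos L V m z.1 z.2 x then f x else 0)
        (fun z _ => by
          split_ifs
          · exact hf0 x
          · exact le_rfl) hz
    rwa [if_pos hQ3] at h2
  have h2 : ∑ x ∈ (Fintype.piFinset V).filter (fun x => ¬ NH P t pos L V m E x), f x ≤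
      ∑ x ∈ Fintype.piFinset V, ∑ z ∈ Z, if Heavy P t pos L V m z.1 z.2 x then f x else 0 := by
    refine (Finset.sum_le_sum h1).trans ?_
    refine Finset.sum_le_sum_of_subset_of_nonneg (Finset.filter_subset _ _) fun x _ _ => ?_
    refine Finset.sum_nonneg fun z _ => ?_
    split_ifs
    · exact hf0 x
    · exact le_rfl
  refine h2.trans ?_
  rw [Finset.sum_comm]
  have h3 : ∀ z ∈ Z, ∑ x ∈ Fintype.piFinset V,
      (if Heavy P t pos L V m z.1 z.2 x then f x else 0) ≤ 1 / (h : ℝ) * nrm V m E := by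
    intro z hz
    obtain ⟨_, hz1, hz2⟩ := Finset.mem_filter.1 hz
    have h4 := hHW.2 z.1 z.2 hz1 hz2
    rw [Nat.cast_sum] at h4
    rw [← Finset.sum_filter]
    refine le_trans (le_of_eq ?_) h4
    refine Finset.sum_congr rfl fun x _ => ?_
    rw [Nat.cast_prod]
  refine (Finset.sum_le_sum h3).trans ?_
  rw [Finset.sum_const, nsmul_eq_mul]
  refine mul_le_mul_of_nonneg_right ?_ (mul_nonneg (by positivity) hn0.le)
  have h4 : Z.card ≤ v * 2 ^ v := by
    refine (Finset.card_le_univ Z).trans (le_of_eq ?_)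
    rw [Fintype.card_prod, Fintype.card_finset, Fintype.card_fin]
  exact_mod_cast h4

/-- A small set of assignments (determined by the other cells) carries a small proportion of the
weight of an admissible pattern. -/
theorem ggr {kp : ℕ} (P : Prm) (v : ℕ) (pos : Fin v → Fin kp) (E : Finset (Fin v × Fin v))
    (hE : EOK P pos E) :
    ∀ ε₄ K : ℝ, 0 < ε₄ → 0 < K → ∃ ε₃ : ℝ, 0 < ε₃ ∧
    ∀ κ₁ : ℝ, 0 < κ₁ → ∃ h₀ : ℕ, ∀ h ≥ h₀, ∀ (N M : ℕ) (V : Fin v → Finset (Fin N)) (m : ℝ)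
      (L : Fin v × Fin v → Finset (Fin M)) (Vc : Fin M × Fin kp → Finset (Fin N))
      (Bad : (Fin M × Fin kp → Fin N) → Finset (Fin v → Fin N)),
      KHyp P h pos E κ₁ V m L Vc → (∀ d d', L (d, d') = L (d', d)) →
      (∀ t, Bad t ⊆ Fintype.piFinset V) →
      (∀ t t' : Fin M × Fin kp → Fin N,
        (∀ c : Fin M × Fin kp, (∀ e ∈ E, c.1 ∉ L e) → t c = t' c) → Bad t = Bad t') →
      (((Fintype.piFinset Vc).filter fun t => HW P h t pos L V m E ∧
          ((Bad t).card : ℝ) ≤ ε₃ * ((Fintype.piFinset V).card : ℝ) ∧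
          ε₄ * nrm V m E < ((∑ x ∈ Bad t, ∏ e ∈ E, mm t pos L e x : ℕ) : ℝ)).card : ℝ)
        ≤ Real.exp (-(K * m)) * ((Fintype.piFinset Vc).card : ℝ) := by
  intro ε₄ K hε hK
  obtain ⟨ε₃, hε₃, hlight⟩ := GGR_light P pos E hE.posd hE.simp hE.peel (ε₄ / 2) (K + 1)
    (by linarith) (by linarith)
  refine ⟨ε₃, hε₃, ?_⟩
  intro κ₁ hκ
  refine ⟨max 1 (max ⌈2 * ((v : ℝ) * 2 ^ v) / ε₄⌉₊ ⌈(E.card : ℝ) / κ₁⌉₊), ?_⟩
  intro h hh N M V m L Vc Bad hKH hsym hBV hBad
  have hh1 : 1 ≤ h := (le_max_left _ _).trans hh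
  have hR : (1 : ℝ) ≤ (h : ℝ) := by exact_mod_cast hh1
  have h0 : (0 : ℝ) < (h : ℝ) := by linarith
  have hhA : 2 * ((v : ℝ) * 2 ^ v) ≤ ε₄ * (h : ℝ) := by
    have e1 : (⌈2 * ((v : ℝ) * 2 ^ v) / ε₄⌉₊ : ℝ) ≤ (h : ℝ) := by
      exact_mod_cast (le_max_left _ _).trans ((le_max_right _ _).trans hh)
    have e2 := (Nat.le_ceil (2 * ((v : ℝ) * 2 ^ v) / ε₄)).trans e1
    rw [div_le_iff₀ hε] at e2
    linarith
  have hhB : (E.card : ℝ) ≤ κ₁ * (h : ℝ) := by
    have e1 : (⌈(E.card : ℝ) / κ₁⌉₊ : ℝ) ≤ (h : ℝ) := by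
      exact_mod_cast (le_max_right _ _).trans ((le_max_right _ _).trans hh)
    have e2 := (Nat.le_ceil ((E.card : ℝ) / κ₁)).trans e1
    rw [div_le_iff₀ hκ] at e2
    linarith
  have hNR : (N : ℝ) = (h : ℝ) ^ (8 * P.al) := by rw [hKH.hN]; push_cast; rfl
  have hMR : (M : ℝ) = (h : ℝ) ^ (8 * P.ga) := by rw [hKH.hM]; push_cast; rfl
  have hVge : ∀ i, κ₁ * (h : ℝ) ^ (8 * P.al) ≤ ((V i).card : ℝ) := by
    intro i
    rw [← hNR]
    exact hKH.hV i
  have hc : ∀ i, 0 < ((V i).card : ℝ) := fun i => lt_of_lt_of_le (by positivity) (hVge i)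
  have hV : ∀ i, (V i).Nonempty := fun i => Finset.card_pos.1 (by exact_mod_cast hc i)
  have hmge : κ₁ * (h : ℝ) ^ (8 * P.ga) ≤ m := by
    rw [← hMR]
    exact hKH.hm
  have hm0 : 0 < m := lt_of_lt_of_le (by positivity) hmge
  have hga : 8 * P.ga ≠ 0 := by
    have e1 := P.hga
    have e2 := P.hdd
    have e3 := P.hd
    have e4 : P.be * 1 ≤ P.be * P.dd := Nat.mul_le_mul_left _ e3
    omega
  have hmh : κ₁ * (h : ℝ) ≤ m :=
    (mul_le_mul_of_nonneg_left (le_self_pow₀ hR hga) hκ.le).trans hmge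
  have hcardN : 0 ≤ ((Fintype.piFinset Vc).card : ℝ) := Nat.cast_nonneg _
  by_cases hLe : ∀ e ∈ E, ((L e).card : ℝ) ≤ 8 * m
  · have hlt := hlight N M V m L Vc Bad hm0 hV hsym hKH.hdis hKH.hVc hLe hBV hBad
    have hexp : (E.card : ℝ) * Real.exp (-((K + 1) * m)) ≤ Real.exp (-(K * m)) := by
      have e1 : -((K + 1) * m) = -(K * m) + -m := by ring
      have e2 : (E.card : ℝ) ≤ Real.exp m :=
        (hhB.trans hmh).trans (by linarith [Real.add_one_le_exp m])
      rw [e1, Real.exp_add]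
      have e3 : (E.card : ℝ) * Real.exp (-m) ≤ 1 := by
        rw [Real.exp_neg]
        rw [mul_inv_le_iff₀ (Real.exp_pos m), one_mul]
        exact e2
      calc (E.card : ℝ) * (Real.exp (-(K * m)) * Real.exp (-m))
          = Real.exp (-(K * m)) * ((E.card : ℝ) * Real.exp (-m)) := by ring
        _ ≤ Real.exp (-(K * m)) * 1 := mul_le_mul_of_nonneg_left e3 (Real.exp_pos _).le
        _ = _ := mul_one _
    refine le_trans ?_ (hlt.trans (mul_le_mul_of_nonneg_right hexp hcardN))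
    refine Nat.cast_le.2 (Finset.card_le_card ?_)
    intro t ht
    obtain ⟨ht1, ht2, ht4, ht5⟩ := Finset.mem_filter.1 ht
    refine Finset.mem_filter.2 ⟨ht1, ht4, ?_⟩
    have hheavy := GGR_heavy P t pos L V m h hm0 hV E ht2
    have hn0 := GGR_nrm_pos V m E hm0 hV
    have hsplit : ((∑ x ∈ Bad t, ∏ e ∈ E, mm t pos L e x : ℕ) : ℝ) ≤
        GGR_S P t pos L V m E (Bad t) +
        ∑ x ∈ (Fintype.piFinset V).filter (fun x => ¬ NH P t pos L V m E x),
          ∏ e ∈ E, (mm t pos L e x : ℝ) := by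
      rw [Nat.cast_sum]
      have e1 : ∀ x, ((∏ e ∈ E, mm t pos L e x : ℕ) : ℝ) =
          ∏ e ∈ E, (mm t pos L e x : ℝ) := fun x => by rw [Nat.cast_prod]
      rw [Finset.sum_congr rfl fun x _ => e1 x]
      unfold GGR_S
      rw [← Finset.sum_filter_add_sum_filter_not (Bad t) (fun x => NH P t pos L V m E x)]
      refine add_le_add le_rfl ?_
      refine Finset.sum_le_sum_of_subset_of_nonneg ?_
        (fun x _ _ => Finset.prod_nonneg fun _ _ => Nat.cast_nonneg _)
      exact Finset.filter_subset_filter _ (hBV t)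
    have hsmall : ((v : ℝ) * 2 ^ v) * (1 / (h : ℝ) * nrm V m E) ≤ ε₄ / 2 * nrm V m E := by
      rw [← mul_assoc]
      refine mul_le_mul_of_nonneg_right ?_ hn0.le
      rw [mul_one_div, div_le_iff₀ h0]
      linarith
    linarith
  · have hemp : ((Fintype.piFinset Vc).filter fun t => HW P h t pos L V m E ∧
          ((Bad t).card : ℝ) ≤ ε₃ * ((Fintype.piFinset V).card : ℝ) ∧
          ε₄ * nrm V m E < ((∑ x ∈ Bad t, ∏ e ∈ E, mm t pos L e x : ℕ) : ℝ)) = ∅ := by
      rw [Finset.filter_eq_empty_iff]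
      rintro t _ ⟨h2, _⟩
      exact hLe fun e he => h2.1 e he
    rw [hemp, Finset.card_empty, Nat.cast_zero]
    exact mul_nonneg (Real.exp_pos _).le hcardN

end Pool.Agent.CUG
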