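import Pool.Agent.CUG.Defs

set_option autoImplicit false

/-!
# CUG.HCL

Proof. Union over the functions `j : q → Fin M` (`t (j a, c) ∈ X a c` for all `a, c`). `j` must be injective
(a block cannot lie in two of the boxes, `hdis`), so the cells `(j a, c)` are different and the number of
configurations for a fixed `j` is `∏_{a,c} |X a c| · N^(M kp - |q| kp)`, i.e. the proportion
`∏_{a,c} |X a c|/N`. There are at most `M^|q|` functions. (`q` empty: trivial. `N = 0`: if `kp ≥ 1`, `M ≥ 1`
there is no configuration; `M = 0` and `q` nonempty: the left side is `0`; `kp = 0`: `q` has at most one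
element. The right side is always `≥ 0`.)
-/

namespace Pool.Agent.CUG

open Pool.Agent.CUB
open scoped Classical

/-- The number of configurations with prescribed boxes at the blocks `j a`. -/
theorem hcl_one {kp N M : ℕ} (q : Type) [Fintype q] (X : q → Fin kp → Finset (Fin N))
    (j : q → Fin M) (hj : Function.Injective j) :
    (((Finset.univ : Finset (Fin M × Fin kp → Fin N)).filter fun t =>
        ∀ a : q, ∀ c, t (j a, c) ∈ X a c).card : ℝ)
      ≤ (∏ a : q, ∏ c, (((X a c).card : ℝ) / (N : ℝ))) *
        (Fintype.card (Fin M × Fin kp → Fin N) : ℝ) := by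
  have hnn : (0 : ℝ) ≤ ∏ a : q, ∏ c, (((X a c).card : ℝ) / (N : ℝ)) :=
    Finset.prod_nonneg fun a _ => Finset.prod_nonneg fun c _ => by positivity
  by_cases hN : N = 0
  · -- degenerate case
    subst hN
    by_cases hE : Nonempty (Fin M × Fin kp)
    · obtain ⟨p⟩ := hE
      have h0 : ((Finset.univ : Finset (Fin M × Fin kp → Fin 0)).filter fun t =>
          ∀ a : q, ∀ c, t (j a, c) ∈ X a c) = ∅ := by
        rw [Finset.filter_eq_empty_iff]
        intro t _
        exact (t p).elim0
      have h1 : (((∅ : Finset (Fin M × Fin kp → Fin 0)).card : ℕ) : ℝ) ≤ 0 :=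
        le_of_eq (by rw [Finset.card_empty, Nat.cast_zero])
      rw [h0]
      exact h1.trans (mul_nonneg hnn (Nat.cast_nonneg _))
    · have hprod : ∏ a : q, ∏ c, (((X a c).card : ℝ) / ((0 : ℕ) : ℝ)) = 1 := by
        refine Finset.prod_eq_one fun a _ => Finset.prod_eq_one fun c _ => ?_
        exact absurd ⟨(j a, c)⟩ hE
      rw [hprod, one_mul]
      exact Nat.cast_le.2 (Finset.card_le_univ _)
  · have hN' : (N : ℝ) ≠ 0 := by exact_mod_cast hN
    set Xt : Fin M × Fin kp → Finset (Fin N) := fun p =>
      if h : ∃ a, j a = p.1 then X (Classical.choose h) p.2 else Finset.univ with hXt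
    have hXj : ∀ a c, Xt (j a, c) = X a c := by
      intro a c
      have hex : ∃ a', j a' = (j a, c).1 := ⟨a, rfl⟩
      have h1 : Xt (j a, c) = X (Classical.choose hex) c := by
        rw [hXt]
        simp only
        rw [dif_pos hex]
      rw [h1, hj (Classical.choose_spec hex)]
    have hXn : ∀ i c, (¬ ∃ a, j a = i) → Xt (i, c) = Finset.univ := by
      intro i c h
      rw [hXt]
      simp only
      rw [dif_neg h]
    have hset : ((Finset.univ : Finset (Fin M × Fin kp → Fin N)).filter fun t =>
        ∀ a : q, ∀ c, t (j a, c) ∈ X a c) = Fintype.piFinset Xt := by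
      ext t
      rw [Finset.mem_filter, Fintype.mem_piFinset]
      constructor
      · rintro ⟨_, h⟩ ⟨i, c⟩
        by_cases hi : ∃ a, j a = i
        · obtain ⟨a, rfl⟩ := hi
          rw [hXj]
          exact h a c
        · rw [hXn i c hi]
          exact Finset.mem_univ _
      · intro h
        refine ⟨Finset.mem_univ _, fun a c => ?_⟩
        rw [← hXj a c]
        exact h (j a, c)
    have hcard : ((Fintype.piFinset Xt).card : ℝ)
        = (∏ p : Fin M × Fin kp, (((Xt p).card : ℝ) / (N : ℝ))) *
          (Fintype.card (Fin M × Fin kp → Fin N) : ℝ) := by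
      rw [Fintype.card_piFinset, Fintype.card_pi]
      push_cast
      rw [← Finset.prod_mul_distrib]
      refine Finset.prod_congr rfl fun p _ => ?_
      rw [Fintype.card_fin, div_mul_cancel₀ _ hN']
    have hprod : ∏ p : Fin M × Fin kp, (((Xt p).card : ℝ) / (N : ℝ))
        = ∏ a : q, ∏ c, (((X a c).card : ℝ) / (N : ℝ)) := by
      rw [Fintype.prod_prod_type]
      have h1 : ∏ i : Fin M, ∏ c : Fin kp, (((Xt (i, c)).card : ℝ) / (N : ℝ))
          = ∏ i ∈ Finset.univ.image j, ∏ c : Fin kp, (((Xt (i, c)).card : ℝ) / (N : ℝ)) := by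
        symm
        refine Finset.prod_subset (Finset.subset_univ _) fun i _ hi => ?_
        refine Finset.prod_eq_one fun c _ => ?_
        rw [hXn i c (fun h => hi (by
          obtain ⟨a, ha⟩ := h
          exact Finset.mem_image.2 ⟨a, Finset.mem_univ _, ha⟩)), Finset.card_univ,
          Fintype.card_fin, div_self hN']
      rw [h1, Finset.prod_image (fun a _ b _ h => hj h)]
      refine Finset.prod_congr rfl fun a _ => Finset.prod_congr rfl fun c _ => ?_
      rw [hXj]
    rw [hset, hcard, hprod]

/-- Union bound: the probability that pairwise disjoint boxes are all hit. -/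
theorem hcl {kp N M : ℕ} (q : Type) [Fintype q] (X : q → Fin kp → Finset (Fin N))
    (hdis : ∀ a b : q, a ≠ b → ∃ c, Disjoint (X a c) (X b c)) :
    (((Finset.univ : Finset (Fin M × Fin kp → Fin N)).filter fun t =>
        ∀ a : q, ∃ i, ∀ c, t (i, c) ∈ X a c).card : ℝ)
      ≤ (∏ a : q, ((M : ℝ) * ∏ c, (((X a c).card : ℝ) / (N : ℝ)))) *
        (Fintype.card (Fin M × Fin kp → Fin N) : ℝ) := by
  have hsub : ((Finset.univ : Finset (Fin M × Fin kp → Fin N)).filter fun t =>
        ∀ a : q, ∃ i, ∀ c, t (i, c) ∈ X a c)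
      ⊆ (Finset.univ : Finset (q → Fin M)).biUnion (fun j =>
        (Finset.univ : Finset (Fin M × Fin kp → Fin N)).filter fun t =>
          ∀ a : q, ∀ c, t (j a, c) ∈ X a c) := by
    intro t ht
    rw [Finset.mem_filter] at ht
    choose j hj using ht.2
    rw [Finset.mem_biUnion]
    exact ⟨j, Finset.mem_univ _, Finset.mem_filter.2 ⟨Finset.mem_univ _, hj⟩⟩
  have hterm : ∀ j ∈ (Finset.univ : Finset (q → Fin M)),
      (((Finset.univ : Finset (Fin M × Fin kp → Fin N)).filter fun t =>
          ∀ a : q, ∀ c, t (j a, c) ∈ X a c).card : ℝ)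
        ≤ (∏ a : q, ∏ c, (((X a c).card : ℝ) / (N : ℝ))) *
          (Fintype.card (Fin M × Fin kp → Fin N) : ℝ) := by
    intro j _
    by_cases hj : Function.Injective j
    · exact hcl_one q X j hj
    · have h0 : ((Finset.univ : Finset (Fin M × Fin kp → Fin N)).filter fun t =>
          ∀ a : q, ∀ c, t (j a, c) ∈ X a c) = ∅ := by
        rw [Finset.filter_eq_empty_iff]
        intro t _ h
        apply hj
        intro a b hab
        by_contra hne
        obtain ⟨c, hc⟩ := hdis a b hne
        refine (Finset.disjoint_left.mp hc (h a c)) ?_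
        rw [hab]
        exact h b c
      rw [h0, Finset.card_empty, Nat.cast_zero]
      exact mul_nonneg (Finset.prod_nonneg fun a _ => Finset.prod_nonneg fun c _ => by positivity)
        (Nat.cast_nonneg _)
  calc (((Finset.univ : Finset (Fin M × Fin kp → Fin N)).filter fun t =>
        ∀ a : q, ∃ i, ∀ c, t (i, c) ∈ X a c).card : ℝ)
      ≤ (((Finset.univ : Finset (q → Fin M)).biUnion (fun j =>
        (Finset.univ : Finset (Fin M × Fin kp → Fin N)).filter fun t =>
          ∀ a : q, ∀ c, t (j a, c) ∈ X a c)).card : ℝ) :=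
        Nat.cast_le.2 (Finset.card_le_card hsub)
    _ ≤ ∑ j : q → Fin M, (((Finset.univ : Finset (Fin M × Fin kp → Fin N)).filter fun t =>
          ∀ a : q, ∀ c, t (j a, c) ∈ X a c).card : ℝ) := by
        exact_mod_cast Finset.card_biUnion_le
    _ ≤ ∑ _j : q → Fin M, ((∏ a : q, ∏ c, (((X a c).card : ℝ) / (N : ℝ))) *
          (Fintype.card (Fin M × Fin kp → Fin N) : ℝ)) := Finset.sum_le_sum hterm
    _ = (∏ a : q, ((M : ℝ) * ∏ c, (((X a c).card : ℝ) / (N : ℝ)))) *
        (Fintype.card (Fin M × Fin kp → Fin N) : ℝ) := by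
        rw [Finset.sum_const, nsmul_eq_mul, Finset.card_univ, Fintype.card_pi,
          Finset.prod_mul_distrib]
        push_cast
        rw [Fintype.card_fin]
        ring

end Pool.Agent.CUG
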