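import Pool.Agent.CUG.HCT

set_option autoImplicit false

/-!
# CUG.HCP

Proof. (`κ₁ > 1`: `Parts` is impossible.) Let `HC` fail for `V, Vg, nn, i, Q, D`: `h^15 |D| > N`; pass to a
subfamily with exactly `d₀ = h^(8 al - 15) + 1` members (`8 al ≥ 24` by `P.hdd`, `P.hbe`, `P.hd`). By `MUL`,
`pmul ≤ mu` (`pos u ≠ pos i`), so `Heavy` gives `#{y ∈ V i : ∀ u ∈ Q, 0 < pmul} > 8 nomi`,
`nomi = |V i| ∏_{u∈Q} m/(|V u||V i|) ≥ κ' h^16` with `κ' = κ₁^(1 + kp dd)` (`8 al - 8 be |Q| ≥ 16`, `P.hdd`; `|V| ≤ N`,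
`msz ≥ κ₁^kp M`, WLOG `κ₁ ≤ 1`). So the event of `hct` holds with `s = ⌈8 d₀ nomi⌉`,
`s ≥ 8 d₀ κ' h^16 ≥ 8 κ' h N`. Union over `V, Vg` (`2^((v+kp) N)`, `nn` is determined), `i, Q` (`v 2^v`), `D`
(`≤ (N^v)^(d₀)`, WLOG only the restrictions matter; `d₀ 8 al v log h ≤ N` for `h ≥ h₀`):
`exp((v+kp) N + v + N + .. - 8 κ' h N) ≤ δ`.
-/

namespace Pool.Agent.CUG

open Pool.Agent.CUB
open scoped Classical

private lemma HCP_heavy {kp v N M : ℕ} (P : Prm) (t : Fin M × Fin kp → Fin N)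
    (pos : Fin v → Fin kp) (hM : MUL P.mu t) (V : Fin v → Finset (Fin N))
    (Vg : Fin kp → Finset (Fin N)) (m : ℝ) (i : Fin v) (Q : Finset (Fin v))
    (hQc : Q.card ≤ P.dd) (hQ : ∀ u ∈ Q, pos u ≠ pos i) (x : Fin v → Fin N)
    (hH : Heavy P t pos (clsL t pos V Vg Finset.univ) V m i Q x) :
    8 * (((V i).card : ℝ) * ∏ u ∈ Q, (m / (((V u).card : ℝ) * ((V i).card : ℝ))))
      < (((V i).filter fun y => ∀ u ∈ Q,
          0 < pmul t pos (clsL t pos V Vg Finset.univ) u i (x u) y).card : ℝ) := by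
  have hmu : 1 ≤ P.mu := by
    by_contra h
    have h0 : P.mu = 0 := by omega
    have h1 := P.hmu
    have h2 := P.hdd
    have h3 := P.hd
    rw [h0] at h1
    have h4 : P.be * 1 ≤ P.be * P.dd := Nat.mul_le_mul_left _ h3
    omega
  have hpm : ∀ u ∈ Q, ∀ y, pmul t pos (clsL t pos V Vg Finset.univ) u i (x u) y ≤ P.mu := by
    intro u hu y
    refine le_trans (Finset.card_le_card ?_) (hM (pos u) (pos i) (hQ u hu) (x u) y)
    exact Finset.filter_subset_filter _ (Finset.subset_univ _)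
  have h1 : ∑ y ∈ V i, ∏ u ∈ Q, pmul t pos (clsL t pos V Vg Finset.univ) u i (x u) y
      ≤ ((V i).filter fun y => ∀ u ∈ Q,
          0 < pmul t pos (clsL t pos V Vg Finset.univ) u i (x u) y).card * P.mu ^ P.dd := by
    have h2 : ∀ y ∈ V i, ∏ u ∈ Q, pmul t pos (clsL t pos V Vg Finset.univ) u i (x u) y
        ≤ if (∀ u ∈ Q, 0 < pmul t pos (clsL t pos V Vg Finset.univ) u i (x u) y)
          then P.mu ^ P.dd else 0 := by
      intro y _
      split_ifs with h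
      · calc ∏ u ∈ Q, pmul t pos (clsL t pos V Vg Finset.univ) u i (x u) y
            ≤ ∏ _u ∈ Q, P.mu := Finset.prod_le_prod' fun u hu => hpm u hu y
          _ = P.mu ^ Q.card := Finset.prod_const _
          _ ≤ P.mu ^ P.dd := Nat.pow_le_pow_right hmu hQc
      · push Not at h
        obtain ⟨u, hu, h⟩ := h
        exact le_of_eq (Finset.prod_eq_zero hu (Nat.le_zero.1 h))
    refine (Finset.sum_le_sum h2).trans (le_of_eq ?_)
    rw [← Finset.sum_filter, Finset.sum_const, smul_eq_mul]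
  unfold Heavy Chv at hH
  have h3 : ((∑ y ∈ V i, ∏ u ∈ Q,
      pmul t pos (clsL t pos V Vg Finset.univ) u i (x u) y : ℕ) : ℝ)
      ≤ (((V i).filter fun y => ∀ u ∈ Q,
          0 < pmul t pos (clsL t pos V Vg Finset.univ) u i (x u) y).card : ℝ)
        * (P.mu : ℝ) ^ P.dd := by exact_mod_cast h1
  have h4 := lt_of_lt_of_le hH h3
  have h5 : (0 : ℝ) < (P.mu : ℝ) ^ P.dd := pow_pos (by exact_mod_cast hmu) _
  refine lt_of_mul_lt_mul_right ?_ h5.le
  refine lt_of_eq_of_lt ?_ h4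
  ring

private lemma HCP_nomi {kp v N M : ℕ} (P : Prm) (h : ℕ) (h1 : 1 ≤ h) (hN : N = h ^ (8 * P.al))
    (hM : M = h ^ (8 * P.ga)) (pos : Fin v → Fin kp) (κ₁ : ℝ) (hκ : 0 < κ₁)
    (V : Fin v → Finset (Fin N)) (Vg : Fin kp → Finset (Fin N)) (nn : Fin kp → ℕ)
    (hP : Parts pos κ₁ V Vg nn) (i : Fin v) (Q : Finset (Fin v)) (hQc : Q.card ≤ P.dd) :
    κ₁ ^ (1 + kp * P.dd) * (h : ℝ) ^ 16
      ≤ ((V i).card : ℝ) *
        ∏ u ∈ Q, (msz N M nn / (((V u).card : ℝ) * ((V i).card : ℝ))) := by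
  have hh : (0 : ℝ) < (h : ℝ) := by exact_mod_cast h1
  have hh1 : (1 : ℝ) ≤ (h : ℝ) := by exact_mod_cast h1
  have hNr : (N : ℝ) = (h : ℝ) ^ (8 * P.al) := by rw [hN]; push_cast; rfl
  have hMr : (M : ℝ) = (h : ℝ) ^ (8 * P.ga) := by rw [hM]; push_cast; rfl
  have hN0 : (0 : ℝ) < (N : ℝ) := by rw [hNr]; positivity
  have hNn : 0 < N := by exact_mod_cast hN0
  have hκ1 : κ₁ ≤ 1 := by
    have h2 := (hP.big (pos i)).trans (parts_le hP (pos i))
    have h3 : κ₁ * (N : ℝ) ≤ 1 * (N : ℝ) := by linarith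
    exact le_of_mul_le_mul_right h3 hN0
  have hm := msz_ge M hP hκ hNn
  have hV : ∀ u, (0 : ℝ) < ((V u).card : ℝ) := by
    intro u
    rw [hP.cV u]
    exact lt_of_lt_of_le (mul_pos hκ hN0) (hP.big _)
  have hVN : ∀ u, ((V u).card : ℝ) ≤ (N : ℝ) := by
    intro u
    rw [hP.cV u]
    exact parts_le hP _
  have hMN : (M : ℝ) / ((N : ℝ) * (N : ℝ)) = 1 / (h : ℝ) ^ (8 * P.be) := by
    rw [hNr, hMr, div_eq_div_iff (by positivity) (by positivity), one_mul, ← pow_add, ← pow_add]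
    congr 1
    have := P.hga
    omega
  have ha0 : 0 ≤ κ₁ ^ kp * (1 / (h : ℝ) ^ (8 * P.be)) := by positivity
  have ha1 : κ₁ ^ kp * (1 / (h : ℝ) ^ (8 * P.be)) ≤ 1 := by
    refine mul_le_one₀ (pow_le_one₀ hκ.le hκ1) (by positivity) ?_
    rw [div_le_one (by positivity)]
    exact one_le_pow₀ hh1
  have hfac : ∀ u ∈ Q, κ₁ ^ kp * (1 / (h : ℝ) ^ (8 * P.be))
      ≤ msz N M nn / (((V u).card : ℝ) * ((V i).card : ℝ)) := by
    intro u _
    rw [← hMN, ← mul_div_assoc]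
    refine div_le_div₀ ?_ hm (mul_pos (hV u) (hV i)) ?_
    · exact le_trans (by positivity) hm
    · exact mul_le_mul (hVN u) (hVN i) (hV i).le hN0.le
  have hprod : (κ₁ ^ kp * (1 / (h : ℝ) ^ (8 * P.be))) ^ P.dd
      ≤ ∏ u ∈ Q, (msz N M nn / (((V u).card : ℝ) * ((V i).card : ℝ))) := by
    calc (κ₁ ^ kp * (1 / (h : ℝ) ^ (8 * P.be))) ^ P.dd
        ≤ (κ₁ ^ kp * (1 / (h : ℝ) ^ (8 * P.be))) ^ Q.card := pow_le_pow_of_le_one ha0 ha1 hQc
      _ = ∏ _u ∈ Q, (κ₁ ^ kp * (1 / (h : ℝ) ^ (8 * P.be))) := (Finset.prod_const _).symm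
      _ ≤ _ := Finset.prod_le_prod (fun _ _ => ha0) hfac
  have hVi : κ₁ * (h : ℝ) ^ (8 * P.al) ≤ ((V i).card : ℝ) := by
    rw [hP.cV i, ← hNr]
    exact hP.big _
  calc κ₁ ^ (1 + kp * P.dd) * (h : ℝ) ^ 16
      ≤ κ₁ ^ (1 + kp * P.dd) * ((h : ℝ) ^ (8 * P.al) / (h : ℝ) ^ (8 * P.be * P.dd)) := by
        refine mul_le_mul_of_nonneg_left ?_ (by positivity)
        rw [le_div_iff₀ (by positivity), ← pow_add]
        refine pow_le_pow_right₀ hh1 ?_
        have := P.hdd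
        have h2 : 8 * P.be * P.dd = 8 * (P.be * P.dd) := by ring
        omega
    _ = κ₁ * (h : ℝ) ^ (8 * P.al) * (κ₁ ^ kp * (1 / (h : ℝ) ^ (8 * P.be))) ^ P.dd := by
        rw [mul_pow, ← pow_mul, one_div, inv_pow, ← pow_mul, pow_add, pow_one]
        ring
    _ ≤ _ := mul_le_mul hVi hprod (pow_nonneg ha0 _) (hV i).le

private lemma HCP_num (P : Prm) (v kp : ℕ) (c δ : ℝ) (hc : 0 < c) (hδ : 0 < δ) :
    ∃ h₀ : ℕ, 1 ≤ h₀ ∧ ∀ h ≥ h₀, ∀ N : ℕ, N = h ^ (8 * P.al) →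
      ((((2 ^ N) ^ v * ((2 ^ N) ^ kp * (v * (2 ^ v *
        Nat.choose (N ^ v) (h ^ (8 * P.al - 15) + 1)))) : ℕ)) : ℝ)
        * Real.exp (-(c * (h : ℝ) * (N : ℝ))) ≤ δ := by
  have hal : 24 ≤ 8 * P.al := by
    have h1 := P.hdd
    have h2 : 1 * 1 ≤ P.be * P.dd := Nat.mul_le_mul P.hbe P.hd
    omega
  obtain ⟨n₁, hn₁⟩ := exists_nat_ge (((v : ℝ) + kp + 2 * v + 1 + |Real.log δ|) / c)
  refine ⟨n₁ + (16 * v * P.al + 1), by omega, ?_⟩
  intro h hh N hN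
  have h1 : 1 ≤ h := by omega
  have hr1 : (1 : ℝ) ≤ (h : ℝ) := by exact_mod_cast h1
  have hr0 : (0 : ℝ) < (h : ℝ) := by linarith
  have hNr : (N : ℝ) = (h : ℝ) ^ (8 * P.al) := by rw [hN]; push_cast; rfl
  have hN1 : (1 : ℝ) ≤ (N : ℝ) := by rw [hNr]; exact one_le_pow₀ hr1
  have he : (2 : ℝ) ≤ Real.exp 1 := by
    have := Real.add_one_le_exp (1 : ℝ)
    linarith
  have h2pow : ∀ n : ℕ, (2 : ℝ) ^ n ≤ Real.exp (n : ℝ) := by
    intro n
    calc (2 : ℝ) ^ n ≤ Real.exp 1 ^ n := pow_le_pow_left₀ (by norm_num) he n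
      _ = Real.exp (n : ℝ) := by rw [← Real.exp_nat_mul, mul_one]
  have hA : ((2 : ℝ) ^ N) ^ v ≤ Real.exp ((N : ℝ) * v) := by
    rw [← pow_mul]
    refine (h2pow _).trans (le_of_eq ?_)
    push_cast
    rfl
  have hB : ((2 : ℝ) ^ N) ^ kp ≤ Real.exp ((N : ℝ) * kp) := by
    rw [← pow_mul]
    refine (h2pow _).trans (le_of_eq ?_)
    push_cast
    rfl
  have hC : (v : ℝ) ≤ Real.exp (v : ℝ) := by
    have := Real.add_one_le_exp (v : ℝ)
    linarith
  have hD : (2 : ℝ) ^ v ≤ Real.exp (v : ℝ) := h2pow v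
  have hE : (Nat.choose (N ^ v) (h ^ (8 * P.al - 15) + 1) : ℝ) ≤ Real.exp (N : ℝ) := by
    have h3 : (Nat.choose (N ^ v) (h ^ (8 * P.al - 15) + 1) : ℝ)
        ≤ ((N : ℝ) ^ v) ^ (h ^ (8 * P.al - 15) + 1) := by
      have := Nat.choose_le_pow (N ^ v) (h ^ (8 * P.al - 15) + 1)
      exact_mod_cast this
    refine h3.trans ?_
    have h4 : ((N : ℝ) ^ v) ^ (h ^ (8 * P.al - 15) + 1)
        = Real.exp (((8 * P.al * v * (h ^ (8 * P.al - 15) + 1) : ℕ) : ℝ) * Real.log h) := by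
      rw [hNr, ← pow_mul, ← pow_mul, Real.exp_nat_mul, Real.exp_log hr0]
      congr 1
      ring
    rw [h4]
    refine Real.exp_le_exp.2 ?_
    have hlog : Real.log (h : ℝ) ≤ (h : ℝ) := Real.log_le_self hr0.le
    have h5 : ((8 * P.al * v * (h ^ (8 * P.al - 15) + 1) : ℕ) : ℝ)
        ≤ 16 * v * P.al * (h : ℝ) ^ (8 * P.al - 15) := by
      push_cast
      have h6 : (1 : ℝ) ≤ (h : ℝ) ^ (8 * P.al - 15) := one_le_pow₀ hr1
      have h7 : (0 : ℝ) ≤ 8 * (P.al : ℝ) * v := by positivity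
      nlinarith
    have h8 : (16 * v * P.al : ℝ) * (h : ℝ) ≤ (h : ℝ) ^ 15 := by
      have h9 : (16 * v * P.al : ℝ) ≤ (h : ℝ) := by
        have : 16 * v * P.al ≤ h := by omega
        exact_mod_cast this
      calc (16 * v * P.al : ℝ) * (h : ℝ) ≤ (h : ℝ) * (h : ℝ) :=
            mul_le_mul_of_nonneg_right h9 hr0.le
        _ = (h : ℝ) ^ 2 := by ring
        _ ≤ (h : ℝ) ^ 15 := pow_le_pow_right₀ hr1 (by norm_num)
    calc ((8 * P.al * v * (h ^ (8 * P.al - 15) + 1) : ℕ) : ℝ) * Real.log h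
        ≤ (16 * v * P.al * (h : ℝ) ^ (8 * P.al - 15)) * (h : ℝ) :=
          mul_le_mul h5 hlog (Real.log_nonneg hr1) (by positivity)
      _ = ((16 * v * P.al : ℝ) * (h : ℝ)) * (h : ℝ) ^ (8 * P.al - 15) := by ring
      _ ≤ (h : ℝ) ^ 15 * (h : ℝ) ^ (8 * P.al - 15) :=
          mul_le_mul_of_nonneg_right h8 (by positivity)
      _ = (N : ℝ) := by
          rw [hNr, ← pow_add]
          congr 1
          omega
  have hch : (v : ℝ) + kp + 2 * v + 1 + |Real.log δ| ≤ c * (h : ℝ) := by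
    have h3 : (n₁ : ℝ) ≤ (h : ℝ) := by
      have : n₁ ≤ h := by omega
      exact_mod_cast this
    have h4 := hn₁.trans h3
    rw [div_le_iff₀ hc] at h4
    linarith
  have habs : (0 : ℝ) ≤ |Real.log δ| := abs_nonneg _
  push_cast
  calc ((2 : ℝ) ^ N) ^ v * (((2 : ℝ) ^ N) ^ kp * ((v : ℝ) * ((2 : ℝ) ^ v *
        (Nat.choose (N ^ v) (h ^ (8 * P.al - 15) + 1) : ℝ))))
        * Real.exp (-(c * (h : ℝ) * (N : ℝ)))
      ≤ Real.exp ((N : ℝ) * v) * (Real.exp ((N : ℝ) * kp) * (Real.exp (v : ℝ) *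
        (Real.exp (v : ℝ) * Real.exp (N : ℝ)))) * Real.exp (-(c * (h : ℝ) * (N : ℝ))) := by
        refine mul_le_mul_of_nonneg_right ?_ (Real.exp_pos _).le
        refine mul_le_mul hA ?_ (by positivity) (Real.exp_pos _).le
        refine mul_le_mul hB ?_ (by positivity) (Real.exp_pos _).le
        refine mul_le_mul hC ?_ (by positivity) (Real.exp_pos _).le
        exact mul_le_mul hD hE (by positivity) (Real.exp_pos _).le
    _ = Real.exp ((N : ℝ) * v + ((N : ℝ) * kp + (v + (v + N))) + -(c * (h : ℝ) * (N : ℝ))) := by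
        rw [Real.exp_add, Real.exp_add, Real.exp_add, Real.exp_add, Real.exp_add]
    _ ≤ Real.exp (Real.log δ) := by
        refine Real.exp_le_exp.2 ?_
        have h5 : (v : ℝ) ≤ (N : ℝ) * v := by
          have : (0 : ℝ) ≤ (v : ℝ) := Nat.cast_nonneg _
          nlinarith
        have h6 : ((v : ℝ) + kp + 2 * v + 1 + |Real.log δ|) * (N : ℝ) ≤ c * (h : ℝ) * (N : ℝ) :=
          mul_le_mul_of_nonneg_right hch (by linarith)
        have h7 : |Real.log δ| ≤ |Real.log δ| * (N : ℝ) := by nlinarith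
        have h8 := neg_abs_le (Real.log δ)
        nlinarith
    _ = δ := Real.exp_log hδ

/-- Heavy control holds for most configurations. -/
theorem hc_prob {kp : ℕ} (P : Prm) (v : ℕ) (pos : Fin v → Fin kp) (κ₁ δ : ℝ) (hκ : 0 < κ₁)
    (hδ : 0 < δ) :
    ∃ h₀ : ℕ, ∀ h ≥ h₀, ∀ N M : ℕ, N = h ^ (8 * P.al) → M = h ^ (8 * P.ga) →
      (((Finset.univ : Finset (Fin M × Fin kp → Fin N)).filter fun t =>
          MUL P.mu t ∧ ¬ HC P h κ₁ t pos).card : ℝ)
        ≤ δ * (Fintype.card (Fin M × Fin kp → Fin N) : ℝ) := by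
  have hal : 24 ≤ 8 * P.al := by
    have h1 := P.hdd
    have h2 : 1 * 1 ≤ P.be * P.dd := Nat.mul_le_mul P.hbe P.hd
    omega
  obtain ⟨h₀, hh₀, hnum⟩ := HCP_num P v kp (8 * κ₁ ^ (1 + kp * P.dd)) δ (by positivity) hδ
  refine ⟨h₀, fun h hh N M hN hM => ?_⟩
  have h1 : 1 ≤ h := hh₀.trans hh
  have hr1 : (1 : ℝ) ≤ (h : ℝ) := by exact_mod_cast h1
  have hNr : (N : ℝ) = (h : ℝ) ^ (8 * P.al) := by rw [hN]; push_cast; rfl
  have hN0 : 0 < N := by rw [hN]; exact pow_pos h1 _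
  set d₀ : ℕ := h ^ (8 * P.al - 15) + 1 with hd₀
  -- the tuples
  let Z : Finset ((Fin v → Finset (Fin N)) × (Fin kp → Finset (Fin N)) × Fin v ×
      Finset (Fin v) × Finset (Fin v → Fin N)) :=
    Finset.univ ×ˢ (Finset.univ ×ˢ (Finset.univ ×ˢ (Finset.univ ×ˢ
      Finset.powersetCard d₀ (Finset.univ : Finset (Fin v → Fin N)))))
  let Cond : ((Fin v → Finset (Fin N)) × (Fin kp → Finset (Fin N)) × Fin v ×
      Finset (Fin v) × Finset (Fin v → Fin N)) → Prop := fun z =>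
    Parts pos κ₁ z.1 z.2.1 (fun a => (z.2.1 a).card) ∧ z.2.2.2.1.card ≤ P.dd ∧
      (∀ u ∈ z.2.2.2.1, pos u ≠ pos z.2.2.1) ∧
      (∀ x ∈ z.2.2.2.2, ∀ u ∈ z.2.2.2.1, x u ∈ z.1 u) ∧
      (∀ x ∈ z.2.2.2.2, ∀ x' ∈ z.2.2.2.2, x ≠ x' → ∀ u ∈ z.2.2.2.1, x u ≠ x' u)
  let Ev : ((Fin v → Finset (Fin N)) × (Fin kp → Finset (Fin N)) × Fin v ×
      Finset (Fin v) × Finset (Fin v → Fin N)) → (Fin M × Fin kp → Fin N) → Prop := fun z t =>
    8 * (d₀ : ℝ) * (((z.1 z.2.2.1).card : ℝ) * ∏ u ∈ z.2.2.2.1,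
        (msz N M (fun a => (z.2.1 a).card) /
          (((z.1 u).card : ℝ) * ((z.1 z.2.2.1).card : ℝ))))
      ≤ ((∑ x ∈ z.2.2.2.2, ((z.1 z.2.2.1).filter fun y => ∀ u ∈ z.2.2.2.1,
          0 < pmul t pos (clsL t pos z.1 z.2.1 Finset.univ) u z.2.2.1 (x u) y).card : ℕ) : ℝ)
  have hsub : ((Finset.univ : Finset (Fin M × Fin kp → Fin N)).filter fun t =>
      MUL P.mu t ∧ ¬ HC P h κ₁ t pos)
      ⊆ Z.biUnion fun z => (Finset.univ : Finset (Fin M × Fin kp → Fin N)).filter fun t =>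
        Cond z ∧ Ev z t := by
    intro t ht
    obtain ⟨hmul, hhc⟩ := (Finset.mem_filter.1 ht).2
    unfold HC at hhc
    push Not at hhc
    obtain ⟨V, Vg, nn, hP, i, Q, hQc, hQ, D, hD, hDd, hH, hlt⟩ := hhc
    have hnn : nn = fun a => (Vg a).card := funext fun a => (hP.cg a).symm
    subst hnn
    have hcard : d₀ ≤ D.card := by
      have h2 : h ^ 15 * h ^ (8 * P.al - 15) < h ^ 15 * D.card := by
        rw [← pow_add, show 15 + (8 * P.al - 15) = 8 * P.al by omega, ← hN]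
        exact hlt
      have h3 := Nat.lt_of_mul_lt_mul_left h2
      omega
    obtain ⟨D', hD', hDc⟩ := Finset.exists_subset_card_eq hcard
    refine Finset.mem_biUnion.2 ⟨(V, Vg, i, Q, D'), ?_, Finset.mem_filter.2
      ⟨Finset.mem_univ _, ⟨hP, hQc, hQ, fun x hx => hD x (hD' hx),
        fun x hx x' hx' => hDd x (hD' hx) x' (hD' hx')⟩, ?_⟩⟩
    · refine Finset.mem_product.2 ⟨Finset.mem_univ _, Finset.mem_product.2
        ⟨Finset.mem_univ _, Finset.mem_product.2 ⟨Finset.mem_univ _, Finset.mem_product.2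
          ⟨Finset.mem_univ _, Finset.mem_powersetCard.2 ⟨Finset.subset_univ _, hDc⟩⟩⟩⟩⟩
    · show 8 * (d₀ : ℝ) * (((V i).card : ℝ) * ∏ u ∈ Q,
          (msz N M (fun a => (Vg a).card) / (((V u).card : ℝ) * ((V i).card : ℝ))))
        ≤ ((∑ x ∈ D', ((V i).filter fun y => ∀ u ∈ Q,
          0 < pmul t pos (clsL t pos V Vg Finset.univ) u i (x u) y).card : ℕ) : ℝ)
      push_cast
      have h4 : ∀ x ∈ D', 8 * (((V i).card : ℝ) * ∏ u ∈ Q,
          (msz N M (fun a => (Vg a).card) / (((V u).card : ℝ) * ((V i).card : ℝ))))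
          ≤ (((V i).filter fun y => ∀ u ∈ Q,
          0 < pmul t pos (clsL t pos V Vg Finset.univ) u i (x u) y).card : ℝ) :=
        fun x hx => (HCP_heavy P t pos hmul V Vg _ i Q hQc hQ x (hH x (hD' hx))).le
      refine le_trans (le_of_eq ?_) (Finset.sum_le_sum h4)
      rw [Finset.sum_const, hDc, nsmul_eq_mul]
      ring
  have hbd : ∀ z ∈ Z, (((Finset.univ : Finset (Fin M × Fin kp → Fin N)).filter fun t =>
      Cond z ∧ Ev z t).card : ℝ)
      ≤ Real.exp (-(8 * κ₁ ^ (1 + kp * P.dd) * (h : ℝ) * (N : ℝ))) *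
        (Fintype.card (Fin M × Fin kp → Fin N) : ℝ) := by
    rintro ⟨V, Vg, i, Q, D⟩ hz
    have hDc : D.card = d₀ := by
      have h2 := (Finset.mem_product.1 hz).2
      have h3 := (Finset.mem_product.1 h2).2
      have h4 := (Finset.mem_product.1 h3).2
      exact (Finset.mem_powersetCard.1 (Finset.mem_product.1 h4).2).2
    by_cases hC : Cond (V, Vg, i, Q, D)
    · obtain ⟨hP, hQc, hQ, hD, hDd⟩ := hC
      simp only at hP hQc hQ hD hDd
      set X : ℝ := ((V i).card : ℝ) * ∏ u ∈ Q,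
          (msz N M (fun a => (Vg a).card) / (((V u).card : ℝ) * ((V i).card : ℝ))) with hX
      have h5 := hct (M := M) pos κ₁ hκ hN0 V Vg _ hP i Q hQ D hD hDd ⌈8 * (d₀ : ℝ) * X⌉₊ (by
        rw [hDc]
        exact Nat.le_ceil _)
      have h6 : κ₁ ^ (1 + kp * P.dd) * (h : ℝ) ^ 16 ≤ X :=
        HCP_nomi P h h1 hN hM pos κ₁ hκ V Vg _ hP i Q hQc
      have h7 : 8 * κ₁ ^ (1 + kp * P.dd) * (h : ℝ) * (N : ℝ) ≤ (⌈8 * (d₀ : ℝ) * X⌉₊ : ℝ) := by
        refine le_trans ?_ (Nat.le_ceil _)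
        have h8 : (h : ℝ) ^ (8 * P.al - 15) ≤ (d₀ : ℝ) := by
          rw [hd₀]
          push_cast
          linarith
        calc 8 * κ₁ ^ (1 + kp * P.dd) * (h : ℝ) * (N : ℝ)
            = 8 * (h : ℝ) ^ (8 * P.al - 15) * (κ₁ ^ (1 + kp * P.dd) * (h : ℝ) ^ 16) := by
              rw [hNr]
              have h9 : (h : ℝ) ^ (8 * P.al) = (h : ℝ) ^ (8 * P.al - 15) * (h : ℝ) ^ 15 := by
                rw [← pow_add]
                congr 1
                omega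
              rw [h9]
              ring
          _ ≤ 8 * (d₀ : ℝ) * X :=
              mul_le_mul (mul_le_mul_of_nonneg_left h8 (by norm_num)) h6 (by positivity)
                (by positivity)
      refine le_trans ?_ (h5.trans ?_)
      · have h10 : ((Finset.univ : Finset (Fin M × Fin kp → Fin N)).filter fun t =>
            Cond (V, Vg, i, Q, D) ∧ Ev (V, Vg, i, Q, D) t)
            ⊆ (Finset.univ : Finset (Fin M × Fin kp → Fin N)).filter fun t =>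
              ⌈8 * (d₀ : ℝ) * X⌉₊ ≤ ∑ x ∈ D, ((V i).filter fun y => ∀ u ∈ Q,
                0 < pmul t pos (clsL t pos V Vg Finset.univ) u i (x u) y).card := by
          intro t ht
          refine Finset.mem_filter.2 ⟨Finset.mem_univ _, ?_⟩
          exact Nat.ceil_le.2 (Finset.mem_filter.1 ht).2.2
        exact_mod_cast Finset.card_le_card h10
      · refine mul_le_mul_of_nonneg_right ?_ (Nat.cast_nonneg _)
        exact Real.exp_le_exp.2 (neg_le_neg h7)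
    · have h5 : ((Finset.univ : Finset (Fin M × Fin kp → Fin N)).filter fun t =>
          Cond (V, Vg, i, Q, D) ∧ Ev (V, Vg, i, Q, D) t) = ∅ := by
        refine Finset.filter_eq_empty_iff.2 fun t _ ht => hC ht.1
      rw [h5, Finset.card_empty, Nat.cast_zero]
      positivity
  have hcZ : Z.card = (2 ^ N) ^ v * ((2 ^ N) ^ kp * (v * (2 ^ v *
        Nat.choose (N ^ v) d₀))) := by
    simp only [Z, Finset.card_product, Finset.card_univ, Finset.card_powersetCard,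
      Fintype.card_fun, Fintype.card_finset, Fintype.card_fin]
  have h11 : (((Finset.univ : Finset (Fin M × Fin kp → Fin N)).filter fun t =>
      MUL P.mu t ∧ ¬ HC P h κ₁ t pos).card : ℝ)
      ≤ ∑ z ∈ Z, (((Finset.univ : Finset (Fin M × Fin kp → Fin N)).filter fun t =>
        Cond z ∧ Ev z t).card : ℝ) := by
    have h12 := (Finset.card_le_card hsub).trans Finset.card_biUnion_le
    exact_mod_cast h12
  refine h11.trans ((Finset.sum_le_sum hbd).trans ?_)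
  rw [Finset.sum_const, nsmul_eq_mul, ← mul_assoc, hcZ]
  exact mul_le_mul_of_nonneg_right (hnum h hh N hN) (Nat.cast_nonneg _)

end Pool.Agent.CUG
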