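import Pool.Agent.CUG.HCL
import Pool.Agent.CUG.CNT

set_option autoImplicit false

/-!
# CUG.HCT

Proof. `s = 0`: trivial. `Q = ∅`: the sum is `|D||V i|` and `s ≥ 8 |D||V i|`, so the event is empty unless
`s = 0`. Otherwise let `p = ∏_{u∈Q} m/(|V u||V i|)`, `n₀ = |D||V i|`. If the event holds there is a set `T` of
exactly `s` pairs `(x, y)`, `x ∈ D`, `y ∈ V i`, with `0 < pmul ..` for all `u ∈ Q`. For fixed `T` apply `hcl`
with `q = ↥(T ×ˢ Q)` and the boxes `X (x,y,u) c = {x u}` if `c = pos u`, `{y}` if `c = pos i`, `Vg c` otherwise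
(a block in `clsL (u,i)` through `x u` and `y` lies in this box). They are disjoint: different `y`: at `pos i`;
same `y`, same `u`, different `x`: at `pos u` (`hDd`); `u ≠ u'`: at `pos u`: if `pos u = pos u'` by `disV`
(`x u ∈ V u`, `x' u' ∈ V u'`), if `pos u ≠ pos u'` by `disg` (`x u ∈ V u` against `Vg (pos u)`).
`M ∏_c |X c|/N = m/(|V u||V i|)` (`nn > 0`). So the proportion is at most `C(n₀, s) p^s ≤ (n₀ p)^s/s! ≤
(s/8)^s/s! ≤ (e/8)^s ≤ e^(-s)` (`s! ≥ (s/e)^s`, `e^2 ≤ 8`).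
-/

namespace Pool.Agent.CUG

open Pool.Agent.CUB
open scoped Classical

/-- The box of the block that joins `x u` and `y`. -/
private noncomputable def HCT_X {kp v N : ℕ} (pos : Fin v → Fin kp) (Vg : Fin kp → Finset (Fin N))
    (i : Fin v) (x : Fin v → Fin N) (y : Fin N) (u : Fin v) (c : Fin kp) : Finset (Fin N) :=
  if c = pos u then {x u} else if c = pos i then {y} else Vg c

private lemma HCT_prod {kp v N M : ℕ} (pos : Fin v → Fin kp) (κ₁ : ℝ) (hκ : 0 < κ₁) (hN : 0 < N)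
    (V : Fin v → Finset (Fin N)) (Vg : Fin kp → Finset (Fin N)) (nn : Fin kp → ℕ)
    (hP : Parts pos κ₁ V Vg nn) (i u : Fin v) (hu : pos u ≠ pos i) (x : Fin v → Fin N)
    (y : Fin N) :
    (M : ℝ) * ∏ c, (((HCT_X pos Vg i x y u c).card : ℝ) / (N : ℝ))
      = msz N M nn / (((V u).card : ℝ) * ((V i).card : ℝ)) := by
  have hN' : (0 : ℝ) < (N : ℝ) := by exact_mod_cast hN
  have hpos : ∀ a, (0 : ℝ) < (nn a : ℝ) := fun a => lt_of_lt_of_le (mul_pos hκ hN') (hP.big a)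
  have h1 : ∀ c, (((HCT_X pos Vg i x y u c).card : ℝ) / (N : ℝ))
      = ((nn c : ℝ) / (N : ℝ)) * ((if c = pos u then ((nn c : ℝ))⁻¹ else 1) *
        (if c = pos i then ((nn c : ℝ))⁻¹ else 1)) := by
    intro c
    have hc := (hpos c).ne'
    unfold HCT_X
    by_cases h1 : c = pos u
    · have h2 : c ≠ pos i := fun h => hu (h1.symm.trans h)
      rw [if_pos h1, if_pos h1, if_neg h2, Finset.card_singleton]
      push_cast
      field_simp
    · rw [if_neg h1, if_neg h1]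
      by_cases h2 : c = pos i
      · rw [if_pos h2, if_pos h2, Finset.card_singleton]
        push_cast
        field_simp
      · rw [if_neg h2, if_neg h2, hP.cg c]
        ring
  rw [Finset.prod_congr rfl fun c _ => h1 c, Finset.prod_mul_distrib, Finset.prod_mul_distrib,
    Finset.prod_ite_eq', Finset.prod_ite_eq', if_pos (Finset.mem_univ _),
    if_pos (Finset.mem_univ _), hP.cV u, hP.cV i]
  unfold msz
  have h3 := (hpos (pos u)).ne'
  have h4 := (hpos (pos i)).ne'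
  field_simp

private lemma HCT_disj {kp v N : ℕ} (pos : Fin v → Fin kp) (κ₁ : ℝ)
    (V : Fin v → Finset (Fin N)) (Vg : Fin kp → Finset (Fin N)) (nn : Fin kp → ℕ)
    (hP : Parts pos κ₁ V Vg nn) (i : Fin v) (Q : Finset (Fin v)) (hQ : ∀ u ∈ Q, pos u ≠ pos i)
    (D : Finset (Fin v → Fin N)) (hD : ∀ x ∈ D, ∀ u ∈ Q, x u ∈ V u)
    (hDd : ∀ x ∈ D, ∀ x' ∈ D, x ≠ x' → ∀ u ∈ Q, x u ≠ x' u)
    (x x' : Fin v → Fin N) (hx : x ∈ D) (hx' : x' ∈ D) (y y' : Fin N) (u u' : Fin v)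
    (hu : u ∈ Q) (hu' : u' ∈ Q) (hne : ¬ (x = x' ∧ y = y' ∧ u = u')) :
    ∃ c, Disjoint (HCT_X pos Vg i x y u c) (HCT_X pos Vg i x' y' u' c) := by
  by_cases hy : y = y'
  · by_cases huu : u = u'
    · subst huu
      have hxx : x ≠ x' := fun h => hne ⟨h, hy, rfl⟩
      refine ⟨pos u, ?_⟩
      unfold HCT_X
      rw [if_pos rfl, if_pos rfl, Finset.disjoint_singleton]
      exact hDd x hx x' hx' hxx u hu
    · refine ⟨pos u, ?_⟩
      unfold HCT_X
      rw [if_pos rfl]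
      by_cases hpp : pos u = pos u'
      · rw [if_pos hpp, Finset.disjoint_singleton]
        intro h
        exact Finset.disjoint_left.1 (hP.disV u u' huu hpp) (hD x hx u hu)
          (h ▸ hD x' hx' u' hu')
      · rw [if_neg hpp, if_neg (hQ u hu), Finset.disjoint_singleton_left]
        exact Finset.disjoint_left.1 (hP.disg u) (hD x hx u hu)
  · refine ⟨pos i, ?_⟩
    have h1 : pos i ≠ pos u := fun h => hQ u hu h.symm
    have h2 : pos i ≠ pos u' := fun h => hQ u' hu' h.symm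
    unfold HCT_X
    rw [if_neg h1, if_neg h2, if_pos rfl, if_pos rfl, Finset.disjoint_singleton]
    exact hy

private lemma HCT_block {kp v N M : ℕ} (t : Fin M × Fin kp → Fin N) (pos : Fin v → Fin kp)
    (V : Fin v → Finset (Fin N)) (Vg : Fin kp → Finset (Fin N)) (i u : Fin v)
    (x : Fin v → Fin N) (y : Fin N)
    (h : 0 < pmul t pos (clsL t pos V Vg Finset.univ) u i (x u) y) :
    ∃ j, ∀ c, t (j, c) ∈ HCT_X pos Vg i x y u c := by
  unfold pmul at h
  obtain ⟨j, hj⟩ := Finset.card_pos.1 h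
  obtain ⟨hj1, hj2, hj3⟩ := Finset.mem_filter.1 hj
  refine ⟨j, fun c => ?_⟩
  unfold HCT_X
  by_cases h1 : c = pos u
  · rw [if_pos h1, Finset.mem_singleton, h1]
    exact hj2
  · rw [if_neg h1]
    by_cases h2 : c = pos i
    · rw [if_pos h2, Finset.mem_singleton, h2]
      exact hj3
    · rw [if_neg h2]
      unfold clsL at hj1
      by_cases h3 : pos u = pos i
      · rw [if_pos h3] at hj1
        exact absurd hj1 (Finset.notMem_empty _)
      · rw [if_neg h3] at hj1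
        have h4 := (Finset.mem_filter.1 hj1).2 c
        rwa [if_neg h1, if_neg h2] at h4

private lemma HCT_num (n₀ s : ℕ) (p : ℝ) (hp : 0 ≤ p) (h : 8 * ((n₀ : ℝ) * p) ≤ (s : ℝ)) :
    (Nat.choose n₀ s : ℝ) * p ^ s ≤ Real.exp (-(s : ℝ)) := by
  have hf : (0 : ℝ) < (s.factorial : ℝ) := by exact_mod_cast s.factorial_pos
  have h1 : (Nat.choose n₀ s : ℝ) ≤ (n₀ : ℝ) ^ s / (s.factorial : ℝ) :=
    Nat.choose_le_pow_div s n₀
  have h2 : (Nat.choose n₀ s : ℝ) * p ^ s ≤ ((n₀ : ℝ) * p) ^ s / (s.factorial : ℝ) := by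
    calc (Nat.choose n₀ s : ℝ) * p ^ s ≤ (n₀ : ℝ) ^ s / (s.factorial : ℝ) * p ^ s :=
          mul_le_mul_of_nonneg_right h1 (pow_nonneg hp _)
      _ = ((n₀ : ℝ) * p) ^ s / (s.factorial : ℝ) := by rw [mul_pow]; ring
  have h3 : ((n₀ : ℝ) * p) ^ s ≤ ((s : ℝ) / 8) ^ s :=
    pow_le_pow_left₀ (by positivity) (by linarith) s
  have h4 : (s : ℝ) ^ s / (s.factorial : ℝ) ≤ Real.exp (s : ℝ) :=
    Real.pow_div_factorial_le_exp (s : ℝ) (Nat.cast_nonneg _) s
  have h5 : Real.exp (s : ℝ) = Real.exp 1 ^ s := by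
    rw [← Real.exp_nat_mul]; ring_nf
  have h6 : Real.exp (-(s : ℝ)) = (Real.exp 1)⁻¹ ^ s := by
    rw [Real.exp_neg, h5, inv_pow]
  have he : Real.exp 1 * Real.exp 1 ≤ 8 := by
    have := Real.exp_one_lt_d9
    have h0 := Real.exp_pos 1
    nlinarith
  have h7 : Real.exp 1 / 8 ≤ (Real.exp 1)⁻¹ := by
    rw [div_le_iff₀ (by norm_num), ← div_eq_inv_mul, le_div_iff₀ (Real.exp_pos 1)]
    exact he
  calc (Nat.choose n₀ s : ℝ) * p ^ s ≤ ((n₀ : ℝ) * p) ^ s / (s.factorial : ℝ) := h2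
    _ ≤ ((s : ℝ) / 8) ^ s / (s.factorial : ℝ) := by
        exact div_le_div_of_nonneg_right h3 hf.le
    _ = ((s : ℝ) ^ s / (s.factorial : ℝ)) / 8 ^ s := by rw [div_pow]; ring
    _ ≤ Real.exp 1 ^ s / 8 ^ s := by
        refine div_le_div_of_nonneg_right ?_ (by positivity)
        rw [← h5]; exact h4
    _ = (Real.exp 1 / 8) ^ s := by rw [div_pow]
    _ ≤ ((Real.exp 1)⁻¹) ^ s := pow_le_pow_left₀ (by positivity) h7 s
    _ = Real.exp (-(s : ℝ)) := h6.symm

private lemma HCT_fix {kp v N M : ℕ} (pos : Fin v → Fin kp) (κ₁ : ℝ) (hκ : 0 < κ₁) (hN : 0 < N)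
    (V : Fin v → Finset (Fin N)) (Vg : Fin kp → Finset (Fin N)) (nn : Fin kp → ℕ)
    (hP : Parts pos κ₁ V Vg nn) (i : Fin v) (Q : Finset (Fin v)) (hQ : ∀ u ∈ Q, pos u ≠ pos i)
    (D : Finset (Fin v → Fin N)) (hD : ∀ x ∈ D, ∀ u ∈ Q, x u ∈ V u)
    (hDd : ∀ x ∈ D, ∀ x' ∈ D, x ≠ x' → ∀ u ∈ Q, x u ≠ x' u)
    (T : Finset ((Fin v → Fin N) × Fin N)) (hT : T ⊆ D ×ˢ V i) :
    (((Finset.univ : Finset (Fin M × Fin kp → Fin N)).filter fun t =>
        ∀ z ∈ T, ∀ u ∈ Q, 0 < pmul t pos (clsL t pos V Vg Finset.univ) u i (z.1 u) z.2).card : ℝ)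
      ≤ (∏ u ∈ Q, (msz N M nn / (((V u).card : ℝ) * ((V i).card : ℝ)))) ^ T.card *
        (Fintype.card (Fin M × Fin kp → Fin N) : ℝ) := by
  have h1 := hcl (kp := kp) (N := N) (M := M) ↥(T ×ˢ Q)
    (fun a => HCT_X pos Vg i a.1.1.1 a.1.1.2 a.1.2) (by
      intro a b hab
      have ha := Finset.mem_product.1 a.2
      have hb := Finset.mem_product.1 b.2
      have ha1 := Finset.mem_product.1 (hT ha.1)
      have hb1 := Finset.mem_product.1 (hT hb.1)
      refine HCT_disj pos κ₁ V Vg nn hP i Q hQ D hD hDd _ _ ha1.1 hb1.1 _ _ _ _ ha.2 hb.2 ?_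
      rintro ⟨h1, h2, h3⟩
      exact hab (Subtype.ext (Prod.ext (Prod.ext h1 h2) h3)))
  refine le_trans ?_ (h1.trans (le_of_eq ?_))
  · have h2 : ((Finset.univ : Finset (Fin M × Fin kp → Fin N)).filter fun t =>
        ∀ z ∈ T, ∀ u ∈ Q, 0 < pmul t pos (clsL t pos V Vg Finset.univ) u i (z.1 u) z.2)
        ⊆ (Finset.univ : Finset (Fin M × Fin kp → Fin N)).filter fun t =>
          ∀ a : ↥(T ×ˢ Q), ∃ j, ∀ c, t (j, c) ∈ HCT_X pos Vg i a.1.1.1 a.1.1.2 a.1.2 c := by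
      intro t ht
      refine Finset.mem_filter.2 ⟨Finset.mem_univ _, fun a => ?_⟩
      have ha := Finset.mem_product.1 a.2
      exact HCT_block t pos V Vg i _ _ _ ((Finset.mem_filter.1 ht).2 _ ha.1 _ ha.2)
    exact_mod_cast Finset.card_le_card h2
  · congr 1
    have h3 : ∀ a : ↥(T ×ˢ Q), ((M : ℝ) *
        ∏ c, (((HCT_X pos Vg i a.1.1.1 a.1.1.2 a.1.2 c).card : ℝ) / (N : ℝ)))
        = msz N M nn / (((V a.1.2).card : ℝ) * ((V i).card : ℝ)) := by
      intro a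
      have ha := Finset.mem_product.1 a.2
      exact HCT_prod pos κ₁ hκ hN V Vg nn hP i _ (hQ _ ha.2) _ _
    rw [Finset.prod_congr rfl fun a _ => h3 a,
      Finset.prod_coe_sort (T ×ˢ Q)
        (fun a => msz N M nn / (((V a.2).card : ℝ) * ((V i).card : ℝ))),
      Finset.prod_product]
    exact Finset.prod_const (s := T)
      (∏ u ∈ Q, (msz N M nn / (((V u).card : ℝ) * ((V i).card : ℝ))))

/-- Upper tail for the total number of common neighbours of a disjoint family of tuples. -/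
theorem hct {kp v N M : ℕ} (pos : Fin v → Fin kp) (κ₁ : ℝ) (hκ : 0 < κ₁) (hN : 0 < N)
    (V : Fin v → Finset (Fin N)) (Vg : Fin kp → Finset (Fin N)) (nn : Fin kp → ℕ)
    (hP : Parts pos κ₁ V Vg nn) (i : Fin v) (Q : Finset (Fin v)) (hQ : ∀ u ∈ Q, pos u ≠ pos i)
    (D : Finset (Fin v → Fin N)) (hD : ∀ x ∈ D, ∀ u ∈ Q, x u ∈ V u)
    (hDd : ∀ x ∈ D, ∀ x' ∈ D, x ≠ x' → ∀ u ∈ Q, x u ≠ x' u) (s : ℕ)
    (hs : 8 * (D.card : ℝ) * (((V i).card : ℝ) *
      ∏ u ∈ Q, (msz N M nn / (((V u).card : ℝ) * ((V i).card : ℝ)))) ≤ (s : ℝ)) :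
    (((Finset.univ : Finset (Fin M × Fin kp → Fin N)).filter fun t =>
        s ≤ ∑ x ∈ D, ((V i).filter fun y => ∀ u ∈ Q,
          0 < pmul t pos (clsL t pos V Vg Finset.univ) u i (x u) y).card).card : ℝ)
      ≤ Real.exp (-(s : ℝ)) * (Fintype.card (Fin M × Fin kp → Fin N) : ℝ) := by
  have hp : 0 ≤ ∏ u ∈ Q, (msz N M nn / (((V u).card : ℝ) * ((V i).card : ℝ))) := by
    refine Finset.prod_nonneg fun u _ => ?_
    unfold msz
    positivity
  have h1 : ((Finset.univ : Finset (Fin M × Fin kp → Fin N)).filter fun t =>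
        s ≤ ∑ x ∈ D, ((V i).filter fun y => ∀ u ∈ Q,
          0 < pmul t pos (clsL t pos V Vg Finset.univ) u i (x u) y).card)
      ⊆ (Finset.powersetCard s (D ×ˢ V i)).biUnion fun T =>
        (Finset.univ : Finset (Fin M × Fin kp → Fin N)).filter fun t =>
          ∀ z ∈ T, ∀ u ∈ Q,
            0 < pmul t pos (clsL t pos V Vg Finset.univ) u i (z.1 u) z.2 := by
    intro t ht
    have ht' := (Finset.mem_filter.1 ht).2
    have h2 : ∑ x ∈ D, ((V i).filter fun y => ∀ u ∈ Q,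
          0 < pmul t pos (clsL t pos V Vg Finset.univ) u i (x u) y).card
        = ((D ×ˢ V i).filter fun z => ∀ u ∈ Q,
          0 < pmul t pos (clsL t pos V Vg Finset.univ) u i (z.1 u) z.2).card := by
      rw [Finset.card_filter, Finset.sum_product]
      refine Finset.sum_congr rfl fun x _ => ?_
      rw [Finset.card_filter]
    rw [h2] at ht'
    obtain ⟨T, hT1, hT2⟩ := Finset.exists_subset_card_eq ht'
    refine Finset.mem_biUnion.2 ⟨T, Finset.mem_powersetCard.2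
      ⟨hT1.trans (Finset.filter_subset _ _), hT2⟩, Finset.mem_filter.2 ⟨Finset.mem_univ _, ?_⟩⟩
    intro z hz
    exact (Finset.mem_filter.1 (hT1 hz)).2
  have h2 : (((Finset.univ : Finset (Fin M × Fin kp → Fin N)).filter fun t =>
        s ≤ ∑ x ∈ D, ((V i).filter fun y => ∀ u ∈ Q,
          0 < pmul t pos (clsL t pos V Vg Finset.univ) u i (x u) y).card).card : ℝ)
      ≤ ∑ T ∈ Finset.powersetCard s (D ×ˢ V i),
        (((Finset.univ : Finset (Fin M × Fin kp → Fin N)).filter fun t =>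
          ∀ z ∈ T, ∀ u ∈ Q,
            0 < pmul t pos (clsL t pos V Vg Finset.univ) u i (z.1 u) z.2).card : ℝ) := by
    have h3 := (Finset.card_le_card h1).trans Finset.card_biUnion_le
    exact_mod_cast h3
  refine h2.trans ?_
  have h4 : ∀ T ∈ Finset.powersetCard s (D ×ˢ V i),
      (((Finset.univ : Finset (Fin M × Fin kp → Fin N)).filter fun t =>
          ∀ z ∈ T, ∀ u ∈ Q,
            0 < pmul t pos (clsL t pos V Vg Finset.univ) u i (z.1 u) z.2).card : ℝ)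
      ≤ (∏ u ∈ Q, (msz N M nn / (((V u).card : ℝ) * ((V i).card : ℝ)))) ^ s *
        (Fintype.card (Fin M × Fin kp → Fin N) : ℝ) := by
    intro T hT
    obtain ⟨hT1, hT2⟩ := Finset.mem_powersetCard.1 hT
    have h5 := HCT_fix (M := M) pos κ₁ hκ hN V Vg nn hP i Q hQ D hD hDd T hT1
    rwa [hT2] at h5
  refine (Finset.sum_le_sum h4).trans ?_
  rw [Finset.sum_const, Finset.card_powersetCard, nsmul_eq_mul, Finset.card_product, ← mul_assoc]
  refine mul_le_mul_of_nonneg_right ?_ (Nat.cast_nonneg _)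
  refine HCT_num _ s _ hp ?_
  push_cast
  calc 8 * ((D.card : ℝ) * ((V i).card : ℝ) *
        ∏ u ∈ Q, (msz N M nn / (((V u).card : ℝ) * ((V i).card : ℝ))))
      = 8 * (D.card : ℝ) * (((V i).card : ℝ) *
        ∏ u ∈ Q, (msz N M nn / (((V u).card : ℝ) * ((V i).card : ℝ)))) := by ring
    _ ≤ (s : ℝ) := hs

end Pool.Agent.CUG
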