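import Pool.Agent.CUG.CNT

set_option autoImplicit false

/-!
# CUG.HVW

Proof. Class sizes: `clsL e` is contained in the set of blocks in a box with sides of sizes `nn a ≥ κ₁N`: `UU`.
Stars `(i, Q)` with `Q ≠ ∅` (for `Q = ∅` nothing is heavy, `Chv ≥ 1`): let `D ⊆ piFinset V` be a maximal set of
tuples `x` with `Heavy .. i Q x` (for `L0`, hence for `L0 = univ`, `clsL_mono`) such that different members
differ at every `u ∈ Q`. `HC`: `h^15 |D| ≤ N`. By maximality every heavy `x ∈ piFinset V` has `x u = x' u` for some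
`u ∈ Q`, `x' ∈ D`. So the sum is at most `∑_{u∈Q} ∑_{x'∈D} Gcnt t pos E (univ.erase u) x'` (`sum_le_gcnt`), and
`Gcnt ≤ h^(a+1)` with `a = 8 al (v-1) - 8 be |E|` by `CR`: for `T ⊆ univ.erase u` let `R = Tᶜ ∋ u`;
`EOK.sparse`: `be |ins E R| + al ≤ al |R|`, `|tch E T| = |E| - |ins E R|`. Total
`≤ dd · (N/h^15) h^(8 al (v-1) - 8 be |E| + 1) = dd h^(-14) h^(8 al v - 8 be |E|) ≤ (1/h) nrm` for `h ≥ h₀`
(`nrm_ge`; only finitely many `E`).
-/

namespace Pool.Agent.CUG

open Pool.Agent.CUB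
open scoped Classical

/-- `mu ≥ 1`. -/
theorem hvw_mu (P : Prm) : 1 ≤ P.mu := by
  by_contra hcon
  have h0 : P.mu = 0 := by omega
  have h1 := P.hmu
  have h2 := P.hdd
  have h3 := P.hd
  have h4 := P.hbe
  rw [h0] at h1
  have h5 : P.be * 1 ≤ P.be * P.dd := Nat.mul_le_mul_left _ h3
  omega

/-- `pmul` is monotone in the classes. -/
theorem hvw_pmul {kp v N M : ℕ} (t : Fin M × Fin kp → Fin N) (pos : Fin v → Fin kp)
    (L L' : Fin v × Fin v → Finset (Fin M)) (h : ∀ e, L e ⊆ L' e) (d d' : Fin v) (a b : Fin N) :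
    pmul t pos L d d' a b ≤ pmul t pos L' d d' a b := by
  unfold pmul
  exact Finset.card_le_card (Finset.filter_subset_filter _ (h _))

/-- Heaviness is monotone in the classes. -/
theorem hvw_heavy {kp v N M : ℕ} (P : Prm) (t : Fin M × Fin kp → Fin N) (pos : Fin v → Fin kp)
    (L L' : Fin v × Fin v → Finset (Fin M)) (h : ∀ e, L e ⊆ L' e) (V : Fin v → Finset (Fin N))
    (m : ℝ) (i : Fin v) (Q : Finset (Fin v)) (x : Fin v → Fin N)
    (hx : Heavy P t pos L V m i Q x) : Heavy P t pos L' V m i Q x := by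
  unfold Heavy at hx ⊢
  refine lt_of_lt_of_le hx ?_
  have h1 : ∑ y ∈ V i, ∏ u ∈ Q, pmul t pos L u i (x u) y
      ≤ ∑ y ∈ V i, ∏ u ∈ Q, pmul t pos L' u i (x u) y := by
    apply Finset.sum_le_sum
    intro y _
    apply Finset.prod_le_prod'
    intro u _
    exact hvw_pmul t pos L L' h u i (x u) y
  exact_mod_cast h1

/-- The class sizes. -/
theorem hvw_size {kp v N M : ℕ} (κ₁ : ℝ) (t : Fin M × Fin kp → Fin N) (pos : Fin v → Fin kp)
    (hUU : UU κ₁ t) (V : Fin v → Finset (Fin N)) (Vg : Fin kp → Finset (Fin N)) (nn : Fin kp → ℕ)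
    (L0 : Finset (Fin M)) (hP : Parts pos κ₁ V Vg nn) (e : Fin v × Fin v) :
    ((clsL t pos V Vg L0 e).card : ℝ) ≤ 8 * msz N M nn := by
  set X : Fin kp → Finset (Fin N) := fun a =>
    if a = pos e.1 then V e.1 else if a = pos e.2 then V e.2 else Vg a with hX
  have hXc : ∀ a, (X a).card = nn a := by
    intro a
    simp only [hX]
    by_cases h1 : a = pos e.1
    · rw [if_pos h1, h1, hP.cV]
    · rw [if_neg h1]
      by_cases h2 : a = pos e.2
      · rw [if_pos h2, h2, hP.cV]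
      · rw [if_neg h2, hP.cg]
  have h1 := hUU X (fun a => by rw [hXc]; exact hP.big a)
  have h2 : clsL t pos V Vg L0 e ⊆ (Finset.univ : Finset (Fin M)).filter
      (fun i => ∀ a, t (i, a) ∈ X a) := by
    intro i hi
    unfold clsL at hi
    by_cases h3 : pos e.1 = pos e.2
    · rw [if_pos h3] at hi
      exact absurd hi (Finset.notMem_empty _)
    · rw [if_neg h3] at hi
      unfold cls at hi
      rw [Finset.mem_filter] at hi ⊢
      exact ⟨Finset.mem_univ _, hi.2⟩
  have h3 : ((clsL t pos V Vg L0 e).card : ℝ) ≤ (((Finset.univ : Finset (Fin M)).filter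
      (fun i => ∀ a, t (i, a) ∈ X a)).card : ℝ) := by
    exact_mod_cast Finset.card_le_card h2
  refine h3.trans (h1.trans (le_of_eq ?_))
  unfold msz
  rw [mul_assoc]
  congr 2
  apply Finset.prod_congr rfl
  intro a _
  rw [hXc]

/-- The edges of `E` not touching `T` lie in the complement. -/
theorem hvw_tch {v : ℕ} (E : Finset (Fin v × Fin v)) (T : Finset (Fin v)) :
    (tch E T).card + (ins E Tᶜ).card = E.card := by
  unfold tch ins
  rw [← Finset.card_filter_add_card_filter_not (s := E) (p := fun e => e.1 ∈ T ∨ e.2 ∈ T)]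
  congr 2
  apply Finset.filter_congr
  intro e _
  rw [Finset.mem_compl, Finset.mem_compl, not_or]

/-- The crude count with one fixed vertex. -/
theorem hvw_gcnt {kp v N M : ℕ} (P : Prm) (h : ℕ) (t : Fin M × Fin kp → Fin N)
    (pos : Fin v → Fin kp) (hCR : CR P h t pos) (E : Finset (Fin v × Fin v)) (hE : EOK P pos E)
    (u : Fin v) (ρ : Fin v → Fin N) :
    8 * P.be * E.card ≤ 8 * P.al * (v - 1) ∧
    Gcnt t pos E (Finset.univ.erase u) ρ ≤ h ^ (8 * P.al * (v - 1) - 8 * P.be * E.card + 1) := by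
  have hv : 1 ≤ v := by
    have := u.2
    omega
  have h0 : 8 * P.be * E.card ≤ 8 * P.al * (v - 1) := by
    have h1 := hE.sparse Finset.univ ⟨u, Finset.mem_univ _⟩
    have h2 : ins E Finset.univ = E := by
      unfold ins
      simp
    rw [h2, Finset.card_univ, Fintype.card_fin] at h1
    obtain ⟨w, rfl⟩ : ∃ w, v = w + 1 := ⟨v - 1, by omega⟩
    rw [Nat.add_sub_cancel]
    have h3 : P.al * (w + 1) = P.al * w + P.al := by ring
    have h4 : P.be * E.card ≤ P.al * w := by omega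
    calc 8 * P.be * E.card = 8 * (P.be * E.card) := by ring
      _ ≤ 8 * (P.al * w) := Nat.mul_le_mul_left _ h4
      _ = 8 * P.al * w := by ring
  refine ⟨h0, ?_⟩
  apply hCR E (Finset.univ.erase u) ρ _ hE.posd
  intro T hT
  have hu : u ∈ Tᶜ := by
    rw [Finset.mem_compl]
    intro hu
    exact (Finset.mem_erase.1 (hT hu)).1 rfl
  have h1 := hE.sparse Tᶜ ⟨u, hu⟩
  have h2 := hvw_tch E T
  have h3 : T.card + Tᶜ.card = v := by
    rw [Finset.card_add_card_compl, Fintype.card_fin]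
  obtain ⟨w, rfl⟩ : ∃ w, v = w + 1 := ⟨v - 1, by omega⟩
  rw [Nat.add_sub_cancel] at h0 ⊢
  set τ := T.card
  set R := Tᶜ.card
  set c := (tch E T).card
  set s := (ins E Tᶜ).card
  have e1 : E.card = c + s := h2.symm
  rw [e1] at h0 ⊢
  have h4 : P.al * τ + P.al * R = P.al * w + P.al := by
    calc P.al * τ + P.al * R = P.al * (τ + R) := by ring
      _ = P.al * (w + 1) := by rw [h3]
      _ = P.al * w + P.al := by ring
  have h5 : P.al * τ + P.be * s ≤ P.al * w := by omega
  have h6 : 8 * P.be * (c + s) = 8 * (P.be * c) + 8 * (P.be * s) := by ring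
  have h7 : 8 * P.al * w = 8 * (P.al * w) := by ring
  have h8 : 8 * P.al * τ = 8 * (P.al * τ) := by ring
  have h9 : 8 * P.be * c = 8 * (P.be * c) := by ring
  rw [h6, h7] at h0
  rw [h6, h7, h8, h9]
  omega

/-- A maximal family of heavy tuples. -/
theorem hvw_max {v N : ℕ} (Z : Finset (Fin v → Fin N)) (Q : Finset (Fin v)) (hQ : Q.Nonempty) :
    ∃ D ⊆ Z, (∀ x ∈ D, ∀ x' ∈ D, x ≠ x' → ∀ u ∈ Q, x u ≠ x' u) ∧
      ∀ x ∈ Z, ∃ x' ∈ D, ∃ u ∈ Q, x u = x' u := by
  set 𝒟 : Finset (Finset (Fin v → Fin N)) := Z.powerset.filter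
    (fun D => ∀ x ∈ D, ∀ x' ∈ D, x ≠ x' → ∀ u ∈ Q, x u ≠ x' u) with h𝒟
  have hne : 𝒟.Nonempty := by
    refine ⟨∅, ?_⟩
    rw [h𝒟, Finset.mem_filter]
    exact ⟨Finset.empty_mem_powerset _, fun x hx => absurd hx (Finset.notMem_empty _)⟩
  obtain ⟨D, hD, hmax⟩ := Finset.exists_max_image 𝒟 Finset.card hne
  rw [h𝒟, Finset.mem_filter, Finset.mem_powerset] at hD
  refine ⟨D, hD.1, hD.2, ?_⟩
  intro x hx
  by_contra hcon
  push Not at hcon
  have hxD : x ∉ D := by
    intro hxD
    obtain ⟨u, hu⟩ := hQ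
    exact hcon x hxD u hu rfl
  have h1 : insert x D ∈ 𝒟 := by
    rw [h𝒟, Finset.mem_filter, Finset.mem_powerset]
    refine ⟨Finset.insert_subset hx hD.1, ?_⟩
    intro y hy y' hy' hne' u hu
    rw [Finset.mem_insert] at hy hy'
    rcases hy with rfl | hy
    · rcases hy' with rfl | hy'
      · exact absurd rfl hne'
      · exact hcon y' hy' u hu
    · rcases hy' with rfl | hy'
      · exact (hcon y hy u hu).symm
      · exact hD.2 y hy y' hy' hne' u hu
  have h2 := hmax _ h1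
  rw [Finset.card_insert_of_notMem hxD] at h2
  omega

/-- Sums over a finite union are at most the sum of the sums. -/
theorem hvw_biU {ι α : Type*} [DecidableEq ι] [DecidableEq α] (s : Finset ι) (t : ι → Finset α)
    (f : α → ℕ) : ∑ x ∈ s.biUnion t, f x ≤ ∑ i ∈ s, ∑ x ∈ t i, f x := by
  induction s using Finset.induction_on with
  | empty => simp
  | insert a s ha ih =>
    rw [Finset.biUnion_insert, Finset.sum_insert ha]
    have h := Finset.sum_union_inter (s₁ := t a) (s₂ := s.biUnion t) (f := f)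
    omega

/-- Heavy stars of an admissible pattern carry little weight. -/
theorem hw_of {kp : ℕ} (P : Prm) (v : ℕ) (pos : Fin v → Fin kp) (κ₁ : ℝ) (hκ : 0 < κ₁) :
    ∃ h₀ : ℕ, ∀ h ≥ h₀, ∀ N M : ℕ, N = h ^ (8 * P.al) → M = h ^ (8 * P.ga) →
    ∀ t : Fin M × Fin kp → Fin N, CR P h t pos → HC P h κ₁ t pos → UU κ₁ t →
    ∀ (V : Fin v → Finset (Fin N)) (Vg : Fin kp → Finset (Fin N)) (nn : Fin kp → ℕ)
      (L0 : Finset (Fin M)), Parts pos κ₁ V Vg nn → ∀ E : Finset (Fin v × Fin v), EOK P pos E →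
      HW P h t pos (clsL t pos V Vg L0) V (msz N M nn) E := by
  set κm : ℝ := min κ₁ 1 with hκm
  have hκ0 : 0 < κm := lt_min hκ one_pos
  have hκ1 : κm ≤ 1 := min_le_right _ _
  have hκ2 : κm ≤ κ₁ := min_le_left _ _
  obtain ⟨h₁, hh₁⟩ := exists_nat_ge ((P.dd : ℝ) / κm ^ (v + kp * (v * v)))
  refine ⟨max h₁ 1, ?_⟩
  intro h hh N M hN hM t hCR hHC hUU V Vg nn L0 hP E hE
  have h1 : 1 ≤ h := (le_max_right _ _).trans hh
  have hh1 : h₁ ≤ h := (le_max_left _ _).trans hh
  have hhp : (0 : ℝ) < h := by exact_mod_cast h1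
  have hhr : (1 : ℝ) ≤ h := by exact_mod_cast h1
  refine ⟨fun e _ => hvw_size κ₁ t pos hUU V Vg nn L0 hP e, ?_⟩
  intro i Q hQc hQE
  have hL1 : ∀ e, clsL t pos V Vg L0 e ⊆ clsL t pos V Vg Finset.univ e :=
    fun e => clsL_mono t pos V Vg L0 Finset.univ (Finset.subset_univ _) e
  have hdis : ∀ e ∈ E, ∀ e' ∈ E, e ≠ e' →
      Disjoint (clsL t pos V Vg L0 e) (clsL t pos V Vg L0 e') := by
    intro e he e' he' hne
    apply clsL_disj t pos κ₁ V Vg nn hP L0 e e' hne
    intro hcon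
    apply hE.simp e' he'
    rw [← hcon]
    exact he
  have hnrm := nrm_ge (v := v) (pos := pos) P h h1 hN hM hP hκ E
  have hnrm0 : 0 ≤ nrm V (msz N M nn) E := by
    refine le_trans ?_ hnrm
    positivity
  rcases Q.eq_empty_or_nonempty with rfl | hQ
  · -- no heavy tuples
    have hz : (Fintype.piFinset V).filter
        (fun x => Heavy P t pos (clsL t pos V Vg L0) V (msz N M nn) i ∅ x) = ∅ := by
      apply Finset.filter_false_of_mem
      intro x _ hx
      unfold Heavy at hx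
      simp only [Finset.prod_empty, mul_one, Finset.sum_const, smul_eq_mul] at hx
      have h2 : (1 : ℝ) ≤ Chv P := by
        unfold Chv
        have h3 : (1 : ℝ) ≤ (P.mu : ℝ) := by exact_mod_cast hvw_mu P
        have h4 : (1 : ℝ) ≤ (P.mu : ℝ) ^ P.dd := one_le_pow₀ h3
        linarith
      have h5 : (0 : ℝ) ≤ ((V i).card : ℝ) := Nat.cast_nonneg _
      nlinarith
    rw [hz, Finset.sum_empty, Nat.cast_zero]
    positivity
  · obtain ⟨D, hDZ, hDd, hDm⟩ := hvw_max ((Fintype.piFinset V).filter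
      (fun x => Heavy P t pos (clsL t pos V Vg L0) V (msz N M nn) i Q x)) Q hQ
    have hQp : ∀ u ∈ Q, pos u ≠ pos i := by
      intro u hu
      rcases hQE u hu with h2 | h2
      · exact hE.posd _ h2
      · exact (hE.posd _ h2).symm
    have hDc : h ^ 15 * D.card ≤ N := by
      apply hHC V Vg nn hP i Q hQc hQp D
      · intro x hx u _
        have := (Finset.mem_filter.1 (hDZ hx)).1
        exact Fintype.mem_piFinset.1 this u
      · exact hDd
      · intro x hx
        have := (Finset.mem_filter.1 (hDZ hx)).2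
        exact hvw_heavy P t pos _ _ hL1 V _ i Q x this
    set a : ℕ := 8 * P.al * (v - 1) - 8 * P.be * E.card with ha
    have hsum : ∑ x ∈ (Fintype.piFinset V).filter
        (fun x => Heavy P t pos (clsL t pos V Vg L0) V (msz N M nn) i Q x),
        ∏ e ∈ E, mm t pos (clsL t pos V Vg L0) e x ≤ D.card * (P.dd * h ^ (a + 1)) := by
      have h2 : (Fintype.piFinset V).filter
          (fun x => Heavy P t pos (clsL t pos V Vg L0) V (msz N M nn) i Q x)
          ⊆ D.biUnion fun x' => Q.biUnion fun u =>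
            (Fintype.piFinset V).filter (fun x => x u = x' u) := by
        intro x hx
        obtain ⟨x', hx', u, hu, hxu⟩ := hDm x hx
        rw [Finset.mem_biUnion]
        refine ⟨x', hx', ?_⟩
        rw [Finset.mem_biUnion]
        exact ⟨u, hu, Finset.mem_filter.2 ⟨(Finset.mem_filter.1 hx).1, hxu⟩⟩
      refine (Finset.sum_le_sum_of_subset h2).trans ?_
      refine (hvw_biU _ _ _).trans ?_
      rw [← smul_eq_mul]
      apply Finset.sum_le_card_nsmul
      intro x' _
      refine (hvw_biU _ _ _).trans ?_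
      have h3 : ∑ u ∈ Q, ∑ x ∈ (Fintype.piFinset V).filter (fun x => x u = x' u),
          ∏ e ∈ E, mm t pos (clsL t pos V Vg L0) e x ≤ Q.card • h ^ (a + 1) := by
        apply Finset.sum_le_card_nsmul
        intro u _
        refine (sum_le_gcnt t pos (clsL t pos V Vg L0) E hdis V u x').trans ?_
        exact (hvw_gcnt P h t pos hCR E hE u x').2
      refine h3.trans ?_
      rw [smul_eq_mul]
      exact Nat.mul_le_mul_right _ hQc
    -- numbers
    obtain ⟨u₀, _⟩ := hQ
    have hv1 : 1 ≤ v := by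
      have := u₀.2
      omega
    have hbe := (hvw_gcnt P h t pos hCR E hE u₀ (D.toList.headD (fun _ => ?_))).1
    · have hexp : 8 * P.al + (a + 1) + 8 * P.be * E.card = 8 * P.al * v + 1 := by
        obtain ⟨w, rfl⟩ : ∃ w, v = w + 1 := ⟨v - 1, by omega⟩
        rw [Nat.add_sub_cancel] at ha hbe
        rw [ha]
        have : 8 * P.al * (w + 1) = 8 * P.al * w + 8 * P.al := by ring
        rw [this]
        omega
      have hD' : (h : ℝ) ^ 15 * (D.card : ℝ) ≤ (h : ℝ) ^ (8 * P.al) := by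
        have hNr : (N : ℝ) = (h : ℝ) ^ (8 * P.al) := by
          have h0 := congrArg (Nat.cast (R := ℝ)) hN
          rw [h0]
          push_cast
          rfl
        have : ((h ^ 15 * D.card : ℕ) : ℝ) ≤ (N : ℝ) := by exact_mod_cast hDc
        push_cast at this
        exact this.trans (le_of_eq hNr)
      have hs' : ((∑ x ∈ (Fintype.piFinset V).filter
          (fun x => Heavy P t pos (clsL t pos V Vg L0) V (msz N M nn) i Q x),
          ∏ e ∈ E, mm t pos (clsL t pos V Vg L0) e x : ℕ) : ℝ)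
          ≤ (D.card : ℝ) * ((P.dd : ℝ) * (h : ℝ) ^ (a + 1)) := by
        have : ((∑ x ∈ (Fintype.piFinset V).filter
          (fun x => Heavy P t pos (clsL t pos V Vg L0) V (msz N M nn) i Q x),
          ∏ e ∈ E, mm t pos (clsL t pos V Vg L0) e x : ℕ) : ℝ)
          ≤ ((D.card * (P.dd * h ^ (a + 1)) : ℕ) : ℝ) := by exact_mod_cast hsum
        push_cast at this ⊢
        exact this
      refine hs'.trans ?_
      have hB0 : (0 : ℝ) < (h : ℝ) ^ (8 * P.be * E.card) := by positivity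
      have hk : κm ^ (v + kp * (v * v)) ≤ κ₁ ^ (v + kp * E.card) := by
        have hEc : E.card ≤ v * v := by
          have := Finset.card_le_univ E
          rwa [Fintype.card_prod, Fintype.card_fin] at this
        calc κm ^ (v + kp * (v * v)) ≤ κm ^ (v + kp * E.card) :=
              pow_le_pow_of_le_one hκ0.le hκ1
                (Nat.add_le_add_left (Nat.mul_le_mul_left _ hEc) _)
          _ ≤ κ₁ ^ (v + kp * E.card) := pow_le_pow_left₀ hκ0.le hκ2 _
      have hdd : (P.dd : ℝ) ≤ κ₁ ^ (v + kp * E.card) * h ^ 13 := by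
        have h2 : (P.dd : ℝ) / κm ^ (v + kp * (v * v)) ≤ h := by
          refine hh₁.trans ?_
          exact_mod_cast hh1
        rw [div_le_iff₀ (by positivity)] at h2
        have h3 : (h : ℝ) ≤ (h : ℝ) ^ 13 := by
          calc (h : ℝ) = (h : ℝ) ^ 1 := (pow_one _).symm
            _ ≤ (h : ℝ) ^ 13 := pow_le_pow_right₀ hhr (by norm_num)
        calc (P.dd : ℝ) ≤ h * κm ^ (v + kp * (v * v)) := h2
          _ ≤ (h : ℝ) ^ 13 * κ₁ ^ (v + kp * E.card) :=
              mul_le_mul h3 hk (by positivity) (by positivity)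
          _ = κ₁ ^ (v + kp * E.card) * h ^ 13 := mul_comm _ _
      -- multiply everything by h ^ 15 and h ^ (8 be |E|)
      have key : (h : ℝ) ^ 15 * ((D.card : ℝ) * ((P.dd : ℝ) * (h : ℝ) ^ (a + 1)))
            * (h : ℝ) ^ (8 * P.be * E.card)
          ≤ (P.dd : ℝ) * ((h : ℝ) ^ (8 * P.al * v) * h) := by
        have e1 : (h : ℝ) ^ (8 * P.al) * (h : ℝ) ^ (a + 1) * (h : ℝ) ^ (8 * P.be * E.card)
            = (h : ℝ) ^ (8 * P.al * v) * h := by
          rw [← pow_add, ← pow_add, hexp, pow_succ]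
        calc (h : ℝ) ^ 15 * ((D.card : ℝ) * ((P.dd : ℝ) * (h : ℝ) ^ (a + 1)))
              * (h : ℝ) ^ (8 * P.be * E.card)
            = ((h : ℝ) ^ 15 * (D.card : ℝ)) * ((P.dd : ℝ) * (h : ℝ) ^ (a + 1)
              * (h : ℝ) ^ (8 * P.be * E.card)) := by ring
          _ ≤ (h : ℝ) ^ (8 * P.al) * ((P.dd : ℝ) * (h : ℝ) ^ (a + 1)
              * (h : ℝ) ^ (8 * P.be * E.card)) := mul_le_mul_of_nonneg_right hD' (by positivity)
          _ = (P.dd : ℝ) * ((h : ℝ) ^ (8 * P.al) * (h : ℝ) ^ (a + 1)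
              * (h : ℝ) ^ (8 * P.be * E.card)) := by ring
          _ = _ := by rw [e1]
      have hfin : (D.card : ℝ) * ((P.dd : ℝ) * (h : ℝ) ^ (a + 1))
          ≤ 1 / (h : ℝ) * (κ₁ ^ (v + kp * E.card) *
            ((h : ℝ) ^ (8 * P.al * v) / (h : ℝ) ^ (8 * P.be * E.card))) := by
        have e2 : 1 / (h : ℝ) * (κ₁ ^ (v + kp * E.card) *
            ((h : ℝ) ^ (8 * P.al * v) / (h : ℝ) ^ (8 * P.be * E.card)))
            = (κ₁ ^ (v + kp * E.card) * (h : ℝ) ^ 13) * ((h : ℝ) ^ (8 * P.al * v) * h)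
              / ((h : ℝ) ^ 15 * (h : ℝ) ^ (8 * P.be * E.card)) := by
          field_simp
        rw [e2, le_div_iff₀ (by positivity)]
        calc (D.card : ℝ) * ((P.dd : ℝ) * (h : ℝ) ^ (a + 1))
              * ((h : ℝ) ^ 15 * (h : ℝ) ^ (8 * P.be * E.card))
            = (h : ℝ) ^ 15 * ((D.card : ℝ) * ((P.dd : ℝ) * (h : ℝ) ^ (a + 1)))
              * (h : ℝ) ^ (8 * P.be * E.card) := by ring
          _ ≤ (P.dd : ℝ) * ((h : ℝ) ^ (8 * P.al * v) * h) := key
          _ ≤ (κ₁ ^ (v + kp * E.card) * (h : ℝ) ^ 13) * ((h : ℝ) ^ (8 * P.al * v) * h) :=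
              mul_le_mul_of_nonneg_right hdd (by positivity)
      exact hfin.trans (mul_le_mul_of_nonneg_left hnrm (by positivity))
    · -- an element of Fin N
      have hNpos : 0 < N := by
        rw [hN]
        positivity
      exact ⟨0, hNpos⟩

end Pool.Agent.CUG
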