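import Pool.Agent.CUG.PAT
import Pool.Agent.CUG.EOK
import Pool.Agent.CUG.EDG

set_option autoImplicit false

/-!
# CUG.INS

Adapt CUB/INS.lean. enw: sort `Uᶜ` by `stg`. `par j = {i : H.Adj (e i) (e j) ∧ stg (e i) < stg (e j)}`; `cl j` = the smallest
set containing `j` and closed under `par` = the `i` such that there is a chain of `par`-steps from `j` down to `i`
(stages decrease strictly, so chains have length `< Ds`): e.g. iterate `A ↦ A ∪ ⋃_{a∈A} par a` `Ds` times. Every
`i ∈ cl j` is joined to `j` by a walk of length `≤ Ds` in `H`. `A i` = union of the `cl` of the indices of the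
vertices outside `U` adjacent to `Q i`. `Rd = 4 (Ds + tp + 2)`, `J = (dd+2)^(2 Ds + 2 tp + 6) · (tp + 1)` or any bound for the number
of vertices within distance `Ds + tp + 1` of a set of `tp` vertices (walks: `≤ (dd+2)^length`), resp. for `A_cnt`, `cl_cnt`.
Injectivity and disjointness: by the distance condition (two vertices of `A i`, `cl j`; `A_disj`: equal types in
`B i`, `B i'` mean vertices of `Q i`, `Q i'` at distance `> Rd`; within a piece the distance is `< tp`).
`cl_ok`, `A_ok`: `eok_gen` for `H` and the vertex set `e '' cl j` (peel from `Decomp.peel`, `Simp` and `PosD`: the edges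
`(ty (e i), ty (e j))`, `i ∈ par j`, have `st` increasing). `star_adm`: `star_pat` (`Decomp.par`, injectivity).
`adm`: `pat`. `BA`: `U`-status. `FA`: an edge of `patF` has an end in `Q i`, the other end is in `Q i` (`adjU`, `dis`) or
outside `U`, hence in `e '' A i`.
-/

namespace Pool.Agent.CUG

open Pool.Agent.CUB
open scoped Classical

/-- Enumeration by stages. -/
theorem enw {X : Type} [Fintype X] (U : Finset X) (stg : X → ℕ) :
    ∃ (n : ℕ) (e : Fin n → X), Function.Injective e ∧ (∀ x, x ∉ U ↔ ∃ j, e j = x) ∧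
      ∀ i j, stg (e i) < stg (e j) → i < j := by
  obtain ⟨n, ⟨e0⟩⟩ : ∃ n, Nonempty (Fin n ≃ {x : X // x ∉ U}) :=
    ⟨_, ⟨(Fintype.equivFin {x : X // x ∉ U}).symm⟩⟩
  have hm : Monotone ((fun i => stg (e0 i).1) ∘ Tuple.sort (fun i => stg (e0 i).1)) :=
    Tuple.monotone_sort _
  generalize hs : Tuple.sort (fun i => stg (e0 i).1) = σ at hm
  have hinj : Function.Injective fun j => (e0 (σ j)).1 := by
    intro a b h
    exact σ.injective (e0.injective (Subtype.ext h))
  refine ⟨n, fun j => (e0 (σ j)).1, hinj, ?_, ?_⟩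
  · intro x
    constructor
    · intro hx
      exact ⟨σ.symm (e0.symm ⟨x, hx⟩), by simp⟩
    · rintro ⟨j, rfl⟩
      exact (e0 (σ j)).2
  · intro i j hij
    by_contra hlt
    have h3 := hm (not_lt.1 hlt)
    exact absurd hij (not_lt.2 h3)

/-- Joined by a walk of length at most `k`. -/
def INS_R {X : Type} (H : SimpleGraph X) (k : ℕ) (u w : X) : Prop :=
  ∃ p : H.Walk u w, p.length ≤ k

theorem INS_refl {X : Type} {H : SimpleGraph X} (k : ℕ) (u : X) : INS_R H k u u :=
  ⟨SimpleGraph.Walk.nil, by simp⟩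

theorem INS_symm {X : Type} {H : SimpleGraph X} {k : ℕ} {u w : X} (h : INS_R H k u w) :
    INS_R H k w u := by
  obtain ⟨p, hp⟩ := h
  exact ⟨p.reverse, by simpa using hp⟩

theorem INS_trans {X : Type} {H : SimpleGraph X} {k l : ℕ} {u v w : X} (h : INS_R H k u v)
    (h' : INS_R H l v w) : INS_R H (k + l) u w := by
  obtain ⟨p, hp⟩ := h
  obtain ⟨q, hq⟩ := h'
  exact ⟨p.append q, by rw [SimpleGraph.Walk.length_append]; omega⟩

theorem INS_mono {X : Type} {H : SimpleGraph X} {k l : ℕ} {u v : X} (h : INS_R H k u v)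
    (hkl : k ≤ l) : INS_R H l u v := by
  obtain ⟨p, hp⟩ := h
  exact ⟨p, hp.trans hkl⟩

theorem INS_adj {X : Type} {H : SimpleGraph X} {u v : X} (h : H.Adj u v) : INS_R H 1 u v :=
  ⟨SimpleGraph.Walk.cons h SimpleGraph.Walk.nil, by simp⟩

/-- ball sizes -/
def INS_b (d : ℕ) : ℕ → ℕ
  | 0 => 1
  | k + 1 => 1 + (d + 1) * INS_b d k

theorem INS_b_mono (d : ℕ) : Monotone (INS_b d) := by
  refine monotone_nat_of_le_succ fun k => ?_
  have h : INS_b d (k + 1) = 1 + (d + 1) * INS_b d k := rfl
  rw [h]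
  have : (d + 1) * INS_b d k = d * INS_b d k + INS_b d k := by ring
  omega

theorem INS_nb {X : Type} [Fintype X] (H : SimpleGraph X) (d : ℕ)
    (hdeg : ∀ x, (H.neighborSet x).ncard ≤ d + 1) (x : X) :
    (Finset.univ.filter fun y => H.Adj x y).card ≤ d + 1 := by
  have h := hdeg x
  rwa [show H.neighborSet x = ((Finset.univ.filter fun y => H.Adj x y : Finset X) : Set X) by
    ext y; simp, Set.ncard_coe_finset] at h

theorem INS_ball {X : Type} [Fintype X] (H : SimpleGraph X) (d : ℕ)
    (hdeg : ∀ x, (H.neighborSet x).ncard ≤ d + 1) (k : ℕ) :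
    ∀ x, (Finset.univ.filter fun y => INS_R H k x y).card ≤ INS_b d k := by
  induction k with
  | zero =>
    intro x
    have : (Finset.univ.filter fun y => INS_R H 0 x y) ⊆ {x} := by
      intro y hy
      obtain ⟨p, hp⟩ := (Finset.mem_filter.1 hy).2
      have := SimpleGraph.Walk.eq_of_length_eq_zero (Nat.le_zero.1 hp)
      exact Finset.mem_singleton.2 this.symm
    exact (Finset.card_le_card this).trans (by simp [INS_b])
  | succ k ih =>
    intro x
    have hsub : (Finset.univ.filter fun y => INS_R H (k + 1) x y) ⊆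
        insert x ((Finset.univ.filter fun y => H.Adj x y).biUnion
          fun z => Finset.univ.filter fun y => INS_R H k z y) := by
      intro y hy
      obtain ⟨p, hp⟩ := (Finset.mem_filter.1 hy).2
      cases p with
      | nil => exact Finset.mem_insert_self _ _
      | @cons _ z _ h q =>
        refine Finset.mem_insert_of_mem (Finset.mem_biUnion.2 ⟨z, ?_, ?_⟩)
        · exact Finset.mem_filter.2 ⟨Finset.mem_univ _, h⟩
        · refine Finset.mem_filter.2 ⟨Finset.mem_univ _, q, ?_⟩
          rw [SimpleGraph.Walk.length_cons] at hp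
          omega
    refine (Finset.card_le_card hsub).trans ((Finset.card_insert_le _ _).trans ?_)
    have h1 : ((Finset.univ.filter fun y => H.Adj x y).biUnion
          fun z => Finset.univ.filter fun y => INS_R H k z y).card ≤
          (Finset.univ.filter fun y => H.Adj x y).card * INS_b d k :=
      Finset.card_biUnion_le_card_mul _ _ _ (fun z _ => ih z)
    have h2 := INS_nb H d hdeg x
    have h3 : (Finset.univ.filter fun y => H.Adj x y).card * INS_b d k ≤ (d + 1) * INS_b d k :=
      Nat.mul_le_mul_right _ h2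
    have h4 : INS_b d (k + 1) = 1 + (d + 1) * INS_b d k := rfl
    omega

/-- The embedding instance of a decomposed and typed graph. -/
theorem inst_of_decomp (P : Prm) (hd2 : 2 ≤ P.dd) (tp Ds : ℕ) : ∃ J Rd : ℕ,
    ∀ {v kp : ℕ} (pos : Fin v → Fin kp) (st : Fin v → ℕ) {X : Type} [Fintype X]
      (H : SimpleGraph X) (_ : ∀ x, (H.neighborSet x).ncard ≤ P.dd + 1)
      (_ : KFree (P.dd + 2) H) (U : Finset X) (stg : X → ℕ) (q : ℕ) (Q : Fin q → Finset X)
      (_ : Decomp P H tp Ds U stg q Q) (ty : X → Fin v)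
      (_ : ∀ u w, H.Adj u w → pos (ty u) ≠ pos (ty w))
      (_ : ∀ u w, u ≠ w → (∃ p : H.Walk u w, p.length ≤ Rd) → ty u ≠ ty w)
      (_ : ∀ u w, ty u = ty w → (u ∈ U ↔ w ∈ U)) (_ : ∀ x, st (ty x) = stg x),
    ∃ (n : ℕ) (e : Fin n → X) (par cl : Fin n → Finset (Fin n))
      (A : Fin q → Finset (Fin n)), Function.Injective e ∧ (∀ x, x ∉ U ↔ ∃ j, e j = x) ∧
      (∀ j i, i ∈ par j ↔ H.Adj (e i) (e j) ∧ stg (e i) < stg (e j)) ∧
      (∀ i, ∀ u ∈ Q i, ∀ w, w ∉ U → H.Adj u w → ∃ j ∈ A i, e j = w) ∧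
      Inst P J Ds pos st (fun j => ty (e j)) par cl (fun i => patF H ty (Q i))
        (fun i => (Q i).image ty) A := by
  refine ⟨INS_b P.dd (tp + Ds + 1), 2 * Ds + 2 * tp + 2, ?_⟩
  intro v kp pos st X _ H hdeg hK U stg q Q hD ty hT1 hT2 hT3 hT4
  obtain ⟨n, e, hinj, hmem, hord⟩ := enw U stg
  have hU : ∀ j, e j ∉ U := fun j => (hmem (e j)).2 ⟨j, rfl⟩
  set par : Fin n → Finset (Fin n) := fun j => Finset.univ.filter fun i =>
    H.Adj (e i) (e j) ∧ stg (e i) < stg (e j) with hpar
  have hparm : ∀ j i, i ∈ par j ↔ H.Adj (e i) (e j) ∧ stg (e i) < stg (e j) := by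
    intro j i
    simp [hpar]
  set cl : Fin n → Finset (Fin n) := fun j => Finset.univ.filter fun i =>
    Relation.ReflTransGen (fun a b => a ∈ par b) i j with hcl
  have hclm : ∀ j i, i ∈ cl j ↔ Relation.ReflTransGen (fun a b => a ∈ par b) i j := by
    intro j i
    simp [hcl]
  have hself : ∀ j, j ∈ cl j := fun j => (hclm j j).2 Relation.ReflTransGen.refl
  have hclpar : ∀ j, ∀ i ∈ cl j, par i ⊆ cl j := by
    intro j i hi a ha
    exact (hclm j a).2 (Relation.ReflTransGen.head ha ((hclm j i).1 hi))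
  -- chains give short walks
  have hchain : ∀ i j, Relation.ReflTransGen (fun a b => a ∈ par b) i j →
      stg (e i) ≤ stg (e j) ∧ INS_R H (stg (e j) - stg (e i)) (e i) (e j) ∧ i ≤ j ∧
        (i ≠ j → stg (e i) < stg (e j)) := by
    intro i j h
    induction h using Relation.ReflTransGen.head_induction_on with
    | refl => exact ⟨le_rfl, INS_refl _ _, le_rfl, fun h => absurd rfl h⟩
    | @head a b hab _ ih =>
      obtain ⟨h1, h2⟩ := (hparm b a).1 hab
      obtain ⟨h3, h4, h5, _⟩ := ih
      refine ⟨by omega, INS_mono (INS_trans (INS_adj h1) h4) ?_, (hord a b h2).le.trans h5,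
        fun _ => by omega⟩
      omega
  have hstl := hD.stl
  have hRD : ∀ j, ∀ i ∈ cl j, INS_R H Ds (e i) (e j) := by
    intro j i hi
    have h1 := (hchain i j ((hclm j i).1 hi)).2.1
    have h2 := hstl (e j)
    exact INS_mono h1 (by omega)
  have hT : ∀ (k : ℕ) (u w : X), INS_R H k u w → k ≤ 2 * Ds + 2 * tp + 2 → ty u = ty w →
      u = w := by
    intro k u w h hk ht
    by_contra hne
    exact hT2 u w hne (INS_mono h hk) ht
  -- the pieces
  have hQt : ∀ i, ∀ a ∈ Q i, ∀ b ∈ Q i, INS_R H tp a b := by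
    intro i a ha b hb
    obtain ⟨w⟩ := (hD.conn i).preconnected ⟨a, Finset.mem_coe.2 ha⟩ ⟨b, Finset.mem_coe.2 hb⟩
    have hp := w.bypass_isPath
    have hl := hp.length_lt
    have hc : Fintype.card ((Q i : Set X) : Type) = (Q i).card := by
      simp
    have h8 := hD.hi i
    have hle : w.bypass.length ≤ tp := by omega
    have hlm := SimpleGraph.Walk.length_map (f := (SimpleGraph.Embedding.induce (Q i : Set X) :
      H.induce (Q i : Set X) ↪g H).toHom) (p := w.bypass)
    exact ⟨w.bypass.map (SimpleGraph.Embedding.induce (Q i : Set X)).toHom, hlm.le.trans hle⟩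
  set A : Fin q → Finset (Fin n) := fun i => Finset.univ.filter fun j' =>
    ∃ j, j' ∈ cl j ∧ ∃ u ∈ Q i, H.Adj u (e j) with hAdef
  have hAm : ∀ i j', j' ∈ A i ↔ ∃ j, j' ∈ cl j ∧ ∃ u ∈ Q i, H.Adj u (e j) := by
    intro i j'
    simp [hAdef]
  have hA4 : ∀ i, ∀ j' ∈ A i, ∃ u ∈ Q i, INS_R H (Ds + 1) u (e j') := by
    intro i j' hj'
    obtain ⟨j, hj, u, hu, huj⟩ := (hAm i j').1 hj'
    exact ⟨u, hu, INS_mono (INS_trans (INS_adj huj) (INS_symm (hRD j j' hj))) (by omega)⟩
  have hAinj : ∀ i, Set.InjOn (fun j => ty (e j)) (A i : Set (Fin n)) := by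
    intro i j1 hj1 j2 hj2 ht
    obtain ⟨u, hu, h1⟩ := hA4 i j1 (Finset.mem_coe.1 hj1)
    obtain ⟨w, hw, h2⟩ := hA4 i j2 (Finset.mem_coe.1 hj2)
    exact hinj (hT _ _ _ (INS_trans (INS_symm h1) (INS_trans (hQt i u hu w hw) h2)) (by omega) ht)
  have hclinj : ∀ j, Set.InjOn (fun j => ty (e j)) (cl j : Set (Fin n)) := by
    intro j i hi i' hi' h
    have h1 := hRD j i (Finset.mem_coe.1 hi)
    have h2 := hRD j i' (Finset.mem_coe.1 hi')
    exact hinj (hT _ _ _ (INS_trans h1 (INS_symm h2)) (by omega) h)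
  have hparcard : ∀ j, (par j).card ≤ P.dd := by
    intro j
    refine le_trans ?_ (hD.par (e j) (hU j))
    rw [← Finset.card_image_of_injective _ hinj]
    refine Finset.card_le_card ?_
    intro y hy
    obtain ⟨i, hi, rfl⟩ := Finset.mem_image.1 hy
    obtain ⟨h1, h2⟩ := (hparm j i).1 hi
    exact Finset.mem_filter.2 ⟨Finset.mem_univ _, hU i, h1.symm, h2⟩
  -- admissibility of closed sets
  have hok : ∀ C : Finset (Fin n), Set.InjOn (fun j => ty (e j)) (C : Set (Fin n)) →
      (∀ j ∈ C, par j ⊆ C) → EOK P pos (edg (fun j => ty (e j)) par C) := by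
    intro C hCinj hCpar
    refine eok_gen P hd2 H hdeg hK pos ty (C.image e) ?_ ?_ _ ?_ ?_ ?_
    · intro a ha b hb h
      obtain ⟨i, hi, rfl⟩ := Finset.mem_image.1 (Finset.mem_coe.1 ha)
      obtain ⟨j, hj, rfl⟩ := Finset.mem_image.1 (Finset.mem_coe.1 hb)
      rw [hCinj (Finset.mem_coe.2 hi) (Finset.mem_coe.2 hj) h]
    · intro a ha b hb hab R hR hRA haR hbR
      obtain ⟨i, hi, rfl⟩ := Finset.mem_image.1 ha
      obtain ⟨j, hj, rfl⟩ := Finset.mem_image.1 hb
      refine hD.peel (e i) (e j) (hU i) (hU j) hab R hR ?_ haR hbR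
      intro x hx
      obtain ⟨k, _, rfl⟩ := Finset.mem_image.1 (hRA hx)
      exact hU k
    · intro f hf
      obtain ⟨j, hj, i, hi, rfl⟩ := (edg_mem _ _ _ _).1 hf
      exact ⟨e i, Finset.mem_image_of_mem e (hCpar j hj hi), e j, Finset.mem_image_of_mem e hj,
        ((hparm j i).1 hi).1, rfl, rfl⟩
    · intro f hf
      obtain ⟨j, hj, i, hi, rfl⟩ := (edg_mem _ _ _ _).1 hf
      exact hT1 _ _ ((hparm j i).1 hi).1
    · intro f hf hf'
      obtain ⟨j, hj, i, hi, rfl⟩ := (edg_mem _ _ _ _).1 hf
      obtain ⟨j', hj', i', hi', heq⟩ := (edg_mem _ _ _ _).1 hf'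
      have h1 := ((hparm j i).1 hi).2
      have h2 := ((hparm j' i').1 hi').2
      have h3 : ty (e j) = ty (e i') := congrArg Prod.fst heq
      have h4 : ty (e i) = ty (e j') := congrArg Prod.snd heq
      have h5 := congrArg st h3
      have h6 := congrArg st h4
      rw [hT4, hT4] at h5 h6
      omega
  have hJ : ∀ k, k ≤ tp + Ds + 1 → ∀ x, (Finset.univ.filter fun y => INS_R H k x y).card ≤
      INS_b P.dd (tp + Ds + 1) := fun k hk x =>
    (INS_ball H P.dd hdeg k x).trans (INS_b_mono P.dd hk)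
  refine ⟨n, e, par, cl, A, hinj, hmem, hparm, ?_, ?_⟩
  · intro i u hu w hw huw
    obtain ⟨j, rfl⟩ := (hmem w).1 hw
    exact ⟨j, (hAm i j).2 ⟨j, hself j, u, hu, huw⟩, rfl⟩
  · refine
      { st_lt := ?_
        par_lt := ?_
        par_pos := ?_
        par_st := ?_
        par_card := hparcard
        cl_self := hself
        cl_par := hclpar
        cl_le := ?_
        cl_st := ?_
        cl_inj := hclinj
        cl_card := ?_
        cl_cnt := ?_
        cl_disj := ?_
        cl_ok := ?_
        star_adm := ?_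
        adm := ?_
        B_ne := ?_
        BA := ?_
        FA := ?_
        A_par := ?_
        A_inj := hAinj
        A_card := ?_
        A_cnt := ?_
        A_disj := ?_
        A_ok := ?_ }
    · -- st_lt
      intro j
      change st (ty (e j)) < Ds
      rw [hT4]
      exact hstl (e j)
    · -- par_lt
      intro j i hi
      exact hord i j ((hparm j i).1 hi).2
    · -- par_pos
      intro j i hi
      exact hT1 _ _ ((hparm j i).1 hi).1
    · -- par_st
      intro j i hi
      change st (ty (e i)) < st (ty (e j))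
      rw [hT4, hT4]
      exact ((hparm j i).1 hi).2
    · -- cl_le
      intro j i hi
      exact (hchain i j ((hclm j i).1 hi)).2.2.1
    · -- cl_st
      intro j i hi hne
      change st (ty (e i)) < st (ty (e j))
      rw [hT4, hT4]
      exact (hchain i j ((hclm j i).1 hi)).2.2.2 hne
    · -- cl_card
      intro j
      rw [← Finset.card_image_of_injective _ hinj]
      refine le_trans (Finset.card_le_card ?_) (hJ Ds (by omega) (e j))
      intro y hy
      obtain ⟨i, hi, rfl⟩ := Finset.mem_image.1 hy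
      exact Finset.mem_filter.2 ⟨Finset.mem_univ _, INS_symm (hRD j i hi)⟩
    · -- cl_cnt
      intro i
      rw [← Finset.card_image_of_injective _ hinj]
      refine le_trans (Finset.card_le_card ?_) (hJ Ds (by omega) (e i))
      intro y hy
      obtain ⟨j, hj, rfl⟩ := Finset.mem_image.1 hy
      exact Finset.mem_filter.2 ⟨Finset.mem_univ _, hRD j i (Finset.mem_filter.1 hj).2⟩
    · -- cl_disj
      intro j j' hjj' ht
      rw [Finset.disjoint_left]
      intro i hi hi'
      exact hjj' (hinj (hT _ _ _ (INS_trans (INS_symm (hRD j i hi)) (hRD j' i hi')) (by omega) ht))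
    · -- cl_ok
      intro j
      exact hok (cl j) (hclinj j) (hclpar j)
    · -- star_adm
      intro j
      have h1 : star (fun j => ty (e j)) par j =
          ((par j).image fun i => ty (e i)).image fun u => (u, ty (e j)) := by
        rw [Finset.image_image]
        rfl
      rw [h1]
      refine star_pat P pos _ _ (Finset.card_image_le.trans (hparcard j)) ?_
      intro u hu
      obtain ⟨i, hi, rfl⟩ := Finset.mem_image.1 hu
      exact hT1 _ _ ((hparm j i).1 hi).1
    · -- adm
      intro i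
      refine pat P hd2 H hdeg hK pos ty hT1 (Q i) (hD.good i) ?_
      intro u w hu hw ht
      have hu' : ∃ a ∈ Q i, INS_R H 1 a u := by
        rcases hu with h | ⟨a, ha, h⟩
        · exact ⟨u, h, INS_refl 1 _⟩
        · exact ⟨a, ha, INS_adj h⟩
      have hw' : ∃ a ∈ Q i, INS_R H 1 a w := by
        rcases hw with h | ⟨a, ha, h⟩
        · exact ⟨w, h, INS_refl 1 _⟩
        · exact ⟨a, ha, INS_adj h⟩
      obtain ⟨a, ha, h1⟩ := hu'
      obtain ⟨b, hb, h2⟩ := hw'
      exact hT _ _ _ (INS_trans (INS_symm h1) (INS_trans (hQt i a ha b hb) h2)) (by omega) ht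
    · -- B_ne
      intro i
      exact (hD.ne i).image ty
    · -- BA
      intro i j hj
      obtain ⟨u, hu, ht⟩ := Finset.mem_image.1 hj
      exact hU j ((hT3 u (e j) ht).1 (hD.sub i hu))
    · -- FA
      intro i e' he'
      obtain ⟨_, a, b, hab, h1, h2, h3⟩ := by simpa [patF] using he'
      have key : ∀ a b, H.Adj a b → a ∈ Q i →
          (ty b ∈ (Q i).image ty ∨ ∃ j ∈ A i, ty (e j) = ty b) := by
        intro a b hab ha
        by_cases hb : b ∈ U
        · obtain ⟨i', hi1, hi2⟩ := hD.adjU a (hD.sub i ha) b hb hab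
          have : i' = i := by
            by_contra hne
            exact Finset.disjoint_left.1 (hD.dis i' i hne) hi1 ha
          subst this
          exact Or.inl (Finset.mem_image_of_mem ty hi2)
        · obtain ⟨j, rfl⟩ := (hmem b).1 hb
          exact Or.inr ⟨j, (hAm i j).2 ⟨j, hself j, a, ha, hab⟩, rfl⟩
      rcases h3 with h3 | h3
      · refine ⟨Or.inl (h1 ▸ Finset.mem_image_of_mem ty h3), ?_⟩
        rw [← h2]
        exact key a b hab h3
      · refine ⟨?_, Or.inl (h2 ▸ Finset.mem_image_of_mem ty h3)⟩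
        rw [← h1]
        exact key b a hab.symm h3
    · -- A_par
      intro i j' hj' a ha
      obtain ⟨j, hj, hu⟩ := (hAm i j').1 hj'
      exact (hAm i _).2 ⟨j, hclpar j j' hj ha, hu⟩
    · -- A_card
      intro i
      obtain ⟨u0, hu0⟩ := hD.ne i
      rw [← Finset.card_image_of_injective _ hinj]
      refine le_trans (Finset.card_le_card ?_) (hJ (tp + Ds + 1) le_rfl u0)
      intro y hy
      obtain ⟨j, hj, rfl⟩ := Finset.mem_image.1 hy
      obtain ⟨u, hu, h1⟩ := hA4 i j hj
      exact Finset.mem_filter.2 ⟨Finset.mem_univ _,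
        INS_mono (INS_trans (hQt i u0 hu0 u hu) h1) (by omega)⟩
    · -- A_cnt
      intro j
      have hch : ∀ i : Fin q, ∃ u, j ∈ A i → (u ∈ Q i ∧ INS_R H (Ds + 1) u (e j)) := by
        intro i
        by_cases h : j ∈ A i
        · obtain ⟨u, hu, h1⟩ := hA4 i j h
          exact ⟨u, fun _ => ⟨hu, h1⟩⟩
        · exact ⟨e j, fun h' => absurd h' h⟩
      choose f hf using hch
      have hfinj : Set.InjOn f ((Finset.univ.filter fun i => j ∈ A i : Finset (Fin q)) :
          Set (Fin q)) := by
        intro i hi i' hi' hff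
        have g1 := hf i (Finset.mem_filter.1 (Finset.mem_coe.1 hi)).2
        have g2 := hf i' (Finset.mem_filter.1 (Finset.mem_coe.1 hi')).2
        by_contra hne
        exact Finset.disjoint_left.1 (hD.dis i i' hne) g1.1 (hff ▸ g2.1)
      rw [← Finset.card_image_of_injOn hfinj]
      refine le_trans (Finset.card_le_card ?_) (hJ (Ds + 1) (by omega) (e j))
      intro y hy
      obtain ⟨i, hi, rfl⟩ := Finset.mem_image.1 hy
      exact Finset.mem_filter.2 ⟨Finset.mem_univ _,
        INS_symm (hf i (Finset.mem_filter.1 hi).2).2⟩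
    · -- A_disj
      rintro i i' hne ⟨d, hd, hd'⟩
      obtain ⟨u, hu, rfl⟩ := Finset.mem_image.1 hd
      obtain ⟨u', hu', ht⟩ := Finset.mem_image.1 hd'
      rw [Finset.disjoint_left]
      intro j hj hj'
      obtain ⟨a, ha, h1⟩ := hA4 i j hj
      obtain ⟨b, hb, h2⟩ := hA4 i' j hj'
      have h3 := INS_trans (hQt i u hu a ha) (INS_trans h1 (INS_trans (INS_symm h2)
        (hQt i' b hb u' hu')))
      have h4 := hT _ _ _ h3 (by omega) ht.symm
      exact Finset.disjoint_left.1 (hD.dis i i' hne) hu (h4 ▸ hu')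
    · -- A_ok
      intro i
      refine hok (A i) (hAinj i) ?_
      intro j' hj' a ha
      obtain ⟨j, hj, hu⟩ := (hAm i j').1 hj'
      exact (hAm i _).2 ⟨j, hclpar j j' hj ha, hu⟩

end Pool.Agent.CUG
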