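import Pool.Agent.CUG.ADDG

set_option autoImplicit false

/-!
# CUG.KEY

Adapt CUB/KEY.lean. In case (c), `RS P F B'` for `B' = B \ {v₀}`: for `S ⊆ B'` nonempty the edges counted
lie inside `R = insert v₀ S`; `|S| ≥ 2`: `D2` gives `be e + 2 al + 1 ≤ al (|S| + 1) + be`, so
`be e + 1 ≤ al |S| + be - al ≤ al |S|`; `|S| = 1`: `e ≤ 1` and `be + 2 ≤ al` (`P.hdd`, `P.hd`).
-/

namespace Pool.Agent.CUG

open Pool.Agent.CUB
open scoped Classical

variable {kp : ℕ}

private lemma keyg_dense_anti {v N M : ℕ} {t : Fin M × Fin kp → Fin N} {pos : Fin v → Fin kp}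
    {L : Fin v × Fin v → Finset (Fin M)} {V : Fin v → Finset (Fin N)} {m : ℝ}
    {F F' : Finset (Fin v × Fin v)} {ε ε' c₀ : ℝ} (hF : F' ⊆ F) (hε : ε ≤ ε')
    (h : Dense t pos L V m F ε c₀) : Dense t pos L V m F' ε' c₀ := by
  intro e he S₁ S₂ h1 h2 h3 h4
  refine h e (hF he) S₁ S₂ h1 h2 (le_trans ?_ h3) (le_trans ?_ h4)
  · exact mul_le_mul_of_nonneg_right hε (Nat.cast_nonneg _)
  · exact mul_le_mul_of_nonneg_right hε (Nat.cast_nonneg _)

private lemma keyg_reg_mono {v N M : ℕ} {t : Fin M × Fin kp → Fin N} {pos : Fin v → Fin kp}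
    {L : Fin v × Fin v → Finset (Fin M)} {V : Fin v → Finset (Fin N)} {m : ℝ}
    {F : Finset (Fin v × Fin v)} {B : Finset (Fin v)} {ε ε' c : ℝ} (hε : ε ≤ ε')
    (h : Reg t pos L V m F B ε c) : Reg t pos L V m F B ε' c := by
  intro S h1 h2
  refine le_trans (h S h1 fun i hi => le_trans ?_ (h2 i hi)) ?_
  · exact mul_le_mul_of_nonneg_right hε (Nat.cast_nonneg _)
  · exact mul_le_mul_of_nonneg_right hε (Nat.cast_nonneg _)

private lemma keyg_khyp_sub {v N M : ℕ} {P : Prm} {h : ℕ} {pos : Fin v → Fin kp} {F F' : Finset (Fin v × Fin v)}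
    {κ₁ : ℝ} {V : Fin v → Finset (Fin N)} {m : ℝ} {L : Fin v × Fin v → Finset (Fin M)}
    {Vc : Fin M × Fin kp → Finset (Fin N)} (hF : F' ⊆ F) (H : KHyp P h pos F κ₁ V m L Vc) :
    KHyp P h pos F' κ₁ V m L Vc :=
  { hN := H.hN
    hM := H.hM
    hV := H.hV
    hm := H.hm
    hmM := H.hmM
    hdis := fun e he e' he' hne => H.hdis e (hF he) e' (hF he') hne
    hVc := fun e he i hi => H.hVc e (hF he) i hi }

private lemma keyg_mem_box {v N : ℕ} {B : Finset (Fin v)} {S : Fin v → Finset (Fin N)}
    {x y : Fin v → Fin N} :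
    y ∈ box B S x ↔ ∀ i, (i ∈ B → y i ∈ S i) ∧ (i ∉ B → y i = x i) := by
  unfold box
  rw [Fintype.mem_piFinset]
  constructor
  · intro h i
    have hi := h i
    constructor
    · intro hB
      rw [if_pos hB] at hi
      exact hi
    · intro hB
      rw [if_neg hB, Finset.mem_singleton] at hi
      exact hi
  · intro h i
    by_cases hB : i ∈ B
    · rw [if_pos hB]
      exact (h i).1 hB
    · rw [if_neg hB, Finset.mem_singleton]
      exact (h i).2 hB

/-- Splitting off the free vertex `v₀`. -/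
private lemma keyg_ext_split {v N M : ℕ} (t : Fin M × Fin kp → Fin N) (pos : Fin v → Fin kp)
    (L : Fin v × Fin v → Finset (Fin M)) (F : Finset (Fin v × Fin v)) (B : Finset (Fin v))
    (S : Fin v → Finset (Fin N)) (x : Fin v → Fin N) (v₀ : Fin v) (hv : v₀ ∈ B) :
    ext t pos L F B S x =
      ∑ y₀ ∈ S v₀, ext t pos L F (B.erase v₀) S (Function.update x v₀ y₀) := by
  have h1 : ∀ y ∈ box B S x, y v₀ ∈ S v₀ := fun y hy => ((keyg_mem_box.1 hy) v₀).1 hv
  unfold ext
  rw [← Finset.sum_fiberwise_of_maps_to h1]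
  refine Finset.sum_congr rfl fun y₀ hy₀ => ?_
  refine Finset.sum_congr ?_ fun _ _ => rfl
  ext y
  rw [Finset.mem_filter, keyg_mem_box, keyg_mem_box]
  constructor
  · rintro ⟨h2, h3⟩ i
    constructor
    · intro hi
      exact (h2 i).1 (Finset.mem_of_mem_erase hi)
    · intro hi
      by_cases h4 : i = v₀
      · subst h4
        rw [Function.update_self]
        exact h3
      · rw [Function.update_of_ne h4]
        exact (h2 i).2 fun h5 => hi (Finset.mem_erase.2 ⟨h4, h5⟩)
  · intro h2
    have h3 : y v₀ = y₀ := by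
      have := (h2 v₀).2 (Finset.notMem_erase _ _)
      rwa [Function.update_self] at this
    refine ⟨fun i => ⟨fun hi => ?_, fun hi => ?_⟩, h3⟩
    · by_cases h4 : i = v₀
      · subst h4
        rw [h3]
        exact hy₀
      · exact (h2 i).1 (Finset.mem_erase.2 ⟨h4, hi⟩)
    · have h4 : i ≠ v₀ := fun h5 => hi (h5 ▸ hv)
      have h5 := (h2 i).2 fun h6 => hi (Finset.mem_of_mem_erase h6)
      rwa [Function.update_of_ne h4] at h5

/-- If all ends lie in `B`, the extension count for `B.erase v₀` depends only on the value at `v₀`. -/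
private lemma keyg_ext_dep {v N M : ℕ} (t : Fin M × Fin kp → Fin N) (pos : Fin v → Fin kp)
    (L : Fin v × Fin v → Finset (Fin M)) (F : Finset (Fin v × Fin v)) (B : Finset (Fin v))
    (S : Fin v → Finset (Fin N)) (x x' : Fin v → Fin N) (v₀ : Fin v)
    (hends : ∀ e ∈ F, e.1 ∈ B ∧ e.2 ∈ B) (hx : x v₀ = x' v₀) :
    ext t pos L F (B.erase v₀) S x = ext t pos L F (B.erase v₀) S x' := by
  have key : ∀ z z' : Fin v → Fin N, z v₀ = z' v₀ →
      ∀ y ∈ box (B.erase v₀) S z, (fun i => if i ∈ B then y i else z' i) ∈ box (B.erase v₀) S z' := by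
    intro z z' hz y hy
    rw [keyg_mem_box] at hy ⊢
    intro i
    constructor
    · intro hi
      have h1 := Finset.mem_of_mem_erase hi
      simp only [h1, if_true]
      exact (hy i).1 hi
    · intro hi
      by_cases h1 : i ∈ B
      · have h2 : i = v₀ := by
          by_contra h3
          exact hi (Finset.mem_erase.2 ⟨h3, h1⟩)
        subst h2
        simp only [h1, if_true]
        rw [(hy i).2 hi, hz]
      · simp only [h1, if_false]
  have hinv : ∀ z z' : Fin v → Fin N, z v₀ = z' v₀ →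
      ∀ y ∈ box (B.erase v₀) S z,
        (fun i => if i ∈ B then (if i ∈ B then y i else z' i) else z i) = y := by
    intro z z' hz y hy
    funext i
    by_cases h1 : i ∈ B
    · simp only [h1, if_true]
    · simp only [h1, if_false]
      rw [keyg_mem_box] at hy
      exact ((hy i).2 fun h2 => h1 (Finset.mem_of_mem_erase h2)).symm
  unfold ext
  refine Finset.sum_nbij' (fun y => fun i => if i ∈ B then y i else x' i)
    (fun y => fun i => if i ∈ B then y i else x i) (key x x' hx) (key x' x hx.symm)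
    (hinv x x' hx) (hinv x' x hx.symm) ?_
  intro y _
  refine Finset.prod_congr rfl fun e he => ?_
  unfold mm
  have h1 := hends e he
  simp only [h1.1, h1.2, if_true]

private lemma keyg_nom {v N : ℕ} (V : Fin v → Finset (Fin N)) (m : ℝ) (F : Finset (Fin v × Fin v))
    (B : Finset (Fin v)) (v₀ : Fin v) (hv : v₀ ∈ B) :
    nom V m F B = ((V v₀).card : ℝ) * nom V m F (B.erase v₀) := by
  unfold nom
  rw [← Finset.mul_prod_erase B _ hv]
  ring

private lemma keyg_nom_nonneg {v N : ℕ} (V : Fin v → Finset (Fin N)) (m : ℝ) (hm : 0 ≤ m)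
    (F : Finset (Fin v × Fin v)) (B : Finset (Fin v)) : 0 ≤ nom V m F B := by
  unfold nom
  refine mul_nonneg (Finset.prod_nonneg fun i _ => Nat.cast_nonneg _)
    (Finset.prod_nonneg fun e _ => div_nonneg hm ?_)
  exact mul_nonneg (Nat.cast_nonneg _) (Nat.cast_nonneg _)

/-- Case (c), the deterministic implication. -/
private lemma keyg_reg_insert {v N M : ℕ} {t : Fin M × Fin kp → Fin N} {pos : Fin v → Fin kp}
    {L : Fin v × Fin v → Finset (Fin M)} {V : Fin v → Finset (Fin N)} {m : ℝ} (hm : 0 ≤ m)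
    {F : Finset (Fin v × Fin v)} {B : Finset (Fin v)} {v₀ : Fin v} (hv : v₀ ∈ B)
    (hends : ∀ e ∈ F, e.1 ∈ B ∧ e.2 ∈ B) {ε c' : ℝ} (hε : 0 < ε) (hc' : 0 < c')
    (h : Reg t pos L V m F (B.erase v₀) (ε / 2) c') :
    Reg t pos L V m F B ε ((ε / 2) * c') := by
  intro S hS hSc
  have h1 := h S hS (fun i hi => by
    have h2 := hSc i (Finset.mem_of_mem_erase hi)
    have h3 : (0 : ℝ) ≤ ((V i).card : ℝ) := Nat.cast_nonneg _
    nlinarith)
  have hemp : ((Fintype.piFinset V).filter fun x =>
      (ext t pos L F B S x : ℝ) < (ε / 2) * c' * nom V m F B) = ∅ := by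
    rw [Finset.filter_eq_empty_iff]
    intro x hx
    rw [not_lt]
    have hxV : ∀ i, x i ∈ V i := Fintype.mem_piFinset.1 hx
    set bad := (S v₀).filter fun y₀ =>
      (ext t pos L F (B.erase v₀) S (Function.update x v₀ y₀) : ℝ) <
        c' * nom V m F (B.erase v₀) with hbad
    -- the number of bad values
    have hbc : (bad.card : ℝ) ≤ (ε / 2) * ((V v₀).card : ℝ) := by
      set P : ℕ := ∏ i ∈ Finset.univ.erase v₀, (V i).card with hP
      have hPpos : 0 < P := Finset.prod_pos fun i _ => Finset.card_pos.2 ⟨x i, hxV i⟩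
      have hXc : (Fintype.piFinset V).card = (V v₀).card * P := by
        rw [Fintype.card_piFinset, hP]
        exact (Finset.mul_prod_erase _ (fun i => (V i).card) (Finset.mem_univ v₀)).symm
      -- the fibres over bad values
      have hsub : (Fintype.piFinset (Function.update V v₀ bad)) ⊆
          (Fintype.piFinset V).filter fun x =>
            (ext t pos L F (B.erase v₀) S x : ℝ) < c' * nom V m F (B.erase v₀) := by
        intro z hz
        have hz' := Fintype.mem_piFinset.1 hz
        have hz0 : z v₀ ∈ bad := by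
          have := hz' v₀
          rwa [Function.update_self] at this
        rw [hbad, Finset.mem_filter] at hz0
        refine Finset.mem_filter.2 ⟨Fintype.mem_piFinset.2 fun i => ?_, ?_⟩
        · by_cases hi : i = v₀
          · subst hi
            exact hS i hz0.1
          · have := hz' i
            rwa [Function.update_of_ne hi] at this
        · rw [keyg_ext_dep t pos L F B S z (Function.update x v₀ (z v₀)) v₀ hends
            (by rw [Function.update_self])]
          exact hz0.2
      have hcard : (Fintype.piFinset (Function.update V v₀ bad)).card = bad.card * P := by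
        rw [Fintype.card_piFinset, ← Finset.mul_prod_erase _ _ (Finset.mem_univ v₀),
          Function.update_self, hP]
        congr 1
        refine Finset.prod_congr rfl fun i hi => ?_
        rw [Function.update_of_ne (Finset.ne_of_mem_erase hi)]
      have h2 : ((bad.card * P : ℕ) : ℝ) ≤ (ε / 2) * (((V v₀).card * P : ℕ) : ℝ) := by
        rw [← hcard, ← hXc]
        exact le_trans (Nat.cast_le.2 (Finset.card_le_card hsub)) h1
      rw [Nat.cast_mul, Nat.cast_mul, ← mul_assoc] at h2
      exact le_of_mul_le_mul_right h2 (Nat.cast_pos.2 hPpos)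
    -- the good values
    have hgood : ((S v₀ \ bad).card : ℝ) ≥ (ε / 2) * ((V v₀).card : ℝ) := by
      have h2 : (S v₀ \ bad).card + bad.card = (S v₀).card :=
        Finset.card_sdiff_add_card_eq_card (Finset.filter_subset _ _)
      have h3 : ((S v₀ \ bad).card : ℝ) + (bad.card : ℝ) = ((S v₀).card : ℝ) := by
        exact_mod_cast h2
      have h4 := hSc v₀ hv
      linarith
    have hn0 : 0 ≤ c' * nom V m F (B.erase v₀) :=
      mul_nonneg hc'.le (keyg_nom_nonneg V m hm F _)
    calc (ε / 2) * c' * nom V m F B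
        = (ε / 2) * ((V v₀).card : ℝ) * (c' * nom V m F (B.erase v₀)) := by
          rw [keyg_nom V m F B v₀ hv]
          ring
      _ ≤ ((S v₀ \ bad).card : ℝ) * (c' * nom V m F (B.erase v₀)) :=
          mul_le_mul_of_nonneg_right hgood hn0
      _ = ∑ _y₀ ∈ S v₀ \ bad, (c' * nom V m F (B.erase v₀)) := by
          rw [Finset.sum_const, nsmul_eq_mul]
      _ ≤ ∑ y₀ ∈ S v₀ \ bad,
            (ext t pos L F (B.erase v₀) S (Function.update x v₀ y₀) : ℝ) := by
          refine Finset.sum_le_sum fun y₀ hy₀ => ?_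
          rw [Finset.mem_sdiff, hbad, Finset.mem_filter, not_and, not_lt] at hy₀
          exact hy₀.2 hy₀.1
      _ ≤ ∑ y₀ ∈ S v₀,
            (ext t pos L F (B.erase v₀) S (Function.update x v₀ y₀) : ℝ) :=
          Finset.sum_le_sum_of_subset_of_nonneg Finset.sdiff_subset
            fun _ _ _ => Nat.cast_nonneg _
      _ = (ext t pos L F B S x : ℝ) := by
          rw [keyg_ext_split t pos L F B S x v₀ hv]
          push_cast
          rfl
  rw [hemp, Finset.card_empty, Nat.cast_zero]
  exact mul_nonneg hε.le (Nat.cast_nonneg _)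

private lemma keyg_hal (P : Prm) : P.be + 2 ≤ P.al := by
  have h1 := P.hdd
  have h2 := Nat.mul_le_mul_left P.be P.hd
  omega

private lemma keyg_hga (P : Prm) : 8 * P.ga ≠ 0 := by
  have h1 := keyg_hal P
  have h2 := P.hga
  omega

private lemma keyg_RS_erase {v : ℕ} {P : Prm} {pos : Fin v → Fin kp} {F : Finset (Fin v × Fin v)}
    {B : Finset (Fin v)} {v₀ : Fin v} (hpos : PosD pos F) (hsimp : Simp F) (hD2 : D2 P F)
    (hends : ∀ e ∈ F, e.1 ∈ B ∧ e.2 ∈ B) : RS P F (B.erase v₀) := by
  intro S hSB hSne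
  have hsub : (F.filter fun e => (e.1 ∈ B.erase v₀ → e.1 ∈ S) ∧ (e.2 ∈ B.erase v₀ → e.2 ∈ S)) ⊆
      ins F (insert v₀ S) := by
    intro e he
    rw [Finset.mem_filter] at he
    unfold ins
    rw [Finset.mem_filter]
    have h1 := hends e he.1
    refine ⟨he.1, ?_, ?_⟩
    · by_cases h2 : e.1 = v₀
      · rw [h2]; exact Finset.mem_insert_self _ _
      · exact Finset.mem_insert_of_mem (he.2.1 (Finset.mem_erase.2 ⟨h2, h1.1⟩))
    · by_cases h2 : e.2 = v₀
      · rw [h2]; exact Finset.mem_insert_self _ _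
      · exact Finset.mem_insert_of_mem (he.2.2 (Finset.mem_erase.2 ⟨h2, h1.2⟩))
  have hc := Finset.card_le_card hsub
  have hv0 : v₀ ∉ S := fun h => (Finset.notMem_erase v₀ B) (hSB h)
  have hins : (insert v₀ S).card = S.card + 1 := Finset.card_insert_of_notMem hv0
  have hS1 : 1 ≤ S.card := Finset.card_pos.2 hSne
  have hal : P.be + 2 ≤ P.al := keyg_hal P
  have hmulc := Nat.mul_le_mul_left P.be hc
  by_cases h2 : 2 ≤ S.card
  · have h3 := hD2 (insert v₀ S) (by omega)
    rw [hins, Nat.mul_add, Nat.mul_one] at h3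
    omega
  · have h3 : S.card = 1 := by omega
    obtain ⟨a, ha⟩ := Finset.card_eq_one.1 h3
    have h4 : (ins F (insert v₀ S)).card ≤ 1 := by
      rw [Finset.card_le_one]
      intro e he e' he'
      unfold ins at he he'
      rw [Finset.mem_filter, ha, Finset.mem_insert, Finset.mem_singleton, Finset.mem_insert,
        Finset.mem_singleton] at he he'
      have p1 : e.1 ≠ e.2 := fun h5 => hpos e he.1 (by rw [h5])
      have p2 : e'.1 ≠ e'.2 := fun h5 => hpos e' he'.1 (by rw [h5])
      have q : (e.2, e.1) ∉ F := hsimp e he.1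
      have hmem' := he'.1
      obtain ⟨e1, e2⟩ := e
      obtain ⟨f1, f2⟩ := e'
      simp only at he he' p1 p2 q hmem' ⊢
      obtain ⟨_, h5, h6⟩ := he
      obtain ⟨_, h7, h8⟩ := he'
      rcases h5 with h5 | h5 <;> rcases h6 with h6 | h6 <;> rcases h7 with h7 | h7 <;>
        rcases h8 with h8 | h8
      all_goals first
        | exact absurd (h5.trans h6.symm) p1
        | exact absurd (h7.trans h8.symm) p2
        | exact Prod.ext (h5.trans h7.symm) (h6.trans h8.symm)
        | (exfalso; apply q; rw [h5, h6]; rw [h7, h8] at hmem'; exact hmem')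
    have h5 := Nat.mul_le_mul_left P.be h4
    rw [h3]
    omega

/-- Key theorem: for a fixed family of classes, configurations that are dense and satisfy the crude
bounds fail to be regular with probability at most `exp (-K m)`. -/
theorem key {kp : ℕ} (P : Prm) (v : ℕ) (pos : Fin v → Fin kp) (F : Finset (Fin v × Fin v))
    (B : Finset (Fin v))
    (hpos : PosD pos F) (hsimp : Simp F) (htch : Tch F B) (hD2 : D2 P F) (hRS : RS P F B) :
    ∀ c₀ ε K : ℝ, 0 < c₀ → 0 < ε → ε ≤ 1 → 0 < K →
    ∃ c : ℝ, 0 < c ∧ ∃ εin : ℝ, 0 < εin ∧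
    ∀ κ₁ : ℝ, 0 < κ₁ → ∃ h₀ : ℕ, ∀ h ≥ h₀, ∀ (N M : ℕ) (V : Fin v → Finset (Fin N)) (m : ℝ)
      (L : Fin v × Fin v → Finset (Fin M)) (Vc : Fin M × Fin kp → Finset (Fin N)),
      KHyp P h pos F κ₁ V m L Vc →
      (((Fintype.piFinset Vc).filter fun t => CR P h t pos ∧ Dense t pos L V m F εin c₀ ∧
          ¬ Reg t pos L V m F B ε c).card : ℝ)
        ≤ Real.exp (-(K * m)) * ((Fintype.piFinset Vc).card : ℝ) := by
  obtain ⟨n, hn⟩ : ∃ n, F.card + B.card = n := ⟨_, rfl⟩
  induction n using Nat.strong_induction_on generalizing F B with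
  | _ n ih =>
  intro c₀ ε K hc₀ hε hε1 hK
  by_cases hb : ∃ s, s ∉ B ∧ ∃ e ∈ F, e.1 = s ∨ e.2 = s
  · -- case (b)
    obtain ⟨s, hsB, hsF⟩ := hb
    have hoff : offs F s ⊆ F := Finset.filter_subset _ _
    have hlt : (offs F s).card < F.card := by
      apply Finset.card_lt_card
      refine ⟨hoff, fun h1 => ?_⟩
      obtain ⟨e, he, hes⟩ := hsF
      have h2 := h1 he
      unfold offs at h2
      rw [Finset.mem_filter] at h2
      rcases hes with h3 | h3
      · exact h2.2.1 h3
      · exact h2.2.2 h3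
    obtain ⟨ε', hε', hadd⟩ := addg P v pos F B s hpos hsimp htch hD2 hRS hsB hsF c₀ ε (K + 1)
      hc₀ hε hε1 (by linarith)
    have hpos' : PosD pos (offs F s) := fun e he => hpos e (hoff he)
    have hsimp' : Simp (offs F s) := fun e he h1 => hsimp e (hoff he) (hoff h1)
    have htch' : Tch (offs F s) B := fun e he => htch e (hoff he)
    have hD2' : D2 P (offs F s) := by
      intro S hS
      have h1 := hD2 S hS
      have h2 : (ins (offs F s) S).card ≤ (ins F S).card :=
        Finset.card_le_card (Finset.filter_subset_filter _ hoff)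
      have h3 := Nat.mul_le_mul_left P.be h2
      omega
    have hRS' : RS P (offs F s) B := by
      intro S hS hSn
      have h1 := hRS S hS hSn
      have h2 : ((offs F s).filter fun e => (e.1 ∈ B → e.1 ∈ S) ∧ (e.2 ∈ B → e.2 ∈ S)).card ≤
          (F.filter fun e => (e.1 ∈ B → e.1 ∈ S) ∧ (e.2 ∈ B → e.2 ∈ S)).card :=
        Finset.card_le_card (Finset.filter_subset_filter _ hoff)
      have h3 := Nat.mul_le_mul_left P.be h2
      omega
    obtain ⟨c', hc', εin', hεin', hih⟩ := ih ((offs F s).card + B.card) (by omega) (offs F s) B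
      hpos' hsimp' htch' hD2' hRS' rfl c₀ (min ε' 1) (K + 1) hc₀ (lt_min hε' one_pos)
      (min_le_right _ _) (by linarith)
    obtain ⟨c, hc, εin'', hεin'', hadd2⟩ := hadd c' hc'
    refine ⟨c, hc, min εin' εin'', lt_min hεin' hεin'', fun κ₁ hκ₁ => ?_⟩
    obtain ⟨h₁, hh₁⟩ := hih κ₁ hκ₁
    obtain ⟨h₂, hh₂⟩ := hadd2 κ₁ hκ₁
    refine ⟨max (max h₁ h₂) (⌈1 / κ₁⌉₊ + 1), fun h hh N M V m L Vc H => ?_⟩
    have g1 : h₁ ≤ h := le_trans (le_trans (le_max_left _ _) (le_max_left _ _)) hh
    have g2 : h₂ ≤ h := le_trans (le_trans (le_max_right _ _) (le_max_left _ _)) hh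
    have g3 : ⌈1 / κ₁⌉₊ + 1 ≤ h := le_trans (le_max_right _ _) hh
    have hm1 : 1 ≤ m := by
      have h4 : (1 / κ₁ : ℝ) ≤ (h : ℝ) := by
        refine le_trans (Nat.le_ceil _) ?_
        exact_mod_cast le_trans (Nat.le_succ _) g3
      have h5 : (h : ℝ) ≤ (M : ℝ) := by
        rw [H.hM]
        exact_mod_cast Nat.le_self_pow (keyg_hga P) h
      have h6 := H.hm
      have h7 : 1 ≤ κ₁ * (h : ℝ) := by
        rw [div_le_iff₀ hκ₁] at h4
        linarith
      nlinarith
    have A1 := hh₁ h g1 N M V m L Vc (keyg_khyp_sub hoff H)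
    have A2 := hh₂ h g2 N M V m L Vc H
    have hsub : ((Fintype.piFinset Vc).filter fun t => CR P h t pos ∧
        Dense t pos L V m F (min εin' εin'') c₀ ∧ ¬ Reg t pos L V m F B ε c) ⊆
        ((Fintype.piFinset Vc).filter fun t => CR P h t pos ∧
          Dense t pos L V m (offs F s) εin' c₀ ∧
          ¬ Reg t pos L V m (offs F s) B (min ε' 1) c') ∪
        ((Fintype.piFinset Vc).filter fun t => CR P h t pos ∧ Dense t pos L V m F εin'' c₀ ∧
          Reg t pos L V m (offs F s) B ε' c' ∧ ¬ Reg t pos L V m F B ε c) := by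
      intro t ht
      rw [Finset.mem_filter] at ht
      obtain ⟨ht1, ht2, ht3, ht4⟩ := ht
      rw [Finset.mem_union, Finset.mem_filter, Finset.mem_filter]
      by_cases hr : Reg t pos L V m (offs F s) B ε' c'
      · exact Or.inr ⟨ht1, ht2, keyg_dense_anti (Finset.Subset.refl _) (min_le_right _ _) ht3,
          hr, ht4⟩
      · exact Or.inl ⟨ht1, ht2, keyg_dense_anti hoff (min_le_left _ _) ht3,
          fun h1 => hr (keyg_reg_mono (min_le_left _ _) h1)⟩
    have hexp : 2 * Real.exp (-((K + 1) * m)) ≤ Real.exp (-(K * m)) := by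
      have h1 : Real.exp (-((K + 1) * m)) = Real.exp (-(K * m)) * Real.exp (-m) := by
        rw [← Real.exp_add]
        congr 1
        ring
      have h2 : Real.exp (-m) ≤ 1 / 2 := by
        have h3 : (2 : ℝ) ≤ Real.exp m := by
          have := Real.add_one_le_exp m
          linarith
        rw [Real.exp_neg, inv_eq_one_div]
        exact one_div_le_one_div_of_le (by norm_num) h3
      have h3 := Real.exp_pos (-(K * m))
      rw [h1]
      nlinarith
    have hcard0 : (0 : ℝ) ≤ ((Fintype.piFinset Vc).card : ℝ) := Nat.cast_nonneg _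
    refine le_trans (Nat.cast_le.2 (le_trans (Finset.card_le_card hsub)
      (Finset.card_union_le _ _))) ?_
    rw [Nat.cast_add]
    calc _ ≤ Real.exp (-((K + 1) * m)) * ((Fintype.piFinset Vc).card : ℝ) +
          Real.exp (-((K + 1) * m)) * ((Fintype.piFinset Vc).card : ℝ) := add_le_add A1 A2
      _ = (2 * Real.exp (-((K + 1) * m))) * ((Fintype.piFinset Vc).card : ℝ) := by ring
      _ ≤ _ := mul_le_mul_of_nonneg_right hexp hcard0
  · push Not at hb
    have hends : ∀ e ∈ F, e.1 ∈ B ∧ e.2 ∈ B := by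
      intro e he
      constructor
      · by_contra h1
        exact (hb e.1 h1 e he).1 rfl
      · by_contra h1
        exact (hb e.2 h1 e he).2 rfl
    rcases Finset.eq_empty_or_nonempty B with hB | hB
    · -- case (a)
      subst hB
      have hF : F = ∅ := by
        rw [Finset.eq_empty_iff_forall_notMem]
        intro e he
        exact Finset.notMem_empty _ (hends e he).1
      subst hF
      refine ⟨1 / 2, by norm_num, 1, one_pos, fun κ₁ hκ₁ => ⟨0, fun h hh N M V m L Vc H => ?_⟩⟩
      have hemp : ((Fintype.piFinset Vc).filter fun t => CR P h t pos ∧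
          Dense t pos L V m ∅ 1 c₀ ∧ ¬ Reg t pos L V m ∅ ∅ ε (1 / 2)) = ∅ := by
        rw [Finset.filter_eq_empty_iff]
        rintro t _ ⟨_, _, h3⟩
        apply h3
        intro S _ _
        have h4 : ((Fintype.piFinset V).filter fun x =>
            (ext t pos L ∅ ∅ S x : ℝ) < 1 / 2 * nom V m ∅ ∅) = ∅ := by
          rw [Finset.filter_eq_empty_iff]
          intro x _
          rw [not_lt]
          have h5 : ext t pos L ∅ ∅ S x = 1 := by
            unfold ext
            simp only [Finset.prod_empty, Finset.sum_const, smul_eq_mul, mul_one]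
            unfold box
            rw [Fintype.card_piFinset]
            simp
          rw [h5]
          unfold nom
          norm_num
        rw [h4, Finset.card_empty, Nat.cast_zero]
        exact mul_nonneg hε.le (Nat.cast_nonneg _)
      rw [hemp, Finset.card_empty, Nat.cast_zero]
      exact mul_nonneg (Real.exp_pos _).le (Nat.cast_nonneg _)
    · -- case (c)
      obtain ⟨v₀, hv₀⟩ := hB
      have hlt : (B.erase v₀).card < B.card := Finset.card_erase_lt_of_mem hv₀
      have htch' : Tch F (B.erase v₀) := by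
        intro e he
        have h1 := hends e he
        by_cases h2 : e.1 = v₀
        · right
          refine Finset.mem_erase.2 ⟨fun h3 => hpos e he ?_, h1.2⟩
          rw [h2, h3]
        · left
          exact Finset.mem_erase.2 ⟨h2, h1.1⟩
      obtain ⟨c', hc', εin, hεin, hih⟩ := ih (F.card + (B.erase v₀).card) (by omega) F
        (B.erase v₀) hpos hsimp htch' hD2 (keyg_RS_erase hpos hsimp hD2 hends) rfl c₀ (ε / 2) K
        hc₀ (by linarith) (by linarith) hK
      refine ⟨(ε / 2) * c', by positivity, εin, hεin, fun κ₁ hκ₁ => ?_⟩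
      obtain ⟨h₀, hh₀⟩ := hih κ₁ hκ₁
      refine ⟨h₀, fun h hh N M V m L Vc H => le_trans ?_ (hh₀ h hh N M V m L Vc H)⟩
      have hm0 : 0 ≤ m := le_trans (mul_nonneg hκ₁.le (Nat.cast_nonneg _)) H.hm
      refine Nat.cast_le.2 (Finset.card_le_card ?_)
      intro t ht
      rw [Finset.mem_filter] at ht ⊢
      exact ⟨ht.1, ht.2.1, ht.2.2.1, fun h1 => ht.2.2.2 (keyg_reg_insert hm0 hv₀ hends hε hc' h1)⟩

end Pool.Agent.CUG
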