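import Pool.Agent.CUG.KEY
import Pool.Agent.CUG.GGR
import Pool.Agent.CUG.CLU
import Pool.Agent.CUG.HVW

set_option autoImplicit false

/-!
# CUG.KG

Adapt CUB/KG.lean (only its part (1); here there is no poor-vertex part). Given `c₀, ε₄`: for every `E` with
`EOK P pos E` (finitely many) `ε₃` from `ggr` (with `ε₄`, `K = v² + 2`), `ε₃' =` minimum with `1/2`; for every
admissible `(F, B)` `key` with `c₀, ε₃', K` gives `c, εin`; minima over the finitely many. Given `κ₁` (WLOG `≤ 1`,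
otherwise `Parts` is impossible) use `κ₁^(kp+1)` in `KHyp`. Fix `V, Vg, nn`; apply `class_union` to `P t L` :=
`CR ∧ (∀ E, EOK P pos E → HW P h t pos L V m E) ∧ Dense t pos L V m (allE pos) εin c₀ ∧` (the conclusion of `PG` fails
for `L`). For a fixed `L`: `Bad t = {x ∈ piFinset V : ext t pos L F B S x < c nom}`; if `Reg t pos L V m F B ε₃' c` fails:
`key`; otherwise `|Bad t| ≤ ε₃'|X|` (`|S i| ≥ |V i|/2`), and `Bad` depends only on the cells of blocks of `L f`,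
`f ∈ F`, disjoint from `L e`, `e ∈ E` (`f` touches `B`, `e` does not): `ggr`. `hw_of` gives `HW` for `L = clsL ..`
(deterministically, from `CR, HC, UU`). Finally the union over the `≤ 2^{(2v+kp+1)N}` choices of `V, Vg, S`.
`pg_anti`: `Dense` with a smaller `εin` is stronger.
-/

namespace Pool.Agent.CUG

open Pool.Agent.CUB
open scoped Classical

private lemma kg_min {ι : Type*} [Finite ι] (f : ι → ℝ) (hf : ∀ i, 0 < f i) :
    ∃ ε : ℝ, 0 < ε ∧ ∀ i, ε ≤ f i := by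
  rcases isEmpty_or_nonempty ι with h | h
  · exact ⟨1, one_pos, fun i => (h.false i).elim⟩
  · obtain ⟨i₀, hi₀⟩ := Finite.exists_min f
    exact ⟨f i₀, hf i₀, hi₀⟩

private lemma kg_max {ι : Type*} [Finite ι] (f : ι → ℕ) : ∃ H : ℕ, ∀ i, f i ≤ H := by
  rcases isEmpty_or_nonempty ι with h | h
  · exact ⟨0, fun i => (h.false i).elim⟩
  · obtain ⟨i₀, hi₀⟩ := Finite.exists_max f
    exact ⟨f i₀, hi₀⟩

private lemma kg_union {I T : Type*} [Fintype I] (A : I → Finset T) (U : Finset T)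
    (hU : ∀ t ∈ U, ∃ i, t ∈ A i) (b : ℝ) (hb : ∀ i, ((A i).card : ℝ) ≤ b) :
    (U.card : ℝ) ≤ (Fintype.card I : ℝ) * b := by
  have h1 : U ⊆ Finset.univ.biUnion A := by
    intro t ht
    obtain ⟨i, hi⟩ := hU t ht
    exact Finset.mem_biUnion.2 ⟨i, Finset.mem_univ _, hi⟩
  have h2 : (U.card : ℝ) ≤ ∑ i : I, ((A i).card : ℝ) := by
    have := (Finset.card_le_card h1).trans Finset.card_biUnion_le
    exact_mod_cast this
  refine h2.trans ?_
  calc _ ≤ ∑ _i : I, b := Finset.sum_le_sum fun i _ => hb i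
    _ = _ := by simp [Finset.sum_const, nsmul_eq_mul]

private lemma kg_exp (A B : ℕ) (hAB : A + 1 ≤ B) (a b : ℕ) (κ δ : ℝ) (hκ : 0 < κ) (hδ : 0 < δ) :
    ∃ h₀ : ℕ, ∀ h ≥ h₀, ∀ m : ℝ, κ * (h : ℝ) ^ B ≤ m →
      (a : ℝ) * 2 ^ (b * h ^ A) * Real.exp (-m) ≤ δ := by
  obtain ⟨H, hH⟩ := exists_nat_ge (((a : ℝ) + b + |Real.log δ|) / κ)
  refine ⟨max H 1, fun h hh m hm => ?_⟩
  have hh1 : (1 : ℝ) ≤ h := by exact_mod_cast (le_max_right H 1).trans hh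
  have hhH : (H : ℝ) ≤ h := by exact_mod_cast (le_max_left H 1).trans hh
  have hD : (a : ℝ) + b + |Real.log δ| ≤ κ * h := by
    rw [div_le_iff₀ hκ] at hH
    nlinarith
  have h2 : (2 : ℝ) ^ (b * h ^ A) ≤ Real.exp ((b : ℝ) * (h : ℝ) ^ A) := by
    have e1 : (2 : ℝ) ≤ Real.exp 1 := by
      have := Real.add_one_le_exp (1 : ℝ)
      linarith
    calc (2 : ℝ) ^ (b * h ^ A) ≤ (Real.exp 1) ^ (b * h ^ A) :=
          pow_le_pow_left₀ (by norm_num) e1 _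
      _ = Real.exp ((b : ℝ) * (h : ℝ) ^ A) := by
          rw [Real.exp_one_pow]; push_cast; rfl
  have ha : (a : ℝ) ≤ Real.exp a := by
    have := Real.add_one_le_exp (a : ℝ)
    linarith
  have hh96 : (1 : ℝ) ≤ (h : ℝ) ^ A := one_le_pow₀ hh1
  have hm2 : κ * h * (h : ℝ) ^ A ≤ m := by
    refine le_trans ?_ hm
    have e2 : (h : ℝ) * (h : ℝ) ^ A ≤ (h : ℝ) ^ B := by
      calc (h : ℝ) * (h : ℝ) ^ A = (h : ℝ) ^ (A + 1) := by ring
        _ ≤ (h : ℝ) ^ B := pow_le_pow_right₀ hh1 hAB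
    calc κ * h * (h : ℝ) ^ A = κ * (h * (h : ℝ) ^ A) := by ring
      _ ≤ κ * (h : ℝ) ^ B := mul_le_mul_of_nonneg_left e2 hκ.le
  have hD2 : (a : ℝ) + b * (h : ℝ) ^ A + |Real.log δ| ≤ m := by
    refine le_trans ?_ hm2
    calc (a : ℝ) + b * (h : ℝ) ^ A + |Real.log δ|
        ≤ a * (h : ℝ) ^ A + b * (h : ℝ) ^ A + |Real.log δ| * (h : ℝ) ^ A := by
          have h4 : (0 : ℝ) ≤ a := by positivity
          have h5 : (0 : ℝ) ≤ |Real.log δ| := abs_nonneg _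
          nlinarith
      _ = ((a : ℝ) + b + |Real.log δ|) * (h : ℝ) ^ A := by ring
      _ ≤ κ * h * (h : ℝ) ^ A := mul_le_mul_of_nonneg_right hD (by positivity)
  have hlog : -|Real.log δ| ≤ Real.log δ := neg_abs_le _
  calc (a : ℝ) * 2 ^ (b * h ^ A) * Real.exp (-m)
      ≤ Real.exp a * Real.exp ((b : ℝ) * (h : ℝ) ^ A) * Real.exp (-m) := by
        gcongr
    _ = Real.exp (a + (b : ℝ) * (h : ℝ) ^ A + -m) := by rw [Real.exp_add, Real.exp_add]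
    _ ≤ Real.exp (Real.log δ) := Real.exp_le_exp.2 (by linarith)
    _ = δ := Real.exp_log hδ

private structure KF {kp v N M : ℕ} (P : Prm) (h : ℕ) (pos : Fin v → Fin kp) (κ : ℝ)
    (V : Fin v → Finset (Fin N)) (m : ℝ) (L : Fin v × Fin v → Finset (Fin M))
    (Vc : Fin M × Fin kp → Finset (Fin N)) : Prop where
  hN : N = h ^ (8 * P.al)
  hM : M = h ^ (8 * P.ga)
  hV : ∀ i, κ * (N : ℝ) ≤ ((V i).card : ℝ)
  hm : κ * (M : ℝ) ≤ m
  hmM : m ≤ (M : ℝ)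
  hsym : ∀ d d', L (d, d') = L (d', d)
  hdis : ∀ e e', e ≠ e' → e ≠ (e'.2, e'.1) → Disjoint (L e) (L e')
  hVc : ∀ e, ∀ i ∈ L e, Vc (i, pos e.1) = V e.1 ∧ Vc (i, pos e.2) = V e.2

/-- the set of assignments with few extensions -/
private noncomputable def BD1 {kp v N M : ℕ} (t : Fin M × Fin kp → Fin N) (pos : Fin v → Fin kp)
    (L : Fin v × Fin v → Finset (Fin M)) (V : Fin v → Finset (Fin N)) (m c : ℝ)
    (F : Finset (Fin v × Fin v)) (B : Finset (Fin v)) (S : Fin v → Finset (Fin N)) :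
    Finset (Fin v → Fin N) :=
  (Fintype.piFinset V).filter (fun x => (ext t pos L F B S x : ℝ) < c * nom V m F B)

private def KB1 {kp v N M : ℕ} (P : Prm) (t : Fin M × Fin kp → Fin N) (pos : Fin v → Fin kp)
    (L : Fin v × Fin v → Finset (Fin M)) (V : Fin v → Finset (Fin N)) (m c ε₄ : ℝ)
    (F : Finset (Fin v × Fin v)) (B : Finset (Fin v)) (E : Finset (Fin v × Fin v))
    (S : Fin v → Finset (Fin N)) : Prop :=
  Adm P pos F B ∧ EOK P pos E ∧ (∀ e ∈ E, e.1 ∉ B ∧ e.2 ∉ B) ∧ (∀ i, S i ⊆ V i) ∧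
    (∀ i ∈ B, (V i).card ≤ 2 * (S i).card) ∧
    ε₄ * nrm V m E < ((∑ x ∈ BD1 t pos L V m c F B S, ∏ e ∈ E, mm t pos L e x : ℕ) : ℝ)

private def KB0 {kp v N M : ℕ} (P : Prm) (h : ℕ) (t : Fin M × Fin kp → Fin N)
    (pos : Fin v → Fin kp)
    (L : Fin v × Fin v → Finset (Fin M)) (V : Fin v → Finset (Fin N)) (m c₀ εin : ℝ) : Prop :=
  CR P h t pos ∧ (∀ E : Finset (Fin v × Fin v), EOK P pos E → HW P h t pos L V m E) ∧
    Dense t pos L V m (allE pos) εin c₀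

private lemma kg_ext_congr {kp v N M : ℕ} {t t' : Fin M × Fin kp → Fin N} {pos : Fin v → Fin kp}
    {L : Fin v × Fin v → Finset (Fin M)} {F : Finset (Fin v × Fin v)} {B : Finset (Fin v)}
    (S : Fin v → Finset (Fin N)) (x : Fin v → Fin N)
    (htt : ∀ f ∈ F, ∀ i ∈ L f, ∀ a, t (i, a) = t' (i, a)) :
    ext t pos L F B S x = ext t' pos L F B S x := by
  unfold ext
  refine Finset.sum_congr rfl fun y _ => Finset.prod_congr rfl fun f hf => ?_
  unfold mm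
  congr 1
  refine Finset.filter_congr fun i hi => ?_
  rw [htt f hf i hi, htt f hf i hi]

/-- the property of the constants for one pattern between roots -/
private def PGc {kp v : ℕ} (P : Prm) (pos : Fin v → Fin kp) (ε₄ K : ℝ)
    (E : Finset (Fin v × Fin v)) (ε₃ κ : ℝ) (h₀ : ℕ) : Prop :=
  EOK P pos E →
      ∀ h ≥ h₀, ∀ (N M : ℕ) (V : Fin v → Finset (Fin N)) (m : ℝ)
      (L : Fin v × Fin v → Finset (Fin M)) (Vc : Fin M × Fin kp → Finset (Fin N))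
      (Bad : (Fin M × Fin kp → Fin N) → Finset (Fin v → Fin N)),
      KF P h pos κ V m L Vc → (∀ t, Bad t ⊆ Fintype.piFinset V) →
      (∀ t t' : Fin M × Fin kp → Fin N,
        (∀ c : Fin M × Fin kp, (∀ e ∈ E, c.1 ∉ L e) → t c = t' c) → Bad t = Bad t') →
      ∀ A : Finset (Fin M × Fin kp → Fin N), (∀ t ∈ A, t ∈ Fintype.piFinset Vc ∧
          HW P h t pos L V m E ∧
          ((Bad t).card : ℝ) ≤ ε₃ * ((Fintype.piFinset V).card : ℝ) ∧
          ε₄ * nrm V m E < ((∑ x ∈ Bad t, ∏ e ∈ E, mm t pos L e x : ℕ) : ℝ)) →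
      (A.card : ℝ) ≤ Real.exp (-(K * m)) * ((Fintype.piFinset Vc).card : ℝ)

/-- constants for one pattern between roots -/
private lemma kg_G {kp v : ℕ} (P : Prm) (pos : Fin v → Fin kp) (ε₄ K : ℝ) (hε₄ : 0 < ε₄)
    (hK : 0 < K) (E : Finset (Fin v × Fin v)) :
    ∃ ε₃ : ℝ, 0 < ε₃ ∧ ∀ κ₁ : ℝ, 0 < κ₁ → ∃ h₀ : ℕ, PGc P pos ε₄ K E ε₃ κ₁ h₀ := by
  by_cases hE : EOK P pos E
  · obtain ⟨ε₃, h3, H⟩ := ggr P v pos E hE ε₄ K hε₄ hK
    refine ⟨ε₃, h3, fun κ₁ hκ => ?_⟩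
    obtain ⟨h₀, H⟩ := H κ₁ hκ
    refine ⟨h₀, fun _ h hh N M V m L Vc Bad hKF hB hD A hA => ?_⟩
    have hKH : KHyp P h pos E κ₁ V m L Vc := by
      refine ⟨hKF.hN, hKF.hM, hKF.hV, hKF.hm, hKF.hmM, ?_, fun e _ => hKF.hVc e⟩
      intro e he e' he' hne
      refine hKF.hdis e e' hne (fun hee => ?_)
      apply hE.simp e' he'
      rw [← hee]; exact he
    have h5 := H h hh N M V m L Vc Bad hKH hKF.hsym hB hD
    refine le_trans (Nat.cast_le.2 (Finset.card_le_card fun t ht => ?_)) h5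
    obtain ⟨h0, h1, h2, h3⟩ := hA t ht
    exact Finset.mem_filter.2 ⟨h0, h1, h2, h3⟩
  · refine ⟨1, one_pos, fun κ₁ _ => ⟨0, fun h1 => absurd h1 hE⟩⟩

private def PKc {kp v : ℕ} (P : Prm) (pos : Fin v → Fin kp) (c₀ ε K : ℝ)
    (FB : Finset (Fin v × Fin v) × Finset (Fin v)) (c εin κ : ℝ) (h₀ : ℕ) : Prop :=
  Adm P pos FB.1 FB.2 →
      ∀ h ≥ h₀, ∀ (N M : ℕ) (V : Fin v → Finset (Fin N)) (m : ℝ)
      (L : Fin v × Fin v → Finset (Fin M)) (Vc : Fin M × Fin kp → Finset (Fin N)),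
      KF P h pos κ V m L Vc →
      ∀ A : Finset (Fin M × Fin kp → Fin N), (∀ t ∈ A, t ∈ Fintype.piFinset Vc ∧
          CR P h t pos ∧ Dense t pos L V m FB.1 εin c₀ ∧ ¬ Reg t pos L V m FB.1 FB.2 ε c) →
      (A.card : ℝ) ≤ Real.exp (-(K * m)) * ((Fintype.piFinset Vc).card : ℝ)

/-- constants for one pattern -/
private lemma kg_K {kp v : ℕ} (P : Prm) (pos : Fin v → Fin kp) (c₀ ε K : ℝ) (hc₀ : 0 < c₀) (hε : 0 < ε)
    (hε1 : ε ≤ 1) (hK : 0 < K) (FB : Finset (Fin v × Fin v) × Finset (Fin v)) :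
    ∃ c : ℝ, 0 < c ∧ ∃ εin : ℝ, 0 < εin ∧ ∀ κ₁ : ℝ, 0 < κ₁ → ∃ h₀ : ℕ,
      PKc P pos c₀ ε K FB c εin κ₁ h₀ := by
  obtain ⟨F, B⟩ := FB
  by_cases hA : Adm P pos F B
  · obtain ⟨c, hc, εin, hεin, H⟩ := key P v pos F B hA.posd hA.simp hA.tch hA.d2 hA.rs c₀ ε K
      hc₀ hε hε1 hK
    refine ⟨c, hc, εin, hεin, fun κ₁ hκ => ?_⟩
    obtain ⟨h₀, H⟩ := H κ₁ hκ
    refine ⟨h₀, fun _ h hh N M V m L Vc hKF A hAt => ?_⟩
    have hKH : KHyp P h pos F κ₁ V m L Vc := by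
      refine ⟨hKF.hN, hKF.hM, hKF.hV, hKF.hm, hKF.hmM, ?_, fun e _ => hKF.hVc e⟩
      intro e he e' he' hne
      refine hKF.hdis e e' hne (fun hee => ?_)
      apply hA.simp e' he'
      rw [← hee]; exact he
    refine le_trans (Nat.cast_le.2 (Finset.card_le_card fun t ht => ?_))
      (H h hh N M V m L Vc hKH)
    exact Finset.mem_filter.2 (hAt t ht)
  · exact ⟨1, one_pos, 1, one_pos, fun κ₁ _ => ⟨0, fun h1 => absurd h1 hA⟩⟩

private lemma kg_nom_nonneg {v N : ℕ} (V : Fin v → Finset (Fin N)) {m : ℝ} (hm : 0 ≤ m)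
    (F : Finset (Fin v × Fin v)) (B : Finset (Fin v)) : 0 ≤ nom V m F B := by
  unfold nom
  exact mul_nonneg (Finset.prod_nonneg fun _ _ => Nat.cast_nonneg _)
    (Finset.prod_nonneg fun _ _ => div_nonneg hm (by positivity))

/-- the first type of bad configurations -/
private lemma kg_T1 {kp v N M : ℕ} {P : Prm} {pos : Fin v → Fin kp} {c₀ ε₄ K ε ε₅ c κ εG cK εK : ℝ}
    {h hG hK : ℕ} {V : Fin v → Finset (Fin N)} {m : ℝ} {L : Fin v × Fin v → Finset (Fin M)}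
    {Vc : Fin M × Fin kp → Finset (Fin N)} (hKF : KF P h pos κ V m L Vc)
    (F : Finset (Fin v × Fin v)) (B : Finset (Fin v)) (E : Finset (Fin v × Fin v))
    (S : Fin v → Finset (Fin N)) (hm0 : 0 ≤ m) (hε2 : ε ≤ 1 / 2)
    (hPG : PGc P pos ε₄ K E εG κ hG) (hPK : PKc P pos c₀ ε K (F, B) cK εK κ hK)
    (hG' : hG ≤ h) (hK' : hK ≤ h) (hεG : ε ≤ εG) (hcK : c ≤ cK) (hεK : ε₅ ≤ εK)
    (A : Finset (Fin M × Fin kp → Fin N)) (hA : ∀ t ∈ A, t ∈ Fintype.piFinset Vc ∧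
      KB0 P h t pos L V m c₀ ε₅ ∧ KB1 P t pos L V m c ε₄ F B E S) :
    (A.card : ℝ) ≤ 2 * (Real.exp (-(K * m)) * ((Fintype.piFinset Vc).card : ℝ)) := by
  rcases A.eq_empty_or_nonempty with rfl | ⟨t₀, ht₀⟩
  · simp only [Finset.card_empty, Nat.cast_zero]
    positivity
  obtain ⟨_, _, hAd, hFr, hE, hSV, hSB, _⟩ := hA t₀ ht₀
  have b1 := hPK hAd h hK' N M V m L Vc hKF (A.filter fun t => ¬ Reg t pos L V m F B ε c) (by
    intro t ht
    obtain ⟨ht1, hR⟩ := Finset.mem_filter.1 ht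
    obtain ⟨htV, ⟨hCR, hH, hDn⟩, _⟩ := hA t ht1
    refine ⟨htV, hCR, ?_, ?_⟩
    · intro e he S₁ S₂ hS₁ hS₂ hc₁ hc₂
      exact hDn e (by simp [allE, hAd.posd e he]) S₁ S₂ hS₁ hS₂
        ((mul_le_mul_of_nonneg_right hεK (Nat.cast_nonneg _)).trans hc₁)
        ((mul_le_mul_of_nonneg_right hεK (Nat.cast_nonneg _)).trans hc₂)
    · intro hR'
      apply hR
      intro S' hS' hS'B
      refine le_trans (Nat.cast_le.2 (Finset.card_le_card fun x hx => ?_)) (hR' S' hS' hS'B)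
      obtain ⟨hx1, hx2⟩ := Finset.mem_filter.1 hx
      exact Finset.mem_filter.2 ⟨hx1, lt_of_lt_of_le hx2
          (mul_le_mul_of_nonneg_right hcK (kg_nom_nonneg V hm0 F B))⟩)
  have b2 := hPG hFr h hG' N M V m L Vc
    (fun t => BD1 t pos L V m c F B S) hKF (fun t => Finset.filter_subset _ _) (by
      intro t t' htt
      refine Finset.filter_congr fun x _ => ?_
      have hx : ext t pos L F B S x = ext t' pos L F B S x := by
        refine kg_ext_congr S x fun f hf i hi a => ?_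
        refine htt (i, a) fun e he hie => ?_
        have hne1 : e ≠ f := by
          rintro rfl
          rcases hAd.tch e hf with h7 | h7
          · exact (hE e he).1 h7
          · exact (hE e he).2 h7
        have hne2 : e ≠ (f.2, f.1) := by
          rintro rfl
          rcases hAd.tch f hf with h7 | h7
          · exact (hE _ he).2 h7
          · exact (hE _ he).1 h7
        exact (Finset.disjoint_left.1 (hKF.hdis e f hne1 hne2)) hie hi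
      rw [hx]) (A.filter fun t => Reg t pos L V m F B ε c) (by
      intro t ht
      obtain ⟨ht1, hR⟩ := Finset.mem_filter.1 ht
      obtain ⟨htV, ⟨hCR, hH, hDn⟩, hB1⟩ := hA t ht1
      refine ⟨htV, hH E hFr, ?_, hB1.2.2.2.2.2⟩
      refine (hR S hSV fun i hi => ?_).trans
        (mul_le_mul_of_nonneg_right hεG (Nat.cast_nonneg _))
      have h8 : ((V i).card : ℝ) ≤ 2 * ((S i).card : ℝ) := by exact_mod_cast hSB i hi
      nlinarith [(Nat.cast_nonneg (V i).card : (0 : ℝ) ≤ (V i).card)])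
  have hsum := Finset.card_filter_add_card_filter_not (s := A) (fun t => Reg t pos L V m F B ε c)
  have hsum' : (A.card : ℝ) = ((A.filter fun t => Reg t pos L V m F B ε c).card : ℝ)
      + ((A.filter fun t => ¬ Reg t pos L V m F B ε c).card : ℝ) := by
    rw [← hsum]; push_cast; rfl
  rw [hsum', two_mul]
  exact add_le_add b2 b1


/-- the bad configurations for a fixed family of classes -/
private def KBad {kp v N M : ℕ} (P : Prm) (h : ℕ) (t : Fin M × Fin kp → Fin N)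
    (pos : Fin v → Fin kp)
    (L : Fin v × Fin v → Finset (Fin M)) (V : Fin v → Finset (Fin N)) (m c₀ εin c ε₄ : ℝ) : Prop :=
  KB0 P h t pos L V m c₀ εin ∧
    ∃ i : Finset (Fin v × Fin v) × Finset (Fin v) × Finset (Fin v × Fin v) ×
        (Fin v → Finset (Fin N)), KB1 P t pos L V m c ε₄ i.1 i.2.1 i.2.2.1 i.2.2.2

private lemma kg_card1 (v N : ℕ) :
    (Fintype.card (Finset (Fin v × Fin v) × Finset (Fin v) ×
        Finset (Fin v × Fin v) × (Fin v → Finset (Fin N))) : ℝ)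
      = 2 ^ (v * v) * 2 ^ v * 2 ^ (v * v) * 2 ^ (v * N) := by
  rw [Fintype.card_prod, Fintype.card_prod, Fintype.card_prod, Fintype.card_finset,
    Fintype.card_finset, Fintype.card_prod, Fintype.card_fin, Fintype.card_pi]
  simp only [Fintype.card_finset, Fintype.card_fin, Finset.prod_const, Finset.card_univ]
  push_cast
  rw [← pow_mul, mul_comm N v]
  ring

private lemma kg_arith (v : ℕ) (P E1 E2 X : ℝ) (hEX : 0 ≤ E2 * X)
    (h : ((2 * (2 ^ (v * v) * 2 ^ v * 2 ^ (v * v)) : ℕ) : ℝ) * P * E1 ≤ 1) :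
    (2 ^ (v * v) * 2 ^ v * 2 ^ (v * v) * P : ℝ) * (2 * (E1 * E2 * X)) ≤ E2 * X := by
  push_cast at h
  calc (2 ^ (v * v) * 2 ^ v * 2 ^ (v * v) * P : ℝ) * (2 * (E1 * E2 * X))
      = ((2 * ((2 : ℝ) ^ (v * v) * 2 ^ v * 2 ^ (v * v))) * P * E1) * (E2 * X) := by ring
    _ ≤ 1 * (E2 * X) := mul_le_mul_of_nonneg_right h hEX
    _ = E2 * X := one_mul _

private lemma kg_algeb (P : Prm) : 8 * P.al + 1 ≤ 8 * P.ga := by
  have h1 := P.hga
  have h2 := P.hdd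
  have h3 : P.be ≤ P.be * P.dd := Nat.le_mul_of_pos_right _ P.hd
  omega

private lemma kg_fix {kp v : ℕ} (P : Prm) (pos : Fin v → Fin kp) (c₀ ε₄ K : ℝ) (hc₀ : 0 < c₀)
    (hε₄ : 0 < ε₄) (hK : 0 < K) :
    ∃ c : ℝ, 0 < c ∧ ∃ εin : ℝ, 0 < εin ∧ ∀ κ : ℝ, 0 < κ → ∃ h₀ : ℕ, ∀ h ≥ h₀,
      ∀ (N M : ℕ) (V : Fin v → Finset (Fin N)) (m : ℝ)
      (L : Fin v × Fin v → Finset (Fin M)) (Vc : Fin M × Fin kp → Finset (Fin N)),
      KF P h pos κ V m L Vc →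
      ∀ A : Finset (Fin M × Fin kp → Fin N), (∀ t ∈ A, t ∈ Fintype.piFinset Vc ∧
        KBad P h t pos L V m c₀ εin c ε₄) →
      (A.card : ℝ) ≤ Real.exp (-((K - 1) * m)) * ((Fintype.piFinset Vc).card : ℝ) := by
  choose εG hεG HG using kg_G P pos ε₄ K hε₄ hK
  obtain ⟨ε₃, hε₃, hε₃le⟩ := kg_min εG hεG
  obtain ⟨ε, hεpos, hε3, hε2⟩ : ∃ ε : ℝ, 0 < ε ∧ ε ≤ ε₃ ∧ ε ≤ 1 / 2 :=
    ⟨min ε₃ (1 / 2), lt_min hε₃ (by norm_num), min_le_left _ _, min_le_right _ _⟩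
  have hε1 : ε ≤ 1 := hε2.trans (by norm_num)
  have hεle : ∀ E, ε ≤ εG E := fun E => hε3.trans (hε₃le E)
  choose cK hcK εK hεK HK using kg_K P pos c₀ ε K hc₀ hεpos hε1 hK
  obtain ⟨c, hc, hcle⟩ := kg_min cK hcK
  obtain ⟨ε₅, hε₅, hε₅le⟩ := kg_min εK hεK
  refine ⟨c, hc, ε₅, hε₅, fun κ hκ => ?_⟩
  choose hG HG using fun E => HG E κ hκ
  choose hKn HK using fun FB => HK FB κ hκ
  obtain ⟨h1, hh1⟩ := kg_max hG
  obtain ⟨h2, hh2⟩ := kg_max hKn
  obtain ⟨h3, hh3⟩ := kg_exp (8 * P.al) (8 * P.ga) (kg_algeb P)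
    (2 * (2 ^ (v * v) * 2 ^ v * 2 ^ (v * v))) v κ 1 hκ one_pos
  refine ⟨max (max h1 h2) (max h3 1), fun h hh N M V m L Vc hKF A hA => ?_⟩
  have e1 : h1 ≤ h := ((le_max_left _ _).trans (le_max_left _ _)).trans hh
  have e2 : h2 ≤ h := ((le_max_right _ _).trans (le_max_left _ _)).trans hh
  have e3 : h3 ≤ h := ((le_max_left _ _).trans (le_max_right _ _)).trans hh
  have hm0 : 0 ≤ m := le_trans (mul_nonneg hκ.le (Nat.cast_nonneg _)) hKF.hm
  obtain ⟨X, hX⟩ : ∃ X : ℝ, X = ((Fintype.piFinset Vc).card : ℝ) := ⟨_, rfl⟩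
  have hX0 : 0 ≤ X := by rw [hX]; exact Nat.cast_nonneg _
  rw [← hX]
  have hU1 : (A.card : ℝ) ≤ (2 ^ (v * v) * 2 ^ v * 2 ^ (v * v) * 2 ^ (v * N)) *
      (2 * (Real.exp (-(K * m)) * X)) := by
    rw [← kg_card1]
    refine kg_union (fun i => A.filter fun t => KB1 P t pos L V m c ε₄ i.1 i.2.1 i.2.2.1 i.2.2.2)
      A ?_ _ ?_
    · intro t ht
      obtain ⟨i, hi⟩ := (hA t ht).2.2
      exact ⟨i, Finset.mem_filter.2 ⟨ht, hi⟩⟩
    · rintro ⟨F, B, E, S⟩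
      rw [hX]
      refine kg_T1 hKF F B E S hm0 hε2 (HG E) (HK (F, B)) ((hh1 _).trans e1)
        ((hh2 _).trans e2) (hεle E) (hcle _) (hε₅le _) _ ?_
      intro t ht
      obtain ⟨ht1, ht2⟩ := Finset.mem_filter.1 ht
      have ht3 := hA t ht1
      exact ⟨ht3.1, ht3.2.1, ht2⟩
  refine hU1.trans ?_
  have hexp := hh3 h e3 m (by
    have : (M : ℝ) = (h : ℝ) ^ (8 * P.ga) := by rw [hKF.hM]; push_cast; rfl
    rw [← this]; exact hKF.hm)
  rw [← hKF.hN] at hexp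
  have hsplit : Real.exp (-(K * m)) = Real.exp (-m) * Real.exp (-((K - 1) * m)) := by
    rw [← Real.exp_add]; congr 1; ring
  rw [hsplit]
  exact kg_arith v _ _ _ X (mul_nonneg (Real.exp_pos _).le hX0) hexp

/-- size facts from `Parts` -/
private lemma kg_sizes {kp v N M : ℕ} {pos : Fin v → Fin kp} {κ₁ : ℝ} {V : Fin v → Finset (Fin N)}
    {Vg : Fin kp → Finset (Fin N)} {nn : Fin kp → ℕ} (hP : Parts pos κ₁ V Vg nn) (hκ : 0 < κ₁)
    (hN : 0 < N) :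
    (∀ i, (min κ₁ 1) ^ (kp + 1) * (N : ℝ) ≤ ((V i).card : ℝ)) ∧
      (min κ₁ 1) ^ (kp + 1) * (M : ℝ) ≤ msz N M nn ∧ msz N M nn ≤ (M : ℝ) := by
  have hNr : (0 : ℝ) < N := by exact_mod_cast hN
  have hnn : ∀ a, (nn a : ℝ) ≤ N := by
    intro a
    rw [← hP.cg a]
    have := Finset.card_le_univ (Vg a)
    rw [Fintype.card_fin] at this
    exact_mod_cast this
  obtain ⟨κ, hκe⟩ : ∃ κ : ℝ, κ = min κ₁ 1 := ⟨_, rfl⟩
  rw [← hκe]
  have hκ0 : 0 < κ := by rw [hκe]; exact lt_min hκ one_pos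
  have hκ1 : κ ≤ 1 := by rw [hκe]; exact min_le_right _ _
  have hκκ : κ ≤ κ₁ := by rw [hκe]; exact min_le_left _ _
  have hκ4 : κ ^ (kp + 1) ≤ κ₁ := by
    calc κ ^ (kp + 1) ≤ κ ^ 1 := pow_le_pow_of_le_one hκ0.le hκ1 (by omega)
      _ = κ := pow_one _
      _ ≤ κ₁ := hκκ
  have hlo : ∀ a, κ ≤ (nn a : ℝ) / N := fun a =>
    (le_div_iff₀ hNr).2 ((mul_le_mul_of_nonneg_right hκκ hNr.le).trans (hP.big a))
  have hhi : ∀ a, (nn a : ℝ) / N ≤ 1 := fun a => (div_le_one hNr).2 (hnn a)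
  refine ⟨?_, ?_, ?_⟩
  · intro i
    rw [hP.cV i]
    exact (mul_le_mul_of_nonneg_right hκ4 hNr.le).trans (hP.big _)
  · unfold msz
    rw [mul_comm]
    refine mul_le_mul_of_nonneg_left ?_ (Nat.cast_nonneg _)
    calc κ ^ (kp + 1) ≤ κ ^ kp := pow_le_pow_of_le_one hκ0.le hκ1 (by omega)
      _ = ∏ _a : Fin kp, κ := by simp
      _ ≤ ∏ a : Fin kp, ((nn a : ℝ) / (N : ℝ)) :=
        Finset.prod_le_prod (fun _ _ => hκ0.le) (fun a _ => hlo a)
  · unfold msz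
    calc (M : ℝ) * ∏ a, ((nn a : ℝ) / (N : ℝ)) ≤ M * 1 := by
          refine mul_le_mul_of_nonneg_left ?_ (Nat.cast_nonneg _)
          exact Finset.prod_le_one (fun a _ => by positivity) (fun a _ => hhi a)
      _ = M := mul_one _

/-- Few configurations satisfy the crude conditions but are not pattern good. -/
theorem kg {kp : ℕ} (P : Prm) (v : ℕ) (pos : Fin v → Fin kp) :
    ∀ c₀ ε₄ : ℝ, 0 < c₀ → 0 < ε₄ → ∃ c : ℝ, 0 < c ∧ ∃ εin : ℝ, 0 < εin ∧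
    ∀ κ₁ δ : ℝ, 0 < κ₁ → 0 < δ → ∃ h₀ : ℕ, ∀ h ≥ h₀, ∀ N M : ℕ,
      N = h ^ (8 * P.al) → M = h ^ (8 * P.ga) →
      (((Finset.univ : Finset (Fin M × Fin kp → Fin N)).filter fun t =>
          CR P h t pos ∧ HC P h κ₁ t pos ∧ UU κ₁ t ∧ ¬ PG P t pos c₀ εin c ε₄ κ₁).card : ℝ)
        ≤ δ * (Fintype.card (Fin M × Fin kp → Fin N) : ℝ) := by
  intro c₀ ε₄ hc₀ hε₄
  obtain ⟨c, hc, εin, hεin, H⟩ := kg_fix P pos c₀ ε₄ ((v : ℝ) ^ 2 + 3) hc₀ hε₄ (by positivity)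
  refine ⟨c, hc, εin, hεin, fun κ₁ δ hκ₁ hδ => ?_⟩
  obtain ⟨κ', hκ'⟩ : ∃ κ' : ℝ, κ' = (min κ₁ 1) ^ (kp + 1) := ⟨_, rfl⟩
  have hκ'0 : 0 < κ' := by
    rw [hκ']
    exact pow_pos (lt_min hκ₁ one_pos) _
  obtain ⟨h1, H1⟩ := H κ' hκ'0
  obtain ⟨h2, H2⟩ := kg_exp (8 * P.al) (8 * P.ga) (kg_algeb P) 1 (v + kp) κ' δ hκ'0 hδ
  obtain ⟨h3, H3⟩ := hw_of P v pos κ₁ hκ₁
  refine ⟨max (max h1 h2) (max h3 1), fun h hh N M hN hM => ?_⟩
  have e1 : h1 ≤ h := ((le_max_left _ _).trans (le_max_left _ _)).trans hh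
  have e2 : h2 ≤ h := ((le_max_right _ _).trans (le_max_left _ _)).trans hh
  have e3 : h3 ≤ h := ((le_max_left _ _).trans (le_max_right _ _)).trans hh
  have e4 : 1 ≤ h := ((le_max_right _ _).trans (le_max_right _ _)).trans hh
  have hNpos : 0 < N := by rw [hN]; exact Nat.pow_pos e4
  have hT0 : (0 : ℝ) ≤ (Fintype.card (Fin M × Fin kp → Fin N) : ℝ) := Nat.cast_nonneg _
  have hMr : (M : ℝ) = (h : ℝ) ^ (8 * P.ga) := by rw [hM]; push_cast; rfl
  obtain ⟨T, hT⟩ : ∃ T : ℝ, T = (Fintype.card (Fin M × Fin kp → Fin N) : ℝ) := ⟨_, rfl⟩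
  rw [← hT] at hT0 ⊢
  obtain ⟨U, hU⟩ : ∃ U : Finset (Fin M × Fin kp → Fin N), U = (Finset.univ.filter fun t =>
    CR P h t pos ∧ HC P h κ₁ t pos ∧ UU κ₁ t ∧ ¬ PG P t pos c₀ εin c ε₄ κ₁) := ⟨_, rfl⟩
  rw [← hU]
  have hkey := kg_union (I := (Fin v → Finset (Fin N)) × (Fin kp → Finset (Fin N)))
    (fun p => Finset.univ.filter fun t : Fin M × Fin kp → Fin N =>
      Parts pos κ₁ p.1 p.2 (fun a => (p.2 a).card) ∧
      ∃ L0 : Finset (Fin M), KBad P h t pos (clsL t pos p.1 p.2 L0) p.1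
        (msz N M (fun a => (p.2 a).card)) c₀ εin c ε₄) U ?_
    (Real.exp (-(κ' * (h : ℝ) ^ (8 * P.ga))) * T) ?_
  · refine hkey.trans ?_
    have hcard : (Fintype.card ((Fin v → Finset (Fin N)) × (Fin kp → Finset (Fin N))) : ℝ)
        = 2 ^ ((v + kp) * h ^ (8 * P.al)) := by
      rw [Fintype.card_prod, Fintype.card_pi, Fintype.card_pi]
      simp only [Fintype.card_finset, Fintype.card_fin, Finset.prod_const, Finset.card_univ]
      rw [← hN]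
      push_cast
      rw [← pow_mul, ← pow_mul, ← pow_add]
      congr 1
      ring
    rw [hcard]
    have h9 := H2 h e2 (κ' * (h : ℝ) ^ (8 * P.ga)) le_rfl
    rw [Nat.cast_one, one_mul] at h9
    calc (2 : ℝ) ^ ((v + kp) * h ^ (8 * P.al)) * (Real.exp (-(κ' * (h : ℝ) ^ (8 * P.ga))) * T)
        = (2 : ℝ) ^ ((v + kp) * h ^ (8 * P.al)) * Real.exp (-(κ' * (h : ℝ) ^ (8 * P.ga))) * T := by
          ring
      _ ≤ δ * T := mul_le_mul_of_nonneg_right h9 hT0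
  · intro t ht
    rw [hU] at ht
    obtain ⟨_, hCR, hHC, hUU, hPG⟩ := Finset.mem_filter.1 ht
    unfold PG at hPG
    push Not at hPG
    obtain ⟨V, Vg, nn, L0, hParts, hDense, F, B, E, S, hAd, hE, hEB, hSV, hSB, hlt⟩ := hPG
    have hnn : nn = fun a => (Vg a).card := funext fun a => (hParts.cg a).symm
    subst hnn
    refine ⟨(V, Vg), Finset.mem_filter.2 ⟨Finset.mem_univ _, hParts, L0, ⟨hCR, ?_, hDense⟩, ?_⟩⟩
    · intro E' hE'
      exact H3 h e3 N M hN hM t hCR hHC hUU V Vg _ L0 hParts E' hE'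
    · exact ⟨(F, B, E, S), hAd, hE, hEB, hSV, hSB, hlt⟩
  · rintro ⟨V, Vg⟩
    rcases (Finset.univ.filter fun t : Fin M × Fin kp → Fin N =>
      Parts pos κ₁ V Vg (fun a => (Vg a).card) ∧
      ∃ L0 : Finset (Fin M), KBad P h t pos (clsL t pos V Vg L0) V
        (msz N M (fun a => (Vg a).card)) c₀ εin c ε₄).eq_empty_or_nonempty with h0 | ⟨t₀, ht₀⟩
    · simp only at h0 ⊢
      rw [h0]
      simp only [Finset.card_empty, Nat.cast_zero]
      positivity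
    · have hParts := (Finset.mem_filter.1 ht₀).2.1
      obtain ⟨s1, s2, s3⟩ := kg_sizes (M := M) hParts hκ₁ hNpos
      rw [← hκ'] at s1 s2
      have hcu := class_union pos V Vg (fun a => (Vg a).card) hParts.cV hParts.cg hParts.disV
        hParts.disg hNpos (msz N M (fun a => (Vg a).card)) ((v : ℝ) ^ 2 + 2) rfl
        (fun t L => KBad P h t pos L V (msz N M (fun a => (Vg a).card)) c₀ εin c ε₄) (by
          intro L Vc hsym hemp hdis hVc
          have hKF : KF P h pos κ' V (msz N M (fun a => (Vg a).card)) L Vc :=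
            ⟨hN, hM, s1, s2, s3, hsym, hdis, hVc⟩
          have h10 := H1 h e1 N M V _ L Vc hKF
            ((Fintype.piFinset Vc).filter fun t => KBad P h t pos L V
              (msz N M (fun a => (Vg a).card)) c₀ εin c ε₄)
            (fun t ht => Finset.mem_filter.1 ht)
          have h11 : (v : ℝ) ^ 2 + 3 - 1 = (v : ℝ) ^ 2 + 2 := by ring
          rw [h11] at h10
          exact h10)
      rw [← hT] at hcu
      refine le_trans (Nat.cast_le.2 (Finset.card_le_card fun t ht => ?_)) (hcu.trans ?_)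
      · obtain ⟨_, _, L0, hL0⟩ := Finset.mem_filter.1 ht
        exact Finset.mem_filter.2 ⟨Finset.mem_univ _, L0, hL0⟩
      · refine mul_le_mul_of_nonneg_right (Real.exp_le_exp.2 ?_) hT0
        rw [hMr] at s2
        have h12 : ((v : ℝ) ^ 2 - ((v : ℝ) ^ 2 + 2)) * msz N M (fun a => (Vg a).card)
            = -(2 * msz N M (fun a => (Vg a).card)) := by ring
        rw [h12]
        have h13 : (0 : ℝ) ≤ κ' * (h : ℝ) ^ (8 * P.ga) := by positivity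
        linarith

/-- Pattern goodness is monotone in `εin`. -/
theorem pg_anti {kp v N M : ℕ} (P : Prm) (t : Fin M × Fin kp → Fin N) (pos : Fin v → Fin kp)
    (c₀ εin εin' c ε₄ κ₁ : ℝ) (hle : εin' ≤ εin) (h : PG P t pos c₀ εin c ε₄ κ₁) :
    PG P t pos c₀ εin' c ε₄ κ₁ := by
  intro V Vg nn L0 hParts hDn
  refine h V Vg nn L0 hParts ?_
  intro e he S₁ S₂ hS₁ hS₂ hc₁ hc₂
  exact hDn e he S₁ S₂ hS₁ hS₂
    ((mul_le_mul_of_nonneg_right hle (Nat.cast_nonneg _)).trans hc₁)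
    ((mul_le_mul_of_nonneg_right hle (Nat.cast_nonneg _)).trans hc₂)

end Pool.Agent.CUG
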