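import Pool.Agent.CUG.Defs

set_option autoImplicit false

/-!
# CUG.KKC

Adapt CUB/KKC.lean. Fix the first components `v i`, `w j` (`≤ b^(s+s')` choices) and the equality pattern of
`ℓ : Fin s → Fin s' → Fin M` (finitely many). For a value `k` of `ℓ` let `R_k = {i : ∃ j, ℓ i j = k}`,
`C_k = {j : ∃ i, ℓ i j = k}`, sizes `r_k, c_k ≥ 1`. If the configuration is realised for some `f`, then `v` is injective on
`R_k` and `w` on `C_k` (as in CUB) and `B.Adj (v i) (w j)` for all `i, j`, so `min(r_k, c_k) ≤ dd` by `hB`, and the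
conditions fix `r_k + c_k` different cells of block `k`. The expected number is at most
`C g^{al (s+s')} ∏_k g^{ga - al (r_k + c_k)}`. For `1 ≤ r, c`, `min(r,c) ≤ dd`: `ga + be r c ≤ al (r + c)` (with `r ≤ dd`:
`al (r+c) - ga = al (r+c-2) + be` and `al (r + c - 2) ≥ be dd (r + c - 2) ≥ be r (r + c - 2) ≥ be (r c - 1)` as
`(r-1)^2 ≥ 0`). And `∑_k r_k c_k ≥ s s'`. So the exponent is `≤ al (s+s') - be s s' ≤ ga - 1` by `hss`.
-/

namespace Pool.Agent.CUG

open Pool.Agent.CUB
open scoped Classical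

/-- Counting functions with prescribed values on `Z`. -/
private lemma kkc_cnt {X : Type} [Fintype X] {N : ℕ} (Z : Finset X) (A : Finset (X → Fin N))
    (h : ∀ f ∈ A, ∀ f' ∈ A, ∀ z ∈ Z, f z = f' z) :
    A.card * N ^ Z.card ≤ Fintype.card (X → Fin N) := by
  have h1 : A.card * N ^ Z.card = (A ×ˢ (Finset.univ : Finset (Z → Fin N))).card := by
    rw [Finset.card_product, Finset.card_univ, Fintype.card_fun, Fintype.card_fin,
      Fintype.card_coe]
  rw [h1, ← Finset.card_univ]
  refine Finset.card_le_card_of_injOn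
    (fun p => fun x => if hx : x ∈ Z then p.2 ⟨x, hx⟩ else p.1 x) (fun _ _ => Finset.mem_univ _) ?_
  rintro ⟨f, g⟩ hp ⟨f', g'⟩ hp' he
  have hf : f ∈ A := (Finset.mem_product.mp hp).1
  have hf' : f' ∈ A := (Finset.mem_product.mp hp').1
  have hpt : ∀ x, (if hx : x ∈ Z then g ⟨x, hx⟩ else f x) =
      (if hx : x ∈ Z then g' ⟨x, hx⟩ else f' x) := fun x => congrFun he x
  have hg : g = g' := by
    funext z
    have := hpt z.1
    rw [dif_pos z.2, dif_pos z.2] at this
    exact this
  have hff : f = f' := by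
    funext x
    by_cases hx : x ∈ Z
    · exact h f hf f' hf' x hx
    · have := hpt x
      rw [dif_neg hx, dif_neg hx] at this
      exact this
  rw [hg, hff]

/-- The sum of `M ^ (-|image|)` over all functions. -/
private lemma kkc_img (M : ℕ) (hM : 1 ≤ M) : ∀ n : ℕ,
    ∑ x : Fin n → Fin M, (1 / (M : ℝ) ^ (Finset.univ.image x).card) ≤ (n.factorial : ℝ) := by
  intro n
  induction n with
  | zero =>
    rw [Fintype.sum_unique]
    simp
  | succ n ih =>
    have hMpos : (0 : ℝ) < (M : ℝ) := by exact_mod_cast hM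
    rw [← (Fin.consEquiv (fun _ : Fin (n + 1) => Fin M)).sum_comp, Fintype.sum_prod_type_right]
    have key : ∀ x : Fin n → Fin M,
        ∑ y : Fin M, (1 / (M : ℝ) ^ (Finset.univ.image
          ((Fin.consEquiv (fun _ : Fin (n + 1) => Fin M)) (y, x))).card)
        ≤ ((n : ℝ) + 1) * (1 / (M : ℝ) ^ (Finset.univ.image x).card) := by
      intro x
      have him : ∀ y : Fin M, Finset.univ.image
          ((Fin.consEquiv (fun _ : Fin (n + 1) => Fin M)) (y, x))
            = insert y (Finset.univ.image x) := by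
        intro y
        ext z
        simp only [Finset.mem_image, Finset.mem_univ, true_and, Finset.mem_insert]
        constructor
        · rintro ⟨i, hi⟩
          induction i using Fin.cases with
          | zero =>
            left
            rw [← hi]
            rfl
          | succ j =>
            right
            exact ⟨j, by rw [← hi]; rfl⟩
        · rintro (h | ⟨j, hj⟩)
          · exact ⟨0, by rw [h]; rfl⟩
          · exact ⟨j.succ, by rw [← hj]; rfl⟩
      have hsplit : ∀ y : Fin M, (1 / (M : ℝ) ^ (Finset.univ.image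
          ((Fin.consEquiv (fun _ : Fin (n + 1) => Fin M)) (y, x))).card)
          ≤ (if y ∈ Finset.univ.image x then (1 / (M : ℝ) ^ (Finset.univ.image x).card) else 0)
            + (1 / (M : ℝ)) * (1 / (M : ℝ) ^ (Finset.univ.image x).card) := by
        intro y
        rw [him y]
        by_cases hy : y ∈ Finset.univ.image x
        · rw [if_pos hy, Finset.insert_eq_of_mem hy]
          have : 0 ≤ (1 / (M : ℝ)) * (1 / (M : ℝ) ^ (Finset.univ.image x).card) := by positivity
          linarith
        · rw [if_neg hy, Finset.card_insert_of_notMem hy, pow_succ, zero_add]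
          apply le_of_eq
          field_simp
      refine (Finset.sum_le_sum fun y _ => hsplit y).trans ?_
      rw [Finset.sum_add_distrib, Finset.sum_const, Finset.card_univ, Fintype.card_fin,
        ← Finset.sum_filter, Finset.sum_const]
      have hc : (Finset.univ.filter (fun y => y ∈ Finset.univ.image x)).card ≤ n := by
        have h1 : Finset.univ.filter (fun y => y ∈ Finset.univ.image x) = Finset.univ.image x := by
          ext z; simp
        rw [h1]
        refine Finset.card_image_le.trans ?_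
        rw [Finset.card_univ, Fintype.card_fin]
      have hpos : 0 ≤ (1 / (M : ℝ) ^ (Finset.univ.image x).card) := by positivity
      have hc' : ((Finset.univ.filter (fun y => y ∈ Finset.univ.image x)).card : ℝ) ≤ (n : ℝ) := by
        exact_mod_cast hc
      rw [nsmul_eq_mul, nsmul_eq_mul]
      have e1 : (M : ℝ) * ((1 / (M : ℝ)) * (1 / (M : ℝ) ^ (Finset.univ.image x).card))
          = (1 / (M : ℝ) ^ (Finset.univ.image x).card) := by
        field_simp
      rw [e1]
      nlinarith
    refine (Finset.sum_le_sum fun x _ => key x).trans ?_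
    rw [← Finset.mul_sum, Nat.factorial_succ]
    push_cast
    have : (0 : ℝ) ≤ (n : ℝ) + 1 := by positivity
    nlinarith


/-- The cells used by `ℓ` (values on the left, indices of the two tuples on the right). -/
private noncomputable def kkcS {M s s' : ℕ} (l : Fin s → Fin s' → Fin M) :
    Finset (Fin M × (Fin s ⊕ Fin s')) :=
  Finset.univ.filter fun p => Sum.elim (fun i => ∃ j, l i j = p.1) (fun j => ∃ i, l i j = p.1) p.2

private noncomputable def kkcI {M s s' : ℕ} (l : Fin s → Fin s' → Fin M) : Finset (Fin M) :=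
  Finset.univ.image fun q : Fin s × Fin s' => l q.1 q.2

private noncomputable def kkcR {M s s' : ℕ} (l : Fin s → Fin s' → Fin M) (k : Fin M) :
    Finset (Fin s) :=
  Finset.univ.filter fun i => ∃ j, l i j = k

private noncomputable def kkcC {M s s' : ℕ} (l : Fin s → Fin s' → Fin M) (k : Fin M) :
    Finset (Fin s') :=
  Finset.univ.filter fun j => ∃ i, l i j = k

private lemma kkc_cardS {M s s' : ℕ} (l : Fin s → Fin s' → Fin M) :
    (kkcS l).card = ∑ k ∈ kkcI l, ((kkcR l k).card + (kkcC l k).card) := by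
  have hmaps : ∀ p ∈ kkcS l, Prod.fst p ∈ kkcI l := by
    rintro ⟨k, u⟩ hp
    unfold kkcS at hp
    rw [Finset.mem_filter] at hp
    unfold kkcI
    rw [Finset.mem_image]
    rcases u with i | j
    · obtain ⟨j, hj⟩ := hp.2
      exact ⟨(i, j), Finset.mem_univ _, hj⟩
    · obtain ⟨i, hi⟩ := hp.2
      exact ⟨(i, j), Finset.mem_univ _, hi⟩
  rw [Finset.card_eq_sum_card_fiberwise hmaps]
  refine Finset.sum_congr rfl fun k _ => ?_
  rw [← Finset.card_disjSum]
  refine Finset.card_bij (fun p _ => p.2) ?_ ?_ ?_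
  · rintro ⟨k', u⟩ hp
    rw [Finset.mem_filter] at hp
    obtain ⟨hp1, rfl⟩ := hp
    unfold kkcS at hp1
    rw [Finset.mem_filter] at hp1
    rcases u with i | j
    · rw [Finset.inl_mem_disjSum]
      exact Finset.mem_filter.mpr ⟨Finset.mem_univ _, hp1.2⟩
    · rw [Finset.inr_mem_disjSum]
      exact Finset.mem_filter.mpr ⟨Finset.mem_univ _, hp1.2⟩
  · rintro ⟨k1, u1⟩ h1 ⟨k2, u2⟩ h2 he
    have e1 : k1 = k := (Finset.mem_filter.mp h1).2
    have e2 : k2 = k := (Finset.mem_filter.mp h2).2
    have e3 : u1 = u2 := he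
    rw [e1, e2, e3]
  · rintro u hs
    refine ⟨(k, u), ?_, rfl⟩
    rw [Finset.mem_filter]
    refine ⟨?_, rfl⟩
    unfold kkcS
    rw [Finset.mem_filter]
    refine ⟨Finset.mem_univ _, ?_⟩
    rcases u with i | j
    · rw [Finset.inl_mem_disjSum] at hs
      exact (Finset.mem_filter.mp hs).2
    · rw [Finset.inr_mem_disjSum] at hs
      exact (Finset.mem_filter.mp hs).2

private lemma kkc_num1 (al be ga dd r c : ℕ) (hga : ga + be = 2 * al) (hdd : be * dd ≤ al)
    (hr : 1 ≤ r) (hc : 1 ≤ c) (h : r ≤ dd) : ga + be * (r * c) ≤ al * (r + c) := by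
  obtain ⟨r', rfl⟩ := Nat.exists_eq_add_of_le hr
  obtain ⟨c', rfl⟩ := Nat.exists_eq_add_of_le hc
  have h1 : be * (1 + r') ≤ al := (Nat.mul_le_mul_left _ h).trans hdd
  have h2 : be * (1 + r') * (r' + c') ≤ al * (r' + c') := Nat.mul_le_mul_right _ h1
  nlinarith [Nat.zero_le (be * (r' * r'))]

private lemma kkc_num (al be ga dd r c : ℕ) (hga : ga + be = 2 * al) (hdd : be * dd ≤ al)
    (hr : 1 ≤ r) (hc : 1 ≤ c) (h : r ≤ dd ∨ c ≤ dd) : ga + be * (r * c) ≤ al * (r + c) := by
  rcases h with h | h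
  · exact kkc_num1 al be ga dd r c hga hdd hr hc h
  · have := kkc_num1 al be ga dd c r hga hdd hc hr h
    rw [mul_comm r c, add_comm r c]
    exact this

private lemma kkc_pat {M s s' : ℕ} (al be ga dd : ℕ) (hga : ga + be = 2 * al)
    (hdd : be * dd ≤ al) (l : Fin s → Fin s' → Fin M)
    (hl : ∀ k, (kkcR l k).card ≤ dd ∨ (kkcC l k).card ≤ dd) :
    ga * (kkcI l).card + be * (s * s') ≤ al * (kkcS l).card := by
  rw [kkc_cardS, Finset.mul_sum]
  have hR : ∀ k ∈ kkcI l, 1 ≤ (kkcR l k).card ∧ 1 ≤ (kkcC l k).card := by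
    intro k hk
    unfold kkcI at hk
    rw [Finset.mem_image] at hk
    obtain ⟨⟨i, j⟩, _, hij⟩ := hk
    exact ⟨Finset.card_pos.mpr ⟨i, Finset.mem_filter.mpr ⟨Finset.mem_univ _, j, hij⟩⟩,
      Finset.card_pos.mpr ⟨j, Finset.mem_filter.mpr ⟨Finset.mem_univ _, i, hij⟩⟩⟩
  have h1 : ∑ k ∈ kkcI l, (ga + be * ((kkcR l k).card * (kkcC l k).card)) ≤
      ∑ k ∈ kkcI l, al * ((kkcR l k).card + (kkcC l k).card) := by
    refine Finset.sum_le_sum fun k hk => ?_
    exact kkc_num al be ga dd _ _ hga hdd (hR k hk).1 (hR k hk).2 (hl k)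
  refine le_trans ?_ h1
  rw [Finset.sum_add_distrib, Finset.sum_const, smul_eq_mul, ← Finset.mul_sum]
  have h16 : s * s' ≤ ∑ k ∈ kkcI l, ((kkcR l k).card * (kkcC l k).card) := by
    have hu : (Finset.univ : Finset (Fin s × Fin s')).card = s * s' := by
      rw [Finset.card_univ, Fintype.card_prod, Fintype.card_fin, Fintype.card_fin]
    rw [← hu, Finset.card_eq_sum_card_fiberwise (f := fun q : Fin s × Fin s' => l q.1 q.2)
      (t := kkcI l) (fun q _ => Finset.mem_image.mpr ⟨q, Finset.mem_univ _, rfl⟩)]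
    refine Finset.sum_le_sum fun k _ => ?_
    rw [← Finset.card_product]
    refine Finset.card_le_card ?_
    rintro ⟨i, j⟩ hq
    rw [Finset.mem_filter] at hq
    rw [Finset.mem_product]
    exact ⟨Finset.mem_filter.mpr ⟨Finset.mem_univ _, j, hq.2⟩,
      Finset.mem_filter.mpr ⟨Finset.mem_univ _, i, hq.2⟩⟩
  have h17 := Nat.mul_le_mul_left be h16
  rw [mul_comm ga]
  omega

/-- The number of `f` realising a configuration. -/
private lemma kkc_one {b N M s s' : ℕ} (B : SimpleGraph (Fin b))
    (c : (Fin s → Fin b × Fin N) × (Fin s' → Fin b × Fin N) × (Fin s → Fin s' → Fin M)) :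
    ((Finset.univ : Finset (Fin M × Fin b → Fin N)).filter fun f => CrossK B f c).card *
      N ^ (kkcS c.2.2).card ≤ Fintype.card (Fin M × Fin b → Fin N) := by
  rcases Finset.eq_empty_or_nonempty
    ((Finset.univ : Finset (Fin M × Fin b → Fin N)).filter fun f => CrossK B f c) with h0 | ⟨f0, hf0⟩
  · rw [h0, Finset.card_empty, zero_mul]
    exact Nat.zero_le _
  obtain ⟨a, a', l⟩ := c
  have hC0 : CrossK B f0 (a, a', l) := (Finset.mem_filter.mp hf0).2
  obtain ⟨hia, hia', hadj, hval⟩ := hC0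
  simp only at hia hia' hadj hval
  let φ : Fin M × (Fin s ⊕ Fin s') → Fin M × Fin b :=
    fun p => (p.1, Sum.elim (fun i => (a i).1) (fun j => (a' j).1) p.2)
  have hinj : Set.InjOn φ (kkcS l : Set (Fin M × (Fin s ⊕ Fin s'))) := by
    rintro ⟨k, u⟩ hs ⟨k', u'⟩ hs' he
    have hk : k = k' := congrArg Prod.fst he
    subst hk
    have h2 : Sum.elim (fun i => (a i).1) (fun j => (a' j).1) u =
        Sum.elim (fun i => (a i).1) (fun j => (a' j).1) u' := congrArg Prod.snd he
    have hs1 := (Finset.mem_filter.mp (Finset.mem_coe.mp hs)).2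
    have hs2 := (Finset.mem_filter.mp (Finset.mem_coe.mp hs')).2
    rcases u with i | j <;> rcases u' with i' | j'
    · obtain ⟨j, hj⟩ := hs1
      obtain ⟨j', hj'⟩ := hs2
      have e1 := (hval i j).1
      have e2 := (hval i' j').1
      simp only at hj hj'
      rw [hj] at e1
      rw [hj'] at e2
      have h3 : (a i).1 = (a i').1 := h2
      have h4 : a i = a i' := by
        refine Prod.ext h3 ?_
        rw [← e1, ← e2, h3]
      rw [hia h4]
    · exfalso
      have h3 : (a i).1 = (a' j').1 := h2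
      exact (hadj i j').ne h3
    · exfalso
      have h3 : (a' j).1 = (a i').1 := h2
      exact (hadj i' j).ne h3.symm
    · obtain ⟨i, hi⟩ := hs1
      obtain ⟨i', hi'⟩ := hs2
      have e1 := (hval i j).2
      have e2 := (hval i' j').2
      simp only at hi hi'
      rw [hi] at e1
      rw [hi'] at e2
      have h3 : (a' j).1 = (a' j').1 := h2
      have h4 : a' j = a' j' := by
        refine Prod.ext h3 ?_
        rw [← e1, ← e2, h3]
      rw [hia' h4]
  have hcard : ((kkcS l).image φ).card = (kkcS l).card := Finset.card_image_of_injOn hinj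
  have := kkc_cnt ((kkcS l).image φ)
    ((Finset.univ : Finset (Fin M × Fin b → Fin N)).filter fun f => CrossK B f (a, a', l)) (by
      intro f hf f' hf' z hz
      have h1 := (Finset.mem_filter.mp hf).2.2.2.2
      have h2 := (Finset.mem_filter.mp hf').2.2.2.2
      obtain ⟨⟨k, u⟩, hs, rfl⟩ := Finset.mem_image.mp hz
      have hs1 := (Finset.mem_filter.mp hs).2
      rcases u with i | j
      · obtain ⟨j, hj⟩ := hs1
        have e1 := (h1 i j).1
        have e2 := (h2 i j).1
        simp only at hj e1 e2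
        rw [hj] at e1 e2
        change f (k, (a i).1) = f' (k, (a i).1)
        rw [e1, e2]
      · obtain ⟨i, hi⟩ := hs1
        have e1 := (h1 i j).2
        have e2 := (h2 i j).2
        simp only at hi e1 e2
        rw [hi] at e1 e2
        change f (k, (a' j).1) = f' (k, (a' j).1)
        rw [e1, e2])
  rw [hcard] at this
  convert this using 2

/-- In a realised configuration no block covers a large complete bipartite graph. -/
private lemma kkc_small {b N M s s' dd : ℕ} (B : SimpleGraph (Fin b))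
    (hB : KSFree (dd + 1) (dd + 1) B) (f : Fin M × Fin b → Fin N)
    (c : (Fin s → Fin b × Fin N) × (Fin s' → Fin b × Fin N) × (Fin s → Fin s' → Fin M))
    (hf : CrossK B f c) (k : Fin M) :
    (kkcR c.2.2 k).card ≤ dd ∨ (kkcC c.2.2 k).card ≤ dd := by
  by_contra hcon
  push Not at hcon
  obtain ⟨hR, hC⟩ := hcon
  obtain ⟨a, a', l⟩ := c
  obtain ⟨hia, hia', hadj, hval⟩ := hf
  simp only at hia hia' hadj hval hR hC
  obtain ⟨u, hu, huc⟩ := Finset.exists_subset_card_eq (show dd + 1 ≤ (kkcR l k).card from hR)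
  obtain ⟨w, hw, hwc⟩ := Finset.exists_subset_card_eq (show dd + 1 ≤ (kkcC l k).card from hC)
  let eu := u.orderIsoOfFin huc
  let ew := w.orderIsoOfFin hwc
  refine hB (fun i => (a (eu i).1).1) (fun j => (a' (ew j).1).1) ?_ ?_ ?_
  · intro i i' he
    have h3 : (a (eu i).1).1 = (a (eu i').1).1 := he
    obtain ⟨j, hj⟩ := (Finset.mem_filter.mp (hu (eu i).2)).2
    obtain ⟨j', hj'⟩ := (Finset.mem_filter.mp (hu (eu i').2)).2
    have e1 := (hval (eu i).1 j).1
    have e2 := (hval (eu i').1 j').1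
    rw [hj] at e1
    rw [hj'] at e2
    have h4 : a (eu i).1 = a (eu i').1 := by
      refine Prod.ext h3 ?_
      rw [← e1, ← e2, h3]
    exact eu.injective (Subtype.ext (hia h4))
  · intro i i' he
    have h3 : (a' (ew i).1).1 = (a' (ew i').1).1 := he
    obtain ⟨j, hj⟩ := (Finset.mem_filter.mp (hw (ew i).2)).2
    obtain ⟨j', hj'⟩ := (Finset.mem_filter.mp (hw (ew i').2)).2
    have e1 := (hval j (ew i).1).2
    have e2 := (hval j' (ew i').1).2
    rw [hj] at e1
    rw [hj'] at e2
    have h4 : a' (ew i).1 = a' (ew i').1 := by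
      refine Prod.ext h3 ?_
      rw [← e1, ← e2, h3]
    exact ew.injective (Subtype.ext (hia' h4))
  · intro i j
    exact hadj _ _

private lemma kkc_img2 (M s s' : ℕ) (hM : 1 ≤ M) :
    ∑ l : Fin s → Fin s' → Fin M, (1 / (M : ℝ) ^ (kkcI l).card) ≤ ((s * s').factorial : ℝ) := by
  have h := kkc_img M hM (s * s')
  let e : (Fin (s * s') → Fin M) ≃ (Fin s → Fin s' → Fin M) :=
    (Equiv.arrowCongr finProdFinEquiv.symm (Equiv.refl (Fin M))).trans
      (Equiv.curry (Fin s) (Fin s') (Fin M))
  rw [← e.sum_comp]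
  refine le_trans (le_of_eq ?_) h
  refine Finset.sum_congr rfl fun x _ => ?_
  have : kkcI (e x) = Finset.univ.image x := by
    ext k
    unfold kkcI
    rw [Finset.mem_image, Finset.mem_image]
    constructor
    · rintro ⟨q, _, hq⟩
      exact ⟨finProdFinEquiv q, Finset.mem_univ _, hq⟩
    · rintro ⟨i, _, hi⟩
      refine ⟨finProdFinEquiv.symm i, Finset.mem_univ _, ?_⟩
      rw [← hi]
      change x (finProdFinEquiv (finProdFinEquiv.symm i)) = x i
      rw [Equiv.apply_symm_apply]
  rw [this]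

/-- Expected number of `K_{s,s'}`'s with a covering by blocks. -/
theorem kk_count (b : ℕ) (B : SimpleGraph (Fin b)) (al be ga dd s s' : ℕ)
    (hga : ga + be = 2 * al) (hdd : be * dd ≤ al) (hB : KSFree (dd + 1) (dd + 1) B)
    (hss : al * (s + s') + 1 ≤ ga + be * (s * s')) :
    ∃ C : ℝ, 0 < C ∧ ∀ g N M : ℕ, 1 ≤ g → N = g ^ al → M = g ^ ga →
      (g : ℝ) * ∑ f : Fin M × Fin b → Fin N,
        (((Finset.univ : Finset ((Fin s → Fin b × Fin N) × (Fin s' → Fin b × Fin N) ×
          (Fin s → Fin s' → Fin M))).filter fun c => CrossK B f c).card : ℝ)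
        ≤ C * (g : ℝ) ^ ga * (Fintype.card (Fin M × Fin b → Fin N) : ℝ) := by
  refine ⟨(b : ℝ) ^ (s + s') * ((s * s').factorial : ℝ) + 1, by positivity, ?_⟩
  intro g N M hg hN hM
  have hN1 : 1 ≤ N := by rw [hN]; exact Nat.one_le_pow _ _ hg
  have hM1 : 1 ≤ M := by rw [hM]; exact Nat.one_le_pow _ _ hg
  have hNpos : (0 : ℝ) < (N : ℝ) := by exact_mod_cast hN1
  have hMpos : (0 : ℝ) < (M : ℝ) := by exact_mod_cast hM1
  have hgpos : (1 : ℝ) ≤ (g : ℝ) := by exact_mod_cast hg
  set T : ℝ := (Fintype.card (Fin M × Fin b → Fin N) : ℝ) with hT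
  have hT0 : 0 ≤ T := Nat.cast_nonneg _
  have hswap : ∑ f : Fin M × Fin b → Fin N,
        (((Finset.univ : Finset ((Fin s → Fin b × Fin N) × (Fin s' → Fin b × Fin N) ×
          (Fin s → Fin s' → Fin M))).filter fun c => CrossK B f c).card : ℝ)
      = ∑ c : (Fin s → Fin b × Fin N) × (Fin s' → Fin b × Fin N) × (Fin s → Fin s' → Fin M),
        (((Finset.univ : Finset (Fin M × Fin b → Fin N)).filter fun f =>
          CrossK B f c).card : ℝ) := by
    simp_rw [Finset.card_filter]
    push_cast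
    rw [Finset.sum_comm]
  rw [hswap, Finset.mul_sum]
  have hterm : ∀ c : (Fin s → Fin b × Fin N) × (Fin s' → Fin b × Fin N) ×
      (Fin s → Fin s' → Fin M),
      (g : ℝ) * (((Finset.univ : Finset (Fin M × Fin b → Fin N)).filter fun f =>
          CrossK B f c).card : ℝ)
        ≤ T * ((g : ℝ) ^ ga / (N : ℝ) ^ (s + s')) * (1 / (M : ℝ) ^ (kkcI c.2.2).card) := by
    intro c
    rcases Finset.eq_empty_or_nonempty
      ((Finset.univ : Finset (Fin M × Fin b → Fin N)).filter fun f => CrossK B f c)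
      with h0 | ⟨f0, hf0⟩
    · rw [h0, Finset.card_empty, Nat.cast_zero, mul_zero]
      positivity
    · have h1 := kkc_one B c
      have h2 := kkc_pat al be ga dd hga hdd c.2.2
        (fun k => kkc_small B hB f0 c (Finset.mem_filter.mp hf0).2 k)
      have h1' : (((Finset.univ : Finset (Fin M × Fin b → Fin N)).filter fun f =>
          CrossK B f c).card : ℝ) * (N : ℝ) ^ (kkcS c.2.2).card ≤ T := by
        rw [hT]
        exact_mod_cast h1
      have h3 : (g : ℝ) * ((N : ℝ) ^ (s + s') * (M : ℝ) ^ (kkcI c.2.2).card) ≤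
          (g : ℝ) ^ ga * (N : ℝ) ^ (kkcS c.2.2).card := by
        have hNr : (N : ℝ) = (g : ℝ) ^ al := by rw [hN]; push_cast; rfl
        have hMr : (M : ℝ) = (g : ℝ) ^ ga := by rw [hM]; push_cast; rfl
        rw [hNr, hMr, ← pow_mul, ← pow_mul, ← pow_mul, ← pow_add, ← pow_add, ← pow_succ']
        exact pow_le_pow_right₀ hgpos (by omega)
      have hNs : (0 : ℝ) < (N : ℝ) ^ (kkcS c.2.2).card := by positivity
      have h4 : (((Finset.univ : Finset (Fin M × Fin b → Fin N)).filter fun f =>
          CrossK B f c).card : ℝ) ≤ T / (N : ℝ) ^ (kkcS c.2.2).card := by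
        rw [le_div_iff₀ hNs]
        exact h1'
      have hg0 : (0 : ℝ) ≤ (g : ℝ) := by linarith
      refine (mul_le_mul_of_nonneg_left h4 hg0).trans ?_
      have h5 : (g : ℝ) * (T / (N : ℝ) ^ (kkcS c.2.2).card)
          = T * ((g : ℝ) / (N : ℝ) ^ (kkcS c.2.2).card) := by ring
      rw [h5, mul_assoc]
      refine mul_le_mul_of_nonneg_left ?_ hT0
      rw [div_mul_div_comm, mul_one, div_le_div_iff₀ hNs (by positivity)]
      exact h3
  refine (Finset.sum_le_sum fun c _ => hterm c).trans ?_
  rw [← Finset.mul_sum, Fintype.sum_prod_type]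
  have hin : ∀ a : Fin s → Fin b × Fin N,
      ∑ y : (Fin s' → Fin b × Fin N) × (Fin s → Fin s' → Fin M),
        (1 / (M : ℝ) ^ (kkcI (a, y).2.2).card)
      = (((b : ℝ) * (N : ℝ)) ^ s') *
          ∑ l : Fin s → Fin s' → Fin M, (1 / (M : ℝ) ^ (kkcI l).card) := by
    intro a
    rw [Fintype.sum_prod_type]
    simp only
    rw [Finset.sum_const, nsmul_eq_mul, Finset.card_univ, Fintype.card_fun, Fintype.card_prod,
      Fintype.card_fin, Fintype.card_fin, Fintype.card_fin]
    push_cast
    ring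
  rw [Finset.sum_congr rfl fun a _ => hin a, Finset.sum_const, nsmul_eq_mul, Finset.card_univ,
      Fintype.card_fun, Fintype.card_prod, Fintype.card_fin, Fintype.card_fin, Fintype.card_fin]
  have himg := kkc_img2 M s s' hM1
  set sl := ∑ l : Fin s → Fin s' → Fin M, (1 / (M : ℝ) ^ (kkcI l).card) with hsl
  push_cast
  have e1 : T * ((g : ℝ) ^ ga / (N : ℝ) ^ (s + s')) *
      (((b : ℝ) * (N : ℝ)) ^ s * (((b : ℝ) * (N : ℝ)) ^ s' * sl))
      = ((b : ℝ) ^ (s + s') * sl) * ((g : ℝ) ^ ga * T) := by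
    rw [mul_pow, mul_pow, pow_add, pow_add]
    field_simp
  have e2 : ((b : ℝ) ^ (s + s') * ((s * s').factorial : ℝ) + 1) * (g : ℝ) ^ ga * T
      = ((b : ℝ) ^ (s + s') * ((s * s').factorial : ℝ) + 1) * ((g : ℝ) ^ ga * T) := by ring
  rw [e1, e2]
  refine mul_le_mul_of_nonneg_right ?_ (by positivity)
  have : (b : ℝ) ^ (s + s') * sl ≤ (b : ℝ) ^ (s + s') * ((s * s').factorial : ℝ) :=
    mul_le_mul_of_nonneg_left himg (by positivity)
  linarith

end Pool.Agent.CUG
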