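import Pool.Agent.CUG.Defs

set_option autoImplicit false

/-!
# CUG.MULP

Union bound, adapted from CUB/MULP.lean.
-/

namespace Pool.Agent.CUG

open Pool.Agent.CUB
open scoped Classical

/-- Number of configurations with prescribed pairs in the blocks of `I`. -/
private lemma mulp_count {kp N M : ℕ} (I : Finset (Fin M)) (a b : Fin kp) (hab : a ≠ b)
    (x y : Fin N) :
    ((Finset.univ : Finset (Fin M × Fin kp → Fin N)).filter fun t =>
      ∀ i ∈ I, t (i, a) = x ∧ t (i, b) = y).card * N ^ (2 * I.card)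
      = Fintype.card (Fin M × Fin kp → Fin N) := by
  have h1 : ((Finset.univ : Finset (Fin M × Fin kp → Fin N)).filter fun t =>
      ∀ i ∈ I, t (i, a) = x ∧ t (i, b) = y)
      = Fintype.piFinset (fun c : Fin M × Fin kp =>
          if c.1 ∈ I ∧ c.2 = a then ({x} : Finset (Fin N))
          else if c.1 ∈ I ∧ c.2 = b then {y} else Finset.univ) := by
    ext t
    simp only [Finset.mem_filter, Finset.mem_univ, true_and, Fintype.mem_piFinset]
    constructor
    · rintro h ⟨i, d⟩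
      by_cases h1 : i ∈ I ∧ d = a
      · rw [if_pos h1, Finset.mem_singleton, h1.2]
        exact (h i h1.1).1
      · rw [if_neg h1]
        by_cases h2 : i ∈ I ∧ d = b
        · rw [if_pos h2, Finset.mem_singleton, h2.2]
          exact (h i h2.1).2
        · rw [if_neg h2]; exact Finset.mem_univ _
    · intro h i hi
      have ha := h (i, a)
      have hb := h (i, b)
      simp only [hi, true_and, if_true, Finset.mem_singleton] at ha
      have hba : ¬ (b = a) := fun h => hab h.symm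
      simp only [hi, true_and, hba, if_false, if_true, Finset.mem_singleton] at hb
      exact ⟨ha, hb⟩
  have h2 : N ^ (2 * I.card) = ∏ c : Fin M × Fin kp,
      (if c.1 ∈ I ∧ (c.2 = a ∨ c.2 = b) then N else 1) := by
    rw [← Finset.prod_filter, Finset.prod_const]
    congr 1
    have : (Finset.univ.filter fun c : Fin M × Fin kp => c.1 ∈ I ∧ (c.2 = a ∨ c.2 = b))
        = I ×ˢ ({a, b} : Finset (Fin kp)) := by
      ext c
      simp [Finset.mem_product]
    rw [this, Finset.card_product, Finset.card_pair hab, mul_comm]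
  rw [h1, Fintype.card_piFinset, h2, ← Finset.prod_mul_distrib]
  rw [Fintype.card_pi]
  apply Finset.prod_congr rfl
  rintro ⟨i, d⟩ _
  by_cases h3 : i ∈ I ∧ d = a
  · simp [h3]
  · by_cases h4 : i ∈ I ∧ d = b
    · have : ¬ (b = a) := fun h => hab h.symm
      simp [h4, this]
    · have h5 : ¬ (i ∈ I ∧ (d = a ∨ d = b)) := by
        rintro ⟨h6, h7 | h7⟩
        · exact h3 ⟨h6, h7⟩
        · exact h4 ⟨h6, h7⟩
      simp only [h3, h4, h5, if_false]
      simp

private lemma mulp_main {kp N M : ℕ} (mu : ℕ) :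
    ((Finset.univ : Finset (Fin M × Fin kp → Fin N)).filter fun t => ¬ MUL mu t).card * N ^ (2 * (mu + 1))
      ≤ kp ^ 2 * N ^ 2 * M ^ (mu + 1) * Fintype.card (Fin M × Fin kp → Fin N) := by
  set Idx : Finset ((Fin kp × Fin kp) × (Fin N × Fin N) × Finset (Fin M)) :=
    ((Finset.univ : Finset (Fin kp × Fin kp)).filter fun p => p.1 ≠ p.2) ×ˢ
      ((Finset.univ : Finset (Fin N × Fin N)) ×ˢ
        (Finset.univ : Finset (Fin M)).powersetCard (mu + 1)) with hIdx
  set A : ((Fin kp × Fin kp) × (Fin N × Fin N) × Finset (Fin M)) →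
      Finset (Fin M × Fin kp → Fin N) := fun p =>
    (Finset.univ : Finset (Fin M × Fin kp → Fin N)).filter fun t =>
      ∀ i ∈ p.2.2, t (i, p.1.1) = p.2.1.1 ∧ t (i, p.1.2) = p.2.1.2 with hA
  have hsub : ((Finset.univ : Finset (Fin M × Fin kp → Fin N)).filter fun t => ¬ MUL mu t)
      ⊆ Idx.biUnion A := by
    intro t ht
    rw [Finset.mem_filter] at ht
    have h1 := ht.2
    unfold MUL at h1
    push Not at h1
    obtain ⟨a, b, hab, x, y, hc⟩ := h1
    obtain ⟨I, hI, hI5⟩ := Finset.exists_subset_card_eq (n := mu + 1) (show mu + 1 ≤ _ from hc)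
    rw [Finset.mem_biUnion]
    refine ⟨((a, b), (x, y), I), ?_, ?_⟩
    · rw [hIdx, Finset.mem_product, Finset.mem_product, Finset.mem_powersetCard]
      refine ⟨by simp [hab], Finset.mem_univ _, Finset.subset_univ _, hI5⟩
    · rw [hA]
      simp only [Finset.mem_filter, Finset.mem_univ, true_and]
      intro i hi
      have := hI hi
      rw [Finset.mem_filter] at this
      exact this.2
  have hcardIdx : Idx.card ≤ kp ^ 2 * N ^ 2 * M ^ (mu + 1) := by
    rw [hIdx, Finset.card_product, Finset.card_product, Finset.card_powersetCard]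
    have h1 : ((Finset.univ : Finset (Fin kp × Fin kp)).filter fun p => p.1 ≠ p.2).card ≤ kp ^ 2 := by
      refine le_trans (Finset.card_filter_le _ _) ?_
      simp [sq]
    have h2 : (Finset.univ : Finset (Fin N × Fin N)).card = N ^ 2 := by
      simp [sq]
    have h3 : (Finset.univ : Finset (Fin M)).card.choose (mu + 1) ≤ M ^ (mu + 1) := by
      rw [Finset.card_univ, Fintype.card_fin]
      exact Nat.choose_le_pow M (mu + 1)
    rw [h2, mul_assoc (kp ^ 2)]
    exact Nat.mul_le_mul h1 (Nat.mul_le_mul_left _ h3)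
  calc _ ≤ (Idx.biUnion A).card * N ^ (2 * (mu + 1)) := Nat.mul_le_mul_right _ (Finset.card_le_card hsub)
    _ ≤ (∑ p ∈ Idx, (A p).card) * N ^ (2 * (mu + 1)) := Nat.mul_le_mul_right _ Finset.card_biUnion_le
    _ = ∑ p ∈ Idx, (A p).card * N ^ (2 * (mu + 1)) := by rw [Finset.sum_mul]
    _ = ∑ p ∈ Idx, Fintype.card (Fin M × Fin kp → Fin N) := by
        apply Finset.sum_congr rfl
        rintro ⟨⟨a, b⟩, ⟨x, y⟩, I⟩ hp
        rw [hIdx, Finset.mem_product, Finset.mem_product, Finset.mem_powersetCard] at hp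
        have hab : a ≠ b := by
          have := hp.1
          rw [Finset.mem_filter] at this
          exact this.2
        have hI : I.card = mu + 1 := hp.2.2.2
        have := mulp_count I a b hab x y
        rw [hI] at this
        exact this
    _ = Idx.card * Fintype.card (Fin M × Fin kp → Fin N) := by
        rw [Finset.sum_const, smul_eq_mul]
    _ ≤ _ := Nat.mul_le_mul_right _ hcardIdx

theorem mul_prob {kp : ℕ} (P : Prm) (δ : ℝ) (hδ : 0 < δ) :
    ∃ h₀ : ℕ, ∀ h ≥ h₀, ∀ N M : ℕ, N = h ^ (8 * P.al) → M = h ^ (8 * P.ga) →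
      (((Finset.univ : Finset (Fin M × Fin kp → Fin N)).filter fun t => ¬ MUL P.mu t).card : ℝ)
        ≤ δ * (Fintype.card (Fin M × Fin kp → Fin N) : ℝ) := by
  refine ⟨max 1 ⌈(kp : ℝ) ^ 2 / δ⌉₊, ?_⟩
  intro h hh N M hN hM
  have hh1 : 1 ≤ h := le_trans (le_max_left _ _) hh
  have hh2 : (kp : ℝ) ^ 2 / δ ≤ (h : ℝ) :=
    le_trans (Nat.le_ceil _) (by exact_mod_cast le_trans (le_max_right _ _) hh)
  have hmain := mulp_main (kp := kp) (N := N) (M := M) P.mu
  set c := ((Finset.univ : Finset (Fin M × Fin kp → Fin N)).filter fun t => ¬ MUL P.mu t).card with hc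
  set T := Fintype.card (Fin M × Fin kp → Fin N) with hT
  have hh1r : (1 : ℝ) ≤ (h : ℝ) := by exact_mod_cast hh1
  have hhpos : (0 : ℝ) < (h : ℝ) := by linarith
  have e1 : (c : ℝ) * ((N : ℝ)) ^ (2 * (P.mu + 1)) ≤
      (kp : ℝ) ^ 2 * (N : ℝ) ^ 2 * (M : ℝ) ^ (P.mu + 1) * (T : ℝ) := by
    exact_mod_cast hmain
  have hNr : (N : ℝ) = (h : ℝ) ^ (8 * P.al) := by rw [hN]; push_cast; rfl
  have hMr : (M : ℝ) = (h : ℝ) ^ (8 * P.ga) := by rw [hM]; push_cast; rfl
  rw [hNr, hMr] at e1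
  -- the exponents
  set a : ℕ := 8 * P.al * 2 + 8 * P.ga * (P.mu + 1) with ha
  have hexp : a + 8 ≤ 8 * P.al * (2 * (P.mu + 1)) := by
    have h1 := P.hga
    have h2 := P.hmu
    have h3 : P.ga * (P.mu + 1) + P.be * (P.mu + 1) = 2 * P.al * (P.mu + 1) := by
      rw [← add_mul, h1]
    rw [ha]
    nlinarith
  have e2 : (c : ℝ) * (h : ℝ) ^ 8 * (h : ℝ) ^ a ≤ (kp : ℝ) ^ 2 * (T : ℝ) * (h : ℝ) ^ a := by
    have l1 : (c : ℝ) * (h : ℝ) ^ 8 * (h : ℝ) ^ a ≤ (c : ℝ) * ((h : ℝ) ^ (8 * P.al)) ^ (2 * (P.mu + 1)) := by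
      rw [← pow_mul, mul_assoc, ← pow_add]
      refine mul_le_mul_of_nonneg_left ?_ (Nat.cast_nonneg _)
      exact pow_le_pow_right₀ hh1r (by omega)
    have l2 : (kp : ℝ) ^ 2 * (T : ℝ) * (h : ℝ) ^ a
        = (kp : ℝ) ^ 2 * ((h : ℝ) ^ (8 * P.al)) ^ 2 * ((h : ℝ) ^ (8 * P.ga)) ^ (P.mu + 1) * (T : ℝ) := by
      have l3 : ((h : ℝ) ^ (8 * P.al)) ^ 2 * ((h : ℝ) ^ (8 * P.ga)) ^ (P.mu + 1) = (h : ℝ) ^ a := by
        rw [← pow_mul, ← pow_mul, ← pow_add]
      rw [mul_assoc ((kp : ℝ) ^ 2) (((h : ℝ) ^ (8 * P.al)) ^ 2), l3]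
      ring
    rw [l2]
    exact l1.trans e1
  have e3 : (c : ℝ) * (h : ℝ) ^ 8 ≤ (kp : ℝ) ^ 2 * (T : ℝ) :=
    le_of_mul_le_mul_right e2 (pow_pos hhpos _)
  have e4 : (h : ℝ) ≤ (h : ℝ) ^ 8 := by
    calc (h : ℝ) = (h : ℝ) ^ 1 := (pow_one _).symm
      _ ≤ (h : ℝ) ^ 8 := pow_le_pow_right₀ hh1r (by norm_num)
  have e5 : (kp : ℝ) ^ 2 ≤ δ * (h : ℝ) := by
    rw [div_le_iff₀ hδ] at hh2
    linarith
  have e6 : (0 : ℝ) ≤ (T : ℝ) := Nat.cast_nonneg _
  have e7 : (0 : ℝ) ≤ (c : ℝ) := Nat.cast_nonneg _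
  have e8 : (c : ℝ) * (h : ℝ) ≤ (δ * (T : ℝ)) * (h : ℝ) := by
    calc (c : ℝ) * (h : ℝ) ≤ (c : ℝ) * (h : ℝ) ^ 8 := mul_le_mul_of_nonneg_left e4 e7
      _ ≤ (kp : ℝ) ^ 2 * (T : ℝ) := e3
      _ ≤ (δ * (h : ℝ)) * (T : ℝ) := mul_le_mul_of_nonneg_right e5 e6
      _ = (δ * (T : ℝ)) * (h : ℝ) := by ring
  exact le_of_mul_le_mul_right e8 hhpos

end Pool.Agent.CUG
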