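import Pool.Agent.CUG.EBD

set_option autoImplicit false

/-!
# CUG.PAT

pat: adapt CUB/PAT.lean. `W = Q ∪ N(Q)`; `ty` is injective on `W`. D2: for `|S| ≥ 3` let `S' = {u ∈ W : ty u ∈ S}`,
`|S'| ≤ |S|`, `2 |ins F S| ≤ inn H S'`; if `|S'| ≥ 3`, `ebd` gives `|ins| ≤ dd (|S'| - 2) + 1`, and
`be (dd (n-2) + 1) + 2 al + 1 ≤ al n + be` for `n ≥ 3` (`be dd + 2 ≤ al`); if `|S'| ≤ 2`, `|ins| ≤ 1`. RS: `S ⊆ ty '' Q`
nonempty, `S' = {u ∈ Q : ty u ∈ S}`, the count is `inn S'/2 + out Q S'`: `Good`. star_pat: RS: count `= |Q| ≤ dd`;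
D2: `|ins| ≤ |S| - 1`, `be (n-1) + 2 al + 1 ≤ al n + be` for `n ≥ 3` (`be + 2 ≤ al`).
-/

namespace Pool.Agent.CUG

open Pool.Agent.CUB
open scoped Classical

private lemma PAT_mem {X : Type} [Fintype X] {H : SimpleGraph X} {T : Finset X}
    {z : X × X} : z ∈ (Finset.univ.filter fun p : X × X => p.1 ∈ T ∧ p.2 ∈ T ∧ H.Adj p.1 p.2) ↔
      z.1 ∈ T ∧ z.2 ∈ T ∧ H.Adj z.1 z.2 := by
  simp

/-- unordered count: adjacent pairs inside `T` with increasing types -/
private noncomputable def PAT_E {X : Type} [Fintype X] {v : ℕ} (H : SimpleGraph X) (ty : X → Fin v)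
    (T : Finset X) : Finset (X × X) :=
  (Finset.univ.filter fun p : X × X => p.1 ∈ T ∧ p.2 ∈ T ∧ H.Adj p.1 p.2).filter
    fun z => ty z.1 < ty z.2

private lemma PAT_two {X : Type} [Fintype X] {v : ℕ} (H : SimpleGraph X) (ty : X → Fin v)
    (T : Finset X) : 2 * (PAT_E H ty T).card ≤ inn H T := by
  set A := (Finset.univ.filter fun p : X × X => p.1 ∈ T ∧ p.2 ∈ T ∧ H.Adj p.1 p.2) with hA
  have h1 : (PAT_E H ty T).card ≤ (A.filter fun z => ¬ ty z.1 < ty z.2).card := by
    refine Finset.card_le_card_of_injOn (fun z => (z.2, z.1)) ?_ ?_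
    · intro z hz
      have hz' := Finset.mem_filter.1 (Finset.mem_coe.1 hz)
      have h2 := PAT_mem.1 hz'.1
      refine Finset.mem_coe.2 (Finset.mem_filter.2 ⟨PAT_mem.2 ⟨h2.2.1, h2.1, h2.2.2.symm⟩, ?_⟩)
      exact not_lt.2 hz'.2.le
    · intro z _ z' _ h
      simp only [Prod.mk.injEq] at h
      exact Prod.ext h.2 h.1
  have h2 := Finset.card_filter_add_card_filter_not (s := A) (fun z => ty z.1 < ty z.2)
  have h3 : (A.filter fun z => ty z.1 < ty z.2).card = (PAT_E H ty T).card := rfl
  have h4 : inn H T = A.card := rfl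
  omega

private lemma PAT_small {X : Type} [Fintype X] (H : SimpleGraph X) (T : Finset X)
    (hT : T.card ≤ 2) : inn H T ≤ 2 := by
  have h1 : inn H T ≤ T.offDiag.card := by
    refine Finset.card_le_card ?_
    intro z hz
    have hz' := PAT_mem.1 hz
    exact Finset.mem_offDiag.2 ⟨hz'.1, hz'.2.1, hz'.2.2.ne⟩
  rw [Finset.offDiag_card] at h1
  have : T.card = 0 ∨ T.card = 1 ∨ T.card = 2 := by omega
  rcases this with h | h | h <;> rw [h] at h1 <;> omega

/-- The pattern of a good piece is admissible. -/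
theorem pat (P : Prm) (hd2 : 2 ≤ P.dd) {X : Type} [Fintype X] (H : SimpleGraph X)
    (hdeg : ∀ x, (H.neighborSet x).ncard ≤ P.dd + 1) (hK : KFree (P.dd + 2) H)
    {v kp : ℕ} (pos : Fin v → Fin kp) (ty : X → Fin v)
    (hpos : ∀ u w, H.Adj u w → pos (ty u) ≠ pos (ty w)) (Q : Finset X) (hQ : Good P H Q)
    (hinj : ∀ u w, (u ∈ Q ∨ ∃ a ∈ Q, H.Adj a u) → (w ∈ Q ∨ ∃ a ∈ Q, H.Adj a w) →
      ty u = ty w → u = w) :
    Adm P pos (patF H ty Q) (Q.image ty) := by
  have hF : ∀ e, e ∈ patF H ty Q ↔ e.1 < e.2 ∧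
      ∃ a b, H.Adj a b ∧ ty a = e.1 ∧ ty b = e.2 ∧ (a ∈ Q ∨ b ∈ Q) := by
    intro e
    unfold patF
    simp only [Finset.mem_filter, Finset.mem_univ, true_and]
  have hP : ∀ a b, H.Adj a b → (a ∈ Q ∨ b ∈ Q) →
      (a ∈ Q ∨ ∃ c ∈ Q, H.Adj c a) ∧ (b ∈ Q ∨ ∃ c ∈ Q, H.Adj c b) := by
    intro a b hab h
    rcases h with h | h
    · exact ⟨Or.inl h, Or.inr ⟨a, h, hab⟩⟩
    · exact ⟨Or.inr ⟨b, h, hab.symm⟩, Or.inl h⟩
  have hal := P.hdd
  constructor
  · intro e he
    obtain ⟨_, a, b, hab, h1, h2, _⟩ := (hF e).1 he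
    rw [← h1, ← h2]
    exact hpos a b hab
  · intro e he he'
    have h1 := ((hF e).1 he).1
    have h2 := ((hF _).1 he').1
    exact lt_asymm h1 h2
  · intro e he
    obtain ⟨_, a, b, hab, h1, h2, h3⟩ := (hF e).1 he
    rcases h3 with h | h
    · exact Or.inl (Finset.mem_image.2 ⟨a, h, h1⟩)
    · exact Or.inr (Finset.mem_image.2 ⟨b, h, h2⟩)
  · intro S hS
    set T : Finset X := Finset.univ.filter fun u =>
      (u ∈ Q ∨ ∃ a ∈ Q, H.Adj a u) ∧ ty u ∈ S with hT
    have hTS : T.card ≤ S.card := by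
      refine Finset.card_le_card_of_injOn ty ?_ ?_
      · intro u hu
        exact (Finset.mem_filter.1 (Finset.mem_coe.1 hu)).2.2
      · intro u hu w hw h
        exact hinj u w (Finset.mem_filter.1 (Finset.mem_coe.1 hu)).2.1
          (Finset.mem_filter.1 (Finset.mem_coe.1 hw)).2.1 h
    have h1 : (ins (patF H ty Q) S).card ≤ (PAT_E H ty T).card := by
      have h2 : ins (patF H ty Q) S ⊆ (PAT_E H ty T).image (fun z => (ty z.1, ty z.2)) := by
        intro e he
        obtain ⟨he1, he2, he3⟩ := Finset.mem_filter.1 he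
        obtain ⟨hlt, a, b, hab, h3, h4, h5⟩ := (hF e).1 he1
        have h6 := hP a b hab h5
        refine Finset.mem_image.2 ⟨(a, b), ?_, ?_⟩
        · refine Finset.mem_filter.2 ⟨PAT_mem.2 ⟨?_, ?_, hab⟩, ?_⟩
          · exact Finset.mem_filter.2 ⟨Finset.mem_univ _, h6.1, by rw [h3]; exact he2⟩
          · exact Finset.mem_filter.2 ⟨Finset.mem_univ _, h6.2, by rw [h4]; exact he3⟩
          · change ty a < ty b
            rw [h3, h4]
            exact hlt
        · change (ty a, ty b) = e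
          rw [h3, h4]
      exact (Finset.card_le_card h2).trans Finset.card_image_le
    have h2 := PAT_two H ty T
    rcases Nat.lt_or_ge T.card 3 with h3 | h3
    · have h4 := PAT_small H T (by omega)
      have h5 : (ins (patF H ty Q) S).card ≤ 1 := by omega
      have h6 : P.be * (ins (patF H ty Q) S).card ≤ P.be * 1 := Nat.mul_le_mul_left _ h5
      have h7 : P.al * 3 ≤ P.al * S.card := Nat.mul_le_mul_left _ hS
      have h8 : 1 ≤ P.al := by omega
      omega
    · have h4 := ebd P.dd hd2 H hdeg hK T h3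
      obtain ⟨n, hn⟩ : ∃ n, S.card = n + 2 := ⟨S.card - 2, by omega⟩
      have h5 : (ins (patF H ty Q) S).card ≤ P.dd * n + 1 := by
        have h6 : 2 * P.dd * T.card ≤ 2 * P.dd * S.card := Nat.mul_le_mul_left _ hTS
        rw [hn] at h6
        have h7 : 2 * P.dd * (n + 2) = 2 * (P.dd * n) + 4 * P.dd := by ring
        omega
      have h6 : P.be * (ins (patF H ty Q) S).card ≤ P.be * (P.dd * n + 1) :=
        Nat.mul_le_mul_left _ h5
      have h7 : (P.be * P.dd + 2) * n ≤ P.al * n := Nat.mul_le_mul_right _ hal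
      have h8 : P.be * (P.dd * n + 1) = P.be * P.dd * n + P.be := by ring
      have h9 : (P.be * P.dd + 2) * n = P.be * P.dd * n + 2 * n := by ring
      have h10 : P.al * S.card = P.al * n + 2 * P.al := by rw [hn]; ring
      omega
  · intro S hSB hSne
    set T : Finset X := Q.filter fun u => ty u ∈ S with hT
    have hinjQ : ∀ u ∈ Q, ∀ w ∈ Q, ty u = ty w → u = w := fun u hu w hw h =>
      hinj u w (Or.inl hu) (Or.inl hw) h
    have hTS : T.card = S.card := by
      have h1 : T.image ty = S := by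
        ext d
        rw [Finset.mem_image]
        constructor
        · rintro ⟨u, hu, rfl⟩
          exact (Finset.mem_filter.1 hu).2
        · intro hd
          obtain ⟨u, hu, rfl⟩ := Finset.mem_image.1 (hSB hd)
          exact ⟨u, Finset.mem_filter.2 ⟨hu, hd⟩, rfl⟩
      rw [← h1, Finset.card_image_of_injOn]
      intro u hu w hw h
      exact hinjQ u (Finset.mem_filter.1 (Finset.mem_coe.1 hu)).1 w
        (Finset.mem_filter.1 (Finset.mem_coe.1 hw)).1 h
    have hTQ : T ⊆ Q := Finset.filter_subset _ _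
    have hTne : T.Nonempty := by
      rw [← Finset.card_pos, hTS]
      exact hSne.card_pos
    set A2 := (Finset.univ.filter fun p : X × X => p.1 ∈ T ∧ p.2 ∉ Q ∧ H.Adj p.1 p.2) with hA2
    have hA2c : out H Q T = A2.card := rfl
    -- the counted edges
    have hcount : 2 * ((patF H ty Q).filter fun e =>
        (e.1 ∈ Q.image ty → e.1 ∈ S) ∧ (e.2 ∈ Q.image ty → e.2 ∈ S)).card ≤
        inn H T + 2 * out H Q T := by
      have h1 : ((patF H ty Q).filter fun e =>
        (e.1 ∈ Q.image ty → e.1 ∈ S) ∧ (e.2 ∈ Q.image ty → e.2 ∈ S)) ⊆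
          (PAT_E H ty T).image (fun z => (ty z.1, ty z.2)) ∪
          A2.image (fun z => (min (ty z.1) (ty z.2), max (ty z.1) (ty z.2))) := by
        intro e he
        obtain ⟨he1, he2, he3⟩ := Finset.mem_filter.1 he
        obtain ⟨hlt, a, b, hab, h3, h4, h5⟩ := (hF e).1 he1
        have ha : a ∈ Q → a ∈ T := by
          intro ha
          refine Finset.mem_filter.2 ⟨ha, ?_⟩
          rw [h3]
          exact he2 (Finset.mem_image.2 ⟨a, ha, h3⟩)
        have hb : b ∈ Q → b ∈ T := by
          intro hb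
          refine Finset.mem_filter.2 ⟨hb, ?_⟩
          rw [h4]
          exact he3 (Finset.mem_image.2 ⟨b, hb, h4⟩)
        have hltab : ty a < ty b := by
          rw [h3, h4]
          exact hlt
        by_cases haQ : a ∈ Q
        · by_cases hbQ : b ∈ Q
          · refine Finset.mem_union_left _ (Finset.mem_image.2 ⟨(a, b), ?_, ?_⟩)
            · exact Finset.mem_filter.2 ⟨PAT_mem.2 ⟨ha haQ, hb hbQ, hab⟩, hltab⟩
            · change (ty a, ty b) = e
              rw [h3, h4]
          · refine Finset.mem_union_right _ (Finset.mem_image.2 ⟨(a, b), ?_, ?_⟩)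
            · exact Finset.mem_filter.2 ⟨Finset.mem_univ _, ha haQ, hbQ, hab⟩
            · change (min (ty a) (ty b), max (ty a) (ty b)) = e
              rw [min_eq_left hltab.le, max_eq_right hltab.le, h3, h4]
        · have hbQ : b ∈ Q := by
            rcases h5 with h | h
            · exact absurd h haQ
            · exact h
          refine Finset.mem_union_right _ (Finset.mem_image.2 ⟨(b, a), ?_, ?_⟩)
          · exact Finset.mem_filter.2 ⟨Finset.mem_univ _, hb hbQ, haQ, hab.symm⟩
          · change (min (ty b) (ty a), max (ty b) (ty a)) = e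
            rw [min_eq_right hltab.le, max_eq_left hltab.le, h3, h4]
      have h2 := (Finset.card_le_card h1).trans (Finset.card_union_le _ _)
      have h3 : ((PAT_E H ty T).image (fun z => (ty z.1, ty z.2))).card ≤ (PAT_E H ty T).card :=
        Finset.card_image_le
      have h4 : (A2.image (fun z => (min (ty z.1) (ty z.2), max (ty z.1) (ty z.2)))).card ≤
        A2.card := Finset.card_image_le
      have h5 : 2 * (PAT_E H ty T).card ≤ inn H T := PAT_two H ty T
      omega
    have hg := hQ T hTQ hTne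
    rw [hTS] at hg
    have h1 := Nat.mul_le_mul_left P.be hcount
    set c := ((patF H ty Q).filter fun e =>
        (e.1 ∈ Q.image ty → e.1 ∈ S) ∧ (e.2 ∈ Q.image ty → e.2 ∈ S)).card with hc
    have h2 : P.be * (2 * c) = 2 * (P.be * c) := by ring
    have h3 : 2 * P.al * S.card = 2 * (P.al * S.card) := by ring
    omega

/-- The pattern of a star with few leaves is admissible. -/
theorem star_pat (P : Prm) {v kp : ℕ} (pos : Fin v → Fin kp) (c : Fin v) (Q : Finset (Fin v))
    (hQ : Q.card ≤ P.dd) (hpos : ∀ u ∈ Q, pos u ≠ pos c) :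
    Adm P pos (Q.image fun u => (u, c)) {c} := by
  have hal := P.hdd
  have hcQ : c ∉ Q := fun h => hpos c h rfl
  constructor
  · intro e he
    obtain ⟨u, hu, rfl⟩ := Finset.mem_image.1 he
    exact hpos u hu
  · intro e he he'
    obtain ⟨u, hu, rfl⟩ := Finset.mem_image.1 he
    obtain ⟨w, hw, h⟩ := Finset.mem_image.1 he'
    simp only [Prod.mk.injEq] at h
    exact hcQ (h.1 ▸ hw)
  · intro e he
    obtain ⟨u, hu, rfl⟩ := Finset.mem_image.1 he
    exact Or.inr (Finset.mem_singleton_self c)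
  · intro S hS
    have h1 : (ins (Q.image fun u => (u, c)) S).card ≤ S.card - 1 := by
      by_cases hc : c ∈ S
      · rw [← Finset.card_erase_of_mem hc]
        refine Finset.card_le_card_of_injOn (fun e => e.1) ?_ ?_
        · intro e he
          obtain ⟨he1, he2, he3⟩ := Finset.mem_filter.1 (Finset.mem_coe.1 he)
          obtain ⟨u, hu, rfl⟩ := Finset.mem_image.1 he1
          refine Finset.mem_coe.2 (Finset.mem_erase.2 ⟨?_, he2⟩)
          intro h
          exact hcQ (h ▸ hu)
        · intro e he e' he' h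
          obtain ⟨he1, _, _⟩ := Finset.mem_filter.1 (Finset.mem_coe.1 he)
          obtain ⟨he1', _, _⟩ := Finset.mem_filter.1 (Finset.mem_coe.1 he')
          obtain ⟨u, _, rfl⟩ := Finset.mem_image.1 he1
          obtain ⟨w, _, rfl⟩ := Finset.mem_image.1 he1'
          exact Prod.ext h rfl
      · have h2 : ins (Q.image fun u => (u, c)) S = ∅ := by
          refine Finset.eq_empty_of_forall_notMem ?_
          intro e he
          obtain ⟨he1, _, he3⟩ := Finset.mem_filter.1 he
          obtain ⟨u, _, rfl⟩ := Finset.mem_image.1 he1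
          exact hc he3
        rw [h2, Finset.card_empty]
        exact Nat.zero_le _
    obtain ⟨n, hn⟩ : ∃ n, S.card = n + 2 := ⟨S.card - 2, by omega⟩
    have h2 : P.be * (ins (Q.image fun u => (u, c)) S).card ≤ P.be * (n + 1) :=
      Nat.mul_le_mul_left _ (by omega)
    have h3 : P.be * 1 ≤ P.be * P.dd := Nat.mul_le_mul_left _ P.hd
    have h4 : (P.be + 2) * n ≤ P.al * n := Nat.mul_le_mul_right _ (by omega)
    have h5 : (P.be + 2) * n = P.be * n + 2 * n := by ring
    have h6 : P.be * (n + 1) = P.be * n + P.be := by ring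
    have h7 : P.al * S.card = P.al * n + 2 * P.al := by rw [hn]; ring
    omega
  · intro S hS hne
    have h1 : ((Q.image fun u => (u, c)).filter fun e =>
        (e.1 ∈ ({c} : Finset (Fin v)) → e.1 ∈ S) ∧ (e.2 ∈ ({c} : Finset (Fin v)) → e.2 ∈ S)).card
          ≤ P.dd :=
      ((Finset.card_le_card (Finset.filter_subset _ _)).trans Finset.card_image_le).trans hQ
    have h2 := Nat.mul_le_mul_left P.be h1
    have h3 : P.al * 1 ≤ P.al * S.card := Nat.mul_le_mul_left _ hne.card_pos
    omega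

end Pool.Agent.CUG
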