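import Pool.Agent.CUG.Defs

set_option autoImplicit false

/-!
# CUG.PEEL

Proof (`chv_ge`: `mu ≥ 1` by `P.hmu`, `P.hdd`). General claim by induction on `|R|`, for all `l` with the peeling
property for subsets of `R` (relative to `u, w`, or to the complement of `R`): for every `x₀`,
`∑_{x ∈ box R V x₀, NH l x} ∏_{e∈l, e touches R} mm e x ≤ Chv^|R| ∏_{i∈R}|V i| ∏_{e∈l touching R} m/(|V||V|)`.
Step: take `i ∈ R` with at most `dd` neighbours in `R ∪ {u,w}`; in the application all vertices are in
`R ∪ {u, w}`, so let `Q` = set of all `l`-neighbours of `i` (start with `R = univ \ {u,w}`; after removing `i`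
delete its edges from `l`: `l_i = l \ {edges at i}`, the peeling property is inherited, and the neighbours of a
vertex of `R \ {i}` in `l_i` lie in `(R \ {i}) ∪ {u,w}`). The sum over `x i ∈ V i` of the product of the edges at
`i` is `∑_y ∏_{z∈Q} pmul z i (x z) y` (`hsym`, `Simp`, `PosD`), which is `≤ Chv |V i| ∏_{z∈Q} m/(|V z||V i|)` when
`(i,Q)` is not heavy; `Heavy i Q x` does not depend on `x i` (`i ∉ Q`). `NH l x` implies `NH l_i x`, which does
not depend on `x i` (its stars do not contain `i` as a leaf; the star `(i, ∅)` is never heavy). Finally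
`∏_{i≠u,w}|V i| = |piFinset V|/(|V u||V w|)` and the edges of `l` not touching `R` lie inside `{u,w}`: none.
-/

namespace Pool.Agent.CUG

open Pool.Agent.CUB
open scoped Classical

/-- No star of the pattern `l` is heavy at `x`. -/
def NH {kp v N M : ℕ} (P : Prm) (t : Fin M × Fin kp → Fin N) (pos : Fin v → Fin kp)
    (L : Fin v × Fin v → Finset (Fin M)) (V : Fin v → Finset (Fin N)) (m : ℝ)
    (l : Finset (Fin v × Fin v)) (x : Fin v → Fin N) : Prop :=
  ∀ (i : Fin v) (Q : Finset (Fin v)), Q.card ≤ P.dd → (∀ u ∈ Q, (u, i) ∈ l ∨ (i, u) ∈ l) →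
    ¬ Heavy P t pos L V m i Q x

theorem chv_ge (P : Prm) : 1 ≤ Chv P := by
  have h1 : 1 ≤ P.mu := by
    by_contra h
    have h0 : P.mu = 0 := by omega
    have e1 := P.hmu
    have e2 := P.hdd
    have e3 := P.hd
    rw [h0] at e1
    have e4 : P.be ≤ P.be * P.dd := Nat.le_mul_of_pos_right _ e3
    omega
  unfold Chv
  have h2 : (1 : ℝ) ≤ (P.mu : ℝ) := by exact_mod_cast h1
  have h3 : (1 : ℝ) ≤ (P.mu : ℝ) ^ P.dd := one_le_pow₀ h2
  linarith

theorem peel_mem_box {v N : ℕ} (R : Finset (Fin v)) (V : Fin v → Finset (Fin N))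
    (x₀ x : Fin v → Fin N) :
    x ∈ box R V x₀ ↔ ∀ j, (j ∈ R → x j ∈ V j) ∧ (j ∉ R → x j = x₀ j) := by
  unfold box
  rw [Fintype.mem_piFinset]
  constructor
  · intro h j
    have hj := h j
    constructor
    · intro hR
      rwa [if_pos hR] at hj
    · intro hR
      rw [if_neg hR] at hj
      exact Finset.mem_singleton.mp hj
  · intro h j
    by_cases hR : j ∈ R
    · rw [if_pos hR]
      exact (h j).1 hR
    · rw [if_neg hR]
      exact Finset.mem_singleton.mpr ((h j).2 hR)

theorem peel_box {v N : ℕ} (R : Finset (Fin v)) (i : Fin v) (hi : i ∈ R)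
    (V : Fin v → Finset (Fin N)) (x₀ : Fin v → Fin N) (F : (Fin v → Fin N) → ℝ) :
    ∑ x ∈ box R V x₀, F x
      = ∑ x ∈ box (R.erase i) V x₀, ∑ y ∈ V i, F (Function.update x i y) := by
  rw [← Finset.sum_product']
  symm
  refine Finset.sum_nbij' (fun p => Function.update p.1 i p.2)
    (fun x => (Function.update x i (x₀ i), x i)) ?_ ?_ ?_ ?_ ?_
  · intro p hp
    rw [Finset.mem_product, peel_mem_box] at hp
    rw [peel_mem_box]
    intro j
    by_cases hj : j = i
    · subst hj
      refine ⟨fun _ => ?_, fun h => absurd hi h⟩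
      simpa using hp.2
    · have := hp.1 j
      refine ⟨fun h => ?_, fun h => ?_⟩
      · simp only [Function.update_of_ne hj]
        exact this.1 (Finset.mem_erase.mpr ⟨hj, h⟩)
      · simp only [Function.update_of_ne hj]
        exact this.2 (fun h' => h (Finset.mem_erase.mp h').2)
  · intro x hx
    rw [peel_mem_box] at hx
    rw [Finset.mem_product, peel_mem_box]
    refine ⟨fun j => ?_, (hx i).1 hi⟩
    by_cases hj : j = i
    · subst hj
      refine ⟨fun h => absurd rfl (Finset.mem_erase.mp h).1, fun _ => ?_⟩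
      simp
    · refine ⟨fun h => ?_, fun h => ?_⟩
      · simp only [Function.update_of_ne hj]
        exact (hx j).1 (Finset.mem_erase.mp h).2
      · simp only [Function.update_of_ne hj]
        exact (hx j).2 (fun h' => h (Finset.mem_erase.mpr ⟨hj, h'⟩))
  · intro p hp
    rw [Finset.mem_product, peel_mem_box] at hp
    have h1 : p.1 i = x₀ i := (hp.1 i).2 (fun h => absurd rfl (Finset.mem_erase.mp h).1)
    ext1
    · simp only [Function.update_idem]
      rw [← h1, Function.update_eq_self]
    · simp
  · intro x hx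
    simp
  · intro p hp
    rfl

theorem peel_prod {v : ℕ} {β : Type} [CommMonoid β] (l : Finset (Fin v × Fin v)) (hsimp : Simp l)
    (i : Fin v) (hirr : (i, i) ∉ l) (f : Fin v × Fin v → β) (g : Fin v → β)
    (h1 : ∀ z, (z, i) ∈ l → f (z, i) = g z) (h2 : ∀ z, (i, z) ∈ l → f (i, z) = g z) :
    ∏ e ∈ l.filter (fun e => e.1 = i ∨ e.2 = i), f e
      = ∏ z ∈ Finset.univ.filter (fun z : Fin v => (z, i) ∈ l ∨ (i, z) ∈ l), g z := by
  refine Finset.prod_bij (fun e _ => if e.1 = i then e.2 else e.1) ?_ ?_ ?_ ?_
  · rintro ⟨a, b⟩ he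
    rw [Finset.mem_filter] at he
    rw [Finset.mem_filter]
    refine ⟨Finset.mem_univ _, ?_⟩
    simp only at he ⊢
    by_cases ha : a = i
    · subst ha
      rw [if_pos rfl]
      exact Or.inr he.1
    · rw [if_neg ha]
      have hb : b = i := by
        rcases he.2 with h | h
        · exact absurd h ha
        · exact h
      subst hb
      exact Or.inl he.1
  · rintro ⟨a, b⟩ he ⟨a', b'⟩ he' h
    rw [Finset.mem_filter] at he he'
    simp only at he he' h
    by_cases ha : a = i
    · subst ha
      rw [if_pos rfl] at h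
      by_cases ha' : a' = a
      · subst ha'
        rw [if_pos rfl] at h
        rw [h]
      · rw [if_neg ha'] at h
        have hb' : b' = a := by
          rcases he'.2 with h' | h'
          · exact absurd h' ha'
          · exact h'
        subst hb'
        subst h
        exact absurd he.1 (hsimp _ he'.1)
    · rw [if_neg ha] at h
      have hb : b = i := by
        rcases he.2 with h' | h'
        · exact absurd h' ha
        · exact h'
      subst hb
      by_cases ha' : a' = b
      · subst ha'
        rw [if_pos rfl] at h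
        subst h
        exact absurd he.1 (hsimp _ he'.1)
      · rw [if_neg ha'] at h
        have hb' : b' = b := by
          rcases he'.2 with h' | h'
          · exact absurd h' ha'
          · exact h'
        rw [h, hb']
  · intro z hz
    rw [Finset.mem_filter] at hz
    rcases hz.2 with h | h
    · refine ⟨(z, i), ?_, ?_⟩
      · rw [Finset.mem_filter]
        exact ⟨h, Or.inr rfl⟩
      · simp only
        have : z ≠ i := by
          rintro rfl
          exact hirr h
        rw [if_neg this]
    · refine ⟨(i, z), ?_, ?_⟩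
      · rw [Finset.mem_filter]
        exact ⟨h, Or.inl rfl⟩
      · simp
  · rintro ⟨a, b⟩ he
    rw [Finset.mem_filter] at he
    simp only at he ⊢
    by_cases ha : a = i
    · subst ha
      rw [if_pos rfl]
      exact h2 _ he.1
    · have hb : b = i := by
        rcases he.2 with h | h
        · exact absurd h ha
        · exact h
      subst hb
      rw [if_neg ha]
      exact h1 _ he.1

theorem peel_heavy_congr {kp v N M : ℕ} (P : Prm) (t : Fin M × Fin kp → Fin N)
    (pos : Fin v → Fin kp) (L : Fin v × Fin v → Finset (Fin M)) (V : Fin v → Finset (Fin N))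
    (m : ℝ) (i : Fin v) (Q : Finset (Fin v)) (x x' : Fin v → Fin N) (h : ∀ z ∈ Q, x z = x' z) :
    Heavy P t pos L V m i Q x → Heavy P t pos L V m i Q x' := by
  unfold Heavy
  intro hx
  refine lt_of_lt_of_eq hx ?_
  have : (∑ y ∈ V i, ∏ u ∈ Q, pmul t pos L u i (x u) y)
      = ∑ y ∈ V i, ∏ u ∈ Q, pmul t pos L u i (x' u) y := by
    refine Finset.sum_congr rfl fun y _ => Finset.prod_congr rfl fun z hz => ?_
    rw [h z hz]
  rw [this]

theorem peel_main {kp v N M : ℕ} (P : Prm) (t : Fin M × Fin kp → Fin N) (pos : Fin v → Fin kp)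
    (L : Fin v × Fin v → Finset (Fin M)) (V : Fin v → Finset (Fin N)) (m : ℝ) (hm : 0 < m)
    (hsym : ∀ d d', L (d, d') = L (d', d)) (u w : Fin v) :
    ∀ (k : ℕ) (R : Finset (Fin v)), R.card = k → u ∉ R → w ∉ R →
      ∀ l : Finset (Fin v × Fin v), PosD pos l → Simp l → (u, w) ∉ l → (w, u) ∉ l →
      (∀ e ∈ l, (e.1 ∈ R ∨ e.1 = u ∨ e.1 = w) ∧ (e.2 ∈ R ∨ e.2 = u ∨ e.2 = w)) →
      (∀ R' : Finset (Fin v), R' ⊆ R → R'.Nonempty → ∃ i ∈ R',
        (Finset.univ.filter fun z : Fin v => (z ∈ R' ∨ z = u ∨ z = w) ∧
          ((z, i) ∈ l ∨ (i, z) ∈ l)).card ≤ P.dd) →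
      ∀ x₀ : Fin v → Fin N,
      ∑ x ∈ box R V x₀, (if NH P t pos L V m l x then ∏ e ∈ l, (mm t pos L e x : ℝ) else 0)
        ≤ Chv P ^ k * ((∏ j ∈ R, ((V j).card : ℝ)) *
            ∏ e ∈ l, (m / (((V e.1).card : ℝ) * ((V e.2).card : ℝ)))) := by
  intro k
  induction k with
  | zero =>
    intro R hR hu hw l hpos hsimp h1 h2 hl _ x₀
    have hR0 : R = ∅ := Finset.card_eq_zero.mp hR
    subst hR0
    have hl0 : l = ∅ := by
      rw [Finset.eq_empty_iff_forall_notMem]
      rintro ⟨a, b⟩ he
      have hab : pos a ≠ pos b := hpos _ he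
      obtain ⟨h3, h4⟩ := hl _ he
      simp only [Finset.notMem_empty, false_or] at h3 h4
      rcases h3 with rfl | rfl <;> rcases h4 with rfl | rfl
      · exact hab rfl
      · exact h1 he
      · exact h2 he
      · exact hab rfl
    subst hl0
    have hb : box (∅ : Finset (Fin v)) V x₀ = {x₀} := by
      ext x
      rw [peel_mem_box, Finset.mem_singleton]
      constructor
      · intro h
        funext j
        exact (h j).2 (Finset.notMem_empty j)
      · rintro rfl j
        exact ⟨fun h => absurd h (Finset.notMem_empty j), fun _ => rfl⟩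
    rw [hb, Finset.sum_singleton]
    simp only [Finset.prod_empty, pow_zero, mul_one]
    split_ifs
    · exact le_refl _
    · exact zero_le_one
  | succ k ih =>
    intro R hR hu hw l hpos hsimp h1 h2 hl hpeel x₀
    have hRne : R.Nonempty := by
      rw [← Finset.card_pos, hR]
      omega
    obtain ⟨i, hiR, hicard⟩ := hpeel R (Finset.Subset.refl R) hRne
    have hirr : (i, i) ∉ l := fun h => hpos _ h rfl
    set Q : Finset (Fin v) := Finset.univ.filter (fun z : Fin v => (z, i) ∈ l ∨ (i, z) ∈ l) with hQ
    have hQcard : Q.card ≤ P.dd := by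
      refine le_trans (Finset.card_le_card ?_) hicard
      intro z hz
      rw [hQ, Finset.mem_filter] at hz
      rw [Finset.mem_filter]
      refine ⟨Finset.mem_univ _, ?_, hz.2⟩
      rcases hz.2 with h | h
      · exact (hl _ h).1
      · exact (hl _ h).2
    have hiQ : i ∉ Q := by
      rw [hQ, Finset.mem_filter]
      rintro ⟨_, h | h⟩ <;> exact hirr h
    have hQl : ∀ z ∈ Q, (z, i) ∈ l ∨ (i, z) ∈ l := by
      intro z hz
      rw [hQ, Finset.mem_filter] at hz
      exact hz.2
    set li : Finset (Fin v × Fin v) := l.filter (fun e => ¬ (e.1 = i ∨ e.2 = i)) with hli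
    have hlil : ∀ e ∈ li, e ∈ l := fun e he => (Finset.mem_filter.mp he).1
    have hlin : ∀ e ∈ li, e.1 ≠ i ∧ e.2 ≠ i := by
      intro e he
      have := (Finset.mem_filter.mp he).2
      exact ⟨fun h => this (Or.inl h), fun h => this (Or.inr h)⟩
    have hih := ih (R.erase i) (by rw [Finset.card_erase_of_mem hiR, hR]; rfl)
      (fun h => hu (Finset.mem_erase.mp h).2) (fun h => hw (Finset.mem_erase.mp h).2) li
      (fun e he => hpos e (hlil e he))
      (fun e he h => hsimp e (hlil e he) (hlil _ h))
      (fun h => h1 (hlil _ h)) (fun h => h2 (hlil _ h))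
      (by
        intro e he
        obtain ⟨h3, h4⟩ := hl e (hlil e he)
        obtain ⟨h5, h6⟩ := hlin e he
        refine ⟨?_, ?_⟩
        · rcases h3 with h3 | h3
          · exact Or.inl (Finset.mem_erase.mpr ⟨h5, h3⟩)
          · exact Or.inr h3
        · rcases h4 with h4 | h4
          · exact Or.inl (Finset.mem_erase.mpr ⟨h6, h4⟩)
          · exact Or.inr h4)
      (by
        intro R' hR' hne
        obtain ⟨j, hj, hjc⟩ := hpeel R' (fun z hz => (Finset.mem_erase.mp (hR' hz)).2) hne
        refine ⟨j, hj, le_trans (Finset.card_le_card ?_) hjc⟩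
        intro z hz
        rw [Finset.mem_filter] at hz ⊢
        refine ⟨hz.1, hz.2.1, ?_⟩
        rcases hz.2.2 with h | h
        · exact Or.inl (hlil _ h)
        · exact Or.inr (hlil _ h)) x₀
    rw [peel_box R i hiR V x₀]
    -- the bound for the inner sums
    set A : ℝ := Chv P * (((V i).card : ℝ) *
      ∏ z ∈ Q, (m / (((V z).card : ℝ) * ((V i).card : ℝ)))) with hA
    have hC1 : 1 ≤ Chv P := chv_ge P
    have hA0 : 0 ≤ A := by
      rw [hA]
      refine mul_nonneg (by linarith) (mul_nonneg (Nat.cast_nonneg _) ?_)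
      exact Finset.prod_nonneg fun z _ => div_nonneg hm.le (by positivity)
    have hinner : ∀ x : Fin v → Fin N,
        ∑ y ∈ V i, (if NH P t pos L V m l (Function.update x i y) then
            ∏ e ∈ l, (mm t pos L e (Function.update x i y) : ℝ) else 0)
          ≤ (if NH P t pos L V m li x then ∏ e ∈ li, (mm t pos L e x : ℝ) else 0) * A := by
      intro x
      by_cases hex : ∃ y ∈ V i, NH P t pos L V m l (Function.update x i y)
      · obtain ⟨y₀, _, hy₀⟩ := hex
        have hNi : NH P t pos L V m li x := by
          intro j Q' hQ'c hQ' hH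
          have hiQ' : i ∉ Q' := by
            intro h
            rcases hQ' i h with h' | h'
            · exact (hlin _ h').1 rfl
            · exact (hlin _ h').2 rfl
          refine hy₀ j Q' hQ'c (fun z hz => ?_) ?_
          · rcases hQ' z hz with h | h
            · exact Or.inl (hlil _ h)
            · exact Or.inr (hlil _ h)
          · refine peel_heavy_congr P t pos L V m j Q' x _ (fun z hz => ?_) hH
            rw [Function.update_of_ne]
            rintro rfl
            exact hiQ' hz
        have hnh : ¬ Heavy P t pos L V m i Q x := by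
          intro hH
          refine hy₀ i Q hQcard hQl ?_
          refine peel_heavy_congr P t pos L V m i Q x _ (fun z hz => ?_) hH
          rw [Function.update_of_ne]
          rintro rfl
          exact hiQ hz
        rw [if_pos hNi]
        have hsum : ((∑ y ∈ V i, ∏ z ∈ Q, pmul t pos L z i (x z) y : ℕ) : ℝ) ≤ A := by
          unfold Heavy at hnh
          exact not_lt.mp hnh
        have hprod0 : 0 ≤ ∏ e ∈ li, (mm t pos L e x : ℝ) :=
          Finset.prod_nonneg fun e _ => Nat.cast_nonneg _
        calc ∑ y ∈ V i, (if NH P t pos L V m l (Function.update x i y) then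
              ∏ e ∈ l, (mm t pos L e (Function.update x i y) : ℝ) else 0)
            ≤ ∑ y ∈ V i, (∏ e ∈ li, (mm t pos L e x : ℝ)) *
                ∏ z ∈ Q, (pmul t pos L z i (x z) y : ℝ) := by
              refine Finset.sum_le_sum fun y _ => ?_
              have hsplit : ∏ e ∈ l, (mm t pos L e (Function.update x i y) : ℝ)
                  = (∏ e ∈ li, (mm t pos L e x : ℝ)) *
                    ∏ z ∈ Q, (pmul t pos L z i (x z) y : ℝ) := by
                rw [← Finset.prod_filter_mul_prod_filter_not l (fun e => e.1 = i ∨ e.2 = i),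
                  mul_comm]
                congr 1
                · refine Finset.prod_congr rfl fun e he => ?_
                  obtain ⟨h5, h6⟩ := hlin e he
                  unfold mm
                  rw [Function.update_of_ne h5, Function.update_of_ne h6]
                · refine peel_prod l hsimp i hirr _ _ ?_ ?_
                  · intro z hz
                    have hzi : z ≠ i := by
                      rintro rfl
                      exact hirr hz
                    unfold mm pmul
                    simp only [Function.update_self, Function.update_of_ne hzi]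
                  · intro z hz
                    have hzi : z ≠ i := by
                      rintro rfl
                      exact hirr hz
                    unfold mm pmul
                    simp only [Function.update_self, Function.update_of_ne hzi]
                    rw [hsym i z]
                    congr 2
                    ext q
                    simp only [Finset.mem_filter]
                    tauto
              rw [← hsplit]
              split_ifs
              · exact le_refl _
              · exact Finset.prod_nonneg fun e _ => Nat.cast_nonneg _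
          _ = (∏ e ∈ li, (mm t pos L e x : ℝ)) *
                ((∑ y ∈ V i, ∏ z ∈ Q, pmul t pos L z i (x z) y : ℕ) : ℝ) := by
              rw [← Finset.mul_sum]
              push_cast
              rfl
          _ ≤ (∏ e ∈ li, (mm t pos L e x : ℝ)) * A := mul_le_mul_of_nonneg_left hsum hprod0
      · have h0 : ∑ y ∈ V i, (if NH P t pos L V m l (Function.update x i y) then
            ∏ e ∈ l, (mm t pos L e (Function.update x i y) : ℝ) else 0) = 0 := by
          refine Finset.sum_eq_zero fun y hy => ?_
          rw [if_neg]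
          exact fun h => hex ⟨y, hy, h⟩
        rw [h0]
        refine mul_nonneg ?_ hA0
        split_ifs
        · exact Finset.prod_nonneg fun e _ => Nat.cast_nonneg _
        · exact le_refl _
    calc ∑ x ∈ box (R.erase i) V x₀, ∑ y ∈ V i,
          (if NH P t pos L V m l (Function.update x i y) then
            ∏ e ∈ l, (mm t pos L e (Function.update x i y) : ℝ) else 0)
        ≤ ∑ x ∈ box (R.erase i) V x₀,
            (if NH P t pos L V m li x then ∏ e ∈ li, (mm t pos L e x : ℝ) else 0) * A :=
          Finset.sum_le_sum fun x _ => hinner x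
      _ = (∑ x ∈ box (R.erase i) V x₀,
            (if NH P t pos L V m li x then ∏ e ∈ li, (mm t pos L e x : ℝ) else 0)) * A := by
          rw [Finset.sum_mul]
      _ ≤ (Chv P ^ k * ((∏ j ∈ R.erase i, ((V j).card : ℝ)) *
            ∏ e ∈ li, (m / (((V e.1).card : ℝ) * ((V e.2).card : ℝ))))) * A :=
          mul_le_mul_of_nonneg_right hih hA0
      _ = Chv P ^ (k + 1) * ((∏ j ∈ R, ((V j).card : ℝ)) *
            ∏ e ∈ l, (m / (((V e.1).card : ℝ) * ((V e.2).card : ℝ)))) := by
          have e1 : ∏ j ∈ R, ((V j).card : ℝ)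
              = ((V i).card : ℝ) * ∏ j ∈ R.erase i, ((V j).card : ℝ) :=
            (Finset.mul_prod_erase R (fun j => ((V j).card : ℝ)) hiR).symm
          have e2 : ∏ e ∈ l, (m / (((V e.1).card : ℝ) * ((V e.2).card : ℝ)))
              = (∏ z ∈ Q, (m / (((V z).card : ℝ) * ((V i).card : ℝ)))) *
                ∏ e ∈ li, (m / (((V e.1).card : ℝ) * ((V e.2).card : ℝ))) := by
            rw [← Finset.prod_filter_mul_prod_filter_not l (fun e => e.1 = i ∨ e.2 = i)]
            congr 1
            refine peel_prod l hsimp i hirr _ _ ?_ ?_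
            · intro z _
              rfl
            · intro z _
              simp only
              rw [mul_comm ((V i).card : ℝ)]
          rw [e1, e2, hA, pow_succ]
          ring

/-- Weight of the non-heavy assignments through the two ends of an edge. -/
theorem peel_bound {kp v N M : ℕ} (P : Prm) (t : Fin M × Fin kp → Fin N) (pos : Fin v → Fin kp)
    (L : Fin v × Fin v → Finset (Fin M)) (V : Fin v → Finset (Fin N)) (m : ℝ) (hm : 0 < m)
    (hV : ∀ i, (V i).Nonempty) (hsym : ∀ d d', L (d, d') = L (d', d))
    (l : Finset (Fin v × Fin v)) (hpos : PosD pos l) (hsimp : Simp l) (u w : Fin v) (huw : u ≠ w)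
    (h1 : (u, w) ∉ l) (h2 : (w, u) ∉ l)
    (hpeel : ∀ R : Finset (Fin v), R.Nonempty → u ∉ R → w ∉ R → ∃ i ∈ R,
      (Finset.univ.filter fun z : Fin v => (z ∈ R ∨ z = u ∨ z = w) ∧
        ((z, i) ∈ l ∨ (i, z) ∈ l)).card ≤ P.dd)
    (a b : Fin N) (ha : a ∈ V u) (hb : b ∈ V w) :
    ((∑ x ∈ (Fintype.piFinset V).filter (fun x => x u = a ∧ x w = b ∧ NH P t pos L V m l x),
        ∏ e ∈ l, mm t pos L e x : ℕ) : ℝ)
      ≤ Chv P ^ v * nrm V m l / (((V u).card : ℝ) * ((V w).card : ℝ)) := by
  set R : Finset (Fin v) := (Finset.univ.erase u).erase w with hR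
  have hmemR : ∀ z, z ∈ R ↔ z ≠ w ∧ z ≠ u := by
    intro z
    rw [hR, Finset.mem_erase, Finset.mem_erase]
    simp
  have huR : u ∉ R := fun h => ((hmemR u).mp h).2 rfl
  have hwR : w ∉ R := fun h => ((hmemR w).mp h).1 rfl
  have hall : ∀ z : Fin v, z ∈ R ∨ z = u ∨ z = w := by
    intro z
    rw [hmemR]
    tauto
  set x₀ : Fin v → Fin N := fun j => if j = u then a else b with hx₀
  have hmain := peel_main P t pos L V m hm hsym u w R.card R rfl huR hwR l hpos hsimp h1 h2
    (fun e _ => ⟨hall _, hall _⟩)
    (fun R' hR' hne => hpeel R' hne (fun h => huR (hR' h)) (fun h => hwR (hR' h))) x₀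
  have hset : (Fintype.piFinset V).filter (fun x => x u = a ∧ x w = b ∧ NH P t pos L V m l x)
      = (box R V x₀).filter (fun x => NH P t pos L V m l x) := by
    ext x
    rw [Finset.mem_filter, Finset.mem_filter, Fintype.mem_piFinset, peel_mem_box]
    constructor
    · rintro ⟨h3, h4, h5, h6⟩
      refine ⟨fun j => ⟨fun _ => h3 j, fun hj => ?_⟩, h6⟩
      rcases hall j with h | rfl | rfl
      · exact absurd h hj
      · rw [hx₀]
        simp [h4]
      · rw [hx₀]
        simp [h5, Ne.symm huw]
    · rintro ⟨h3, h6⟩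
      have h4 : x u = a := by
        rw [(h3 u).2 huR, hx₀]
        simp
      have h5 : x w = b := by
        rw [(h3 w).2 hwR, hx₀]
        simp [Ne.symm huw]
      refine ⟨fun j => ?_, h4, h5, h6⟩
      rcases hall j with h | rfl | rfl
      · exact (h3 j).1 h
      · rw [h4]
        exact ha
      · rw [h5]
        exact hb
  have hcast : ((∑ x ∈ (Fintype.piFinset V).filter
        (fun x => x u = a ∧ x w = b ∧ NH P t pos L V m l x),
        ∏ e ∈ l, mm t pos L e x : ℕ) : ℝ)
      = ∑ x ∈ box R V x₀, (if NH P t pos L V m l x then ∏ e ∈ l, (mm t pos L e x : ℝ) else 0) := by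
    rw [hset, ← Finset.sum_filter]
    push_cast
    rfl
  rw [hcast]
  refine le_trans hmain ?_
  have hC1 : 1 ≤ Chv P := chv_ge P
  have hVpos : ∀ j, (0 : ℝ) < ((V j).card : ℝ) := fun j => by
    exact_mod_cast Finset.card_pos.mpr (hV j)
  have hprod0 : 0 ≤ ∏ e ∈ l, (m / (((V e.1).card : ℝ) * ((V e.2).card : ℝ))) :=
    Finset.prod_nonneg fun e _ => div_nonneg hm.le (by positivity)
  have hcard : R.card ≤ v := by
    have := Finset.card_le_univ R
    simpa using this
  have hpow : Chv P ^ R.card ≤ Chv P ^ v := pow_le_pow_right₀ hC1 hcard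
  have hpi : ∏ j ∈ R, ((V j).card : ℝ)
      = ((Fintype.piFinset V).card : ℝ) / (((V u).card : ℝ) * ((V w).card : ℝ)) := by
    rw [Fintype.card_piFinset]
    push_cast
    have e1 : ∏ j : Fin v, ((V j).card : ℝ)
        = ((V u).card : ℝ) * ∏ j ∈ Finset.univ.erase u, ((V j).card : ℝ) :=
      (Finset.mul_prod_erase Finset.univ (fun j => ((V j).card : ℝ)) (Finset.mem_univ u)).symm
    have e2 : ∏ j ∈ Finset.univ.erase u, ((V j).card : ℝ)
        = ((V w).card : ℝ) * ∏ j ∈ R, ((V j).card : ℝ) :=
      (Finset.mul_prod_erase (Finset.univ.erase u) (fun j => ((V j).card : ℝ))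
        (Finset.mem_erase.mpr ⟨Ne.symm huw, Finset.mem_univ w⟩)).symm
    rw [e1, e2, eq_div_iff (mul_pos (hVpos u) (hVpos w)).ne']
    ring
  rw [hpi]
  unfold nrm
  calc Chv P ^ R.card * (((Fintype.piFinset V).card : ℝ) / (((V u).card : ℝ) * ((V w).card : ℝ)) *
        ∏ e ∈ l, (m / (((V e.1).card : ℝ) * ((V e.2).card : ℝ))))
      ≤ Chv P ^ v * (((Fintype.piFinset V).card : ℝ) / (((V u).card : ℝ) * ((V w).card : ℝ)) *
        ∏ e ∈ l, (m / (((V e.1).card : ℝ) * ((V e.2).card : ℝ)))) := by
        refine mul_le_mul_of_nonneg_right hpow (mul_nonneg ?_ hprod0)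
        exact div_nonneg (Nat.cast_nonneg _) (mul_nonneg (hVpos u).le (hVpos w).le)
    _ = Chv P ^ v * (((Fintype.piFinset V).card : ℝ) *
        ∏ e ∈ l, (m / (((V e.1).card : ℝ) * ((V e.2).card : ℝ)))) /
          (((V u).card : ℝ) * ((V w).card : ℝ)) := by
        ring

end Pool.Agent.CUG
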