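import Pool.Agent.CUG.Defs

set_option autoImplicit false
set_option maxHeartbeats 400000

/-!
# CUG.PRT

Cutting the dense box into parts.
-/

namespace Pool.Agent.CUG

open Pool.Agent.CUB
open scoped Classical

/-- Disjoint subsets of equal size. -/
private theorem prt_cut {α : Type} (m : ℕ) : ∀ (k : ℕ) (s : Finset α), k * m ≤ s.card →
    ∃ P : ℕ → Finset α, (∀ j < k, P j ⊆ s) ∧ (∀ j < k, (P j).card = m) ∧
      ∀ i j, i < k → j < k → i ≠ j → Disjoint (P i) (P j) := by
  intro k
  induction k with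
  | zero =>
    intro s _
    exact ⟨fun _ => ∅, by intro j hj; omega, by intro j hj; omega, by intro i j hi; omega⟩
  | succ k ih =>
    intro s hs
    have h1 : m ≤ s.card := by nlinarith
    obtain ⟨u, hu, huc⟩ := Finset.exists_subset_card_eq h1
    have h2 : k * m ≤ (s \ u).card := by
      rw [Finset.card_sdiff_of_subset hu, huc]
      have : (k + 1) * m = k * m + m := by ring
      omega
    obtain ⟨P, hP1, hP2, hP3⟩ := ih (s \ u) h2
    refine ⟨fun j => if j < k then P j else u, ?_, ?_, ?_⟩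
    · intro j hj
      by_cases hjk : j < k
      · simp only [hjk, if_true]
        exact (hP1 j hjk).trans Finset.sdiff_subset
      · simp only [hjk, if_false]
        exact hu
    · intro j hj
      by_cases hjk : j < k
      · simp only [hjk, if_true]
        exact hP2 j hjk
      · simp only [hjk, if_false]
        exact huc
    · intro i j hi hj hij
      by_cases hik : i < k
      · by_cases hjk : j < k
        · simp only [hik, hjk, if_true]
          exact hP3 i j hik hjk hij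
        · simp only [hik, hjk, if_true, if_false]
          exact (Finset.disjoint_of_subset_left (hP1 i hik) Finset.sdiff_disjoint)
      · by_cases hjk : j < k
        · simp only [hik, hjk, if_true, if_false]
          exact (Finset.disjoint_of_subset_left (hP1 j hjk) Finset.sdiff_disjoint).symm
        · exfalso; omega

/-- Cutting the dense box into parts. -/
theorem parts {kp : ℕ} (P : Prm) (v : ℕ) (pos : Fin v → Fin kp) (εin : ℝ) (hε : 0 < εin) :
    ∃ ε : ℝ, 0 < ε ∧ ε ≤ 1 ∧ ∀ κ : ℝ, 0 < κ → ∃ κ₁ : ℝ, 0 < κ₁ ∧ ∃ h₀ : ℕ, ∀ h ≥ h₀,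
    ∀ N M : ℕ, N = h ^ (8 * P.al) → M = h ^ (8 * P.ga) → ∀ γ : ℝ, 0 < γ →
    ∀ (t : Fin M × Fin kp → Fin N) (L0 : Finset (Fin M)) (Cc : Fin kp → Finset (Fin N)),
      (∀ a, κ * (N : ℝ) ≤ ((Cc a).card : ℝ)) →
      (∀ C' : Fin kp → Finset (Fin N), (∀ a, C' a ⊆ Cc a) →
          (∀ a, ε * ((Cc a).card : ℝ) ≤ ((C' a).card : ℝ)) →
          γ / 2 * (M : ℝ) * ∏ a, (((C' a).card : ℝ) / (N : ℝ))
            ≤ ((L0.filter fun i => ∀ a, t (i, a) ∈ C' a).card : ℝ)) →
      ∃ (V : Fin v → Finset (Fin N)) (Vg Vr : Fin kp → Finset (Fin N)) (nn : Fin kp → ℕ),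
        Parts pos κ₁ V Vg nn ∧ (∀ a, (Vr a).card = nn a) ∧ (∀ i, Disjoint (V i) (Vr (pos i))) ∧
        Dense t pos (clsL t pos V Vg L0) V (msz N M nn) (allE pos) εin (γ / 2) ∧
        (∀ R' : Fin kp → Finset (Fin N), (∀ a, R' a ⊆ Vr a) →
          (∀ a, (Vr a).card ≤ 2 * (R' a).card) → ∃ i ∈ L0, ∀ a, t (i, a) ∈ R' a) := by
  have hv2 : (0 : ℝ) < (v : ℝ) + 2 := by positivity
  set μ : ℝ := min εin (1 / 2) with hμ
  have hμ0 : 0 < μ := lt_min hε (by norm_num)
  have hμ1 : μ ≤ εin := min_le_left _ _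
  have hμ2 : μ ≤ 1 / 2 := min_le_right _ _
  refine ⟨μ / (2 * ((v : ℝ) + 2)), by positivity, ?_, ?_⟩
  · rw [div_le_one (by positivity)]
    have : (0 : ℝ) ≤ (v : ℝ) := Nat.cast_nonneg v
    linarith
  intro κ hκ
  refine ⟨κ / (2 * ((v : ℝ) + 2)), by positivity, ⌈((v : ℝ) + 2) / κ⌉₊ + 1, ?_⟩
  intro h hh N M hN hM γ hγ t L0 Cc hC hD
  have hh1 : 1 ≤ h := by omega
  have hNh : (h : ℝ) ≤ (N : ℝ) := by
    rw [hN]; push_cast
    exact_mod_cast Nat.le_self_pow (by have := P.hdd; omega) h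
  have hN0 : (0 : ℝ) < (N : ℝ) := by
    have : (1 : ℝ) ≤ (h : ℝ) := by exact_mod_cast hh1
    linarith
  have hM0 : (0 : ℝ) < (M : ℝ) := by
    rw [hM]; push_cast
    have : (0 : ℝ) < (h : ℝ) := by exact_mod_cast (by omega : 0 < h)
    positivity
  have hκN : ((v : ℝ) + 2) ≤ κ * (N : ℝ) := by
    have h1 : ((v : ℝ) + 2) / κ ≤ (h : ℝ) := by
      have h2 := Nat.le_ceil (((v : ℝ) + 2) / κ)
      have h3 : ((⌈((v : ℝ) + 2) / κ⌉₊ : ℕ) : ℝ) ≤ (h : ℝ) := Nat.cast_le.2 (by omega)
      linarith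
    rw [div_le_iff₀ hκ] at h1
    nlinarith
  have hcard : ∀ a, v + 2 ≤ (Cc a).card := by
    intro a
    have h1 : ((v : ℝ) + 2) ≤ ((Cc a).card : ℝ) := hκN.trans (hC a)
    exact_mod_cast h1
  clear hN hM
  obtain ⟨nn, hnn⟩ : ∃ nn : Fin kp → ℕ, ∀ a, nn a = (Cc a).card / (v + 2) :=
    ⟨fun a => (Cc a).card / (v + 2), fun a => rfl⟩
  have hnnC : ∀ a, (v + 2) * nn a ≤ (Cc a).card := fun a => by
    rw [hnn a]; exact Nat.mul_div_le _ _
  have hnn1 : ∀ a, 1 ≤ nn a := fun a => by
    rw [hnn a]; exact (Nat.one_le_div_iff (by omega)).2 (hcard a)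
  have hnn2 : ∀ a, ((Cc a).card : ℝ) ≤ 2 * ((v : ℝ) + 2) * (nn a : ℝ) := by
    intro a
    have h1 : (Cc a).card < (v + 2) * (nn a + 1) := by
      have := Nat.lt_mul_div_succ (Cc a).card (show 0 < v + 2 by omega)
      rw [hnn a]; simpa using this
    have h2 : (Cc a).card ≤ 2 * (v + 2) * nn a := by
      have := hnn1 a
      nlinarith
    exact_mod_cast h2
  have hex : ∀ a, ∃ P : ℕ → Finset (Fin N), (∀ j < v + 2, P j ⊆ Cc a) ∧
      (∀ j < v + 2, (P j).card = nn a) ∧
      ∀ i j, i < v + 2 → j < v + 2 → i ≠ j → Disjoint (P i) (P j) :=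
    fun a => prt_cut (nn a) (v + 2) (Cc a) (hnnC a)
  choose P hP1 hP2 hP3 using hex
  have hnnpos : ∀ a, (0 : ℝ) < (nn a : ℝ) := fun a => by exact_mod_cast (hnn1 a)
  have hnne : ∀ a, (nn a : ℝ) ≠ 0 := fun a => (hnnpos a).ne'
  refine ⟨fun i => P (pos i) i.1, fun a => P a v, fun a => P a (v + 1), nn, ?_, ?_, ?_, ?_, ?_⟩
  · refine ⟨?_, ?_, ?_, ?_, ?_⟩
    · intro i; exact hP2 _ _ (by have := i.2; omega)
    · intro a; exact hP2 _ _ (by omega)
    · intro a
      have h1 := hnn2 a
      have h2 := hC a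
      rw [div_mul_eq_mul_div, div_le_iff₀ (by positivity)]
      linarith
    · intro i j hij hpos
      have hij' : i.1 ≠ j.1 := fun h => hij (Fin.ext h)
      have := hP3 (pos i) i.1 j.1 (by have := i.2; omega) (by have := j.2; omega) hij'
      simpa [hpos] using this
    · intro i
      exact hP3 (pos i) i.1 v (by have := i.2; omega) (by omega) (by have := i.2; omega)
  · intro a; exact hP2 _ _ (by omega)
  · intro i
    exact hP3 (pos i) i.1 (v + 1) (by have := i.2; omega) (by omega) (by have := i.2; omega)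
  · intro e he S₁ S₂ hS₁ hS₂ hc₁ hc₂
    have hpne : pos e.1 ≠ pos e.2 := (Finset.mem_filter.1 he).2
    have hVc : ∀ i : Fin v, (P (pos i) i.1).card = nn (pos i) := fun i =>
      hP2 _ _ (by have := i.2; omega)
    simp only [hVc] at hc₁ hc₂ ⊢
    set C' : Fin kp → Finset (Fin N) := fun a =>
      if a = pos e.1 then S₁ else if a = pos e.2 then S₂ else P a v with hC'
    have hC'1 : C' (pos e.1) = S₁ := by simp [hC']
    have hC'2 : C' (pos e.2) = S₂ := by simp [hC', hpne.symm]
    have hC'3 : ∀ a, a ≠ pos e.1 → a ≠ pos e.2 → C' a = P a v := by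
      intro a h1 h2; simp [hC', h1, h2]
    have hkey : ∀ a, ∀ x : ℝ, μ * (nn a : ℝ) ≤ x →
        μ / (2 * ((v : ℝ) + 2)) * ((Cc a).card : ℝ) ≤ x := by
      intro a x hx
      have h1 := hnn2 a
      have h2 : μ / (2 * ((v : ℝ) + 2)) * ((Cc a).card : ℝ)
          ≤ μ / (2 * ((v : ℝ) + 2)) * (2 * ((v : ℝ) + 2) * (nn a : ℝ)) :=
        mul_le_mul_of_nonneg_left h1 (by positivity)
      have h3 : μ / (2 * ((v : ℝ) + 2)) * (2 * ((v : ℝ) + 2) * (nn a : ℝ)) = μ * (nn a : ℝ) := by
        field_simp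
      linarith
    have hsub : ∀ a, C' a ⊆ Cc a := by
      intro a
      by_cases h1 : a = pos e.1
      · subst h1
        rw [hC'1]
        exact hS₁.trans (hP1 _ _ (by have := e.1.2; omega))
      · by_cases h2 : a = pos e.2
        · subst h2
          rw [hC'2]
          exact hS₂.trans (hP1 _ _ (by have := e.2.2; omega))
        · rw [hC'3 a h1 h2]
          exact hP1 _ _ (by omega)
    have hbig : ∀ a, μ / (2 * ((v : ℝ) + 2)) * ((Cc a).card : ℝ) ≤ ((C' a).card : ℝ) := by
      intro a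
      apply hkey
      by_cases h1 : a = pos e.1
      · subst h1
        rw [hC'1]
        have := hnnpos (pos e.1)
        nlinarith
      · by_cases h2 : a = pos e.2
        · subst h2
          rw [hC'2]
          have := hnnpos (pos e.2)
          nlinarith
        · rw [hC'3 a h1 h2, hP2 a v (by omega)]
          have := hnnpos a
          nlinarith
    have hmain := hD C' hsub hbig
    have hprod : ∏ a, (((C' a).card : ℝ) / (N : ℝ))
        = (∏ a, ((nn a : ℝ) / (N : ℝ))) * ((S₁.card : ℝ) / (nn (pos e.1) : ℝ)) *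
          ((S₂.card : ℝ) / (nn (pos e.2) : ℝ)) := by
      have h1 : ∏ a, (((C' a).card : ℝ) / (nn a : ℝ))
          = ((S₁.card : ℝ) / (nn (pos e.1) : ℝ)) * ((S₂.card : ℝ) / (nn (pos e.2) : ℝ)) := by
        have := Fintype.prod_eq_mul (f := fun a => ((C' a).card : ℝ) / (nn a : ℝ))
          (pos e.1) (pos e.2) hpne (by
            rintro x ⟨hx1, hx2⟩
            rw [hC'3 x hx1 hx2, hP2 x v (by omega)]
            exact div_self (hnne x))
        rw [this]
        simp only [hC'1, hC'2]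
      rw [mul_assoc, ← h1, ← Finset.prod_mul_distrib]
      refine Finset.prod_congr rfl fun a _ => ?_
      have ha := hnne a
      have hN' := hN0.ne'
      rw [div_mul_div_comm, div_eq_div_iff hN' (mul_ne_zero hN' ha)]
      ring
    have hle : ((L0.filter fun i => ∀ a, t (i, a) ∈ C' a).card : ℝ)
        ≤ (((clsL t pos (fun i => P (pos i) i.1) (fun a => P a v) L0 e).filter fun i =>
          t (i, pos e.1) ∈ S₁ ∧ t (i, pos e.2) ∈ S₂).card : ℝ) := by
      refine Nat.cast_le.2 (Finset.card_le_card ?_)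
      intro i hi
      rw [Finset.mem_filter] at hi
      obtain ⟨hi0, hi1⟩ := hi
      rw [Finset.mem_filter]
      have hm1 : t (i, pos e.1) ∈ S₁ := by have := hi1 (pos e.1); rwa [hC'1] at this
      have hm2 : t (i, pos e.2) ∈ S₂ := by have := hi1 (pos e.2); rwa [hC'2] at this
      refine ⟨?_, hm1, hm2⟩
      unfold clsL
      simp only [hpne, if_false]
      unfold cls
      rw [Finset.mem_filter]
      refine ⟨hi0, ?_⟩
      intro a
      by_cases h1 : a = pos e.1
      · subst h1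
        simp only [if_true]
        exact hS₁ hm1
      · by_cases h2 : a = pos e.2
        · subst h2
          simp only [h1, if_false, if_true]
          exact hS₂ hm2
        · simp only [h1, h2, if_false]
          have := hi1 a
          rwa [hC'3 a h1 h2] at this
    refine le_trans (le_of_eq ?_) (hmain.trans hle)
    rw [hprod, msz]
    ring
  · intro R' hR1 hR2
    have hbig : ∀ a, μ / (2 * ((v : ℝ) + 2)) * ((Cc a).card : ℝ) ≤ ((R' a).card : ℝ) := by
      intro a
      have h1 := hnn2 a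
      have h2 : μ / (2 * ((v : ℝ) + 2)) * ((Cc a).card : ℝ)
          ≤ μ / (2 * ((v : ℝ) + 2)) * (2 * ((v : ℝ) + 2) * (nn a : ℝ)) :=
        mul_le_mul_of_nonneg_left h1 (by positivity)
      have h3 : μ / (2 * ((v : ℝ) + 2)) * (2 * ((v : ℝ) + 2) * (nn a : ℝ)) = μ * (nn a : ℝ) := by
        field_simp
      have h4 : (nn a : ℝ) ≤ 2 * ((R' a).card : ℝ) := by
        have := hR2 a
        rw [hP2 a (v + 1) (by omega)] at this
        exact_mod_cast this
      have h5 := hnnpos a
      have h6 : μ * (nn a : ℝ) ≤ 1 / 2 * (nn a : ℝ) := mul_le_mul_of_nonneg_right hμ2 h5.le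
      linarith
    have hmain := hD R' (fun a => (hR1 a).trans (hP1 a (v + 1) (by omega))) hbig
    have hpos : (0 : ℝ) < γ / 2 * (M : ℝ) * ∏ a, (((R' a).card : ℝ) / (N : ℝ)) := by
      have : ∀ a, (0 : ℝ) < ((R' a).card : ℝ) / (N : ℝ) := by
        intro a
        have h4 : (nn a : ℝ) ≤ 2 * ((R' a).card : ℝ) := by
          have := hR2 a
          rw [hP2 a (v + 1) (by omega)] at this
          exact_mod_cast this
        have h5 := hnnpos a
        have : (0 : ℝ) < ((R' a).card : ℝ) := by linarith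
        positivity
      have h6 : (0 : ℝ) < ∏ a, (((R' a).card : ℝ) / (N : ℝ)) := Finset.prod_pos fun a _ => this a
      exact mul_pos (mul_pos (by linarith) hM0) h6
    have hcpos : 0 < (L0.filter fun i => ∀ a, t (i, a) ∈ R' a).card := by
      have h7 := hpos.trans_le hmain
      exact Nat.cast_pos.1 h7
    obtain ⟨i, hi⟩ := Finset.card_pos.1 hcpos
    rw [Finset.mem_filter] at hi
    exact ⟨i, hi.1, hi.2⟩

end Pool.Agent.CUG
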