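import Pool.Agent.CUG.TT
import Pool.Agent.CUG.KKC
import Pool.Agent.CUG.HST
import Pool.Agent.CUG.GAD

set_option autoImplicit false

/-!
# CUG.RED

`tp = 2 b₁ + 1`, `P : Prm` with `be = 4 b₁ + 1`, `al = be dd + 2`, `ga = 2 al - be`, `mu = 2 dd + 4`. `b, B` from
`kk_ramsey_complete`. `γ = 1/(2 r b^(dd+2))`, `δ = 1/(4 (b^(dd+2)+1))`, `K, h₀` from `tt`. `I` = the set of pairs
`(s, s')` with `s, s' ≤ b₁`, `dd (s + s' - 2) + 1 < s s'`. By `kk_count` and Markov at most a quarter of the `f` have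
more than `M/2` bad configurations; by `push_unif` and `tt` at most a quarter are bad for some injective
`ι : Fin (dd+2) → Fin b`. Take a good `f`, `𝒢` from `host_del`, `G = hostG B f 𝒢`, `host_free`. Colouring:
`host_pigeon`.
-/

namespace Pool.Agent.CUG

open Pool.Agent.CUB
open scoped Classical

/-- Markov. -/
theorem RED_markov {α : Type} [Fintype α] (w : α → ℕ) (s A : ℝ)
    (h : ∑ f : α, (w f : ℝ) ≤ A) :
    (((Finset.univ : Finset α).filter fun f => s < (w f : ℝ)).card : ℝ) * s ≤ A := by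
  refine le_trans ?_ h
  calc (((Finset.univ : Finset α).filter fun f => s < (w f : ℝ)).card : ℝ) * s
      = ∑ f ∈ (Finset.univ : Finset α).filter (fun f => s < (w f : ℝ)), s := by
        rw [Finset.sum_const, nsmul_eq_mul]
    _ ≤ ∑ f ∈ (Finset.univ : Finset α).filter (fun f => s < (w f : ℝ)), (w f : ℝ) :=
        Finset.sum_le_sum fun f hf => (Finset.mem_filter.1 hf).2.le
    _ ≤ ∑ f : α, (w f : ℝ) :=
        Finset.sum_le_sum_of_subset_of_nonneg (Finset.filter_subset _ _)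
          (fun f _ _ => Nat.cast_nonneg _)

/-- Change of the decidability instance. -/
theorem RED_inst {α : Type} (p : α → Prop) (i j : DecidablePred p) (s : Finset α) :
    @Finset.filter α p i s = @Finset.filter α p j s :=
  Finset.ext fun x => (@Finset.mem_filter α p i s x).trans (@Finset.mem_filter α p j s x).symm

/-- The choice of a good configuration. -/
theorem RED_good {b N M kp : ℕ} (hN : 0 < N) (hM : 0 < M)
    (w : (Fin M × Fin b → Fin N) → ℕ) (D : ℝ) (hCD : 8 * D ≤ M)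
    (h1 : ∑ f : Fin M × Fin b → Fin N, (w f : ℝ)
        ≤ D * (Fintype.card (Fin M × Fin b → Fin N) : ℝ))
    (P : (Fin M × Fin kp → Fin N) → Prop)
    (h2 : (((Finset.univ : Finset (Fin M × Fin kp → Fin N)).filter fun t => ¬ P t).card : ℝ)
        ≤ 1 / (4 * ((b : ℝ) ^ kp + 1)) * (Fintype.card (Fin M × Fin kp → Fin N) : ℝ)) :
    ∃ f : Fin M × Fin b → Fin N, 2 * w f ≤ M ∧
      ∀ ι : Fin kp → Fin b, Function.Injective ι → P fun c => f (c.1, ι c.2) := by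
  have : Nonempty (Fin N) := ⟨⟨0, hN⟩⟩
  obtain ⟨Φ, hΦ⟩ : ∃ Φ : ℝ, Φ = (Fintype.card (Fin M × Fin b → Fin N) : ℝ) := ⟨_, rfl⟩
  have hΦ0 : 0 < Φ := by
    rw [hΦ]
    exact_mod_cast Fintype.card_pos
  have hT0 : (0 : ℝ) < (Fintype.card (Fin M × Fin kp → Fin N) : ℝ) := by
    exact_mod_cast Fintype.card_pos
  have hM0 : (0 : ℝ) < M := by exact_mod_cast hM
  rw [← hΦ] at h1
  -- first bad set
  have b1 := RED_markov w ((M : ℝ) / 2) _ h1
  obtain ⟨S1, hS1⟩ : ∃ S1 : Finset (Fin M × Fin b → Fin N),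
      S1 = (Finset.univ : Finset (Fin M × Fin b → Fin N)).filter
        fun f => (M : ℝ) / 2 < (w f : ℝ) := ⟨_, rfl⟩
  rw [← hS1] at b1
  have c1 : (S1.card : ℝ) ≤ Φ / 4 := by
    have h3 : (S1.card : ℝ) * ((M : ℝ) / 2) ≤ Φ / 4 * ((M : ℝ) / 2) := by
      refine le_trans b1 ?_
      nlinarith
    exact le_of_mul_le_mul_right h3 (by positivity)
  -- second bad sets
  let S2 : (Fin kp → Fin b) → Finset (Fin M × Fin b → Fin N) := fun ι =>
    (Finset.univ : Finset (Fin M × Fin b → Fin N)).filter fun f => ¬ P fun c => f (c.1, ι c.2)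
  have c2 : ∀ ι : Fin kp → Fin b, Function.Injective ι →
      ((S2 ι).card : ℝ) ≤ 1 / (4 * ((b : ℝ) ^ kp + 1)) * Φ := by
    intro ι hι
    have h3 : ((S2 ι).card : ℝ) * (Fintype.card (Fin M × Fin kp → Fin N) : ℝ)
        = (((Finset.univ : Finset (Fin M × Fin kp → Fin N)).filter fun t => ¬ P t).card : ℝ) *
          Φ := by
      have h30 := push_unif (N := N) (M := M) ι hι (fun t => ¬ P t)
      have e1 : ((S2 ι).card : ℝ) = ((@Finset.filter (Fin M × Fin b → Fin N)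
          (fun f => ¬ P fun c => f (c.1, ι c.2)) (fun _ => Classical.propDecidable _)
          Finset.univ).card : ℝ) :=
        congrArg (fun s : Finset (Fin M × Fin b → Fin N) => (s.card : ℝ)) (RED_inst _ _ _ _)
      have e2 : (((Finset.univ : Finset (Fin M × Fin kp → Fin N)).filter
          fun t => ¬ P t).card : ℝ) = ((@Finset.filter (Fin M × Fin kp → Fin N)
          (fun t => ¬ P t) (fun _ => Classical.propDecidable _) Finset.univ).card : ℝ) :=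
        congrArg (fun s : Finset (Fin M × Fin kp → Fin N) => (s.card : ℝ)) (RED_inst _ _ _ _)
      rw [e1, e2, hΦ]
      exact h30
    have h4 : ((S2 ι).card : ℝ) * (Fintype.card (Fin M × Fin kp → Fin N) : ℝ)
        ≤ (1 / (4 * ((b : ℝ) ^ kp + 1)) * Φ) * (Fintype.card (Fin M × Fin kp → Fin N) : ℝ) := by
      refine le_trans (le_of_eq h3) ?_
      have := mul_le_mul_of_nonneg_right h2 hΦ0.le
      refine le_trans this (le_of_eq ?_)
      ring
    exact le_of_mul_le_mul_right h4 hT0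
  obtain ⟨S3, hS3⟩ : ∃ S3 : Finset (Fin M × Fin b → Fin N),
      S3 = ((Finset.univ : Finset (Fin kp → Fin b)).filter Function.Injective).biUnion S2 :=
    ⟨_, rfl⟩
  have c3 : (S3.card : ℝ) ≤ Φ / 4 := by
    have h3 : (S3.card : ℝ) ≤
        ∑ ι ∈ (Finset.univ : Finset (Fin kp → Fin b)).filter Function.Injective,
          ((S2 ι).card : ℝ) := by
      rw [hS3]
      exact_mod_cast Finset.card_biUnion_le
    have h4 : ∑ ι ∈ (Finset.univ : Finset (Fin kp → Fin b)).filter Function.Injective,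
          ((S2 ι).card : ℝ) ≤
        ∑ ι ∈ (Finset.univ : Finset (Fin kp → Fin b)).filter Function.Injective,
          (1 / (4 * ((b : ℝ) ^ kp + 1)) * Φ) :=
      Finset.sum_le_sum fun ι hι => c2 ι (Finset.mem_filter.1 hι).2
    rw [Finset.sum_const, nsmul_eq_mul] at h4
    have h5 : ((((Finset.univ : Finset (Fin kp → Fin b)).filter Function.Injective).card : ℕ) : ℝ)
        ≤ (b : ℝ) ^ kp := by
      have h6 : ((Finset.univ : Finset (Fin kp → Fin b)).filter Function.Injective).card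
          ≤ b ^ kp := by
        refine le_trans (Finset.card_filter_le _ _) ?_
        rw [Finset.card_univ, Fintype.card_fun, Fintype.card_fin, Fintype.card_fin]
      exact_mod_cast h6
    have h7 : (0 : ℝ) < (b : ℝ) ^ kp + 1 := by positivity
    have h8 : (b : ℝ) ^ kp * (1 / (4 * ((b : ℝ) ^ kp + 1)) * Φ) ≤ Φ / 4 := by
      have h9 : (b : ℝ) ^ kp * (1 / (4 * ((b : ℝ) ^ kp + 1)) * Φ)
          = ((b : ℝ) ^ kp / ((b : ℝ) ^ kp + 1)) * (Φ / 4) := by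
        field_simp
      rw [h9]
      have h10 : (b : ℝ) ^ kp / ((b : ℝ) ^ kp + 1) ≤ 1 := by
        rw [div_le_one h7]
        linarith
      have h11 := mul_le_mul_of_nonneg_right h10 (by positivity : (0 : ℝ) ≤ Φ / 4)
      linarith
    have h12 : (0 : ℝ) ≤ 1 / (4 * ((b : ℝ) ^ kp + 1)) * Φ := by positivity
    have h13 := mul_le_mul_of_nonneg_right h5 h12
    linarith
  have hex : ∃ f : Fin M × Fin b → Fin N, f ∉ S1 ∪ S3 := by
    by_contra hcon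
    push Not at hcon
    have h3 : (Finset.univ : Finset (Fin M × Fin b → Fin N)).card ≤ (S1 ∪ S3).card :=
      Finset.card_le_card fun f _ => hcon f
    have h4 : (S1 ∪ S3).card ≤ S1.card + S3.card := Finset.card_union_le _ _
    rw [Finset.card_univ] at h3
    have h5 : Φ ≤ (S1.card : ℝ) + (S3.card : ℝ) := by
      rw [hΦ]
      exact_mod_cast h3.trans h4
    linarith
  obtain ⟨f, hf⟩ := hex
  rw [Finset.mem_union, not_or] at hf
  obtain ⟨hf1, hf3⟩ := hf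
  refine ⟨f, ?_, ?_⟩
  · rw [hS1, Finset.mem_filter, not_and] at hf1
    have h3 := hf1 (Finset.mem_univ f)
    rw [not_lt] at h3
    have h4 : (2 : ℝ) * (w f : ℝ) ≤ (M : ℝ) := by linarith
    exact_mod_cast h4
  · intro ι hι
    by_contra hP
    apply hf3
    rw [hS3, Finset.mem_biUnion]
    exact ⟨ι, Finset.mem_filter.2 ⟨Finset.mem_univ _, hι⟩,
      Finset.mem_filter.2 ⟨Finset.mem_univ _, hP⟩⟩

/-- The numerical parameters. -/
theorem RED_prm (dd : ℕ) (hd2 : 2 ≤ dd) (b₁ : ℕ) :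
    ∃ P : Prm, P.dd = dd ∧ P.al = P.be * P.dd + 2 ∧ P.be = 4 * b₁ + 1 := by
  refine ⟨⟨(4 * b₁ + 1) * dd + 2, 4 * b₁ + 1, 2 * ((4 * b₁ + 1) * dd + 2) - (4 * b₁ + 1),
    2 * dd + 4, dd, ?_, le_rfl, ?_, by omega, by omega⟩, rfl, rfl, rfl⟩
  · have h1 : (4 * b₁ + 1) * 2 ≤ (4 * b₁ + 1) * dd := Nat.mul_le_mul_left _ hd2
    omega
  · nlinarith

/-- The numerical condition of `kk_count`. -/
theorem RED_num (al be ga dd b₁ s s' : ℕ) (hga : ga + be = 2 * al) (hal : al = be * dd + 2)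
    (hbe : be = 4 * b₁ + 1) (hs : s ≤ b₁) (hs' : s' ≤ b₁)
    (h : dd * (s + s' - 2) + 1 < s * s') :
    1 ≤ s ∧ 1 ≤ s' ∧ al * (s + s') + 1 ≤ ga + be * (s * s') := by
  have h1 : 1 ≤ s := by
    rcases Nat.eq_zero_or_pos s with h0 | h0
    · rw [h0, Nat.zero_mul] at h
      exact absurd h (Nat.not_lt_zero _)
    · exact h0
  have h1' : 1 ≤ s' := by
    rcases Nat.eq_zero_or_pos s' with h0 | h0
    · rw [h0, Nat.mul_zero] at h
      exact absurd h (Nat.not_lt_zero _)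
    · exact h0
  refine ⟨h1, h1', ?_⟩
  obtain ⟨m, hm⟩ : ∃ m, s + s' = m + 2 := ⟨s + s' - 2, by omega⟩
  have hm' : s + s' - 2 = m := by omega
  rw [hm'] at h
  have h2 : be * (dd * m + 2) ≤ be * (s * s') := Nat.mul_le_mul_left _ h
  have h3 : be * (dd * m + 2) = be * dd * m + 2 * be := by ring
  have h4 : al * (m + 2) = be * dd * m + 2 * m + 2 * al := by
    rw [hal]; ring
  rw [hm, h4]
  omega

/-- Host graphs. -/
theorem host (dd : ℕ) (hd2 : 2 ≤ dd) (b₁ r : ℕ) (hr : 0 < r) :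
    ∃ b K h₀ al : ℕ, 0 < al ∧ ∀ h ≥ h₀, ∀ N : ℕ, N = h ^ al →
      ∃ G : SimpleGraph (Fin b × Fin N),
        (∀ s s', s ≤ b₁ → s' ≤ b₁ → dd * (s + s' - 2) + 1 < s * s' → KSFree s s' G) ∧
        ∀ χ : Sym2 (Fin b × Fin N) → Fin r, ∃ c : Fin r, ∀ n : ℕ, K * n ≤ N →
          ∀ H : SimpleGraph (Fin n), (∀ x, (H.neighborSet x).ncard ≤ dd + 1) →
            ∃ φ : Fin n → Fin b × Fin N, Function.Injective φ ∧
              ∀ u w, H.Adj u w → G.Adj (φ u) (φ w) ∧ χ s(φ u, φ w) = c := by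
  obtain ⟨P, hPdd, hPal, hPbe⟩ := RED_prm dd hd2 b₁
  subst hPdd
  obtain ⟨b, B, hBfree, hram⟩ := kk_ramsey_complete P.dd hd2 r hr
  have hb : 0 < b := by
    obtain ⟨i, g, hg, h⟩ := hram fun _ => ⟨0, hr⟩
    exact lt_of_le_of_lt (Nat.zero_le _) (g 0).2
  have hb4 : (0 : ℝ) < (b : ℝ) ^ (P.dd + 2) := by positivity
  have hr1 : (1 : ℝ) ≤ (r : ℝ) := by exact_mod_cast hr
  have hb1 : (1 : ℝ) ≤ (b : ℝ) ^ (P.dd + 2) := by
    have : (1 : ℝ) ≤ (b : ℝ) := by exact_mod_cast hb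
    exact one_le_pow₀ this
  obtain ⟨γ, hγ⟩ : ∃ γ : ℝ, γ = 1 / (2 * (r : ℝ) * (b : ℝ) ^ (P.dd + 2)) := ⟨_, rfl⟩
  have hden : (0 : ℝ) < 2 * (r : ℝ) * (b : ℝ) ^ (P.dd + 2) := by positivity
  have hγ0 : 0 < γ := by rw [hγ]; positivity
  have hγ1 : γ ≤ 1 := by
    rw [hγ, div_le_one hden]
    nlinarith
  have hδ0 : (0 : ℝ) < 1 / (4 * ((b : ℝ) ^ (P.dd + 2) + 1)) := by positivity
  obtain ⟨K, h₁, htt⟩ := tt P (2 * b₁ + 1) (by omega) hPal (by omega) hd2 γ _ hγ0 hγ1 hδ0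
  -- the set of pairs
  obtain ⟨I, hI⟩ : ∃ I : Finset (ℕ × ℕ), ∀ p, p ∈ I ↔
      (p.1 ≤ b₁ ∧ p.2 ≤ b₁) ∧ P.dd * (p.1 + p.2 - 2) + 1 < p.1 * p.2 := by
    refine ⟨((Finset.range (b₁ + 1)) ×ˢ (Finset.range (b₁ + 1))).filter
      (fun p => P.dd * (p.1 + p.2 - 2) + 1 < p.1 * p.2), ?_⟩
    intro p
    rw [Finset.mem_filter, Finset.mem_product, Finset.mem_range, Finset.mem_range,
      Nat.lt_succ_iff, Nat.lt_succ_iff]
  have hInum : ∀ p ∈ I, 1 ≤ p.1 ∧ 1 ≤ p.2 ∧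
      P.al * (p.1 + p.2) + 1 ≤ P.ga + P.be * (p.1 * p.2) := by
    intro p hp
    obtain ⟨⟨e1, e2⟩, e3⟩ := (hI p).1 hp
    exact RED_num P.al P.be P.ga P.dd b₁ p.1 p.2 P.hga hPal hPbe e1 e2 e3
  have hbd : P.be * P.dd ≤ P.al := by omega
  have hkk : ∀ p : ℕ × ℕ, ∃ C : ℝ, 0 < C ∧ (p ∈ I → ∀ g N M : ℕ, 1 ≤ g → N = g ^ P.al →
      M = g ^ P.ga →
      (g : ℝ) * ∑ f : Fin M × Fin b → Fin N,
        (((Finset.univ : Finset ((Fin p.1 → Fin b × Fin N) × (Fin p.2 → Fin b × Fin N) ×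
          (Fin p.1 → Fin p.2 → Fin M))).filter fun c => CrossK B f c).card : ℝ)
        ≤ C * (g : ℝ) ^ P.ga * (Fintype.card (Fin M × Fin b → Fin N) : ℝ)) := by
    intro p
    by_cases hp : p ∈ I
    · obtain ⟨C, hC0, hC⟩ := kk_count b B P.al P.be P.ga P.dd p.1 p.2 P.hga hbd hBfree
        (hInum p hp).2.2
      exact ⟨C, hC0, fun _ => hC⟩
    · exact ⟨1, one_pos, fun h => absurd h hp⟩
  choose C hC0 hC using hkk
  obtain ⟨Ct, hCt⟩ : ∃ Ct : ℝ, Ct = ∑ p ∈ I, C p := ⟨_, rfl⟩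
  refine ⟨b, K, max (max h₁ 1) ⌈8 * Ct⌉₊, 8 * P.al, by omega, ?_⟩
  intro h hh N hN
  have hh1 : h₁ ≤ h := le_trans (le_trans (le_max_left _ _) (le_max_left _ _)) hh
  have hh2 : 1 ≤ h := le_trans (le_trans (le_max_right _ _) (le_max_left _ _)) hh
  have hh3 : 8 * Ct ≤ (h : ℝ) :=
    le_trans (Nat.le_ceil _) (by exact_mod_cast le_trans (le_max_right _ _) hh)
  obtain ⟨M, hM⟩ : ∃ M : ℕ, M = h ^ (8 * P.ga) := ⟨_, rfl⟩
  have hN0 : 0 < N := by rw [hN]; exact Nat.pow_pos hh2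
  have hM0 : 0 < M := by rw [hM]; exact Nat.pow_pos hh2
  have hhr : (1 : ℝ) ≤ (h : ℝ) := by exact_mod_cast hh2
  have h2 := htt h hh1 N M hN hM
  -- the weight of a configuration
  obtain ⟨w, hw⟩ : ∃ w : (Fin M × Fin b → Fin N) → ℕ, w = fun f => ∑ p ∈ I,
      ((Finset.univ : Finset ((Fin p.1 → Fin b × Fin N) × (Fin p.2 → Fin b × Fin N) ×
          (Fin p.1 → Fin p.2 → Fin M))).filter fun c => CrossK B f c).card := ⟨_, rfl⟩
  obtain ⟨g, hg⟩ : ∃ g : ℕ, g = h ^ 8 := ⟨_, rfl⟩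
  have hg1 : 1 ≤ g := by rw [hg]; exact Nat.one_le_pow _ _ hh2
  have hg0 : (0 : ℝ) < (g : ℝ) := by exact_mod_cast hg1
  have hgh : (h : ℝ) ≤ (g : ℝ) := by
    rw [hg, Nat.cast_pow]
    exact le_self_pow₀ hhr (by norm_num)
  have hNg : N = g ^ P.al := by rw [hN, hg, ← pow_mul]
  have hMg : M = g ^ P.ga := by rw [hM, hg, ← pow_mul]
  have hMr : (M : ℝ) = (g : ℝ) ^ P.ga := by rw [hMg]; push_cast; rfl
  obtain ⟨Φ, hΦ⟩ : ∃ Φ : ℝ, Φ = (Fintype.card (Fin M × Fin b → Fin N) : ℝ) := ⟨_, rfl⟩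
  have hΦ0 : 0 ≤ Φ := by rw [hΦ]; exact Nat.cast_nonneg _
  have h1 : ∑ f : Fin M × Fin b → Fin N, (w f : ℝ) ≤ (Ct * M / g) * Φ := by
    have e1 : (g : ℝ) * ∑ f : Fin M × Fin b → Fin N, (w f : ℝ) ≤ Ct * M * Φ := by
      have e2 : ∑ f : Fin M × Fin b → Fin N, (w f : ℝ) = ∑ p ∈ I,
          ∑ f : Fin M × Fin b → Fin N,
          (((Finset.univ : Finset ((Fin p.1 → Fin b × Fin N) × (Fin p.2 → Fin b × Fin N) ×
            (Fin p.1 → Fin p.2 → Fin M))).filter fun c => CrossK B f c).card : ℝ) := by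
        rw [hw, Finset.sum_comm]
        refine Finset.sum_congr rfl fun f _ => ?_
        push_cast
        rfl
      rw [e2, Finset.mul_sum, hCt, Finset.sum_mul, Finset.sum_mul]
      refine Finset.sum_le_sum fun p hp => ?_
      have e3 := hC p hp g N M hg1 hNg hMg
      rw [← hΦ, ← hMr] at e3
      exact e3
    rw [div_mul_eq_mul_div, le_div_iff₀ hg0]
    linarith
  have hCD : 8 * (Ct * M / g) ≤ (M : ℝ) := by
    rw [← mul_div_assoc, div_le_iff₀ hg0]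
    have e1 : 8 * Ct ≤ (g : ℝ) := hh3.trans hgh
    have e2 := mul_le_mul_of_nonneg_right e1 (Nat.cast_nonneg M : (0 : ℝ) ≤ (M : ℝ))
    linarith
  rw [hΦ] at h1
  obtain ⟨f, hf1, hf2⟩ := RED_good (kp := P.dd + 2) hN0 hM0 w _ hCD h1
    (fun t => ∀ L0 : Finset (Fin M), γ * (M : ℝ) ≤ (L0.card : ℝ) →
            ∀ n : ℕ, K * n ≤ N → UnivP (P.dd + 1) t L0 n) (by
      rw [RED_inst (fun t : Fin M × Fin (P.dd + 2) → Fin N =>
        ¬ ∀ L0 : Finset (Fin M), γ * (M : ℝ) ≤ (L0.card : ℝ) →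
            ∀ n : ℕ, K * n ≤ N → UnivP (P.dd + 1) t L0 n)]
      exact h2)
  obtain ⟨𝒢, hG1, hG2⟩ := host_del B f I fun p hp => ⟨(hInum p hp).1, (hInum p hp).2.1⟩
  refine ⟨hostG B f 𝒢, ?_, ?_⟩
  · intro s s' hs hs' hss
    have hp : (s, s') ∈ I := (hI (s, s')).2 ⟨⟨hs, hs'⟩, hss⟩
    exact host_free B f 𝒢 s s' (hG2 (s, s') hp)
  intro χ
  obtain ⟨i, g', L0, hg', hL0, hcard, hadj, hcol⟩ := host_pigeon B hr hram f 𝒢 χ
  refine ⟨i, ?_⟩
  intro n hn H hH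
  have hdens : γ * (M : ℝ) ≤ (L0.card : ℝ) := by
    have hwf : w f = ∑ p ∈ I,
      ((Finset.univ : Finset ((Fin p.1 → Fin b × Fin N) × (Fin p.2 → Fin b × Fin N) ×
          (Fin p.1 → Fin p.2 → Fin M))).filter fun c => CrossK B f c).card := by rw [hw]
    rw [← hwf] at hG1
    have e1 : M ≤ 2 * (r * b ^ (P.dd + 2) * L0.card) := by
      have e0 : M ≤ 2 * 𝒢.card := by omega
      exact e0.trans (Nat.mul_le_mul_left 2 hcard)
    have e2 : (M : ℝ) ≤ 2 * ((r : ℝ) * (b : ℝ) ^ (P.dd + 2) * (L0.card : ℝ)) := by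
      exact_mod_cast e1
    rw [hγ, one_div, inv_mul_le_iff₀ hden]
    linarith
  obtain ⟨ψ, hψ1, hψ2⟩ := hf2 g' hg' L0 hdens n hn H hH
  refine ⟨fun u => (g' (ψ u).1, (ψ u).2), ?_, ?_⟩
  · intro u w' huw
    have h3 := Prod.mk.inj huw
    exact hψ1 (Prod.ext (hg' h3.1) h3.2)
  · intro u w' huw
    obtain ⟨hne, k, hk, e1, e2⟩ := hψ2 u w' huw
    refine ⟨⟨hadj _ _ hne, k, hL0 hk, e1, e2⟩, ?_⟩
    have h4 := hcol k hk _ _ hne
    change f (k, g' (ψ u).1) = (ψ u).2 at e1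
    change f (k, g' (ψ w').1) = (ψ w').2 at e2
    rw [e1, e2] at h4
    exact h4

end Pool.Agent.CUG
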