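import Pool.Agent.CUG.Defs
import Pool.Agent.PUG.TAIL

set_option autoImplicit false

/-!
# CUG.UUP

Adapt CUB/UUP.lean (only the part `uu_prob`; here all sides are `≥ κ₁ N`, simpler).
`Pool.Agent.PUG.tail_up` (Pool/Agent/PUG/TAIL.lean) with `Y = Fin kp → Fin N`, `κ = Fin M`,
`T = piFinset X`, `s = 8 M ∏ |X a|/N ≥ 8 κ₁^kp M`; union over the `2^(kp N)` choices of `X`;
`M = h^(8 (al-be)) N`, `al - be ≥ 2`.
-/

namespace Pool.Agent.CUG

open Pool.Agent.CUB
open scoped Classical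

private theorem uup_union {Ω ι : Type} [Fintype Ω] [Fintype ι] (P : Ω → Prop) (Q : ι → Ω → Prop)
    [DecidablePred P] [∀ i, DecidablePred (Q i)] (c : ℝ) (hPQ : ∀ ω, P ω → ∃ i, Q i ω)
    (hQ : ∀ i, (((Finset.univ : Finset Ω).filter (Q i)).card : ℝ) ≤ c) :
    (((Finset.univ : Finset Ω).filter P).card : ℝ) ≤ (Fintype.card ι : ℝ) * c := by
  have h1 : (Finset.univ : Finset Ω).filter P
      ⊆ (Finset.univ : Finset ι).biUnion (fun i => (Finset.univ : Finset Ω).filter (Q i)) := by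
    intro ω hω
    rw [Finset.mem_filter] at hω
    obtain ⟨i, hi⟩ := hPQ ω hω.2
    rw [Finset.mem_biUnion]
    exact ⟨i, Finset.mem_univ _, by rw [Finset.mem_filter]; exact ⟨Finset.mem_univ _, hi⟩⟩
  have h2 : ((Finset.univ : Finset Ω).filter P).card
      ≤ ∑ i : ι, ((Finset.univ : Finset Ω).filter (Q i)).card :=
    (Finset.card_le_card h1).trans Finset.card_biUnion_le
  calc (((Finset.univ : Finset Ω).filter P).card : ℝ)
      ≤ ((∑ i : ι, ((Finset.univ : Finset Ω).filter (Q i)).card : ℕ) : ℝ) := by exact_mod_cast h2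
    _ = ∑ i : ι, (((Finset.univ : Finset Ω).filter (Q i)).card : ℝ) := by push_cast; rfl
    _ ≤ ∑ _i : ι, c := Finset.sum_le_sum fun i _ => hQ i
    _ = (Fintype.card ι : ℝ) * c := by rw [Finset.sum_const, Finset.card_univ, nsmul_eq_mul]

/-- The tail bound in the form used here. -/
private theorem uup_tail {kp N M : ℕ} (T : Finset (Fin kp → Fin N)) (s : ℝ)
    (hs : 8 * (M : ℝ) * T.card ≤ s * (N : ℝ) ^ kp) :
    (((Finset.univ : Finset (Fin M × Fin kp → Fin N)).filter fun t =>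
        s ≤ (((Finset.univ : Finset (Fin M)).filter fun i => (fun a => t (i, a)) ∈ T).card : ℝ)).card : ℝ)
      ≤ Real.exp (-s) * (Fintype.card (Fin M × Fin kp → Fin N) : ℝ) := by
  have hY : (Fintype.card (Fin kp → Fin N) : ℝ) = (N : ℝ) ^ kp := by
    rw [Fintype.card_fun]; simp
  have hK : (Fintype.card (Fin M) : ℝ) = (M : ℝ) := by simp
  have h1 : (((Finset.univ : Finset (Fin M → Fin kp → Fin N)).filter fun f =>
      s ≤ (((Finset.univ : Finset (Fin M)).filter fun k => f k ∈ T).card : ℝ)).card : ℝ)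
      ≤ Real.exp (-s) * (Fintype.card (Fin kp → Fin N) : ℝ) ^ (Fintype.card (Fin M)) := by
    have h0 := Pool.Agent.PUG.tail_up (Y := Fin kp → Fin N) (κ := Fin M) T s (by
      have hY' : ∀ (i : Fintype (Fin kp → Fin N)), (@Fintype.card _ i : ℝ) = (N : ℝ) ^ kp := by
        intro i
        rw [← hY]
        congr 1
        exact congrArg (fun z => @Fintype.card _ z) (Subsingleton.elim _ _)
      rw [hY', hK]; exact hs)
    refine le_trans (le_of_eq ?_) (le_trans h0 (le_of_eq ?_))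
    · congr 2
      ext f
      simp only [Finset.mem_filter, Finset.mem_univ, true_and]
      refine iff_of_eq (congrArg (fun c : ℕ => s ≤ (c : ℝ)) ?_)
      refine congrArg Finset.card ?_
      ext k
      simp only [Finset.mem_filter, Finset.mem_univ, true_and]
    · have hY2 : ∀ (i j : Fintype (Fin kp → Fin N)),
          (@Fintype.card _ i : ℝ) = (@Fintype.card _ j : ℝ) := by
        intro i j
        exact congrArg (fun z => (@Fintype.card _ z : ℝ)) (Subsingleton.elim _ _)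
      exact congrArg (fun z : ℝ => Real.exp (-s) * z ^ Fintype.card (Fin M)) (hY2 _ _)
  have h2 : (Fintype.card (Fin M × Fin kp → Fin N) : ℝ)
      = (Fintype.card (Fin kp → Fin N) : ℝ) ^ (Fintype.card (Fin M)) := by
    rw [← Nat.cast_pow, ← Fintype.card_fun]
    exact_mod_cast Fintype.card_congr (Equiv.curry (Fin M) (Fin kp) (Fin N))
  rw [h2]
  refine le_trans (le_of_eq ?_) h1
  norm_cast
  refine Finset.card_bij (fun t _ => Equiv.curry (Fin M) (Fin kp) (Fin N) t) ?_ ?_ ?_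
  · intro t ht
    rw [Finset.mem_filter] at ht ⊢
    exact ⟨Finset.mem_univ _, ht.2⟩
  · intro t _ t' _ h
    exact (Equiv.curry (Fin M) (Fin kp) (Fin N)).injective h
  · intro f hf
    refine ⟨(Equiv.curry (Fin M) (Fin kp) (Fin N)).symm f, ?_, Equiv.apply_symm_apply _ _⟩
    rw [Finset.mem_filter] at hf ⊢
    exact ⟨Finset.mem_univ _, hf.2⟩

private theorem uup_two_pow (n : ℕ) : (2 : ℝ) ^ n ≤ Real.exp (n : ℝ) := by
  have h2 : (2 : ℝ) ≤ Real.exp 1 := by
    have := Real.add_one_le_exp (1 : ℝ); linarith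
  calc (2 : ℝ) ^ n ≤ (Real.exp 1) ^ n := pow_le_pow_left₀ (by norm_num) h2 n
    _ = Real.exp (n : ℝ) := by rw [← Real.exp_nat_mul, mul_one]

theorem uu_prob {kp : ℕ} (P : Prm) (κ₁ δ : ℝ) (hκ : 0 < κ₁) (hδ : 0 < δ) :
    ∃ h₀ : ℕ, ∀ h ≥ h₀, ∀ N M : ℕ, N = h ^ (8 * P.al) → M = h ^ (8 * P.ga) →
      (((Finset.univ : Finset (Fin M × Fin kp → Fin N)).filter fun t => ¬ UU κ₁ t).card : ℝ)
        ≤ δ * (Fintype.card (Fin M × Fin kp → Fin N) : ℝ) := by
  obtain ⟨h₁, hh₁⟩ := exists_nat_ge (((kp : ℝ) + 1) / κ₁ ^ kp)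
  obtain ⟨h₂, hh₂⟩ := exists_nat_ge (- Real.log δ)
  refine ⟨max 1 (max h₁ h₂), ?_⟩
  intro h hh N M hN hM
  have hh0 : 1 ≤ h := le_trans (le_max_left _ _) hh
  have hh1' : h₁ ≤ h := le_trans (le_trans (le_max_left _ _) (le_max_right _ _)) hh
  have hh2' : h₂ ≤ h := le_trans (le_trans (le_max_right _ _) (le_max_right _ _)) hh
  have hhr : (1 : ℝ) ≤ (h : ℝ) := by exact_mod_cast hh0
  have hhpos : (0 : ℝ) < (h : ℝ) := by linarith
  have hNr : (N : ℝ) = (h : ℝ) ^ (8 * P.al) := by rw [hN]; push_cast; rfl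
  have hMr : (M : ℝ) = (h : ℝ) ^ (8 * P.ga) := by rw [hM]; push_cast; rfl
  have hNpos : (0 : ℝ) < (N : ℝ) := by rw [hNr]; positivity
  have hMpos : (0 : ℝ) < (M : ℝ) := by rw [hMr]; positivity
  have hκp : 0 < κ₁ ^ kp := by positivity
  have hκh : (kp : ℝ) + 1 ≤ κ₁ ^ kp * (h : ℝ) := by
    have h3 : ((kp : ℝ) + 1) / κ₁ ^ kp ≤ (h : ℝ) := hh₁.trans (by exact_mod_cast hh1')
    rw [div_le_iff₀ hκp] at h3
    linarith
  -- `M ≥ h N`
  have hMN : (h : ℝ) * (N : ℝ) ≤ (M : ℝ) := by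
    rw [hNr, hMr, ← pow_succ']
    refine pow_le_pow_right₀ hhr ?_
    have e1 := P.hga
    have e2 := P.hdd
    have e3 : P.be ≤ P.be * P.dd := Nat.le_mul_of_pos_right _ P.hd
    omega
  -- the lower bound `(kp + 1) N ≤ κ₁ ^ kp M`
  have hlow : ((kp : ℝ) + 1) * (N : ℝ) ≤ κ₁ ^ kp * (M : ℝ) := by
    calc ((kp : ℝ) + 1) * (N : ℝ) ≤ (κ₁ ^ kp * (h : ℝ)) * (N : ℝ) :=
          mul_le_mul_of_nonneg_right hκh hNpos.le
      _ = κ₁ ^ kp * ((h : ℝ) * (N : ℝ)) := by ring
      _ ≤ κ₁ ^ kp * (M : ℝ) := mul_le_mul_of_nonneg_left hMN hκp.le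
  have hNh : (h : ℝ) ≤ (N : ℝ) := by
    rw [hNr]
    refine le_self_pow₀ hhr ?_
    have e2 := P.hdd
    omega
  -- the bound for one box
  let Q : (Fin kp → Finset (Fin N)) → (Fin M × Fin kp → Fin N) → Prop := fun X t =>
    (∀ a, κ₁ * (N : ℝ) ≤ ((X a).card : ℝ)) ∧
      8 * (M : ℝ) * ∏ a, (((X a).card : ℝ) / (N : ℝ))
        < (((Finset.univ : Finset (Fin M)).filter fun i => ∀ a, t (i, a) ∈ X a).card : ℝ)
  have hT : (0 : ℝ) ≤ (Fintype.card (Fin M × Fin kp → Fin N) : ℝ) := Nat.cast_nonneg _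
  have key := uup_union (Ω := Fin M × Fin kp → Fin N) (ι := Fin kp → Finset (Fin N))
    (fun t => ¬ UU κ₁ t) Q
    (Real.exp (-(((kp : ℝ) + 1) * (N : ℝ))) * (Fintype.card (Fin M × Fin kp → Fin N) : ℝ)) ?_ ?_
  · refine key.trans ?_
    have hc : (Fintype.card (Fin kp → Finset (Fin N)) : ℝ) ≤ Real.exp ((kp : ℝ) * (N : ℝ)) := by
      have h5 : Fintype.card (Fin kp → Finset (Fin N)) = 2 ^ (kp * N) := by
        rw [Fintype.card_fun, Fintype.card_finset, Fintype.card_fin,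
          Fintype.card_fin, ← pow_mul, mul_comm N kp]
      rw [h5]
      have h6 := uup_two_pow (kp * N)
      push_cast at h6 ⊢
      exact h6
    have hfin : Real.exp ((kp : ℝ) * (N : ℝ)) * Real.exp (-(((kp : ℝ) + 1) * (N : ℝ))) ≤ δ := by
      rw [← Real.exp_add]
      have h7 : (kp : ℝ) * (N : ℝ) + -(((kp : ℝ) + 1) * (N : ℝ)) ≤ Real.log δ := by
        have h9 : - Real.log δ ≤ (h : ℝ) := hh₂.trans (by exact_mod_cast hh2')
        linarith
      calc Real.exp ((kp : ℝ) * (N : ℝ) + -(((kp : ℝ) + 1) * (N : ℝ)))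
          ≤ Real.exp (Real.log δ) := Real.exp_le_exp.mpr h7
        _ = δ := Real.exp_log hδ
    calc (Fintype.card (Fin kp → Finset (Fin N)) : ℝ)
          * (Real.exp (-(((kp : ℝ) + 1) * (N : ℝ)))
            * (Fintype.card (Fin M × Fin kp → Fin N) : ℝ))
        ≤ Real.exp ((kp : ℝ) * (N : ℝ))
          * (Real.exp (-(((kp : ℝ) + 1) * (N : ℝ)))
            * (Fintype.card (Fin M × Fin kp → Fin N) : ℝ)) :=
          mul_le_mul_of_nonneg_right hc (by positivity)
      _ = (Real.exp ((kp : ℝ) * (N : ℝ)) * Real.exp (-(((kp : ℝ) + 1) * (N : ℝ))))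
          * (Fintype.card (Fin M × Fin kp → Fin N) : ℝ) := by ring
      _ ≤ δ * (Fintype.card (Fin M × Fin kp → Fin N) : ℝ) := mul_le_mul_of_nonneg_right hfin hT
  · intro t ht
    unfold UU at ht
    push Not at ht
    obtain ⟨X, h2, h3⟩ := ht
    exact ⟨X, h2, h3⟩
  · intro X
    by_cases hX : ∀ a, κ₁ * (N : ℝ) ≤ ((X a).card : ℝ)
    · have hs0 : ((kp : ℝ) + 1) * (N : ℝ) ≤ 8 * (M : ℝ) * ∏ a, (((X a).card : ℝ) / (N : ℝ)) := by
        have hp : κ₁ ^ kp ≤ ∏ a, (((X a).card : ℝ) / (N : ℝ)) := by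
          have hq : ∏ _a : Fin kp, κ₁ = κ₁ ^ kp := by simp
          rw [← hq]
          refine Finset.prod_le_prod (fun a _ => hκ.le) ?_
          intro a _
          rw [le_div_iff₀ hNpos]
          exact hX a
        have h11 := mul_le_mul_of_nonneg_left hp hMpos.le
        have h12 : 0 ≤ (M : ℝ) * ∏ a, (((X a).card : ℝ) / (N : ℝ)) := by positivity
        linarith
      have h10 := uup_tail (N := N) (M := M) (Fintype.piFinset X)
        (8 * (M : ℝ) * ∏ a, (((X a).card : ℝ) / (N : ℝ))) (by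
          rw [Fintype.card_piFinset]
          push_cast
          rw [Finset.prod_div_distrib]
          simp only [Finset.prod_const, Finset.card_univ, Fintype.card_fin]
          rw [mul_div_assoc', div_mul_cancel₀]
          positivity)
      refine le_trans ?_ (le_trans h10 ?_)
      · refine Nat.cast_le.mpr (Finset.card_le_card ?_)
        intro t ht
        rw [Finset.mem_filter] at ht ⊢
        refine ⟨Finset.mem_univ _, ?_⟩
        have h11 := ht.2.2
        refine le_trans h11.le (le_of_eq ?_)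
        congr 2
        ext i
        simp [Fintype.mem_piFinset]
      · exact mul_le_mul_of_nonneg_right (Real.exp_le_exp.mpr (by linarith)) hT
    · have : ((Finset.univ : Finset (Fin M × Fin kp → Fin N)).filter (Q X)) = ∅ := by
        rw [Finset.filter_eq_empty_iff]
        intro t _ ht
        exact hX ht.1
      rw [this]
      simp only [Finset.card_empty, Nat.cast_zero]
      positivity

end Pool.Agent.CUG
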