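import Pool.Agent.CUG.KG
import Pool.Agent.CUG.PRT
import Pool.Agent.CUG.BOX
import Pool.Agent.CUG.CRF
import Pool.Agent.CUG.MULP
import Pool.Agent.CUG.UUP
import Pool.Agent.CUG.TOTP
import Pool.Agent.CUG.HCP
import Pool.Agent.CUG.CST
import Pool.Agent.CUG.EIB
import Pool.Agent.CUG.EMU

set_option autoImplicit false

/-!
# CUG.TT

Adapt CUB/TT.lean. `J, Ds, v, pos, st` from `emb_setup`; `c₀ = γ/2`; `c, ε₄, Km, εin` from `cst` with
`Q ε₄ c εin` := the conclusion of `kg` (`∀ κ₁ δ, 0 < κ₁ → 0 < δ → ∃ h₀, ...`), `hQ = kg`, `hanti` by `pg_anti`,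
`A = 4 mu^dd`; `ε` from `parts`; `κ, κ₀` from `dense_box γ ε`; `κ₁` from `parts`; `K₁` from `tot_prob`; `c₈` from `eib`; `K` with
`1 ≤ K c₈`, `2 ≤ K κ₁`. The bad `t` violate one of `CR`, `MUL`, `UU (min κ₀ κ₁)`, `TOT`, or satisfy `MUL ∧ ¬ HC`, or for some
`s ≤ Ds` satisfy `CR ∧ HC ∧ UU κ₁ ∧ ¬ PG_s`; give each the probability `δ/(Ds + 7)`. (`UU κ` is monotone in `κ`.)
-/

namespace Pool.Agent.CUG

open Pool.Agent.CUB
open scoped Classical

theorem tt_UU_mono {kp N M : ℕ} (κ κ' : ℝ) (hκ : κ ≤ κ') (t : Fin M × Fin kp → Fin N)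
    (hU : UU κ t) : UU κ' t := by
  intro X h1
  apply hU X
  intro a
  exact le_trans (mul_le_mul_of_nonneg_right hκ (Nat.cast_nonneg _)) (h1 a)

/-- Most configurations are universal on every dense set of blocks. -/
theorem tt (P : Prm) (tp : ℕ) (htp : 1 ≤ tp) (hal : P.al = P.be * P.dd + 2)
    (hbt : P.be + 1 ≤ 2 * tp) (hd2 : 2 ≤ P.dd) (γ δ : ℝ) (hγ : 0 < γ) (hγ1 : γ ≤ 1)
    (hδ : 0 < δ) :
    ∃ K h₀ : ℕ, ∀ h ≥ h₀, ∀ N M : ℕ, N = h ^ (8 * P.al) → M = h ^ (8 * P.ga) →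
      (((Finset.univ : Finset (Fin M × Fin (P.dd + 2) → Fin N)).filter fun t =>
          ¬ ∀ L0 : Finset (Fin M), γ * (M : ℝ) ≤ (L0.card : ℝ) →
            ∀ n : ℕ, K * n ≤ N → UnivP (P.dd + 1) t L0 n).card : ℝ)
        ≤ δ * (Fintype.card (Fin M × Fin (P.dd + 2) → Fin N) : ℝ) := by
  obtain ⟨J, Ds, v, pos, st, hemb⟩ := emb_setup P tp htp hal hbt hd2
  have hc₀ : (0 : ℝ) < γ / 2 := by linarith
  have hDs : (0 : ℝ) < (Ds : ℝ) + 6 := by positivity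
  have hδ' : (0 : ℝ) < δ / ((Ds : ℝ) + 6) := div_pos hδ hDs
  set δ' : ℝ := δ / ((Ds : ℝ) + 6) with hδ'def
  obtain ⟨c, ε₄, Km, εin, hεin, hc, hε₄, hKm1, hKmm, hKms, h4, hQ⟩ :=
    cst (fun ε₄ c εin => ∀ κ₁ δ : ℝ, 0 < κ₁ → 0 < δ → ∃ h₀ : ℕ, ∀ h ≥ h₀, ∀ N M : ℕ,
      N = h ^ (8 * P.al) → M = h ^ (8 * P.ga) →
      (((Finset.univ : Finset (Fin M × Fin (P.dd + 2) → Fin N)).filter fun t =>
          CR P h t pos ∧ HC P h κ₁ t pos ∧ UU κ₁ t ∧ ¬ PG P t pos (γ / 2) εin c ε₄ κ₁).card : ℝ)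
        ≤ δ * (Fintype.card (Fin M × Fin (P.dd + 2) → Fin N) : ℝ))
      (fun ε hε => kg P v pos (γ / 2) ε hc₀ hε)
      (by
        intro ε₄ c εin εin' _ hle hQ κ₁ δ hκ hδ
        obtain ⟨h₀, hh₀⟩ := hQ κ₁ δ hκ hδ
        refine ⟨h₀, fun h hh N M hN hM => le_trans ?_ (hh₀ h hh N M hN hM)⟩
        apply Nat.cast_le.mpr
        apply Finset.card_le_card
        intro t ht
        rw [Finset.mem_filter] at ht ⊢
        exact ⟨ht.1, ht.2.1, ht.2.2.1, ht.2.2.2.1, fun hPG =>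
          ht.2.2.2.2 (pg_anti P t pos _ _ _ _ _ _ hle hPG)⟩)
      J Ds (4 * (P.mu : ℝ) ^ P.dd) (by positivity)
  obtain ⟨ε, hε, hε1, hparts⟩ := parts P v pos εin hεin
  obtain ⟨κ, hκ, κ₀, hκ₀, hb, hdb⟩ := dense_box (kp := P.dd + 2) P γ ε hγ hγ1 hε hε1
  obtain ⟨κ₁, hκ₁, hp, hparts2⟩ := hparts κ hκ
  obtain ⟨K₁, hK₁, htot⟩ := tot_prob P v pos δ' hδ'
  obtain ⟨c₈, hc₈, he, heib⟩ := eib P v pos st J Ds (γ / 2) κ₁ K₁ εin c ε₄ Km hc₀ hκ₁ hK₁
    hεin hc hε₄ hKm1 hKmm hKms h4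
  have hκm : 0 < min κ₀ κ₁ := lt_min hκ₀ hκ₁
  have hQ' : ∀ s : Fin (Ds + 1), ∃ h₀ : ℕ, ∀ h ≥ h₀, ∀ N M : ℕ,
      N = h ^ (8 * P.al) → M = h ^ (8 * P.ga) →
      (((Finset.univ : Finset (Fin M × Fin (P.dd + 2) → Fin N)).filter fun t =>
          CR P h t pos ∧ HC P h κ₁ t pos ∧ UU κ₁ t ∧
            ¬ PG P t pos (γ / 2) εin (c s) (ε₄ s) κ₁).card : ℝ)
        ≤ δ' * (Fintype.card (Fin M × Fin (P.dd + 2) → Fin N) : ℝ) := fun s =>
    hQ s (Nat.lt_succ_iff.mp s.2) κ₁ δ' hκ₁ hδ'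
  choose hk hkg2 using hQ'
  obtain ⟨h1, hcrf⟩ := crf P v pos δ' hδ'
  obtain ⟨h2, hmul⟩ := mul_prob (kp := P.dd + 2) P δ' hδ'
  obtain ⟨h3, huu⟩ := uu_prob (kp := P.dd + 2) P (min κ₀ κ₁) δ' hκm hδ'
  obtain ⟨h5, hhc⟩ := hc_prob P v pos κ₁ δ' hκ₁ hδ'
  set K : ℕ := max ⌈1 / c₈⌉₊ ⌈2 / κ₁⌉₊ with hK
  have hKc : 1 ≤ (K : ℝ) * c₈ := by
    have : 1 / c₈ ≤ (K : ℝ) :=
      le_trans (Nat.le_ceil _) (by exact_mod_cast le_max_left _ _)
    rwa [div_le_iff₀ hc₈] at this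
  have hKκ : 2 ≤ (K : ℝ) * κ₁ := by
    have : 2 / κ₁ ≤ (K : ℝ) :=
      le_trans (Nat.le_ceil _) (by exact_mod_cast le_max_right _ _)
    rwa [div_le_iff₀ hκ₁] at this
  refine ⟨K, 1 + hb + hp + he + (∑ s, hk s) + h1 + h2 + h3 + h5, ?_⟩
  intro h hh N M hN hM
  have hks : ∀ s, hk s ≤ ∑ s, hk s := fun s =>
    Finset.single_le_sum (f := hk) (fun _ _ => Nat.zero_le _) (Finset.mem_univ s)
  have e1 := hcrf h (by omega) N M hN hM
  have e2 := hmul h (by omega) N M hN hM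
  have e3 := huu h (by omega) N M hN hM
  have e4 := hhc h (by omega) N M hN hM
  have e5 := htot h (by omega) N M hN hM
  have e6 := fun s => hkg2 s h (by have := hks s; omega) N M hN hM
  set U : Finset (Fin M × Fin (P.dd + 2) → Fin N) := Finset.univ with hU
  have hsub : (U.filter fun t =>
          ¬ ∀ L0 : Finset (Fin M), γ * (M : ℝ) ≤ (L0.card : ℝ) →
            ∀ n : ℕ, K * n ≤ N → UnivP (P.dd + 1) t L0 n) ⊆
      (U.filter fun t => ¬ CR P h t pos) ∪ ((U.filter fun t => ¬ MUL P.mu t) ∪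
        ((U.filter fun t => ¬ UU (min κ₀ κ₁) t) ∪
          ((U.filter fun t => MUL P.mu t ∧ ¬ HC P h κ₁ t pos) ∪
          ((U.filter fun t => ¬ TOT P h K₁ t pos) ∪
          ((Finset.univ : Finset (Fin (Ds + 1))).biUnion fun s => U.filter fun t =>
            CR P h t pos ∧ HC P h κ₁ t pos ∧ UU κ₁ t ∧
              ¬ PG P t pos (γ / 2) εin (c s) (ε₄ s) κ₁))))) := by
    intro t ht
    rw [Finset.mem_filter] at ht
    by_contra hnot
    rw [Finset.mem_union, Finset.mem_union, Finset.mem_union, Finset.mem_union,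
      Finset.mem_union, Finset.mem_biUnion] at hnot
    simp only [Finset.mem_filter, hU, Finset.mem_univ, true_and] at hnot
    push Not at hnot
    obtain ⟨g1, g2, g3, g4, g5, g6⟩ := hnot
    have g3' : UU κ₁ t := tt_UU_mono _ _ (min_le_right _ _) t g3
    have g3'' : UU κ₀ t := tt_UU_mono _ _ (min_le_left _ _) t g3
    have g4' : HC P h κ₁ t pos := g4 g2
    have g7 : ∀ s ≤ Ds, PG P t pos (γ / 2) εin (c s) (ε₄ s) κ₁ := by
      intro s hs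
      exact g6 ⟨s, Nat.lt_succ_iff.mpr hs⟩ g1 g4' g3'
    apply ht.2
    intro L0 hL0 n hn
    obtain ⟨Cc, hCc, hC'⟩ := hdb h (by omega) N M hN hM t g3'' L0 hL0
    obtain ⟨V, Vg, Vr, nn, hP, hVr, hVrd, hDe, hR⟩ :=
      hparts2 h (by omega) N M hN hM γ hγ t L0 Cc hCc hC'
    have hnr : (K : ℝ) * (n : ℝ) ≤ (N : ℝ) := by exact_mod_cast hn
    have hn0 : (0 : ℝ) ≤ (n : ℝ) := Nat.cast_nonneg _
    have hnc : (n : ℝ) ≤ c₈ * (N : ℝ) := by
      calc (n : ℝ) = 1 * (n : ℝ) := (one_mul _).symm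
        _ ≤ ((K : ℝ) * c₈) * (n : ℝ) := mul_le_mul_of_nonneg_right hKc hn0
        _ = c₈ * ((K : ℝ) * (n : ℝ)) := by ring
        _ ≤ c₈ * (N : ℝ) := mul_le_mul_of_nonneg_left hnr hc₈.le
    refine hemb t L0 κ₁ V Vg Vr nn hP hVrd hR n ?_ ?_
    · intro a
      rw [hVr a]
      have hb1 := hP.big a
      have : (2 : ℝ) * (n : ℝ) ≤ (nn a : ℝ) := by
        calc (2 : ℝ) * (n : ℝ) ≤ ((K : ℝ) * κ₁) * (n : ℝ) :=
              mul_le_mul_of_nonneg_right hKκ hn0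
          _ = κ₁ * ((K : ℝ) * (n : ℝ)) := by ring
          _ ≤ κ₁ * (N : ℝ) := mul_le_mul_of_nonneg_left hnr hκ₁.le
          _ ≤ _ := hb1
      exact_mod_cast this
    · intro n' q ty par cl F B A hI hn' hq
      have hn'r : (n' : ℝ) ≤ (n : ℝ) := by exact_mod_cast hn'
      have hqr : (q : ℝ) ≤ (n : ℝ) := by exact_mod_cast hq
      exact heib h (by omega) N M hN hM t g1 g2 g5 g7 V Vg nn L0 hP hDe n' q ty par cl F B A
        hI (le_trans hn'r hnc) (le_trans hqr hnc)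
  have q0 := Finset.card_le_card hsub
  have q1 := Finset.card_union_le (U.filter fun t => ¬ CR P h t pos)
      ((U.filter fun t => ¬ MUL P.mu t) ∪
        ((U.filter fun t => ¬ UU (min κ₀ κ₁) t) ∪
          ((U.filter fun t => MUL P.mu t ∧ ¬ HC P h κ₁ t pos) ∪
          ((U.filter fun t => ¬ TOT P h K₁ t pos) ∪
          ((Finset.univ : Finset (Fin (Ds + 1))).biUnion fun s => U.filter fun t =>
            CR P h t pos ∧ HC P h κ₁ t pos ∧ UU κ₁ t ∧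
              ¬ PG P t pos (γ / 2) εin (c s) (ε₄ s) κ₁)))))
  have q2 := Finset.card_union_le (U.filter fun t => ¬ MUL P.mu t)
        ((U.filter fun t => ¬ UU (min κ₀ κ₁) t) ∪
          ((U.filter fun t => MUL P.mu t ∧ ¬ HC P h κ₁ t pos) ∪
          ((U.filter fun t => ¬ TOT P h K₁ t pos) ∪
          ((Finset.univ : Finset (Fin (Ds + 1))).biUnion fun s => U.filter fun t =>
            CR P h t pos ∧ HC P h κ₁ t pos ∧ UU κ₁ t ∧
              ¬ PG P t pos (γ / 2) εin (c s) (ε₄ s) κ₁))))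
  have q3 := Finset.card_union_le (U.filter fun t => ¬ UU (min κ₀ κ₁) t)
          ((U.filter fun t => MUL P.mu t ∧ ¬ HC P h κ₁ t pos) ∪
          ((U.filter fun t => ¬ TOT P h K₁ t pos) ∪
          ((Finset.univ : Finset (Fin (Ds + 1))).biUnion fun s => U.filter fun t =>
            CR P h t pos ∧ HC P h κ₁ t pos ∧ UU κ₁ t ∧
              ¬ PG P t pos (γ / 2) εin (c s) (ε₄ s) κ₁)))
  have q4 := Finset.card_union_le (U.filter fun t => MUL P.mu t ∧ ¬ HC P h κ₁ t pos)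
          ((U.filter fun t => ¬ TOT P h K₁ t pos) ∪
          ((Finset.univ : Finset (Fin (Ds + 1))).biUnion fun s => U.filter fun t =>
            CR P h t pos ∧ HC P h κ₁ t pos ∧ UU κ₁ t ∧
              ¬ PG P t pos (γ / 2) εin (c s) (ε₄ s) κ₁))
  have q5 := Finset.card_union_le (U.filter fun t => ¬ TOT P h K₁ t pos)
          ((Finset.univ : Finset (Fin (Ds + 1))).biUnion fun s => U.filter fun t =>
            CR P h t pos ∧ HC P h κ₁ t pos ∧ UU κ₁ t ∧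
              ¬ PG P t pos (γ / 2) εin (c s) (ε₄ s) κ₁)
  have q6 : ((((Finset.univ : Finset (Fin (Ds + 1))).biUnion fun s => U.filter fun t =>
            CR P h t pos ∧ HC P h κ₁ t pos ∧ UU κ₁ t ∧
              ¬ PG P t pos (γ / 2) εin (c s) (ε₄ s) κ₁).card : ℕ) : ℝ)
      ≤ ((Ds : ℝ) + 1) * (δ' * (Fintype.card (Fin M × Fin (P.dd + 2) → Fin N) : ℝ)) := by
    have w1 : ((((Finset.univ : Finset (Fin (Ds + 1))).biUnion fun s => U.filter fun t =>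
            CR P h t pos ∧ HC P h κ₁ t pos ∧ UU κ₁ t ∧
              ¬ PG P t pos (γ / 2) εin (c s) (ε₄ s) κ₁).card : ℕ) : ℝ) ≤
        ∑ s : Fin (Ds + 1), (((U.filter fun t =>
            CR P h t pos ∧ HC P h κ₁ t pos ∧ UU κ₁ t ∧
              ¬ PG P t pos (γ / 2) εin (c s) (ε₄ s) κ₁).card : ℕ) : ℝ) := by
      exact_mod_cast Finset.card_biUnion_le
    refine le_trans w1 ?_
    refine le_trans (Finset.sum_le_sum fun s _ => e6 s) ?_
    rw [Finset.sum_const, Finset.card_univ, Fintype.card_fin, nsmul_eq_mul]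
    push_cast
    exact le_rfl
  have r0 : ((U.filter fun t =>
          ¬ ∀ L0 : Finset (Fin M), γ * (M : ℝ) ≤ (L0.card : ℝ) →
            ∀ n : ℕ, K * n ≤ N → UnivP (P.dd + 1) t L0 n).card : ℝ)
      ≤ ((U.filter fun t => ¬ CR P h t pos).card : ℝ) +
        ((U.filter fun t => ¬ MUL P.mu t).card : ℝ) +
        ((U.filter fun t => ¬ UU (min κ₀ κ₁) t).card : ℝ) +
        ((U.filter fun t => MUL P.mu t ∧ ¬ HC P h κ₁ t pos).card : ℝ) +
        ((U.filter fun t => ¬ TOT P h K₁ t pos).card : ℝ) +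
        ((((Finset.univ : Finset (Fin (Ds + 1))).biUnion fun s => U.filter fun t =>
            CR P h t pos ∧ HC P h κ₁ t pos ∧ UU κ₁ t ∧
              ¬ PG P t pos (γ / 2) εin (c s) (ε₄ s) κ₁).card : ℕ) : ℝ) := by
    exact_mod_cast (by omega)
  have hfin : δ * (Fintype.card (Fin M × Fin (P.dd + 2) → Fin N) : ℝ)
      = ((Ds : ℝ) + 6) * (δ' * (Fintype.card (Fin M × Fin (P.dd + 2) → Fin N) : ℝ)) := by
    have : δ = ((Ds : ℝ) + 6) * δ' := by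
      rw [hδ'def]; field_simp
    rw [← mul_assoc, ← this]
  rw [hfin]
  refine le_trans r0 ?_
  have := add_le_add (add_le_add (add_le_add (add_le_add (add_le_add e1 e2) e3) e4) e5) q6
  refine le_trans this (le_of_eq ?_)
  ring

end Pool.Agent.CUG
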