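import Pool.Agent.CUG.EDG
import Pool.Agent.CUG.PHI

set_option autoImplicit false

/-!
# CUG.WEMG

Adapt CUB/WEMG.lean: several parents `par j` (a Finset of smaller indices), vertex dependent constants. State
after `j` steps: `φ`. For an item with vertex set `A` (closed under parents, `ty` injective) let
`A_j = {a ∈ A : a < j}`, `S = A_j.image ty`, `Φ_j = Phi t pos L V m (edg ty par A) Y S (asg ty A_j φ x₀)`. Invariant:
the first three parts of `WInv`; `(∏_{a∈A, a≥j} Kb a) Φ_j(b) < 1` for all b-items; and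
`Ψ := ∑_k ∏_i (1 + (e-1) (∏_{a∈A, a≥j} Cj a) Φ_j(k,i)) ≤ exp(μ₀ + (e-1) μ₀)`. It implies `WInv j` as in CUB.
Step `j`: `Av` from `hav`, `R = Rn V m ty par j > 0`. For an item with `j ∈ A`: the new assignment is
`update (old) (ty j) y`; `phi_step` with `Q = (par j).image ty` (all parents are in `A_j`; the edges of `edg ty par A`
inside `insert (ty j) S` and not inside `S` are exactly the `(ty i, ty j)`, `i ∈ par j`: children of `j` are larger):
`∑_{y∈V (ty j)} (∏_{i∈par j} pmul) Φ'(y) = R Φ`, so `∑_{y∈Av} Φ'(y) ≤ R Φ`; `2R ≤ Cj j |Av|`. For every b-item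
containing `j` at most `R/Kb j` elements of `Av` have `Φ'(y) > Kb j Φ`; `≤ Jb` items, so after removing them
`|Av'| ≥ |Av| - Jb R/Kb j ≥ |Av|/2 ≥ R/Cj j`. Average over `Av'`: `Φ'` has average `≤ Cj j Φ`, in every meter at most
one item contains `j`, so some `y ∈ Av'` has `Ψ' ≤ Ψ`.
-/

namespace Pool.Agent.CUG

open Pool.Agent.CUB
open scoped Classical

def WEMG_low {n : ℕ} (A : Finset (Fin n)) (j : ℕ) : Finset (Fin n) :=
  A.filter fun a => (a : ℕ) < j

noncomputable def WEMG_Ph {kp v N M n : ℕ} (t : Fin M × Fin kp → Fin N)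
    (pos : Fin v → Fin kp) (L : Fin v × Fin v → Finset (Fin M)) (V : Fin v → Finset (Fin N)) (m : ℝ)
    (ty : Fin n → Fin v) (par : Fin n → Finset (Fin n)) (x₀ : Fin v → Fin N)
    (A : Finset (Fin n)) (Y : (Fin v → Fin N) → ℝ) (j : ℕ) (φ : Fin n → Fin N) : ℝ :=
  Phi t pos L V m (edg ty par A) Y ((WEMG_low A j).image ty) (asg ty (WEMG_low A j) φ x₀)

theorem WEMG_low_zero {n : ℕ} (A : Finset (Fin n)) : WEMG_low A 0 = ∅ := by
  ext a; simp [WEMG_low]

theorem WEMG_low_out {n : ℕ} (A : Finset (Fin n)) (j : Fin n) (hj : j ∉ A) :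
    WEMG_low A ((j : ℕ) + 1) = WEMG_low A j := by
  ext a
  simp only [WEMG_low, Finset.mem_filter]
  constructor
  · rintro ⟨ha, h⟩
    refine ⟨ha, ?_⟩
    have h1 : a ≠ j := fun h' => hj (h' ▸ ha)
    have h2 : (a : ℕ) ≠ j := fun h' => h1 (Fin.ext h')
    omega
  · rintro ⟨ha, h⟩
    exact ⟨ha, by omega⟩

theorem WEMG_low_in {n : ℕ} (A : Finset (Fin n)) (j : Fin n) (hj : j ∈ A) :
    WEMG_low A ((j : ℕ) + 1) = insert j (WEMG_low A j) := by
  ext a
  simp only [WEMG_low, Finset.mem_filter, Finset.mem_insert]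
  constructor
  · rintro ⟨ha, h⟩
    by_cases h1 : a = j
    · exact Or.inl h1
    · right
      refine ⟨ha, ?_⟩
      have h2 : (a : ℕ) ≠ j := fun h' => h1 (Fin.ext h')
      omega
  · rintro (h | ⟨ha, h⟩)
    · subst h
      exact ⟨hj, by omega⟩
    · exact ⟨ha, by omega⟩

theorem WEMG_not_low {n : ℕ} (A : Finset (Fin n)) (j : Fin n) : j ∉ WEMG_low A j := by
  simp [WEMG_low]

/-- The product of `Cj` over the elements of `A` not yet treated. -/
noncomputable def WEMG_hp {n : ℕ} (Cj : Fin n → ℝ) (A : Finset (Fin n)) (j : ℕ) : ℝ :=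
  ∏ a ∈ A.filter (fun a : Fin n => j ≤ (a : ℕ)), Cj a

theorem WEMG_hp_zero {n : ℕ} (Cj : Fin n → ℝ) (A : Finset (Fin n)) :
    WEMG_hp Cj A 0 = ∏ a ∈ A, Cj a := by
  unfold WEMG_hp
  rw [Finset.filter_true_of_mem (fun a _ => Nat.zero_le _)]

theorem WEMG_hp_full {n : ℕ} (Cj : Fin n → ℝ) (A : Finset (Fin n)) (j : ℕ)
    (h : ∀ a ∈ A, (a : ℕ) < j) : WEMG_hp Cj A j = 1 := by
  unfold WEMG_hp
  rw [Finset.filter_false_of_mem (fun a ha => not_le.2 (h a ha)), Finset.prod_empty]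

theorem WEMG_hp_out {n : ℕ} (Cj : Fin n → ℝ) (A : Finset (Fin n)) (j : Fin n) (hj : j ∉ A) :
    WEMG_hp Cj A ((j : ℕ) + 1) = WEMG_hp Cj A j := by
  unfold WEMG_hp
  refine Finset.prod_congr ?_ fun _ _ => rfl
  ext a
  simp only [Finset.mem_filter]
  constructor
  · rintro ⟨ha, h⟩
    exact ⟨ha, by omega⟩
  · rintro ⟨ha, h⟩
    refine ⟨ha, ?_⟩
    have h1 : a ≠ j := fun h' => hj (h' ▸ ha)
    have h2 : (a : ℕ) ≠ j := fun h' => h1 (Fin.ext h')
    omega

theorem WEMG_hp_in {n : ℕ} (Cj : Fin n → ℝ) (A : Finset (Fin n)) (j : Fin n) (hj : j ∈ A) :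
    WEMG_hp Cj A j = Cj j * WEMG_hp Cj A ((j : ℕ) + 1) := by
  unfold WEMG_hp
  have h1 : A.filter (fun a : Fin n => (j : ℕ) ≤ (a : ℕ))
      = insert j (A.filter (fun a : Fin n => (j : ℕ) + 1 ≤ (a : ℕ))) := by
    ext a
    simp only [Finset.mem_filter, Finset.mem_insert]
    constructor
    · rintro ⟨ha, h⟩
      by_cases h1 : a = j
      · exact Or.inl h1
      · right
        refine ⟨ha, ?_⟩
        have h2 : (a : ℕ) ≠ j := fun h' => h1 (Fin.ext h')
        omega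
    · rintro (h | ⟨ha, h⟩)
      · subst h
        exact ⟨hj, le_rfl⟩
      · exact ⟨ha, by omega⟩
  rw [h1, Finset.prod_insert (by simp)]

theorem WEMG_hp_nonneg {n : ℕ} (Cj : Fin n → ℝ) (hC : ∀ j, 1 ≤ Cj j) (A : Finset (Fin n))
    (j : ℕ) : 0 ≤ WEMG_hp Cj A j :=
  Finset.prod_nonneg fun a _ => le_trans zero_le_one (hC a)

section

variable {kp v N M n : ℕ} (t : Fin M × Fin kp → Fin N)
    (pos : Fin v → Fin kp) (L : Fin v × Fin v → Finset (Fin M)) (V : Fin v → Finset (Fin N)) (m : ℝ)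
    (ty : Fin n → Fin v) (par : Fin n → Finset (Fin n)) (x₀ : Fin v → Fin N)

theorem WEMG_init (A : Finset (Fin n)) (Y : (Fin v → Fin N) → ℝ) (φ : Fin n → Fin N) :
    WEMG_Ph t pos L V m ty par x₀ A Y 0 φ = Phi t pos L V m (edg ty par A) Y ∅ x₀ := by
  unfold WEMG_Ph
  rw [WEMG_low_zero]
  have h : asg ty (∅ : Finset (Fin n)) φ x₀ = x₀ := by
    funext d
    exact asg_not ty ∅ φ x₀ d (by simp)
  rw [h, Finset.image_empty]

theorem WEMG_full (hV : ∀ i, (V i).Nonempty) (A : Finset (Fin n))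
    (Y : (Fin v → Fin N) → ℝ) (j : ℕ)
    (φ : Fin n → Fin N) (hA : ∀ k ∈ A, par k ⊆ A)
    (hYd : ∀ (x x' : Fin v → Fin N), (∀ k ∈ A, x (ty k) = x' (ty k)) → Y x = Y x')
    (hc : ∀ a ∈ A, (a : ℕ) < j) :
    WEMG_Ph t pos L V m ty par x₀ A Y j φ = Y (asg ty A φ x₀) := by
  have hl : WEMG_low A j = A := by
    ext a
    simp only [WEMG_low, Finset.mem_filter, and_iff_left_iff_imp]
    exact fun h => hc a h
  unfold WEMG_Ph
  rw [hl]
  apply phi_full t pos L V m hV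
  · intro e he
    rw [edg_mem] at he
    obtain ⟨k, hk, i, hi, rfl⟩ := he
    exact ⟨Finset.mem_image_of_mem _ (hA k hk hi), Finset.mem_image_of_mem _ hk⟩
  · intro x x' h
    exact hYd x x' (fun k hk => h _ (Finset.mem_image_of_mem _ hk))

theorem WEMG_nonneg (hm : 0 ≤ m) (A : Finset (Fin n))
    (Y : (Fin v → Fin N) → ℝ) (hY : ∀ x, 0 ≤ Y x) (j : ℕ) (φ : Fin n → Fin N) :
    0 ≤ WEMG_Ph t pos L V m ty par x₀ A Y j φ := phi_nonneg t pos L V m hm _ Y hY _ _

theorem WEMG_out (A : Finset (Fin n)) (Y : (Fin v → Fin N) → ℝ) (j : Fin n)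
    (φ : Fin n → Fin N) (y : Fin N) (hj : j ∉ A) :
    WEMG_Ph t pos L V m ty par x₀ A Y ((j : ℕ) + 1) (Function.update φ j y)
      = WEMG_Ph t pos L V m ty par x₀ A Y j φ := by
  unfold WEMG_Ph
  rw [WEMG_low_out A j hj]
  have h : asg ty (WEMG_low A j) (Function.update φ j y) x₀ = asg ty (WEMG_low A j) φ x₀ := by
    apply asg_congr
    intro k hk
    have hkj : k ≠ j := fun h => WEMG_not_low A j (h ▸ hk)
    rw [Function.update_of_ne hkj]
  rw [h]

theorem WEMG_in (A : Finset (Fin n)) (Y : (Fin v → Fin N) → ℝ) (j : Fin n)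
    (φ : Fin n → Fin N) (y : Fin N) (hj : j ∈ A) (hAi : Set.InjOn ty (A : Set (Fin n))) :
    WEMG_Ph t pos L V m ty par x₀ A Y ((j : ℕ) + 1) (Function.update φ j y)
      = Phi t pos L V m (edg ty par A) Y (insert (ty j) ((WEMG_low A j).image ty))
          (Function.update (asg ty (WEMG_low A j) φ x₀) (ty j) y) := by
  unfold WEMG_Ph
  rw [WEMG_low_in A j hj, Finset.image_insert]
  rw [asg_insert ty (WEMG_low A j) j (WEMG_not_low A j) _ φ y x₀]
  apply hAi.mono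
  intro a ha
  rw [Finset.mem_coe, Finset.mem_insert] at ha
  rcases ha with h | h
  · exact h ▸ hj
  · exact (Finset.mem_filter.1 h).1

theorem WEMG_tynot (A : Finset (Fin n)) (j : Fin n) (hj : j ∈ A)
    (hAi : Set.InjOn ty (A : Set (Fin n))) : ty j ∉ (WEMG_low A j).image ty := by
  intro h
  obtain ⟨k, hk, hkj⟩ := Finset.mem_image.1 h
  have hkA : k ∈ A := (Finset.mem_filter.1 hk).1
  have := hAi hkA hj hkj
  subst this
  exact WEMG_not_low A k hk

theorem WEMG_sum (hm : 0 < m) (hV : ∀ i, (V i).Nonempty) (hpar : ∀ j, ∀ i ∈ par j, i < j)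
    (A : Finset (Fin n)) (Y : (Fin v → Fin N) → ℝ) (hY0 : ∀ x, 0 ≤ Y x)
    (hA : ∀ k ∈ A, par k ⊆ A) (hAi : Set.InjOn ty (A : Set (Fin n)))
    (j : Fin n) (φ : Fin n → Fin N) (hj : j ∈ A) (Av : Finset (Fin N)) (hAv : Av ⊆ V (ty j))
    (hpos : ∀ y ∈ Av, ∀ i ∈ par j, 0 < pmul t pos L (ty i) (ty j) (φ i) y) :
    ∑ y ∈ Av, WEMG_Ph t pos L V m ty par x₀ A Y ((j : ℕ) + 1) (Function.update φ j y)
      ≤ Rn V m ty par j * WEMG_Ph t pos L V m ty par x₀ A Y j φ := by
  have hnot := WEMG_tynot ty A j hj hAi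
  have hmem : ∀ k ∈ A, ty k ∈ insert (ty j) ((WEMG_low A j).image ty) → k = j ∨ (k : ℕ) < j := by
    intro k hk h
    rw [Finset.mem_insert] at h
    rcases h with h | h
    · exact Or.inl (hAi hk hj h)
    · right
      obtain ⟨k', hk', hkk⟩ := Finset.mem_image.1 h
      have := hAi (Finset.mem_filter.1 hk').1 hk hkk
      subst this
      exact (Finset.mem_filter.1 hk').2
  have hin : ∀ k ∈ A, (k : ℕ) < j → ty k ∈ (WEMG_low A j).image ty := by
    intro k hk h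
    exact Finset.mem_image_of_mem _ (Finset.mem_filter.2 ⟨hk, h⟩)
  have hnn : ∀ y, 0 ≤ WEMG_Ph t pos L V m ty par x₀ A Y ((j : ℕ) + 1) (Function.update φ j y) :=
    fun y => WEMG_nonneg t pos L V m ty par x₀ hm.le A Y hY0 _ _
  have hpinj : Set.InjOn ty (par j : Set (Fin n)) :=
    hAi.mono (fun i hi => hA j hj hi)
  have hQi : ∀ f : Fin v → ℝ, ∏ u ∈ (par j).image ty, f u = ∏ i ∈ par j, f (ty i) := by
    intro f
    exact Finset.prod_image hpinj
  have h1 := phi_step t pos L V m hm hV (edg ty par A) Y ((WEMG_low A j).image ty)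
    (ty j) hnot ((par j).image ty)
    (by
      intro u hu
      obtain ⟨i, hi, rfl⟩ := Finset.mem_image.1 hu
      exact hin i (hA j hj hi) (hpar j i hi))
    (by
      intro u hu
      obtain ⟨i, hi, rfl⟩ := Finset.mem_image.1 hu
      rw [edg_mem]
      exact ⟨j, hj, i, hi, rfl⟩)
    (by
      intro e he h1 h2 h3
      rw [edg_mem] at he
      obtain ⟨k, hk, i, hi, rfl⟩ := he
      have hk' := hmem k hk h2
      rcases hk' with hk' | hk'
      · subst hk'
        exact ⟨ty i, Finset.mem_image_of_mem _ hi, rfl⟩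
      · refine absurd ⟨hin _ (hA k hk hi) ?_, hin _ hk hk'⟩ h3
        have h4 : (i : ℕ) < k := hpar k i hi
        omega)
    (asg ty (WEMG_low A j) φ x₀)
  have hasg : ∀ i ∈ par j, asg ty (WEMG_low A j) φ x₀ (ty i) = φ i := by
    intro i hi
    apply asg_mem ty (WEMG_low A j) (hAi.mono _)
    · exact Finset.mem_filter.2 ⟨hA j hj hi, hpar j i hi⟩
    · intro a ha
      exact (Finset.mem_filter.1 ha).1
  have hprod : ∀ y, (∏ u ∈ (par j).image ty,
      (pmul t pos L u (ty j) (asg ty (WEMG_low A j) φ x₀ u) y : ℝ))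
        = ∏ i ∈ par j, (pmul t pos L (ty i) (ty j) (φ i) y : ℝ) := by
    intro y
    rw [hQi (fun u => (pmul t pos L u (ty j) (asg ty (WEMG_low A j) φ x₀ u) y : ℝ))]
    refine Finset.prod_congr rfl fun i hi => ?_
    rw [hasg i hi]
  have h2 : ∑ y ∈ V (ty j), (∏ i ∈ par j, (pmul t pos L (ty i) (ty j) (φ i) y : ℝ)) *
      WEMG_Ph t pos L V m ty par x₀ A Y ((j : ℕ) + 1)
      (Function.update φ j y) = Rn V m ty par j * WEMG_Ph t pos L V m ty par x₀ A Y j φ := by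
    unfold Rn
    rw [hQi (fun u => (m / (((V u).card : ℝ) * ((V (ty j)).card : ℝ))))] at h1
    unfold WEMG_Ph at *
    rw [← h1]
    apply Finset.sum_congr rfl
    intro y _
    have h3 := WEMG_in t pos L V m ty par x₀ A Y j φ y hj hAi
    unfold WEMG_Ph at h3
    rw [h3, hprod y]
  rw [← h2]
  calc ∑ y ∈ Av, WEMG_Ph t pos L V m ty par x₀ A Y ((j : ℕ) + 1) (Function.update φ j y)
      ≤ ∑ y ∈ Av, (∏ i ∈ par j, (pmul t pos L (ty i) (ty j) (φ i) y : ℝ)) *
        WEMG_Ph t pos L V m ty par x₀ A Y ((j : ℕ) + 1) (Function.update φ j y) := by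
        apply Finset.sum_le_sum
        intro y hy
        have h3 : (1 : ℝ) ≤ ∏ i ∈ par j, (pmul t pos L (ty i) (ty j) (φ i) y : ℝ) := by
          calc (1 : ℝ) = ∏ _i ∈ par j, (1 : ℝ) := by rw [Finset.prod_const_one]
            _ ≤ _ := Finset.prod_le_prod (fun _ _ => zero_le_one) (fun i hi => by
                exact_mod_cast hpos y hy i hi)
        nlinarith [hnn y]
    _ ≤ _ := Finset.sum_le_sum_of_subset_of_nonneg hAv
        (fun y _ _ => mul_nonneg (Finset.prod_nonneg fun i _ => Nat.cast_nonneg _) (hnn y))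

theorem WEMG_Rn_pos (hm : 0 < m) (hV : ∀ i, (V i).Nonempty) (j : Fin n) :
    0 < Rn V m ty par j := by
  have hc : ∀ i, (0 : ℝ) < ((V i).card : ℝ) := by
    intro i
    exact_mod_cast Finset.card_pos.2 (hV i)
  unfold Rn
  refine mul_pos (hc _) (Finset.prod_pos fun i _ => ?_)
  exact div_pos hm (mul_pos (hc _) (hc _))

end

/-- choice of a good value. -/
theorem WEMG_choose {N : ℕ} {β : Type} (Av : Finset (Fin N)) (C Kb R : ℝ) (Jb : ℕ)
    (hC : 1 ≤ C) (hR : 0 < R) (hKb : (Jb : ℝ) * C ≤ Kb) (hKb1 : 1 ≤ Kb)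
    (hAv : 2 * R ≤ C * (Av.card : ℝ)) (J : Finset β) (hJ : J.card ≤ Jb) (fb : β → ℝ)
    (fb' : β → Fin N → ℝ) (h0 : ∀ b, 0 ≤ fb b) (h0' : ∀ b y, 0 ≤ fb' b y)
    (hs : ∀ b ∈ J, ∑ y ∈ Av, fb' b y ≤ R * fb b) (Ψ : ℝ) (Ψ' : Fin N → ℝ)
    (hΨ : ∀ B ⊆ Av, R ≤ C * (B.card : ℝ) → ∑ y ∈ B, Ψ' y ≤ (B.card : ℝ) * Ψ) :
    ∃ y ∈ Av, Ψ' y ≤ Ψ ∧ ∀ b ∈ J, fb' b y ≤ Kb * fb b := by
  have hBd : ∀ b ∈ J, Kb * ((Av.filter fun y => Kb * fb b < fb' b y).card : ℝ) ≤ R := by
    intro b hb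
    set Bd := Av.filter fun y => Kb * fb b < fb' b y with hBddef
    have h1 : (Bd.card : ℝ) * (Kb * fb b) ≤ ∑ y ∈ Bd, fb' b y := by
      rw [← nsmul_eq_mul]
      apply Finset.card_nsmul_le_sum
      intro y hy
      exact (Finset.mem_filter.1 hy).2.le
    have h2 : ∑ y ∈ Bd, fb' b y ≤ ∑ y ∈ Av, fb' b y :=
      Finset.sum_le_sum_of_subset_of_nonneg (Finset.filter_subset _ _) (fun y _ _ => h0' b y)
    have h3 := hs b hb
    rcases (h0 b).eq_or_lt with h | h
    · have hE : Bd = ∅ := by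
        rw [Finset.eq_empty_iff_forall_notMem]
        intro y hy
        obtain ⟨hyA, hlt⟩ := Finset.mem_filter.1 hy
        have h4 : fb' b y ≤ ∑ y ∈ Av, fb' b y := Finset.single_le_sum (fun y _ => h0' b y) hyA
        rw [← h] at h3 hlt
        linarith
      rw [hE]
      simp only [Finset.card_empty, Nat.cast_zero, mul_zero]
      exact hR.le
    · have h5 : (Kb * (Bd.card : ℝ)) * fb b ≤ R * fb b := by nlinarith
      exact le_of_mul_le_mul_right h5 h
  set U := J.biUnion (fun b => Av.filter fun y => Kb * fb b < fb' b y) with hU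
  have hUA : U ⊆ Av := by
    intro y hy
    obtain ⟨b, _, hb⟩ := Finset.mem_biUnion.1 hy
    exact (Finset.mem_filter.1 hb).1
  have hUc : Kb * (U.card : ℝ) ≤ (J.card : ℝ) * R := by
    have h1 : (U.card : ℝ) ≤ ∑ b ∈ J, ((Av.filter fun y => Kb * fb b < fb' b y).card : ℝ) := by
      exact_mod_cast Finset.card_biUnion_le
    calc Kb * (U.card : ℝ)
        ≤ Kb * ∑ b ∈ J, ((Av.filter fun y => Kb * fb b < fb' b y).card : ℝ) :=
          mul_le_mul_of_nonneg_left h1 (by linarith)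
      _ = ∑ b ∈ J, Kb * ((Av.filter fun y => Kb * fb b < fb' b y).card : ℝ) := by
          rw [Finset.mul_sum]
      _ ≤ ∑ b ∈ J, R := Finset.sum_le_sum hBd
      _ = (J.card : ℝ) * R := by rw [Finset.sum_const, nsmul_eq_mul]
  have hCU : C * (U.card : ℝ) ≤ R := by
    rcases Nat.eq_zero_or_pos J.card with h | h
    · have hJe : J = ∅ := Finset.card_eq_zero.1 h
      have hUe : U = ∅ := by rw [hU, hJe, Finset.biUnion_empty]
      rw [hUe]
      simp only [Finset.card_empty, Nat.cast_zero, mul_zero]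
      exact hR.le
    · have hJp : (0 : ℝ) < (J.card : ℝ) := by exact_mod_cast h
      have hJJ : (J.card : ℝ) ≤ (Jb : ℝ) := by exact_mod_cast hJ
      have hU0 : (0 : ℝ) ≤ (U.card : ℝ) := Nat.cast_nonneg _
      have h1 : (J.card : ℝ) * (C * (U.card : ℝ)) ≤ (J.card : ℝ) * R := by
        calc (J.card : ℝ) * (C * (U.card : ℝ)) ≤ (Jb : ℝ) * (C * (U.card : ℝ)) :=
              mul_le_mul_of_nonneg_right hJJ (by positivity)
          _ = ((Jb : ℝ) * C) * (U.card : ℝ) := by ring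
          _ ≤ Kb * (U.card : ℝ) := mul_le_mul_of_nonneg_right hKb hU0
          _ ≤ _ := hUc
      exact le_of_mul_le_mul_left h1 hJp
  have hBsub : Av \ U ⊆ Av := Finset.sdiff_subset
  have hBc : ((Av \ U).card : ℝ) = (Av.card : ℝ) - (U.card : ℝ) := by
    have h1 := Finset.card_sdiff_add_card_eq_card hUA
    have h2 : ((Av \ U).card : ℝ) + (U.card : ℝ) = (Av.card : ℝ) := by exact_mod_cast h1
    linarith
  have hRB : R ≤ C * ((Av \ U).card : ℝ) := by
    rw [hBc]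
    nlinarith
  have hBne : (Av \ U).Nonempty := by
    rw [Finset.nonempty_iff_ne_empty]
    intro h
    rw [h] at hRB
    simp only [Finset.card_empty, Nat.cast_zero, mul_zero] at hRB
    linarith
  have hsum := hΨ (Av \ U) hBsub hRB
  have hsum' : ∑ y ∈ Av \ U, Ψ' y ≤ ∑ _y ∈ Av \ U, Ψ := by
    rw [Finset.sum_const, nsmul_eq_mul]
    exact hsum
  obtain ⟨y, hy, hyle⟩ := Finset.exists_le_of_sum_le hBne hsum'
  obtain ⟨hyA, hyU⟩ := Finset.mem_sdiff.1 hy
  refine ⟨y, hyA, hyle, ?_⟩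
  intro b hb
  by_contra hcon
  push Not at hcon
  exact hyU (Finset.mem_biUnion.2 ⟨b, hb, Finset.mem_filter.2 ⟨hyA, hcon⟩⟩)

section

variable {kp v N M n : ℕ} (t : Fin M × Fin kp → Fin N)
    (pos : Fin v → Fin kp) (L : Fin v × Fin v → Finset (Fin M)) (V : Fin v → Finset (Fin N)) (m : ℝ)
    (ty : Fin n → Fin v) (par : Fin n → Finset (Fin n)) (x₀ : Fin v → Fin N) (Cj : Fin n → ℝ)

noncomputable def WEMG_g (A : Finset (Fin n)) (Y : (Fin v → Fin N) → ℝ) (j : ℕ)
    (φ : Fin n → Fin N) : ℝ :=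
  1 + (Real.exp 1 - 1) * (WEMG_hp Cj A j *
    WEMG_Ph t pos L V m ty par x₀ A Y j φ)

theorem WEMG_g_ge (hm : 0 ≤ m) (hC : ∀ j, 1 ≤ Cj j) (A : Finset (Fin n))
    (Y : (Fin v → Fin N) → ℝ) (hY : ∀ x, 0 ≤ Y x) (j : ℕ) (φ : Fin n → Fin N) :
    1 ≤ WEMG_g t pos L V m ty par x₀ Cj A Y j φ := by
  unfold WEMG_g
  have h1 : 0 ≤ Real.exp 1 - 1 := by
    have := Real.add_one_le_exp (1 : ℝ)
    linarith
  have h2 := WEMG_nonneg t pos L V m ty par x₀ hm A Y hY j φ
  have h3 := WEMG_hp_nonneg Cj hC A j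
  have := mul_nonneg h1 (mul_nonneg h3 h2)
  linarith

theorem WEMG_g_out (A : Finset (Fin n)) (Y : (Fin v → Fin N) → ℝ) (j : Fin n)
    (φ : Fin n → Fin N) (y : Fin N) (hj : j ∉ A) :
    WEMG_g t pos L V m ty par x₀ Cj A Y ((j : ℕ) + 1) (Function.update φ j y)
      = WEMG_g t pos L V m ty par x₀ Cj A Y j φ := by
  unfold WEMG_g
  rw [WEMG_out t pos L V m ty par x₀ A Y j φ y hj, WEMG_hp_out Cj A j hj]

theorem WEMG_g_in (hm : 0 < m) (hV : ∀ i, (V i).Nonempty) (hpar : ∀ j, ∀ i ∈ par j, i < j)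
    (hC : ∀ j, 1 ≤ Cj j)
    (A : Finset (Fin n)) (Y : (Fin v → Fin N) → ℝ) (hY0 : ∀ x, 0 ≤ Y x)
    (hA : ∀ k ∈ A, par k ⊆ A) (hAi : Set.InjOn ty (A : Set (Fin n)))
    (j : Fin n) (φ : Fin n → Fin N) (hj : j ∈ A) (Av : Finset (Fin N)) (hAv : Av ⊆ V (ty j))
    (hpos : ∀ y ∈ Av, ∀ i ∈ par j, 0 < pmul t pos L (ty i) (ty j) (φ i) y)
    (hR3 : Rn V m ty par j ≤ Cj j * (Av.card : ℝ)) :
    ∑ y ∈ Av, WEMG_g t pos L V m ty par x₀ Cj A Y ((j : ℕ) + 1) (Function.update φ j y)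
      ≤ (Av.card : ℝ) * WEMG_g t pos L V m ty par x₀ Cj A Y j φ := by
  have h1 := WEMG_sum t pos L V m ty par x₀ hm hV hpar A Y hY0 hA hAi j φ hj Av hAv hpos
  have h0 := WEMG_nonneg t pos L V m ty par x₀ hm.le A Y hY0 j φ
  unfold WEMG_g
  rw [Finset.sum_add_distrib, ← Finset.mul_sum, ← Finset.mul_sum, Finset.sum_const, nsmul_eq_mul,
    mul_one, WEMG_hp_in Cj A j hj]
  have he : 0 ≤ Real.exp 1 - 1 := by
    have := Real.add_one_le_exp (1 : ℝ)
    linarith
  have hCr := WEMG_hp_nonneg Cj hC A ((j : ℕ) + 1)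
  set r := WEMG_hp Cj A ((j : ℕ) + 1) with hr
  set P := WEMG_Ph t pos L V m ty par x₀ A Y (j : ℕ) φ with hP
  have h2 : r * ∑ y ∈ Av, WEMG_Ph t pos L V m ty par x₀ A Y ((j : ℕ) + 1)
      (Function.update φ j y) ≤ (Av.card : ℝ) * (Cj j * r * P) := by
    calc r * ∑ y ∈ Av, WEMG_Ph t pos L V m ty par x₀ A Y ((j : ℕ) + 1)
          (Function.update φ j y) ≤ r * (Rn V m ty par j * P) := mul_le_mul_of_nonneg_left h1 hCr
      _ ≤ r * ((Cj j * (Av.card : ℝ)) * P) :=
          mul_le_mul_of_nonneg_left (mul_le_mul_of_nonneg_right hR3 h0) hCr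
      _ = (Av.card : ℝ) * (Cj j * r * P) := by ring
  have h3 := mul_le_mul_of_nonneg_left h2 he
  nlinarith

/-- the meters. -/
theorem WEMG_meter (hm : 0 < m) (hV : ∀ i, (V i).Nonempty) (hpar : ∀ j, ∀ i ∈ par j, i < j)
    (hC : ∀ j, 1 ≤ Cj j) {ι : Type} [Fintype ι] (A : ι → Finset (Fin n))
    (Y : ι → (Fin v → Fin N) → ℝ) (hY0 : ∀ i x, 0 ≤ Y i x)
    (hA : ∀ i, ∀ k ∈ A i, par k ⊆ A i) (hAi : ∀ i, Set.InjOn ty (A i : Set (Fin n)))
    (hdisj : ∀ i i', i ≠ i' → Disjoint (A i) (A i'))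
    (j : Fin n) (φ : Fin n → Fin N) (Av : Finset (Fin N)) (hAv : Av ⊆ V (ty j))
    (hpos : ∀ y ∈ Av, ∀ i ∈ par j, 0 < pmul t pos L (ty i) (ty j) (φ i) y)
    (hR3 : Rn V m ty par j ≤ Cj j * (Av.card : ℝ)) :
    ∑ y ∈ Av, ∏ i, WEMG_g t pos L V m ty par x₀ Cj (A i) (Y i) ((j : ℕ) + 1) (Function.update φ j y)
      ≤ (Av.card : ℝ) * ∏ i, WEMG_g t pos L V m ty par x₀ Cj (A i) (Y i) j φ := by
  by_cases hex : ∃ i, j ∈ A i
  · obtain ⟨i0, hi0⟩ := hex
    have hoth : ∀ i, i ≠ i0 → j ∉ A i := by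
      intro i hi hji
      exact Finset.disjoint_left.1 (hdisj i i0 hi) hji hi0
    have h1 : ∀ y, ∏ i, WEMG_g t pos L V m ty par x₀ Cj (A i) (Y i) ((j : ℕ) + 1)
        (Function.update φ j y) = WEMG_g t pos L V m ty par x₀ Cj (A i0) (Y i0) ((j : ℕ) + 1)
        (Function.update φ j y) * ∏ i ∈ Finset.univ.erase i0,
          WEMG_g t pos L V m ty par x₀ Cj (A i) (Y i) j φ := by
      intro y
      rw [← Finset.mul_prod_erase Finset.univ _ (Finset.mem_univ i0)]
      congr 1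
      apply Finset.prod_congr rfl
      intro i hi
      exact WEMG_g_out t pos L V m ty par x₀ Cj (A i) (Y i) j φ y
        (hoth i (Finset.ne_of_mem_erase hi))
    rw [Finset.sum_congr rfl (fun y _ => h1 y), ← Finset.sum_mul,
      ← Finset.mul_prod_erase Finset.univ _ (Finset.mem_univ i0), ← mul_assoc]
    apply mul_le_mul_of_nonneg_right
    · exact WEMG_g_in t pos L V m ty par x₀ Cj hm hV hpar hC (A i0) (Y i0) (hY0 i0) (hA i0)
        (hAi i0) j φ hi0 Av hAv hpos hR3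
    · apply Finset.prod_nonneg
      intro i _
      have := WEMG_g_ge t pos L V m ty par x₀ Cj hm.le hC (A i) (Y i) (hY0 i) j φ
      linarith
  · push Not at hex
    rw [← nsmul_eq_mul, ← Finset.sum_const]
    apply Finset.sum_le_sum
    intro y _
    apply le_of_eq
    apply Finset.prod_congr rfl
    intro i _
    exact WEMG_g_out t pos L V m ty par x₀ Cj (A i) (Y i) j φ y (hex i)

end

/-- `exp` below its chord. -/
theorem WEMG_exp (y : ℝ) (h0 : 0 ≤ y) (h1 : y ≤ 1) :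
    Real.exp y ≤ 1 + (Real.exp 1 - 1) * y := by
  have h := convexOn_exp.2 (Set.mem_univ (0 : ℝ)) (Set.mem_univ (1 : ℝ)) (sub_nonneg.2 h1) h0
    (by ring)
  simp only [smul_eq_mul, mul_zero, mul_one, zero_add, Real.exp_zero] at h
  linarith

/-- the invariant. -/
def WEMG_Inv {kp v N M n : ℕ} {β μ ι : Type} [Fintype μ] [Fintype ι]
    (t : Fin M × Fin kp → Fin N)
    (pos : Fin v → Fin kp) (L : Fin v × Fin v → Finset (Fin M)) (V : Fin v → Finset (Fin N))
    (m μ₀ : ℝ) (Cj Kb : Fin n → ℝ) (ty : Fin n → Fin v) (par : Fin n → Finset (Fin n))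
    (x₀ : Fin v → Fin N)
    (Ab : β → Finset (Fin n)) (Yb : β → (Fin v → Fin N) → ℝ)
    (A : μ → ι → Finset (Fin n)) (Y : μ → ι → (Fin v → Fin N) → ℝ) (j : ℕ)
    (φ : Fin n → Fin N) : Prop :=
  (∀ i : Fin n, (i : ℕ) < j → φ i ∈ V (ty i)) ∧
  (∀ i : Fin n, (i : ℕ) < j → ∀ u ∈ par i, 0 < pmul t pos L (ty u) (ty i) (φ u) (φ i)) ∧
  (∀ i i' : Fin n, (i : ℕ) < j → (i' : ℕ) < j → i ≠ i' → ty i = ty i' → φ i ≠ φ i') ∧
  (∀ b : β, WEMG_hp Kb (Ab b) j *
    WEMG_Ph t pos L V m ty par x₀ (Ab b) (Yb b) j φ < 1) ∧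
  ∑ k : μ, ∏ i : ι, WEMG_g t pos L V m ty par x₀ Cj (A k i) (Y k i) j φ
    ≤ Real.exp (μ₀ + (Real.exp 1 - 1) * μ₀)

theorem WEMG_toW {kp v N M n : ℕ} (t : Fin M × Fin kp → Fin N)
    (pos : Fin v → Fin kp) (L : Fin v × Fin v → Finset (Fin M))
    (V : Fin v → Finset (Fin N)) (m μ₀ : ℝ) (Cj Kb : Fin n → ℝ)
    (ty : Fin n → Fin v) (par : Fin n → Finset (Fin n)) (x₀ : Fin v → Fin N)
    (hm : 0 < m) (hV : ∀ i, (V i).Nonempty) (hC : ∀ j, 1 ≤ Cj j)
    (hμ₀ : 0 ≤ μ₀)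
    (β : Type) (Ab : β → Finset (Fin n)) (Yb : β → (Fin v → Fin N) → ℝ)
    (hAb : ∀ b, ∀ j ∈ Ab b, par j ⊆ Ab b)
    (hYbd : ∀ b (x x' : Fin v → Fin N), (∀ j ∈ Ab b, x (ty j) = x' (ty j)) → Yb b x = Yb b x')
    (μ ι : Type) [Fintype μ] [Fintype ι] (A : μ → ι → Finset (Fin n))
    (Y : μ → ι → (Fin v → Fin N) → ℝ) (hY0 : ∀ k i x, 0 ≤ Y k i x) (hY1 : ∀ k i x, Y k i x ≤ 1)
    (hA : ∀ k i, ∀ j ∈ A k i, par j ⊆ A k i)
    (hYd : ∀ k i (x x' : Fin v → Fin N), (∀ j ∈ A k i, x (ty j) = x' (ty j)) → Y k i x = Y k i x')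
    (j : ℕ) (φ : Fin n → Fin N)
    (hI : WEMG_Inv t pos L V m μ₀ Cj Kb ty par x₀ Ab Yb A Y j φ) :
    WInv t pos L V ty par x₀ Ab Yb A Y μ₀ j φ := by
  obtain ⟨h1, h2, h3, h4, h5⟩ := hI
  refine ⟨h1, h2, h3, ?_, ?_⟩
  · intro b hb
    have h := h4 b
    rw [WEMG_full t pos L V m ty par x₀ hV (Ab b) (Yb b) j φ (hAb b) (hYbd b) hb] at h
    rw [WEMG_hp_full Kb (Ab b) j hb, one_mul] at h
    exact h
  · intro k
    have hge : ∀ k i, 1 ≤ WEMG_g t pos L V m ty par x₀ Cj (A k i) (Y k i) j φ :=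
      fun k i => WEMG_g_ge t pos L V m ty par x₀ Cj hm.le hC (A k i) (Y k i) (hY0 k i) j φ
    have h6 : ∏ i : ι, WEMG_g t pos L V m ty par x₀ Cj (A k i) (Y k i) j φ
        ≤ Real.exp (μ₀ + (Real.exp 1 - 1) * μ₀) := by
      refine le_trans ?_ h5
      exact Finset.single_le_sum (f := fun k => ∏ i : ι,
        WEMG_g t pos L V m ty par x₀ Cj (A k i) (Y k i) j φ)
        (fun k _ => Finset.prod_nonneg (fun i _ => by linarith [hge k i])) (Finset.mem_univ k)
    set T := Finset.univ.filter (fun i : ι => ∀ a ∈ A k i, (a : ℕ) < j) with hT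
    have h7 : Real.exp (∑ i ∈ T, Y k i (asg ty (A k i) φ x₀))
        ≤ ∏ i : ι, WEMG_g t pos L V m ty par x₀ Cj (A k i) (Y k i) j φ := by
      rw [Real.exp_sum]
      calc ∏ i ∈ T, Real.exp (Y k i (asg ty (A k i) φ x₀))
          ≤ ∏ i ∈ T, WEMG_g t pos L V m ty par x₀ Cj (A k i) (Y k i) j φ := by
            apply Finset.prod_le_prod
            · intro i _
              exact (Real.exp_pos _).le
            · intro i hi
              have hc := (Finset.mem_filter.1 hi).2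
              unfold WEMG_g
              rw [WEMG_full t pos L V m ty par x₀ hV (A k i) (Y k i) j φ (hA k i) (hYd k i) hc,
                WEMG_hp_full Cj (A k i) j hc, one_mul]
              exact WEMG_exp _ (hY0 k i _) (hY1 k i _)
        _ ≤ _ := by
            rw [← Finset.prod_sdiff (Finset.subset_univ T)]
            apply le_mul_of_one_le_left
            · exact Finset.prod_nonneg (fun i _ => by linarith [hge k i])
            · calc (1 : ℝ) = ∏ _i ∈ Finset.univ \ T, (1 : ℝ) := by rw [Finset.prod_const_one]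
                _ ≤ _ := Finset.prod_le_prod (fun _ _ => zero_le_one) (fun i _ => hge k i)
    have h8 := Real.exp_le_exp.1 (h7.trans h6)
    have h9 : Real.exp 1 ≤ 3 := by
      have := Real.exp_one_lt_d9
      linarith
    nlinarith

/-- Sequential embedding with potentials. `b`-items: their potential grows by at most `Kb j` in the
step `j`. Meters: the products `∏ (1 + (e - 1) (∏ remaining Cj) Phi)` do not grow. -/
theorem wemg {kp v N M n : ℕ} (t : Fin M × Fin kp → Fin N) (pos : Fin v → Fin kp)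
    (L : Fin v × Fin v → Finset (Fin M)) (V : Fin v → Finset (Fin N)) (m μ₀ : ℝ) (Jb : ℕ)
    (Cj Kb : Fin n → ℝ)
    (ty : Fin n → Fin v) (par : Fin n → Finset (Fin n)) (x₀ : Fin v → Fin N)
    (hm : 0 < m) (hV : ∀ i, (V i).Nonempty) (hC : ∀ j, 1 ≤ Cj j)
    (hKb : ∀ j, (Jb : ℝ) * Cj j ≤ Kb j) (hKb1 : ∀ j, 1 ≤ Kb j)
    (hμ₀ : 0 ≤ μ₀) (hpar : ∀ j, ∀ i ∈ par j, i < j)
    (β : Type) [Fintype β] (Ab : β → Finset (Fin n)) (Yb : β → (Fin v → Fin N) → ℝ)
    (hYb0 : ∀ b x, 0 ≤ Yb b x) (hAb : ∀ b, ∀ j ∈ Ab b, par j ⊆ Ab b)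
    (hAbi : ∀ b, Set.InjOn ty (Ab b : Set (Fin n)))
    (hYbd : ∀ b (x x' : Fin v → Fin N), (∀ j ∈ Ab b, x (ty j) = x' (ty j)) → Yb b x = Yb b x')
    (hb0 : ∀ b, (∏ j ∈ Ab b, Kb j) * Phi t pos L V m (edg ty par (Ab b)) (Yb b) ∅ x₀ < 1)
    (hJb : ∀ j, (Finset.univ.filter fun b : β => j ∈ Ab b).card ≤ Jb)
    (μ ι : Type) [Fintype μ] [Fintype ι] (A : μ → ι → Finset (Fin n))
    (Y : μ → ι → (Fin v → Fin N) → ℝ) (hY0 : ∀ k i x, 0 ≤ Y k i x) (hY1 : ∀ k i x, Y k i x ≤ 1)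
    (hA : ∀ k i, ∀ j ∈ A k i, par j ⊆ A k i)
    (hAi : ∀ k i, Set.InjOn ty (A k i : Set (Fin n)))
    (hYd : ∀ k i (x x' : Fin v → Fin N), (∀ j ∈ A k i, x (ty j) = x' (ty j)) → Y k i x = Y k i x')
    (hdisj : ∀ k i i', i ≠ i' → Disjoint (A k i) (A k i'))
    (hμ : ∀ k, ∑ i, (∏ j ∈ A k i, Cj j) * Phi t pos L V m (edg ty par (A k i)) (Y k i) ∅ x₀ ≤ μ₀)
    (hμc : (Fintype.card μ : ℝ) ≤ Real.exp μ₀)
    (hav : ∀ (j : Fin n) (φ : Fin n → Fin N),
      WInv t pos L V ty par x₀ Ab Yb A Y μ₀ (j : ℕ) φ →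
      ∃ Av : Finset (Fin N), Av ⊆ V (ty j) ∧
        (∀ y ∈ Av, ∀ i : Fin n, i < j → ty i = ty j → φ i ≠ y) ∧
        (∀ y ∈ Av, ∀ i ∈ par j, 0 < pmul t pos L (ty i) (ty j) (φ i) y) ∧
        2 * Rn V m ty par j ≤ Cj j * (Av.card : ℝ)) :
    ∃ φ : Fin n → Fin N, WInv t pos L V ty par x₀ Ab Yb A Y μ₀ n φ := by
  have he : 0 ≤ Real.exp 1 - 1 := by
    have := Real.add_one_le_exp (1 : ℝ)
    linarith
  have main : ∀ j : ℕ, j ≤ n → ∃ φ : Fin n → Fin N,
      WEMG_Inv t pos L V m μ₀ Cj Kb ty par x₀ Ab Yb A Y j φ := by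
    intro j
    induction j with
    | zero =>
      intro _
      refine ⟨fun i => (hV (ty i)).choose, ?_, ?_, ?_, ?_, ?_⟩
      · intro i hi; exact absurd hi (Nat.not_lt_zero _)
      · intro i hi; exact absurd hi (Nat.not_lt_zero _)
      · intro i i' hi; exact absurd hi (Nat.not_lt_zero _)
      · intro b
        rw [WEMG_init, WEMG_hp_zero]
        exact hb0 b
      · have h1 : ∀ k : μ, ∏ i : ι, WEMG_g t pos L V m ty par x₀ Cj (A k i) (Y k i) 0
            (fun i => (hV (ty i)).choose) ≤ Real.exp ((Real.exp 1 - 1) * μ₀) := by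
          intro k
          calc ∏ i : ι, WEMG_g t pos L V m ty par x₀ Cj (A k i) (Y k i) 0
                (fun i => (hV (ty i)).choose)
              ≤ ∏ i : ι, Real.exp ((Real.exp 1 - 1) * ((∏ j ∈ A k i, Cj j) *
                Phi t pos L V m (edg ty par (A k i)) (Y k i) ∅ x₀)) := by
                apply Finset.prod_le_prod
                · intro i _
                  have := WEMG_g_ge t pos L V m ty par x₀ Cj hm.le hC (A k i) (Y k i) (hY0 k i) 0
                    (fun i => (hV (ty i)).choose)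
                  linarith
                · intro i _
                  unfold WEMG_g
                  rw [WEMG_init, WEMG_hp_zero, add_comm]
                  exact Real.add_one_le_exp _
            _ = Real.exp (∑ i : ι, (Real.exp 1 - 1) * ((∏ j ∈ A k i, Cj j) *
                Phi t pos L V m (edg ty par (A k i)) (Y k i) ∅ x₀)) := by
                rw [Real.exp_sum]
            _ ≤ _ := by
                rw [← Finset.mul_sum]
                exact Real.exp_le_exp.2 (mul_le_mul_of_nonneg_left (hμ k) he)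
        calc _ ≤ ∑ _k : μ, Real.exp ((Real.exp 1 - 1) * μ₀) := Finset.sum_le_sum (fun k _ => h1 k)
          _ = (Fintype.card μ : ℝ) * Real.exp ((Real.exp 1 - 1) * μ₀) := by
              rw [Finset.sum_const, nsmul_eq_mul, Finset.card_univ]
          _ ≤ Real.exp μ₀ * Real.exp ((Real.exp 1 - 1) * μ₀) :=
              mul_le_mul_of_nonneg_right hμc (Real.exp_pos _).le
          _ = _ := by rw [← Real.exp_add]
    | succ j ih =>
      intro hj
      obtain ⟨φ, hφ⟩ := ih (by omega)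
      have hW := WEMG_toW t pos L V m μ₀ Cj Kb ty par x₀ hm hV hC hμ₀ β Ab Yb hAb hYbd μ ι A Y hY0
        hY1 hA hYd j φ hφ
      obtain ⟨a1, a2, a3, a4, a5⟩ := hφ
      let jj : Fin n := ⟨j, by omega⟩
      obtain ⟨Av, hAv, hAvn, hAvp, hRA⟩ := hav jj φ hW
      have hR0 := WEMG_Rn_pos V m ty par hm hV jj
      obtain ⟨y, hyA, hyΨ, hyb⟩ := WEMG_choose Av (Cj jj) (Kb jj) (Rn V m ty par jj) Jb
        (hC jj) hR0 (hKb jj) (hKb1 jj) hRA
        (Finset.univ.filter fun b : β => jj ∈ Ab b) (hJb jj)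
        (fun b => WEMG_Ph t pos L V m ty par x₀ (Ab b) (Yb b) j φ)
        (fun b y => WEMG_Ph t pos L V m ty par x₀ (Ab b) (Yb b) (j + 1) (Function.update φ jj y))
        (fun b => WEMG_nonneg t pos L V m ty par x₀ hm.le (Ab b) (Yb b) (hYb0 b) j φ)
        (fun b y => WEMG_nonneg t pos L V m ty par x₀ hm.le (Ab b) (Yb b) (hYb0 b) (j + 1) _)
        (by
          intro b hb
          exact WEMG_sum t pos L V m ty par x₀ hm hV hpar (Ab b) (Yb b) (hYb0 b) (hAb b) (hAbi b)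
            jj φ (Finset.mem_filter.1 hb).2 Av hAv hAvp)
        (∑ k : μ, ∏ i : ι, WEMG_g t pos L V m ty par x₀ Cj (A k i) (Y k i) j φ)
        (fun y => ∑ k : μ, ∏ i : ι, WEMG_g t pos L V m ty par x₀ Cj (A k i) (Y k i) (j + 1)
          (Function.update φ jj y))
        (by
          intro B hB hRB
          rw [Finset.sum_comm, Finset.mul_sum]
          apply Finset.sum_le_sum
          intro k _
          exact WEMG_meter t pos L V m ty par x₀ Cj hm hV hpar hC (A k) (Y k) (hY0 k) (hA k)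
            (hAi k) (hdisj k) jj φ B (hB.trans hAv)
            (fun y hy => hAvp y (hB hy)) hRB)
      have hup : ∀ i : Fin n, (i : ℕ) < j → Function.update φ jj y i = φ i := by
        intro i hi
        have hne : i ≠ jj := by
          intro h
          rw [h] at hi
          exact lt_irrefl _ hi
        rw [Function.update_of_ne hne]
      have hupp : ∀ i : Fin n, (i : ℕ) < j + 1 → ∀ u ∈ par i,
          Function.update φ jj y u = φ u := by
        intro i hi u hu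
        apply hup
        have : (u : ℕ) < i := hpar i u hu
        omega
      have hcase : ∀ i : Fin n, (i : ℕ) < j + 1 → (i : ℕ) < j ∨ i = jj := by
        intro i hi
        by_cases h : (i : ℕ) = j
        · right; exact Fin.ext h
        · left; omega
      have hself : Function.update φ jj y jj = y := Function.update_self _ _ _
      refine ⟨Function.update φ jj y, ?_, ?_, ?_, ?_, ?_⟩
      · intro i hi
        rcases hcase i hi with h | h
        · rw [hup i h]; exact a1 i h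
        · subst h; rw [hself]; exact hAv hyA
      · intro i hi u hu
        rw [hupp i hi u hu]
        rcases hcase i hi with h | h
        · rw [hup i h]; exact a2 i h u hu
        · subst h
          rw [hself]
          exact hAvp y hyA u hu
      · intro i i' hi hi' hne hty
        rcases hcase i hi with h | h
        · rcases hcase i' hi' with h' | h'
          · rw [hup i h, hup i' h']; exact a3 i i' h h' hne hty
          · subst h'
            rw [hself, hup i h]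
            exact hAvn y hyA i h hty
        · rcases hcase i' hi' with h' | h'
          · subst h
            rw [hself, hup i' h']
            exact (hAvn y hyA i' h' hty.symm).symm
          · exact absurd (h.trans h'.symm) hne
      · intro b
        by_cases hb : jj ∈ Ab b
        · have h1 := hyb b (Finset.mem_filter.2 ⟨Finset.mem_univ _, hb⟩)
          have h2 := a4 b
          have h3 : WEMG_hp Kb (Ab b) j = Kb jj * WEMG_hp Kb (Ab b) (j + 1) :=
            WEMG_hp_in Kb (Ab b) jj hb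
          rw [h3] at h2
          have h4 : 0 ≤ WEMG_hp Kb (Ab b) (j + 1) := WEMG_hp_nonneg Kb hKb1 (Ab b) (j + 1)
          have h5 := mul_le_mul_of_nonneg_left h1 h4
          calc _ ≤ _ := h5
            _ = Kb jj * WEMG_hp Kb (Ab b) (j + 1) *
              WEMG_Ph t pos L V m ty par x₀ (Ab b) (Yb b) j φ := by ring
            _ < 1 := h2
        · have h1 := WEMG_out t pos L V m ty par x₀ (Ab b) (Yb b) jj φ y hb
          have h2 := WEMG_hp_out Kb (Ab b) jj hb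
          have h3 : ((jj : Fin n) : ℕ) = j := rfl
          rw [h3] at h1 h2
          rw [h1, h2]
          exact a4 b
      · exact hyΨ.trans a5
  obtain ⟨φ, hφ⟩ := main n le_rfl
  exact ⟨φ, WEMG_toW t pos L V m μ₀ Cj Kb ty par x₀ hm hV hC hμ₀ β Ab Yb hAb hYbd μ ι A Y hY0
        hY1 hA hYd n φ hφ⟩

end Pool.Agent.CUG
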